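import Mathlib

/-!
MP_1c78a5_mp (Zauner), file CycLat: the group `G_L = (om - 1)⁻¹ L / L` for the lattices
`L = L0 + ℤ h`, `l ^ j h ∈ L0`, has a cyclic Sylow `l`-subgroup, whose subgroup of order `l` is the
image of `l⁻¹ L0`.

Setting. `V` is a `ℚ`-vector space, `A : V →+ V` satisfies `A (A v) = n A v - v` (multiplication by the
unit `ε`, `ε ^ 2 = n ε - 1`), `L0 = ℤ e + ℤ A e`, and `om - 1 = l ^ j U`, `U = c + d A`
(`c, d` not both divisible by the prime `l`, and `l` is inert: `x ^ 2 + n x y + y ^ 2` is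
anisotropic modulo `l`).
-/

set_option autoImplicit false

namespace Zau

open Finset

/-- A lattice with multiplication by a unit of norm one and trace `n`. -/
structure ELat (V : Type*) [AddCommGroup V] [Module ℚ V] where
  A : V →+ V
  e : V
  n : ℤ
  hA : ∀ v, A (A v) = n • A v - v
  ind : ∀ i j : ℤ, i • e + j • A e = 0 → i = 0 ∧ j = 0

variable {V : Type*} [AddCommGroup V] [Module ℚ V]

namespace ELat

variable (E : ELat V)

/-- `ℤ × ℤ → V`, `(i, j) ↦ i e + j A e` -/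
def io : ℤ × ℤ →+ V :=
  AddMonoidHom.mk' (fun x => x.1 • E.e + x.2 • E.A E.e) (by
    intro x y
    simp only [Prod.fst_add, Prod.snd_add, add_smul]
    abel)

theorem io_apply (x : ℤ × ℤ) : E.io x = x.1 • E.e + x.2 • E.A E.e := rfl

theorem io_inj : Function.Injective E.io := by
  rw [injective_iff_map_eq_zero]
  intro x hx
  obtain ⟨h1, h2⟩ := E.ind x.1 x.2 hx
  exact Prod.ext h1 h2

/-- the lattice `L0 = ℤ e + ℤ A e` -/
def L0 : AddSubgroup V := E.io.range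

theorem mem_L0 {x : V} : x ∈ E.L0 ↔ ∃ i j : ℤ, x = i • E.e + j • E.A E.e := by
  constructor
  · rintro ⟨⟨i, j⟩, rfl⟩
    exact ⟨i, j, rfl⟩
  · rintro ⟨i, j, rfl⟩
    exact ⟨(i, j), rfl⟩

/-- the matrix of `c + d A` in the basis `e, A e` -/
def mu (c d : ℤ) : ℤ × ℤ →+ ℤ × ℤ :=
  AddMonoidHom.mk' (fun x => (c * x.1 - d * x.2, c * x.2 + d * (x.1 + E.n * x.2))) (by
    intro x y
    ext
    · simp only [Prod.fst_add, Prod.snd_add]; ring
    · simp only [Prod.fst_add, Prod.snd_add]; ring)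

theorem mu_apply (c d : ℤ) (x : ℤ × ℤ) :
    E.mu c d x = (c * x.1 - d * x.2, c * x.2 + d * (x.1 + E.n * x.2)) := rfl

/-- `U = c + d A` -/
def U (c d : ℤ) : V →+ V :=
  AddMonoidHom.mk' (fun v => c • v + d • E.A v) (by
    intro x y
    simp only [map_add, smul_add]
    abel)

theorem U_apply (c d : ℤ) (v : V) : E.U c d v = c • v + d • E.A v := rfl

theorem U_io (c d : ℤ) (x : ℤ × ℤ) : E.U c d (E.io x) = E.io (E.mu c d x) := by
  rw [U_apply, io_apply, io_apply, mu_apply, map_add, map_zsmul, map_zsmul, E.hA]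
  module

/-- the norm `c ^ 2 + n c d + d ^ 2` of `c + d A` -/
def nm (c d : ℤ) : ℤ := c ^ 2 + E.n * c * d + d ^ 2

theorem U_conj (c d : ℤ) (v : V) : E.U c d (E.U (c + E.n * d) (-d) v) = E.nm c d • v := by
  simp only [U_apply, map_add, map_zsmul, E.hA, nm, smul_add, smul_sub, smul_smul]
  module

theorem U_conj' (c d : ℤ) (v : V) : E.U (c + E.n * d) (-d) (E.U c d v) = E.nm c d • v := by
  simp only [U_apply, map_add, map_zsmul, E.hA, nm, smul_add, smul_sub, smul_smul]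
  module

theorem U_mem_L0 (c d : ℤ) {x : V} (hx : x ∈ E.L0) : E.U c d x ∈ E.L0 := by
  obtain ⟨y, rfl⟩ := hx
  exact ⟨E.mu c d y, (E.U_io c d y).symm⟩

end ELat

/-- The data of the file: `l` an odd inert prime, `om - 1 = l ^ j (c + d A)`, `h` a primitive element of
`l ^ (-j) L0`. -/
structure CycDat (E : ELat V) (l j : ℕ) (c d : ℤ) (h : V) : Prop where
  prime : l.Prime
  jpos : 0 < j
  inert : ∀ x y : ℤ, (l : ℤ) ∣ x ^ 2 + E.n * x * y + y ^ 2 → (l : ℤ) ∣ x ∧ (l : ℤ) ∣ y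
  ld : ¬ (l : ℤ) ∣ d
  hh : (l : ℤ) ^ j • h ∈ E.L0
  prim : ∀ x ∈ E.L0, (l : ℤ) ^ j • h ≠ (l : ℤ) • x

namespace CycDat

variable {E : ELat V} {l j : ℕ} {c d : ℤ} {h : V}

/-- the lattice `L = L0 + ℤ h` -/
def L (_ : CycDat E l j c d h) : AddSubgroup V := E.L0 ⊔ AddSubgroup.zmultiples h

/-- `om - 1 = l ^ j (c + d A)` -/
def M (_ : CycDat E l j c d h) : V →+ V :=
  AddMonoidHom.mk' (fun v => (l : ℤ) ^ j • E.U c d v) (by
    intro x y
    rw [map_add, smul_add])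

theorem M_apply (D : CycDat E l j c d h) (v : V) : D.M v = (l : ℤ) ^ j • E.U c d v := rfl

/-- the group of all `w` with `(om - 1) w ∈ L` -/
def Gt (D : CycDat E l j c d h) : AddSubgroup V := D.L.comap D.M

theorem mem_L (D : CycDat E l j c d h) {x : V} : x ∈ D.L ↔ ∃ y ∈ E.L0, ∃ k : ℤ, x = y + k • h := by
  unfold L
  rw [AddSubgroup.mem_sup]
  constructor
  · rintro ⟨y, hy, z, hz, rfl⟩
    obtain ⟨k, rfl⟩ := AddSubgroup.mem_zmultiples_iff.1 hz
    exact ⟨y, hy, k, rfl⟩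
  · rintro ⟨y, hy, k, rfl⟩
    exact ⟨y, hy, k • h, AddSubgroup.mem_zmultiples_iff.2 ⟨k, rfl⟩, rfl⟩

theorem L0_le (D : CycDat E l j c d h) : E.L0 ≤ D.L := le_sup_left

theorem h_mem (D : CycDat E l j c d h) : h ∈ D.L := D.mem_L.2 ⟨0, E.L0.zero_mem, 1, by simp⟩

theorem mem_Gt (D : CycDat E l j c d h) {w : V} : w ∈ D.Gt ↔ D.M w ∈ D.L := Iff.rfl

theorem l_pos (D : CycDat E l j c d h) : (0 : ℤ) < l := by exact_mod_cast D.prime.pos

theorem lj_ne (D : CycDat E l j c d h) (i : ℕ) : ((l : ℤ) ^ i) ≠ 0 := pow_ne_zero _ D.l_pos.ne'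

theorem l_prime (D : CycDat E l j c d h) : Prime (l : ℤ) := Nat.prime_iff_prime_int.1 D.prime

theorem not_dvd_nm (D : CycDat E l j c d h) : ¬ (l : ℤ) ∣ E.nm c d := fun h' => D.ld (D.inert c d h').2

theorem nm_ne (D : CycDat E l j c d h) : E.nm c d ≠ 0 := fun h' => D.not_dvd_nm (by rw [h']; exact dvd_zero _)

theorem zsmul_inj {k : ℤ} (hk : k ≠ 0) {x y : V} (hxy : k • x = k • y) : x = y := by
  have h1 : (k : ℚ) • x = (k : ℚ) • y := by
    rw [Int.cast_smul_eq_zsmul, Int.cast_smul_eq_zsmul, hxy]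
  exact smul_right_injective V (show (k : ℚ) ≠ 0 by exact_mod_cast hk) h1

theorem zsmul_inv {k : ℤ} (hk : k ≠ 0) (x : V) : k • ((k : ℚ)⁻¹ • x) = x := by
  rw [← Int.cast_smul_eq_zsmul ℚ, smul_smul, mul_inv_cancel₀ (by exact_mod_cast hk), one_smul]

theorem M_L0 (D : CycDat E l j c d h) {x : V} (hx : x ∈ E.L0) : D.M x ∈ E.L0 :=
  E.L0.zsmul_mem (E.U_mem_L0 c d hx) _

theorem M_h (D : CycDat E l j c d h) : D.M h ∈ E.L0 := by
  rw [M_apply, ← map_zsmul]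
  exact E.U_mem_L0 c d D.hh

/-- `(om - 1) L ⊆ L0 ⊆ L`, so `om L ⊆ L` -/
theorem M_L (D : CycDat E l j c d h) {x : V} (hx : x ∈ D.L) : D.M x ∈ E.L0 := by
  obtain ⟨y, hy, k, rfl⟩ := D.mem_L.1 hx
  rw [map_add, map_zsmul]
  exact E.L0.add_mem (D.M_L0 hy) (E.L0.zsmul_mem D.M_h k)

theorem L_le_Gt (D : CycDat E l j c d h) : D.L ≤ D.Gt := fun _ hx => D.L0_le (D.M_L hx)

theorem M_inj (D : CycDat E l j c d h) : Function.Injective D.M := by
  rw [injective_iff_map_eq_zero]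
  intro x hx
  rw [M_apply] at hx
  have h1 : E.U c d x = 0 := zsmul_inj (D.lj_ne j) (by rw [hx, smul_zero])
  have h2 := E.U_conj' c d x
  rw [h1, map_zero] at h2
  exact zsmul_inj D.nm_ne (by rw [← h2, smul_zero])

theorem M_surj (D : CycDat E l j c d h) : Function.Surjective D.M := by
  intro v
  refine ⟨(((l : ℤ) ^ j * E.nm c d : ℤ) : ℚ)⁻¹ • E.U (c + E.n * d) (-d) v, ?_⟩
  have hne : ((l : ℤ) ^ j * E.nm c d : ℤ) ≠ 0 := mul_ne_zero (D.lj_ne j) D.nm_ne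
  apply zsmul_inj hne
  rw [← map_zsmul, zsmul_inv hne, M_apply, E.U_conj, smul_smul]

/-- the quotient `G_L = Gt / L` -/
abbrev G (D : CycDat E l j c d h) : Type _ := D.Gt ⧸ D.L.addSubgroupOf D.Gt

theorem relIndex_L0_ne (D : CycDat E l j c d h) : E.L0.relIndex D.L ≠ 0 := by
  have h1 : E.L0.relIndex D.L = E.L0.relIndex (AddSubgroup.zmultiples h) := by
    unfold L
    rw [sup_comm, AddSubgroup.relIndex_sup_right]
  rw [h1]
  have h2 : AddSubgroup.zmultiples ((l : ℤ) ^ j • h) ≤ E.L0 := by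
    rw [AddSubgroup.zmultiples_le]
    exact D.hh
  have h3 := AddSubgroup.relIndex_dvd_of_le_left (AddSubgroup.zmultiples h) h2
  intro h4
  rw [h4] at h3
  have h5 : (AddSubgroup.zmultiples ((l : ℤ) ^ j • h)).relIndex (AddSubgroup.zmultiples h) = 0 :=
    Nat.eq_zero_of_zero_dvd h3
  have h6 : (AddSubgroup.zmultiples ((l : ℤ) ^ j)).relIndex (AddSubgroup.zmultiples (1 : ℤ)) ≠ 0 := by
    have : AddSubgroup.zmultiples (1 : ℤ) = ⊤ := by
      rw [eq_top_iff]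
      intro x _
      exact AddSubgroup.mem_zmultiples_iff.2 ⟨x, by simp⟩
    rw [this, AddSubgroup.relIndex_top_right, Int.index_zmultiples]
    exact Int.natAbs_ne_zero.2 (D.lj_ne j)
  have hh0 : h ≠ 0 := by
    intro h0
    exact D.prim 0 E.L0.zero_mem (by rw [h0, smul_zero, smul_zero])
  have hinj : Function.Injective (zmultiplesHom V h) := by
    rw [injective_iff_map_eq_zero]
    intro k hk
    by_contra hk0
    apply hh0
    have : k • h = k • (0 : V) := by rw [smul_zero]; exact hk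
    exact zsmul_inj hk0 this
  have h7 := AddSubgroup.relIndex_map_map_of_injective (AddSubgroup.zmultiples ((l : ℤ) ^ j))
    (AddSubgroup.zmultiples (1 : ℤ)) hinj
  rw [AddMonoidHom.map_zmultiples, AddMonoidHom.map_zmultiples] at h7
  apply h6
  rw [← h7]
  simpa using h5

theorem mu_inj (E : ELat V) (c d : ℤ) (hn : E.nm c d ≠ 0) : Function.Injective (E.mu c d) := by
  rw [injective_iff_map_eq_zero]
  intro x hx
  rw [E.mu_apply, Prod.mk_eq_zero] at hx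
  obtain ⟨h1, h2⟩ := hx
  have h3 : E.nm c d * x.1 = 0 := by
    unfold ELat.nm
    linear_combination (c + E.n * d) * h1 + d * h2
  have h4 : E.nm c d * x.2 = 0 := by
    unfold ELat.nm
    linear_combination (-d) * h1 + c * h2
  exact Prod.ext ((mul_eq_zero.1 h3).resolve_left hn) ((mul_eq_zero.1 h4).resolve_left hn)

theorem det_mu (E : ELat V) (c d : ℤ) (hn : E.nm c d ≠ 0) :
    (E.mu c d).range.index = (E.nm c d).natAbs := by
  let f : (ℤ × ℤ) →ₗ[ℤ] (ℤ × ℤ) := (E.mu c d).toIntLinearMap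
  let N : Submodule ℤ (ℤ × ℤ) := LinearMap.range f
  have hinj : Function.Injective f := mu_inj E c d hn
  let e : (ℤ × ℤ) ≃ₗ[ℤ] N := LinearEquiv.ofInjective f hinj
  have h1 := Submodule.natAbs_det_equiv N e
  have h2 : (N.subtype ∘ₗ AddMonoidHom.toIntLinearMap ((e : (ℤ × ℤ) ≃+ N) : (ℤ × ℤ) →+ N)) = f := by
    ext <;> rfl
  have h3 : LinearMap.det f = E.nm c d := by
    rw [← LinearMap.det_toMatrix (Module.Basis.finTwoProd ℤ), Matrix.det_fin_two]
    simp only [LinearMap.toMatrix_apply]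
    simp [f, ELat.mu_apply, ELat.nm]
    ring
  have h4 : (E.mu c d).range.index = Nat.card ((ℤ × ℤ) ⧸ N) := rfl
  rw [h4, ← h1, ← h3]
  congr 2

theorem M_io (D : CycDat E l j c d h) (x : ℤ × ℤ) :
    D.M (E.io x) = E.io (E.mu ((l : ℤ) ^ j * c) ((l : ℤ) ^ j * d) x) := by
  rw [M_apply, E.U_io, ← map_zsmul]
  congr 1
  rw [E.mu_apply, E.mu_apply, Prod.smul_mk]
  ext
  · simp only [smul_eq_mul]; ring
  · simp only [smul_eq_mul]; ring

theorem nm_mul (E : ELat V) (k c d : ℤ) : E.nm (k * c) (k * d) = k ^ 2 * E.nm c d := by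
  unfold ELat.nm; ring

theorem relIndex_M_L0 (D : CycDat E l j c d h) :
    (E.L0.map D.M).relIndex E.L0 = (E.nm c d).natAbs * l ^ (2 * j) := by
  have h1 : E.L0.map D.M = ((E.mu ((l : ℤ) ^ j * c) ((l : ℤ) ^ j * d)).range).map E.io := by
    ext x
    constructor
    · rintro ⟨_, ⟨y, rfl⟩, rfl⟩
      exact ⟨_, ⟨y, rfl⟩, (D.M_io y).symm⟩
    · rintro ⟨_, ⟨y, rfl⟩, rfl⟩
      exact ⟨E.io y, ⟨y, rfl⟩, D.M_io y⟩
  have h2 : E.L0 = (⊤ : AddSubgroup (ℤ × ℤ)).map E.io := by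
    rw [ELat.L0, AddMonoidHom.range_eq_map]
  rw [h1]
  conv_lhs => rw [h2]
  rw [AddSubgroup.relIndex_map_map_of_injective _ _ E.io_inj, AddSubgroup.relIndex_top_right,
    det_mu, nm_mul, Int.natAbs_mul, ← pow_mul, Int.natAbs_pow, Int.natAbs_natCast, mul_comm j 2,
    mul_comm]
  rw [nm_mul]
  exact mul_ne_zero (pow_ne_zero _ (D.lj_ne j)) D.nm_ne

theorem card_G (D : CycDat E l j c d h) : Nat.card D.G = (E.nm c d).natAbs * l ^ (2 * j) := by
  have h0 : Nat.card D.G = D.L.relIndex D.Gt := rfl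
  have h1 : D.Gt.map D.M = D.L := AddSubgroup.map_comap_eq_self_of_surjective D.M_surj D.L
  have h2 := AddSubgroup.relIndex_map_map_of_injective D.L D.Gt D.M_inj
  have h3 := AddSubgroup.relIndex_map_map_of_injective E.L0 D.L D.M_inj
  have le1 : E.L0.map D.M ≤ D.L.map D.M := AddSubgroup.map_mono D.L0_le
  have le2 : D.L.map D.M ≤ D.L := by
    rintro _ ⟨y, hy, rfl⟩
    exact D.L0_le (D.M_L hy)
  have le3 : E.L0.map D.M ≤ E.L0 := by
    rintro _ ⟨y, hy, rfl⟩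
    exact D.M_L0 hy
  have h4 := AddSubgroup.relIndex_mul_relIndex _ _ _ le1 le2
  have h5 := AddSubgroup.relIndex_mul_relIndex _ _ _ le3 D.L0_le
  rw [h1] at h2
  rw [h0, ← h2]
  rw [h3, ← h5, D.relIndex_M_L0, mul_comm] at h4
  exact Nat.eq_of_mul_eq_mul_right (Nat.pos_of_ne_zero D.relIndex_L0_ne) h4

theorem finite_G (D : CycDat E l j c d h) : Finite D.G := by
  apply Nat.finite_of_card_ne_zero
  rw [D.card_G]
  exact mul_ne_zero (Int.natAbs_ne_zero.2 D.nm_ne) (pow_ne_zero _ D.prime.ne_zero)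

/-- the representative `(om - 1)⁻¹ (N h)` of the generator, `N = nm c d` -/
noncomputable def g0 (_ : CycDat E l j c d h) : V :=
  (((l : ℤ) ^ j : ℤ) : ℚ)⁻¹ • E.U (c + E.n * d) (-d) h

theorem lj_g0 (D : CycDat E l j c d h) : (l : ℤ) ^ j • D.g0 = E.U (c + E.n * d) (-d) h :=
  zsmul_inv (D.lj_ne j) _

theorem M_g0 (D : CycDat E l j c d h) : D.M D.g0 = E.nm c d • h := by
  rw [M_apply, ← map_zsmul, D.lj_g0, E.U_conj]

theorem g0_mem (D : CycDat E l j c d h) : D.g0 ∈ D.Gt := by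
  rw [mem_Gt, M_g0]
  exact D.L.zsmul_mem D.h_mem _

/-- the generator of the Sylow `l`-subgroup of `G` -/
noncomputable def g (D : CycDat E l j c d h) : D.G := QuotientAddGroup.mk ⟨D.g0, D.g0_mem⟩

/-- the representative `l⁻¹ U' η`, `η = l ^ j h`, of the element of order `l` -/
noncomputable def t0 (_ : CycDat E l j c d h) : V :=
  ((l : ℤ) : ℚ)⁻¹ • E.U (c + E.n * d) (-d) ((l : ℤ) ^ j • h)

theorem l_t0 (D : CycDat E l j c d h) : (l : ℤ) • D.t0 = E.U (c + E.n * d) (-d) ((l : ℤ) ^ j • h) :=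
  zsmul_inv D.l_pos.ne' _

theorem t0_eq (D : CycDat E l j c d h) : D.t0 = l ^ (2 * j - 1) • D.g0 := by
  apply zsmul_inj D.l_pos.ne'
  rw [D.l_t0, map_zsmul, ← D.lj_g0, smul_smul, ← natCast_zsmul, smul_smul]
  congr 1
  have := D.jpos
  push_cast
  rw [← pow_add, ← pow_succ']
  congr 1
  omega

theorem mk_eq_zero (D : CycDat E l j c d h) (w : D.Gt) :
    (QuotientAddGroup.mk w : D.G) = 0 ↔ (w : V) ∈ D.L := by
  rw [QuotientAddGroup.eq_zero_iff, AddSubgroup.mem_addSubgroupOf]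

/-- the element of order `l` does not lie in `L` -/
theorem t0_not_mem (D : CycDat E l j c d h) : D.t0 ∉ D.L := by
  intro ht
  obtain ⟨y, ⟨y', rfl⟩, k, hk⟩ := D.mem_L.1 ht
  obtain ⟨η, hη⟩ := D.hh
  -- multiply by `l ^ j`
  have h1 : (l : ℤ) ^ (j - 1) • E.U (c + E.n * d) (-d) (E.io η) = (l : ℤ) ^ j • E.io y' + k • E.io η := by
    have h2 : (l : ℤ) ^ j • D.t0 = (l : ℤ) ^ (j - 1) • ((l : ℤ) • D.t0) := by
      rw [smul_smul, ← pow_succ]
      congr 2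
      have := D.jpos
      omega
    rw [hη, ← D.l_t0, ← h2, hk, smul_add, smul_comm]
  rw [E.U_io, ← map_zsmul E.io, ← map_zsmul E.io, ← map_zsmul E.io, ← map_add E.io] at h1
  have h2 := E.io_inj h1
  rw [E.mu_apply, Prod.ext_iff] at h2
  obtain ⟨h3, h4⟩ := h2
  simp only [Prod.smul_fst, Prod.smul_snd, Prod.fst_add, Prod.snd_add, smul_eq_mul] at h3 h4
  -- `η` is not divisible by `l`
  have hprim : ¬ ((l : ℤ) ∣ η.1 ∧ (l : ℤ) ∣ η.2) := by
    rintro ⟨⟨a, ha⟩, ⟨b, hb⟩⟩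
    refine D.prim (E.io (a, b)) ⟨_, rfl⟩ ?_
    rw [← hη, ← map_zsmul]
    congr 1
    exact Prod.ext ha hb
  have hpj : (l : ℤ) ^ j = l ^ (j - 1) * l := by
    rw [← pow_succ]
    congr 1
    have := D.jpos
    omega
  have hk1 : (l : ℤ) ^ (j - 1) ∣ k * η.1 := by
    have : k * η.1 = (l : ℤ) ^ (j - 1) * ((c + E.n * d) * η.1 - -d * η.2 - l * y'.1) := by
      rw [hpj] at h3
      linear_combination -h3
    rw [this]; exact dvd_mul_right _ _
  have hk2 : (l : ℤ) ^ (j - 1) ∣ k * η.2 := by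
    have : k * η.2 = (l : ℤ) ^ (j - 1) * ((c + E.n * d) * η.2 + -d * (η.1 + E.n * η.2) - l * y'.2) := by
      rw [hpj] at h4
      linear_combination -h4
    rw [this]; exact dvd_mul_right _ _
  have hkd : (l : ℤ) ^ (j - 1) ∣ k := by
    by_cases h5 : (l : ℤ) ∣ η.1
    · have h6 : ¬ (l : ℤ) ∣ η.2 := fun h7 => hprim ⟨h5, h7⟩
      exact (IsCoprime.pow_left ((Prime.coprime_iff_not_dvd D.l_prime).2 h6)).dvd_of_dvd_mul_right hk2
    · exact (IsCoprime.pow_left ((Prime.coprime_iff_not_dvd D.l_prime).2 h5)).dvd_of_dvd_mul_right hk1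
  obtain ⟨k', rfl⟩ := hkd
  rw [hpj] at h3 h4
  have h5 : (c + E.n * d) * η.1 - -d * η.2 = l * y'.1 + k' * η.1 := by
    apply mul_left_cancel₀ (D.lj_ne (j - 1))
    linear_combination h3
  have h6 : (c + E.n * d) * η.2 + -d * (η.1 + E.n * η.2) = l * y'.2 + k' * η.2 := by
    apply mul_left_cancel₀ (D.lj_ne (j - 1))
    linear_combination h4
  have h7 : (l : ℤ) ∣ d * (η.1 ^ 2 + E.n * η.1 * η.2 + η.2 ^ 2) :=
    ⟨y'.1 * η.2 - y'.2 * η.1, by linear_combination η.2 * h5 - η.1 * h6⟩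
  rcases D.l_prime.dvd_or_dvd h7 with h8 | h8
  · exact D.ld h8
  · exact hprim (D.inert _ _ h8)

/-- the element of order `l` spans `(l⁻¹ L0 + L) / L` -/
theorem span_t0 (D : CycDat E l j c d h) {y : V} (hy : (l : ℤ) • y ∈ E.L0) :
    ∃ k : ℕ, y - k • D.t0 ∈ D.L := by
  obtain ⟨z, hz⟩ := hy
  obtain ⟨η, hη⟩ := D.hh
  have hprim : ¬ ((l : ℤ) ∣ η.1 ∧ (l : ℤ) ∣ η.2) := by
    rintro ⟨⟨a, ha⟩, ⟨b, hb⟩⟩
    refine D.prim (E.io (a, b)) ⟨_, rfl⟩ ?_
    rw [← hη, ← map_zsmul]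
    congr 1
    exact Prod.ext ha hb
  obtain ⟨u, hu⟩ : ∃ u, u = E.mu (c + E.n * d) (-d) η := ⟨_, rfl⟩
  have hu1 : u.1 = (c + E.n * d) * η.1 - -d * η.2 := by rw [hu]; rfl
  have hu2 : u.2 = (c + E.n * d) * η.2 + -d * (η.1 + E.n * η.2) := by rw [hu]; rfl
  have hlt : (l : ℤ) • D.t0 = E.io u := by rw [D.l_t0, ← hη, E.U_io, hu]
  have hdet : ¬ (l : ℤ) ∣ d * (η.1 ^ 2 + E.n * η.1 * η.2 + η.2 ^ 2) := by
    intro h7
    rcases D.l_prime.dvd_or_dvd h7 with h8 | h8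
    · exact D.ld h8
    · exact hprim (D.inert _ _ h8)
  obtain ⟨r, s, hrs⟩ := (Prime.coprime_iff_not_dvd D.l_prime).2 hdet
  obtain ⟨k, hk⟩ : ∃ k : ℤ, k = s * (z.1 * η.2 - z.2 * η.1) := ⟨_, rfl⟩
  obtain ⟨k2, hk2⟩ : ∃ k2 : ℤ, k2 = s * (u.1 * z.2 - u.2 * z.1) := ⟨_, rfl⟩
  have hz' : z = k • u + k2 • η + (l : ℤ) • (r • z) := by
    ext
    · simp only [Prod.smul_fst, Prod.fst_add, smul_eq_mul]
      rw [hk, hk2, hu1, hu2]
      linear_combination (-z.1) * hrs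
    · simp only [Prod.smul_snd, Prod.snd_add, smul_eq_mul]
      rw [hk, hk2, hu1, hu2]
      linear_combination (-z.2) * hrs
  have hl := D.l_pos
  refine ⟨(k % l).toNat, ?_⟩
  have hk' : (((k % l).toNat : ℕ) : ℤ) = k - l * (k / l) := by
    rw [Int.toNat_of_nonneg (Int.emod_nonneg _ hl.ne')]
    have := Int.emod_add_mul_ediv k l
    linarith
  have hpj : (l : ℤ) ^ j = l * l ^ (j - 1) := by
    rw [← pow_succ']
    congr 1
    have := D.jpos
    omega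
  have key : y - (k % l).toNat • D.t0 = E.io (r • z + (k / l) • u) + (k2 * (l : ℤ) ^ (j - 1)) • h := by
    apply zsmul_inj hl.ne'
    rw [← natCast_zsmul, hk', smul_sub, ← hz, smul_comm, hlt]
    conv_lhs => rw [hz']
    have h1 : (l : ℤ) • (k2 * (l : ℤ) ^ (j - 1)) • h = k2 • E.io η := by
      rw [hη, smul_smul, smul_smul]
      congr 1
      rw [hpj]; ring
    rw [smul_add, h1]
    simp only [map_add, map_zsmul]
    module
  rw [key]
  exact D.mem_L.2 ⟨_, ⟨_, rfl⟩, _, rfl⟩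

/-- the group theoretic part of `CycSys` -/
theorem ord_g (D : CycDat E l j c d h) : l ^ (2 * j) • D.g = 0 := by
  have h1 : l ^ (2 * j) • D.g = QuotientAddGroup.mk (l ^ (2 * j) • (⟨D.g0, D.g0_mem⟩ : D.Gt)) := rfl
  rw [h1, D.mk_eq_zero]
  have h2 : ((l ^ (2 * j) • (⟨D.g0, D.g0_mem⟩ : D.Gt) : D.Gt) : V) = (l : ℤ) ^ j • ((l : ℤ) ^ j • D.g0) := by
    rw [AddSubgroup.coe_nsmul, smul_smul, ← pow_add, ← natCast_zsmul]
    push_cast
    rw [two_mul]
  rw [h2, D.lj_g0, ← map_zsmul]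
  exact D.L0_le (E.U_mem_L0 _ _ D.hh)

theorem t_eq (D : CycDat E l j c d h) (w : V) (hw : w ∈ D.Gt) (hw' : w + D.t0 ∈ D.Gt) :
    (QuotientAddGroup.mk ⟨w + D.t0, hw'⟩ : D.G) =
      QuotientAddGroup.mk ⟨w, hw⟩ + l ^ (2 * j - 1) • D.g := by
  have h1 : (QuotientAddGroup.mk ⟨w, hw⟩ : D.G) + l ^ (2 * j - 1) • D.g =
      QuotientAddGroup.mk ((⟨w, hw⟩ : D.Gt) + l ^ (2 * j - 1) • (⟨D.g0, D.g0_mem⟩ : D.Gt)) := rfl
  rw [h1]
  congr 1
  apply Subtype.ext
  show w + D.t0 = w + _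
  rw [AddSubgroup.coe_nsmul, ← D.t0_eq]

theorem ne_g (D : CycDat E l j c d h) : l ^ (2 * j - 1) • D.g ≠ 0 := by
  intro h0
  have h1 : l ^ (2 * j - 1) • D.g =
      QuotientAddGroup.mk (l ^ (2 * j - 1) • (⟨D.g0, D.g0_mem⟩ : D.Gt)) := rfl
  rw [h1, D.mk_eq_zero, AddSubgroup.coe_nsmul, ← D.t0_eq] at h0
  exact D.t0_not_mem h0

theorem ord_g_eq (D : CycDat E l j c d h) : addOrderOf D.g = l ^ (2 * j) := by
  have hj := D.jpos
  have h1 := addOrderOf_dvd_iff_nsmul_eq_zero.2 D.ord_g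
  obtain ⟨i, hi, hi'⟩ := (Nat.dvd_prime_pow D.prime).1 h1
  rcases Nat.lt_or_ge i (2 * j) with h2 | h2
  · exfalso
    apply D.ne_g
    apply addOrderOf_dvd_iff_nsmul_eq_zero.1
    rw [hi']
    exact pow_dvd_pow l (by omega)
  · rw [hi']
    congr 1
    omega

theorem cop_nm (D : CycDat E l j c d h) : Nat.Coprime (E.nm c d).natAbs l := by
  rw [Nat.coprime_comm, Nat.Prime.coprime_iff_not_dvd D.prime]
  intro h1
  exact D.not_dvd_nm (Int.natCast_dvd.2 h1)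

/-- the Sylow `l`-subgroup is cyclic, generated by `g` -/
theorem cyc_g (D : CycDat E l j c d h) (x : D.G) (hx : l ^ (2 * j) • x = 0) : ∃ i : ℕ, x = i • D.g := by
  have := D.finite_G
  let Z := AddSubgroup.zmultiples D.g
  have hZ : Nat.card Z = l ^ (2 * j) := by rw [Nat.card_zmultiples, D.ord_g_eq]
  have hQ : Nat.card (D.G ⧸ Z) = (E.nm c d).natAbs := by
    have h1 := AddSubgroup.card_eq_card_quotient_mul_card_addSubgroup Z
    rw [hZ, D.card_G] at h1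
    exact (Nat.eq_of_mul_eq_mul_right (pow_pos D.prime.pos _) h1).symm
  have h1 : (E.nm c d).natAbs • (QuotientAddGroup.mk x : D.G ⧸ Z) = 0 := by
    rw [← hQ]
    exact card_nsmul_eq_zero'
  have h2 : l ^ (2 * j) • (QuotientAddGroup.mk x : D.G ⧸ Z) = 0 := by
    have : l ^ (2 * j) • (QuotientAddGroup.mk x : D.G ⧸ Z) = QuotientAddGroup.mk (l ^ (2 * j) • x) := rfl
    rw [this, hx]
    rfl
  have h3 : (QuotientAddGroup.mk x : D.G ⧸ Z) = 0 := by
    have h4 := addOrderOf_dvd_iff_nsmul_eq_zero.2 h1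
    have h5 := addOrderOf_dvd_iff_nsmul_eq_zero.2 h2
    have h6 := Nat.dvd_gcd h4 h5
    rw [Nat.Coprime.pow_right (2 * j) D.cop_nm, Nat.dvd_one] at h6
    exact AddMonoid.addOrderOf_eq_one_iff.1 h6
  rw [QuotientAddGroup.eq_zero_iff] at h3
  obtain ⟨i, rfl⟩ := AddSubgroup.mem_zmultiples_iff.1 h3
  refine ⟨(i % (l ^ (2 * j) : ℕ)).toNat, ?_⟩
  have hq : (0 : ℤ) < (l ^ (2 * j) : ℕ) := by exact_mod_cast pow_pos D.prime.pos _
  rw [← natCast_zsmul, Int.toNat_of_nonneg (Int.emod_nonneg _ hq.ne')]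
  conv_lhs => rw [← Int.emod_add_mul_ediv i (l ^ (2 * j) : ℕ), add_zsmul, mul_zsmul', natCast_zsmul, D.ord_g,
    smul_zero, add_zero]

theorem t0_mem (D : CycDat E l j c d h) : D.t0 ∈ D.Gt := by
  rw [D.t0_eq]
  exact D.Gt.nsmul_mem D.g0_mem _

/-- Invariance under the element of order `l` of `G` gives invariance under `l⁻¹ L0`. -/
theorem inv_all (D : CycDat E l j c d h) {X : Type*} (f : V → X)
    (hL : ∀ w ∈ D.Gt, ∀ x ∈ D.L, f (w + x) = f w) (ht : ∀ w ∈ D.Gt, f (w + D.t0) = f w)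
    {w : V} (hw : w ∈ D.Gt) {y : V} (hy : (l : ℤ) • y ∈ E.L0) : f (w + y) = f w := by
  have h1 : ∀ k : ℕ, ∀ w ∈ D.Gt, f (w + k • D.t0) = f w := by
    intro k
    induction k with
    | zero => intro w _; simp
    | succ k ih =>
      intro w hw
      rw [succ_nsmul, ← add_assoc, ht _ (D.Gt.add_mem hw (D.Gt.nsmul_mem D.t0_mem k)), ih w hw]
  obtain ⟨k, hk⟩ := D.span_t0 hy
  have h2 : w + y = (w + k • D.t0) + (y - k • D.t0) := by abel
  rw [h2, hL _ (D.Gt.add_mem hw (D.Gt.nsmul_mem D.t0_mem k)) _ hk, h1 k w hw]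

end CycDat

/-- `h` may be any representative of an element of order `l ^ j` of `V / L0`. -/
theorem CycDat.of_order {E : ELat V} {l j : ℕ} {c d : ℤ} {h : V} (hp : l.Prime) (hj : 0 < j)
    (hin : ∀ x y : ℤ, (l : ℤ) ∣ x ^ 2 + E.n * x * y + y ^ 2 → (l : ℤ) ∣ x ∧ (l : ℤ) ∣ y)
    (hd : ¬ (l : ℤ) ∣ d) (hh : addOrderOf (QuotientAddGroup.mk h : V ⧸ E.L0) = l ^ j) :
    CycDat E l j c d h where
  prime := hp
  jpos := hj
  inert := hin
  ld := hd
  hh := by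
    have h1 : l ^ j • (QuotientAddGroup.mk h : V ⧸ E.L0) = 0 := by
      rw [← hh]; exact addOrderOf_nsmul_eq_zero _
    have h2 : l ^ j • (QuotientAddGroup.mk h : V ⧸ E.L0) = QuotientAddGroup.mk (l ^ j • h) := rfl
    rw [h2, QuotientAddGroup.eq_zero_iff, ← natCast_zsmul] at h1
    exact_mod_cast h1
  prim := by
    intro x hx h1
    obtain ⟨i, rfl⟩ : ∃ i, j = i + 1 := ⟨j - 1, by omega⟩
    have hl : (l : ℤ) ≠ 0 := by exact_mod_cast hp.ne_zero
    have h2 : (l : ℤ) ^ i • h = x := by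
      apply CycDat.zsmul_inj hl
      rw [← h1, smul_smul, ← pow_succ']
    have h3 : l ^ i • (QuotientAddGroup.mk h : V ⧸ E.L0) = 0 := by
      have h4 : l ^ i • (QuotientAddGroup.mk h : V ⧸ E.L0) = QuotientAddGroup.mk (l ^ i • h) := rfl
      rw [h4, QuotientAddGroup.eq_zero_iff, ← natCast_zsmul]
      have h5 : (((l ^ i : ℕ) : ℤ)) • h = (l : ℤ) ^ i • h := by push_cast; rfl
      rw [h5, h2]
      exact hx
    have h4 := addOrderOf_dvd_iff_nsmul_eq_zero.2 h3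
    rw [hh, Nat.pow_dvd_pow_iff_le_right hp.one_lt] at h4
    omega

/-- `n ^ 2 - 4` is not a square modulo `l`: the norm form is anisotropic. -/
theorem inert_of_not_square {l : ℕ} (hp : l.Prime) {n : ℤ} (h : ¬ IsSquare ((n ^ 2 - 4 : ℤ) : ZMod l))
    (x y : ℤ) (hxy : (l : ℤ) ∣ x ^ 2 + n * x * y + y ^ 2) : (l : ℤ) ∣ x ∧ (l : ℤ) ∣ y := by
  have := Fact.mk hp
  have h1 : ((x : ZMod l)) ^ 2 + n * x * y + (y : ZMod l) ^ 2 = 0 := by
    have := (ZMod.intCast_zmod_eq_zero_iff_dvd (x ^ 2 + n * x * y + y ^ 2) l).2 hxy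
    push_cast at this
    exact this
  have hy : (y : ZMod l) = 0 := by
    by_contra hy
    apply h
    refine ⟨(2 * x + n * y) / y, ?_⟩
    push_cast
    field_simp
    linear_combination (-4) * h1
  have hx : (x : ZMod l) = 0 := by
    rw [hy] at h1
    simpa using h1
  exact ⟨(ZMod.intCast_zmod_eq_zero_iff_dvd x l).1 hx, (ZMod.intCast_zmod_eq_zero_iff_dvd y l).1 hy⟩

/-- `ε ^ K = P + Q ε` -/
def pq (n : ℤ) : ℕ → ℤ × ℤ
  | 0 => (1, 0)
  | K + 1 => (-(pq n K).2, (pq n K).1 + n * (pq n K).2)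

theorem pq_norm (n : ℤ) (K : ℕ) :
    (pq n K).1 ^ 2 + n * (pq n K).1 * (pq n K).2 + (pq n K).2 ^ 2 = 1 := by
  induction K with
  | zero => simp [pq]
  | succ K ih =>
    simp only [pq]
    linear_combination ih

theorem ELat.iterate_A (E : ELat V) (K : ℕ) (v : V) :
    E.A^[K] v = (pq E.n K).1 • v + (pq E.n K).2 • E.A v := by
  induction K with
  | zero => simp [pq]
  | succ K ih =>
    rw [Function.iterate_succ_apply', ih, map_add, map_zsmul, map_zsmul, E.hA]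
    simp only [pq]
    module

/-- For `n ≥ 3` the coefficient `Q` is positive and increasing. -/
theorem pq_pos {n : ℤ} (hn : 3 ≤ n) (K : ℕ) : (pq n K).2 < (pq n (K + 1)).2 ∧ 0 ≤ (pq n K).2 := by
  induction K with
  | zero => simp [pq]
  | succ K ih =>
    obtain ⟨h1, h2⟩ := ih
    refine ⟨?_, by linarith⟩
    have h3 : (pq n (K + 2)).2 = n * (pq n (K + 1)).2 - (pq n K).2 := by
      simp only [pq]; ring
    rw [h3]
    have h4 : 0 ≤ (n - 3) * (pq n (K + 1)).2 := mul_nonneg (by linarith) (by linarith)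
    linarith

theorem pq_snd_pos {n : ℤ} (hn : 3 ≤ n) {K : ℕ} (hK : 0 < K) : 0 < (pq n K).2 := by
  obtain ⟨i, rfl⟩ : ∃ i, K = i + 1 := ⟨K - 1, by omega⟩
  have := pq_pos hn i
  linarith [this.1, this.2]

/-- `ε ^ K ≡ 1` modulo the odd prime `l`: `ε ^ K - 1 = l ^ j (c + d ε)` with `l ∤ d`. -/
theorem exists_cd {n : ℤ} (hn : 3 ≤ n) {l : ℕ} (hp : l.Prime) (hl2 : l ≠ 2) {K : ℕ} (hK : 0 < K)
    (h1 : (l : ℤ) ∣ (pq n K).1 - 1) (h2 : (l : ℤ) ∣ (pq n K).2) :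
    ∃ (j : ℕ) (c d : ℤ), 0 < j ∧ (pq n K).1 - 1 = (l : ℤ) ^ j * c ∧ (pq n K).2 = (l : ℤ) ^ j * d ∧
      ¬ (l : ℤ) ∣ d := by
  have hQ := (pq_snd_pos hn hK).ne'
  have hlp : Prime (l : ℤ) := Nat.prime_iff_prime_int.1 hp
  have hfin : FiniteMultiplicity (l : ℤ) (pq n K).2 :=
    Int.finiteMultiplicity_iff.2 ⟨by simpa using hp.one_lt.ne', hQ⟩
  obtain ⟨d, hd, hld⟩ := hfin.exists_eq_pow_mul_and_not_dvd
  set j := multiplicity (l : ℤ) (pq n K).2 with hj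
  have hj0 : 0 < j := by
    rw [Nat.pos_iff_ne_zero]
    intro h0
    rw [h0, pow_zero, one_mul] at hd
    exact hld (hd ▸ h2)
  have hP : ¬ (l : ℤ) ∣ (pq n K).1 + 1 := by
    intro h3
    have h4 : (l : ℤ) ∣ 2 := by
      have := dvd_sub h3 h1
      have h5 : (pq n K).1 + 1 - ((pq n K).1 - 1) = 2 := by ring
      rwa [h5] at this
    have h5 : l ∣ 2 := by exact_mod_cast h4
    exact hl2 ((Nat.prime_dvd_prime_iff_eq hp Nat.prime_two).1 h5)
  have h3 : (l : ℤ) ^ j ∣ ((pq n K).1 - 1) * ((pq n K).1 + 1) := by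
    refine ⟨-(d * (n * (pq n K).1 + (pq n K).2)), ?_⟩
    have h4 := pq_norm n K
    linear_combination h4 - (n * (pq n K).1 + (pq n K).2) * hd
  have h4 : (l : ℤ) ^ j ∣ (pq n K).1 - 1 :=
    (IsCoprime.pow_left ((Prime.coprime_iff_not_dvd hlp).2 hP)).dvd_of_dvd_mul_right h3
  obtain ⟨c, hc⟩ := h4
  exact ⟨j, c, d, hj0, hc, hd, hld⟩

theorem CycDat.M_eq {E : ELat V} {l j : ℕ} {c d : ℤ} {h : V} (D : CycDat E l j c d h) {K : ℕ}
    (hc : (pq E.n K).1 - 1 = (l : ℤ) ^ j * c) (hd : (pq E.n K).2 = (l : ℤ) ^ j * d) (v : V) :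
    D.M v = E.A^[K] v - v := by
  rw [D.M_apply, E.iterate_A, E.U_apply, hd]
  have : (pq E.n K).1 = (l : ℤ) ^ j * c + 1 := by linarith
  rw [this]
  module

/-- For every `m > 0` and `K0 > 0` there is a multiple `K` of `K0` with `ε ^ K ≡ 1` modulo `m`. -/
theorem exists_level (n : ℤ) {m : ℕ} (hm : 0 < m) (K0 : ℕ) (hK0 : 0 < K0) :
    ∃ K, 0 < K ∧ K0 ∣ K ∧ (m : ℤ) ∣ (pq n K).1 - 1 ∧ (m : ℤ) ∣ (pq n K).2 := by
  have : NeZero m := ⟨hm.ne'⟩
  let σ : Equiv.Perm (ZMod m × ZMod m) :=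
    { toFun := fun x => (-x.2, x.1 + n * x.2)
      invFun := fun x => (x.2 + n * x.1, -x.1)
      left_inv := fun x => by
        ext
        · simp only; ring
        · simp only; ring
      right_inv := fun x => by
        ext
        · simp only; ring
        · simp only; ring }
  have h1 : ∀ K : ℕ, (σ ^ K) (1, 0) = (((pq n K).1 : ZMod m), ((pq n K).2 : ZMod m)) := by
    intro K
    induction K with
    | zero => simp [pq]
    | succ K ih =>
      rw [pow_succ', Equiv.Perm.mul_apply, ih]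
      simp [σ, pq]
  refine ⟨K0 * orderOf σ, Nat.mul_pos hK0 (orderOf_pos σ), dvd_mul_right _ _, ?_⟩
  have h2 := h1 (K0 * orderOf σ)
  rw [mul_comm, pow_mul, pow_orderOf_eq_one, one_pow, Equiv.Perm.one_apply, Prod.mk.injEq] at h2
  obtain ⟨h3, h4⟩ := h2
  rw [mul_comm]
  constructor
  · rw [← ZMod.intCast_zmod_eq_zero_iff_dvd]
    push_cast
    rw [← h3, sub_self]
  · rw [← ZMod.intCast_zmod_eq_zero_iff_dvd, ← h4]

end Zau
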