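import Pool.Agent.Lib_zau.CycF

/-!
# Zauner (MP_1c78a5_mp): the interface between the analytic and the arithmetic part

`V = ℚ × ℚ`, the vector `(x, y)` stands for `x + y ε`, `ε² = n ε - 1`, `ε > 1`, `n = d - 1 ≥ 3`.
`Lam = ℤ × ℤ`, `E n` is the multiplication by `ε`.
-/

set_option autoImplicit false

namespace Zau

open Finset

/-- The multiplication by `ε` on `V = ℚ × ℚ`. -/
def E (n : ℤ) : AddMonoid.End (ℚ × ℚ) where
  toFun w := (-w.2, w.1 + n * w.2)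
  map_zero' := by simp
  map_add' x y := by
    ext
    · simp only [Prod.snd_add, Prod.fst_add]; ring
    · simp only [Prod.snd_add, Prod.fst_add]; ring

/-- The lattice `ℤ × ℤ`. -/
def Lam : AddSubgroup (ℚ × ℚ) where
  carrier := {w | ∃ i j : ℤ, w = ((i : ℚ), (j : ℚ))}
  zero_mem' := ⟨0, 0, by ext <;> simp⟩
  add_mem' := by
    rintro _ _ ⟨i, j, rfl⟩ ⟨i', j', rfl⟩
    exact ⟨i + i', j + j', by simp⟩
  neg_mem' := by
    rintro _ ⟨i, j, rfl⟩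
    exact ⟨-i, -j, by simp⟩

/-- The unit `ε = (n + √(n² - 4)) / 2`. -/
noncomputable def ep (n : ℤ) : ℝ := ((n : ℝ) + Real.sqrt ((n : ℝ) ^ 2 - 4)) / 2

/-- The lattice `Lam + ℤ c`. -/
def Lc (c : ℚ × ℚ) : AddSubgroup (ℚ × ℚ) := Lam ⊔ AddSubgroup.zmultiples c

/-- The solution of the near group equations on `(ε^K - 1)⁻¹ L / L`, `L = Lam + ℤ c`, where `c` has
order `l ^ j` modulo `Lam`, `ε ^ K - 1` is exactly divisible by `l ^ j`, `l` inert. -/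
def Near (n : ℤ) (rho : ℚ × ℚ → ℝ) (l K j : ℕ) (c : ℚ × ℚ) : Prop :=
  ∃ (G : Type) (_ : AddCommGroup G) (_ : Fintype G) (_ : DecidableEq G)
    (π : G →+ (ℚ × ℚ) ⧸ Lc c) (m : ℕ) (g : G) (pr : G → G → ℂ) (b : G → ℂ) (κ : ℂ),
    CycSys l (2 * j - 1) m g pr b κ ∧
    Function.Injective π ∧
    (∀ x : ℚ × ℚ, (∃ w, π w = QuotientAddGroup.mk x) ↔ (E n ^ K) x - x ∈ Lc c) ∧
    b 0 ^ 2 = ((ep n ^ K : ℝ) : ℂ) ∧
    (∀ w, w ≠ 0 → ∃ k : ℕ, 0 < k ∧ (b w * b (-w)) ^ k = 1) ∧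
    (∀ (w : G) (x : ℚ × ℚ), π w = QuotientAddGroup.mk x →
      b w / b (-w) = Complex.exp ((K * ∑ k ∈ range (l ^ j), rho (x + k • c) : ℝ) : ℂ))

/-- The function `rho` on `V / Lam` (logarithm of the ghost overlaps, normalised by the level). -/
structure Tower (n : ℤ) (rho : ℚ × ℚ → ℝ) : Prop where
  per : ∀ w, ∀ z ∈ Lam, rho (w + z) = rho w
  odd : ∀ w, rho (-w) = -rho w
  eps : ∀ w, rho (E n w) = rho w
  dist : ∀ l : ℕ, l.Prime → ∀ w : ℚ × ℚ, rho (l • w) =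
    ∑ i ∈ range l, ∑ k ∈ range l, rho (w + ((i : ℚ) / l, (k : ℚ) / l))
  near : ∀ l : ℕ, l.Prime → l ≠ 2 → ¬ IsSquare ((n ^ 2 - 4 : ℤ) : ZMod l) →
    ∀ K j : ℕ, 0 < K → 0 < j →
    (∀ z ∈ Lam, ∃ z' ∈ Lam, (E n ^ K) z - z = (l ^ j) • z') →
    (∃ z ∈ Lam, ∀ z' ∈ Lam, (E n ^ K) z - z ≠ (l ^ (j + 1)) • z') →
    ∀ c : ℚ × ℚ, (l ^ j) • c ∈ Lam → (l ^ (j - 1)) • c ∉ Lam → Near n rho l K j c

end Zau
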