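import Pool.Agent.Lib_zau.AlgRig
import Pool.Agent.Lib_zau.CycLat
import Pool.Agent.Lib_zau.Tower

/-!
# Zauner, B13 (algebraicity), part 2: the level `24`

`ε ^ 24 = P + Q ε` with `(P, Q) = pq n 24`, so in the basis `1, ε` of `Lam`: `N = B = Q`, `U = -P`,
`A = P + n Q`, `m = A - U - 2 = (n ^ 2 - 4) q ^ 2`, `N = q (2 p + n q)`, `(p, q) = pq n 12`,
`gcd (N, m) ∣ 4 q` and `4 d ∣ q` for `d = n + 1`.
-/

set_option autoImplicit false

open Finset

namespace Zau

theorem pq_double (n : ℤ) (K : ℕ) : pq n (2 * K) =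
    ((pq n K).1 ^ 2 - (pq n K).2 ^ 2, (pq n K).2 * (2 * (pq n K).1 + n * (pq n K).2)) := by
  have add : ∀ K L : ℕ, pq n (K + L) = ((pq n K).1 * (pq n L).1 - (pq n K).2 * (pq n L).2,
      (pq n K).1 * (pq n L).2 + (pq n K).2 * (pq n L).1 + n * (pq n K).2 * (pq n L).2) := by
    intro K L
    induction L with
    | zero => simp [pq]
    | succ L ih =>
      have h1 : K + (L + 1) = (K + L) + 1 := by ring
      rw [h1]
      simp only [pq]
      rw [ih]
      ext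
      · simp only; ring
      · simp only; ring
  rw [two_mul, add]
  ext
  · simp only; ring
  · simp only; ring

theorem pq_twelve (n : ℤ) :
    (pq n 12).2 = (n ^ 2 - 1) * (n ^ 3 - 3 * n) * ((n ^ 3 - 3 * n) ^ 2 - 2) := by
  have h3 : pq n 3 = (-n, n ^ 2 - 1) := by
    simp only [pq]
    ext
    · simp
    · simp only; ring
  have h6 : pq n 6 = pq n (2 * 3) := rfl
  have h12 : pq n 12 = pq n (2 * 6) := rfl
  rw [h12, pq_double, h6, pq_double, h3]
  simp only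
  ring

theorem four_dvd_pq_twelve (n : ℤ) : ∃ c : ℤ, (pq n 12).2 = 4 * (n + 1) * c := by
  have h1 : ∃ k, n ^ 3 - 3 * n = 2 * k := by
    rcases Int.even_or_odd' n with ⟨t, ht | ht⟩
    · exact ⟨4 * t ^ 3 - 3 * t, by rw [ht]; ring⟩
    · exact ⟨4 * t ^ 3 + 6 * t ^ 2 - 1, by rw [ht]; ring⟩
  obtain ⟨k, hk⟩ := h1
  refine ⟨(n - 1) * k * (2 * k ^ 2 - 1), ?_⟩
  rw [pq_twelve, hk]
  ring

/-- the trace minus two at level `24` -/
theorem m24 (n : ℤ) : 2 * (pq n 24).1 + n * (pq n 24).2 - 2 = (n ^ 2 - 4) * (pq n 12).2 ^ 2 := by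
  have h1 : pq n 24 = pq n (2 * 12) := rfl
  have h2 := pq_norm n 12
  rw [h1, pq_double]
  simp only
  linear_combination 2 * h2

/-- `gcd (N, m)` divides `4 q` -/
theorem gcd24 (n g : ℤ) (h1 : g ∣ (pq n 24).2) (h2 : g ∣ 2 * (pq n 24).1 + n * (pq n 24).2 - 2) :
    g ∣ 4 * (pq n 12).2 := by
  rw [m24] at h2
  have h3 : pq n 24 = pq n (2 * 12) := rfl
  rw [h3, pq_double] at h1
  simp only at h1
  have h4 := pq_norm n 12
  have h5 : 4 * (pq n 12).2 = (pq n 12).2 * (2 * (pq n 12).1 + n * (pq n 12).2) *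
      (2 * (pq n 12).1 + n * (pq n 12).2) - (n ^ 2 - 4) * (pq n 12).2 ^ 2 * (pq n 12).2 := by
    linear_combination (-4) * (pq n 12).2 * h4
  rw [h5]
  exact dvd_sub (h1.mul_right _) (h2.mul_right _)

/-- the condition for the points of order dividing `d = n + 1` -/
theorem gcd24_dvd (n g j : ℤ) (h1 : g ∣ (pq n 24).2)
    (h2 : g ∣ 2 * (pq n 24).1 + n * (pq n 24).2 - 2) {r : ℤ}
    (hr : r * (n + 1) = (2 * (pq n 24).1 + n * (pq n 24).2 - 2) * j) (hn : n + 1 ≠ 0) : g ∣ r := by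
  obtain ⟨c, hc⟩ := four_dvd_pq_twelve n
  have h3 := gcd24 n g h1 h2
  refine h3.trans ⟨(n ^ 2 - 4) * c * j, ?_⟩
  apply mul_right_cancel₀ hn
  rw [hr, m24]
  calc (n ^ 2 - 4) * (pq n 12).2 ^ 2 * j = (n ^ 2 - 4) * ((pq n 12).2 * (4 * (n + 1) * c)) * j := by
        rw [← hc]; ring
    _ = _ := by ring

theorem algB_E_apply (n : ℤ) (x : ℚ × ℚ) : E n x = (-x.2, x.1 + n * x.2) := rfl

theorem algB_E_pow (n : ℤ) (K : ℕ) (x : ℚ × ℚ) : (E n ^ K) x =
    ((pq n K).1 * x.1 - (pq n K).2 * x.2, (pq n K).2 * x.1 + ((pq n K).1 + n * (pq n K).2) * x.2) := by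
  induction K with
  | zero => simp [pq]
  | succ K ih =>
    have h1 : (E n ^ (K + 1)) x = E n ((E n ^ K) x) := by
      rw [pow_succ']
      rfl
    rw [h1, ih, algB_E_apply]
    simp only [pq]
    ext
    · simp only; push_cast; ring
    · simp only; push_cast; ring

theorem algB_ep_sq {n : ℤ} (hn : 3 ≤ n) : ep n ^ 2 = n * ep n - 1 := by
  have h3 : (3 : ℝ) ≤ n := by exact_mod_cast hn
  have h : Real.sqrt ((n : ℝ) ^ 2 - 4) ^ 2 = (n : ℝ) ^ 2 - 4 := Real.sq_sqrt (by nlinarith)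
  unfold ep
  linear_combination (1 / 4 : ℝ) * h

theorem algB_one_lt_ep {n : ℤ} (hn : 3 ≤ n) : 1 < ep n := by
  have h3 : (3 : ℝ) ≤ n := by exact_mod_cast hn
  have h := Real.sqrt_nonneg ((n : ℝ) ^ 2 - 4)
  unfold ep
  linarith

theorem algB_ep_pow {n : ℤ} (hn : 3 ≤ n) (K : ℕ) : ep n ^ K = (pq n K).1 + (pq n K).2 * ep n := by
  induction K with
  | zero => simp [pq]
  | succ K ih =>
    rw [pow_succ, ih]
    simp only [pq]
    push_cast
    linear_combination ((pq n K).2 : ℝ) * algB_ep_sq hn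

/-- the image of a point of order dividing `d = n + 1` -/
theorem algB_z (n i j : ℤ) (hn : n + 1 ≠ 0) : ∃ z : ℤ × ℤ,
    (E n ^ 24) ((i : ℚ) / (n + 1 : ℤ), (j : ℚ) / (n + 1 : ℤ)) -
      ((i : ℚ) / (n + 1 : ℤ), (j : ℚ) / (n + 1 : ℤ)) = ((z.1 : ℚ), (z.2 : ℚ)) ∧
    ((pq n 24).2 * z.1 + (-(pq n 24).1 + 1) * z.2) * (n + 1) =
      (2 * (pq n 24).1 + n * (pq n 24).2 - 2) * j := by
  obtain ⟨c, hc⟩ := four_dvd_pq_twelve n
  have hn' : ((n : ℚ) + 1) ≠ 0 := by exact_mod_cast hn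
  have h1 : pq n 24 = pq n (2 * 12) := rfl
  have h2 := pq_norm n 12
  have hm := m24 n
  rw [h1, pq_double] at hm
  simp only at hm
  rw [algB_E_pow, h1, pq_double]
  simp only
  generalize (pq n 12).1 = p at *
  generalize (pq n 12).2 = q at *
  refine ⟨(4 * c * (-(n * p + 2 * q) * i - (2 * p + n * q) * j),
    4 * c * ((2 * p + n * q) * i + (n * (2 * p + n * q) - (n * p + 2 * q)) * j)), ?_, ?_⟩
  · have hcq : (q : ℚ) = 4 * (n + 1) * c := by exact_mod_cast hc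
    have h2q : (p : ℚ) ^ 2 + n * p * q + q ^ 2 = 1 := by exact_mod_cast h2
    ext
    · simp only [Prod.fst_sub]
      push_cast
      field_simp
      linear_combination (i : ℚ) * h2q + (-(n * p + 2 * q) * i - (2 * p + n * q) * j : ℚ) * hcq
    · simp only [Prod.snd_sub]
      push_cast
      field_simp
      linear_combination (j : ℚ) * h2q +
        ((2 * p + n * q) * i + (n * (2 * p + n * q) - (n * p + 2 * q)) * j : ℚ) * hcq
  · simp only
    rw [hm]
    linear_combination (-(n + 1) * (4 * c * ((2 * p + n * q) * i +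
      (n * (2 * p + n * q) - (n * p + 2 * q)) * j)) + 4 * c * (n + 1) * q * j * (n ^ 2 - 4)) * h2 -
      (n ^ 2 - 4) * q * j * hc

/-- **Algebraicity at the level `24`** (abstract form). -/
theorem alg_level24 {n : ℤ} (hn : 3 ≤ n) {d : ℕ} (hd : (d : ℤ) = n + 1) {rho : ℚ × ℚ → ℝ}
    (per : ∀ w, ∀ z ∈ Lam, rho (w + z) = rho w) (odd : ∀ w, rho (-w) = -rho w)
    (eps : ∀ w, rho (E n w) = rho w)
    {G : Type*} [AddCommGroup G] [Fintype G] [DecidableEq G] {pr : G → G → ℂ} {b : G → ℂ} {κ : ℂ}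
    (pr_zero : ∀ y, pr 0 y = 1) (pr_add : ∀ x y z, pr (x + y) z = pr x z * pr y z)
    (pr_symm : ∀ x y, pr x y = pr y x) (pr_nondeg : ∀ x, (∀ y, pr x y = 1) → x = 0)
    (kap : κ ^ 2 = (Fintype.card G : ℂ))
    (card : (Fintype.card G : ℤ) = 2 * (pq n 24).1 + n * (pq n 24).2 - 2) (b_ne : ∀ w, b w ≠ 0)
    (b0 : b 0 ^ 2 = ((ep n ^ 24 : ℝ) : ℂ))
    (bb : ∀ w, w ≠ 0 → ∃ k : ℕ, 0 < k ∧ (b w * b (-w)) ^ k = 1)
    (φ : ℤ × ℤ → G) (φ_neg : ∀ z, φ (-z) = -φ z)
    (φ_ne : ∀ z : ℤ × ℤ, ¬ (2 * (pq n 24).1 + n * (pq n 24).2 - 2) ∣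
      (pq n 24).2 * z.1 + (-(pq n 24).1 + 1) * z.2 → φ z ≠ 0)
    (star : ∀ z : ℤ × ℤ, ¬ (2 * (pq n 24).1 + n * (pq n 24).2 - 2) ∣
        (pq n 24).2 * z.1 + (-(pq n 24).1 + 1) * z.2 →
      (∀ g : ℤ, g ∣ (pq n 24).2 → g ∣ 2 * (pq n 24).1 + n * (pq n 24).2 - 2 →
        g ∣ (pq n 24).2 * z.1 + (-(pq n 24).1 + 1) * z.2) →
      ∀ y, ∑ w, pr w y * aa b w * b (w - φ z) = κ * b (-φ z) * b (-y) * aa b (-φ z - y))
    (link : ∀ (z : ℤ × ℤ) (x : ℚ × ℚ), (E n ^ 24) x - x = ((z.1 : ℚ), (z.2 : ℚ)) → x ∉ Lam →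
      b (φ z) / b (-φ z) = Complex.exp ((24 * rho x : ℝ) : ℂ)) (x : ℚ × ℚ) (hx : d • x ∈ Lam) :
    IsAlgebraic ℚ ((Real.exp (3 * rho x) : ℝ) : ℂ) := by
  have hn1 : n + 1 ≠ 0 := by omega
  have hd0 : (d : ℚ) = ((n + 1 : ℤ) : ℚ) := by exact_mod_cast congrArg (fun t : ℤ => (t : ℚ)) hd
  have hdne : (d : ℚ) ≠ 0 := by
    rw [hd0]
    exact_mod_cast hn1
  have hep := algB_one_lt_ep hn
  have hom : 1 < ep n ^ 24 := one_lt_pow₀ hep (by norm_num)
  have hθ : (Fintype.card G : ℂ) - 2 * (b 0 ^ 2 - 1) ≠ 0 := by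
    have h1 : ((Fintype.card G : ℤ) : ℝ) = 2 * (pq n 24).1 + n * (pq n 24).2 - 2 := by
      rw [card]
      push_cast
      ring
    have h2 := algB_ep_pow hn 24
    have h3 : ((pq n 24).1 : ℝ) ^ 2 + n * (pq n 24).1 * (pq n 24).2 + (pq n 24).2 ^ 2 = 1 := by
      exact_mod_cast pq_norm n 24
    have h4 : ep n ^ 24 * (2 * (pq n 24).1 + n * (pq n 24).2 - ep n ^ 24) = 1 := by
      rw [h2]
      linear_combination h3 - ((pq n 24).2 : ℝ) ^ 2 * algB_ep_sq hn
    have h5 : ((Fintype.card G : ℝ) - 2 * (ep n ^ 24 - 1)) ≠ 0 := by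
      intro h6
      have h7 : ((Fintype.card G : ℤ) : ℝ) = (Fintype.card G : ℝ) := by push_cast; rfl
      rw [h7] at h1
      rw [h1] at h6
      nlinarith
    rw [b0]
    intro h6
    apply h5
    exact_mod_cast h6
  have hb0 : IsAlgebraic ℚ (b 0) := by
    have hepalg : IsAlgebraic ℚ ((ep n : ℝ) : ℂ) := by
      refine ⟨Polynomial.X ^ 2 - Polynomial.C (n : ℚ) * Polynomial.X + 1, ?_, ?_⟩
      · intro h0
        generalize (n : ℚ) = c at h0
        have h1 := congrArg (fun P => Polynomial.coeff P 2) h0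
        simp [Polynomial.coeff_one] at h1
      · have h1 : ((ep n : ℝ) : ℂ) ^ 2 = n * ((ep n : ℝ) : ℂ) - 1 := by
          exact_mod_cast congrArg (fun t : ℝ => (t : ℂ)) (algB_ep_sq hn)
        simp only [map_add, map_sub, map_mul, map_pow, Polynomial.aeval_X, Polynomial.aeval_C,
          map_one, h1]
        simp
    have h2 : IsAlgebraic ℚ (b 0 ^ 2) := by
      rw [b0]
      push_cast
      exact hepalg.pow 24
    exact (IsIntegral.of_pow two_pos h2.isIntegral).isAlgebraic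
  have hbb : ∀ w, w ≠ 0 → IsAlgebraic ℚ (b w * b (-w)) := by
    intro w hw
    obtain ⟨k, hk, h1⟩ := bb w hw
    refine (IsIntegral.of_pow hk ?_).isAlgebraic
    rw [h1]
    exact isIntegral_one
  -- the points with non integral second coordinate
  have main : ∀ i j : ℤ, ¬ (n + 1) ∣ j →
      IsAlgebraic ℚ ((Real.exp (3 * rho ((i : ℚ) / (n + 1 : ℤ), (j : ℚ) / (n + 1 : ℤ))) : ℝ) : ℂ) := by
    intro i j hj
    obtain ⟨z, hz1, hz2⟩ := algB_z n i j hn1
    set m := 2 * (pq n 24).1 + n * (pq n 24).2 - 2 with hm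
    have hm0 : m ≠ 0 := by
      rw [← card]
      exact_mod_cast Fintype.card_ne_zero
    have hr : ¬ m ∣ (pq n 24).2 * z.1 + (-(pq n 24).1 + 1) * z.2 := by
      rintro ⟨t, ht⟩
      apply hj
      refine ⟨t, ?_⟩
      apply mul_left_cancel₀ hm0
      rw [← hz2, ht]
      ring
    have hrn : (pq n 24).2 * (-z).1 + (-(pq n 24).1 + 1) * (-z).2 =
        -((pq n 24).2 * z.1 + (-(pq n 24).1 + 1) * z.2) := by
      simp only [Prod.fst_neg, Prod.snd_neg]
      ring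
    have hg : ∀ g : ℤ, g ∣ (pq n 24).2 → g ∣ m → g ∣ (pq n 24).2 * z.1 + (-(pq n 24).1 + 1) * z.2 :=
      fun g h1 h2 => gcd24_dvd n g j h1 h2 hz2 hn1
    have h1 : IsAlgebraic ℚ (b (φ z)) :=
      isAlgebraic_of_star pr_zero pr_add pr_symm pr_nondeg kap b_ne hb0 hbb hθ (φ_ne z hr)
        (star z hr hg)
    have hr' : ¬ m ∣ (pq n 24).2 * (-z).1 + (-(pq n 24).1 + 1) * (-z).2 := by
      rw [hrn, dvd_neg]
      exact hr
    have h2 : IsAlgebraic ℚ (b (φ (-z))) :=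
      isAlgebraic_of_star pr_zero pr_add pr_symm pr_nondeg kap b_ne hb0 hbb hθ (φ_ne (-z) hr')
        (star (-z) hr' (fun g h3 h4 => by rw [hrn, dvd_neg]; exact hg g h3 h4))
    have hxn : (((i : ℚ) / (n + 1 : ℤ), (j : ℚ) / (n + 1 : ℤ)) : ℚ × ℚ) ∉ Lam := by
      rintro ⟨i', j', h3⟩
      apply hj
      refine ⟨j', ?_⟩
      have h4 := congrArg Prod.snd h3
      simp only at h4
      have h5 : (((n + 1 : ℤ)) : ℚ) ≠ 0 := by exact_mod_cast hn1
      rw [div_eq_iff h5] at h4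
      have h6 : j = j' * (n + 1) := by exact_mod_cast h4
      rw [h6]
      ring
    have h3 := link z _ hz1 hxn
    rw [φ_neg] at h2
    have h4 : IsAlgebraic ℚ (b (φ z) / b (-φ z)) := by
      rw [div_eq_mul_inv]
      exact h1.mul h2.inv
    rw [h3] at h4
    have h5 : Complex.exp ((24 * rho ((i : ℚ) / (n + 1 : ℤ), (j : ℚ) / (n + 1 : ℤ)) : ℝ) : ℂ) =
        (((Real.exp (3 * rho ((i : ℚ) / (n + 1 : ℤ), (j : ℚ) / (n + 1 : ℤ))) : ℝ)) : ℂ) ^ 8 := by
      rw [← Complex.ofReal_exp, ← Complex.ofReal_pow, ← Real.exp_nat_mul]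
      congr 2
      push_cast
      ring
    rw [h5] at h4
    exact (IsIntegral.of_pow (by norm_num) h4.isIntegral).isAlgebraic
  obtain ⟨i, j, hij⟩ := hx
  have hxe : x = ((i : ℚ) / (n + 1 : ℤ), (j : ℚ) / (n + 1 : ℤ)) := by
    have h1 := congrArg Prod.fst hij
    have h2 := congrArg Prod.snd hij
    simp only [nsmul_eq_mul] at h1 h2
    rw [← hd0]
    ext
    · simp only
      rw [eq_div_iff hdne, mul_comm]
      exact h1
    · simp only
      rw [eq_div_iff hdne, mul_comm]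
      exact h2
  by_cases hj : (n + 1) ∣ j
  · by_cases hi : (n + 1) ∣ i
    · -- a lattice point
      have h1 : x ∈ Lam := by
        obtain ⟨i', hi'⟩ := hi
        obtain ⟨j', hj'⟩ := hj
        refine ⟨i', j', ?_⟩
        have h5 : (((n + 1 : ℤ)) : ℚ) ≠ 0 := by exact_mod_cast hn1
        rw [hxe, hi', hj']
        ext
        · simp only
          rw [div_eq_iff h5]
          push_cast
          ring
        · simp only
          rw [div_eq_iff h5]
          push_cast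
          ring
      have h2 : rho 0 = 0 := by
        have := odd 0
        rw [neg_zero] at this
        linarith
      have h3 : rho x = 0 := by
        rw [← zero_add x, per 0 x h1, h2]
      rw [h3, mul_zero, Real.exp_zero, Complex.ofReal_one]
      exact isAlgebraic_one
    · have h1 := main (-j) (i + n * j) (by
        intro h2
        apply hi
        have h3 : i = i + n * j - n * j := by ring
        rw [h3]
        exact dvd_sub h2 (hj.mul_left n))
      have h2 : ((((-j : ℤ) : ℚ) / (n + 1 : ℤ), (((i + n * j : ℤ)) : ℚ) / (n + 1 : ℤ)) : ℚ × ℚ) =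
          E n x := by
        rw [hxe, algB_E_apply]
        ext
        · simp only
          push_cast
          ring
        · simp only
          push_cast
          ring
      rw [h2, eps] at h1
      exact h1
  · rw [hxe]
    exact main i j hj

end Zau
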