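import Pool.Agent.Lib_zau.GLgrp

/-!
# Zauner (MP_1c78a5_mp), B4, second part: the function `bG` on the finite group of a lens

`bG` is well defined, does not vanish, `bG 0 ^ 2 = om`, `kapL ^ 2 = card`; for the lens of `Df`:
`bG w * bG (-w) = gam w` (`w ≠ 0`), and the reflection data `Sol`.
-/

set_option autoImplicit false

open Finset

namespace Zau

open Ghost

namespace Lens

variable (L : Lens)

theorem xi_cast (r : ℤ) :
    ((r : ℤ) : ℂ) * ((L.om : ℂ) - 1) / ((L.A - L.U - 2 : ℤ) : ℂ) = (L.xi r : ℂ) := by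
  have h1 : ((L.om : ℂ)) * (L.m : ℂ) = ((L.om : ℂ) - 1) ^ 2 := by
    have := congrArg (fun r : ℝ => (r : ℂ)) L.om_m
    push_cast at this
    exact this
  have h2 := L.m_neC
  have h3 := L.om_sub_ne_c
  have h4 : ((L.A - L.U - 2 : ℤ) : ℂ) = (L.m : ℂ) := rfl
  rw [h4]
  unfold xi
  push_cast
  rw [div_eq_div_iff h2 h3]
  linear_combination (-(r : ℂ)) * h1

theorem D_per_int (b i : ℤ) (ξ : ℂ) : L.D (b + i * L.N) ξ = L.D b ξ := by
  induction i using Int.induction_on with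
  | zero => simp
  | succ n ih =>
    rw [← ih, ← L.D_per (b + n * L.N)]
    congr 1
    ring
  | pred n ih =>
    rw [← ih, ← L.D_per (b + (-n - 1) * L.N)]
    congr 1
    ring

theorem R_per_int (b i : ℤ) (ξ : ℂ) : L.R (b + i * L.N) ξ = L.R b ξ := by
  induction i using Int.induction_on with
  | zero => simp
  | succ n ih =>
    rw [← ih, ← L.R_per (b + n * L.N)]
    congr 1
    ring
  | pred n ih =>
    rw [← ih, ← L.R_per (b + (-n - 1) * L.N)]
    congr 1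
    ring

theorem D_congr {b b' : ℤ} (h : (L.N : ℤ) ∣ b - b') (ξ : ℂ) : L.D b ξ = L.D b' ξ := by
  obtain ⟨i, hi⟩ := h
  have : b = b' + i * L.N := by linarith
  rw [this, D_per_int]

theorem R_congr {b b' : ℤ} (h : (L.N : ℤ) ∣ b - b') (ξ : ℂ) : L.R b ξ = L.R b' ξ := by
  obtain ⟨i, hi⟩ := h
  have : b = b' + i * L.N := by linarith
  rw [this, R_per_int]

theorem xi_nonneg {r : ℤ} (h : 0 ≤ r) : 0 ≤ L.xi r := by
  have := L.xi_le h
  rwa [xi_zero] at this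

theorem xi_lt_om {r : ℤ} (h : r ≤ L.m) : L.xi r < L.om := by
  have := L.xi_le h
  rw [xi_m] at this
  linarith

theorem DR_xi {r : ℤ} (h0 : 0 ≤ r) (h1 : r ≤ L.m) (b : ℤ) :
    L.D b (L.xi r) * L.R b (L.xi r) = 1 := by
  apply L.DR
  right
  have h2 := L.xi_nonneg h0
  have h3 := L.xi_lt_om h1
  have h4 : L.om = L.P.b ^ 2 := rfl
  simp only [Complex.ofReal_re]
  constructor
  · linarith
  · rw [← h4]; exact h3

theorem DR_zero : L.D 0 0 * L.R 0 0 = 1 := by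
  have := L.DR_xi le_rfl L.m_pos.le 0
  rw [xi_zero] at this
  simpa using this

theorem D00_ne : L.D 0 0 ≠ 0 := left_ne_zero_of_mul_eq_one L.DR_zero

theorem Pb_ne : (L.P.b : ℂ) ≠ 0 := by
  have := L.P.hb
  exact_mod_cast this.ne'

/-- The value of `bZ`. -/
theorem bZ_eq (x : ℤ × ℤ) : bZ L x = L.P.b * L.D 0 0 *
    L.R (bb L.N L.U x - (L.U + 1) * (rr L.N L.U x / L.m)) (L.xi (rr L.N L.U x % L.m)) := by
  unfold bZ
  rw [L.xi_cast]
  rfl

theorem bZ_rel (x : ℤ × ℤ) {z : ℤ × ℤ} (hz : z ∈ L.Rel) : bZ L (x + z) = bZ L x := by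
  obtain ⟨j, h1, i, h2⟩ := (L.mem_Rel z).1 hz
  rw [bZ_eq, bZ_eq, rr_add, bb_add, h1, Int.add_mul_emod_self_right,
    Int.add_mul_ediv_right _ _ L.m_ne]
  congr 1
  apply L.R_congr
  exact ⟨i, by linear_combination h2⟩

theorem bG_mk (x : ℤ × ℤ) : bG L (QuotientAddGroup.mk x) = bZ L x :=
  L.lift_out (bZ L) (fun x _ hz => L.bZ_rel x hz) x

/-- The value of `bG` at a representative in the strip. -/
theorem bG_canon {x : ℤ × ℤ} (h0 : 0 ≤ rr L.N L.U x) (h1 : rr L.N L.U x < L.m) :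
    bG L (QuotientAddGroup.mk x) = L.P.b * L.D 0 0 * L.R (bb L.N L.U x) (L.xi (rr L.N L.U x)) := by
  rw [bG_mk, bZ_eq, Int.emod_eq_of_lt h0 h1, Int.ediv_eq_zero_of_lt h0 h1, mul_zero, sub_zero]

/-- Every class has a representative in the strip. -/
theorem exists_canon (u : L.GG) : ∃ x : ℤ × ℤ, QuotientAddGroup.mk x = u ∧
    0 ≤ rr L.N L.U x ∧ rr L.N L.U x < L.m := by
  obtain ⟨y, rfl⟩ := L.ind u
  refine ⟨y - L.relHom (0, rr L.N L.U y / L.m), ?_, ?_, ?_⟩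
  · rw [mk_eq, sub_sub_cancel_left]
    exact neg_mem ((L.mem_Rel' _).2 ⟨_, rfl⟩)
  · rw [rr_sub, rr_rel]
    have h1 := Int.emod_nonneg (rr L.N L.U y) L.m_ne
    have h2 := Int.emod_add_mul_ediv (rr L.N L.U y) L.m
    have h3 : rr L.N L.U y - rr L.N L.U y / L.m * L.m = rr L.N L.U y % L.m := by
      linear_combination -h2
    simp only
    rw [h3]
    exact h1
  · rw [rr_sub, rr_rel]
    have h1 := Int.emod_lt_of_pos (rr L.N L.U y) L.m_pos
    have h2 := Int.emod_add_mul_ediv (rr L.N L.U y) L.m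
    have h3 : rr L.N L.U y - rr L.N L.U y / L.m * L.m = rr L.N L.U y % L.m := by
      linear_combination -h2
    simp only
    rw [h3]
    exact h1

theorem bG_ne (u : L.GG) : bG L u ≠ 0 := by
  obtain ⟨x, rfl, h0, h1⟩ := L.exists_canon u
  rw [L.bG_canon h0 h1]
  exact mul_ne_zero (mul_ne_zero L.Pb_ne L.D00_ne)
    (right_ne_zero_of_mul_eq_one (L.DR_xi h0 h1.le _))

theorem bG_zero : bG L 0 = L.P.b := by
  have h : (0 : L.GG) = QuotientAddGroup.mk 0 := rfl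
  have h1 := L.bG_canon (x := 0) (by rw [rr_zero]) (by rw [rr_zero]; exact L.m_pos)
  rw [h, h1, rr_zero, bb_zero, xi_zero]
  have h2 := L.DR_zero
  simp only [Complex.ofReal_zero]
  linear_combination (L.P.b : ℂ) * h2

theorem bG_zero_sq : bG L 0 ^ 2 = (L.om : ℂ) := by
  rw [bG_zero, om_cast]

theorem kapL_sq : kapL L ^ 2 = (Fintype.card L.GG : ℂ) := by
  have h1 : (Fintype.card L.GG : ℂ) = ((L.m : ℤ) : ℂ) := by
    rw [← L.card_G]
    push_cast
    rfl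
  rw [h1]
  have h2 : (L.P.b - L.P.o) ^ 2 = ((L.m : ℤ) : ℝ) := by
    have h3 := L.htr
    have h4 := L.P.hbo
    unfold m
    push_cast at h3 ⊢
    linear_combination h3 - 2 * h4
  unfold kapL
  have h5 := congrArg (fun r : ℝ => (r : ℂ)) h2
  push_cast at h5
  exact h5

/-- The fixed points which are not zero have nontrivial first coordinate. -/
theorem UL_ne_one {x : ℤ × ℤ} (hx : (QuotientAddGroup.mk x : L.GG) ≠ 0) :
    e (((L.xi (rr L.N L.U x) : ℂ) + bb L.N L.U x) / L.N) ≠ 1 := by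
  intro h
  obtain ⟨k, hk⟩ := e_eq_one_iff.1 h
  have hN := L.N_ne_c
  rw [div_eq_iff hN] at hk
  have h1 : L.xi (rr L.N L.U x) = ((k * L.N - bb L.N L.U x : ℤ) : ℝ) := by
    have : ((L.xi (rr L.N L.U x) : ℝ) : ℂ) = (((k * L.N - bb L.N L.U x : ℤ) : ℝ) : ℂ) := by
      push_cast
      linear_combination hk
    exact_mod_cast this
  have hirr : Irrational L.om := (isU_of_par L.hub L.htr).irrational
  have h2 : L.om * ((rr L.N L.U x - (k * L.N - bb L.N L.U x) : ℤ) : ℝ) =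
      ((-(k * L.N - bb L.N L.U x) : ℤ) : ℝ) := by
    have h3 := L.om_sub_ne
    unfold xi at h1
    rw [div_eq_iff h3] at h1
    push_cast at h1 ⊢
    linear_combination h1
  have h4 : rr L.N L.U x - (k * L.N - bb L.N L.U x) = 0 := by
    by_contra h5
    have h6 : ((rr L.N L.U x - (k * L.N - bb L.N L.U x) : ℤ) : ℝ) ≠ 0 := by exact_mod_cast h5
    apply hirr
    refine ⟨((-(k * L.N - bb L.N L.U x) : ℤ) : ℚ) /
      ((rr L.N L.U x - (k * L.N - bb L.N L.U x) : ℤ) : ℚ), ?_⟩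
    rw [Rat.cast_div, Rat.cast_intCast, Rat.cast_intCast, div_eq_iff h6, h2]
  rw [h4, Int.cast_zero, mul_zero] at h2
  have h7 : -(k * L.N - bb L.N L.U x) = 0 := by exact_mod_cast h2.symm
  apply hx
  rw [mk_eq_zero, mem_Rel]
  refine ⟨0, by linarith, k, by linarith⟩

/-- At a fixed point the two coordinates agree. -/
theorem UR_eq_UL (x : ℤ × ℤ) :
    e ((L.xi (rr L.N L.U x) : ℂ) / (L.N * ((L.P.b : ℂ) ^ 2)) + L.A * bb L.N L.U x / L.N) =
      e (((L.xi (rr L.N L.U x) : ℂ) + bb L.N L.U x) / L.N) := by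
  have hN := L.N_ne_c
  have h1 : (((L.xi (rr L.N L.U x) : ℂ) + bb L.N L.U x) / L.N) =
      ((L.xi (rr L.N L.U x) : ℂ) / (L.N * ((L.P.b : ℂ) ^ 2)) + L.A * bb L.N L.U x / L.N) +
        ((L.A * x.1 + L.B * x.2 : ℤ) : ℂ) := by
    have h2 := L.fix x
    have h3 : ((rr L.N L.U x : ℤ) : ℂ) - (L.A - 1) * bb L.N L.U x =
        L.N * (L.A * x.1 + L.B * x.2) := by exact_mod_cast h2
    have h4 := L.om_sub_ne_c
    have h5 := L.om_ne_c
    rw [← L.om_cast]
    unfold xi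
    push_cast
    field_simp
    linear_combination ((L.om : ℂ) - 1) * h3
  rw [h1, e_add_int]

theorem xi_add_m (r : ℤ) : ((L.xi (r + L.m) : ℝ) : ℂ) = (L.xi r : ℂ) + (L.P.b : ℂ) ^ 2 - 1 := by
  rw [xi_add, xi_m]
  push_cast
  rw [L.om_cast]
  ring

/-- `D` is invariant under the translation at the fixed points. -/
theorem D_tau {x : ℤ × ℤ} (hx : (QuotientAddGroup.mk x : L.GG) ≠ 0) (h0 : 0 ≤ rr L.N L.U x) :
    L.D (bb L.N L.U x + L.U + 1) (L.xi (rr L.N L.U x + L.m)) =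
      L.D (bb L.N L.U x) (L.xi (rr L.N L.U x)) := by
  have h1 := L.UL_ne_one hx
  have h2 := L.UR_eq_UL x
  have hN := L.N_ne_c
  have hxi := L.xi_nonneg h0
  obtain ⟨b, hb⟩ : ∃ b, b = bb L.N L.U x := ⟨_, rfl⟩
  obtain ⟨ξ, hξ⟩ : ∃ ξ : ℂ, ξ = (L.xi (rr L.N L.U x) : ℂ) := ⟨_, rfl⟩
  have hre : 0 ≤ ξ.re := by rw [hξ]; simpa using hxi
  rw [xi_add_m, ← hb, ← hξ]
  rw [← hb, ← hξ] at h1 h2
  have h3 := L.D3 b ξ (Or.inr (by linarith))
  have hPb : 0 < L.P.b ^ 2 := by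
    have := L.P.hb
    positivity
  have h4 := L.D2 (b + L.U) (ξ + (L.P.b : ℂ) ^ 2) (Or.inr (by
    have : ((L.P.b : ℂ) ^ 2) = ((L.P.b ^ 2 : ℝ) : ℂ) := by push_cast; rfl
    rw [this, Complex.add_re, Complex.ofReal_re]
    linarith))
  have h5 : e ((ξ + (L.P.b : ℂ) ^ 2) / (L.N * ((L.P.b : ℂ) ^ 2)) + L.A * ((b + L.U : ℤ) : ℂ) / L.N) =
      e (ξ / (L.N * ((L.P.b : ℂ) ^ 2)) + L.A * b / L.N) := by
    have h6 : (ξ + (L.P.b : ℂ) ^ 2) / (L.N * ((L.P.b : ℂ) ^ 2)) + L.A * ((b + L.U : ℤ) : ℂ) / L.N =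
        (ξ / (L.N * ((L.P.b : ℂ) ^ 2)) + L.A * b / L.N) + ((L.B : ℤ) : ℂ) := by
      have h7 : (L.B : ℂ) * L.N = L.A * L.U + 1 := by exact_mod_cast L.hdet
      have hP := L.Pb_ne
      push_cast
      field_simp
      linear_combination (-(L.P.b : ℂ) ^ 2) * h7
    rw [h6, e_add_int]
  rw [h5, h3, h2] at h4
  have h8 : (1 : ℂ) - e ((ξ + b) / L.N) ≠ 0 := sub_ne_zero.2 h1.symm
  exact mul_right_cancel₀ h8 h4

/-- `R` is invariant under the translation at the fixed points. -/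
theorem R_tau {x : ℤ × ℤ} (hx : (QuotientAddGroup.mk x : L.GG) ≠ 0) (h0 : rr L.N L.U x < 0) :
    L.R (bb L.N L.U x + L.U + 1) (L.xi (rr L.N L.U x + L.m)) =
      L.R (bb L.N L.U x) (L.xi (rr L.N L.U x)) := by
  have h1 := L.UL_ne_one hx
  have h2 := L.UR_eq_UL x
  have hN := L.N_ne_c
  have hxi : L.xi (rr L.N L.U x) < 0 := by
    have := L.xi_lt h0
    rw [xi_zero] at this
    linarith
  obtain ⟨b, hb⟩ : ∃ b, b = bb L.N L.U x := ⟨_, rfl⟩
  obtain ⟨ξ, hξ⟩ : ∃ ξ : ℂ, ξ = (L.xi (rr L.N L.U x) : ℂ) := ⟨_, rfl⟩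
  have hre : ξ.re < 0 := by rw [hξ]; simpa using hxi
  rw [xi_add_m, ← hb, ← hξ]
  rw [← hb, ← hξ] at h1 h2
  have h3 := L.R3 b ξ (Or.inr hre)
  have h4 := L.R2 (b + L.U) (ξ + (L.P.b : ℂ) ^ 2) (Or.inr (by
    have : ((L.P.b : ℂ) ^ 2) = ((L.P.b ^ 2 : ℝ) : ℂ) := by push_cast; rfl
    rw [this, Complex.add_re, Complex.ofReal_re]
    linarith))
  have h5 : e ((ξ + (L.P.b : ℂ) ^ 2) / (L.N * ((L.P.b : ℂ) ^ 2)) + L.A * ((b + L.U : ℤ) : ℂ) / L.N) =
      e (ξ / (L.N * ((L.P.b : ℂ) ^ 2)) + L.A * b / L.N) := by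
    have h6 : (ξ + (L.P.b : ℂ) ^ 2) / (L.N * ((L.P.b : ℂ) ^ 2)) + L.A * ((b + L.U : ℤ) : ℂ) / L.N =
        (ξ / (L.N * ((L.P.b : ℂ) ^ 2)) + L.A * b / L.N) + ((L.B : ℤ) : ℂ) := by
      have h7 : (L.B : ℂ) * L.N = L.A * L.U + 1 := by exact_mod_cast L.hdet
      have hP := L.Pb_ne
      push_cast
      field_simp
      linear_combination (-(L.P.b : ℂ) ^ 2) * h7
    rw [h6, e_add_int]
  rw [h5, h2, h3] at h4
  exact h4

/-- The value of `bG` at a representative with `0 ≤ r ≤ m`. -/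
theorem bG_val {x : ℤ × ℤ} (hx : (QuotientAddGroup.mk x : L.GG) ≠ 0)
    (h0 : 0 ≤ rr L.N L.U x) (h1 : rr L.N L.U x ≤ L.m) :
    bG L (QuotientAddGroup.mk x) * L.D (bb L.N L.U x) (L.xi (rr L.N L.U x)) =
      L.P.b * L.D 0 0 := by
  rcases h1.lt_or_eq with h1 | h1
  · rw [L.bG_canon h0 h1]
    have := L.DR_xi h0 h1.le (bb L.N L.U x)
    linear_combination (L.P.b * L.D 0 0) * this
  · -- shift by one period
    obtain ⟨y, hy⟩ : ∃ y, y = x - L.relHom (0, 1) := ⟨_, rfl⟩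
    have hmk : (QuotientAddGroup.mk y : L.GG) = QuotientAddGroup.mk x := by
      rw [mk_eq, hy, sub_sub_cancel_left]
      exact neg_mem ((L.mem_Rel' _).2 ⟨_, rfl⟩)
    have hr : rr L.N L.U y = 0 := by
      rw [hy, rr_sub, rr_rel, h1]
      simp
    have hb : bb L.N L.U x = bb L.N L.U y + L.U + 1 := by
      rw [hy, bb_sub, bb_rel]
      simp only
      ring
    have h2 := L.D_tau (x := y) (by rw [hmk]; exact hx) (by rw [hr])
    have h3 := L.bG_canon (x := y) (by rw [hr]) (by rw [hr]; exact L.m_pos)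
    have h4 : rr L.N L.U y + L.m = rr L.N L.U x := by rw [hr, h1, zero_add]
    rw [h4, ← hb] at h2
    rw [h2, ← hmk, h3]
    have := L.DR_xi (r := rr L.N L.U y) (by rw [hr]) (by rw [hr]; exact L.m_pos.le) (bb L.N L.U y)
    linear_combination (L.P.b * L.D 0 0) * this

/-- The quadratic function in terms of the reflection exponential. -/
theorem gx_gam0 (x : ℤ × ℤ) :
    e (gx L.N L.A L.om (bb L.N L.U x) (L.xi (rr L.N L.U x))) * L.gam0 x = 1 := by
  unfold gam0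
  rw [← e_add, e_eq_one_iff]
  have hN := L.N_ne_c
  have hom := L.om_ne_c
  have hom1 := L.om_sub_ne_c
  have hm := L.m_neC
  have hmC : ((L.om : ℂ) - 1) ^ 2 = L.m * L.om := by
    have := congrArg (fun r : ℝ => (r : ℂ)) L.om_m
    push_cast at this
    linear_combination -this
  have h2 : gx L.N L.A L.om (bb L.N L.U x) (L.xi (rr L.N L.U x)) =
      ((rr L.N L.U x : ℂ) ^ 2 - rr L.N L.U x * L.m +
        L.m * (bb L.N L.U x * (L.N - 1) - L.A * bb L.N L.U x * (bb L.N L.U x - 1))) /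
        (2 * L.N * L.m) := by
    unfold gx xi
    have h3 : (L.om : ℂ) * (rr L.N L.U x) / (L.om - 1) *
        (L.om * (rr L.N L.U x) / (L.om - 1) - L.om + 1) / (2 * L.N * L.om) =
        ((rr L.N L.U x : ℂ) ^ 2 - rr L.N L.U x * L.m) / (2 * L.N * L.m) := by
      have h4 : (L.om : ℂ) * (rr L.N L.U x) / (L.om - 1) *
          (L.om * (rr L.N L.U x) / (L.om - 1) - L.om + 1) =
          L.om * ((rr L.N L.U x : ℂ) ^ 2 * L.om / (L.om - 1) ^ 2 - rr L.N L.U x) := by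
        field_simp
        ring
      rw [h4, hmC]
      field_simp
    push_cast
    rw [h3]
    field_simp
  rw [h2]
  -- the integer
  have he : ∀ k : ℤ, Even (k * (k - 1)) := fun k => Int.even_mul_pred_self k
  obtain ⟨p, hp⟩ := he x.1
  obtain ⟨q, hq⟩ := he x.2
  refine ⟨-(L.A * L.N * p + L.U * L.B * q + L.A * L.U * x.1 * x.2), ?_⟩
  have hd := L.hdet
  have key : rr L.N L.U x ^ 2 - rr L.N L.U x * L.m +
        L.m * (bb L.N L.U x * (L.N - 1) - L.A * bb L.N L.U x * (bb L.N L.U x - 1)) +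
        L.N * L.g2 x =
      2 * L.N * L.m * -(L.A * L.N * p + L.U * L.B * q + L.A * L.U * x.1 * x.2) := by
    simp only [rr, bb, g2, bil, m]
    linear_combination ((L.A - L.U - 2) * L.U * x.2 ^ 2 - x.2 ^ 2 + (L.A - L.U - 2) * x.2) * hd -
      (L.A - L.U - 2) * L.A * L.N ^ 2 * hp - (L.A - L.U - 2) * L.U * L.B * L.N * hq
  have keyC := congrArg (fun r : ℤ => (r : ℂ)) key
  push_cast at keyC ⊢
  field_simp
  linear_combination keyC

/-- The reflection of `bG`. -/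
theorem bG_mul_neg (hD : L.D = Df L.N L.U L.om) (u : L.GG) (hu : u ≠ 0) :
    bG L u * bG L (-u) = L.gam u := by
  have hLP : LP L.N L.A L.U L.om :=
    ⟨L.hN, ⟨L.B, by rw [← L.hdet, mul_comm]⟩, isU_of_par L.hub L.htr⟩
  obtain ⟨x, rfl, h0, h1⟩ := L.exists_canon u
  have hx' : (QuotientAddGroup.mk x : L.GG) ≠ 0 := hu
  -- the representative of `-u`
  obtain ⟨y, hy⟩ : ∃ y, y = -x + L.relHom (0, 1) := ⟨_, rfl⟩
  have hmk : (QuotientAddGroup.mk y : L.GG) = -(QuotientAddGroup.mk x : L.GG) := by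
    rw [← QuotientAddGroup.mk_neg, mk_eq, hy, add_sub_cancel_left]
    exact (L.mem_Rel' _).2 ⟨_, rfl⟩
  have hr : rr L.N L.U y = L.m - rr L.N L.U x := by
    rw [hy, rr_add, rr_neg, rr_rel]
    simp only
    ring
  have hb : bb L.N L.U y = L.U + 1 - bb L.N L.U x := by
    rw [hy, bb_add, bb_neg, bb_rel]
    simp only
    ring
  have h2 := L.bG_val hx' h0 h1.le
  have h3 := L.bG_val (x := y) (by rw [hmk]; exact neg_ne_zero.2 hx') (by rw [hr]; linarith)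
    (by rw [hr]; linarith)
  rw [hmk, hr, hb] at h3
  have hxi : ((L.xi (L.m - rr L.N L.U x) : ℝ) : ℂ) = (L.om : ℂ) - 1 - L.xi (rr L.N L.U x) := by
    rw [xi_sub, xi_m]
    push_cast
    ring
  rw [hxi, hD] at h3
  rw [hD] at h2
  have hn0 := L.xi_nonneg h0
  have hn1 := L.xi_lt_om h1.le
  have h4 := hLP.Df_reflect' (b := bb L.N L.U x) (x := (L.xi (rr L.N L.U x) : ℂ))
    (hLP.not_poleD_of_re (by simp only [Complex.ofReal_re]; linarith))
    (hLP.not_poleD_of_re (by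
      simp only [Complex.sub_re, Complex.ofReal_re, Complex.one_re]
      linarith))
  have h5 := L.gx_gam0 x
  rw [L.gam_mk]
  have hP : (L.P.b : ℂ) ^ 2 = L.om := L.om_cast.symm
  obtain ⟨E, hE⟩ : ∃ E, E = e (gx L.N L.A L.om (bb L.N L.U x) (L.xi (rr L.N L.U x))) := ⟨_, rfl⟩
  rw [← hE] at h4 h5
  have hD0 : Df L.N L.U L.om 0 0 ≠ 0 := by
    have := L.D00_ne
    rwa [hD] at this
  have hom := L.om_ne_c
  have hprod : (bG L (QuotientAddGroup.mk x) * bG L (-(QuotientAddGroup.mk x : L.GG))) *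
      (L.om * Df L.N L.U L.om 0 0 ^ 2 * E) = L.om * Df L.N L.U L.om 0 0 ^ 2 := by
    rw [← h4]
    calc _ = (bG L (QuotientAddGroup.mk x) *
          Df L.N L.U L.om (bb L.N L.U x) (L.xi (rr L.N L.U x))) *
          (bG L (-(QuotientAddGroup.mk x : L.GG)) *
          Df L.N L.U L.om (L.U + 1 - bb L.N L.U x) (L.om - 1 - L.xi (rr L.N L.U x))) := by ring
      _ = _ := by
        rw [h2, h3, ← hP]
        ring
  have hne : (L.om : ℂ) * Df L.N L.U L.om 0 0 ^ 2 ≠ 0 := mul_ne_zero hom (pow_ne_zero 2 hD0)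
  have h6 : bG L (QuotientAddGroup.mk x) * bG L (-(QuotientAddGroup.mk x : L.GG)) * E = 1 := by
    apply mul_left_cancel₀ hne
    linear_combination hprod
  linear_combination (L.gam0 x) * h6 -
    (bG L (QuotientAddGroup.mk x) * bG L (-(QuotientAddGroup.mk x : L.GG))) * h5

/-- `bG u * bG (-u)` is a root of unity. -/
theorem bG_root (hD : L.D = Df L.N L.U L.om) (u : L.GG) (hu : u ≠ 0) :
    ∃ k : ℕ, 0 < k ∧ (bG L u * bG L (-u)) ^ k = 1 := by
  refine ⟨2 * L.m.natAbs, ?_, ?_⟩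
  · have := L.m_pos
    omega
  · rw [L.bG_mul_neg hD u hu, gam_pow]

/-- The reflection data. -/
noncomputable def sol (hD : L.D = Df L.N L.U L.om) : Sol L.pairing where
  b := bG L
  a := aa (bG L)
  γ := L.gam
  κ := kapL L
  hκ := L.kapL_sq
  a_zero := by
    unfold aa
    rw [if_pos rfl]
  ab := by
    intro w hw
    unfold aa
    rw [if_neg hw, inv_mul_cancel₀ (L.bG_ne w)]
  bb := fun w hw => L.bG_mul_neg hD w hw
  γ_zero := L.gam_zero
  γ_add := L.gam_add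

end Lens

end Zau
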