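import Pool.Agent.Lib_MP_1c78a5_ghost.Defs

/-!
# The lens double sine of level `N` (helper85, note 14): interface

`D b ξ` is the product of `N` double sine values over the lattice points of a fundamental
parallelogram, `R b ξ` is its analytic inverse. All the analytic work of sections 4 and 5 of note 14
(the beta integral and the main contour) uses only the fields of `Zau.Lens`.
-/

open Complex MeasureTheory Set Filter Topology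
open scoped Real

namespace Zau

/-- A lens of level `N`: matrix `(A, -B; N, -U)` of determinant one, trace `A - U ≥ 3`, `om = P.b ^ 2`
the larger eigenvalue. -/
structure Lens where
  /-- the parameters `b = sqrt om`, `o = 1 / b` -/
  P : Ghost.Par
  /-- the level -/
  N : ℕ
  /-- matrix entry -/
  A : ℤ
  /-- matrix entry -/
  B : ℤ
  /-- matrix entry -/
  U : ℤ
  hN : 0 < N
  hdet : B * N = A * U + 1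
  htr : P.b ^ 2 + P.o ^ 2 = ((A - U : ℤ) : ℝ)
  hub : 1 < P.b
  hAU : 3 ≤ A - U
  /-- the lens double sine -/
  D : ℤ → ℂ → ℂ
  /-- its analytic inverse -/
  R : ℤ → ℂ → ℂ
  D_per : ∀ b ξ, D (b + N) ξ = D b ξ
  R_per : ∀ b ξ, R (b + N) ξ = R b ξ
  D_diff : ∀ (b : ℤ) (ξ : ℂ), (ξ.im ≠ 0 ∨ -1 < ξ.re) → DifferentiableAt ℂ (D b) ξ
  R_diff : ∀ (b : ℤ) (ξ : ℂ), (ξ.im ≠ 0 ∨ ξ.re < P.b ^ 2) → DifferentiableAt ℂ (R b) ξ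
  DR : ∀ (b : ℤ) (ξ : ℂ), (ξ.im ≠ 0 ∨ (-1 < ξ.re ∧ ξ.re < P.b ^ 2)) → D b ξ * R b ξ = 1
  D2 : ∀ (b : ℤ) (ξ : ℂ), (ξ.im ≠ 0 ∨ 0 < ξ.re) →
    D (b + 1) (ξ - 1) * (1 - Ghost.e (ξ / (N * ((P.b : ℂ) ^ 2)) + A * b / N)) = D b ξ
  R2 : ∀ (b : ℤ) (ξ : ℂ), (ξ.im ≠ 0 ∨ ξ.re < P.b ^ 2) →
    R (b + 1) (ξ - 1) = R b ξ * (1 - Ghost.e (ξ / (N * ((P.b : ℂ) ^ 2)) + A * b / N))
  D3 : ∀ (b : ℤ) (ξ : ℂ), (ξ.im ≠ 0 ∨ -1 < ξ.re) →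
    D (b + U) (ξ + (P.b : ℂ) ^ 2) = D b ξ * (1 - Ghost.e ((ξ + b) / N))
  R3 : ∀ (b : ℤ) (ξ : ℂ), (ξ.im ≠ 0 ∨ ξ.re < 0) →
    R (b + U) (ξ + (P.b : ℂ) ^ 2) * (1 - Ghost.e ((ξ + b) / N)) = R b ξ
  Dup : ∃ C : ℝ, ∀ (b : ℤ) (ξ : ℂ), 1 ≤ ξ.im → ‖D b ξ‖ ≤ C ∧ ‖R b ξ‖ ≤ C
  Dlim : ∀ ε : ℝ, 0 < ε → ∃ T : ℝ, ∀ (b : ℤ) (ξ : ℂ), T ≤ ξ.im →
    ‖D b ξ - 1‖ < ε ∧ ‖R b ξ - 1‖ < ε
  Ddn : ∃ C : ℝ, ∀ (b : ℤ) (ξ : ℂ), ξ.im ≤ -1 →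
    ‖D b ξ‖ ≤ C * Real.exp (π * |ξ.im| * (2 * ξ.re + 1 - P.b ^ 2) / (N * P.b ^ 2)) ∧
    ‖R b ξ‖ ≤ C * Real.exp (-(π * |ξ.im| * (2 * ξ.re + 1 - P.b ^ 2) / (N * P.b ^ 2)))

namespace Lens

/-- `om = P.b ^ 2`, the unit. -/
noncomputable def om (L : Lens) : ℝ := L.P.b ^ 2

/-- `U_L (ξ, b) = e ((ξ + b) / N)`. -/
noncomputable def UL (L : Lens) (ξ : ℂ) (b : ℤ) : ℂ := Ghost.e ((ξ + b) / L.N)

/-- `U_R (ξ, b) = e (ξ / (N om) + A b / N)`. -/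
noncomputable def UR (L : Lens) (ξ : ℂ) (b : ℤ) : ℂ :=
  Ghost.e (ξ / (L.N * (L.om : ℂ)) + L.A * b / L.N)

/-- The character `e (-ξ μ / (N om) + A b c / N)`. -/
noncomputable def chi (L : Lens) (μ : ℂ) (c : ℤ) (ξ : ℂ) (b : ℤ) : ℂ :=
  Ghost.e (-(ξ * μ) / (L.N * (L.om : ℂ)) + L.A * b * c / L.N)

/-- The integrand `f_b (ξ) = D_{b+1} (ξ - 1) / D_{b-k+U} (ξ - a + om)` of the beta integral. -/
noncomputable def f (L : Lens) (a : ℝ) (k : ℤ) (ξ : ℂ) (b : ℤ) : ℂ :=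
  L.D (b + 1) (ξ - 1) * L.R (b - k + L.U) (ξ - a + L.om)

/-- The beta integral `I (a, k; η, c)` on the line `re ξ = x0`. -/
noncomputable def II (L : Lens) (a : ℝ) (k : ℤ) (η : ℂ) (c : ℤ) (x0 : ℝ) : ℂ :=
  ∑ b ∈ Finset.range L.N, ∫ t : ℝ, L.f a k (x0 + t * I) b * L.chi η c (x0 + t * I) b

end Lens

end Zau
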