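import Pool.Agent.Lib_zau.TFun
import Pool.Agent.Lib_zau.Lens

/-!
# The instance of `Zau.Lens`
-/

open Complex MeasureTheory Set Filter Topology
open scoped Real ComplexConjugate

namespace Zau

open Ghost

section

variable {N : ℕ} {A U : ℤ} {om : ℝ}

/-- The logarithm of `Df` in the upper half plane. -/
noncomputable def LD (N : ℕ) (U : ℤ) (om : ℝ) (b : ℤ) (x : ℂ) : ℂ :=
  ∑ m ∈ Finset.range N, Lf (Pom om) (xo om (zz N U om b m x))

theorem LP.zz_im_pos (h : LP N A U om) {b : ℤ} {m : ℕ} {x : ℂ} (hx : 0 < x.im) :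
    0 < (zz N U om b m x).im := by
  rw [zz_im]
  exact div_pos hx h.NR

theorem LP.Df_upper (h : LP N A U om) {b : ℤ} {x : ℂ} (hx : 0 < x.im) :
    Df N U om b x = Complex.exp (LD N U om b x) := by
  unfold Df LD
  rw [Complex.exp_sum]
  exact Finset.prod_congr rfl fun m _ => Sf_upper h.hom (h.zz_im_pos hx)

theorem LP.Rf_upper (h : LP N A U om) {b : ℤ} {x : ℂ} (hx : 0 < x.im) :
    Rf N U om b x = Complex.exp (-(LD N U om b x)) := by
  unfold Rf prodF LD
  rw [← Finset.sum_neg_distrib, Complex.exp_sum]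
  exact Finset.prod_congr rfl fun m _ => Tf_upper h.hom (h.zz_im_pos hx)

/-- Exponential bound for the logarithm. -/
theorem LP.LD_bound (h : LP N A U om) {t0 : ℝ} (ht : 0 < t0) :
    ∃ C : ℝ, 0 < C ∧ ∀ (b : ℤ) (x : ℂ), t0 ≤ x.im →
      ‖LD N U om b x‖ ≤ C * Real.exp (-(2 * π * x.im / (N * om))) := by
  have hN := h.NR
  obtain ⟨C, hC, hb⟩ := Lf_xo_bound h.hom (t0 := t0 / N) (div_pos ht hN)
  refine ⟨N * C, mul_pos hN hC, fun b x hx => ?_⟩
  unfold LD
  refine (norm_sum_le _ _).trans ?_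
  have h1 : ∀ m ∈ Finset.range N, ‖Lf (Pom om) (xo om (zz N U om b m x))‖ ≤
      C * Real.exp (-(2 * π * x.im / (N * om))) := by
    intro m _
    have h2 := hb (zz N U om b m x) (by
      rw [zz_im]
      exact div_le_div_of_nonneg_right hx hN.le)
    rw [zz_im] at h2
    have h3 : 2 * π * (x.im / N) / om = 2 * π * x.im / (N * om) := by
      have := h.hom.ne
      field_simp
    rwa [h3] at h2
  refine (Finset.sum_le_sum h1).trans ?_
  rw [Finset.sum_const, Finset.card_range, nsmul_eq_mul]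
  linarith

/-- Uniform bound for the logarithm. -/
theorem LP.LD_bound' (h : LP N A U om) {t0 : ℝ} (ht : 0 < t0) :
    ∃ C : ℝ, 0 < C ∧ ∀ (b : ℤ) (x : ℂ), t0 ≤ x.im → ‖LD N U om b x‖ ≤ C := by
  obtain ⟨C, hC, hb⟩ := h.LD_bound ht
  refine ⟨C, hC, fun b x hx => (hb b x hx).trans ?_⟩
  have hE : Real.exp (-(2 * π * x.im / (N * om))) ≤ 1 := by
    rw [Real.exp_le_one_iff]
    have : 0 ≤ 2 * π * x.im / (N * om) :=
      div_nonneg (mul_nonneg (mul_nonneg two_pos.le Real.pi_pos.le) (ht.le.trans hx))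
        (mul_nonneg h.NR.le h.hom.pos.le)
    linarith
  nlinarith

/-- Exponential bounds for `Df - 1`, `Rf - 1`. -/
theorem LP.Df_sub_one_bound (h : LP N A U om) {t0 : ℝ} (ht : 0 < t0) :
    ∃ C : ℝ, 0 < C ∧ ∀ (b : ℤ) (x : ℂ), t0 ≤ x.im →
      ‖Df N U om b x - 1‖ ≤ C * Real.exp (-(2 * π * x.im / (N * om))) ∧
      ‖Rf N U om b x - 1‖ ≤ C * Real.exp (-(2 * π * x.im / (N * om))) := by
  obtain ⟨C, hC, hb⟩ := h.LD_bound ht
  obtain ⟨C', hC', hb'⟩ := h.LD_bound' ht
  refine ⟨C * Real.exp C', mul_pos hC (Real.exp_pos _), fun b x hx => ?_⟩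
  have hx0 : 0 < x.im := lt_of_lt_of_le ht hx
  have hE0 := Real.exp_pos (-(2 * π * x.im / (N * om)))
  have key : ∀ z : ℂ, ‖z‖ = ‖LD N U om b x‖ →
      ‖Complex.exp z - 1‖ ≤ C * Real.exp C' * Real.exp (-(2 * π * x.im / (N * om))) := by
    intro z hz
    have h3 : ‖Complex.exp z - 1‖ ≤ ‖z‖ * Real.exp ‖z‖ := by
      have := Complex.norm_exp_sub_sum_le_norm_mul_exp z 1
      simpa using this
    refine h3.trans ?_
    rw [hz]
    have h4 : Real.exp ‖LD N U om b x‖ ≤ Real.exp C' := Real.exp_le_exp.2 (hb' b x hx)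
    calc ‖LD N U om b x‖ * Real.exp ‖LD N U om b x‖
        ≤ (C * Real.exp (-(2 * π * x.im / (N * om)))) * Real.exp C' :=
          mul_le_mul (hb b x hx) h4 (Real.exp_pos _).le (mul_pos hC hE0).le
      _ = _ := by ring
  rw [h.Df_upper hx0, h.Rf_upper hx0]
  exact ⟨key _ rfl, key _ (norm_neg _)⟩

/-- Uniform bounds for `Df`, `Rf` in the upper half plane. -/
theorem LP.Df_up (h : LP N A U om) {t0 : ℝ} (ht : 0 < t0) :
    ∃ C : ℝ, 0 < C ∧ ∀ (b : ℤ) (x : ℂ), t0 ≤ x.im →
      ‖Df N U om b x‖ ≤ C ∧ ‖Rf N U om b x‖ ≤ C := by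
  obtain ⟨C, hC, hb⟩ := h.LD_bound' ht
  refine ⟨Real.exp C, Real.exp_pos _, fun b x hx => ?_⟩
  have hx0 : 0 < x.im := lt_of_lt_of_le ht hx
  rw [h.Df_upper hx0, h.Rf_upper hx0]
  constructor
  · exact (Complex.norm_exp_le_exp_norm _).trans (Real.exp_le_exp.2 (hb b x hx))
  · refine (Complex.norm_exp_le_exp_norm _).trans (Real.exp_le_exp.2 ?_)
    rw [norm_neg]
    exact hb b x hx

/-- The sum of the representatives. -/
theorem LP.sum_rho (h : LP N A U om) (b : ℤ) :
    ∑ m ∈ Finset.range N, rho N U b m = ∑ m ∈ Finset.range N, ((m : ℤ) + 1) := by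
  have h1 : ∀ m : ℕ, ((((rho N U b m - 1).toNat : ℕ)) : ℤ) = rho N U b m - 1 := by
    intro m
    have := one_le_rho h.hN U b m
    omega
  refine Finset.sum_nbij (fun m => (rho N U b m - 1).toNat) ?_ ?_ ?_ ?_
  · intro m hm
    have h2 := one_le_rho h.hN U b m
    have h3 := rho_le h.hN U b m
    rw [Finset.mem_range] at hm ⊢
    omega
  · intro m hm m' hm' hmm
    simp only [Finset.coe_range, Set.mem_Iio] at hm hm'
    have e1 := h1 m
    have e2 := h1 m'
    have hmm' : (rho N U b m - 1).toNat = (rho N U b m' - 1).toNat := hmm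
    rw [hmm', e2] at e1
    have h4 : (N : ℤ) ∣ (b + m * U) - (b + m' * U) := by
      obtain ⟨k, hk⟩ := rho_dvd N U b m
      obtain ⟨k', hk'⟩ := rho_dvd N U b m'
      exact ⟨k - k', by linarith⟩
    -- multiply with `A`
    obtain ⟨B, hB⟩ := h.hAU
    obtain ⟨k, hk⟩ := h4
    have h5 : (N : ℤ) ∣ (m : ℤ) - m' := by
      refine ⟨B * (m - m') - A * k, ?_⟩
      linear_combination ((m : ℤ) - m') * hB - A * hk
    have h6 := Int.eq_zero_of_abs_lt_dvd h5 (by
      rw [abs_lt]
      constructor <;> omega)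
    omega
  · -- surjective
    intro r hr
    have hinj : Set.InjOn (fun m => (rho N U b m - 1).toNat) (Finset.range N : Set ℕ) := by
      intro m hm m' hm' hmm
      simp only [Finset.coe_range, Set.mem_Iio] at hm hm'
      have e1 := h1 m
      have e2 := h1 m'
      have hmm' : (rho N U b m - 1).toNat = (rho N U b m' - 1).toNat := hmm
      rw [hmm', e2] at e1
      have h4 : (N : ℤ) ∣ (b + m * U) - (b + m' * U) := by
        obtain ⟨k, hk⟩ := rho_dvd N U b m
        obtain ⟨k', hk'⟩ := rho_dvd N U b m'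
        exact ⟨k - k', by linarith⟩
      obtain ⟨B, hB⟩ := h.hAU
      obtain ⟨k, hk⟩ := h4
      have h5 : (N : ℤ) ∣ (m : ℤ) - m' := by
        refine ⟨B * (m - m') - A * k, ?_⟩
        linear_combination ((m : ℤ) - m') * hB - A * hk
      have h6 := Int.eq_zero_of_abs_lt_dvd h5 (by
        rw [abs_lt]
        constructor <;> omega)
      omega
    have himg : (Finset.range N).image (fun m => (rho N U b m - 1).toNat) = Finset.range N := by
      apply Finset.eq_of_subset_of_card_le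
      · intro r hr
        rw [Finset.mem_image] at hr
        obtain ⟨m, _, rfl⟩ := hr
        have h2 := one_le_rho h.hN U b m
        have h3 := rho_le h.hN U b m
        rw [Finset.mem_range]
        omega
      · rw [Finset.card_image_of_injOn hinj]
    have h7 : r ∈ (Finset.range N).image (fun m => (rho N U b m - 1).toNat) := by
      rw [himg]
      exact hr
    rw [Finset.mem_image] at h7
    obtain ⟨m, hm, hmr⟩ := h7
    exact ⟨m, hm, hmr⟩
  · intro m _
    have := h1 m
    rw [this]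
    ring

theorem sum_range_add_one (N : ℕ) : ∑ m ∈ Finset.range N, ((m : ℝ) + 1) = N * (N + 1) / 2 := by
  induction N with
  | zero => simp
  | succ n ih =>
    rw [Finset.sum_range_succ, ih]
    push_cast
    ring

theorem sum_range_id' (N : ℕ) : ∑ m ∈ Finset.range N, (m : ℝ) = N * (N - 1) / 2 := by
  induction N with
  | zero => simp
  | succ n ih =>
    rw [Finset.sum_range_succ, ih]
    push_cast
    ring

theorem LP.sum_rhoR (h : LP N A U om) (b : ℤ) :
    ∑ m ∈ Finset.range N, (rho N U b m : ℝ) = N * (N + 1) / 2 := by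
  rw [← sum_range_add_one]
  exact_mod_cast h.sum_rho b

theorem qS_im (z : ℂ) : (qS om z).im = z.im * (2 * z.re - 1 - om) / (2 * om) := by
  unfold qS
  have h1 : (2 * (om : ℂ)) = ((2 * om : ℝ) : ℂ) := by push_cast; rfl
  have h2 : (1 + (om : ℂ)) = ((1 + om : ℝ) : ℂ) := by push_cast; rfl
  rw [h1, Complex.div_ofReal_im, Complex.sub_im, h2, Complex.im_ofReal_mul]
  congr 1
  simp [pow_two, Complex.mul_im]
  ring

theorem LP.sum_qS_im (h : LP N A U om) (b : ℤ) (x : ℂ) :
    (∑ m ∈ Finset.range N, qS om (zz N U om b m x)).im =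
      x.im * (2 * x.re + 1 - om) / (2 * (N * om)) := by
  have hN := h.NR
  have hom := h.hom.ne
  rw [Complex.im_sum]
  have h1 : ∀ m ∈ Finset.range N, (qS om (zz N U om b m x)).im =
      x.im / (2 * N ^ 2 * om) * (2 * x.re - N - N * om) +
        x.im / (2 * N ^ 2 * om) * (2 * om) * (m : ℝ) +
        x.im / (2 * N ^ 2 * om) * 2 * (rho N U b m : ℝ) := by
    intro m _
    rw [qS_im, zz_re, zz_im]
    field_simp
    ring
  rw [Finset.sum_congr rfl h1, Finset.sum_add_distrib, Finset.sum_add_distrib, Finset.sum_const,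
    ← Finset.mul_sum, ← Finset.mul_sum, sum_range_id', h.sum_rhoR, Finset.card_range, nsmul_eq_mul]
  field_simp
  ring

theorem LP.norm_Ee (h : LP N A U om) (b : ℤ) (x : ℂ) :
    ‖Ee N U om b x‖ = ‖cS om‖ ^ N * Real.exp (-(π * x.im * (2 * x.re + 1 - om) / (N * om))) := by
  have hN := h.NR
  have hom := h.hom.ne
  unfold Ee
  rw [norm_mul, norm_pow, norm_e, h.sum_qS_im]
  congr 2
  field_simp

/-- Bounds in the lower half plane. -/
theorem LP.Df_dn (h : LP N A U om) {t0 : ℝ} (ht : 0 < t0) :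
    ∃ C : ℝ, 0 < C ∧ ∀ (b : ℤ) (x : ℂ), x.im ≤ -t0 →
      ‖Df N U om b x‖ ≤ C * Real.exp (π * |x.im| * (2 * x.re + 1 - om) / (N * om)) ∧
      ‖Rf N U om b x‖ ≤ C * Real.exp (-(π * |x.im| * (2 * x.re + 1 - om) / (N * om))) := by
  obtain ⟨C, hC, hb⟩ := h.Df_up ht
  have hc : 0 < ‖cS om‖ ^ N := pow_pos (norm_pos_iff.2 (cS_ne h.hom)) _
  refine ⟨C * ‖cS om‖ ^ N + C / ‖cS om‖ ^ N, by positivity, fun b x hx => ?_⟩
  have hx0 : x.im < 0 := by linarith
  have habs : |x.im| = -x.im := abs_of_neg hx0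
  have hy : t0 ≤ ((om : ℂ) - 1 - x).im := by
    simp
    linarith
  obtain ⟨h1, h2⟩ := hb (U + 1 - b) (om - 1 - x) hy
  have hE : ‖Ee N U om b x‖ =
      ‖cS om‖ ^ N * Real.exp (π * |x.im| * (2 * x.re + 1 - om) / (N * om)) := by
    rw [h.norm_Ee, habs]
    congr 2
    ring
  have hp1 : ¬ PoleD N U om b x := not_poleD_of_im hx0.ne
  have hp2 : ¬ PoleD N U om (U + 1 - b) (om - 1 - x) := not_poleD_of_im (by
    simp
    exact hx0.ne)
  have hp3 : ¬ PoleD N U om (U + 1 - (U + 1 - b)) (om - 1 - (om - 1 - x)) := not_poleD_of_im (by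
    simp
    exact hx0.ne)
  obtain ⟨E, hEdef⟩ : ∃ E : ℝ, E = Real.exp (π * |x.im| * (2 * x.re + 1 - om) / (N * om)) := ⟨_, rfl⟩
  have hE0 : 0 < E := by rw [hEdef]; exact Real.exp_pos _
  have hEneg : Real.exp (-(π * |x.im| * (2 * x.re + 1 - om) / (N * om))) = E⁻¹ := by
    rw [Real.exp_neg, hEdef]
  rw [← hEdef] at hE
  rw [hEneg, ← hEdef]
  constructor
  · have h3 : Df N U om b x = Ee N U om b x * Rf N U om (U + 1 - b) (om - 1 - x) := by
      have h4 := h.Df_reflect hp1 hp2
      have h5 := h.Df_mul_Rf hp2 hp3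
      calc Df N U om b x = Df N U om b x * (Df N U om (U + 1 - b) (om - 1 - x) *
            Rf N U om (U + 1 - b) (om - 1 - x)) := by rw [h5, mul_one]
        _ = _ := by rw [← mul_assoc, h4]
    rw [h3, norm_mul, hE]
    calc ‖cS om‖ ^ N * E * ‖Rf N U om (U + 1 - b) (om - 1 - x)‖
        ≤ ‖cS om‖ ^ N * E * C := mul_le_mul_of_nonneg_left h2 (by positivity)
      _ = (C * ‖cS om‖ ^ N) * E := by ring
      _ ≤ (C * ‖cS om‖ ^ N + C / ‖cS om‖ ^ N) * E := by
          apply mul_le_mul_of_nonneg_right _ hE0.le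
          have : 0 ≤ C / ‖cS om‖ ^ N := by positivity
          linarith
  · have h3 := h.Rf_eq b x
    have h4 : ‖Rf N U om b x‖ * (‖cS om‖ ^ N * E) ≤ C := by
      rw [← hE, ← norm_mul, h3]
      exact h1
    have h5 : ‖Rf N U om b x‖ ≤ C / (‖cS om‖ ^ N * E) := by
      rw [le_div_iff₀ (by positivity)]
      exact h4
    refine h5.trans ?_
    have h6 : C / (‖cS om‖ ^ N * E) = (C / ‖cS om‖ ^ N) * E⁻¹ := by
      field_simp
    rw [h6]
    apply mul_le_mul_of_nonneg_right _ (inv_pos.2 hE0).le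
    have : 0 ≤ C * ‖cS om‖ ^ N := by positivity
    linarith

end

theorem im_refl (om : ℝ) (x : ℂ) : ((om : ℂ) - 1 - x).im = -x.im := by simp

theorem Pom_sq (P : Par) : Pom (P.b ^ 2) = P := by
  obtain ⟨b, o, hb, ho, hbo⟩ := P
  have h : 0 < b ^ 2 := by positivity
  have h1 : Real.sqrt (b ^ 2) = b := Real.sqrt_sq hb.le
  have h2 : b⁻¹ = o := by
    rw [inv_eq_iff_eq_inv]
    exact eq_inv_of_mul_eq_one_left hbo
  unfold Pom
  rw [dif_pos h]
  simp only [h1, h2]

theorem isU_of_par {P : Par} (hub : 1 < P.b) {t : ℤ} (htr : P.b ^ 2 + P.o ^ 2 = t) :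
    IsU (P.b ^ 2) := by
  refine ⟨by nlinarith, t, ?_⟩
  rw [← htr]
  congr 1
  have h1 := P.hbo
  have hb := P.hb
  refine (eq_inv_of_mul_eq_one_left ?_).symm
  calc P.o ^ 2 * P.b ^ 2 = (P.b * P.o) ^ 2 := by ring
    _ = 1 := by rw [h1]; norm_num

/-- The lens of a matrix of trace `A - U ≥ 3`. -/
noncomputable def mkLens (P : Par) (N : ℕ) (A B U : ℤ) (hN : 0 < N) (hdet : B * N = A * U + 1)
    (htr : P.b ^ 2 + P.o ^ 2 = ((A - U : ℤ) : ℝ)) (hub : 1 < P.b) (hAU : 3 ≤ A - U) : Lens :=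
  have h : LP N A U (P.b ^ 2) := ⟨hN, ⟨B, by rw [← hdet, mul_comm]⟩, isU_of_par hub htr⟩
  have hc : ((P.b ^ 2 : ℝ) : ℂ) = (P.b : ℂ) ^ 2 := by push_cast; rfl
  { P := P
    N := N
    A := A
    B := B
    U := U
    hN := hN
    hdet := hdet
    htr := htr
    hub := hub
    hAU := hAU
    D := Df N U (P.b ^ 2)
    R := Rf N U (P.b ^ 2)
    D_per := fun b x => Df_add_N N U _ b x
    R_per := fun b x => Rf_add_N N U _ b x
    D_diff := by
      intro b x hx
      apply h.Df_differentiableAt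
      rcases hx with hx | hx
      · exact not_poleD_of_im hx
      · exact h.not_poleD_of_re hx
    R_diff := by
      intro b x hx
      apply h.Rf_differentiableAt
      rcases hx with hx | hx
      · apply not_poleD_of_im
        rw [im_refl]
        exact neg_ne_zero.2 hx
      · apply h.not_poleD_of_re
        simp only [Complex.sub_re, Complex.ofReal_re, Complex.one_re]
        linarith
    DR := by
      intro b x hx
      apply h.Df_mul_Rf
      · rcases hx with hx | hx
        · exact not_poleD_of_im hx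
        · exact h.not_poleD_of_re hx.1
      · rcases hx with hx | hx
        · apply not_poleD_of_im
          rw [im_refl]
          exact neg_ne_zero.2 hx
        · apply h.not_poleD_of_re
          simp only [Complex.sub_re, Complex.ofReal_re, Complex.one_re]
          linarith [hx.2]
    D2 := by
      intro b x hx
      rw [← hc]
      refine (h.Df_step_one ?_).symm
      rcases hx with hx | hx
      · apply not_poleD_of_im
        simpa using hx
      · apply h.not_poleD_of_re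
        simp only [Complex.sub_re, Complex.one_re]
        linarith
    R2 := by
      intro b x hx
      rw [← hc]
      exact h.Rf_step_one hx
    D3 := by
      intro b x hx
      rw [← hc]
      apply h.Df_step_om
      rcases hx with hx | hx
      · exact not_poleD_of_im hx
      · exact h.not_poleD_of_re hx
    R3 := by
      intro b x hx
      rw [← hc]
      exact h.Rf_step_om hx
    Dup := by
      obtain ⟨C, _, hb⟩ := h.Df_up one_pos
      exact ⟨C, fun b x hx => hb b x hx⟩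
    Dlim := by
      intro ε hε
      obtain ⟨C, hC, hb⟩ := h.Df_sub_one_bound one_pos
      have hc' : 0 < 2 * π / (N * P.b ^ 2) :=
        div_pos (mul_pos two_pos Real.pi_pos) (mul_pos h.NR h.hom.pos)
      have ht1 : Tendsto (fun t : ℝ => C * Real.exp (-(2 * π / (N * P.b ^ 2) * t))) atTop
          (𝓝 (C * 0)) := by
        refine Tendsto.const_mul _ ?_
        refine Real.tendsto_exp_atBot.comp ?_
        exact tendsto_neg_atTop_atBot.comp (tendsto_id.const_mul_atTop hc')
      rw [mul_zero] at ht1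
      obtain ⟨T1, hT1⟩ := eventually_atTop.1 (ht1.eventually (gt_mem_nhds hε))
      refine ⟨max 1 T1, fun b x hx => ?_⟩
      have hx1 : 1 ≤ x.im := (le_max_left _ _).trans hx
      have hx2 : T1 ≤ x.im := (le_max_right _ _).trans hx
      obtain ⟨h1, h2⟩ := hb b x hx1
      have h3 := hT1 x.im hx2
      have h4 : 2 * π * x.im / (N * P.b ^ 2) = 2 * π / (N * P.b ^ 2) * x.im := by ring
      rw [h4] at h1 h2
      exact ⟨h1.trans_lt h3, h2.trans_lt h3⟩
    Ddn := by
      obtain ⟨C, _, hb⟩ := h.Df_dn one_pos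
      exact ⟨C, fun b x hx => hb b x hx⟩ }

end Zau
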