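import Pool.Agent.Lib_zau.Near2
import Pool.Agent.Lib_zau.GLb
import Pool.Agent.Lib_zau.LensMk

/-!
# Zauner (block B9): the system `BSol` from a lens
-/

set_option autoImplicit false

namespace Zau

open Finset Cone

/-- `BSol` from the theorems on the group `L.GG`. -/
theorem bsol_of_lens (L : Lens) {l : ℕ} {val : ℤ → ℤ → ℝ}
    (hb : ∀ w : L.GG, bG L w ≠ 0) (hb0 : bG L 0 ^ 2 = ((L.om : ℝ) : ℂ))
    (hroot : ∀ w : L.GG, w ≠ 0 → ∃ k : ℕ, 0 < k ∧ (bG L w * bG L (-w)) ^ k = 1)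
    (hκ : kapL L ^ 2 = (Fintype.card L.GG : ℂ))
    (hstar : ∀ p : L.GG, p ≠ 0 → (∃ i : ℕ, l ^ i • p = 0) → ∀ y,
      ∑ w, L.pr w y * aa (bG L) w * bG L (w - p) =
        kapL L * bG L (-p) * bG L (-y) * aa (bG L) (-p - y))
    (hlink : ∀ x : ℤ × ℤ, (QuotientAddGroup.mk x : L.GG) ≠ 0 →
      bG L (QuotientAddGroup.mk x) / bG L (-(QuotientAddGroup.mk x)) =
        Complex.exp ((val x.1 x.2 : ℝ) : ℂ)) : BSol l L.N L.A L.B L.U L.om val := by
  refine ⟨L.GG, inferInstance, inferInstance, inferInstance, QuotientAddGroup.mk' L.Rel, L.pr, bG L,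
    kapL L, QuotientAddGroup.mk'_surjective _, ?_, L.pr_zero, L.pr_add, L.pr_symm, L.pr_nondeg, hκ, hb,
    hstar, hb0, hroot, ?_⟩
  · intro P R
    have h1 : (QuotientAddGroup.mk' L.Rel) (P, R) = 0 ↔ (P, R) ∈ L.Rel := L.mk_eq_zero (P, R)
    rw [h1, L.mem_Rel']
    constructor
    · rintro ⟨⟨s, t⟩, h⟩
      rw [L.relHom_apply, Prod.ext_iff] at h
      obtain ⟨h2, h3⟩ := h
      simp only at h2 h3
      exact ⟨s, t, by linarith, by linarith⟩
    · rintro ⟨s, t, h2, h3⟩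
      refine ⟨(s, t), ?_⟩
      rw [L.relHom_apply]
      ext
      · simp only
        linarith
      · simp only
        linarith
  · intro P R h
    exact hlink (P, R) h

/-- The star equations for the points of `l`-power order (output of `GLstar`). -/
def StarAll : Prop := ∀ L : Lens, L.D = Df L.N L.U L.om → L.R = Rf L.N L.U L.om →
  ∀ l : ℕ, l.Prime → ¬ l ∣ L.N → ∀ p : L.GG, p ≠ 0 → (∃ i : ℕ, l ^ i • p = 0) → ∀ y,
    ∑ w, L.pr w y * aa (bG L) w * bG L (w - p) =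
      kapL L * bG L (-p) * bG L (-y) * aa (bG L) (-p - y)

/-- The link with the cone integrals (output of `LinkB`). -/
def LinkAll : Prop := ∀ L : Lens, L.D = Df L.N L.U L.om → L.R = Rf L.N L.U L.om →
  ∀ x : ℤ × ℤ, (QuotientAddGroup.mk x : L.GG) ≠ 0 →
    bG L (QuotientAddGroup.mk x) / bG L (-(QuotientAddGroup.mk x)) =
      Complex.exp (((-2 * BO (LatB ((L.om + L.U) / L.N) ((L.om⁻¹ + L.U) / L.N)) L.om (1, 1)
        (ptB L.om ((L.om + L.U) / L.N) ((L.om⁻¹ + L.U) / L.N) x.1 x.2) : ℝ)) : ℂ)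

/-- All the systems. -/
theorem allBSol_of (hs : StarAll) (hk : LinkAll) : AllBSol := by
  intro l N A B U om hl hN hlN hBN h3 hom htr
  have hom0 : 0 < om := by linarith
  have hb2 : (Pom om).b ^ 2 = om := Pom_b2 hom0
  have ho2 : (Pom om).o ^ 2 = om⁻¹ := Pom_o2 hom0
  have hub : 1 < (Pom om).b := by
    have h1 := (Pom om).hb
    nlinarith
  let L : Lens := mkLens (Pom om) N A B U hN hBN (by rw [hb2, ho2]; exact htr) hub h3
  have hLom : L.om = om := hb2
  have hD : L.D = Df L.N L.U L.om := rfl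
  have hR : L.R = Rf L.N L.U L.om := rfl
  have key := bsol_of_lens L (l := l)
    (val := fun P R => -2 * BO (LatB ((L.om + L.U) / L.N) ((L.om⁻¹ + L.U) / L.N)) L.om (1, 1)
      (ptB L.om ((L.om + L.U) / L.N) ((L.om⁻¹ + L.U) / L.N) P R)) L.bG_ne L.bG_zero_sq (L.bG_root hD) L.kapL_sq
    (hs L hD hR l hl hlN) (hk L hD hR)
  rw [hLom] at key
  exact key

end Zau
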