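import Pool.Agent.Lib_zau.AlgB
import Pool.Agent.Lib_zau.Near3

/-!
# Zauner, B13 (algebraicity), part 3: the lens of level `24`
-/

set_option autoImplicit false

namespace Zau

open Finset Cone

/-- The star equation at every point whose `r` is not divisible by `m` but divisible by every common
divisor of `N` and `m` (output of `GLstar`). -/
def StarGcd : Prop := ∀ L : Lens, L.D = Df L.N L.U L.om → L.R = Rf L.N L.U L.om →
  ∀ x : ℤ × ℤ, ¬ L.m ∣ rr L.N L.U x → (∀ g : ℤ, g ∣ L.N → g ∣ L.m → g ∣ rr L.N L.U x) → ∀ y,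
    ∑ w, L.pr w y * aa (bG L) w * bG L (w - QuotientAddGroup.mk x) =
      kapL L * bG L (-QuotientAddGroup.mk x) * bG L (-y) *
        aa (bG L) (-QuotientAddGroup.mk x - y)

/-- **Block B13**: the numbers `exp (3 rho x)` with `d x` in the lattice are algebraic. -/
theorem alg_of_all (hs : StarGcd) (hk : LinkAll) {n : ℤ} (hn : 3 ≤ n) {d : ℕ} (hd : (d : ℤ) = n + 1)
    (x : ℚ × ℚ) (hx : d • x ∈ Lam) : IsAlgebraic ℚ ((Real.exp (3 * rhoT n x) : ℝ) : ℂ) := by
  have hep := algB_one_lt_ep hn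
  have hep0 : (0 : ℝ) < ep n := by linarith
  have hK : 0 < 24 := by norm_num
  have hQ := pq_snd_pos hn hK
  have hnorm := pq_norm n 24
  have hep24 := algB_ep_pow hn 24
  have hinv : (ep n)⁻¹ = n - ep n := by
    have h1 := algB_ep_sq hn
    field_simp
    linarith
  -- the numbers
  obtain ⟨P, hP⟩ : ∃ P, P = (pq n 24).1 := ⟨_, rfl⟩
  obtain ⟨Q, hQd⟩ : ∃ Q, Q = (pq n 24).2 := ⟨_, rfl⟩
  rw [← hP, ← hQd] at hnorm hep24
  rw [← hQd] at hQ
  obtain ⟨om, hom⟩ : ∃ om, om = ep n ^ 24 := ⟨_, rfl⟩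
  have hom1 : 1 < om := by
    rw [hom]
    exact one_lt_pow₀ hep (by norm_num)
  have hom0 : 0 < om := by linarith
  have hnormR : (P : ℝ) ^ 2 + n * P * Q + (Q : ℝ) ^ 2 = 1 := by exact_mod_cast hnorm
  have hominv : om⁻¹ = P + Q * (ep n)⁻¹ := by
    rw [hinv]
    refine inv_eq_of_mul_eq_one_right ?_
    rw [hom, hep24]
    linear_combination hnormR - (Q : ℝ) ^ 2 * algB_ep_sq hn
  have hb2 : (Pom om).b ^ 2 = om := Pom_b2 hom0
  have ho2 : (Pom om).o ^ 2 = om⁻¹ := Pom_o2 hom0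
  have hub : 1 < (Pom om).b := by
    have h1 := (Pom om).hb
    nlinarith
  have htr : om + om⁻¹ = (((P + n * Q) - (-P) : ℤ) : ℝ) := by
    rw [hominv, hom, hep24, hinv]
    push_cast
    ring
  have hNZ : ((Q.toNat : ℕ) : ℤ) = Q := Int.toNat_of_nonneg hQ.le
  have hdet : Q * ((Q.toNat : ℕ) : ℤ) = (P + n * Q) * (-P) + 1 := by
    rw [hNZ]
    linear_combination hnorm
  have h3 : 3 ≤ (P + n * Q) - (-P) := by
    have h : (2 : ℝ) < (((P + n * Q) - (-P) : ℤ) : ℝ) := by
      rw [← htr]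
      have h1 : om * om⁻¹ = 1 := mul_inv_cancel₀ hom0.ne'
      have h2 : 0 < om⁻¹ := inv_pos.2 hom0
      nlinarith [sq_nonneg (om - 1), mul_pos (sub_pos.2 hom1) (sub_pos.2 hom1)]
    have h4 : 2 < (P + n * Q) - (-P) := by exact_mod_cast h
    linarith
  let L : Lens := mkLens (Pom om) Q.toNat (P + n * Q) Q (-P) (by omega) hdet
    (by rw [hb2, ho2]; exact htr) hub h3
  have hLom : L.om = om := hb2
  have hD : L.D = Df L.N L.U L.om := rfl
  have hR : L.R = Rf L.N L.U L.om := rfl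
  have hm : L.m = 2 * P + n * Q - 2 := by
    show (P + n * Q) - (-P) - 2 = _
    ring
  have hrr : ∀ z : ℤ × ℤ, rr L.N L.U z = Q * z.1 + (-P + 1) * z.2 := by
    intro z
    show ((Q.toNat : ℕ) : ℤ) * z.1 + (-P + 1) * z.2 = _
    rw [hNZ]
  have hLN : ((L.N : ℕ) : ℤ) = Q := hNZ
  refine alg_level24 hn hd (rho := rhoT n) (rhoT_per hn) (rhoT_odd hn) (rhoT_eps hn) L.pr_zero L.pr_add
    L.pr_symm L.pr_nondeg L.kapL_sq ?_ L.bG_ne ?_ (L.bG_root hD)
    (fun z => (QuotientAddGroup.mk z : L.GG)) (fun z => rfl) ?_ ?_ ?_ x hx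
  · rw [← hP, ← hQd, L.card_G, hm]
  · rw [L.bG_zero_sq, hLom, hom]
  · intro z hz h0
    rw [← hP, ← hQd] at hz
    rw [L.mk_eq_zero, L.mem_Rel] at h0
    obtain ⟨j, hj, -⟩ := h0
    apply hz
    rw [hrr, hm] at hj
    exact ⟨j, by rw [hj]; ring⟩
  · intro z hz hg
    rw [← hP, ← hQd] at hz hg
    exact hs L hD hR z (by rw [hrr, hm]; exact hz)
      (fun g h1 h2 => by rw [hrr]; exact hg g (by rwa [hLN] at h1) (by rwa [hm] at h2))
  · intro z y hzy hy
    have hzy' := hzy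
    rw [algB_E_pow, ← hP, ← hQd, Prod.ext_iff] at hzy'
    obtain ⟨e1, e2⟩ := hzy'
    simp only [Prod.fst_sub, Prod.snd_sub] at e1 e2
    have hne : (QuotientAddGroup.mk z : L.GG) ≠ 0 := by
      intro h0
      rw [L.mk_eq_zero, L.mem_Rel'] at h0
      obtain ⟨w, hw⟩ := h0
      rw [L.relHom_apply, Prod.ext_iff] at hw
      obtain ⟨f1, f2⟩ := hw
      simp only at f1 f2
      have g1 : (P - 1) * w.1 - Q * w.2 = z.1 := by
        rw [← f1]
        show _ = -(-P + 1) * w.1 - Q * w.2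
        ring
      have g2 : Q * w.1 + (P + n * Q - 1) * w.2 = z.2 := by
        rw [← f2]
        show _ = ((Q.toNat : ℕ) : ℤ) * w.1 + (P + n * Q - 1) * w.2
        rw [hNZ]
      have g1' : ((P : ℚ) - 1) * w.1 - Q * w.2 = z.1 := by exact_mod_cast g1
      have g2' : (Q : ℚ) * w.1 + (P + n * Q - 1) * w.2 = z.2 := by exact_mod_cast g2
      have hnQ : (P : ℚ) ^ 2 + n * P * Q + (Q : ℚ) ^ 2 = 1 := by exact_mod_cast hnorm
      have hm0 : ((2 * P + n * Q - 2 : ℤ) : ℚ) ≠ 0 := by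
        rw [← hm]
        exact_mod_cast L.m_ne
      push_cast at hm0
      apply hy
      refine ⟨w.1, w.2, ?_⟩
      ext
      · apply mul_left_cancel₀ hm0
        simp only
        linear_combination (-(P + n * Q - 1) : ℚ) * (e1 - g1') - Q * (e2 - g2') +
          (y.1 - w.1) * hnQ
      · apply mul_left_cancel₀ hm0
        simp only
        linear_combination (Q : ℚ) * (e1 - g1') - (P - 1 : ℚ) * (e2 - g2') +
          (y.2 - w.2) * hnQ
    rw [hk L hD hR z hne]
    have hQR : (Q : ℝ) ≠ 0 := by exact_mod_cast hQ.ne'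
    have hLNR : ((L.N : ℕ) : ℝ) = Q := by exact_mod_cast congrArg (fun t : ℤ => (t : ℝ)) hLN
    have hLU : (L.U : ℝ) = -P := by
      show (((-P : ℤ)) : ℝ) = -P
      push_cast
      ring
    have hbe : (L.om + L.U) / L.N = ep n := by
      rw [hLom, hLU, hLNR, div_eq_iff hQR, hom, hep24]
      ring
    have hbe' : (L.om⁻¹ + L.U) / L.N = (ep n)⁻¹ := by
      rw [hLom, hLU, hLNR, div_eq_iff hQR, hominv]
      ring
    rw [hbe, hbe', hLom]
    have hLat : LatB (ep n) (ep n)⁻¹ = LR (ep n) Lam := by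
      ext w
      unfold LR
      rw [mem_LatB, AddSubgroup.mem_map]
      constructor
      · rintro ⟨s, t, rfl⟩
        refine ⟨(s, t), ⟨s, t, rfl⟩, ?_⟩
        rw [io_apply]
        ext
        · simp
        · simp
      · rintro ⟨v, ⟨s, t, rfl⟩, rfl⟩
        refine ⟨s, t, ?_⟩
        rw [io_apply]
        ext
        · simp
        · simp
    have hpt : ptB om (ep n) (ep n)⁻¹ z.1 z.2 = io (ep n) y := by
      have e1' : ((P : ℝ) - 1) * y.1 - Q * y.2 = z.1 := by
        have := congrArg (fun t : ℚ => (t : ℝ)) e1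
        push_cast at this
        linarith
      have e2' : (Q : ℝ) * y.1 + (P + n * Q - 1) * y.2 = z.2 := by
        have := congrArg (fun t : ℚ => (t : ℝ)) e2
        push_cast at this
        linarith
      have hne1 : om - 1 ≠ 0 := by linarith
      have hne2 : om⁻¹ - 1 ≠ 0 := by
        have : om⁻¹ < 1 := inv_lt_one_of_one_lt₀ hom1
        linarith
      unfold ptB
      rw [io_apply]
      ext
      · simp only
        rw [div_eq_iff hne1, ← e1', ← e2', hom, hep24]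
        linear_combination (-(Q : ℝ) * y.2) * algB_ep_sq hn
      · simp only
        rw [div_eq_iff hne2, ← e1', ← e2', hominv, hinv]
        linear_combination (-(Q : ℝ) * y.2) * algB_ep_sq hn
    rw [hLat, hpt, hom]
    have hyL : (E n ^ 24) y - y ∈ Lam := by
      rw [hzy]
      exact ⟨z.1, z.2, rfl⟩
    have hBO := BO_Lam hn hK hy hyL (m := ((1, 1) : ℝ × ℝ)) one_mem one_pos one_pos
    congr 2
    rw [show (-2 * BO (LR (ep n) Lam) (ep n ^ 24) (1, 1) (io (ep n) y) : ℝ) =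
      -(2 * BO (LR (ep n) Lam) (ep n ^ 24) (1, 1) (io (ep n) y)) by ring, hBO]
    push_cast
    rfl

end Zau
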