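import Pool.Agent.Lib_zau.CycRoot

/-!
MP_1c78a5_mp (Zauner), part (b).  File CycF: the finite Fourier part (inversion on the prime-to-`l` part).
-/

namespace Zau

open Finset

variable {K : Type*} [Field K] {Γ₀ : Type*} [LinearOrderedCommGroupWithZero Γ₀]
variable {G : Type*} [AddCommGroup G] [Fintype G] [DecidableEq G]

/-- `a = 1 / b` off `0`, `a 0 = b 0` -/
def aa (b : G → K) (w : G) : K := if w = 0 then b 0 else (b w)⁻¹

/-- a solution `b` of the ghost system on `G`, whose Sylow `l`-subgroup is cyclic, generated by `g`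
(only the equations for `p = t` and `p = -t`, `t = l ^ s • g` of order `l`, are used) -/
structure CycSys (l s m : ℕ) (g : G) (pr : G → G → K) (b : G → K) (κ : K) : Prop where
  prime : l.Prime
  card : Fintype.card G = m * l ^ (s + 1)
  cop : Nat.Coprime m l
  ord : l ^ (s + 1) • g = 0
  ne : l ^ s • g ≠ 0
  cyc : ∀ x : G, l ^ (s + 1) • x = 0 → ∃ i : ℕ, x = i • g
  pr_zero : ∀ y, pr 0 y = 1
  pr_add : ∀ x y z, pr (x + y) z = pr x z * pr y z
  pr_symm : ∀ x y, pr x y = pr y x
  pr_nondeg : ∀ x, (∀ y, pr x y = 1) → x = 0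
  kap : κ ^ 2 = (Fintype.card G : K)
  b_ne : ∀ w, b w ≠ 0
  tc : ∀ y, ∑ w, pr w y * aa b w * b (w - l ^ s • g) =
    κ * b (-(l ^ s • g)) * b (-y) * aa b (-(l ^ s • g) - y)
  tc' : ∀ y, ∑ w, pr w y * aa b w * b (w - -(l ^ s • g)) =
    κ * b (- -(l ^ s • g)) * b (-y) * aa b (- -(l ^ s • g) - y)

section
variable {l s m : ℕ} {g : G} {pr : G → G → K} {b : G → K} {κ : K}

theorem CycSys.pr_nsmul (S : CycSys l s m g pr b κ) (i : ℕ) (x y : G) :
    pr (i • x) y = pr x y ^ i := by
  induction i with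
  | zero => rw [zero_smul, S.pr_zero, pow_zero]
  | succ i ih => rw [succ_nsmul, S.pr_add, ih, pow_succ]

theorem CycSys.pr_nsmul' (S : CycSys l s m g pr b κ) (i : ℕ) (x y : G) :
    pr x (i • y) = pr x y ^ i := by
  rw [S.pr_symm, S.pr_nsmul, S.pr_symm]

theorem CycSys.pr_add' (S : CycSys l s m g pr b κ) (x y z : G) :
    pr x (y + z) = pr x y * pr x z := by
  rw [S.pr_symm, S.pr_add, S.pr_symm y, S.pr_symm z]

theorem CycSys.pr_pow_card (S : CycSys l s m g pr b κ) (x y : G) :
    pr x y ^ Fintype.card G = 1 := by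
  rw [← S.pr_nsmul, card_nsmul_eq_zero, S.pr_zero]

theorem CycSys.pr_ne (S : CycSys l s m g pr b κ) (x y : G) : pr x y ≠ 0 := by
  intro h
  have h1 := S.pr_pow_card x y
  rw [h, zero_pow Fintype.card_ne_zero] at h1
  exact zero_ne_one h1

/-- the primitive root -/
theorem CycSys.exists_root (S : CycSys l s m g pr b κ) :
    ∃ y0, IsPrimitiveRoot (pr g y0) (l ^ (s + 1)) := by
  obtain ⟨y0, hy0⟩ : ∃ y0, pr (l ^ s • g) y0 ≠ 1 := by
    by_contra h
    push Not at h
    exact S.ne (S.pr_nondeg _ h)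
  refine ⟨y0, ?_⟩
  haveI : Fact l.Prime := ⟨S.prime⟩
  have h1 : ¬ (pr g y0) ^ l ^ s = 1 := by
    rw [← S.pr_nsmul]
    exact hy0
  have h2 : (pr g y0) ^ l ^ (s + 1) = 1 := by
    rw [← S.pr_nsmul, S.ord, S.pr_zero]
  have h3 := orderOf_eq_prime_pow h1 h2
  rw [← h3]
  exact IsPrimitiveRoot.orderOf _

/-- the prime-to-`l` part -/
def primePart (G : Type*) [AddCommGroup G] [Fintype G] [DecidableEq G] (m : ℕ) : Finset G :=
  univ.filter fun z => m • z = 0

omit [DecidableEq G] in
theorem sum_add_eq {M : Type*} [AddCommMonoid M] (f : G → M) (c : G) :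
    ∑ x, f (c + x) = ∑ x, f x :=
  Fintype.sum_equiv (Equiv.addLeft c) _ _ fun _ => rfl

theorem CycSys.sum_part (S : CycSys l s m g pr b κ) (x : G) :
    ∑ z ∈ primePart G m, pr x z =
      if l ^ (s + 1) • x = 0 then ((primePart G m).card : K) else 0 := by
  split_ifs with h
  · rw [Finset.card_eq_sum_ones, Nat.cast_sum]
    refine Finset.sum_congr rfl fun z hz => ?_
    rw [Nat.cast_one]
    have hz' : m • z = 0 := (Finset.mem_filter.1 hz).2
    have h1 : pr x z ^ m = 1 := by
      rw [← S.pr_nsmul', hz', S.pr_symm, S.pr_zero]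
    have h2 : pr x z ^ l ^ (s + 1) = 1 := by
      rw [← S.pr_nsmul, h, S.pr_zero]
    have h3 : orderOf (pr x z) ∣ Nat.gcd m (l ^ (s + 1)) :=
      Nat.dvd_gcd (orderOf_dvd_of_pow_eq_one h1) (orderOf_dvd_of_pow_eq_one h2)
    rw [(Nat.Coprime.pow_right (s + 1) S.cop).gcd_eq_one] at h3
    exact orderOf_eq_one_iff.1 (Nat.dvd_one.1 h3)
  · obtain ⟨y, hy⟩ : ∃ y, pr (l ^ (s + 1) • x) y ≠ 1 := by
      by_contra h'
      push Not at h'
      exact h (S.pr_nondeg _ h')
    have hz0 : l ^ (s + 1) • y ∈ primePart G m := by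
      refine Finset.mem_filter.2 ⟨Finset.mem_univ _, ?_⟩
      rw [← mul_smul, ← S.card, card_nsmul_eq_zero]
    have hy' : pr x (l ^ (s + 1) • y) ≠ 1 := by
      rw [S.pr_nsmul', ← S.pr_nsmul]
      exact hy
    set z0 := l ^ (s + 1) • y with hz0d
    have h1 : ∑ z ∈ primePart G m, pr x z = pr x z0 * ∑ z ∈ primePart G m, pr x z := by
      rw [Finset.mul_sum]
      refine Finset.sum_bij' (fun z _ => z - z0) (fun z _ => z + z0) ?_ ?_ ?_ ?_ ?_
      · intro z hz
        refine Finset.mem_filter.2 ⟨Finset.mem_univ _, ?_⟩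
        rw [nsmul_sub, (Finset.mem_filter.1 hz).2, (Finset.mem_filter.1 hz0).2, sub_zero]
      · intro z hz
        refine Finset.mem_filter.2 ⟨Finset.mem_univ _, ?_⟩
        rw [nsmul_add, (Finset.mem_filter.1 hz).2, (Finset.mem_filter.1 hz0).2, add_zero]
      · intro z _
        simp
      · intro z _
        simp
      · intro z _
        rw [← S.pr_add', add_sub_cancel]
    have h2 : (1 - pr x z0) * ∑ z ∈ primePart G m, pr x z = 0 := by
      rw [sub_mul, one_mul, ← h1, sub_self]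
    rcases mul_eq_zero.1 h2 with h3 | h3
    · exact absurd (sub_eq_zero.1 h3).symm hy'
    · exact h3

theorem CycSys.sum_all (S : CycSys l s m g pr b κ) (z : G) :
    ∑ x, pr x z = if z = 0 then (Fintype.card G : K) else 0 := by
  split_ifs with h
  · subst h
    have : ∀ x : G, pr x 0 = 1 := fun x => by rw [S.pr_symm, S.pr_zero]
    simp [this]
  · obtain ⟨y, hy⟩ : ∃ y, pr z y ≠ 1 := by
      by_contra h'
      push Not at h'
      exact h (S.pr_nondeg _ h')
    have h1 : ∑ x, pr x z = pr y z * ∑ x, pr x z := by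
      rw [Finset.mul_sum, ← sum_add_eq _ y]
      exact Finset.sum_congr rfl fun x _ => S.pr_add _ _ _
    have h2 : (1 - pr y z) * ∑ x, pr x z = 0 := by
      rw [sub_mul, one_mul, ← h1, sub_self]
    rcases mul_eq_zero.1 h2 with h3 | h3
    · rw [S.pr_symm] at hy
      exact absurd (sub_eq_zero.1 h3).symm hy
    · exact h3

/-- the elements killed by `l ^ (s+1)` are the `u • g`, `u < l ^ (s+1)` -/
theorem CycSys.sum_cyc (S : CycSys l s m g pr b κ) {M : Type*} [AddCommMonoid M] (F : G → M) :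
    ∑ x ∈ univ.filter (fun x : G => l ^ (s + 1) • x = 0), F x =
      ∑ u ∈ range (l ^ (s + 1)), F (u • g) := by
  haveI : Fact l.Prime := ⟨S.prime⟩
  have hord : addOrderOf g = l ^ (s + 1) := addOrderOf_eq_prime_pow S.ne S.ord
  symm
  refine Finset.sum_bij (fun u _ => u • g) ?_ ?_ ?_ ?_
  · intro u _
    refine Finset.mem_filter.2 ⟨Finset.mem_univ _, ?_⟩
    rw [smul_comm, S.ord, smul_zero]
  · intro u hu u' hu' h
    have h1 := (nsmul_inj_mod (x := g)).1 h
    rw [hord, Nat.mod_eq_of_lt (Finset.mem_range.1 hu), Nat.mod_eq_of_lt (Finset.mem_range.1 hu')] at h1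
    exact h1
  · intro x hx
    obtain ⟨i, hi⟩ := S.cyc x (Finset.mem_filter.1 hx).2
    refine ⟨i % l ^ (s + 1), Finset.mem_range.2 (Nat.mod_lt _ (pow_pos S.prime.pos _)), ?_⟩
    rw [hi, ← hord]
    exact mod_addOrderOf_nsmul g i
  · intro u _
    rfl

/-- the size of the prime-to-`l` part -/
theorem CycSys.card_part (S : CycSys l s m g pr b κ) (hN : ((l ^ (s + 1) : ℕ) : K) ≠ 0) :
    ((primePart G m).card : K) = m := by
  have h1 : ∑ x : G, ∑ z ∈ primePart G m, pr x z = (l ^ (s + 1) : ℕ) * ((primePart G m).card : K) := by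
    rw [Finset.sum_congr rfl fun x _ => S.sum_part x, ← Finset.sum_filter, S.sum_cyc, Finset.sum_const,
      Finset.card_range, nsmul_eq_mul]
  have h2 : ∑ x : G, ∑ z ∈ primePart G m, pr x z = (l ^ (s + 1) : ℕ) * (m : K) := by
    rw [Finset.sum_comm, Finset.sum_congr rfl fun z _ => S.sum_all z]
    rw [Finset.sum_ite_eq' (primePart G m) (0 : G)]
    rw [if_pos, S.card]
    · push_cast
      ring
    · exact Finset.mem_filter.2 ⟨Finset.mem_univ _, smul_zero _⟩
  exact mul_left_cancel₀ hN (h1.symm.trans h2)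

/-- inversion on the prime-to-`l` part -/
theorem CycSys.inversion (S : CycSys l s m g pr b κ) (f : G → K) (c y : G) :
    ∑ z ∈ primePart G m, pr (-c) (y + z) * ∑ w, pr w (y + z) * f w =
      (primePart G m).card * ∑ u ∈ range (l ^ (s + 1)), pr g y ^ u * f (c + u • g) := by
  have h1 : ∀ z, pr (-c) (y + z) * ∑ w, pr w (y + z) * f w =
      ∑ x, f (c + x) * pr x y * pr x z := by
    intro z
    rw [Finset.mul_sum, ← sum_add_eq _ c]
    refine Finset.sum_congr rfl fun x _ => ?_
    rw [← mul_assoc, ← S.pr_add, neg_add_cancel_left, S.pr_add']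
    ring
  rw [Finset.sum_congr rfl fun z _ => h1 z, Finset.sum_comm]
  have h2 : ∀ x, ∑ z ∈ primePart G m, f (c + x) * pr x y * pr x z =
      if l ^ (s + 1) • x = 0 then f (c + x) * pr x y * ((primePart G m).card : K) else 0 := by
    intro x
    rw [← Finset.mul_sum, S.sum_part]
    split_ifs <;> simp
  rw [Finset.sum_congr rfl fun x _ => h2 x, ← Finset.sum_filter, S.sum_cyc, Finset.mul_sum]
  refine Finset.sum_congr rfl fun u _ => ?_
  rw [S.pr_nsmul]
  ring

/-- integers prime to `l` have value 1 -/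
theorem val_nat_of_coprime (v : Valuation K Γ₀) {l m : ℕ} (hv : v (l : K) < 1)
    (h : Nat.Coprime m l) : v (m : K) = 1 := by
  have hle : ∀ i : ℕ, v (i : K) ≤ 1 := by
    intro i
    induction i with
    | zero => simp
    | succ i ih =>
      rw [Nat.cast_succ]
      exact (v.map_add _ _).trans (max_le ih (by rw [v.map_one]))
  have hlz : ∀ i : ℤ, v (i : K) ≤ 1 := by
    intro i
    obtain ⟨j, rfl | rfl⟩ := i.eq_nat_or_neg
    · simpa using hle j
    · simpa [v.map_neg] using hle j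
  by_contra hne
  have hlt : v (m : K) < 1 := lt_of_le_of_ne (hle m) hne
  have hb : (1 : ℤ) = m * Nat.gcdA m l + l * Nat.gcdB m l := by
    have := Nat.gcd_eq_gcd_ab m l
    rw [h.gcd_eq_one] at this
    exact_mod_cast this
  have hb' : (1 : K) = m * (Nat.gcdA m l : ℤ) + l * (Nat.gcdB m l : ℤ) := by
    have := congrArg (fun z : ℤ => (z : K)) hb
    push_cast at this
    exact this
  have h1 : v (1 : K) < 1 := by
    rw [hb']
    refine v.map_add_lt ?_ ?_
    · rw [v.map_mul]
      exact mul_lt_one_of_lt_of_le hlt (hlz _)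
    · rw [v.map_mul]
      exact mul_lt_one_of_lt_of_le hv (hlz _)
  rw [v.map_one] at h1
  exact lt_irrefl _ h1

/-- the bound for the partial transform -/
theorem CycSys.bound (S : CycSys l s m g pr b κ) (v : Valuation K Γ₀) (hv : v (l : K) < 1)
    (f : G → K) (B : Γ₀) (hf : ∀ y, v (∑ w, pr w y * f w) ≤ B) (c y : G)
    (hN : ((l ^ (s + 1) : ℕ) : K) ≠ 0) :
    v (∑ u ∈ range (l ^ (s + 1)), pr g y ^ u * f (c + u • g)) ≤ B := by
  have h1 := S.inversion f c y
  have hpr : ∀ x y, v (pr x y) = 1 := fun x y =>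
    val_root v Fintype.card_ne_zero (S.pr_pow_card x y)
  have h2 : v (∑ z ∈ primePart G m, pr (-c) (y + z) * ∑ w, pr w (y + z) * f w) ≤ B := by
    refine v.map_sum_le fun z _ => ?_
    rw [v.map_mul, hpr, one_mul]
    exact hf _
  rw [h1, S.card_part hN, v.map_mul, val_nat_of_coprime v hv S.cop, one_mul] at h2
  exact h2

end

end Zau
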