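import Pool.Agent.Lib_stark.Alg
import Pool.Agent.Lib_zau.CycF

/-!
# Zauner, B13 (algebraicity), part 1: rigidity at a single point

`Zau.isAlgebraic_of_star`: if `b` satisfies the near-group equation for one `q ≠ 0` (and all `v`), `b 0` and
all products `b w * b (-w)` are algebraic and `|G| ≠ 2 (b 0 ^ 2 - 1)`, then `b q` is algebraic.
-/

set_option autoImplicit false

open Finset

namespace Zau

section dlemma

open TensorProduct in
/-- In a finitely generated field extension of characteristic zero an element which is killed by the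
universal derivation is algebraic. -/
theorem isAlgebraic_of_D_eq_zero {k L : Type*} [Field k] [CharZero k] [Field L] [Algebra k L]
    [Algebra.EssFiniteType k L] {x : L} (hx : KaehlerDifferential.D k L x = 0) :
    IsAlgebraic k x := by
  refine Pool.Agent.Stark.isAlgebraic_of_universal_derivation (S := {x}) (Set.finite_singleton x) ?_
    (Set.mem_singleton x)
  intro y hy
  have hyx : y = x := hy
  subst hyx
  set F := IntermediateField.adjoin k ({y} : Set L) with hF
  set z : F := ⟨y, IntermediateField.subset_adjoin k {y} hy⟩ with hz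
  have : CharZero F := charZero_of_injective_algebraMap (algebraMap k F).injective
  have : Algebra.EssFiniteType F L := Algebra.EssFiniteType.of_comp k F L
  have : Algebra.FormallySmooth F L := Algebra.FormallySmooth.of_perfectField
  have hinj : Function.Injective (KaehlerDifferential.mapBaseChange k F L) := by
    have h1 := Algebra.H1Cotangent.exact_δ_mapBaseChange k F L
    have : Subsingleton (Algebra.H1Cotangent F L) :=
      Algebra.FormallySmooth.subsingleton_h1Cotangent
    rw [injective_iff_map_eq_zero]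
    intro t ht
    obtain ⟨u, hu⟩ := (h1 t).1 ht
    rw [← hu, Subsingleton.elim u 0, map_zero]
  have h2 : (1 : L) ⊗ₜ[F] KaehlerDifferential.D k F z = 0 := by
    apply hinj
    rw [KaehlerDifferential.mapBaseChange_tmul, KaehlerDifferential.map_D, map_zero, one_smul]
    exact hx
  have h3 : Function.Injective (fun t : Ω[F⁄k] => (1 : L) ⊗ₜ[F] t) :=
    Module.FaithfullyFlat.tensorProduct_mk_injective (A := F) (B := L) (Ω[F⁄k])
  have h4 : (fun t : Ω[F⁄k] => (1 : L) ⊗ₜ[F] t) (KaehlerDifferential.D k F z) =
      (fun t : Ω[F⁄k] => (1 : L) ⊗ₜ[F] t) 0 := h2.trans (TensorProduct.tmul_zero _ _).symm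
  exact h3 h4

end dlemma

/-- The near-group equation for one `p`. -/
structure SolAt {G R : Type*} [AddCommGroup G] [Fintype G] [CommRing R] (e : G → G → R) (s κ : R)
    (a b : G → R) (p : G) : Prop where
  a0 : a 0 = s
  b0 : b 0 = s
  ab : ∀ w, w ≠ 0 → a w * b w = 1
  eq : ∀ v, ∑ w, e w v * (a w * b (w - p)) = κ * (b (-p) * b (-v) * a (-p - v))

section

variable {G L V : Type*} [AddCommGroup G] [Fintype G] [DecidableEq G] [Field L]
  [AddCommGroup V] [Module L V] {e : G → G → L} {s κ : L} {a b : G → L}

private theorem transf {p : G} (h : SolAt e s κ a b p) (hsym : ∀ w v, e w v = e v w)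
    (hneg : ∀ w v, e (-w) (-v) = e w v)
    (horth : ∀ w u, ∑ v, e w v * e u (-v) = if w = u then (Fintype.card G : L) else 0)
    (u : G) :
    κ * b (-p) * ∑ w, e w u * (b w * a (w - p)) = (Fintype.card G : L) * (a u * b (u - p)) := by
  have h1 : ∑ v, e v (-u) * (κ * (b (-p) * b (-v) * a (-p - v))) =
      ∑ v, e v (-u) * ∑ w, e w v * (a w * b (w - p)) :=
    sum_congr rfl fun v _ => by rw [h.eq v]
  have h2 : ∑ v, e v (-u) * ∑ w, e w v * (a w * b (w - p)) =
      (Fintype.card G : L) * (a u * b (u - p)) := by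
    simp_rw [mul_sum]
    rw [sum_comm]
    have h3 : ∀ w, ∑ v, e v (-u) * (e w v * (a w * b (w - p))) =
        if w = u then (Fintype.card G : L) * (a w * b (w - p)) else 0 := by
      intro w
      have h4 : ∑ v, e v (-u) * (e w v * (a w * b (w - p))) =
          (∑ v, e w v * e u (-v)) * (a w * b (w - p)) := by
        rw [sum_mul]
        refine sum_congr rfl fun v _ => ?_
        have h5 : e v (-u) = e u (-v) := by
          rw [hsym v (-u), ← hneg (-u) v, neg_neg]
        rw [h5]
        ring
      rw [h4, horth w u]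
      split_ifs with h6
      · rfl
      · rw [zero_mul]
    rw [sum_congr rfl fun w _ => h3 w, sum_ite_eq' univ u, if_pos (mem_univ u)]
  rw [← h2, ← h1, mul_sum]
  rw [← Equiv.sum_comp (Equiv.neg G)]
  refine sum_congr rfl fun v _ => ?_
  simp only [Equiv.neg_apply]
  have h5 : e (-v) u = e v (-u) := by rw [← hneg (-v) u, neg_neg]
  have h6 : -v - p = -p - v := by abel
  rw [h5, h6]
  ring

private theorem key {k : Type*} [Field k] [Algebra k L] [Module k V] [IsScalarTower k L V] {p : G}
    (h : SolAt e s κ a b p) (hsym : ∀ w v, e w v = e v w)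
    (hneg : ∀ w v, e (-w) (-v) = e w v)
    (horth : ∀ w u, ∑ v, e w v * e u (-v) = if w = u then (Fintype.card G : L) else 0)
    (hG : (Fintype.card G : L) ≠ 0) (hb : ∀ w, b w ≠ 0)
    (hθ : (Fintype.card G : L) - 2 * (s ^ 2 - 1) ≠ 0)
    (D : Derivation k L V) (hDe : ∀ w v, D (e w v) = 0) (hDs : D s = 0) (hDκ : D κ = 0)
    (hDg : ∀ w, w ≠ 0 → D (b w * b (-w)) = 0) (hp : p ≠ 0) : D (b p) = 0 := by
  set β : G → V := fun w => (b w)⁻¹ • D (b w) with hβ
  have hDb : ∀ w, D (b w) = b w • β w := by
    intro w
    rw [hβ]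
    simp only
    rw [smul_smul, mul_inv_cancel₀ (hb w), one_smul]
  have hβ0 : β 0 = 0 := by
    rw [hβ]
    simp only
    rw [h.b0, hDs, smul_zero]
  clear_value β
  have hDa : ∀ w, D (a w) = -(a w • β w) := by
    intro w
    by_cases hw : w = 0
    · rw [hw, h.a0, hDs, hβ0, smul_zero, neg_zero]
    · have h1 : D (a w * b w) = 0 := by
        rw [h.ab w hw]
        exact D.map_one_eq_zero
      rw [Derivation.leibniz, hDb] at h1
      have h2 : b w • D (a w) = -(a w • b w • β w) := by
        rw [eq_neg_iff_add_eq_zero, add_comm]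
        exact h1
      have h3 : D (a w) = (b w)⁻¹ • (b w • D (a w)) := by
        rw [smul_smul, inv_mul_cancel₀ (hb w), one_smul]
      rw [h3, h2, smul_neg, smul_smul, smul_smul]
      congr 2
      have := hb w
      field_simp
  have hodd : ∀ w, β (-w) = -β w := by
    intro w
    by_cases hw : w = 0
    · rw [hw, neg_zero, hβ0, neg_zero]
    · have h1 := hDg w hw
      rw [Derivation.leibniz, hDb, hDb, smul_smul, smul_smul, mul_comm (b (-w)) (b w),
        ← smul_add] at h1
      have h2 : b w * b (-w) ≠ 0 := mul_ne_zero (hb w) (hb (-w))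
      rcases smul_eq_zero.1 h1 with h3 | h3
      · exact absurd h3 h2
      · exact eq_neg_of_add_eq_zero_left h3
  -- the linearised equation
  have hlin : ∀ v, ∑ w, (e w v * (a w * b (w - p))) • (β (w - p) - β w) =
      (κ * (b (-p) * b (-v) * a (-p - v))) • (β (-p) + β (-v) - β (-p - v)) := by
    intro v
    have h1 := congrArg D (h.eq v)
    rw [map_sum] at h1
    have h2 : ∀ w, D (e w v * (a w * b (w - p))) =
        (e w v * (a w * b (w - p))) • (β (w - p) - β w) := by
      intro w
      rw [Derivation.leibniz, hDe, smul_zero, add_zero, Derivation.leibniz, hDa, hDb]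
      module
    rw [sum_congr rfl fun w _ => h2 w] at h1
    rw [h1, Derivation.leibniz, hDκ, smul_zero, add_zero, Derivation.leibniz, Derivation.leibniz,
      hDa, hDb, hDb]
    module
  -- multiply by the transform of the other function and sum
  have hsum : ∑ w, ((b w * a (w - p)) * (a w * b (w - p))) • (β (w - p) - β w) =
      ∑ v, ((a (-v) * b (-v - p)) * (b (-v) * a (-p - v))) • (β (-p) + β (-v) - β (-p - v)) := by
    have h1 : ∑ v, (∑ u, e u (-v) * (b u * a (u - p))) •
        ∑ w, (e w v * (a w * b (w - p))) • (β (w - p) - β w) =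
        (Fintype.card G : L) • ∑ w, ((b w * a (w - p)) * (a w * b (w - p))) • (β (w - p) - β w) := by
      have h2 : ∀ v, (∑ u, e u (-v) * (b u * a (u - p))) •
          ∑ w, (e w v * (a w * b (w - p))) • (β (w - p) - β w) =
          ∑ w, ∑ u, ((e w v * e u (-v)) * ((b u * a (u - p)) * (a w * b (w - p)))) •
            (β (w - p) - β w) := by
        intro v
        rw [smul_sum]
        refine sum_congr rfl fun w _ => ?_
        rw [smul_smul, sum_mul, sum_smul]
        refine sum_congr rfl fun u _ => ?_
        congr 1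
        ring
      rw [sum_congr rfl fun v _ => h2 v, sum_comm, smul_sum]
      refine sum_congr rfl fun w _ => ?_
      rw [sum_comm]
      have h3 : ∀ u, ∑ v, ((e w v * e u (-v)) * ((b u * a (u - p)) * (a w * b (w - p)))) •
          (β (w - p) - β w) = if w = u then ((Fintype.card G : L) *
            ((b u * a (u - p)) * (a w * b (w - p)))) • (β (w - p) - β w) else 0 := by
        intro u
        rw [← sum_smul, ← sum_mul, horth w u]
        split_ifs with h4
        · rfl
        · rw [zero_mul, zero_smul]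
      rw [sum_congr rfl fun u _ => h3 u, sum_ite_eq univ w, if_pos (mem_univ w), ← smul_smul]
    have h4 : ∑ v, (∑ u, e u (-v) * (b u * a (u - p))) •
        ∑ w, (e w v * (a w * b (w - p))) • (β (w - p) - β w) =
        (Fintype.card G : L) • ∑ v, ((a (-v) * b (-v - p)) * (b (-v) * a (-p - v))) •
          (β (-p) + β (-v) - β (-p - v)) := by
      rw [smul_sum]
      refine sum_congr rfl fun v _ => ?_
      rw [hlin v, smul_smul, smul_smul]
      congr 1
      have h5 := transf h hsym hneg horth (-v)
      calc (∑ u, e u (-v) * (b u * a (u - p))) * (κ * (b (-p) * b (-v) * a (-p - v)))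
          = (κ * b (-p) * ∑ u, e u (-v) * (b u * a (u - p))) * (b (-v) * a (-p - v)) := by ring
        _ = _ := by rw [h5]; ring
    rw [h1] at h4
    exact smul_right_injective V hG h4
  -- evaluate both sides
  have hA : ∀ w, a w * b w = 1 + (if w = 0 then s ^ 2 - 1 else 0) := by
    intro w
    split_ifs with hw
    · rw [hw, h.a0, h.b0]
      ring
    · rw [h.ab w hw, add_zero]
  have hL : ∑ w, ((b w * a (w - p)) * (a w * b (w - p))) • (β (w - p) - β w) =
      (-2 * (s ^ 2 - 1)) • β p := by
    have h1 : ∀ w, ((b w * a (w - p)) * (a w * b (w - p))) • (β (w - p) - β w) =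
        (β (w - p) - β w) + ((if w = 0 then (s ^ 2 - 1) • (β (-p) - β 0) else 0) +
          (if w = p then (s ^ 2 - 1) • (β 0 - β p) else 0)) := by
      intro w
      have h2 : (b w * a (w - p)) * (a w * b (w - p)) = (a w * b w) * (a (w - p) * b (w - p)) := by
        ring
      rw [h2, hA, hA]
      by_cases hw : w = 0
      · rw [if_pos hw, if_pos hw, if_neg (by rw [hw, zero_sub]; exact neg_ne_zero.2 hp),
          if_neg (by rw [hw]; exact Ne.symm hp), hw, zero_sub]
        module
      · by_cases hw' : w = p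
        · rw [if_neg hw, if_neg hw, if_pos hw', if_pos (by rw [hw', sub_self]), hw', sub_self]
          module
        · rw [if_neg hw, if_neg hw, if_neg hw', if_neg (sub_ne_zero.2 hw')]
          module
    rw [sum_congr rfl fun w _ => h1 w, sum_add_distrib, sum_add_distrib, sum_ite_eq' univ (0 : G),
      sum_ite_eq' univ p, if_pos (mem_univ _), if_pos (mem_univ _), sum_sub_distrib]
    have h3 : ∑ w, β (w - p) = ∑ w, β w := Equiv.sum_comp (Equiv.subRight p) β
    rw [h3, sub_self, hβ0, hodd p]
    module
  have hR : ∑ v, ((a (-v) * b (-v - p)) * (b (-v) * a (-p - v))) • (β (-p) + β (-v) - β (-p - v)) =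
      (-(Fintype.card G : L)) • β p := by
    have h1 : ∀ v, ((a (-v) * b (-v - p)) * (b (-v) * a (-p - v))) • (β (-p) + β (-v) - β (-p - v)) =
        β (-p) + (β (-v) - β (-p - v)) := by
      intro v
      have h0 : -v - p = -p - v := by abel
      have h2 : (a (-v) * b (-v - p)) * (b (-v) * a (-p - v)) =
          (a (-v) * b (-v)) * (a (-p - v) * b (-p - v)) := by
        rw [h0]
        ring
      rw [h2, hA, hA]
      by_cases hv : v = 0
      · rw [if_pos (by rw [hv, neg_zero]), if_neg (by rw [hv, sub_zero]; exact neg_ne_zero.2 hp), hv,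
          neg_zero, sub_zero, hβ0]
        module
      · by_cases hv' : v = -p
        · rw [if_neg (neg_ne_zero.2 hv), if_pos (by rw [hv']; abel), hv', neg_neg, hodd p]
          have : -p - -p = (0 : G) := by abel
          rw [this, hβ0]
          module
        · have h3 : -p - v ≠ 0 := by
            intro h4
            apply hv'
            rw [sub_eq_zero] at h4
            exact h4.symm
          rw [if_neg (neg_ne_zero.2 hv), if_neg h3]
          module
    rw [sum_congr rfl fun v _ => h1 v, sum_add_distrib, sum_sub_distrib, sum_const, card_univ]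
    have h3 : ∑ v, β (-v) = ∑ w, β w := Equiv.sum_comp (Equiv.neg G) β
    have h4 : ∑ v, β (-p - v) = ∑ w, β w := Equiv.sum_comp (Equiv.subLeft (-p)) β
    rw [h3, h4, sub_self, add_zero, hodd p, ← Nat.cast_smul_eq_nsmul L]
    module
  rw [hL, hR] at hsum
  have hfin : ((Fintype.card G : L) - 2 * (s ^ 2 - 1)) • β p = 0 := by
    have : ((Fintype.card G : L) - 2 * (s ^ 2 - 1)) • β p =
        (-2 * (s ^ 2 - 1)) • β p - (-(Fintype.card G : L)) • β p := by module
    rw [this, hsum, sub_self]
  rcases smul_eq_zero.1 hfin with h1 | h1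
  · exact absurd h1 hθ
  · rw [hDb, h1, smul_zero]

end


/-- **Rigidity at one point.** -/
theorem SolAt.isAlgebraic {G k K : Type*} [AddCommGroup G] [Fintype G] [Field k] [CharZero k] [Field K]
    [Algebra k K] {e : G → G → k} {s κ : k} {γ : G → k} {a b : G → K} {p : G}
    (h : SolAt (fun w v => algebraMap k K (e w v)) (algebraMap k K s) (algebraMap k K κ) a b p)
    (hsym : ∀ w v, e w v = e v w) (hneg : ∀ w v, e (-w) (-v) = e w v)
    (horth : ∀ w u, w ≠ u → ∑ v, e w v * e u (-v) = 0)
    (horth' : ∀ w, ∑ v, e w v * e w (-v) = Fintype.card G)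
    (hb : ∀ w, b w ≠ 0) (hθ : (Fintype.card G : k) - 2 * (s ^ 2 - 1) ≠ 0)
    (hγ : ∀ w, w ≠ 0 → b w * b (-w) = algebraMap k K (γ w)) (hp : p ≠ 0) : IsAlgebraic k (b p) := by
  classical
  set L := IntermediateField.adjoin k (Set.range b) with hL
  have hbL : ∀ w, b w ∈ L := fun w => IntermediateField.subset_adjoin k _ ⟨w, rfl⟩
  have haL : ∀ w, a w ∈ L := by
    intro w
    by_cases hw : w = 0
    · rw [hw, h.a0]
      exact IntermediateField.algebraMap_mem _ _
    · rw [eq_inv_of_mul_eq_one_left (h.ab w hw)]
      exact inv_mem (hbL w)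
  have hsol : SolAt (fun w v => algebraMap k L (e w v)) (algebraMap k L s) (algebraMap k L κ)
      (fun w => (⟨a w, haL w⟩ : L)) (fun w => (⟨b w, hbL w⟩ : L)) p := by
    refine ⟨?_, ?_, ?_, ?_⟩
    · exact Subtype.ext h.a0
    · exact Subtype.ext h.b0
    · intro w hw
      exact Subtype.ext (h.ab w hw)
    · intro v
      apply Subtype.ext
      have := h.eq v
      push_cast
      exact this
  have hess : Algebra.EssFiniteType k L :=
    IntermediateField.essFiniteType_iff.2 (IntermediateField.fg_adjoin_of_finite (Set.finite_range b))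
  have hcard : ((Fintype.card G : ℕ) : L) = algebraMap k L (Fintype.card G : k) := by
    rw [map_natCast]
  have : CharZero L := charZero_of_injective_algebraMap (algebraMap k L).injective
  have hD : KaehlerDifferential.D k L ⟨b p, hbL p⟩ = 0 := by
    refine key (k := k) (V := Ω[L⁄k]) hsol (fun w v => by rw [hsym]) (fun w v => by rw [hneg]) ?_ ?_ ?_ ?_
      (KaehlerDifferential.D k L) (fun w v => Derivation.map_algebraMap _ _)
      (Derivation.map_algebraMap _ _) (Derivation.map_algebraMap _ _) ?_ hp
    · intro w u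
      split_ifs with h1
      · rw [← h1, hcard, ← horth' w, map_sum]
        exact sum_congr rfl fun v _ => (map_mul _ _ _).symm
      · rw [← map_zero (algebraMap k L), ← horth w u h1, map_sum]
        exact sum_congr rfl fun v _ => (map_mul _ _ _).symm
    · exact Nat.cast_ne_zero.2 Fintype.card_ne_zero
    · intro w h1
      exact hb w (congrArg Subtype.val h1)
    · rw [hcard]
      have : algebraMap k L (Fintype.card G : k) - 2 * (algebraMap k L s ^ 2 - 1) =
          algebraMap k L ((Fintype.card G : k) - 2 * (s ^ 2 - 1)) := by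
        simp only [map_sub, map_mul, map_pow, map_one, map_ofNat]
      rw [this]
      exact (map_ne_zero _).2 hθ
    · intro w hw
      have : (⟨b w, hbL w⟩ : L) * ⟨b (-w), hbL (-w)⟩ = algebraMap k L (γ w) := Subtype.ext (hγ w hw)
      rw [this]
      exact Derivation.map_algebraMap _ _
  exact (isAlgebraic_algebraMap_iff (algebraMap L K).injective).2 (isAlgebraic_of_D_eq_zero hD)

/-- **Rigidity at one point**, in the conventions of `CycSys`. -/
theorem isAlgebraic_of_star {G : Type*} [AddCommGroup G] [Fintype G] [DecidableEq G] {pr : G → G → ℂ}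
    {b : G → ℂ} {κ : ℂ} (pr_zero : ∀ y, pr 0 y = 1) (pr_add : ∀ x y z, pr (x + y) z = pr x z * pr y z)
    (pr_symm : ∀ x y, pr x y = pr y x) (pr_nondeg : ∀ x, (∀ y, pr x y = 1) → x = 0)
    (kap : κ ^ 2 = (Fintype.card G : ℂ)) (b_ne : ∀ w, b w ≠ 0) (b0 : IsAlgebraic ℚ (b 0))
    (bb : ∀ w, w ≠ 0 → IsAlgebraic ℚ (b w * b (-w)))
    (hθ : (Fintype.card G : ℂ) - 2 * (b 0 ^ 2 - 1) ≠ 0) {q : G} (hq : q ≠ 0)
    (star : ∀ y, ∑ w, pr w y * aa b w * b (w - q) = κ * b (-q) * b (-y) * aa b (-q - y)) :
    IsAlgebraic ℚ (b q) := by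
  let k := algebraicClosure ℚ ℂ
  have hpr1 : ∀ x y, pr x y * pr (-x) y = 1 := by
    intro x y
    rw [← pr_add, add_neg_cancel, pr_zero]
  have hpr2 : ∀ x y, pr x y * pr x (-y) = 1 := by
    intro x y
    rw [pr_symm x y, pr_symm x (-y), hpr1]
  have hprne : ∀ x y, pr x y ≠ 0 := fun x y => left_ne_zero_of_mul_eq_one (hpr1 x y)
  have hnn : ∀ x y, pr (-x) (-y) = pr x y := by
    intro x y
    have h1 := hpr1 x (-y)
    have h2 := hpr2 x y
    exact mul_left_cancel₀ (hprne x (-y)) (by rw [h1, mul_comm, h2])
  have hns : ∀ (i : ℕ) x y, pr (i • x) y = pr x y ^ i := by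
    intro i x y
    induction i with
    | zero => rw [zero_smul, pr_zero, pow_zero]
    | succ i ih => rw [succ_nsmul, pr_add, ih, pow_succ]
  have halg : ∀ x y, IsAlgebraic ℚ (pr x y) := by
    intro x y
    have h1 : pr x y ^ Fintype.card G = 1 := by rw [← hns, card_nsmul_eq_zero, pr_zero]
    have h2 : IsAlgebraic ℚ (pr x y ^ Fintype.card G) := by
      rw [h1]
      exact isAlgebraic_one
    exact (IsIntegral.of_pow Fintype.card_pos h2.isIntegral).isAlgebraic
  have hκ : IsAlgebraic ℚ κ := by
    have h2 : IsAlgebraic ℚ (κ ^ 2) := by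
      rw [kap]
      exact isAlgebraic_natCast _
    exact (IsIntegral.of_pow two_pos h2.isIntegral).isAlgebraic
  have hmem : ∀ z : ℂ, IsAlgebraic ℚ z → z ∈ algebraicClosure ℚ ℂ := fun z hz =>
    mem_algebraicClosure_iff.2 hz
  have hbb : ∀ w, IsAlgebraic ℚ (b w * b (-w)) := by
    intro w
    by_cases hw : w = 0
    · rw [hw, neg_zero]
      exact b0.mul b0
    · exact bb w hw
  have horthC : ∀ x, x ≠ 0 → ∑ y, pr x y = 0 := by
    intro x hx
    by_contra hne
    apply hx
    apply pr_nondeg
    intro z
    have h1 : ∑ y, pr x (y + z) = ∑ y, pr x y := Equiv.sum_comp (Equiv.addRight z) (fun y => pr x y)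
    have h2 : ∑ y, pr x (y + z) = (∑ y, pr x y) * pr x z := by
      rw [sum_mul]
      refine sum_congr rfl fun y _ => ?_
      rw [pr_symm, pr_add, pr_symm y, pr_symm z]
    rw [h1] at h2
    exact (mul_left_cancel₀ hne (by rw [mul_one]; exact h2)).symm
  have hkey : IsAlgebraic k (b q) := by
    refine SolAt.isAlgebraic (k := k) (K := ℂ) (e := fun x y => (⟨pr x y, hmem _ (halg x y)⟩ : k))
      (s := ⟨b 0, hmem _ b0⟩) (κ := ⟨κ, hmem _ hκ⟩) (γ := fun w => ⟨b w * b (-w), hmem _ (hbb w)⟩)
      (a := aa b) (b := b) (p := q) ?_ ?_ ?_ ?_ ?_ b_ne ?_ ?_ hq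
    · refine ⟨?_, rfl, ?_, ?_⟩
      · unfold aa
        rw [if_pos rfl]
        rfl
      · intro w hw
        unfold aa
        rw [if_neg hw, inv_mul_cancel₀ (b_ne w)]
      · intro v
        have h1 := star v
        have h2 : ∑ w, pr w v * (aa b w * b (w - q)) = κ * (b (-q) * b (-v) * aa b (-q - v)) := by
          rw [← mul_assoc, ← mul_assoc, ← h1]
          exact sum_congr rfl fun w _ => (mul_assoc _ _ _).symm
        exact h2
    · intro w v
      exact Subtype.ext (pr_symm w v)
    · intro w v
      exact Subtype.ext (hnn w v)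
    · intro w u hwu
      apply Subtype.ext
      rw [AddSubmonoidClass.coe_finsetSum]
      have h1 : ∀ v, ((⟨pr w v, hmem _ (halg w v)⟩ * ⟨pr u (-v), hmem _ (halg u (-v))⟩ : k) : ℂ) =
          pr (w - u) v := by
        intro v
        have h2 : pr w v * pr u (-v) = pr (w - u) v := by
          rw [sub_eq_add_neg, pr_add, ← hnn u (-v), neg_neg]
        exact h2
      rw [sum_congr rfl fun v _ => h1 v]
      exact horthC _ (sub_ne_zero.2 hwu)
    · intro w
      apply Subtype.ext
      rw [AddSubmonoidClass.coe_finsetSum]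
      have h1 : ∀ v, ((⟨pr w v, hmem _ (halg w v)⟩ * ⟨pr w (-v), hmem _ (halg w (-v))⟩ : k) : ℂ) =
          1 := fun v => hpr2 w v
      rw [sum_congr rfl fun v _ => h1 v]
      simp
    · intro h1
      apply hθ
      have h2 := congrArg (fun z : k => (z : ℂ)) h1
      have h3 : ((2 : k) : ℂ) = 2 := rfl
      simpa [h3] using h2
    · intro w hw
      rfl
  have hk : Algebra.IsAlgebraic ℚ k := algebraicClosure.isAlgebraic ℚ ℂ
  exact hkey.restrictScalars ℚ

end Zau
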