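import Pool.Agent.Lib_zau.KronV

/-!
MP_1c78a5_mp (Zauner).  File KronW: the Kronecker congruence from the charts.
-/

set_option autoImplicit false

namespace Zau

open Finset

variable {T : Type*} [AddCommGroup T]

/-- The data at one prime `l`: `E` is the action of the unit on the torsion group `T`, `rho` the logarithm
of the ghost, `uu K` the `K`-th power of the unit as a complex number. -/
structure LocalGhost {l : ℕ} (B : PBas T l) (E : AddMonoid.End T) (rho : T → ℝ) (uu : ℕ → ℂ) :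
    Prop where
  prime : l.Prime
  ne2 : l ≠ 2
  tor : ∀ x : T, ∃ n : ℕ, 0 < n ∧ n • x = 0
  perE : ∀ n : ℕ, 0 < n → ∃ K : ℕ, 0 < K ∧ ∀ x, n • x = 0 → (E ^ K) x = x
  rhoE : ∀ x, rho (E x) = rho x
  dist : ∀ x, rho (l • x) = ftor B rho x
  unit : ∀ K : ℕ, 0 < K → (∀ t, l • t = 0 → (E ^ K) t = t) →
    ∃ α : ℂ, IsIntegral ℤ α ∧ uu K = 1 + l * α
  chart : ∀ K : ℕ, 0 < K → (∀ t, l • t = 0 → (E ^ K) t = t) →
    ∃ a : ℕ, ∀ y : T, addOrderOf y = l ^ a → HasChart (E ^ K) l a y (fun x => K * rho x) (uu K)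

variable {Γ₀ : Type*} [LinearOrderedCommGroupWithZero Γ₀]
variable {l : ℕ} {B : PBas T l} {E : AddMonoid.End T} {rho : T → ℝ} {uu : ℕ → ℂ}

theorem mem_Xs_iff {om : AddMonoid.End T} {y x : T} (hy : ∃ n : ℕ, 0 < n ∧ n • y = 0) :
    x ∈ Xs om y ↔ ∃ k : ℕ, om x - x = k • y := by
  rw [mem_Xs, AddSubgroup.mem_zmultiples_iff]
  constructor
  · rintro ⟨k, hk⟩
    obtain ⟨n, hn, hny⟩ := hy
    refine ⟨(k % n).toNat, ?_⟩
    rw [← hk]
    have h1 : (0 : ℤ) ≤ k % n := Int.emod_nonneg _ (by omega)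
    have h2 : ((k % n).toNat : ℤ) = k % n := Int.toNat_of_nonneg h1
    rw [← natCast_zsmul, h2]
    conv_lhs => rw [← Int.emod_add_mul_ediv k n]
    rw [add_smul, mul_comm, mul_smul, natCast_zsmul, hny, smul_zero, add_zero]
  · rintro ⟨k, hk⟩
    exact ⟨k, by rw [hk, natCast_zsmul]⟩

theorem pow_order {y : T} {a : ℕ} (hl : 0 < l) (hy : addOrderOf y = l ^ a) :
    ∃ n : ℕ, 0 < n ∧ n • y = 0 :=
  ⟨l ^ a, pow_pos hl a, by rw [← hy]; exact addOrderOf_nsmul_eq_zero y⟩

omit [AddCommGroup T] in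
theorem fcyc_mul {T : Type*} [AddCommGroup T] (K : ℕ) (f : T → ℝ) (n : ℕ) (y x : T) :
    fcyc (fun x => (K : ℝ) * f x) n y x = K * fcyc f n y x := by
  unfold fcyc
  rw [mul_sum]

/-- The boundary condition for the valuations, at level `K`. -/
theorem LocalGhost.bval (H : LocalGhost B E rho uu) (v : Valuation ℂ Γ₀) (hv : v (l : ℂ) < 1)
    {K : ℕ} (hK : 0 < K) (hKl : ∀ t, l • t = 0 → (E ^ K) t = t) {a : ℕ}
    (hch : ∀ y : T, addOrderOf y = l ^ a → HasChart (E ^ K) l a y (fun x => K * rho x) (uu K)) :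
    ∀ y, addOrderOf y = l ^ a → ∀ x, (∃ k : ℕ, (E ^ K) x - x = k • y) →
      ∀ t, l • t = 0 → fcyc (Fv v (fun x => K * rho x)) (l ^ a) y (x + t) =
        fcyc (Fv v (fun x => K * rho x)) (l ^ a) y x := by
  intro y hy x hx t ht
  exact chart_val v hv (H.unit K hK hKl) hKl (hch y hy) x
    ((mem_Xs_iff (pow_order H.prime.pos hy)).2 hx) t ht

/-- `Fv` satisfies the distribution relation. -/
theorem LocalGhost.fdist (H : LocalGhost B E rho uu) (v : Valuation ℂ Γ₀) (K : ℕ) (x : T) :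
    Fv v (fun x => K * rho x) (l • x) = ftor B (Fv v (fun x => K * rho x)) x := by
  rw [ftor_eq_sum, Fv_sum]
  unfold Fv
  congr 1
  rw [Fv_eq_iff _ _ _ (Complex.exp_ne_zero _) (Complex.exp_ne_zero _)]
  congr 3
  show (K : ℝ) * rho (l • x) = _
  rw [H.dist, ftor_eq_sum, mul_sum]

/-- All values of the ghost are units at the valuation. -/
theorem LocalGhost.units (H : LocalGhost B E rho uu) (v : Valuation ℂ Γ₀) (hv : v (l : ℂ) < 1)
    (x : T) : v (Complex.exp ((rho x : ℝ) : ℂ)) = 1 := by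
  obtain ⟨n, hn, hnx⟩ := H.tor x
  obtain ⟨K, hK, hKE⟩ := H.perE (l * n) (Nat.mul_pos H.prime.pos hn)
  have hKl : ∀ t, l • t = 0 → (E ^ K) t = t := fun t ht =>
    hKE t (by rw [mul_comm, mul_smul, ht, smul_zero])
  have hKx : (E ^ K) x = x := hKE x (by rw [mul_smul, hnx, smul_zero])
  obtain ⟨a, hch⟩ := H.chart K hK hKl
  have h1 := units_all H.prime B (fun n hn a h => tor_free n hn a h)
    (Fv v (fun x => K * rho x)) (E ^ K) (H.fdist v K) a H.tor (H.bval v hv hK hKl hch)
    0 (Nat.zero_le _) 0 (by simp) x ⟨0, (sub_eq_zero.2 hKx).trans (zero_smul ℕ (0 : T)).symm⟩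
  have h2 : Fv v (fun x => K * rho x) x = 0 := by simpa [fcyc] using h1
  have h3 : v (Complex.exp (((K * rho x : ℝ)) : ℂ)) = 1 := by
    have h4 := congrArg (fun z => ((Additive.toMul z : Γ₀ˣ) : Γ₀)) h2
    simpa [Fv] using h4
  have h4 : v (Complex.exp ((rho x : ℝ) : ℂ)) ^ K = 1 := by
    rw [← map_pow, ← Complex.exp_nat_mul, ← h3]
    push_cast
    rfl
  exact (pow_eq_one_iff.1 h4).resolve_right hK.ne'

theorem LocalGhost.units' (H : LocalGhost B E rho uu) (v : Valuation ℂ Γ₀) (hv : v (l : ℂ) < 1)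
    {ι : Type*} (s : Finset ι) (x : ι → T) (c : ℕ) :
    v (Complex.exp ((∑ i ∈ s, (c : ℝ) * rho (x i) : ℝ) : ℂ)) = 1 := by
  classical
  induction s using Finset.induction_on with
  | empty => simp
  | insert a s ha ih =>
    rw [sum_insert ha]
    push_cast at ih ⊢
    rw [Complex.exp_add, map_mul, ih, mul_one, Complex.exp_nat_mul, map_pow, H.units v hv, one_pow]


/-- The residue of `exp (rho x)`. -/
noncomputable def rres (H : LocalGhost B E rho uu) (v : Valuation ℂ Γ₀) (hv : v (l : ℂ) < 1)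
    {k : Type} [Field k] (res : v.integer →+* k) (hres : ∀ x, res x = 0 ↔ v (x : ℂ) < 1) (x : T) :
    Additive kˣ :=
  Additive.ofMul (Units.mk0 (res ⟨Complex.exp ((rho x : ℝ) : ℂ), (H.units v hv x).le⟩)
    (by
      intro h
      have h1 := (hres _).1 h
      rw [show v ((⟨Complex.exp ((rho x : ℝ) : ℂ), (H.units v hv x).le⟩ : v.integer) : ℂ) = 1 from
        H.units v hv x] at h1
      exact lt_irrefl _ h1))

section

variable (H : LocalGhost B E rho uu) (v : Valuation ℂ Γ₀) (hv : v (l : ℂ) < 1)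
    {k : Type} [Field k] (res : v.integer →+* k) (hres : ∀ x, res x = 0 ↔ v (x : ℂ) < 1)

theorem rres_sum {ι : Type*} (s : Finset ι) (x : ι → T) (c : ℕ) :
    (((Additive.toMul (∑ i ∈ s, c • rres H v hv res hres (x i)) : kˣ)) : k) =
      res ⟨Complex.exp ((∑ i ∈ s, (c : ℝ) * rho (x i) : ℝ) : ℂ), (H.units' v hv s x c).le⟩ := by
  classical
  induction s using Finset.induction_on with
  | empty =>
    have h1 : (⟨Complex.exp ((∑ i ∈ (∅ : Finset ι), (c : ℝ) * rho (x i) : ℝ) : ℂ),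
        (H.units' v hv ∅ x c).le⟩ : v.integer) = 1 := by
      apply Subtype.ext
      simp
    rw [h1, map_one, sum_empty]
    rfl
  | insert a s ha ih =>
    rw [sum_insert ha]
    rw [toMul_add, Units.val_mul, ih]
    have h1 : ((Additive.toMul (c • rres H v hv res hres (x a)) : kˣ) : k) =
        res (⟨Complex.exp ((rho (x a) : ℝ) : ℂ), (H.units v hv (x a)).le⟩ ^ c) := by
      rw [map_pow, toMul_nsmul, Units.val_pow_eq_pow_val]
      rfl
    rw [h1, ← map_mul]
    congr 1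
    apply Subtype.ext
    show Complex.exp _ ^ c * Complex.exp _ = Complex.exp _
    rw [← Complex.exp_nat_mul, ← Complex.exp_add, sum_insert ha]
    push_cast
    rfl

theorem noTor_units {k : Type} [Field k] [CharP k l] (hl : l.Prime) : NoTor l (Additive kˣ) := by
  intro a ha
  have hF : Fact l.Prime := ⟨hl⟩
  have h1 : ((Additive.toMul a : kˣ) : k) ^ l = 1 := by
    have h2 := congrArg (fun z => ((Additive.toMul z : kˣ) : k)) ha
    simpa using h2
  have h2 : (((Additive.toMul a : kˣ) : k) - 1) ^ l = 0 := by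
    rw [sub_pow_char, h1, one_pow, sub_self]
  have h3 : ((Additive.toMul a : kˣ) : k) = 1 := sub_eq_zero.1 (pow_eq_zero_iff hl.ne_zero |>.1 h2)
  have h4 : Additive.toMul a = 1 := Units.ext h3
  have h5 : Additive.ofMul (Additive.toMul a) = Additive.ofMul 1 := by rw [h4]
  simpa using h5

/-- The boundary condition for the residues. -/
theorem LocalGhost.bres {K : ℕ} (hK : 0 < K) (hKl : ∀ t, l • t = 0 → (E ^ K) t = t) {a : ℕ}
    (hch : ∀ y : T, addOrderOf y = l ^ a → HasChart (E ^ K) l a y (fun x => K * rho x) (uu K)) :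
    ∀ y, addOrderOf y = l ^ a → ∀ x, (∃ k : ℕ, (E ^ K) x - x = k • y) →
      ∀ t, l • t = 0 → fcyc (fun x => K • rres H v hv res hres x) (l ^ a) y (x + t) =
        fcyc (fun x => K • rres H v hv res hres x) (l ^ a) y x := by
  intro y hy x hx t ht
  have hyf := pow_order H.prime.pos hy
  have hxX : x ∈ Xs (E ^ K) y := (mem_Xs_iff hyf).2 hx
  obtain ⟨G, _, _, _, π, s, m, g, pr, b, κ, hsurj, S, hb0, hroot, hexp⟩ := hch y hy
  obtain ⟨hu1, hu2⟩ := val_unit v hv (H.unit K hK hKl)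
  have hvb0 : v (b 0) = 1 := by
    have h1 : v (b 0) ^ 2 = 1 := by rw [← map_pow, hb0, hu2]
    exact (pow_eq_one_iff.1 h1).resolve_right two_ne_zero
  have hodd : ∀ w, v (b w) * v (b (-w)) = 1 := by
    intro w
    by_cases hw : w = 0
    · rw [hw, neg_zero, hvb0, one_mul]
    · obtain ⟨n, hn, h⟩ := hroot w hw
      rw [← map_mul]
      exact val_root v hn.ne' h
  -- all values are units
  have hunit : ∀ w, v (b w) = 1 := by
    intro w
    obtain ⟨z, rfl⟩ := hsurj w
    have h1 := H.units' v hv (range (l ^ a)) (fun k => (z : T) + k • y) K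
    have h2 := hexp z
    rw [show fcyc (fun x => (K : ℝ) * rho x) (l ^ a) y (z : T) =
      ∑ k ∈ range (l ^ a), (K : ℝ) * rho ((z : T) + k • y) from rfl] at h2
    rw [h2, map_div₀, div_eq_mul_inv] at h1
    have h3 : (v (b (-π z)))⁻¹ = v (b (π z)) := by
      rw [eq_comm]
      exact eq_inv_of_mul_eq_one_left (hodd _)
    rw [h3, ← pow_two] at h1
    exact (pow_eq_one_iff.1 h1).resolve_right two_ne_zero
  have htX : t ∈ Xs (E ^ K) y := by
    rw [mem_Xs, hKl t ht, sub_self]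
    exact zero_mem _
  obtain ⟨i, hi⟩ := chart_tor S (π ⟨t, htX⟩) (by
    rw [← map_nsmul]
    have : (l • (⟨t, htX⟩ : Xs (E ^ K) y)) = 0 := Subtype.ext ht
    rw [this, map_zero])
  -- residues of `b`
  have hb : ∀ w, res ⟨b w, (hunit w).le⟩ ≠ 0 := by
    intro w h
    have h1 := (hres _).1 h
    rw [show v ((⟨b w, (hunit w).le⟩ : v.integer) : ℂ) = 1 from hunit w] at h1
    exact lt_irrefl _ h1
  have hA : ∀ (i : ℕ) (w : G), res ⟨b (w + i • (l ^ s • g)), (hunit _).le⟩ =
      res ⟨b w, (hunit _).le⟩ := by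
    intro i
    induction i with
    | zero =>
      intro w
      congr 2
      rw [zero_smul, add_zero]
    | succ i ih =>
      intro w
      rw [← ih w, ← sub_eq_zero, ← map_sub, hres]
      have h1 := thmA' S v hv H.ne2 hunit (by rw [hb0]; exact hu1) (w + i • (l ^ s • g))
      have h2 : w + (i + 1) • (l ^ s • g) = w + i • (l ^ s • g) + l ^ s • g := by
        rw [succ_nsmul, add_assoc]
      show v (b (w + (i + 1) • (l ^ s • g)) - b (w + i • (l ^ s • g))) < 1
      rw [h2]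
      exact h1
  have hval : ∀ (x : T) (hx : x ∈ Xs (E ^ K) y),
      ((Additive.toMul (fcyc (fun x => K • rres H v hv res hres x) (l ^ a) y x) : kˣ) : k) *
        res ⟨b (-π ⟨x, hx⟩), (hunit _).le⟩ = res ⟨b (π ⟨x, hx⟩), (hunit _).le⟩ := by
    intro x hx
    have h1 := rres_sum H v hv res hres (range (l ^ a)) (fun k => x + k • y) K
    rw [show fcyc (fun x => K • rres H v hv res hres x) (l ^ a) y x =
      ∑ k ∈ range (l ^ a), K • rres H v hv res hres (x + k • y) from rfl, h1, ← map_mul]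
    congr 1
    apply Subtype.ext
    show Complex.exp _ * b _ = b _
    have h2 := hexp ⟨x, hx⟩
    rw [show fcyc (fun x => (K : ℝ) * rho x) (l ^ a) y ((⟨x, hx⟩ : Xs (E ^ K) y) : T) =
      ∑ k ∈ range (l ^ a), (K : ℝ) * rho (x + k • y) from rfl] at h2
    rw [h2, div_mul_cancel₀ _ (S.b_ne _)]
  have h1 := hval x hxX
  have h2 := hval (x + t) (add_mem hxX htX)
  have hπ : π ⟨x + t, add_mem hxX htX⟩ = π ⟨x, hxX⟩ + i • (l ^ s • g) := by
    rw [← hi, ← map_add]
    rfl
  have h3 : res ⟨b (π ⟨x + t, add_mem hxX htX⟩), (hunit _).le⟩ =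
      res ⟨b (π ⟨x, hxX⟩), (hunit _).le⟩ := by
    rw [← hA i (π ⟨x, hxX⟩)]
    congr 2
    rw [hπ]
  have h4 : res ⟨b (-π ⟨x + t, add_mem hxX htX⟩), (hunit _).le⟩ =
      res ⟨b (-π ⟨x, hxX⟩), (hunit _).le⟩ := by
    rw [← hA i (-π ⟨x + t, add_mem hxX htX⟩)]
    have h6 : -π ⟨x + t, add_mem hxX htX⟩ + i • (l ^ s • g) = -π ⟨x, hxX⟩ := by
      rw [hπ, neg_add, add_assoc, neg_add_cancel, add_zero]
    congr 2
    rw [h6]
  rw [h3, h4, ← h1] at h2
  have h5 := mul_right_cancel₀ (hb _) h2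
  exact Additive.toMul.injective (Units.ext h5)

end

/-- The Kronecker congruence. -/
theorem LocalGhost.kron (H : LocalGhost B E rho uu) (v : Valuation ℂ Γ₀) (hv : v (l : ℂ) < 1)
    (k0 j : ℕ) (hk0 : 0 < k0) (hj : 0 < j) (hSj : ∀ t, l • t = 0 → (E ^ (k0 * j)) t = t)
    (hmin : ∀ i, 0 < i → i < j → ∀ t, l • t = 0 → t ≠ 0 → (E ^ (k0 * i)) t ≠ t)
    (w : T) (hw : (E ^ k0) w = w) :
    v (Complex.exp ((k0 * rho (l • w) : ℝ) : ℂ) - Complex.exp ((k0 * rho w : ℝ) : ℂ) ^ (l ^ 2)) < 1 := by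
  obtain ⟨k, hk, hch, res, hres⟩ := exists_res v H.prime hv
  have hKpos : 0 < k0 * j := Nat.mul_pos hk0 hj
  obtain ⟨a, hchart⟩ := H.chart (k0 * j) hKpos hSj
  have hA : NoTor l (Additive kˣ) := noTor_units H.prime
  have hwK : (E ^ (k0 * j)) w = w := by
    rw [pow_mul]
    have h1 : ∀ i : ℕ, ((E ^ k0) ^ i) w = w := by
      intro i
      induction i with
      | zero => rfl
      | succ i ih =>
        rw [pow_succ]
        show ((E ^ k0) ^ i) ((E ^ k0) w) = w
        rw [hw, ih]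
    exact h1 j
  have hper := chain_zero H.prime B hA (fun x => (k0 * j) • rres H v hv res hres x)
    (fun x => (E ^ (k0 * j)) x) a (H.bres v hv res hres hKpos hSj hchart) w hwK
  let S : T →+ T := (E ^ k0 : AddMonoid.End T)
  have hsucc : ∀ (i : ℕ) (t : T), S^[i] t = (E ^ (k0 * i)) t := by
    intro i
    induction i with
    | zero => intro t; rfl
    | succ i ih =>
      intro t
      rw [Function.iterate_succ_apply, ih, Nat.mul_succ, pow_add]
      rfl
  have hrE : ∀ x, rres H v hv res hres ((E ^ k0) x) = rres H v hv res hres x := by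
    intro x
    have h1 : ∀ i : ℕ, rho ((E ^ i) x) = rho x := by
      intro i
      induction i with
      | zero => rfl
      | succ i ih =>
        rw [pow_succ']
        show rho (E ((E ^ i) x)) = rho x
        rw [H.rhoE, ih]
    unfold rres
    congr 1
    apply Units.ext
    simp only [Units.val_mk0]
    congr 2
    rw [h1]
  have hdist : ∀ x, rres H v hv res hres (l • x) = ftor B (rres H v hv res hres) x := by
    intro x
    rw [ftor_eq_sum]
    have h1 := rres_sum H v hv res hres B.tp (fun t => x + t) 1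
    simp only [one_smul, Nat.cast_one, one_mul] at h1
    apply Additive.toMul.injective
    apply Units.ext
    rw [h1]
    unfold rres
    simp only [toMul_ofMul, Units.val_mk0]
    congr 2
    rw [H.dist, ftor_eq_sum]
  have key := Zau.kron H.prime B (rres H v hv res hres) S k0 j hj hdist hrE
    (fun t ht => by rw [hsucc]; exact hSj t ht)
    (fun i hi hij t ht ht0 => by rw [hsucc]; exact hmin i hi hij t ht ht0) w hw
    (fun t ht => hper t ht)
  have h1 := rres_sum H v hv res hres (range 1) (fun _ => l • w) k0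
  have h2 := rres_sum H v hv res hres (range 1) (fun _ => w) k0
  simp only [range_one, sum_singleton] at h1 h2
  have hm : ∀ x, v (Complex.exp ((k0 * rho x : ℝ) : ℂ)) = 1 := by
    intro x
    have h4 := H.units' v hv (range 1) (fun _ => x) k0
    rwa [range_one, sum_singleton] at h4
  have h3 : res ⟨Complex.exp ((k0 * rho (l • w) : ℝ) : ℂ), (hm (l • w)).le⟩ =
      (res ⟨Complex.exp ((k0 * rho w : ℝ) : ℂ), (hm w).le⟩) ^ (l ^ 2) := by
    rw [← h1, ← h2, key, toMul_nsmul, Units.val_pow_eq_pow_val]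
  rw [← map_pow, ← sub_eq_zero, ← map_sub, hres] at h3
  exact h3

end Zau
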