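import Pool.Agent.Lib_zau.Tower
import Pool.Agent.Lib_zau.CycLat
import Pool.Agent.Lib_zau.KronW

/-!
MP_1c78a5_mp (Zauner).  File B10: the Kronecker congruence for a tower.
-/

set_option autoImplicit false

namespace Zau

open Finset

theorem E_apply (n : ℤ) (w : ℚ × ℚ) : E n w = (-w.2, w.1 + n * w.2) := rfl

theorem E_pow_apply (n : ℤ) (K : ℕ) (x : ℚ × ℚ) :
    (E n ^ K) x = (pq n K).1 • x + (pq n K).2 • E n x := by
  induction K with
  | zero => simp [pq]
  | succ K ih =>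
    rw [pow_succ']
    show E n ((E n ^ K) x) = _
    rw [ih]
    ext
    · simp only [E_apply, pq, Prod.fst_add, Prod.snd_add, Prod.smul_fst, Prod.smul_snd]
      simp only [zsmul_eq_mul]
      push_cast
      ring
    · simp only [E_apply, pq, Prod.fst_add, Prod.snd_add, Prod.smul_fst, Prod.smul_snd]
      simp only [zsmul_eq_mul]
      push_cast
      ring

theorem E_mem_Lam (n : ℤ) {x : ℚ × ℚ} (hx : x ∈ Lam) : E n x ∈ Lam := by
  obtain ⟨i, j, rfl⟩ := hx
  exact ⟨-j, i + n * j, by rw [E_apply]; push_cast; rfl⟩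

theorem mem_Lam_iff {x : ℚ × ℚ} : x ∈ Lam ↔ ∃ i j : ℤ, x = ((i : ℚ), (j : ℚ)) := Iff.rfl

/-- The torsion group `V / Lam`. -/
abbrev TT := (ℚ × ℚ) ⧸ Lam

/-- The action of `ε` on `V / Lam`. -/
def ET (n : ℤ) : AddMonoid.End TT :=
  QuotientAddGroup.map Lam Lam (E n) (fun _ hx => E_mem_Lam n hx)

theorem ET_mk (n : ℤ) (x : ℚ × ℚ) :
    ET n (QuotientAddGroup.mk x) = QuotientAddGroup.mk (E n x) := rfl

theorem ET_pow_mk (n : ℤ) (K : ℕ) (x : ℚ × ℚ) :
    (ET n ^ K) (QuotientAddGroup.mk x) = QuotientAddGroup.mk ((E n ^ K) x) := by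
  induction K with
  | zero => rfl
  | succ K ih =>
    rw [pow_succ', pow_succ']
    show ET n ((ET n ^ K) (QuotientAddGroup.mk x)) = QuotientAddGroup.mk (E n ((E n ^ K) x))
    rw [ih, ET_mk]

theorem mk_eq_zero' {x : ℚ × ℚ} : (QuotientAddGroup.mk x : TT) = 0 ↔ x ∈ Lam :=
  QuotientAddGroup.eq_zero_iff x

theorem mk_smul (k : ℕ) (x : ℚ × ℚ) : k • (QuotientAddGroup.mk x : TT) = QuotientAddGroup.mk (k • x) :=
  rfl

theorem exists_mk (t : TT) : ∃ x : ℚ × ℚ, (QuotientAddGroup.mk x : TT) = t :=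
  QuotientAddGroup.mk_surjective t

/-- `E ^ K = 1` on the points of order `l`. -/
theorem pow_one_of_dvd {n : ℤ} {K m : ℕ} (h1 : (m : ℤ) ∣ (pq n K).1 - 1) (h2 : (m : ℤ) ∣ (pq n K).2)
    (t : TT) (ht : m • t = 0) : (ET n ^ K) t = t := by
  obtain ⟨x, rfl⟩ := exists_mk t
  rw [mk_smul, mk_eq_zero'] at ht
  rw [ET_pow_mk, ← sub_eq_zero, ← QuotientAddGroup.mk_sub, mk_eq_zero', E_pow_apply]
  obtain ⟨a, ha⟩ := h1
  obtain ⟨b, hb⟩ := h2
  have h3 : (pq n K).1 • x + (pq n K).2 • E n x - x = a • (m • x) + b • (E n (m • x)) := by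
    have h4 : (pq n K).1 = m * a + 1 := by linarith
    rw [h4, hb, map_nsmul, add_smul, mul_smul, mul_smul, one_smul, natCast_zsmul, natCast_zsmul,
      smul_comm m a x, smul_comm m b (E n x)]
    abel
  rw [h3]
  exact Lam.add_mem (Lam.zsmul_mem ht a) (Lam.zsmul_mem (E_mem_Lam n ht) b)

theorem dvd_of_pow_one {n : ℤ} {K m : ℕ} (hm : 0 < m)
    (h : ∀ t : TT, m • t = 0 → (ET n ^ K) t = t) :
    (m : ℤ) ∣ (pq n K).1 - 1 ∧ (m : ℤ) ∣ (pq n K).2 := by
  have hm0 : (m : ℚ) ≠ 0 := by exact_mod_cast hm.ne'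
  have h1 := h (QuotientAddGroup.mk ((1 : ℚ) / m, (0 : ℚ))) (by
    rw [mk_smul, mk_eq_zero']
    refine ⟨1, 0, ?_⟩
    ext
    · simp [hm0]
    · simp)
  rw [ET_pow_mk, ← sub_eq_zero, ← QuotientAddGroup.mk_sub, mk_eq_zero', E_pow_apply] at h1
  obtain ⟨i, j, hij⟩ := h1
  have h2 := congrArg Prod.fst hij
  have h3 := congrArg Prod.snd hij
  simp only [E_apply, Prod.fst_add, Prod.snd_add, Prod.fst_sub,
    Prod.snd_sub, Prod.smul_fst, Prod.smul_snd, neg_zero, mul_zero, add_zero,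
    smul_zero, zero_add, sub_zero] at h2 h3
  simp only [zsmul_eq_mul] at h2 h3
  field_simp at h2 h3
  constructor
  · refine ⟨i, ?_⟩
    have : (((pq n K).1 - 1 : ℤ) : ℚ) = ((m * i : ℤ) : ℚ) := by push_cast; linarith
    exact_mod_cast this
  · refine ⟨j, ?_⟩
    have : (((pq n K).2 : ℤ) : ℚ) = ((m * j : ℤ) : ℚ) := by push_cast; linarith
    exact_mod_cast this

/-- The basis of the points of order `l`. -/
def pbas (l : ℕ) (hl : 0 < l) : PBas TT l where
  e1 := QuotientAddGroup.mk ((1 : ℚ) / l, (0 : ℚ))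
  e2 := QuotientAddGroup.mk ((0 : ℚ), (1 : ℚ) / l)
  he1 := by
    have hm0 : (l : ℚ) ≠ 0 := by exact_mod_cast hl.ne'
    rw [mk_smul, mk_eq_zero']
    refine ⟨1, 0, ?_⟩
    ext
    · simp [hm0]
    · simp
  he2 := by
    have hm0 : (l : ℚ) ≠ 0 := by exact_mod_cast hl.ne'
    rw [mk_smul, mk_eq_zero']
    refine ⟨0, 1, ?_⟩
    ext
    · simp
    · simp [hm0]
  span := by
    intro t ht
    have hm0 : (l : ℚ) ≠ 0 := by exact_mod_cast hl.ne'
    obtain ⟨x, rfl⟩ := exists_mk t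
    rw [mk_smul, mk_eq_zero'] at ht
    obtain ⟨i, j, hij⟩ := ht
    have h2 := congrArg Prod.fst hij
    have h3 := congrArg Prod.snd hij
    rw [Prod.smul_fst, nsmul_eq_mul] at h2
    rw [Prod.smul_snd, nsmul_eq_mul] at h3
    have hli : (0 : ℤ) < l := by exact_mod_cast hl
    refine ⟨(i % l).toNat, ?_, (j % l).toNat, ?_, ?_⟩
    · have := Int.emod_lt_of_pos i hli
      have h0 := Int.emod_nonneg i hli.ne'
      omega
    · have := Int.emod_lt_of_pos j hli
      have h0 := Int.emod_nonneg j hli.ne'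
      omega
    · rw [mk_smul, mk_smul, ← QuotientAddGroup.mk_add, ← sub_eq_zero, ← QuotientAddGroup.mk_sub,
        mk_eq_zero']
      have h0i := Int.emod_nonneg i hli.ne'
      have h0j := Int.emod_nonneg j hli.ne'
      have hti : (((i % l).toNat : ℕ) : ℚ) = ((i % l : ℤ) : ℚ) := by
        have : (((i % l).toNat : ℕ) : ℤ) = i % l := Int.toNat_of_nonneg h0i
        exact_mod_cast this
      have htj : (((j % l).toNat : ℕ) : ℚ) = ((j % l : ℤ) : ℚ) := by
        have : (((j % l).toNat : ℕ) : ℤ) = j % l := Int.toNat_of_nonneg h0j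
        exact_mod_cast this
      refine ⟨i / l, j / l, ?_⟩
      have hi : (i : ℚ) = ((i % l : ℤ) : ℚ) + l * ((i / l : ℤ) : ℚ) := by
        exact_mod_cast (Int.emod_add_mul_ediv i l).symm
      have hj : (j : ℚ) = ((j % l : ℤ) : ℚ) + l * ((j / l : ℤ) : ℚ) := by
        exact_mod_cast (Int.emod_add_mul_ediv j l).symm
      ext
      · simp only [Prod.fst_sub, Prod.fst_add, Prod.smul_fst]
        simp only [nsmul_eq_mul, hti, mul_zero, add_zero]
        field_simp
        linarith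
      · simp only [Prod.snd_sub, Prod.snd_add, Prod.smul_snd]
        simp only [nsmul_eq_mul, htj, mul_zero, zero_add]
        field_simp
        linarith
  inj := by
    intro k hk m hm h
    have hm0 : (l : ℚ) ≠ 0 := by exact_mod_cast hl.ne'
    rw [mk_smul, mk_smul, ← QuotientAddGroup.mk_add, mk_eq_zero'] at h
    obtain ⟨i, j, hij⟩ := h
    have h2 := congrArg Prod.fst hij
    have h3 := congrArg Prod.snd hij
    simp only [Prod.fst_add, Prod.snd_add, Prod.smul_fst, Prod.smul_snd] at h2 h3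
    simp only [nsmul_eq_mul, mul_zero, add_zero, zero_add] at h2 h3
    field_simp at h2 h3
    have h4 : (k : ℤ) = l * i := by exact_mod_cast h2
    have h5 : (m : ℤ) = l * j := by exact_mod_cast h3
    constructor
    · have h6 : (l : ℤ) ∣ k := ⟨i, h4⟩
      have h7 : l ∣ k := by exact_mod_cast h6
      exact Nat.eq_zero_of_dvd_of_lt h7 hk
    · have h6 : (l : ℤ) ∣ m := ⟨j, h5⟩
      have h7 : l ∣ m := by exact_mod_cast h6
      exact Nat.eq_zero_of_dvd_of_lt h7 hm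
  div := by
    intro t
    have hm0 : (l : ℚ) ≠ 0 := by exact_mod_cast hl.ne'
    obtain ⟨x, rfl⟩ := exists_mk t
    refine ⟨QuotientAddGroup.mk (x.1 / l, x.2 / l), ?_⟩
    rw [mk_smul]
    congr 1
    ext
    · rw [Prod.smul_fst, nsmul_eq_mul]
      field_simp
    · rw [Prod.smul_snd, nsmul_eq_mul]
      field_simp

theorem TT_tor (t : TT) : ∃ n : ℕ, 0 < n ∧ n • t = 0 := by
  obtain ⟨x, rfl⟩ := exists_mk t
  refine ⟨x.1.den * x.2.den, Nat.mul_pos x.1.den_pos x.2.den_pos, ?_⟩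
  rw [mk_smul, mk_eq_zero']
  refine ⟨x.1.num * x.2.den, x.2.num * x.1.den, ?_⟩
  have h1 : x.1 * x.1.den = x.1.num := Rat.mul_den_eq_num x.1
  have h2 : x.2 * x.2.den = x.2.num := Rat.mul_den_eq_num x.2
  ext
  · rw [Prod.smul_fst, nsmul_eq_mul]
    push_cast
    rw [← h1]
    ring
  · rw [Prod.smul_snd, nsmul_eq_mul]
    push_cast
    rw [← h2]
    ring

/-- The function on `V / Lam`. -/
noncomputable def rhoT (rho : ℚ × ℚ → ℝ) (t : TT) : ℝ := rho (Quotient.out t)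

theorem rhoT_mk {n : ℤ} {rho : ℚ × ℚ → ℝ} (H : Tower n rho) (x : ℚ × ℚ) :
    rhoT rho (QuotientAddGroup.mk x) = rho x := by
  unfold rhoT
  have h1 : (QuotientAddGroup.mk (Quotient.out (QuotientAddGroup.mk x : TT)) : TT) =
      QuotientAddGroup.mk x := Quotient.out_eq _
  rw [← sub_eq_zero, ← QuotientAddGroup.mk_sub, mk_eq_zero'] at h1
  have h2 := H.per x _ h1
  rw [← h2]
  congr 1
  abel

theorem ep_sq {n : ℤ} (hn : 3 ≤ n) : ep n ^ 2 = n * ep n - 1 := by
  have h1 : (0 : ℝ) ≤ (n : ℝ) ^ 2 - 4 := by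
    have : (3 : ℝ) ≤ n := by exact_mod_cast hn
    nlinarith
  have h2 := Real.sq_sqrt h1
  unfold ep
  nlinarith

theorem ep_pow {n : ℤ} (hn : 3 ≤ n) (K : ℕ) : ep n ^ K = (pq n K).1 + (pq n K).2 * ep n := by
  induction K with
  | zero => simp [pq]
  | succ K ih =>
    rw [pow_succ, ih]
    simp only [pq]
    push_cast
    have := ep_sq hn
    linear_combination ((pq n K).2 : ℝ) * this

theorem ep_integral {n : ℤ} (hn : 3 ≤ n) : IsIntegral ℤ ((ep n : ℝ) : ℂ) := by
  refine ⟨Polynomial.X ^ 2 + (-Polynomial.C n * Polynomial.X + 1), ?_, ?_⟩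
  · apply Polynomial.monic_X_pow_add
    refine (Polynomial.degree_add_le _ _).trans_lt ?_
    rw [max_lt_iff]
    constructor
    · rw [← Polynomial.C_neg]
      refine (Polynomial.degree_C_mul_X_le _).trans_lt ?_
      norm_num
    · refine Polynomial.degree_one_le.trans_lt ?_
      norm_num
  · have h1 := ep_sq hn
    have h2 : ((ep n : ℝ) : ℂ) ^ 2 = n * ((ep n : ℝ) : ℂ) - 1 := by
      rw [← Complex.ofReal_pow, h1]
      push_cast
      ring
    simp only [Polynomial.eval₂_add, Polynomial.eval₂_pow, Polynomial.eval₂_X, Polynomial.eval₂_mul,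
      Polynomial.eval₂_neg, Polynomial.eval₂_C, Polynomial.eval₂_one, h2]
    simp

end Zau
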