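import Pool.Agent.Lib_zau.B10

/-!
MP_1c78a5_mp (Zauner).  File B10b: the Kronecker congruence for a tower, the charts and the end.
-/

set_option autoImplicit false

namespace Zau

open Finset

theorem Lam_le_Lc (c : ℚ × ℚ) : Lam ≤ Lc c := le_sup_left

theorem mem_Lc {c x : ℚ × ℚ} : x ∈ Lc c ↔ ∃ z ∈ Lam, ∃ k : ℤ, x = z + k • c := by
  unfold Lc
  rw [AddSubgroup.mem_sup]
  constructor
  · rintro ⟨z, hz, y, hy, rfl⟩
    obtain ⟨k, rfl⟩ := AddSubgroup.mem_zmultiples_iff.1 hy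
    exact ⟨z, hz, k, rfl⟩
  · rintro ⟨z, hz, k, rfl⟩
    exact ⟨z, hz, k • c, AddSubgroup.mem_zmultiples_iff.2 ⟨k, rfl⟩, rfl⟩

theorem mem_Xs_mk {n : ℤ} {K : ℕ} {c x : ℚ × ℚ} :
    (QuotientAddGroup.mk x : TT) ∈ Xs (ET n ^ K) (QuotientAddGroup.mk c) ↔
      (E n ^ K) x - x ∈ Lc c := by
  rw [mem_Xs, ET_pow_mk, ← QuotientAddGroup.mk_sub, AddSubgroup.mem_zmultiples_iff, mem_Lc]
  constructor
  · rintro ⟨k, hk⟩
    refine ⟨(E n ^ K) x - x - k • c, ?_, k, by abel⟩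
    rw [← mk_eq_zero', QuotientAddGroup.mk_sub, ← hk]
    exact sub_self _
  · rintro ⟨z, hz, k, hk⟩
    refine ⟨k, ?_⟩
    rw [hk, QuotientAddGroup.mk_add, mk_eq_zero'.2 hz, zero_add]
    rfl

/-- A chart from `Near`. -/
theorem chart_of_near {n : ℤ} {rho : ℚ × ℚ → ℝ} (H : Tower n rho) {l K j : ℕ} {c : ℚ × ℚ}
    (h : Near n rho l K j c) :
    HasChart (ET n ^ K) l j (QuotientAddGroup.mk c) (fun t => K * rhoT rho t)
      ((ep n ^ K : ℝ) : ℂ) := by
  obtain ⟨G, _, _, _, π, m, g, pr, b, κ, S, hinj, hrange, hb0, hroot, hexp⟩ := h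
  let ψ : TT →+ (ℚ × ℚ) ⧸ Lc c :=
    QuotientAddGroup.map Lam (Lc c) (AddMonoidHom.id _) (fun _ hx => Lam_le_Lc c hx)
  have hψ : ∀ x : ℚ × ℚ, ψ (QuotientAddGroup.mk x) = QuotientAddGroup.mk x := fun x => rfl
  let e : G ≃+ π.range := AddMonoidHom.ofInjective hinj
  have hmem : ∀ t : Xs (ET n ^ K) (QuotientAddGroup.mk c : TT), ψ t.1 ∈ π.range := by
    rintro ⟨t, ht⟩
    obtain ⟨x, rfl⟩ := exists_mk t
    obtain ⟨w, hw⟩ := (hrange x).2 (mem_Xs_mk.1 ht)
    exact ⟨w, by rw [hw]; rfl⟩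
  let φ : Xs (ET n ^ K) (QuotientAddGroup.mk c : TT) →+ π.range :=
    (ψ.comp (AddSubgroup.subtype _)).codRestrict π.range hmem
  let π' : Xs (ET n ^ K) (QuotientAddGroup.mk c : TT) →+ G := (e.symm : π.range →+ G).comp φ
  have hπ' : ∀ t : Xs (ET n ^ K) (QuotientAddGroup.mk c : TT), π (π' t) = ψ t.1 := by
    intro t
    have h1 : (e (e.symm (φ t)) : (ℚ × ℚ) ⧸ Lc c) = φ t := by rw [e.apply_symm_apply]
    exact h1
  refine ⟨G, inferInstance, inferInstance, inferInstance, π', 2 * j - 1, m, g, pr, b, κ, ?_, S, hb0,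
    hroot, ?_⟩
  · intro w
    obtain ⟨x, hx⟩ := QuotientAddGroup.mk_surjective (π w)
    have h1 : (E n ^ K) x - x ∈ Lc c := (hrange x).1 ⟨w, hx.symm⟩
    refine ⟨⟨QuotientAddGroup.mk x, mem_Xs_mk.2 h1⟩, ?_⟩
    apply hinj
    rw [hπ', hψ, hx]
  · rintro ⟨t, ht⟩
    obtain ⟨x, rfl⟩ := exists_mk t
    have h1 := hexp (π' ⟨QuotientAddGroup.mk x, ht⟩) x (by rw [hπ', hψ])
    rw [h1]
    congr 2
    unfold fcyc
    rw [mul_sum]
    refine sum_congr rfl fun k _ => ?_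
    rw [mk_smul, ← QuotientAddGroup.mk_add]
    show (K : ℝ) * rhoT rho (QuotientAddGroup.mk (x + k • c)) = _
    rw [rhoT_mk H]

theorem localGhost {n : ℤ} (hn : 3 ≤ n) {rho : ℚ × ℚ → ℝ} (H : Tower n rho) {l : ℕ}
    (hl : l.Prime) (hl2 : l ≠ 2) (hin : ¬ IsSquare ((n ^ 2 - 4 : ℤ) : ZMod l)) :
    LocalGhost (pbas l hl.pos) (ET n) (rhoT rho) (fun K => ((ep n ^ K : ℝ) : ℂ)) where
  prime := hl
  ne2 := hl2
  tor := TT_tor
  perE := by
    intro m hm
    obtain ⟨K, hK, -, h1, h2⟩ := exists_level n hm 1 one_pos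
    exact ⟨K, hK, fun t ht => pow_one_of_dvd h1 h2 t ht⟩
  rhoE := by
    intro t
    obtain ⟨x, rfl⟩ := exists_mk t
    rw [ET_mk, rhoT_mk H, rhoT_mk H, H.eps]
  dist := by
    intro t
    obtain ⟨x, rfl⟩ := exists_mk t
    rw [mk_smul, rhoT_mk H, H.dist l hl]
    unfold ftor
    refine sum_congr rfl fun i _ => sum_congr rfl fun k _ => ?_
    have h1 : (QuotientAddGroup.mk x + i • (pbas l hl.pos).e1 + k • (pbas l hl.pos).e2 : TT) =
        QuotientAddGroup.mk (x + ((i : ℚ) / l, (k : ℚ) / l)) := by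
      show (QuotientAddGroup.mk (x + i • ((1 : ℚ) / l, (0 : ℚ)) + k • ((0 : ℚ), (1 : ℚ) / l)) : TT) = _
      congr 1
      ext
      · simp only [Prod.fst_add, Prod.smul_fst]
        simp only [nsmul_eq_mul]
        ring
      · simp only [Prod.snd_add, Prod.smul_snd]
        simp only [nsmul_eq_mul]
        ring
    rw [h1, rhoT_mk H]
  unit := by
    intro K _ hK1
    obtain ⟨h1, h2⟩ := dvd_of_pow_one hl.pos hK1
    obtain ⟨a, ha⟩ := h1
    obtain ⟨b, hb⟩ := h2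
    refine ⟨(a : ℂ) + b * ((ep n : ℝ) : ℂ), ?_, ?_⟩
    · exact (isIntegral_algebraMap (R := ℤ) (A := ℂ) (x := a)).add
        ((isIntegral_algebraMap (R := ℤ) (A := ℂ) (x := b)).mul (ep_integral hn))
    · rw [ep_pow hn]
      have h4 : (pq n K).1 = l * a + 1 := by linarith
      rw [h4, hb]
      push_cast
      ring
  chart := by
    intro K hK hK1
    obtain ⟨h1, h2⟩ := dvd_of_pow_one hl.pos hK1
    obtain ⟨j, c, d, hj, hc, hd, hld⟩ := exists_cd hn hl hl2 hK h1 h2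
    refine ⟨j, fun y hy => ?_⟩
    obtain ⟨x, rfl⟩ := exists_mk y
    apply chart_of_near H
    have hEz : ∀ z : ℚ × ℚ, (E n ^ K) z - z = (l ^ j) • (c • z + d • E n z) := by
      intro z
      have h4 : (pq n K).1 = l ^ j * c + 1 := by linarith
      rw [E_pow_apply, h4, hd, add_smul, one_smul, mul_smul, mul_smul]
      have h5 : ∀ w : ℚ × ℚ, ((l : ℤ) ^ j) • w = (l ^ j) • w := fun w => by
        rw [← natCast_zsmul]
        push_cast
        rfl
      rw [h5, h5, smul_add]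
      abel
    refine H.near l hl hl2 hin K j hK hj ?_ ?_ x ?_ ?_
    · intro z hz
      exact ⟨c • z + d • E n z, Lam.add_mem (Lam.zsmul_mem hz c)
        (Lam.zsmul_mem (E_mem_Lam n hz) d), hEz z⟩
    · refine ⟨((1 : ℤ), (0 : ℤ)), ⟨1, 0, by simp⟩, ?_⟩
      rintro z' ⟨i', j', rfl⟩ h5
      rw [hEz] at h5
      have h6 := congrArg Prod.snd h5
      simp only [E_apply, Prod.smul_snd, Prod.snd_add] at h6
      simp only [nsmul_eq_mul, zsmul_eq_mul] at h6
      push_cast at h6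
      have hl0 : ((l : ℚ) ^ j) ≠ 0 := pow_ne_zero _ (by exact_mod_cast hl.ne_zero)
      have h7 : (d : ℚ) = l * j' := by
        apply mul_left_cancel₀ hl0
        rw [pow_succ] at h6
        linarith
      exact hld ⟨j', by exact_mod_cast h7⟩
    · rw [← mk_eq_zero', ← mk_smul, ← hy]
      exact addOrderOf_nsmul_eq_zero _
    · intro h5
      rw [← mk_eq_zero', ← mk_smul, ← addOrderOf_dvd_iff_nsmul_eq_zero, hy,
        Nat.pow_dvd_pow_iff_le_right hl.one_lt] at h5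
      omega

/-- **B10**: the Kronecker congruence. -/
theorem kronecker' {n : ℤ} (hn : 3 ≤ n) {rho : ℚ × ℚ → ℝ} (H : Tower n rho) (d : ℕ)
    (hd : (d : ℤ) = n + 1) (l : ℕ) (hl : l.Prime) (hl2 : l ≠ 2)
    (hin : ¬ IsSquare ((n ^ 2 - 4 : ℤ) : ZMod l)) {Γ₀ : Type*} [LinearOrderedCommGroupWithZero Γ₀]
    (v : Valuation ℂ Γ₀) (hv : v (l : ℂ) < 1) (x : ℚ × ℚ) (hx : d • x ∈ Lam) :
    v ((Real.exp (3 * rho x) : ℝ) : ℂ) = 1 ∧
      v (((Real.exp (3 * rho (l • x)) : ℝ) : ℂ) - ((Real.exp (3 * rho x) : ℝ) : ℂ) ^ (l ^ 2)) < 1 := by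
  have L := localGhost hn H hl hl2 hin
  have hinert : ∀ x y : ℤ, (l : ℤ) ∣ x ^ 2 + n * x * y + y ^ 2 → (l : ℤ) ∣ x ∧ (l : ℤ) ∣ y :=
    inert_of_not_square hl hin
  have hunit : v ((Real.exp (3 * rho x) : ℝ) : ℂ) = 1 := by
    have h1 := L.units v hv (QuotientAddGroup.mk x)
    rw [rhoT_mk H] at h1
    rw [Complex.ofReal_exp]
    have h2 : ((3 * rho x : ℝ) : ℂ) = (3 : ℕ) * ((rho x : ℝ) : ℂ) := by push_cast; ring
    rw [h2, Complex.exp_nat_mul, map_pow, h1, one_pow]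
  refine ⟨hunit, ?_⟩
  -- the level 3 fixes `x`
  have h3x : (ET n ^ 3) (QuotientAddGroup.mk x) = (QuotientAddGroup.mk x : TT) := by
    apply pow_one_of_dvd (m := d)
    · refine ⟨-1, ?_⟩
      simp only [pq]
      rw [hd]
      ring
    · refine ⟨n - 1, ?_⟩
      simp only [pq]
      rw [hd]
      ring
    · rw [mk_smul, mk_eq_zero']
      exact hx
  -- the order of `ε ^ 3` modulo `l`
  have hex : ∃ j : ℕ, 0 < j ∧ ∀ t : TT, l • t = 0 → (ET n ^ (3 * j)) t = t := by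
    obtain ⟨K, hK, ⟨j, rfl⟩, h1, h2⟩ := exists_level n hl.pos 3 (by norm_num)
    exact ⟨j, by omega, fun t ht => pow_one_of_dvd h1 h2 t ht⟩
  classical
  obtain ⟨hj, hSj⟩ := Nat.find_spec hex
  have hjm := fun i => Nat.find_min (H := hex) (m := i)
  set j := Nat.find hex with hjdef
  have hmin : ∀ i, 0 < i → i < j → ∀ t : TT, l • t = 0 → t ≠ 0 → (ET n ^ (3 * i)) t ≠ t := by
    intro i hi hij t ht ht0 hfix
    apply hjm i hij
    refine ⟨hi, ?_⟩
    obtain ⟨w, rfl⟩ := exists_mk t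
    have hlw : l • w ∈ Lam := by rwa [mk_smul, mk_eq_zero'] at ht
    obtain ⟨a, b, hab⟩ := hlw
    rw [ET_pow_mk, ← sub_eq_zero, ← QuotientAddGroup.mk_sub, mk_eq_zero', E_pow_apply] at hfix
    set P := (pq n (3 * i)).1 with hP
    set Q := (pq n (3 * i)).2 with hQ
    obtain ⟨r, s, hrs⟩ := hfix
    -- `l • (P w + Q E w - w) = (P - 1) (a, b) + Q E (a, b)`
    have h4 : ((P - 1 : ℤ) : ℚ) * a - Q * b = l * r ∧ ((P - 1 : ℤ) : ℚ) * b + Q * (a + n * b) = l * s := by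
      have ha : (l : ℚ) * w.1 = a := by
        have := congrArg Prod.fst hab
        rwa [Prod.smul_fst, nsmul_eq_mul] at this
      have hb : (l : ℚ) * w.2 = b := by
        have := congrArg Prod.snd hab
        rwa [Prod.smul_snd, nsmul_eq_mul] at this
      have h5 := congrArg Prod.fst hrs
      have h6 := congrArg Prod.snd hrs
      simp only [E_apply, Prod.fst_add, Prod.snd_add, Prod.fst_sub, Prod.snd_sub, Prod.smul_fst,
        Prod.smul_snd] at h5 h6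
      simp only [zsmul_eq_mul] at h5 h6
      rw [← ha, ← hb, ← h5, ← h6]
      push_cast
      constructor <;> ring
    have h5 : (P - 1) * a - Q * b = l * r := by
      have := h4.1
      exact_mod_cast this
    have h6 : (P - 1) * b + Q * (a + n * b) = l * s := by
      have := h4.2
      exact_mod_cast this
    -- the norm
    have h7 : (l : ℤ) ∣ ((P - 1) ^ 2 + n * (P - 1) * Q + Q ^ 2) * (a ^ 2 + n * a * b + b ^ 2) := by
      have h8 : ((P - 1) ^ 2 + n * (P - 1) * Q + Q ^ 2) * (a ^ 2 + n * a * b + b ^ 2) =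
          (l * r) ^ 2 + n * (l * r) * (l * s) + (l * s) ^ 2 := by
        rw [← h5, ← h6]
        ring
      rw [h8]
      exact ⟨l * r ^ 2 + n * r * (l * s) + l * s ^ 2, by ring⟩
    rcases (Nat.prime_iff_prime_int.1 hl).dvd_or_dvd h7 with h8 | h8
    · obtain ⟨h9, h10⟩ := hinert _ _ h8
      exact fun t ht => pow_one_of_dvd h9 h10 t ht
    · exfalso
      obtain ⟨⟨a', ha'⟩, ⟨b', hb'⟩⟩ := hinert _ _ h8
      apply ht0
      rw [mk_eq_zero']
      refine ⟨a', b', ?_⟩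
      have hl0 : (l : ℚ) ≠ 0 := by exact_mod_cast hl.ne_zero
      have ha : (l : ℚ) * w.1 = a := by
        have := congrArg Prod.fst hab
        rwa [Prod.smul_fst, nsmul_eq_mul] at this
      have hb : (l : ℚ) * w.2 = b := by
        have := congrArg Prod.snd hab
        rwa [Prod.smul_snd, nsmul_eq_mul] at this
      ext
      · apply mul_left_cancel₀ hl0
        rw [ha, ha']
        push_cast
        ring
      · apply mul_left_cancel₀ hl0
        rw [hb, hb']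
        push_cast
        ring
  have key := L.kron v hv 3 j (by norm_num) hj hSj hmin (QuotientAddGroup.mk x) h3x
  rw [mk_smul, rhoT_mk H, rhoT_mk H] at key
  rw [Complex.ofReal_exp, Complex.ofReal_exp]
  push_cast at key ⊢
  exact key

end Zau
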