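import Pool.Agent.Lib_zau.GalG

/-!
MP_1c78a5_mp, piece B11: the Galois step.
-/

open NumberField

namespace Zau

section Group

variable {L : Type} [Field L] [NumberField L] {W : Type} [AddCommGroup W]

/-- The Galois step inside a number field `L`, Galois over `ℚ`, embedded into `ℂ` by `i`, with `c`
the complex conjugation. -/
theorem galois_core [IsGalois ℚ L] [Finite W] {f : ℕ} (hf : f ≠ 0) (hW : ∀ w : W, f • w = 0)
    (D : ℤ) (hD : D ≠ 0) (R : W → ℝ) (hRpos : ∀ w, 0 < R w) (hRneg : ∀ w, R (-w) = (R w)⁻¹)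
    (hK : Kron D R) (i : L →+* ℂ) (c : L ≃ₐ[ℚ] L) (hc : ∀ x, i (c x) = (starRingEnd ℂ) (i x))
    (r : W → L) (hr : ∀ w, i (r w) = (R w : ℂ))
    (δ : L) (hδ : δ ^ 2 = (D : L)) (hcδ : c δ = δ) (hδQ : δ ∉ (⊥ : IntermediateField ℚ L))
    (ζ : L) (hζ : IsPrimitiveRoot ζ f) :
    ∃ h : L ≃ₐ[ℚ] L, h δ = -δ ∧ ∀ w, ‖i (h (r w))‖ = 1 := by
  classical
  have hpm : ∀ g : L ≃ₐ[ℚ] L, g δ = δ ∨ g δ = -δ := by
    intro g
    have h1 : (g δ) ^ 2 = δ ^ 2 := by
      rw [← map_pow, hδ]; simp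
    exact sq_eq_sq_iff_eq_or_eq_neg.1 h1
  have hδ0 : δ ≠ 0 := by
    rintro rfl
    exact hδQ (zero_mem _)
  have hne : -δ ≠ δ := by
    intro h
    apply hδ0
    have h2 : (2 : L) * δ = 0 := by
      have : δ + δ = 0 := by
        nth_rewrite 1 [← h]
        simp
      rw [two_mul, this]
    simpa using h2
  -- an automorphism moving δ
  obtain ⟨g, hg⟩ : ∃ g : L ≃ₐ[ℚ] L, g δ = -δ := by
    by_contra hcon
    push Not at hcon
    apply hδQ
    rw [IsGalois.mem_bot_iff_fixed]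
    intro g
    exact (hpm g).resolve_right (hcon g)
  -- complex conjugation
  have hcc : c * c = 1 := by
    apply AlgEquiv.ext
    intro x
    apply i.injective
    rw [AlgEquiv.mul_apply, hc, hc, Complex.conj_conj]
    rfl
  have hPc : IsPGroup 2 (Subgroup.zpowers c) := by
    rintro ⟨x, hx⟩
    obtain ⟨k, rfl⟩ := Subgroup.mem_zpowers_iff.1 hx
    refine ⟨1, ?_⟩
    apply Subtype.ext
    show (c ^ k) ^ (2 ^ 1) = 1
    rw [pow_one, ← zpow_natCast, ← zpow_mul, mul_comm, zpow_mul, zpow_natCast, pow_two, hcc,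
      one_zpow]
  obtain ⟨Q, hQ⟩ := hPc.exists_le_sylow
  have hcQ : c ∈ (Q : Subgroup (L ≃ₐ[ℚ] L)) := hQ (Subgroup.mem_zpowers c)
  -- an element of Q moving δ
  obtain ⟨h, hhQ, hh⟩ : ∃ h ∈ (Q : Subgroup (L ≃ₐ[ℚ] L)), h δ = -δ := by
    by_contra hcon
    push Not at hcon
    let A0 : Subgroup (L ≃ₐ[ℚ] L) := MulAction.stabilizer (L ≃ₐ[ℚ] L) δ
    have hA0 : ∀ b : L ≃ₐ[ℚ] L, b ∈ A0 ↔ b δ = δ := fun b => Iff.rfl
    have hQA : (Q : Subgroup (L ≃ₐ[ℚ] L)) ≤ A0 := fun x hx => (hpm x).resolve_right (hcon x hx)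
    have hidx : A0.index = 2 := by
      rw [Subgroup.index_eq_two_iff]
      refine ⟨g, fun b => ?_⟩
      rw [hA0, hA0, AlgEquiv.mul_apply, hg, map_neg]
      rcases hpm b with hb | hb
      · rw [hb]
        exact Or.inr ⟨rfl, hne⟩
      · rw [hb, neg_neg]
        exact Or.inl ⟨rfl, hne⟩
    have hdvd : A0.index ∣ (Q : Subgroup (L ≃ₐ[ℚ] L)).index := Subgroup.index_dvd_of_le hQA
    rw [hidx] at hdvd
    exact Sylow.not_dvd_index Q hdvd
  have hord : ∀ x ∈ (Q : Subgroup (L ≃ₐ[ℚ] L)), ∃ k : ℕ, orderOf x = 2 ^ k := by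
    intro x hx
    obtain ⟨k, hk⟩ := (IsPGroup.iff_orderOf.1 Q.isPGroup') ⟨x, hx⟩
    exact ⟨k, by rw [← hk, Subgroup.orderOf_mk]⟩
  obtain ⟨n, hn, hn'⟩ := law_of_two_power hf D hD R hK i r hr δ hδ ζ hζ.pow_eq_one h hh
    (hord h hhQ)
  obtain ⟨n', hm, hm'⟩ := law_of_two_power hf D hD R hK i r hr δ hδ ζ hζ.pow_eq_one (h * c)
    (by rw [AlgEquiv.mul_apply, hcδ, hh]) (hord _ (Subgroup.mul_mem _ hhQ hcQ))
  have hcζ : c ζ = ζ⁻¹ := by
    apply i.injective
    rw [hc, map_inv₀]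
    have h1 : ‖i ζ‖ = 1 := by
      have h2 : (i ζ) ^ f = 1 := by rw [← map_pow, hζ.pow_eq_one, map_one]
      exact Complex.norm_eq_one_of_pow_eq_one h2 hf
    rw [Complex.inv_eq_conj h1]
  have hcr : ∀ w, c (r w) = r w := by
    intro w
    apply i.injective
    rw [hc, hr, Complex.conj_ofReal]
  have hrneg : ∀ w, r (-w) = (r w)⁻¹ := by
    intro w
    apply i.injective
    rw [map_inv₀, hr, hr, hRneg]
    simp
  have hnn : ∀ w : W, n' • w = -(n • w) := by
    intro w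
    have h1 : ζ ^ (n' + n) = 1 := by
      rw [AlgEquiv.mul_apply, hcζ, map_inv₀, hn] at hm
      rw [pow_add, ← hm]
      have : ζ ^ n ≠ 0 := pow_ne_zero _ (hζ.ne_zero hf)
      field_simp
    obtain ⟨k, hk⟩ := hζ.dvd_of_pow_eq_one _ h1
    have h2 : (n' + n) • w = 0 := by
      rw [hk, mul_comm, mul_smul, hW, smul_zero]
    rw [add_smul] at h2
    exact eq_neg_of_add_eq_zero_left h2
  refine ⟨h, hh, fun w => ?_⟩
  have h1 := hm' w
  rw [AlgEquiv.mul_apply, AlgEquiv.mul_apply, hcr, hnn, hrneg, ← hn', ← map_inv₀] at h1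
  have h2 : c (h (r w)) = (h (r w))⁻¹ := h.injective h1
  have h3 := congrArg i h2
  rw [hc, map_inv₀] at h3
  have hne0 : i (h (r w)) ≠ 0 := by
    rw [Ne, map_eq_zero, map_eq_zero]
    intro h0
    have h4 := hr w
    rw [h0, map_zero] at h4
    have h5 := hRpos w
    have : R w = 0 := by exact_mod_cast h4.symm
    rw [this] at h5
    exact lt_irrefl _ h5
  have h4 : (starRingEnd ℂ) (i (h (r w))) * i (h (r w)) = 1 := by
    rw [h3, inv_mul_cancel₀ hne0]
  rw [mul_comm, Complex.mul_conj, Complex.normSq_eq_norm_sq] at h4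
  have h5 : ‖i (h (r w))‖ ^ 2 = 1 := by exact_mod_cast h4
  exact (pow_eq_one_iff_of_nonneg (norm_nonneg _) two_ne_zero).1 h5

end Group

section Final

variable {W : Type} [AddCommGroup W]

/-- **Piece B11, the Galois step.** -/
theorem galois_step_abs [Finite W] {f : ℕ} (hf : f ≠ 0) (hW : ∀ w : W, f • w = 0)
    (D : ℕ) (hD : ¬ IsSquare D) (R : W → ℝ) (hRpos : ∀ w, 0 < R w)
    (hRneg : ∀ w, R (-w) = (R w)⁻¹) (hRalg : ∀ w, IsAlgebraic ℚ (R w : ℂ))
    (hK : Kron (D : ℤ) R) :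
    ∃ σ : ℂ →+* ℂ, σ (Real.sqrt D : ℂ) = -(Real.sqrt D : ℂ) ∧ ∀ w, ‖σ (R w : ℂ)‖ = 1 := by
  classical
  have := Fintype.ofFinite W
  -- the finite set of numbers
  let ζ : ℂ := Complex.exp (2 * Real.pi * Complex.I / f)
  have hζ : IsPrimitiveRoot ζ f := Complex.isPrimitiveRoot_exp f hf
  let S : Set ℂ := {((Real.sqrt D : ℝ) : ℂ), ζ} ∪ Set.range (fun w : W => (R w : ℂ))
  have hSfin : S.Finite := (Set.toFinite _).union (Set.finite_range _)
  have hsq : ((Real.sqrt D : ℝ) : ℂ) ^ 2 = (D : ℂ) := by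
    rw [← Complex.ofReal_pow, Real.sq_sqrt (Nat.cast_nonneg D)]; simp
  have hSalg : ∀ x ∈ S, IsIntegral ℚ x := by
    rintro x (hx | ⟨w, rfl⟩)
    · rcases hx with rfl | rfl
      · refine IsIntegral.of_pow (n := 2) (by norm_num) ?_
        rw [hsq]
        have := isIntegral_algebraMap (R := ℚ) (A := ℂ) (x := (D : ℚ))
        simpa using this
      · exact (hζ.isIntegral (Nat.pos_of_ne_zero hf)).tower_top
    · exact (hRalg w).isIntegral
  let q : Polynomial ℚ := ∏ s ∈ hSfin.toFinset, minpoly ℚ s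
  have hq0 : q ≠ 0 := Finset.prod_ne_zero_iff.2 fun s hs =>
    minpoly.ne_zero (hSalg s (hSfin.mem_toFinset.1 hs))
  let M : IntermediateField ℚ ℂ := IntermediateField.adjoin ℚ (q.rootSet ℂ)
  have hSM : ∀ s ∈ S, s ∈ M := by
    intro s hs
    apply IntermediateField.subset_adjoin
    rw [Polynomial.mem_rootSet]
    refine ⟨hq0, ?_⟩
    rw [map_prod]
    exact Finset.prod_eq_zero (hSfin.mem_toFinset.2 hs) (minpoly.aeval ℚ s)
  have hsplit : (q.map (algebraMap ℚ ℂ)).Splits := IsAlgClosed.splits _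
  have hSF : q.IsSplittingField ℚ M := IntermediateField.adjoin_rootSet_isSplittingField hsplit
  have hFD : FiniteDimensional ℚ M := Polynomial.IsSplittingField.finiteDimensional M q
  have hNF : NumberField M := { to_charZero := inferInstance, to_finiteDimensional := hFD }
  have hN : Normal ℚ M := Normal.of_isSplittingField q
  have hG : IsGalois ℚ M := { to_isSeparable := inferInstance, to_normal := hN }
  let i : M →+* ℂ := algebraMap M ℂ
  let c : M ≃ₐ[ℚ] M := (Complex.conjAe.restrictScalars ℚ).restrictNormal M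
  have hc : ∀ x, i (c x) = (starRingEnd ℂ) (i x) := fun x =>
    AlgEquiv.restrictNormal_commutes (Complex.conjAe.restrictScalars ℚ) M x
  let r : W → M := fun w => ⟨(R w : ℂ), hSM _ (Or.inr ⟨w, rfl⟩)⟩
  have hr : ∀ w, i (r w) = (R w : ℂ) := fun w => rfl
  let δ : M := ⟨((Real.sqrt D : ℝ) : ℂ), hSM _ (Or.inl (Or.inl rfl))⟩
  let ζ' : M := ⟨ζ, hSM _ (Or.inl (Or.inr rfl))⟩
  have hδ : δ ^ 2 = ((D : ℤ) : M) := by
    apply i.injective
    rw [map_pow]
    show ((Real.sqrt D : ℝ) : ℂ) ^ 2 = _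
    rw [hsq]
    simp
  have hcδ : c δ = δ := by
    apply i.injective
    rw [hc]
    exact Complex.conj_ofReal _
  have hδQ : δ ∉ (⊥ : IntermediateField ℚ M) := by
    intro hmem
    obtain ⟨x, hx⟩ := IntermediateField.mem_bot.1 hmem
    apply hD
    have h1 : (x : ℂ) = ((Real.sqrt D : ℝ) : ℂ) := by
      have := congrArg i hx
      simpa [i] using this
    have h2 : (x : ℝ) = Real.sqrt D := by exact_mod_cast h1
    by_contra hns
    exact (irrational_sqrt_natCast_iff.2 hns) ⟨x, h2⟩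
  have hζ' : IsPrimitiveRoot ζ' f := by
    refine IsPrimitiveRoot.of_map_of_injective (f := i) ?_ i.injective
    exact hζ
  obtain ⟨h, hh, hh'⟩ := galois_core hf hW (D : ℤ) (by
    rintro h0
    apply hD
    have : D = 0 := by exact_mod_cast h0
    rw [this]; exact ⟨0, rfl⟩) R hRpos hRneg hK i c hc r hr δ hδ hcδ hδQ ζ' hζ'
  obtain ⟨σ, hσ⟩ := exists_extend_aut i h
  refine ⟨σ, ?_, fun w => ?_⟩
  · have h1 := hσ δ
    rw [hh, map_neg] at h1
    exact h1
  · have h1 := hσ (r w)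
    rw [hr] at h1
    rw [h1]
    exact hh' w

end Final

end Zau
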