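import Pool.Agent.Lib_zau.Tower
import Pool.Agent.Lib_zau.Gal

/-!
# Zauner (MP_1c78a5_mp), B11: the Galois step in the form of the skeleton
-/

set_option autoImplicit false

namespace Zau

/-- the point `(a/d, b/d)` -/
noncomputable def pt11 (d : ℕ) (w : ZMod d × ZMod d) : ℚ × ℚ :=
  ((w.1.val : ℚ) / d, (w.2.val : ℚ) / d)

theorem pt11_int {d : ℕ} [NeZero d] (a b : ℤ) :
    ∃ z ∈ Lam, (((a : ℚ) / d, (b : ℚ) / d) : ℚ × ℚ) = pt11 d ((a : ZMod d), (b : ZMod d)) + z := by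
  have hd0 : (d : ℚ) ≠ 0 := by exact_mod_cast (NeZero.ne d)
  have key : ∀ a : ℤ, ∃ k : ℤ, (a : ℚ) / d = ((a : ZMod d).val : ℚ) / d + k := by
    intro a
    have h1 : ((a : ZMod d).val : ℤ) = a % d := ZMod.val_intCast a
    refine ⟨a / d, ?_⟩
    have h2 : (a : ℤ) = ((a : ZMod d).val : ℤ) + d * (a / d) := by
      rw [h1]; exact (Int.emod_add_mul_ediv a d).symm
    have h3 : (a : ℚ) = ((a : ZMod d).val : ℚ) + d * ((a / d : ℤ) : ℚ) := by exact_mod_cast h2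
    field_simp
    linarith
  obtain ⟨k1, hk1⟩ := key a
  obtain ⟨k2, hk2⟩ := key b
  refine ⟨((k1 : ℚ), (k2 : ℚ)), ⟨k1, k2, rfl⟩, ?_⟩
  unfold pt11
  ext
  · simpa using hk1
  · simpa using hk2

theorem not_isSquare_sub_four {n : ℤ} (hn : 3 ≤ n) {D : ℕ} (hD : (D : ℤ) = n ^ 2 - 4) :
    ¬ IsSquare D := by
  rintro ⟨a, ha⟩
  have h1 : (a : ℤ) * a = n ^ 2 - 4 := by rw [← hD, ha]; push_cast; ring
  have ha0 : (0 : ℤ) ≤ a := Int.natCast_nonneg a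
  have h2 : (a : ℤ) < n := by nlinarith
  have h3 : n - 1 < (a : ℤ) := by nlinarith
  omega

/-- B11: the Galois step. -/
theorem galois_step' {n : ℤ} (hn : 3 ≤ n) (d : ℕ) (hd : (d : ℤ) = n + 1) (R : ℚ × ℚ → ℝ)
    (hpos : ∀ x, 0 < R x) (hper : ∀ x, ∀ z ∈ Lam, R (x + z) = R x) (hodd : ∀ x, R (-x) = (R x)⁻¹)
    (halg : ∀ x : ℚ × ℚ, d • x ∈ Lam → IsAlgebraic ℚ (R x : ℂ))
    (hKC : ∀ l : ℕ, l.Prime → l ≠ 2 → ¬ l ∣ d → ¬ IsSquare ((n ^ 2 - 4 : ℤ) : ZMod l) →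
      ∀ (Γ₀ : Type) [LinearOrderedCommGroupWithZero Γ₀] (v : Valuation ℂ Γ₀), v (l : ℂ) < 1 →
      ∀ x : ℚ × ℚ, d • x ∈ Lam →
        v (R x : ℂ) = 1 ∧ v ((R (l • x) : ℂ) - (R x : ℂ) ^ (l ^ 2)) < 1) :
    ∃ σ : ℂ →+* ℂ, ∀ x : ℚ × ℚ, d • x ∈ Lam → ‖σ (R x : ℂ)‖ = 1 := by
  have hd0 : d ≠ 0 := by omega
  have : NeZero d := ⟨hd0⟩
  have hdQ : (d : ℚ) ≠ 0 := by exact_mod_cast hd0
  obtain ⟨D, hD⟩ : ∃ D : ℕ, (D : ℤ) = n ^ 2 - 4 :=
    ⟨(n ^ 2 - 4).toNat, Int.toNat_of_nonneg (by nlinarith)⟩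
  have hmem : ∀ w : ZMod d × ZMod d, d • pt11 d w ∈ Lam := by
    intro w
    refine ⟨w.1.val, w.2.val, ?_⟩
    unfold pt11
    ext
    · simp only [Prod.smul_mk, nsmul_eq_mul]
      push_cast
      field_simp
    · simp only [Prod.smul_mk, nsmul_eq_mul]
      push_cast
      field_simp
  have hnsmul : ∀ (l : ℕ) (w : ZMod d × ZMod d), R (pt11 d (l • w)) = R (l • pt11 d w) := by
    intro l w
    obtain ⟨z, hz, h1⟩ := pt11_int (d := d) ((l : ℤ) * w.1.val) ((l : ℤ) * w.2.val)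
    have h2 : (l • pt11 d w) = (((((l : ℤ) * w.1.val : ℤ) : ℚ) / d,
        (((l : ℤ) * w.2.val : ℤ) : ℚ) / d) : ℚ × ℚ) := by
      unfold pt11
      ext
      · simp only [Prod.smul_mk, nsmul_eq_mul]
        push_cast
        ring
      · simp only [Prod.smul_mk, nsmul_eq_mul]
        push_cast
        ring
    have h3 : ((((l : ℤ) * w.1.val : ℤ) : ZMod d), (((l : ℤ) * w.2.val : ℤ) : ZMod d)) =
        l • w := by
      ext
      · simp
      · simp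
    rw [h2, h1, hper _ z hz, h3]
  have hneg : ∀ w : ZMod d × ZMod d, R (pt11 d (-w)) = (R (pt11 d w))⁻¹ := by
    intro w
    obtain ⟨z, hz, h1⟩ := pt11_int (d := d) (-(w.1.val : ℤ)) (-(w.2.val : ℤ))
    have h2 : (-pt11 d w) = ((((-(w.1.val : ℤ) : ℤ) : ℚ) / d,
        ((-(w.2.val : ℤ) : ℤ) : ℚ) / d) : ℚ × ℚ) := by
      unfold pt11
      ext
      · simp only [Prod.fst_neg]
        push_cast
        ring
      · simp only [Prod.snd_neg]
        push_cast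
        ring
    have h3 : (((-(w.1.val : ℤ) : ℤ) : ZMod d), ((-(w.2.val : ℤ) : ℤ) : ZMod d)) = -w := by
      ext
      · simp
      · simp
    rw [← hodd, h2, h1, hper _ z hz, h3]
  obtain ⟨σ, -, hσ⟩ := galois_step_abs (W := ZMod d × ZMod d) (f := d) hd0
    (fun w => by ext <;> simp) D (not_isSquare_sub_four hn hD) (fun w => R (pt11 d w))
    (fun w => hpos _) hneg (fun w => halg _ (hmem w)) (by
      refine ⟨d + 2, fun l hl hlt hns Γ₀ _ v hv w => ?_⟩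
      have hldvd : ¬ l ∣ d := fun h => by
        have := Nat.le_of_dvd (Nat.pos_of_ne_zero hd0) h
        omega
      have h1 := (hKC l hl (by omega) hldvd (by rwa [← hD]) Γ₀ v hv (pt11 d w) (hmem w)).2
      show v ((R (pt11 d (l • w)) : ℂ) - (R (pt11 d w) : ℂ) ^ (l ^ 2)) < 1
      rw [hnsmul]
      exact h1)
  refine ⟨σ, fun x hx => ?_⟩
  obtain ⟨a, b, hab⟩ := hx
  have hx' : x = (((a : ℚ) / d, (b : ℚ) / d) : ℚ × ℚ) := by
    obtain ⟨x1, x2⟩ := x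
    simp only [Prod.smul_mk, nsmul_eq_mul, Prod.mk.injEq] at hab
    obtain ⟨h1, h2⟩ := hab
    ext
    · simp only
      rw [eq_div_iff hdQ]
      linarith
    · simp only
      rw [eq_div_iff hdQ]
      linarith
  obtain ⟨z, hz, h1⟩ := pt11_int (d := d) a b
  rw [hx', h1, hper _ z hz]
  exact hσ _

end Zau
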