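import Pool.Agent.Lib_zau.CycLat
import Mathlib.NumberTheory.LSeries.PrimesInAP

/-!
MP_1c78a5_mp (Zauner), file B8: a basis `l0, l1` of `L = ℤ ^ 2 + ℤ c0`, `c0` of order `l ^ j`, with
`l0 = (x, y) / l ^ j` totally positive, and the matrix of `E ^ K` in this basis.
-/

set_option autoImplicit false

namespace Zau

/-- `ℚ × ℚ` with `E (x, y) = (-y, x + n y)` -/
def latQ (n : ℤ) : ELat (ℚ × ℚ) where
  A := AddMonoidHom.mk' (fun v => (-v.2, v.1 + n * v.2)) (by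
    intro x y
    ext
    · simp only [Prod.fst_add, Prod.snd_add]; ring
    · simp only [Prod.fst_add, Prod.snd_add]; ring)
  e := (1, 0)
  n := n
  hA v := by
    have h1 : n • ((-v.2, v.1 + n * v.2) : ℚ × ℚ) = ((n : ℚ) * -v.2, (n : ℚ) * (v.1 + n * v.2)) := by
      rw [Prod.smul_mk, zsmul_eq_mul, zsmul_eq_mul]
    ext
    · simp only [AddMonoidHom.mk'_apply, h1, Prod.fst_sub]; ring
    · simp only [AddMonoidHom.mk'_apply, h1, Prod.snd_sub]; ring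
  ind i j h := by
    rw [Prod.ext_iff] at h
    simpa using h

theorem latQ_A (n : ℤ) (v : ℚ × ℚ) : (latQ n).A v = (-v.2, v.1 + n * v.2) := rfl

theorem latQ_io (n : ℤ) (x : ℤ × ℤ) : (latQ n).io x = ((x.1 : ℚ), (x.2 : ℚ)) := by
  rw [ELat.io_apply, latQ_A]
  ext
  · simp [latQ]
  · simp [latQ]

theorem mem_latQ_L0 (n : ℤ) (v : ℚ × ℚ) :
    v ∈ (latQ n).L0 ↔ ∃ i j : ℤ, v = ((i : ℚ), (j : ℚ)) := by
  constructor
  · rintro ⟨x, rfl⟩
    exact ⟨x.1, x.2, latQ_io n x⟩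
  · rintro ⟨i, j, rfl⟩
    exact ⟨(i, j), latQ_io n (i, j)⟩

/-- coprime positive representatives modulo `l ^ j` -/
theorem exists_coprime_rep {l : ℕ} (hp : l.Prime) (j : ℕ) {a b : ℤ}
    (h : ¬ ((l : ℤ) ∣ a ∧ (l : ℤ) ∣ b)) :
    ∃ x y : ℤ, 0 < x ∧ 0 < y ∧ IsCoprime x y ∧ (l : ℤ) ^ j ∣ x - a ∧ (l : ℤ) ^ j ∣ y - b := by
  have hlp : Prime (l : ℤ) := Nat.prime_iff_prime_int.1 hp
  have hq : 0 < l ^ j := pow_pos hp.pos j
  -- the asymmetric statement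
  have key : ∀ a b : ℤ, ¬ (l : ℤ) ∣ b → ∃ x y : ℤ, 0 < x ∧ 0 < y ∧ IsCoprime x y ∧
      (l : ℤ) ^ j ∣ x - a ∧ (l : ℤ) ^ j ∣ y - b := by
    intro a b hb
    have : NeZero (l ^ j) := ⟨hq.ne'⟩
    have hcop : IsCoprime b ((l ^ j : ℕ) : ℤ) := by
      push_cast
      exact (((Prime.coprime_iff_not_dvd hlp).2 hb).pow_left).symm
    have hu : IsUnit ((b : ℤ) : ZMod (l ^ j)) := by
      obtain ⟨r, t, hrt⟩ := hcop
      refine IsUnit.of_mul_eq_one ((r : ℤ) : ZMod (l ^ j)) ?_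
      have h1 : (((r * b + t * ((l ^ j : ℕ) : ℤ) : ℤ)) : ZMod (l ^ j)) = ((1 : ℤ) : ZMod (l ^ j)) := by
        rw [hrt]
      have h2 : (((l ^ j : ℕ) : ℤ) : ZMod (l ^ j)) = 0 := by
        rw [Int.cast_natCast]; exact ZMod.natCast_self _
      rw [Int.cast_add, Int.cast_mul, Int.cast_mul, h2, mul_zero, add_zero, Int.cast_one] at h1
      rw [mul_comm]; exact h1
    obtain ⟨x, hx0, hx1⟩ : ∃ x : ℤ, 0 < x ∧ (l : ℤ) ^ j ∣ x - a := by
      refine ⟨a + (l : ℤ) ^ j * (|a| + 1), ?_, ?_⟩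
      · have h1 : (1 : ℤ) ≤ (l : ℤ) ^ j := by exact_mod_cast hq
        have h2 := neg_abs_le a
        have h3 : |a| + 1 ≤ (l : ℤ) ^ j * (|a| + 1) := le_mul_of_one_le_left (by positivity) h1
        linarith
      · exact ⟨|a| + 1, by ring⟩
    obtain ⟨y, hy1, hy2, hy3⟩ := Nat.forall_exists_prime_gt_and_eq_mod hu x.toNat
    refine ⟨x, y, hx0, by exact_mod_cast hy2.pos, ?_, hx1, ?_⟩
    · have hyp : Prime (y : ℤ) := Nat.prime_iff_prime_int.1 hy2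
      refine ((Prime.coprime_iff_not_dvd hyp).2 ?_).symm
      intro hdvd
      have := Int.le_of_dvd hx0 hdvd
      omega
    · have h1 : ((y : ℤ) : ZMod (l ^ j)) = ((b : ℤ) : ZMod (l ^ j)) := by
        rw [← hy3]; push_cast; rfl
      have h2 := (ZMod.intCast_eq_intCast_iff_dvd_sub _ _ _).1 h1.symm
      exact_mod_cast h2
  by_cases hb : (l : ℤ) ∣ b
  · have ha : ¬ (l : ℤ) ∣ a := fun ha => h ⟨ha, hb⟩
    obtain ⟨y, x, h1, h2, h3, h4, h5⟩ := key b a ha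
    exact ⟨x, y, h2, h1, h3.symm, h5, h4⟩
  · exact key a b hb

/-- A basis `l0 = (x, y) / l ^ j`, `l1 = (x1, y1)` of `L = ℤ ^ 2 + ℤ c0` and the matrix of `E ^ K`. -/
structure BasB8 (n : ℤ) (l j K : ℕ) (c0 : ℚ × ℚ) where
  x : ℤ
  y : ℤ
  x1 : ℤ
  y1 : ℤ
  N : ℕ
  A : ℤ
  B : ℤ
  U : ℤ
  hx : 0 < x
  hy : 0 < y
  det : x * y1 - y * x1 = 1
  hN : 0 < N
  lN : ¬ l ∣ N
  hdet : B * N = A * U + 1
  tr : A - U = 2 * (pq n K).1 + n * (pq n K).2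
  cong : (((x : ℚ) / (l : ℚ) ^ j, (y : ℚ) / (l : ℚ) ^ j) : ℚ × ℚ) - c0 ∈ (latQ n).L0
  span : ∀ w : ℚ × ℚ, w ∈ (latQ n).L0 ⊔ AddSubgroup.zmultiples c0 ↔
    ∃ i k : ℤ, w = i • (((x : ℚ) / (l : ℚ) ^ j, (y : ℚ) / (l : ℚ) ^ j) : ℚ × ℚ) +
      k • (((x1 : ℚ), (y1 : ℚ)) : ℚ × ℚ)
  E0 : (latQ n).A^[K] ((x : ℚ) / (l : ℚ) ^ j, (y : ℚ) / (l : ℚ) ^ j) =
    (-U) • (((x : ℚ) / (l : ℚ) ^ j, (y : ℚ) / (l : ℚ) ^ j) : ℚ × ℚ) +
      N • (((x1 : ℚ), (y1 : ℚ)) : ℚ × ℚ)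
  E1 : (latQ n).A^[K] ((x1 : ℚ), (y1 : ℚ)) =
    (-B) • (((x : ℚ) / (l : ℚ) ^ j, (y : ℚ) / (l : ℚ) ^ j) : ℚ × ℚ) +
      A • (((x1 : ℚ), (y1 : ℚ)) : ℚ × ℚ)

/-- trace of `ε ^ K` is at least `3` for `n ≥ 3`, `K ≥ 1` -/
theorem trace_ge {n : ℤ} (hn : 3 ≤ n) {K : ℕ} (hK : 0 < K) : 3 ≤ 2 * (pq n K).1 + n * (pq n K).2 := by
  have hQ := pq_snd_pos hn hK
  have h1 := pq_norm n K
  have h2 : (2 * (pq n K).1 + n * (pq n K).2) ^ 2 = (n ^ 2 - 4) * (pq n K).2 ^ 2 + 4 := by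
    linear_combination 4 * h1
  have h3 : 0 ≤ 2 * (pq n K).1 + n * (pq n K).2 := by
    have h4 : ∀ K : ℕ, 0 ≤ 2 * (pq n (K + 1)).1 + n * (pq n (K + 1)).2 := by
      intro K
      have h5 := pq_pos hn K
      have h6 : (pq n (K + 1)).1 = -(pq n K).2 := rfl
      rw [h6]
      have h7 : 0 ≤ (n - 2) * (pq n (K + 1)).2 := mul_nonneg (by linarith) (by linarith)
      linarith
    obtain ⟨i, rfl⟩ : ∃ i, K = i + 1 := ⟨K - 1, by omega⟩
    exact h4 i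
  have h4 : 9 ≤ (2 * (pq n K).1 + n * (pq n K).2) ^ 2 := by
    rw [h2]
    have h5 : 5 ≤ n ^ 2 - 4 := by
      have := mul_nonneg (show 0 ≤ n - 3 by linarith) (show 0 ≤ n + 3 by linarith)
      linarith
    have h6 : 1 ≤ (pq n K).2 ^ 2 := by
      have := mul_nonneg (show 0 ≤ (pq n K).2 - 1 by linarith) (show 0 ≤ (pq n K).2 + 1 by linarith)
      linarith
    have h7 := mul_nonneg (show 0 ≤ n ^ 2 - 4 - 5 by linarith) (show 0 ≤ (pq n K).2 ^ 2 - 1 by linarith)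
    linarith
  by_contra h5
  push Not at h5
  have h6 : 2 * (pq n K).1 + n * (pq n K).2 ≤ 2 := by linarith
  have h7 := mul_nonneg h3 (show 0 ≤ 2 - (2 * (pq n K).1 + n * (pq n K).2) by linarith)
  have h8 : (2 * (pq n K).1 + n * (pq n K).2) ^ 2 ≤ 4 := by
    have : (2 * (pq n K).1 + n * (pq n K).2) ^ 2 = 2 * (2 * (pq n K).1 + n * (pq n K).2) -
      (2 * (pq n K).1 + n * (pq n K).2) * (2 - (2 * (pq n K).1 + n * (pq n K).2)) := by ring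
    rw [this]
    linarith
  linarith

private theorem zs (k : ℤ) (a b : ℚ) : k • ((a, b) : ℚ × ℚ) = ((k : ℚ) * a, (k : ℚ) * b) := by
  rw [Prod.smul_mk, zsmul_eq_mul, zsmul_eq_mul]

private theorem ns (k : ℕ) (a b : ℚ) : k • ((a, b) : ℚ × ℚ) = ((k : ℚ) * a, (k : ℚ) * b) := by
  rw [Prod.smul_mk, nsmul_eq_mul, nsmul_eq_mul]

/-- Piece B8. -/
theorem exists_basB8 {n : ℤ} (hn : 3 ≤ n) {l : ℕ} (hp : l.Prime) {j : ℕ} (hj : 0 < j)
    (hin : ∀ x y : ℤ, (l : ℤ) ∣ x ^ 2 + n * x * y + y ^ 2 → (l : ℤ) ∣ x ∧ (l : ℤ) ∣ y)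
    {K : ℕ} (hK : 0 < K) {c d : ℤ} (hc : (pq n K).1 - 1 = (l : ℤ) ^ j * c)
    (hd : (pq n K).2 = (l : ℤ) ^ j * d) (hld : ¬ (l : ℤ) ∣ d) (c0 : ℚ × ℚ)
    (hc0 : addOrderOf (QuotientAddGroup.mk c0 : (ℚ × ℚ) ⧸ (latQ n).L0) = l ^ j) :
    Nonempty (BasB8 n l j K c0) := by
  have D : CycDat (latQ n) l j c d c0 := CycDat.of_order hp hj hin hld hc0
  have hlj : ((l : ℚ) ^ j) ≠ 0 := pow_ne_zero _ (by exact_mod_cast hp.ne_zero)
  have hljZ : (0 : ℤ) < (l : ℤ) ^ j := by exact_mod_cast pow_pos hp.pos j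
  -- `l ^ j c0 = (a, b)`
  obtain ⟨a, b, hab⟩ := (mem_latQ_L0 n _).1 D.hh
  have hprim : ¬ ((l : ℤ) ∣ a ∧ (l : ℤ) ∣ b) := by
    rintro ⟨⟨a', rfl⟩, ⟨b', rfl⟩⟩
    refine D.prim ((a' : ℚ), (b' : ℚ)) ((mem_latQ_L0 n _).2 ⟨a', b', rfl⟩) ?_
    rw [hab, Prod.smul_mk, zsmul_eq_mul, zsmul_eq_mul]
    push_cast
    rfl
  obtain ⟨x, y, hx, hy, hcop, hxa, hyb⟩ := exists_coprime_rep hp j hprim
  obtain ⟨r, s, hrs⟩ := hcop
  obtain ⟨x1, hx1⟩ : ∃ x1 : ℤ, x1 = -s := ⟨_, rfl⟩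
  obtain ⟨y1, hy1⟩ : ∃ y1 : ℤ, y1 = r := ⟨_, rfl⟩
  have hdet : x * y1 - y * x1 = 1 := by rw [hx1, hy1]; linear_combination hrs
  have hdpos : 0 < d := by
    have h1 := pq_snd_pos hn hK
    rw [hd] at h1
    exact (mul_pos_iff_of_pos_left hljZ).1 h1
  have hform : 0 < x ^ 2 + n * x * y + y ^ 2 := by
    have h1 : 0 < n * x * y := mul_pos (mul_pos (by linarith) hx) hy
    have h2 : 0 < x ^ 2 := pow_pos hx 2
    have h3 : 0 < y ^ 2 := pow_pos hy 2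
    linarith
  -- `l ∤ x ^ 2 + n x y + y ^ 2`
  have hlform : ¬ (l : ℤ) ∣ x ^ 2 + n * x * y + y ^ 2 := by
    intro h1
    obtain ⟨h2, h3⟩ := hin x y h1
    have hlq : (l : ℤ) ∣ (l : ℤ) ^ j := dvd_pow_self _ hj.ne'
    apply hprim
    constructor
    · have := dvd_sub h2 (hlq.trans hxa)
      have e : x - (x - a) = a := by ring
      rwa [e] at this
    · have := dvd_sub h3 (hlq.trans hyb)
      have e : y - (y - b) = b := by ring
      rwa [e] at this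
  obtain ⟨q, hq⟩ : ∃ q : ℤ, q = (l : ℤ) ^ j := ⟨_, rfl⟩
  rw [← hq] at hc hd hxa hyb hljZ
  have hqQ : ((q : ℤ) : ℚ) = (l : ℚ) ^ j := by rw [hq]; push_cast; rfl
  have hq0 : (q : ℚ) ≠ 0 := by rw [hqQ]; exact hlj
  obtain ⟨al, hal⟩ : ∃ al : ℤ, al = (c * x - d * y) * y1 - (c * y + d * (x + n * y)) * x1 := ⟨_, rfl⟩
  obtain ⟨be, hbe⟩ : ∃ be : ℤ, be = x * (c * y + d * (x + n * y)) - y * (c * x - d * y) := ⟨_, rfl⟩
  obtain ⟨al1, hal1⟩ : ∃ al1 : ℤ, al1 = (c * x1 - d * y1) * y1 - (c * y1 + d * (x1 + n * y1)) * x1 :=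
    ⟨_, rfl⟩
  obtain ⟨be1, hbe1⟩ : ∃ be1 : ℤ, be1 = x * (c * y1 + d * (x1 + n * y1)) - y * (c * x1 - d * y1) :=
    ⟨_, rfl⟩
  have hbe' : be = d * (x ^ 2 + n * x * y + y ^ 2) := by rw [hbe]; ring
  have hbepos : 0 < be := by rw [hbe']; exact mul_pos hdpos hform
  have hN : ((be.toNat : ℕ) : ℤ) = be := Int.toNat_of_nonneg hbepos.le
  have e1 : al + be1 = 2 * c + n * d := by
    rw [hal, hbe1]; linear_combination (2 * c + n * d) * hdet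
  have e2 : al * be1 - al1 * be = c ^ 2 + n * c * d + d ^ 2 := by
    rw [hal, hbe1, hal1, hbe]
    linear_combination ((c ^ 2 + n * c * d + d ^ 2) * (x * y1 - y * x1 + 1)) * hdet
  have hP : (pq n K).1 = 1 + q * c := by linarith
  have e3 : q * (2 * c + n * d) + q ^ 2 * (c ^ 2 + n * c * d + d ^ 2) = 0 := by
    have h1 := pq_norm n K
    rw [hP, hd] at h1
    linear_combination h1
  obtain ⟨u, hu⟩ := hxa
  obtain ⟨v, hv⟩ := hyb
  -- `c0 = l0 - (u, v)`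
  have hc0' : c0 = (((x : ℚ) / (l : ℚ) ^ j, (y : ℚ) / (l : ℚ) ^ j) : ℚ × ℚ) - ((u : ℚ), (v : ℚ)) := by
    have h1 : (q : ℚ) * c0.1 = a := by
      have := congrArg Prod.fst hab
      rw [Prod.smul_fst, zsmul_eq_mul, ← hq] at this
      exact this
    have h2 : (q : ℚ) * c0.2 = b := by
      have := congrArg Prod.snd hab
      rw [Prod.smul_snd, zsmul_eq_mul, ← hq] at this
      exact this
    have h3 : (x : ℚ) - a = q * u := by exact_mod_cast hu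
    have h4 : (y : ℚ) - b = q * v := by exact_mod_cast hv
    rw [← hqQ]
    ext
    · simp only [Prod.fst_sub]
      field_simp
      linear_combination h1 - h3
    · simp only [Prod.snd_sub]
      field_simp
      linear_combination h2 - h4
  have hdetQ : (x : ℚ) * y1 - y * x1 = 1 := by exact_mod_cast hdet
  have hPQ : ((pq n K).1 : ℚ) = 1 + q * c := by rw [hP]; push_cast; rfl
  have hQQ : ((pq n K).2 : ℚ) = q * d := by rw [hd]; push_cast; rfl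
  refine ⟨{ x := x, y := y, x1 := x1, y1 := y1, N := be.toNat, A := 1 + q * be1, B := -(q ^ 2 * al1), U := -(1 + al * q), hx := hx, hy := hy, det := hdet, hN := ?_, lN := ?_, hdet := ?_, tr := ?_, cong := ?_, span := ?_, E0 := ?_, E1 := ?_ }⟩
  · omega
  · intro h1
    have h2 : (l : ℤ) ∣ be := by rw [← hN]; exact_mod_cast h1
    rw [hbe'] at h2
    rcases D.l_prime.dvd_or_dvd h2 with h3 | h3
    · exact hld h3
    · exact hlform h3
  · rw [hN]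
    linear_combination q * e1 + q ^ 2 * e2 + e3
  · rw [hP, hd]
    linear_combination q * e1
  · rw [mem_latQ_L0]
    refine ⟨u, v, ?_⟩
    rw [hc0']; abel
  · intro w
    rw [AddSubgroup.mem_sup]
    constructor
    · rintro ⟨z, hz, z', hz', rfl⟩
      obtain ⟨i, k, rfl⟩ := (mem_latQ_L0 n _).1 hz
      obtain ⟨m, rfl⟩ := AddSubgroup.mem_zmultiples_iff.1 hz'
      refine ⟨m + q * ((i - m * u) * y1 - (k - m * v) * x1), x * (k - m * v) - y * (i - m * u), ?_⟩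
      rw [hc0', ← hqQ]
      simp only [zs, Prod.mk_add_mk, Prod.mk_sub_mk, Prod.mk.injEq]
      push_cast
      constructor
      · field_simp
        linear_combination (-(q * (i - m * u)) : ℚ) * hdetQ
      · field_simp
        linear_combination (-(q * (k - m * v)) : ℚ) * hdetQ
    · rintro ⟨i, k, rfl⟩
      refine ⟨((i * u + k * x1 : ℤ), (i * v + k * y1 : ℤ)), (mem_latQ_L0 n _).2 ⟨_, _, rfl⟩, i • c0,
        AddSubgroup.mem_zmultiples_iff.2 ⟨i, rfl⟩, ?_⟩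
      rw [hc0']
      simp only [zs, Prod.mk_add_mk, Prod.mk_sub_mk, Prod.mk.injEq]
      push_cast
      constructor
      · ring
      · ring
  · have hNQ : ((be.toNat : ℕ) : ℚ) = be := by exact_mod_cast hN
    rw [ELat.iterate_A, latQ_A, ← hqQ]
    show (pq n K).1 • _ + (pq n K).2 • _ = _
    simp only [zs, ns, Prod.mk_add_mk, Prod.mk.injEq]
    rw [hPQ, hQQ, hNQ, hbe, hal]
    push_cast
    constructor
    · field_simp
      linear_combination (-(q * (c * x - d * y)) : ℚ) * hdetQ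
    · field_simp
      linear_combination (-(q * (c * y + d * (x + n * y))) : ℚ) * hdetQ
  · rw [ELat.iterate_A, latQ_A, ← hqQ]
    show (pq n K).1 • _ + (pq n K).2 • _ = _
    simp only [zs, ns, Prod.mk_add_mk, Prod.mk.injEq]
    rw [hPQ, hQQ, hbe1, hal1]
    push_cast
    constructor
    · field_simp
      linear_combination (-(q * (c * x1 - d * y1)) : ℚ) * hdetQ
    · field_simp
      linear_combination (-(q * (c * y1 + d * (x1 + n * y1))) : ℚ) * hdetQ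

end Zau
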