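import Pool.Agent.Lib_zau.CycLat

/-!
# Zauner: the basis of a cyclic superlattice (block B8)

`V = ℚ × ℚ`, `(x, y)` stands for `x + y ε`, `ε ^ 2 = n ε - 1`, `Λ = ℤ × ℤ`, `L = Λ + ℤ η` with `η` of
order `l ^ j` modulo `Λ`, `l` an odd prime with `n ^ 2 - 4` not a square modulo `l`, and
`ω = ε ^ K = 1 + l ^ j (c + d ε)`. We find an oriented basis `l0, l1` of `L` with `l0` in the positive
quadrant and `ω l0 = - U l0 + N l1`, `N > 0` prime to `l`.
-/

set_option autoImplicit false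

namespace Zau.Bas

/-- A positive coprime representative. -/
theorem exists_coprime_rep {l : ℕ} (hl : l.Prime) (j : ℕ) {x y : ℤ}
    (h : ¬ ((l : ℤ) ∣ x ∧ (l : ℤ) ∣ y)) :
    ∃ x' y' : ℤ, 0 < x' ∧ 0 < y' ∧ IsCoprime x' y' ∧
      (l : ℤ) ^ j ∣ x' - x ∧ (l : ℤ) ^ j ∣ y' - y := by
  classical
  have hl0 : (0 : ℤ) < l := by exact_mod_cast hl.pos
  set M : ℤ := (l : ℤ) ^ j with hMd
  have hM : 0 < M := pow_pos hl0 j
  set x' : ℤ := x % M + M with hx'
  have hx0 : 0 < x' := by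
    have := Int.emod_nonneg x hM.ne'
    omega
  have hxx : M ∣ x' - x := by
    refine ⟨1 - x / M, ?_⟩
    have := Int.emod_add_mul_ediv x M
    rw [hx']
    linarith
  set t : ℤ := ∏ p ∈ x'.natAbs.primeFactors.filter (fun p : ℕ => ¬ (p : ℤ) ∣ y), (p : ℤ) with ht
  set y0 : ℤ := y + M * t with hy0
  have hcop : IsCoprime x' y0 := by
    rw [Int.isCoprime_iff_gcd_eq_one]
    by_contra hne
    obtain ⟨p, hp, hpd⟩ := Nat.exists_prime_and_dvd hne
    have hpx : (p : ℤ) ∣ x' := (Int.natCast_dvd_natCast.2 hpd).trans (Int.gcd_dvd_left _ _)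
    have hpy : (p : ℤ) ∣ y0 := (Int.natCast_dvd_natCast.2 hpd).trans (Int.gcd_dvd_right _ _)
    have hpp : Prime (p : ℤ) := Nat.prime_iff_prime_int.1 hp
    have hmem : p ∈ x'.natAbs.primeFactors := by
      rw [Nat.mem_primeFactors]
      exact ⟨hp, Int.natCast_dvd.1 hpx, Int.natAbs_ne_zero.2 hx0.ne'⟩
    by_cases hy : (p : ℤ) ∣ y
    · have h1 : (p : ℤ) ∣ M * t := by
        have := dvd_sub hpy hy
        rwa [hy0, add_sub_cancel_left] at this
      rcases hpp.dvd_or_dvd h1 with h2 | h2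
      · have h3 : (p : ℤ) ∣ (l : ℤ) := hpp.dvd_of_dvd_pow h2
        have h4 : p = l := (Nat.prime_dvd_prime_iff_eq hp hl).1 (Int.natCast_dvd_natCast.1 h3)
        subst h4
        apply h
        refine ⟨?_, hy⟩
        have h5 : (p : ℤ) ∣ x' - x := h2.trans hxx
        have h6 := dvd_sub hpx h5
        rwa [sub_sub_cancel] at h6
      · rw [ht] at h2
        obtain ⟨q, hq, hqd⟩ := (Prime.dvd_finsetProd_iff hpp _).1 h2
        rw [Finset.mem_filter, Nat.mem_primeFactors] at hq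
        have h3 : p = q := (Nat.prime_dvd_prime_iff_eq hp hq.1.1).1 (Int.natCast_dvd_natCast.1 hqd)
        subst h3
        exact hq.2 hy
    · have h1 : (p : ℤ) ∣ t := by
        rw [ht]
        exact Finset.dvd_prod_of_mem _ (Finset.mem_filter.2 ⟨hmem, hy⟩)
      apply hy
      have h2 : (p : ℤ) ∣ M * t := h1.mul_left M
      have h3 := dvd_sub hpy h2
      rwa [hy0, add_sub_cancel_right] at h3
  refine ⟨x', y0 + x' * (M * (|y0| + 1)), hx0, ?_, ?_, hxx, ?_⟩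
  · have h1 : 1 ≤ x' * M := by nlinarith
    have h2 := neg_abs_le y0
    have h3 := abs_nonneg y0
    nlinarith
  · exact IsCoprime.add_mul_left_right hcop _
  · refine ⟨t + x' * (|y0| + 1), ?_⟩
    rw [hy0]
    ring

theorem trace_ge {n : ℤ} (hn : 3 ≤ n) {K : ℕ} (hK : 0 < K) :
    3 ≤ 2 * (pq n K).1 + n * (pq n K).2 := by
  obtain ⟨i, rfl⟩ : ∃ i, K = i + 1 := ⟨K - 1, by omega⟩
  obtain ⟨h1, h2⟩ := pq_pos hn i
  have h3 : (pq n (i + 1)).1 = -(pq n i).2 := rfl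
  rw [h3]
  have h4 : 3 * (pq n (i + 1)).2 ≤ n * (pq n (i + 1)).2 :=
    mul_le_mul_of_nonneg_right hn (by linarith)
  linarith

/-- The oriented basis `l0, l1` of `L = L0 + ℤ h`, with `l0` in the positive quadrant. -/
theorem exists_basis {V : Type*} [AddCommGroup V] [Module ℚ V] {E : ELat V} (hn : 3 ≤ E.n)
    {l j : ℕ} {c d : ℤ} {h : V} (D : CycDat E l j c d h) {K : ℕ} (hK : 0 < K)
    (hc : (pq E.n K).1 - 1 = (l : ℤ) ^ j * c) (hd : (pq E.n K).2 = (l : ℤ) ^ j * d) :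
    ∃ (x y a b : ℤ) (l0 l1 : V) (N : ℕ) (A B U : ℤ), 0 < x ∧ 0 < y ∧ x * b - y * a = 1 ∧
      (l : ℤ) ^ j • l0 = x • E.e + y • E.A E.e ∧ l1 = a • E.e + b • E.A E.e ∧
      (∃ z ∈ E.L0, l0 = h + z) ∧
      0 < N ∧ ¬ l ∣ N ∧ B * N = A * U + 1 ∧ A - U = 2 * (pq E.n K).1 + E.n * (pq E.n K).2 ∧
      3 ≤ A - U ∧ (∀ w, w ∈ D.L ↔ ∃ s t : ℤ, w = s • l0 + t • l1) ∧
      E.A^[K] l0 = (-U) • l0 + (N : ℤ) • l1 ∧ E.A^[K] l1 = (-B) • l0 + A • l1 := by
  have hlj : (0 : ℤ) < (l : ℤ) ^ j := pow_pos D.l_pos j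
  obtain ⟨⟨x0, y0⟩, hη⟩ := D.hh
  rw [E.io_apply] at hη
  simp only at hη
  have hprim : ¬ ((l : ℤ) ∣ x0 ∧ (l : ℤ) ∣ y0) := by
    rintro ⟨⟨a, rfl⟩, ⟨b, rfl⟩⟩
    refine D.prim (a • E.e + b • E.A E.e) (E.mem_L0.2 ⟨a, b, rfl⟩) ?_
    rw [← hη, smul_add, smul_smul, smul_smul]
  obtain ⟨x, y, hx, hy, hxy, ⟨p, hp⟩, ⟨q, hq⟩⟩ := exists_coprime_rep D.prime j hprim
  obtain ⟨u, v, huv⟩ := hxy
  -- `u x + v y = 1`, so `b = u`, `a = -v`
  have hprim' : ¬ ((l : ℤ) ∣ x ∧ (l : ℤ) ∣ y) := by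
    rintro ⟨h1, h2⟩
    have h3 : (l : ℤ) ∣ 1 := by
      rw [← huv]
      exact dvd_add (h1.mul_left u) (h2.mul_left v)
    exact D.l_prime.not_isUnit (isUnit_of_dvd_one h3)
  have hdpos : 0 < d := by
    have h1 := pq_snd_pos hn hK
    rw [hd] at h1
    exact (mul_pos_iff_of_pos_left hlj).1 h1
  have hQ : 0 < d * (x ^ 2 + E.n * x * y + y ^ 2) := by
    have : 0 < x ^ 2 + E.n * x * y + y ^ 2 := by positivity
    exact mul_pos hdpos this
  obtain ⟨a, rfl⟩ : ∃ a, v = -a := ⟨-v, by ring⟩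
  obtain ⟨v1, hv1⟩ : ∃ v1, v1 = c * x - d * y := ⟨_, rfl⟩
  obtain ⟨w1, hw1⟩ : ∃ w1, w1 = d * x + (c + E.n * d) * y := ⟨_, rfl⟩
  obtain ⟨v2, hv2⟩ : ∃ v2, v2 = c * a - d * u := ⟨_, rfl⟩
  obtain ⟨w2, hw2⟩ : ∃ w2, w2 = d * a + (c + E.n * d) * u := ⟨_, rfl⟩
  obtain ⟨M, hM⟩ : ∃ M, M = (l : ℤ) ^ j := ⟨_, rfl⟩
  obtain ⟨l0, hl0⟩ : ∃ l0, l0 = h + (p • E.e + q • E.A E.e) := ⟨_, rfl⟩
  obtain ⟨l1, hl1⟩ : ∃ l1, l1 = a • E.e + u • E.A E.e := ⟨_, rfl⟩
  have hMl0 : (l : ℤ) ^ j • l0 = x • E.e + y • E.A E.e := by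
    rw [hl0, smul_add, ← hη]
    have h1 : x = x0 + (l : ℤ) ^ j * p := by linarith
    have h2 : y = y0 + (l : ℤ) ^ j * q := by linarith
    rw [h1, h2]
    module
  have hdet : u * x + -a * y = 1 := huv
  have hNpos : 0 < x * w1 - y * v1 := by
    have : x * w1 - y * v1 = d * (x ^ 2 + E.n * x * y + y ^ 2) := by
      rw [hw1, hv1]; ring
    rw [this]
    exact hQ
  have hNl : ¬ (l : ℤ) ∣ x * w1 - y * v1 := by
    have : x * w1 - y * v1 = d * (x ^ 2 + E.n * x * y + y ^ 2) := by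
      rw [hw1, hv1]; ring
    rw [this]
    intro h1
    rcases D.l_prime.dvd_or_dvd h1 with h2 | h2
    · exact D.ld h2
    · exact hprim' (D.inert x y h2)
  have hNc : (((x * w1 - y * v1).toNat : ℕ) : ℤ) = x * w1 - y * v1 :=
    Int.toNat_of_nonneg hNpos.le
  have hnorm := pq_norm E.n K
  have hP : (pq E.n K).1 = 1 + (l : ℤ) ^ j * c := by linarith
  rw [hP, hd] at hnorm
  -- the norm relation `tr u = - M N(u)`
  have htr : 2 * c + E.n * d = -(l : ℤ) ^ j * (c ^ 2 + E.n * c * d + d ^ 2) := by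
    apply mul_left_cancel₀ hlj.ne'
    linear_combination hnorm
  refine ⟨x, y, a, u, l0, l1, (x * w1 - y * v1).toNat, 1 + (l : ℤ) ^ j * (x * w2 - y * v2),
    -((l : ℤ) ^ j) ^ 2 * (v2 * u - w2 * a), -(1 + (l : ℤ) ^ j * (v1 * u - w1 * a)),
    hx, hy, by linear_combination hdet, hMl0, hl1, ⟨_, E.mem_L0.2 ⟨p, q, rfl⟩, hl0⟩, ?_, ?_, ?_,
    ?_, ?_, ?_, ?_, ?_⟩
  · have h1 : (0 : ℤ) < (((x * w1 - y * v1).toNat : ℕ) : ℤ) := by rw [hNc]; exact hNpos
    exact_mod_cast h1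
  · intro h1
    apply hNl
    rw [← hNc]
    exact_mod_cast h1
  · rw [hNc]
    have h1 : (x * w2 - y * v2) + (v1 * u - w1 * a) = 2 * c + E.n * d := by
      rw [hw1, hv1, hw2, hv2]
      linear_combination (2 * c + E.n * d) * hdet
    have h2 : (v1 * u - w1 * a) * (x * w2 - y * v2) - (v2 * u - w2 * a) * (x * w1 - y * v1)
        = c ^ 2 + E.n * c * d + d ^ 2 := by
      have h3 : v1 * w2 - w1 * v2 = c ^ 2 + E.n * c * d + d ^ 2 := by
        rw [hw1, hv1, hw2, hv2]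
        linear_combination (c ^ 2 + E.n * c * d + d ^ 2) * hdet
      linear_combination (v1 * w2 - w1 * v2) * hdet + h3
    linear_combination ((l : ℤ) ^ j) ^ 2 * h2 + (l : ℤ) ^ j * h1 + (l : ℤ) ^ j * htr
  · rw [hP, hd]
    have h1 : (x * w2 - y * v2) + (v1 * u - w1 * a) = 2 * c + E.n * d := by
      rw [hw1, hv1, hw2, hv2]
      linear_combination (2 * c + E.n * d) * hdet
    linear_combination (l : ℤ) ^ j * h1
  · have h1 : (1 + (l : ℤ) ^ j * (x * w2 - y * v2)) - -(1 + (l : ℤ) ^ j * (v1 * u - w1 * a))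
        = 2 * (pq E.n K).1 + E.n * (pq E.n K).2 := by
      rw [hP, hd]
      have h1 : (x * w2 - y * v2) + (v1 * u - w1 * a) = 2 * c + E.n * d := by
        rw [hw1, hv1, hw2, hv2]
        linear_combination (2 * c + E.n * d) * hdet
      linear_combination (l : ℤ) ^ j * h1
    rw [h1]
    exact trace_ge hn hK
  · intro w
    rw [D.mem_L]
    have he : E.e = (u * (l : ℤ) ^ j) • l0 + (-y) • l1 := by
      rw [mul_smul, hMl0, hl1]
      have h1 : E.e = (u * x + -a * y) • E.e := by rw [hdet, one_smul]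
      conv_lhs => rw [h1]
      module
    have hAe : E.A E.e = (-a * (l : ℤ) ^ j) • l0 + x • l1 := by
      rw [mul_smul, hMl0, hl1]
      have h1 : E.A E.e = (u * x + -a * y) • E.A E.e := by rw [hdet, one_smul]
      conv_lhs => rw [h1]
      module
    constructor
    · rintro ⟨z, hz, k, rfl⟩
      obtain ⟨i, i', rfl⟩ := E.mem_L0.1 hz
      have hh : h = l0 - (p • E.e + q • E.A E.e) := by rw [hl0]; abel
      refine ⟨i * (u * (l : ℤ) ^ j) + i' * (-a * (l : ℤ) ^ j) + k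
        - k * (p * (u * (l : ℤ) ^ j) + q * (-a * (l : ℤ) ^ j)), i * (-y) + i' * x
        - k * (p * (-y) + q * x), ?_⟩
      rw [hh]
      generalize E.A E.e = f at *
      generalize E.e = e at *
      rw [hAe, he]
      module
    · rintro ⟨s, t, rfl⟩
      refine ⟨s • (p • E.e + q • E.A E.e) + t • l1, E.L0.add_mem (E.L0.zsmul_mem
        (E.mem_L0.2 ⟨_, _, rfl⟩) _) (E.L0.zsmul_mem (E.mem_L0.2 ⟨_, _, hl1⟩) _), s, ?_⟩
      rw [hl0]
      module
  · rw [hNc, E.iterate_A, hP, hd]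
    apply CycDat.zsmul_inj hlj.ne'
    have h1 : v1 = (v1 * u - w1 * a) * x + (x * w1 - y * v1) * a := by
      linear_combination (-v1) * hdet
    have h2 : w1 = (v1 * u - w1 * a) * y + (x * w1 - y * v1) * u := by
      linear_combination (-w1) * hdet
    have h3 : (l : ℤ) ^ j • ((1 + (l : ℤ) ^ j * c) • l0 + ((l : ℤ) ^ j * d) • E.A l0) =
        (1 + (l : ℤ) ^ j * c) • (x • E.e + y • E.A E.e) +
          ((l : ℤ) ^ j * d) • E.A (x • E.e + y • E.A E.e) := by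
      rw [← hMl0, map_zsmul]
      module
    have h4 : (l : ℤ) ^ j • (- -(1 + (l : ℤ) ^ j * (v1 * u - w1 * a)) • l0
        + (x * w1 - y * v1) • l1) = (1 + (l : ℤ) ^ j * (v1 * u - w1 * a)) •
          (x • E.e + y • E.A E.e) + ((l : ℤ) ^ j * (x * w1 - y * v1)) • l1 := by
      rw [← hMl0]
      module
    rw [h3, h4, hl1, map_add, map_zsmul, map_zsmul, E.hA]
    generalize E.A E.e = f
    generalize E.e = e
    have h5 : (1 + (l : ℤ) ^ j * c) • (x • e + y • f) + ((l : ℤ) ^ j * d) • (x • f + y • (E.n • f - e))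
        = (x + (l : ℤ) ^ j * v1) • e + (y + (l : ℤ) ^ j * w1) • f := by
      rw [hv1, hw1]
      module
    rw [h5]
    conv_lhs => rw [h1, h2]
    module
  · rw [E.iterate_A, hP, hd]
    have h1 : v2 = (v2 * u - w2 * a) * x + (x * w2 - y * v2) * a := by
      linear_combination (-v2) * hdet
    have h2 : w2 = (v2 * u - w2 * a) * y + (x * w2 - y * v2) * u := by
      linear_combination (-w2) * hdet
    have h4 : (-(-((l : ℤ) ^ j) ^ 2 * (v2 * u - w2 * a))) • l0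
        + (1 + (l : ℤ) ^ j * (x * w2 - y * v2)) • l1 = ((l : ℤ) ^ j * (v2 * u - w2 * a)) •
          (x • E.e + y • E.A E.e) + (1 + (l : ℤ) ^ j * (x * w2 - y * v2)) • l1 := by
      rw [← hMl0]
      module
    rw [h4, hl1, map_add, map_zsmul, map_zsmul, E.hA]
    generalize E.A E.e = f
    generalize E.e = e
    have h5 : (1 + (l : ℤ) ^ j * c) • (a • e + u • f) + ((l : ℤ) ^ j * d) • (a • f + u • (E.n • f - e))
        = (a + (l : ℤ) ^ j * v2) • e + (u + (l : ℤ) ^ j * w2) • f := by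
      rw [hv2, hw2]
      module
    rw [h5]
    conv_lhs => rw [h1, h2]
    module

/-- `l0`, `l1` are independent. -/
theorem basis_ind {V : Type*} [AddCommGroup V] [Module ℚ V] {E : ELat V} {M x y a b : ℤ} (hM : M ≠ 0)
    {l0 l1 : V} (hxy : x * b - y * a = 1) (h0 : M • l0 = x • E.e + y • E.A E.e)
    (h1 : l1 = a • E.e + b • E.A E.e) {s t : ℤ} (h : s • l0 + t • l1 = 0) : s = 0 ∧ t = 0 := by
  have h2 : (s * x + t * M * a) • E.e + (s * y + t * M * b) • E.A E.e = 0 := by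
    have h3 : M • (s • l0 + t • l1) = 0 := by rw [h, smul_zero]
    have h4 : M • (s • l0 + t • l1) = s • (M • l0) + (t * M) • l1 := by module
    rw [h4, h0, h1] at h3
    rw [← h3]
    module
  obtain ⟨h3, h4⟩ := E.ind _ _ h2
  have h5 : s = 0 := by linear_combination (-s) * hxy + b * h3 - a * h4
  have h6 : t * M = 0 := by linear_combination (-(t * M)) * hxy - y * h3 + x * h4
  exact ⟨h5, (mul_eq_zero.1 h6).resolve_right hM⟩

/-- `l` does not divide `d` if `1 + l ^ j (c + d ε)` has norm one. -/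
theorem not_dvd_d {l : ℕ} (hl : l.Prime) (hl2 : l ≠ 2) {j : ℕ} (hj : 0 < j) {n c d : ℤ}
    (hdet : (1 + (l : ℤ) ^ j * c) ^ 2 + n * (1 + (l : ℤ) ^ j * c) * ((l : ℤ) ^ j * d)
      + ((l : ℤ) ^ j * d) ^ 2 = 1)
    (h : ¬ ((l : ℤ) ∣ c ∧ (l : ℤ) ∣ d)) : ¬ (l : ℤ) ∣ d := by
  intro hd
  apply h
  refine ⟨?_, hd⟩
  have hpp : Prime (l : ℤ) := Nat.prime_iff_prime_int.1 hl
  have hM : (l : ℤ) ^ j ≠ 0 := pow_ne_zero j hpp.ne_zero
  have h1 : 2 * c + n * d = - (l : ℤ) ^ j * (c ^ 2 + n * c * d + d ^ 2) := by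
    apply mul_left_cancel₀ hM
    linear_combination hdet
  have h2 : (l : ℤ) ∣ (l : ℤ) ^ j := dvd_pow_self _ hj.ne'
  have h3 : (l : ℤ) ∣ 2 * c := by
    have h4 : (l : ℤ) ∣ 2 * c + n * d := by
      rw [h1]
      exact (h2.neg_right).mul_right _
    exact (dvd_add_left (hd.mul_left n)).1 h4
  rcases hpp.dvd_or_dvd h3 with h4 | h4
  · exfalso
    have h5 : l ∣ 2 := by exact_mod_cast h4
    exact hl2 ((Nat.prime_dvd_prime_iff_eq hl Nat.prime_two).1 h5)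
  · exact h4

end Zau.Bas
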