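import Mathlib
import Pool.Agent.Lib_MP_1c78a5_ghost.GKern

/-!
# The regularised integral of the cone sums

`HasJ F v`: for some `c` the function `(F t - c / t) / t` is integrable on `(0, ∞)` with integral `v`.
`dsK A B z` is the cone function of the point `z` for the periods `A`, `B`, and `LS A B z` is
minus the logarithm of the double sine function `S₂ (z | A, B)`, `S₂ (z + A) = S₂ z / (2 sin (π z / B))`.
-/

set_option autoImplicit false

open MeasureTheory Set Filter Topology
open scoped Real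

namespace Zau.Cone

/-- `F` has the regularised integral `v`. -/
def HasJ (F : ℝ → ℝ) (v : ℝ) : Prop :=
  ∃ c : ℝ, IntegrableOn (fun t => (F t - c / t) / t) (Ioi 0) ∧
    ∫ t in Ioi (0 : ℝ), (F t - c / t) / t = v

theorem HasJ.congr {F G : ℝ → ℝ} {v : ℝ} (h : HasJ F v) (hFG : ∀ t, 0 < t → F t = G t) :
    HasJ G v := by
  obtain ⟨c, h1, h2⟩ := h
  refine ⟨c, ?_, ?_⟩
  · refine h1.congr_fun (fun t ht => ?_) measurableSet_Ioi
    simp only [hFG t ht]
  · rw [← h2]
    refine setIntegral_congr_fun measurableSet_Ioi fun t ht => ?_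
    simp only [hFG t ht]

theorem HasJ.unique {F : ℝ → ℝ} {v w : ℝ} (h : HasJ F v) (h' : HasJ F w) : v = w := by
  obtain ⟨c, h1, h2⟩ := h
  obtain ⟨d, h3, h4⟩ := h'
  have hcd : c = d := by
    by_contra hne
    have h5 : IntegrableOn (fun t : ℝ => (F t - c / t) / t - (F t - d / t) / t) (Ioi 0) := h1.sub h3
    have h6 : IntegrableOn (fun t : ℝ => (d - c) * t ^ (-2 : ℝ)) (Ioi 0) := by
      refine h5.congr_fun (fun t ht => ?_) measurableSet_Ioi
      have ht0 : (0 : ℝ) < t := ht
      rw [Real.rpow_neg ht0.le, Real.rpow_two]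
      field_simp
      ring
    have h7 : IntegrableOn (fun t : ℝ => t ^ (-2 : ℝ)) (Ioi 0) := by
      have h8 : IntegrableOn (fun t : ℝ => (d - c)⁻¹ * ((d - c) * t ^ (-2 : ℝ))) (Ioi 0) :=
        h6.const_mul (d - c)⁻¹
      refine h8.congr_fun (fun t _ => ?_) measurableSet_Ioi
      have h9 : d - c ≠ 0 := sub_ne_zero.2 (Ne.symm hne)
      simp only
      rw [← mul_assoc, inv_mul_cancel₀ h9, one_mul]
    exact not_integrableOn_Ioi_rpow _ h7
  rw [← h2, ← h4, hcd]

theorem HasJ.zero : HasJ (fun _ => 0) 0 := by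
  refine ⟨0, ?_, ?_⟩
  · simp only [zero_div, sub_zero]
    exact integrableOn_zero
  · simp

theorem HasJ.add {F G : ℝ → ℝ} {v w : ℝ} (h : HasJ F v) (h' : HasJ G w) :
    HasJ (fun t => F t + G t) (v + w) := by
  obtain ⟨c, h1, h2⟩ := h
  obtain ⟨d, h3, h4⟩ := h'
  have h5 : ∀ t : ℝ, (F t + G t - (c + d) / t) / t = (F t - c / t) / t + (G t - d / t) / t := by
    intro t
    ring
  refine ⟨c + d, ?_, ?_⟩
  · simp only [h5]
    exact h1.add h3
  · simp only [h5]
    rw [integral_add h1 h3, h2, h4]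

theorem HasJ.neg {F : ℝ → ℝ} {v : ℝ} (h : HasJ F v) : HasJ (fun t => -F t) (-v) := by
  obtain ⟨c, h1, h2⟩ := h
  have h5 : ∀ t : ℝ, (-F t - (-c) / t) / t = -((F t - c / t) / t) := by
    intro t
    ring
  refine ⟨-c, ?_, ?_⟩
  · simp only [h5]
    exact h1.neg
  · simp only [h5]
    rw [integral_neg, h2]

theorem HasJ.sub {F G : ℝ → ℝ} {v w : ℝ} (h : HasJ F v) (h' : HasJ G w) :
    HasJ (fun t => F t - G t) (v - w) := by
  have := h.add h'.neg
  simpa only [sub_eq_add_neg] using this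

theorem HasJ.sum {ι : Type*} (s : Finset ι) {F : ι → ℝ → ℝ} {v : ι → ℝ}
    (h : ∀ i ∈ s, HasJ (F i) (v i)) : HasJ (fun t => ∑ i ∈ s, F i t) (∑ i ∈ s, v i) := by
  classical
  induction s using Finset.induction_on with
  | empty =>
    simp only [Finset.sum_empty]
    exact HasJ.zero
  | insert a s ha ih =>
    simp only [Finset.sum_insert ha]
    exact (h a (Finset.mem_insert_self a s)).add
      (ih fun i hi => h i (Finset.mem_insert_of_mem hi))

theorem HasJ.scale {F : ℝ → ℝ} {v a : ℝ} (ha : 0 < a) (h : HasJ F v) :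
    HasJ (fun t => F (a * t)) v := by
  obtain ⟨c, h1, h2⟩ := h
  have h3 : ∀ t : ℝ, (F (a * t) - c / a / t) / t =
      a * ((fun s => (F s - c / s) / s) (a * t)) := by
    intro t
    by_cases ht : t = 0
    · subst ht
      simp
    · simp only
      field_simp
  refine ⟨c / a, ?_, ?_⟩
  · simp only [h3]
    refine Integrable.const_mul ?_ a
    exact (integrableOn_Ioi_comp_mul_left_iff (fun s => (F s - c / s) / s) 0 ha).2
      (by rw [mul_zero]; exact h1)
  · simp only [h3]
    rw [integral_const_mul, integral_comp_mul_left_Ioi (fun s => (F s - c / s) / s) 0 ha, mul_zero,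
      h2, smul_eq_mul, ← mul_assoc, mul_inv_cancel₀ ha.ne', one_mul]

/-- The cone function of the point `z` for the periods `A`, `B`. -/
noncomputable def dsK (A B z t : ℝ) : ℝ :=
  Real.sinh ((A + B - 2 * z) * t) / (2 * Real.sinh (A * t) * Real.sinh (B * t))

/-- Minus the logarithm of the double sine function `S₂ (z | A, B)`. -/
noncomputable def LS (A B z : ℝ) : ℝ :=
  ∫ t in Ioi (0 : ℝ), (dsK A B z t - (A + B - 2 * z) / (2 * (A * B)) / t) / t

theorem sinh_ne {A t : ℝ} (hA : 0 < A) (ht : 0 < t) : Real.sinh (A * t) ≠ 0 :=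
  (Real.sinh_pos_iff.2 (mul_pos hA ht)).ne'

/-- The integrand of `LS`. -/
theorem LS_integrable {A B z : ℝ} (hA : 0 < A) (hB : 0 < B) (h0 : 0 < z) (h1 : z < A + B) :
    IntegrableOn (fun t => (dsK A B z t - (A + B - 2 * z) / (2 * (A * B)) / t) / t) (Ioi 0) := by
  set r : ℝ := Real.sqrt (A * B) with hr
  have hAB : 0 < A * B := mul_pos hA hB
  have hr0 : 0 < r := Real.sqrt_pos.2 hAB
  have hr2 : r * r = A * B := Real.mul_self_sqrt hAB.le
  set P : Ghost.Par := ⟨A / r, B / r, div_pos hA hr0, div_pos hB hr0, by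
    field_simp
    nlinarith [hr2]⟩ with hP
  have hQ : P.Q = (A + B) / r := by
    rw [Ghost.Par.Q, hP]
    ring
  have hk := Ghost.kern_integrable P (x := ((z / r : ℝ) : ℂ))
    (by rw [Complex.ofReal_re]; exact div_pos h0 hr0)
    (by rw [Complex.ofReal_re, hQ]; exact div_lt_div_of_pos_right h1 hr0)
  have hk1 : IntegrableOn (fun t : ℝ => (Ghost.kern P ((z / r : ℝ) : ℂ) t).re) (Ioi 0) := hk.re
  have hk2 : IntegrableOn (fun t : ℝ => (Ghost.kern P ((z / r : ℝ) : ℂ) (r * t)).re) (Ioi 0) := by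
    rw [integrableOn_Ioi_comp_mul_left_iff
      (fun t : ℝ => (Ghost.kern P ((z / r : ℝ) : ℂ) t).re) 0 hr0, mul_zero]
    exact hk1
  have hk3 : IntegrableOn (fun t : ℝ => -r * (Ghost.kern P ((z / r : ℝ) : ℂ) (r * t)).re) (Ioi 0) :=
    hk2.const_mul (-r)
  refine hk3.congr_fun (fun t ht => ?_) measurableSet_Ioi
  have ht0 : (0 : ℝ) < t := ht
  have h3 : Ghost.kern P ((z / r : ℝ) : ℂ) (r * t) =
      (((Real.sinh ((2 * (z / r) - P.Q) * (r * t)) /
        (2 * Real.sinh (P.b * (r * t)) * Real.sinh (P.o * (r * t))) -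
        (2 * (z / r) - P.Q) / (2 * (r * t))) / (r * t) : ℝ) : ℂ) := by
    rw [Ghost.kern]
    push_cast
    rfl
  have h4 : (2 * (z / r) - P.Q) * (r * t) = -((A + B - 2 * z) * t) := by
    rw [hQ]
    field_simp
    ring
  have h5 : P.b * (r * t) = A * t := by
    rw [hP]
    field_simp
  have h6 : P.o * (r * t) = B * t := by
    rw [hP]
    field_simp
  simp only
  rw [h3, Complex.ofReal_re, h4, h5, h6, Real.sinh_neg, dsK, hQ]
  have hs1 := sinh_ne hA ht0
  have hs2 := sinh_ne hB ht0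
  rw [← hr2]
  field_simp
  ring

theorem hasJ_LS {A B z : ℝ} (hA : 0 < A) (hB : 0 < B) (h0 : 0 < z) (h1 : z < A + B) :
    HasJ (dsK A B z) (LS A B z) :=
  ⟨_, LS_integrable hA hB h0 h1, rfl⟩

/-- Homogeneity. -/
theorem LS_scale {A B z c : ℝ} (hA : 0 < A) (hB : 0 < B) (h0 : 0 < z) (h1 : z < A + B)
    (hc : 0 < c) : LS (c * A) (c * B) (c * z) = LS A B z := by
  have h2 : HasJ (dsK (c * A) (c * B) (c * z)) (LS (c * A) (c * B) (c * z)) :=
    hasJ_LS (mul_pos hc hA) (mul_pos hc hB) (mul_pos hc h0) (by nlinarith)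
  have h3 := (hasJ_LS hA hB h0 h1).scale hc
  refine h2.unique (h3.congr fun t _ => ?_)
  rw [dsK, dsK]
  have e1 : (A + B - 2 * z) * (c * t) = (c * A + c * B - 2 * (c * z)) * t := by ring
  have e2 : A * (c * t) = c * A * t := by ring
  have e3 : B * (c * t) = c * B * t := by ring
  rw [e1, e2, e3]

theorem LS_swap (A B z : ℝ) : LS A B z = LS B A z := by
  unfold LS dsK
  congr 1
  ext t
  rw [show A + B = B + A by ring, show A * B = B * A by ring,
    show 2 * Real.sinh (A * t) * Real.sinh (B * t) = 2 * Real.sinh (B * t) * Real.sinh (A * t) by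
      ring]

theorem LS_reflect (A B z : ℝ) : LS A B (A + B - z) = -LS A B z := by
  unfold LS
  rw [← integral_neg]
  congr 1
  ext t
  unfold dsK
  have e1 : (A + B - 2 * (A + B - z)) = -(A + B - 2 * z) := by ring
  rw [e1, neg_mul, Real.sinh_neg]
  ring

/-- The exponential form of the cone function. -/
theorem dsK_eq {A B z t : ℝ} (hA : 0 < A) (hB : 0 < B) (ht : 0 < t) :
    dsK A B z t = (Real.exp (-(2 * z * t)) - Real.exp (-(2 * (A + B - z) * t))) /
      ((1 - Real.exp (-(2 * A * t))) * (1 - Real.exp (-(2 * B * t)))) := by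
  have h1 : ∀ C : ℝ, 1 - Real.exp (-(2 * C * t)) = 2 * Real.exp (-(C * t)) * Real.sinh (C * t) := by
    intro C
    rw [Real.sinh_eq]
    have e1 : Real.exp (-(C * t)) * Real.exp (C * t) = 1 := by
      rw [← Real.exp_add, neg_add_cancel, Real.exp_zero]
    have e2 : Real.exp (-(2 * C * t)) = Real.exp (-(C * t)) * Real.exp (-(C * t)) := by
      rw [← Real.exp_add]
      congr 1
      ring
    rw [e2]
    linear_combination -e1
  have h2 : Real.exp (-(2 * z * t)) - Real.exp (-(2 * (A + B - z) * t)) =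
      2 * Real.exp (-(A * t)) * Real.exp (-(B * t)) * Real.sinh ((A + B - 2 * z) * t) := by
    rw [Real.sinh_eq]
    have e1 : Real.exp (-(2 * z * t)) =
        Real.exp (-(A * t)) * Real.exp (-(B * t)) * Real.exp ((A + B - 2 * z) * t) := by
      rw [← Real.exp_add, ← Real.exp_add]
      congr 1
      ring
    have e2 : Real.exp (-(2 * (A + B - z) * t)) =
        Real.exp (-(A * t)) * Real.exp (-(B * t)) * Real.exp (-((A + B - 2 * z) * t)) := by
      rw [← Real.exp_add, ← Real.exp_add]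
      congr 1
      ring
    rw [e1, e2]
    ring
  rw [h1, h1, h2, dsK]
  have hs1 := sinh_ne hA ht
  have hs2 := sinh_ne hB ht
  have he1 := Real.exp_ne_zero (-(A * t))
  have he2 := Real.exp_ne_zero (-(B * t))
  field_simp

end Zau.Cone
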