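import Mathlib
import Pool.Agent.Lib_zau.ConeJ

/-!
# Cone sums

For a lattice `L` in `ℝ × ℝ` and a coset `w + L` the sum of `exp (-2 x.1 t)` over the points of the coset
in a half open cone of the positive quadrant.
-/

set_option autoImplicit false

open MeasureTheory Set Filter Topology
open scoped Real

namespace Zau.Cone

/-- Finitely many points in every box. -/
def IsLat (L : AddSubgroup (ℝ × ℝ)) : Prop :=
  ∀ R : ℝ, {x : ℝ × ℝ | x ∈ L ∧ |x.1| ≤ R ∧ |x.2| ≤ R}.Finite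

/-- The part of the coset `w + L` in the cone `a x.1 < x.2 ≤ b x.1`, `0 < x.1`. -/
def coneR (L : AddSubgroup (ℝ × ℝ)) (w : ℝ × ℝ) (a b : ℝ) : Set (ℝ × ℝ) :=
  {x | x - w ∈ L ∧ 0 < x.1 ∧ a * x.1 < x.2 ∧ x.2 ≤ b * x.1}

/-- The part of the coset `w + L` in the cone `a x.1 ≤ x.2 < b x.1`, `0 < x.1`. -/
def coneL (L : AddSubgroup (ℝ × ℝ)) (w : ℝ × ℝ) (a b : ℝ) : Set (ℝ × ℝ) :=
  {x | x - w ∈ L ∧ 0 < x.1 ∧ a * x.1 ≤ x.2 ∧ x.2 < b * x.1}

/-- The part of the coset `w + L` on the ray `x.2 = b x.1`, `0 < x.1`. -/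
def ray (L : AddSubgroup (ℝ × ℝ)) (w : ℝ × ℝ) (b : ℝ) : Set (ℝ × ℝ) :=
  {x | x - w ∈ L ∧ 0 < x.1 ∧ x.2 = b * x.1}

/-- The exponential sum over a set of points. -/
noncomputable def Phi (S : Set (ℝ × ℝ)) (t : ℝ) : ℝ := ∑' x : S, Real.exp (-(2 * (x : ℝ × ℝ).1 * t))

/-- Convergence of the exponential sum. -/
def SumOn (S : Set (ℝ × ℝ)) (t : ℝ) : Prop :=
  Summable fun x : S => Real.exp (-(2 * (x : ℝ × ℝ).1 * t))

/-- The slope of a vector. -/
noncomputable def slope (x : ℝ × ℝ) : ℝ := x.2 / x.1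

/-- The half open parallelogram. -/
def Par (L : AddSubgroup (ℝ × ℝ)) (w l m : ℝ × ℝ) : Set (ℝ × ℝ) :=
  {z | z - w ∈ L ∧ ∃ s t : ℝ, 0 < s ∧ s ≤ 1 ∧ 0 ≤ t ∧ t < 1 ∧
    z.1 = s * l.1 + t * m.1 ∧ z.2 = s * l.2 + t * m.2}

theorem SumOn.mono {S T : Set (ℝ × ℝ)} {t : ℝ} (h : SumOn T t) (hST : S ⊆ T) : SumOn S t := by
  have h2 : Function.Injective (Set.inclusion hST) := Set.inclusion_injective hST
  have h3 := h.comp_injective h2
  exact h3

theorem Phi_union {S T : Set (ℝ × ℝ)} {t : ℝ} (hd : Disjoint S T) (hS : SumOn S t) (hT : SumOn T t) :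
    Phi (S ∪ T) t = Phi S t + Phi T t := by
  have := Summable.tsum_union_disjoint (f := fun x : ℝ × ℝ => Real.exp (-(2 * x.1 * t))) hd hS hT
  exact this

theorem Phi_empty {t : ℝ} : Phi ∅ t = 0 := by
  unfold Phi
  exact tsum_empty

theorem par_finite {L : AddSubgroup (ℝ × ℝ)} (hL : IsLat L) (w l m : ℝ × ℝ) :
    (Par L w l m).Finite := by
  set R : ℝ := |l.1| + |m.1| + |l.2| + |m.2| + |w.1| + |w.2| with hR
  have h1 := hL R
  refine (h1.image fun x => x + w).subset ?_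
  rintro z ⟨hz, s, t, hs0, hs1, ht0, ht1, e1, e2⟩
  refine ⟨z - w, ⟨hz, ?_, ?_⟩, by simp⟩
  · have h2 : |z.1| ≤ |l.1| + |m.1| := by
      rw [e1]
      refine (abs_add_le _ _).trans ?_
      rw [abs_mul, abs_mul, abs_of_pos hs0, abs_of_nonneg ht0]
      have := mul_le_mul_of_nonneg_right hs1 (abs_nonneg l.1)
      have := mul_le_mul_of_nonneg_right ht1.le (abs_nonneg m.1)
      linarith
    have h3 : |(z - w).1| ≤ |z.1| + |w.1| := abs_sub _ _
    have := abs_nonneg l.2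
    have := abs_nonneg m.2
    have := abs_nonneg w.2
    rw [hR]
    linarith
  · have h2 : |z.2| ≤ |l.2| + |m.2| := by
      rw [e2]
      refine (abs_add_le _ _).trans ?_
      rw [abs_mul, abs_mul, abs_of_pos hs0, abs_of_nonneg ht0]
      have := mul_le_mul_of_nonneg_right hs1 (abs_nonneg l.2)
      have := mul_le_mul_of_nonneg_right ht1.le (abs_nonneg m.2)
      linarith
    have h3 : |(z - w).2| ≤ |z.2| + |w.2| := abs_sub _ _
    have := abs_nonneg l.1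
    have := abs_nonneg m.1
    have := abs_nonneg w.1
    rw [hR]
    linarith

section

variable {L : AddSubgroup (ℝ × ℝ)} {w l m : ℝ × ℝ}

/-- Coordinates with respect to the basis `l`, `m`. -/
theorem coord_exists (hdet : 0 < l.2 * m.1 - l.1 * m.2) (x : ℝ × ℝ) :
    x.1 = (x.2 * m.1 - x.1 * m.2) / (l.2 * m.1 - l.1 * m.2) * l.1 +
      (l.2 * x.1 - l.1 * x.2) / (l.2 * m.1 - l.1 * m.2) * m.1 ∧
    x.2 = (x.2 * m.1 - x.1 * m.2) / (l.2 * m.1 - l.1 * m.2) * l.2 +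
      (l.2 * x.1 - l.1 * x.2) / (l.2 * m.1 - l.1 * m.2) * m.2 := by
  have h := hdet.ne'
  constructor
  · rw [div_mul_eq_mul_div, div_mul_eq_mul_div, ← add_div, eq_div_iff h]
    ring
  · rw [div_mul_eq_mul_div, div_mul_eq_mul_div, ← add_div, eq_div_iff h]
    ring

theorem coord_unique (hdet : 0 < l.2 * m.1 - l.1 * m.2) {s t s' t' : ℝ}
    (h1 : s * l.1 + t * m.1 = s' * l.1 + t' * m.1) (h2 : s * l.2 + t * m.2 = s' * l.2 + t' * m.2) :
    s = s' ∧ t = t' := by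
  have h := hdet.ne'
  constructor
  · have : (s - s') * (l.2 * m.1 - l.1 * m.2) = 0 := by linear_combination m.1 * h2 - m.2 * h1
    rcases mul_eq_zero.1 this with h3 | h3
    · linarith
    · exact absurd h3 h
  · have : (t - t') * (l.2 * m.1 - l.1 * m.2) = 0 := by linear_combination l.2 * h1 - l.1 * h2
    rcases mul_eq_zero.1 this with h3 | h3
    · linarith
    · exact absurd h3 h

theorem natsmul_mem (hl : l ∈ L) (i : ℕ) : ((i : ℝ) * l.1, (i : ℝ) * l.2) ∈ L := by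
  have h := L.nsmul_mem hl i
  have h2 : i • l = ((i : ℝ) * l.1, (i : ℝ) * l.2) := by
    ext
    · simp
    · simp
  rwa [h2] at h

/-- The points of the cone are the translates of the points of the parallelogram. -/
noncomputable def equivR (hl : l ∈ L) (hm : m ∈ L) (hl1 : 0 < l.1) (hm1 : 0 < m.1)
    (hdet : 0 < l.2 * m.1 - l.1 * m.2) :
    (Par L w l m) × ℕ × ℕ ≃ coneR L w (slope m) (slope l) := by
  refine Equiv.ofBijective
    (fun p => ⟨((p.1 : ℝ × ℝ).1 + p.2.1 * l.1 + p.2.2 * m.1,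
      (p.1 : ℝ × ℝ).2 + p.2.1 * l.2 + p.2.2 * m.2), ?_⟩) ⟨?_, ?_⟩
  · obtain ⟨⟨z, hz, s, t, hs0, hs1, ht0, ht1, e1, e2⟩, i, j⟩ := p
    have hx1 : z.1 + i * l.1 + j * m.1 = (s + i) * l.1 + (t + j) * m.1 := by rw [e1]; ring
    have hx2 : z.2 + i * l.2 + j * m.2 = (s + i) * l.2 + (t + j) * m.2 := by rw [e2]; ring
    have hi : (0 : ℝ) ≤ i := Nat.cast_nonneg i
    have hj : (0 : ℝ) ≤ j := Nat.cast_nonneg j
    refine ⟨?_, ?_, ?_, ?_⟩
    · have h1 := L.add_mem (L.add_mem hz (natsmul_mem hl i)) (natsmul_mem hm j)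
      have h2 : (z.1 + i * l.1 + j * m.1, z.2 + i * l.2 + j * m.2) - w =
          z - w + ((i : ℝ) * l.1, (i : ℝ) * l.2) + ((j : ℝ) * m.1, (j : ℝ) * m.2) := by
        ext
        · simp
          ring
        · simp
          ring
      show (z.1 + i * l.1 + j * m.1, z.2 + i * l.2 + j * m.2) - w ∈ L
      rw [h2]
      exact h1
    · show 0 < z.1 + i * l.1 + j * m.1
      rw [hx1]
      have : 0 < (s + i) * l.1 := mul_pos (by linarith) hl1
      have : 0 ≤ (t + j) * m.1 := mul_nonneg (by linarith) hm1.le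
      linarith
    · show slope m * (z.1 + i * l.1 + j * m.1) < z.2 + i * l.2 + j * m.2
      rw [hx1, hx2, slope, div_mul_eq_mul_div, div_lt_iff₀ hm1]
      have : 0 < (s + i) * (l.2 * m.1 - l.1 * m.2) := mul_pos (by linarith) hdet
      nlinarith
    · show z.2 + i * l.2 + j * m.2 ≤ slope l * (z.1 + i * l.1 + j * m.1)
      rw [hx1, hx2, slope, div_mul_eq_mul_div, le_div_iff₀ hl1]
      have : 0 ≤ (t + j) * (l.2 * m.1 - l.1 * m.2) := mul_nonneg (by linarith) hdet.le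
      nlinarith
  · rintro ⟨⟨z, hz, s, t, hs0, hs1, ht0, ht1, e1, e2⟩, i, j⟩
      ⟨⟨z', hz', s', t', hs0', hs1', ht0', ht1', e1', e2'⟩, i', j'⟩ h
    have h1 : z.1 + i * l.1 + j * m.1 = z'.1 + i' * l.1 + j' * m.1 :=
      congrArg (fun x : coneR L w (slope m) (slope l) => (x : ℝ × ℝ).1) h
    have h2 : z.2 + i * l.2 + j * m.2 = z'.2 + i' * l.2 + j' * m.2 :=
      congrArg (fun x : coneR L w (slope m) (slope l) => (x : ℝ × ℝ).2) h
    have h3 := coord_unique (l := l) (m := m) hdet (s := s + i) (t := t + j) (s' := s' + i')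
      (t' := t' + j') (by rw [e1, e1'] at h1; linarith) (by rw [e2, e2'] at h2; linarith)
    obtain ⟨h4, h5⟩ := h3
    have h6 : i = i' := by
      have h7 : (i : ℝ) < i' + 1 := by linarith
      have h8 : (i' : ℝ) < i + 1 := by linarith
      have h9 : i < i' + 1 := by exact_mod_cast h7
      have h10 : i' < i + 1 := by exact_mod_cast h8
      omega
    have h7 : j = j' := by
      have h7 : (j : ℝ) < j' + 1 := by linarith
      have h8 : (j' : ℝ) < j + 1 := by linarith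
      have h9 : j < j' + 1 := by exact_mod_cast h7
      have h10 : j' < j + 1 := by exact_mod_cast h8
      omega
    subst h6
    subst h7
    have h8 : z = z' := by
      ext
      · linarith
      · linarith
    subst h8
    rfl
  · rintro ⟨x, hx, hx1, hx2, hx3⟩
    obtain ⟨e1, e2⟩ := coord_exists (l := l) (m := m) hdet x
    set s : ℝ := (x.2 * m.1 - x.1 * m.2) / (l.2 * m.1 - l.1 * m.2) with hs
    set t : ℝ := (l.2 * x.1 - l.1 * x.2) / (l.2 * m.1 - l.1 * m.2) with ht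
    have hs0 : 0 < s := by
      rw [slope, div_mul_eq_mul_div, div_lt_iff₀ hm1] at hx2
      refine div_pos ?_ hdet
      linarith
    have ht0 : 0 ≤ t := by
      rw [slope, div_mul_eq_mul_div, le_div_iff₀ hl1] at hx3
      refine div_nonneg ?_ hdet.le
      linarith
    have hc1 : (1 : ℕ) ≤ ⌈s⌉₊ := Nat.one_le_iff_ne_zero.2 (Nat.ceil_pos.2 hs0).ne'
    have hc2 : ((⌈s⌉₊ - 1 : ℕ) : ℝ) = (⌈s⌉₊ : ℝ) - 1 := by
      rw [Nat.cast_sub hc1, Nat.cast_one]
    have hc3 : s ≤ ⌈s⌉₊ := Nat.le_ceil s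
    have hc4 : (⌈s⌉₊ : ℝ) < s + 1 := Nat.ceil_lt_add_one hs0.le
    have hf1 : (⌊t⌋₊ : ℝ) ≤ t := Nat.floor_le ht0
    have hf2 : t < ⌊t⌋₊ + 1 := Nat.lt_floor_add_one t
    refine ⟨⟨⟨(x.1 - (⌈s⌉₊ - 1 : ℕ) * l.1 - ⌊t⌋₊ * m.1,
      x.2 - (⌈s⌉₊ - 1 : ℕ) * l.2 - ⌊t⌋₊ * m.2), ?_, s - (⌈s⌉₊ - 1 : ℕ), t - ⌊t⌋₊, ?_, ?_, ?_, ?_,
      ?_, ?_⟩, ⌈s⌉₊ - 1, ⌊t⌋₊⟩, ?_⟩
    · have h1 := L.sub_mem (L.sub_mem hx (natsmul_mem hl (⌈s⌉₊ - 1))) (natsmul_mem hm ⌊t⌋₊)
      have h2 : (x.1 - (⌈s⌉₊ - 1 : ℕ) * l.1 - ⌊t⌋₊ * m.1,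
          x.2 - (⌈s⌉₊ - 1 : ℕ) * l.2 - ⌊t⌋₊ * m.2) - w =
          x - w - (((⌈s⌉₊ - 1 : ℕ) : ℝ) * l.1, ((⌈s⌉₊ - 1 : ℕ) : ℝ) * l.2) -
            ((⌊t⌋₊ : ℝ) * m.1, (⌊t⌋₊ : ℝ) * m.2) := by
        ext
        · simp only [Prod.fst_sub]
          ring
        · simp only [Prod.snd_sub]
          ring
      rw [h2]
      exact h1
    · rw [hc2]
      linarith
    · rw [hc2]
      linarith
    · linarith
    · linarith
    · simp only
      linear_combination e1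
    · simp only
      linear_combination e2
    · apply Subtype.ext
      ext
      · simp only
        ring
      · simp only
        ring

/-- The points of the reflected cone. -/
noncomputable def equivL (hl : l ∈ L) (hm : m ∈ L) (hl1 : 0 < l.1) (hm1 : 0 < m.1)
    (hdet : 0 < l.2 * m.1 - l.1 * m.2) :
    (Par L w l m) × ℕ × ℕ ≃ coneL L (-w) (slope m) (slope l) := by
  refine Equiv.ofBijective
    (fun p => ⟨(l.1 + m.1 - (p.1 : ℝ × ℝ).1 + p.2.1 * l.1 + p.2.2 * m.1,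
      l.2 + m.2 - (p.1 : ℝ × ℝ).2 + p.2.1 * l.2 + p.2.2 * m.2), ?_⟩) ⟨?_, ?_⟩
  · obtain ⟨⟨z, hz, s, t, hs0, hs1, ht0, ht1, e1, e2⟩, i, j⟩ := p
    have hx1 : l.1 + m.1 - z.1 + i * l.1 + j * m.1 = (1 - s + i) * l.1 + (1 - t + j) * m.1 := by
      rw [e1]; ring
    have hx2 : l.2 + m.2 - z.2 + i * l.2 + j * m.2 = (1 - s + i) * l.2 + (1 - t + j) * m.2 := by
      rw [e2]; ring
    have hi : (0 : ℝ) ≤ i := Nat.cast_nonneg i
    have hj : (0 : ℝ) ≤ j := Nat.cast_nonneg j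
    refine ⟨?_, ?_, ?_, ?_⟩
    · have h1 := L.add_mem (L.add_mem (L.sub_mem (L.add_mem hl hm) hz) (natsmul_mem hl i))
        (natsmul_mem hm j)
      have h2 : (l.1 + m.1 - z.1 + i * l.1 + j * m.1, l.2 + m.2 - z.2 + i * l.2 + j * m.2) - -w =
          l + m - (z - w) + ((i : ℝ) * l.1, (i : ℝ) * l.2) + ((j : ℝ) * m.1, (j : ℝ) * m.2) := by
        ext
        · simp
          ring
        · simp
          ring
      show (l.1 + m.1 - z.1 + i * l.1 + j * m.1, l.2 + m.2 - z.2 + i * l.2 + j * m.2) - -w ∈ L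
      rw [h2]
      exact h1
    · show 0 < l.1 + m.1 - z.1 + i * l.1 + j * m.1
      rw [hx1]
      have : 0 ≤ (1 - s + i) * l.1 := mul_nonneg (by linarith) hl1.le
      have : 0 < (1 - t + j) * m.1 := mul_pos (by linarith) hm1
      linarith
    · show slope m * (l.1 + m.1 - z.1 + i * l.1 + j * m.1) ≤ l.2 + m.2 - z.2 + i * l.2 + j * m.2
      rw [hx1, hx2, slope, div_mul_eq_mul_div, div_le_iff₀ hm1]
      have : 0 ≤ (1 - s + i) * (l.2 * m.1 - l.1 * m.2) := mul_nonneg (by linarith) hdet.le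
      nlinarith
    · show l.2 + m.2 - z.2 + i * l.2 + j * m.2 < slope l * (l.1 + m.1 - z.1 + i * l.1 + j * m.1)
      rw [hx1, hx2, slope, div_mul_eq_mul_div, lt_div_iff₀ hl1]
      have : 0 < (1 - t + j) * (l.2 * m.1 - l.1 * m.2) := mul_pos (by linarith) hdet
      nlinarith
  · rintro ⟨⟨z, hz, s, t, hs0, hs1, ht0, ht1, e1, e2⟩, i, j⟩
      ⟨⟨z', hz', s', t', hs0', hs1', ht0', ht1', e1', e2'⟩, i', j'⟩ h
    have h1 : l.1 + m.1 - z.1 + i * l.1 + j * m.1 = l.1 + m.1 - z'.1 + i' * l.1 + j' * m.1 :=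
      congrArg (fun x : coneL L (-w) (slope m) (slope l) => (x : ℝ × ℝ).1) h
    have h2 : l.2 + m.2 - z.2 + i * l.2 + j * m.2 = l.2 + m.2 - z'.2 + i' * l.2 + j' * m.2 :=
      congrArg (fun x : coneL L (-w) (slope m) (slope l) => (x : ℝ × ℝ).2) h
    have h3 := coord_unique (l := l) (m := m) hdet (s := -s + i) (t := -t + j) (s' := -s' + i')
      (t' := -t' + j') (by rw [e1, e1'] at h1; linarith) (by rw [e2, e2'] at h2; linarith)
    obtain ⟨h4, h5⟩ := h3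
    have h6 : i = i' := by
      have h7 : (i : ℝ) < i' + 1 := by linarith
      have h8 : (i' : ℝ) < i + 1 := by linarith
      have h9 : i < i' + 1 := by exact_mod_cast h7
      have h10 : i' < i + 1 := by exact_mod_cast h8
      omega
    have h7 : j = j' := by
      have h7 : (j : ℝ) < j' + 1 := by linarith
      have h8 : (j' : ℝ) < j + 1 := by linarith
      have h9 : j < j' + 1 := by exact_mod_cast h7
      have h10 : j' < j + 1 := by exact_mod_cast h8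
      omega
    subst h6
    subst h7
    have h8 : z = z' := by
      ext
      · linarith
      · linarith
    subst h8
    rfl
  · rintro ⟨x, hx, hx1, hx2, hx3⟩
    obtain ⟨e1, e2⟩ := coord_exists (l := l) (m := m) hdet x
    set s : ℝ := (x.2 * m.1 - x.1 * m.2) / (l.2 * m.1 - l.1 * m.2) with hs
    set t : ℝ := (l.2 * x.1 - l.1 * x.2) / (l.2 * m.1 - l.1 * m.2) with ht
    have hs0 : 0 ≤ s := by
      rw [slope, div_mul_eq_mul_div, div_le_iff₀ hm1] at hx2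
      refine div_nonneg ?_ hdet.le
      linarith
    have ht0 : 0 < t := by
      rw [slope, div_mul_eq_mul_div, lt_div_iff₀ hl1] at hx3
      refine div_pos ?_ hdet
      linarith
    have hc1 : (1 : ℕ) ≤ ⌈t⌉₊ := Nat.one_le_iff_ne_zero.2 (Nat.ceil_pos.2 ht0).ne'
    have hc2 : ((⌈t⌉₊ - 1 : ℕ) : ℝ) = (⌈t⌉₊ : ℝ) - 1 := by
      rw [Nat.cast_sub hc1, Nat.cast_one]
    have hc3 : t ≤ ⌈t⌉₊ := Nat.le_ceil t
    have hc4 : (⌈t⌉₊ : ℝ) < t + 1 := Nat.ceil_lt_add_one ht0.le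
    have hf1 : (⌊s⌋₊ : ℝ) ≤ s := Nat.floor_le hs0
    have hf2 : s < ⌊s⌋₊ + 1 := Nat.lt_floor_add_one s
    refine ⟨⟨⟨(l.1 + m.1 - (x.1 - ⌊s⌋₊ * l.1 - (⌈t⌉₊ - 1 : ℕ) * m.1),
      l.2 + m.2 - (x.2 - ⌊s⌋₊ * l.2 - (⌈t⌉₊ - 1 : ℕ) * m.2)), ?_, 1 - (s - ⌊s⌋₊),
      1 - (t - (⌈t⌉₊ - 1 : ℕ)), ?_, ?_, ?_, ?_, ?_, ?_⟩, ⌊s⌋₊, ⌈t⌉₊ - 1⟩, ?_⟩
    · have h1 := L.sub_mem (L.add_mem hl hm)
        (L.sub_mem (L.sub_mem hx (natsmul_mem hl ⌊s⌋₊)) (natsmul_mem hm (⌈t⌉₊ - 1)))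
      have h2 : (l.1 + m.1 - (x.1 - ⌊s⌋₊ * l.1 - (⌈t⌉₊ - 1 : ℕ) * m.1),
          l.2 + m.2 - (x.2 - ⌊s⌋₊ * l.2 - (⌈t⌉₊ - 1 : ℕ) * m.2)) - w =
          l + m - (x - -w - ((⌊s⌋₊ : ℝ) * l.1, (⌊s⌋₊ : ℝ) * l.2) -
            (((⌈t⌉₊ - 1 : ℕ) : ℝ) * m.1, ((⌈t⌉₊ - 1 : ℕ) : ℝ) * m.2)) := by
        ext
        · simp only [Prod.fst_sub, Prod.fst_add, Prod.fst_neg]
          ring
        · simp only [Prod.snd_sub, Prod.snd_add, Prod.snd_neg]
          ring
      rw [h2]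
      exact h1
    · linarith
    · linarith
    · rw [hc2]
      linarith
    · rw [hc2]
      linarith
    · simp only
      linear_combination -e1
    · simp only
      linear_combination -e2
    · apply Subtype.ext
      ext
      · simp only
        ring
      · simp only
        ring

end

end Zau.Cone
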