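import Mathlib
import Pool.Agent.Lib_zau.ConeSum

/-!
# The cone sums as finite sums, and the logarithm `BB` of the product of double sines
-/

set_option autoImplicit false

open MeasureTheory Set Filter Topology
open scoped Real

namespace Zau.Cone

theorem hasSum_prod3 {ι : Type*} [Fintype ι] (f : ι → ℝ) (hf : ∀ i, 0 ≤ f i) {x y : ℝ}
    (hx0 : 0 ≤ x) (hx1 : x < 1) (hy0 : 0 ≤ y) (hy1 : y < 1) :
    HasSum (fun p : ι × ℕ × ℕ => f p.1 * (x ^ p.2.1 * y ^ p.2.2))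
      ((∑ i, f i) * ((1 - x)⁻¹ * (1 - y)⁻¹)) := by
  have h1 : HasSum (fun p : ℕ × ℕ => x ^ p.1 * y ^ p.2) ((1 - x)⁻¹ * (1 - y)⁻¹) :=
    (hasSum_geometric_of_lt_one hx0 hx1).mul (hasSum_geometric_of_lt_one hy0 hy1)
      ((summable_geometric_of_lt_one hx0 hx1).mul_of_nonneg
        (summable_geometric_of_lt_one hy0 hy1) (fun n => pow_nonneg hx0 n)
        (fun n => pow_nonneg hy0 n))
  exact (hasSum_fintype f).mul h1 ((hasSum_fintype f).summable.mul_of_nonneg h1.summable hf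
    fun p => mul_nonneg (pow_nonneg hx0 _) (pow_nonneg hy0 _))

/-- The logarithm of the product of the double sine functions over the parallelogram. -/
noncomputable def BB (L : AddSubgroup (ℝ × ℝ)) (w l m : ℝ × ℝ) : ℝ :=
  ∑ᶠ z ∈ Par L w l m, LS l.1 m.1 z.1

/-- The cone function. -/
noncomputable def FF (L : AddSubgroup (ℝ × ℝ)) (w : ℝ × ℝ) (a b t : ℝ) : ℝ :=
  Phi (coneR L w a b) t - Phi (coneL L (-w) a b) t

section

variable {L : AddSubgroup (ℝ × ℝ)} {w l m : ℝ × ℝ}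

theorem exp_lt {a t : ℝ} (ha : 0 < a) (ht : 0 < t) : Real.exp (-(2 * a * t)) < 1 := by
  rw [Real.exp_lt_one_iff]
  have := mul_pos ha ht
  linarith

theorem exp_pow (a t : ℝ) (i : ℕ) : Real.exp (-(2 * a * t)) ^ i = Real.exp (-(2 * (i * a) * t)) := by
  rw [← Real.exp_nat_mul]
  congr 1
  ring

theorem coneR_hasSum (hL : IsLat L) (hl : l ∈ L) (hm : m ∈ L) (hl1 : 0 < l.1) (hm1 : 0 < m.1)
    (hdet : 0 < l.2 * m.1 - l.1 * m.2) {t : ℝ} (ht : 0 < t) :
    HasSum (fun x : coneR L w (slope m) (slope l) => Real.exp (-(2 * (x : ℝ × ℝ).1 * t)))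
      ((∑ z ∈ (par_finite hL w l m).toFinset, Real.exp (-(2 * z.1 * t))) *
        ((1 - Real.exp (-(2 * l.1 * t)))⁻¹ * (1 - Real.exp (-(2 * m.1 * t)))⁻¹)) := by
  have _i : Fintype (Par L w l m) := (par_finite hL w l m).fintype
  have h1 := hasSum_prod3 (fun z : Par L w l m => Real.exp (-(2 * (z : ℝ × ℝ).1 * t)))
    (fun z => (Real.exp_pos _).le) (Real.exp_pos (-(2 * l.1 * t))).le (exp_lt hl1 ht)
    (Real.exp_pos (-(2 * m.1 * t))).le (exp_lt hm1 ht)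
  rw [Finset.sum_subtype (p := fun z => z ∈ Par L w l m) (par_finite hL w l m).toFinset
    (fun x => by simp) (fun z => Real.exp (-(2 * z.1 * t)))]
  rw [← (equivR (w := w) hl hm hl1 hm1 hdet).hasSum_iff]
  have h3 : (fun p : (Par L w l m) × ℕ × ℕ => Real.exp (-(2 * (p.1 : ℝ × ℝ).1 * t)) *
      (Real.exp (-(2 * l.1 * t)) ^ p.2.1 * Real.exp (-(2 * m.1 * t)) ^ p.2.2)) =
      (fun x : coneR L w (slope m) (slope l) => Real.exp (-(2 * (x : ℝ × ℝ).1 * t))) ∘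
        (equivR (w := w) hl hm hl1 hm1 hdet) := by
    funext p
    simp only [Function.comp_apply]
    rw [exp_pow, exp_pow, ← Real.exp_add, ← Real.exp_add]
    congr 1
    show _ = -(2 * ((p.1 : ℝ × ℝ).1 + p.2.1 * l.1 + p.2.2 * m.1) * t)
    ring
  rw [h3] at h1
  exact h1

theorem coneL_hasSum (hL : IsLat L) (hl : l ∈ L) (hm : m ∈ L) (hl1 : 0 < l.1) (hm1 : 0 < m.1)
    (hdet : 0 < l.2 * m.1 - l.1 * m.2) {t : ℝ} (ht : 0 < t) :
    HasSum (fun x : coneL L (-w) (slope m) (slope l) => Real.exp (-(2 * (x : ℝ × ℝ).1 * t)))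
      ((∑ z ∈ (par_finite hL w l m).toFinset, Real.exp (-(2 * (l.1 + m.1 - z.1) * t))) *
        ((1 - Real.exp (-(2 * l.1 * t)))⁻¹ * (1 - Real.exp (-(2 * m.1 * t)))⁻¹)) := by
  have _i : Fintype (Par L w l m) := (par_finite hL w l m).fintype
  have h1 := hasSum_prod3
    (fun z : Par L w l m => Real.exp (-(2 * (l.1 + m.1 - (z : ℝ × ℝ).1) * t)))
    (fun z => (Real.exp_pos _).le) (Real.exp_pos (-(2 * l.1 * t))).le (exp_lt hl1 ht)
    (Real.exp_pos (-(2 * m.1 * t))).le (exp_lt hm1 ht)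
  rw [Finset.sum_subtype (p := fun z => z ∈ Par L w l m) (par_finite hL w l m).toFinset
    (fun x => by simp) (fun z => Real.exp (-(2 * (l.1 + m.1 - z.1) * t)))]
  rw [← (equivL (w := w) hl hm hl1 hm1 hdet).hasSum_iff]
  have h3 : (fun p : (Par L w l m) × ℕ × ℕ =>
      Real.exp (-(2 * (l.1 + m.1 - (p.1 : ℝ × ℝ).1) * t)) *
      (Real.exp (-(2 * l.1 * t)) ^ p.2.1 * Real.exp (-(2 * m.1 * t)) ^ p.2.2)) =
      (fun x : coneL L (-w) (slope m) (slope l) => Real.exp (-(2 * (x : ℝ × ℝ).1 * t))) ∘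
        (equivL (w := w) hl hm hl1 hm1 hdet) := by
    funext p
    simp only [Function.comp_apply]
    rw [exp_pow, exp_pow, ← Real.exp_add, ← Real.exp_add]
    congr 1
    show _ = -(2 * (l.1 + m.1 - (p.1 : ℝ × ℝ).1 + p.2.1 * l.1 + p.2.2 * m.1) * t)
    ring
  rw [h3] at h1
  exact h1

theorem FF_eq (hL : IsLat L) (hl : l ∈ L) (hm : m ∈ L) (hl1 : 0 < l.1) (hm1 : 0 < m.1)
    (hdet : 0 < l.2 * m.1 - l.1 * m.2) {t : ℝ} (ht : 0 < t) :
    FF L w (slope m) (slope l) t =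
      ∑ z ∈ (par_finite hL w l m).toFinset, dsK l.1 m.1 z.1 t := by
  have h1 := (coneR_hasSum (w := w) hL hl hm hl1 hm1 hdet ht).tsum_eq
  have h2 := (coneL_hasSum (w := w) hL hl hm hl1 hm1 hdet ht).tsum_eq
  unfold FF Phi
  rw [h1, h2, ← sub_mul, ← Finset.sum_sub_distrib, Finset.sum_mul]
  refine Finset.sum_congr rfl fun z _ => ?_
  rw [dsK_eq hl1 hm1 ht, div_eq_mul_inv, mul_inv]

theorem par_pos (hl1 : 0 < l.1) (hm1 : 0 < m.1) {z : ℝ × ℝ} (hz : z ∈ Par L w l m) :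
    0 < z.1 ∧ z.1 < l.1 + m.1 := by
  obtain ⟨_, s, t, hs0, hs1, ht0, ht1, e1, _⟩ := hz
  have h1 := mul_pos hs0 hl1
  have h2 := mul_nonneg ht0 hm1.le
  have h3 := mul_le_mul_of_nonneg_right hs1 hl1.le
  have h4 := mul_lt_mul_of_pos_right ht1 hm1
  constructor <;> linarith

/-- The regularised integral of the cone function. -/
theorem hasJ_FF (hL : IsLat L) (hl : l ∈ L) (hm : m ∈ L) (hl1 : 0 < l.1) (hm1 : 0 < m.1)
    (hdet : 0 < l.2 * m.1 - l.1 * m.2) :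
    HasJ (FF L w (slope m) (slope l)) (BB L w l m) := by
  have h1 : HasJ (fun t => ∑ z ∈ (par_finite hL w l m).toFinset, dsK l.1 m.1 z.1 t)
      (∑ z ∈ (par_finite hL w l m).toFinset, LS l.1 m.1 z.1) := by
    refine HasJ.sum _ fun z hz => ?_
    rw [Set.Finite.mem_toFinset] at hz
    exact hasJ_LS hl1 hm1 (par_pos hl1 hm1 hz).1 (par_pos hl1 hm1 hz).2
  have h2 : BB L w l m = ∑ z ∈ (par_finite hL w l m).toFinset, LS l.1 m.1 z.1 :=
    finsum_mem_eq_finite_toFinset_sum _ _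
  rw [h2]
  exact h1.congr fun t ht => (FF_eq hL hl hm hl1 hm1 hdet ht).symm

end

end Zau.Cone
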