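import Mathlib
import Pool.Agent.Lib_zau.ConeB

/-!
# Properties of the cone product `BB`: translation, distribution, scaling, additivity of cones,
independence of the marking, powers, oddness
-/

set_option autoImplicit false

open MeasureTheory Set Filter Topology
open scoped Real

namespace Zau.Cone

section basics

variable {L L' : AddSubgroup (ℝ × ℝ)} {w w' l m : ℝ × ℝ}

theorem slope_lt_iff (hl1 : 0 < l.1) (hm1 : 0 < m.1) :
    slope m < slope l ↔ 0 < l.2 * m.1 - l.1 * m.2 := by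
  unfold slope
  rw [div_lt_div_iff₀ hm1 hl1]
  constructor <;> intro h <;> linarith

theorem par_congr (h : w - w' ∈ L) : Par L w l m = Par L w' l m := by
  ext z
  have h1 : z - w ∈ L ↔ z - w' ∈ L := by
    constructor
    · intro h2
      have := L.add_mem h2 h
      rwa [sub_add_sub_cancel] at this
    · intro h2
      have := L.sub_mem h2 h
      rwa [sub_sub_sub_cancel_right] at this
  unfold Par
  simp only [mem_ofPred_eq, h1]

/-- `BB` depends only on the class of `w` modulo `L`. -/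
theorem BB_congr (h : w - w' ∈ L) : BB L w l m = BB L w' l m := by
  unfold BB
  rw [par_congr h]

/-- Distribution relation. -/
theorem BB_dist (hL : IsLat L) (hLL : L ≤ L') (R : Finset (ℝ × ℝ)) (hR : ∀ c ∈ R, c ∈ L')
    (hR1 : ∀ x ∈ L', ∃ c ∈ R, x - c ∈ L) (hR2 : ∀ c ∈ R, ∀ c' ∈ R, c - c' ∈ L → c = c') :
    BB L' w l m = ∑ c ∈ R, BB L (w + c) l m := by
  have h1 : Par L' w l m = ⋃ c ∈ (R : Set (ℝ × ℝ)), Par L (w + c) l m := by
    ext z
    simp only [mem_iUnion, Par, mem_ofPred_eq, exists_prop]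
    constructor
    · rintro ⟨hz, h⟩
      obtain ⟨c, hc, h2⟩ := hR1 _ hz
      exact ⟨c, hc, by rwa [← sub_sub], h⟩
    · rintro ⟨c, hc, hz, h⟩
      refine ⟨?_, h⟩
      have := L'.add_mem (hLL hz) (hR c hc)
      rwa [← sub_sub, sub_add_cancel] at this
  unfold BB
  rw [h1, finsum_mem_biUnion]
  · exact finsum_mem_coe_finset _ _
  · intro c hc c' hc' hne
    rw [Function.onFun, Set.disjoint_left]
    rintro z ⟨hz, _⟩ ⟨hz', _⟩
    apply hne
    refine hR2 c hc c' hc' ?_
    have := L.sub_mem hz' hz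
    have e : z - (w + c') - (z - (w + c)) = c - c' := by abel
    rwa [e] at this
  · exact R.finite_toSet
  · intro c _
    exact par_finite hL _ _ _

/-- Scaling of the lattice, the point and the marking. -/
theorem BB_scale {c1 c2 : ℝ} (hc1 : 0 < c1) (hc2 : 0 < c2) (hl1 : 0 < l.1) (hm1 : 0 < m.1)
    (hLL : ∀ x : ℝ × ℝ, x ∈ L ↔ (c1 * x.1, c2 * x.2) ∈ L')
    (hw : (c1 * w.1, c2 * w.2) - w' ∈ L') :
    BB L' w' (c1 * l.1, c2 * l.2) (c1 * m.1, c2 * m.2) = BB L w l m := by
  set D : ℝ × ℝ → ℝ × ℝ := fun x => (c1 * x.1, c2 * x.2) with hD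
  have hinj : Function.Injective D := by
    intro x y h
    have h1 : c1 * x.1 = c1 * y.1 := congrArg Prod.fst h
    have h2 : c2 * x.2 = c2 * y.2 := congrArg Prod.snd h
    ext
    · exact mul_left_cancel₀ hc1.ne' h1
    · exact mul_left_cancel₀ hc2.ne' h2
  have h1 : Par L' w' (D l) (D m) = D '' Par L w l m := by
    rw [← par_congr hw]
    ext z
    constructor
    · rintro ⟨hz, s, t, hs0, hs1, ht0, ht1, e1, e2⟩
      have hzD : D (z.1 / c1, z.2 / c2) = z := by
        ext
        · simp only [hD]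
          field_simp
        · simp only [hD]
          field_simp
      refine ⟨(z.1 / c1, z.2 / c2), ⟨?_, s, t, hs0, hs1, ht0, ht1, ?_, ?_⟩, hzD⟩
      · rw [hLL]
        have e : (c1 * ((z.1 / c1, z.2 / c2) - w).1, c2 * ((z.1 / c1, z.2 / c2) - w).2) =
            z - (c1 * w.1, c2 * w.2) := by
          ext
          · simp only [Prod.fst_sub]
            field_simp
          · simp only [Prod.snd_sub]
            field_simp
        rw [e]
        exact hz
      · simp only [hD] at e1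
        simp only
        rw [e1]
        field_simp
      · simp only [hD] at e2
        simp only
        rw [e2]
        field_simp
    · rintro ⟨x, ⟨hx, s, t, hs0, hs1, ht0, ht1, e1, e2⟩, rfl⟩
      refine ⟨?_, s, t, hs0, hs1, ht0, ht1, ?_, ?_⟩
      · rw [hLL] at hx
        have e : (c1 * (x - w).1, c2 * (x - w).2) = D x - (c1 * w.1, c2 * w.2) := by
          ext
          · simp only [Prod.fst_sub, hD]
            ring
          · simp only [Prod.snd_sub, hD]
            ring
        rwa [e] at hx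
      · simp only [hD]
        rw [e1]
        ring
      · simp only [hD]
        rw [e2]
        ring
  show BB L' w' (D l) (D m) = BB L w l m
  unfold BB
  rw [h1, finsum_mem_image hinj.injOn]
  refine finsum_mem_congr rfl fun z hz => ?_
  have h2 := par_pos hl1 hm1 hz
  exact LS_scale hl1 hm1 h2.1 h2.2 hc1

end basics

section cones

variable {L L' : AddSubgroup (ℝ × ℝ)} {w w' l m : ℝ × ℝ} {a b c t : ℝ}

theorem coneR_self : coneR L w a a = ∅ := by
  ext x
  simp only [coneR, mem_ofPred_eq, mem_empty_iff_false, iff_false]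
  rintro ⟨_, _, h1, h2⟩
  linarith

theorem coneL_self : coneL L w a a = ∅ := by
  ext x
  simp only [coneL, mem_ofPred_eq, mem_empty_iff_false, iff_false]
  rintro ⟨_, _, h1, h2⟩
  linarith

theorem coneR_union (h1 : a ≤ b) (h2 : b ≤ c) :
    coneR L w a c = coneR L w b c ∪ coneR L w a b := by
  ext x
  simp only [coneR, mem_ofPred_eq, mem_union]
  constructor
  · rintro ⟨hx, h3, h4, h5⟩
    by_cases h6 : b * x.1 < x.2
    · exact Or.inl ⟨hx, h3, h6, h5⟩
    · exact Or.inr ⟨hx, h3, h4, not_lt.1 h6⟩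
  · rintro (⟨hx, h3, h4, h5⟩ | ⟨hx, h3, h4, h5⟩)
    · exact ⟨hx, h3, lt_of_le_of_lt (mul_le_mul_of_nonneg_right h1 h3.le) h4, h5⟩
    · exact ⟨hx, h3, h4, h5.trans (mul_le_mul_of_nonneg_right h2 h3.le)⟩

theorem coneR_disj : Disjoint (coneR L w b c) (coneR L w a b) := by
  rw [Set.disjoint_left]
  rintro x ⟨_, _, h1, _⟩ ⟨_, _, _, h2⟩
  linarith

theorem coneL_union (h1 : a ≤ b) (h2 : b ≤ c) :
    coneL L w a c = coneL L w b c ∪ coneL L w a b := by
  ext x
  simp only [coneL, mem_ofPred_eq, mem_union]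
  constructor
  · rintro ⟨hx, h3, h4, h5⟩
    by_cases h6 : b * x.1 ≤ x.2
    · exact Or.inl ⟨hx, h3, h6, h5⟩
    · exact Or.inr ⟨hx, h3, h4, not_le.1 h6⟩
  · rintro (⟨hx, h3, h4, h5⟩ | ⟨hx, h3, h4, h5⟩)
    · exact ⟨hx, h3, (mul_le_mul_of_nonneg_right h1 h3.le).trans h4, h5⟩
    · exact ⟨hx, h3, h4, lt_of_lt_of_le h5 (mul_le_mul_of_nonneg_right h2 h3.le)⟩

theorem coneL_disj : Disjoint (coneL L w b c) (coneL L w a b) := by
  rw [Set.disjoint_left]
  rintro x ⟨_, _, h1, _⟩ ⟨_, _, _, h2⟩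
  linarith

theorem sumR (hL : IsLat L) (hl : l ∈ L) (hm : m ∈ L) (hl1 : 0 < l.1) (hm1 : 0 < m.1)
    (h : slope m ≤ slope l) (ht : 0 < t) : SumOn (coneR L w (slope m) (slope l)) t := by
  rcases h.lt_or_eq with h1 | h1
  · exact (coneR_hasSum hL hl hm hl1 hm1 ((slope_lt_iff hl1 hm1).1 h1) ht).summable
  · rw [h1, coneR_self]
    exact summable_empty

theorem sumL (hL : IsLat L) (hl : l ∈ L) (hm : m ∈ L) (hl1 : 0 < l.1) (hm1 : 0 < m.1)
    (h : slope m ≤ slope l) (ht : 0 < t) : SumOn (coneL L w (slope m) (slope l)) t := by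
  rcases h.lt_or_eq with h1 | h1
  · have := (coneL_hasSum (w := -w) hL hl hm hl1 hm1 ((slope_lt_iff hl1 hm1).1 h1) ht).summable
    rwa [neg_neg] at this
  · rw [h1, coneL_self]
    exact summable_empty

theorem FF_self : FF L w a a t = 0 := by
  unfold FF
  rw [coneR_self, coneL_self, Phi_empty, sub_zero]

theorem FF_add (h1 : a ≤ b) (h2 : b ≤ c) (hR1 : SumOn (coneR L w b c) t)
    (hR2 : SumOn (coneR L w a b) t) (hL1 : SumOn (coneL L (-w) b c) t)
    (hL2 : SumOn (coneL L (-w) a b) t) : FF L w a c t = FF L w b c t + FF L w a b t := by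
  unfold FF
  rw [coneR_union h1 h2, coneL_union h1 h2, Phi_union coneR_disj hR1 hR2,
    Phi_union coneL_disj hL1 hL2]
  ring

/-- The cone function has a regularised integral. -/
theorem hasJ_ex (hL : IsLat L) (hl : l ∈ L) (hm : m ∈ L) (hl1 : 0 < l.1) (hm1 : 0 < m.1)
    (h : slope m ≤ slope l) : ∃ v, HasJ (FF L w (slope m) (slope l)) v := by
  rcases h.lt_or_eq with h1 | h1
  · exact ⟨_, hasJ_FF hL hl hm hl1 hm1 ((slope_lt_iff hl1 hm1).1 h1)⟩
  · refine ⟨0, HasJ.zero.congr fun t _ => ?_⟩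
    rw [h1, FF_self]

/-- Scaling of the cone sums. -/
theorem Phi_coneR_scale {c1 c2 : ℝ} (hc1 : 0 < c1) (hc2 : 0 < c2)
    (hLL : ∀ x : ℝ × ℝ, x ∈ L ↔ (c1 * x.1, c2 * x.2) ∈ L')
    (hw : (c1 * w.1, c2 * w.2) - w' ∈ L') :
    Phi (coneR L' w' (c2 / c1 * a) (c2 / c1 * b)) t = Phi (coneR L w a b) (c1 * t) := by
  have hmem : ∀ x : ℝ × ℝ, x ∈ coneR L w a b ↔
      (c1 * x.1, c2 * x.2) ∈ coneR L' w' (c2 / c1 * a) (c2 / c1 * b) := by
    intro x
    have h1 : x - w ∈ L ↔ (c1 * x.1, c2 * x.2) - w' ∈ L' := by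
      rw [hLL]
      have e : (c1 * x.1, c2 * x.2) - w' =
          (c1 * (x - w).1, c2 * (x - w).2) + ((c1 * w.1, c2 * w.2) - w') := by
        ext
        · simp only [Prod.fst_sub, Prod.fst_add]
          ring
        · simp only [Prod.snd_sub, Prod.snd_add]
          ring
      rw [e, L'.add_mem_cancel_right hw]
    have e1 : ∀ r : ℝ, c2 / c1 * r * (c1 * x.1) = c2 * (r * x.1) := by
      intro r
      field_simp
    simp only [coneR, mem_ofPred_eq, h1, e1, mul_lt_mul_iff_right₀ hc2, mul_le_mul_iff_right₀ hc2,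
      mul_pos_iff_of_pos_left hc1]
  have hsurj : ∀ y : ℝ × ℝ, (c1 * (y.1 / c1), c2 * (y.2 / c2)) = y := by
    intro y
    ext
    · simp only
      field_simp
    · simp only
      field_simp
  let e : coneR L w a b ≃ coneR L' w' (c2 / c1 * a) (c2 / c1 * b) :=
    { toFun := fun x => ⟨(c1 * (x : ℝ × ℝ).1, c2 * (x : ℝ × ℝ).2), (hmem x).1 x.2⟩
      invFun := fun y => ⟨((y : ℝ × ℝ).1 / c1, (y : ℝ × ℝ).2 / c2),
        (hmem _).2 (by
          simp only
          rw [hsurj]
          exact y.2)⟩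
      left_inv := fun x => by
        apply Subtype.ext
        ext
        · simp only
          field_simp
        · simp only
          field_simp
      right_inv := fun y => by
        apply Subtype.ext
        simp only
        exact hsurj y }
  unfold Phi
  rw [← e.tsum_eq]
  refine tsum_congr fun x => ?_
  congr 1
  show -(2 * (c1 * (x : ℝ × ℝ).1) * t) = _
  ring

theorem Phi_coneL_scale {c1 c2 : ℝ} (hc1 : 0 < c1) (hc2 : 0 < c2)
    (hLL : ∀ x : ℝ × ℝ, x ∈ L ↔ (c1 * x.1, c2 * x.2) ∈ L')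
    (hw : (c1 * w.1, c2 * w.2) - w' ∈ L') :
    Phi (coneL L' w' (c2 / c1 * a) (c2 / c1 * b)) t = Phi (coneL L w a b) (c1 * t) := by
  have hmem : ∀ x : ℝ × ℝ, x ∈ coneL L w a b ↔
      (c1 * x.1, c2 * x.2) ∈ coneL L' w' (c2 / c1 * a) (c2 / c1 * b) := by
    intro x
    have h1 : x - w ∈ L ↔ (c1 * x.1, c2 * x.2) - w' ∈ L' := by
      rw [hLL]
      have e : (c1 * x.1, c2 * x.2) - w' =
          (c1 * (x - w).1, c2 * (x - w).2) + ((c1 * w.1, c2 * w.2) - w') := by
        ext
        · simp only [Prod.fst_sub, Prod.fst_add]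
          ring
        · simp only [Prod.snd_sub, Prod.snd_add]
          ring
      rw [e, L'.add_mem_cancel_right hw]
    have e1 : ∀ r : ℝ, c2 / c1 * r * (c1 * x.1) = c2 * (r * x.1) := by
      intro r
      field_simp
    simp only [coneL, mem_ofPred_eq, h1, e1, mul_lt_mul_iff_right₀ hc2, mul_le_mul_iff_right₀ hc2,
      mul_pos_iff_of_pos_left hc1]
  have hsurj : ∀ y : ℝ × ℝ, (c1 * (y.1 / c1), c2 * (y.2 / c2)) = y := by
    intro y
    ext
    · simp only
      field_simp
    · simp only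
      field_simp
  let e : coneL L w a b ≃ coneL L' w' (c2 / c1 * a) (c2 / c1 * b) :=
    { toFun := fun x => ⟨(c1 * (x : ℝ × ℝ).1, c2 * (x : ℝ × ℝ).2), (hmem x).1 x.2⟩
      invFun := fun y => ⟨((y : ℝ × ℝ).1 / c1, (y : ℝ × ℝ).2 / c2),
        (hmem _).2 (by
          simp only
          rw [hsurj]
          exact y.2)⟩
      left_inv := fun x => by
        apply Subtype.ext
        ext
        · simp only
          field_simp
        · simp only
          field_simp
      right_inv := fun y => by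
        apply Subtype.ext
        simp only
        exact hsurj y }
  unfold Phi
  rw [← e.tsum_eq]
  refine tsum_congr fun x => ?_
  congr 1
  show -(2 * (c1 * (x : ℝ × ℝ).1) * t) = _
  ring

theorem Phi_ray_scale {c1 c2 : ℝ} (hc1 : 0 < c1) (hc2 : 0 < c2)
    (hLL : ∀ x : ℝ × ℝ, x ∈ L ↔ (c1 * x.1, c2 * x.2) ∈ L')
    (hw : (c1 * w.1, c2 * w.2) - w' ∈ L') :
    Phi (ray L' w' (c2 / c1 * b)) t = Phi (ray L w b) (c1 * t) := by
  have hmem : ∀ x : ℝ × ℝ, x ∈ ray L w b ↔
      (c1 * x.1, c2 * x.2) ∈ ray L' w' (c2 / c1 * b) := by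
    intro x
    have h1 : x - w ∈ L ↔ (c1 * x.1, c2 * x.2) - w' ∈ L' := by
      rw [hLL]
      have e : (c1 * x.1, c2 * x.2) - w' =
          (c1 * (x - w).1, c2 * (x - w).2) + ((c1 * w.1, c2 * w.2) - w') := by
        ext
        · simp only [Prod.fst_sub, Prod.fst_add]
          ring
        · simp only [Prod.snd_sub, Prod.snd_add]
          ring
      rw [e, L'.add_mem_cancel_right hw]
    have e1 : ∀ r : ℝ, c2 / c1 * r * (c1 * x.1) = c2 * (r * x.1) := by
      intro r
      field_simp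
    simp only [ray, mem_ofPred_eq, h1, e1, mul_right_inj' hc2.ne', mul_pos_iff_of_pos_left hc1]
  have hsurj : ∀ y : ℝ × ℝ, (c1 * (y.1 / c1), c2 * (y.2 / c2)) = y := by
    intro y
    ext
    · simp only
      field_simp
    · simp only
      field_simp
  let e : ray L w b ≃ ray L' w' (c2 / c1 * b) :=
    { toFun := fun x => ⟨(c1 * (x : ℝ × ℝ).1, c2 * (x : ℝ × ℝ).2), (hmem x).1 x.2⟩
      invFun := fun y => ⟨((y : ℝ × ℝ).1 / c1, (y : ℝ × ℝ).2 / c2),
        (hmem _).2 (by
          simp only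
          rw [hsurj]
          exact y.2)⟩
      left_inv := fun x => by
        apply Subtype.ext
        ext
        · simp only
          field_simp
        · simp only
          field_simp
      right_inv := fun y => by
        apply Subtype.ext
        simp only
        exact hsurj y }
  unfold Phi
  rw [← e.tsum_eq]
  refine tsum_congr fun x => ?_
  congr 1
  show -(2 * (c1 * (x : ℝ × ℝ).1) * t) = _
  ring

theorem FF_scale {c1 c2 : ℝ} (hc1 : 0 < c1) (hc2 : 0 < c2)
    (hLL : ∀ x : ℝ × ℝ, x ∈ L ↔ (c1 * x.1, c2 * x.2) ∈ L')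
    (hw : (c1 * w.1, c2 * w.2) - w' ∈ L') :
    FF L' w' (c2 / c1 * a) (c2 / c1 * b) t = FF L w a b (c1 * t) := by
  have hw2 : (c1 * (-w).1, c2 * (-w).2) - (-w') ∈ L' := by
    have := L'.neg_mem hw
    have e : (c1 * (-w).1, c2 * (-w).2) - (-w') = -((c1 * w.1, c2 * w.2) - w') := by
      ext
      · simp only [Prod.fst_sub, Prod.fst_neg]
        ring
      · simp only [Prod.snd_sub, Prod.snd_neg]
        ring
    rwa [e]
  unfold FF
  rw [Phi_coneR_scale hc1 hc2 hLL hw, Phi_coneL_scale hc1 hc2 hLL hw2]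

end cones

end Zau.Cone
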