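import Mathlib
import Pool.Agent.Lib_zau.ConeC

/-!
# Independence of the marking, powers and oddness

`act om x = (om x.1, om⁻¹ x.2)`. For a lattice `L` stable under `act om`, a point `w` fixed modulo `L` and
`l ∈ L` with positive coordinates let `B = BB L w l (act om l)`. Then `B` does not depend on `l`, the number
for `om ^ j` is `j B`, and `B` is odd in `w` (for `w ∉ L`).
-/

set_option autoImplicit false

open MeasureTheory Set Filter Topology
open scoped Real

namespace Zau.Cone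

/-- Multiplication by the unit. -/
noncomputable def act (om : ℝ) (x : ℝ × ℝ) : ℝ × ℝ := (om * x.1, om⁻¹ * x.2)

/-- The lattice is stable. -/
def Stab (L : AddSubgroup (ℝ × ℝ)) (om : ℝ) : Prop := ∀ x : ℝ × ℝ, x ∈ L ↔ act om x ∈ L

/-- The logarithm of the ghost overlap of the point `w` with the marking `l`. -/
noncomputable def BO (L : AddSubgroup (ℝ × ℝ)) (om : ℝ) (l w : ℝ × ℝ) : ℝ := BB L w l (act om l)

section

variable {L : AddSubgroup (ℝ × ℝ)} {om : ℝ} {w l m : ℝ × ℝ}

theorem act_slope (_hom : om ≠ 0) : slope (act om l) = om⁻¹ / om * slope l := by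
  unfold slope act
  simp only
  rw [mul_div_mul_comm]

theorem act_fst : (act om l).1 = om * l.1 := rfl

theorem act_snd : (act om l).2 = om⁻¹ * l.2 := rfl

theorem slope_pos (h1 : 0 < l.1) (h2 : 0 < l.2) : 0 < slope l := div_pos h2 h1

theorem fac_pos (hom : 1 < om) : 0 < om⁻¹ / om := by positivity

theorem fac_lt_one (hom : 1 < om) : om⁻¹ / om < 1 := by
  rw [div_lt_one (by linarith)]
  have h1 : om⁻¹ < 1 := inv_lt_one_of_one_lt₀ hom
  linarith

theorem act_slope_lt (hom : 1 < om) (h1 : 0 < l.1) (h2 : 0 < l.2) :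
    slope (act om l) < slope l := by
  rw [act_slope (by linarith)]
  have h3 := mul_lt_mul_of_pos_right (fac_lt_one hom) (slope_pos h1 h2)
  rwa [one_mul] at h3

theorem act_pos (hom : 1 < om) (h1 : 0 < l.1) (h2 : 0 < l.2) :
    0 < (act om l).1 ∧ 0 < (act om l).2 := by
  unfold act
  constructor
  · exact mul_pos (by linarith) h1
  · exact mul_pos (by positivity) h2

theorem act_det (hom : 1 < om) (h1 : 0 < l.1) (h2 : 0 < l.2) :
    0 < l.2 * (act om l).1 - l.1 * (act om l).2 :=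
  (slope_lt_iff h1 (act_pos hom h1 h2).1).1 (act_slope_lt hom h1 h2)

/-- The cone function is invariant. -/
theorem FF_act (hom : 1 < om) (hS : Stab L om) (hw : act om w - w ∈ L) {a b t : ℝ} :
    FF L w (om⁻¹ / om * a) (om⁻¹ / om * b) t = FF L w a b (om * t) :=
  FF_scale (by linarith) (by positivity) hS hw

theorem hasJ_act (hom : 1 < om) (hS : Stab L om) (hw : act om w - w ∈ L) {a b v : ℝ}
    (h : HasJ (FF L w a b) v) : HasJ (FF L w (om⁻¹ / om * a) (om⁻¹ / om * b)) v :=
  (h.scale (by linarith : 0 < om)).congr fun _ _ => (FF_act hom hS hw).symm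

theorem hasJ_BO (hL : IsLat L) (hom : 1 < om) (hS : Stab L om) (hl : l ∈ L) (h1 : 0 < l.1)
    (h2 : 0 < l.2) : HasJ (FF L w (slope (act om l)) (slope l)) (BO L om l w) :=
  hasJ_FF hL hl ((hS l).1 hl) h1 (act_pos hom h1 h2).1 (act_det hom h1 h2)

/-- Change of the marking by the unit. -/
theorem BO_act (hL : IsLat L) (hom : 1 < om) (hS : Stab L om) (hw : act om w - w ∈ L) (hl : l ∈ L)
    (h1 : 0 < l.1) (h2 : 0 < l.2) : BO L om (act om l) w = BO L om l w := by
  have h3 := hasJ_BO (w := w) hL hom hS ((hS l).1 hl) (act_pos hom h1 h2).1 (act_pos hom h1 h2).2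
  have h4 := hasJ_act hom hS hw (hasJ_BO (w := w) hL hom hS hl h1 h2)
  rw [act_slope (l := act om l) (by linarith), act_slope (l := l) (by linarith)] at h3
  rw [act_slope (l := l) (by linarith)] at h4
  exact h3.unique h4

/-- The case of two markings in one fundamental domain. -/
theorem BO_indep_aux (hL : IsLat L) (hom : 1 < om) (hS : Stab L om) (hw : act om w - w ∈ L)
    (hl : l ∈ L) (hl1 : 0 < l.1) (hl2 : 0 < l.2) (hm : m ∈ L) (hm1 : 0 < m.1) (hm2 : 0 < m.2)
    (h1 : slope (act om l) ≤ slope m) (h2 : slope m ≤ slope l) : BO L om l w = BO L om m w := by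
  have hal := act_pos hom hl1 hl2
  have ham := act_pos hom hm1 hm2
  have hal' := (hS l).1 hl
  have ham' := (hS m).1 hm
  have h3 : slope (act om m) ≤ slope (act om l) := by
    rw [act_slope (by linarith), act_slope (by linarith)]
    exact mul_le_mul_of_nonneg_left h2 (fac_pos hom).le
  obtain ⟨v, hv⟩ := hasJ_ex (w := w) hL hl hm hl1 hm1 h2
  obtain ⟨u, hu⟩ := hasJ_ex (w := w) hL hm hal' hm1 hal.1 h1
  have hv2 := hasJ_act hom hS hw hv
  rw [← act_slope (by linarith), ← act_slope (by linarith)] at hv2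
  have e1 : HasJ (FF L w (slope (act om l)) (slope l)) (v + u) := by
    refine (hv.add hu).congr fun t ht => ?_
    exact (FF_add h1 h2 (sumR hL hl hm hl1 hm1 h2 ht) (sumR hL hm hal' hm1 hal.1 h1 ht)
      (sumL hL hl hm hl1 hm1 h2 ht) (sumL hL hm hal' hm1 hal.1 h1 ht)).symm
  have e2 : HasJ (FF L w (slope (act om m)) (slope m)) (u + v) := by
    refine (hu.add hv2).congr fun t ht => ?_
    exact (FF_add h3 h1 (sumR hL hm hal' hm1 hal.1 h1 ht) (sumR hL hal' ham' hal.1 ham.1 h3 ht)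
      (sumL hL hm hal' hm1 hal.1 h1 ht) (sumL hL hal' ham' hal.1 ham.1 h3 ht)).symm
  have e3 := (hasJ_BO (w := w) hL hom hS hl hl1 hl2).unique e1
  have e4 := (hasJ_BO (w := w) hL hom hS hm hm1 hm2).unique e2
  rw [e3, e4, add_comm]

/-- Iterates of the unit. -/
theorem iter_spec (hL : IsLat L) (hom : 1 < om) (hS : Stab L om) (hw : act om w - w ∈ L)
    (hl : l ∈ L) (hl1 : 0 < l.1) (hl2 : 0 < l.2) (i : ℕ) :
    (act om)^[i] l ∈ L ∧ 0 < ((act om)^[i] l).1 ∧ 0 < ((act om)^[i] l).2 ∧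
      slope ((act om)^[i] l) = (om⁻¹ / om) ^ i * slope l ∧
      BO L om ((act om)^[i] l) w = BO L om l w := by
  induction i with
  | zero => simp [hl, hl1, hl2]
  | succ i ih =>
    obtain ⟨h1, h2, h3, h4, h5⟩ := ih
    rw [Function.iterate_succ_apply']
    refine ⟨(hS _).1 h1, (act_pos hom h2 h3).1, (act_pos hom h2 h3).2, ?_, ?_⟩
    · rw [act_slope (by linarith), h4, pow_succ]
      ring
    · rw [BO_act hL hom hS hw h1 h2 h3, h5]

theorem BO_indep_le (hL : IsLat L) (hom : 1 < om) (hS : Stab L om) (hw : act om w - w ∈ L)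
    (hl : l ∈ L) (hl1 : 0 < l.1) (hl2 : 0 < l.2) (hm : m ∈ L) (hm1 : 0 < m.1) (hm2 : 0 < m.2)
    (h : slope m ≤ slope l) : BO L om l w = BO L om m w := by
  have hsl := slope_pos hl1 hl2
  have hsm := slope_pos hm1 hm2
  have hq : 1 ≤ slope l / slope m := (one_le_div hsm).2 h
  have hf := fac_pos hom
  have hf1 := fac_lt_one hom
  have hf2 : 1 < (om⁻¹ / om)⁻¹ := (one_lt_inv₀ hf).2 hf1
  obtain ⟨i, hi1, hi2⟩ := exists_nat_pow_near hq hf2
  obtain ⟨g1, g2, g3, g4, g5⟩ := iter_spec (w := w) hL hom hS hw hl hl1 hl2 i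
  rw [← g5]
  refine BO_indep_aux hL hom hS hw g1 g2 g3 hm hm1 hm2 ?_ ?_
  · rw [act_slope (by linarith), g4, ← mul_assoc, ← pow_succ']
    rw [div_lt_iff₀ hsm, inv_pow, inv_mul_eq_div, lt_div_iff₀ (pow_pos hf _)] at hi2
    linarith
  · rw [g4]
    rw [inv_pow, le_div_iff₀ hsm, inv_mul_eq_div, div_le_iff₀ (pow_pos hf _)] at hi1
    linarith

/-- **Independence of the marking.** -/
theorem BO_indep (hL : IsLat L) (hom : 1 < om) (hS : Stab L om) (hw : act om w - w ∈ L)
    (hl : l ∈ L) (hl1 : 0 < l.1) (hl2 : 0 < l.2) (hm : m ∈ L) (hm1 : 0 < m.1) (hm2 : 0 < m.2) :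
    BO L om l w = BO L om m w := by
  rcases le_total (slope m) (slope l) with h | h
  · exact BO_indep_le hL hom hS hw hl hl1 hl2 hm hm1 hm2 h
  · exact (BO_indep_le hL hom hS hw hm hm1 hm2 hl hl1 hl2 h).symm

theorem act_iter (i : ℕ) : (act om)^[i] l = act (om ^ i) l := by
  induction i with
  | zero =>
    ext
    · simp [act]
    · simp [act]
  | succ i ih =>
    rw [Function.iterate_succ_apply', ih]
    unfold act
    ext
    · simp only
      rw [pow_succ]
      ring
    · simp only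
      rw [pow_succ, mul_inv]
      ring

theorem hasJ_pow (hL : IsLat L) (hom : 1 < om) (hS : Stab L om) (hw : act om w - w ∈ L)
    (hl : l ∈ L) (hl1 : 0 < l.1) (hl2 : 0 < l.2) (i : ℕ) :
    HasJ (FF L w (slope ((act om)^[i] l)) (slope l)) (i * BO L om l w) := by
  induction i with
  | zero =>
    simp only [Function.iterate_zero, id_eq, Nat.cast_zero, zero_mul]
    exact HasJ.zero.congr fun t _ => FF_self.symm
  | succ i ih =>
    obtain ⟨g1, g2, g3, g4, g5⟩ := iter_spec (w := w) hL hom hS hw hl hl1 hl2 i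
    have hi := hasJ_BO (w := w) hL hom hS g1 g2 g3
    rw [g5] at hi
    have h1 : slope (act om ((act om)^[i] l)) ≤ slope ((act om)^[i] l) :=
      (act_slope_lt hom g2 g3).le
    have h2 : slope ((act om)^[i] l) ≤ slope l := by
      rw [g4]
      have h3 : (om⁻¹ / om) ^ i ≤ 1 := pow_le_one₀ (fac_pos hom).le (fac_lt_one hom).le
      have h4 := mul_le_mul_of_nonneg_right h3 (slope_pos hl1 hl2).le
      rwa [one_mul] at h4
    rw [Function.iterate_succ_apply']
    have e : ((i + 1 : ℕ) : ℝ) * BO L om l w = i * BO L om l w + BO L om l w := by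
      push_cast
      ring
    rw [e]
    refine (ih.add hi).congr fun t ht => ?_
    have ga := act_pos hom g2 g3
    exact (FF_add h1 h2 (sumR hL hl g1 hl1 g2 h2 ht) (sumR hL g1 ((hS _).1 g1) g2 ga.1 h1 ht)
      (sumL hL hl g1 hl1 g2 h2 ht) (sumL hL g1 ((hS _).1 g1) g2 ga.1 h1 ht)).symm

/-- **Powers of the unit.** -/
theorem BO_pow (hL : IsLat L) (hom : 1 < om) (hS : Stab L om) (hw : act om w - w ∈ L)
    (hl : l ∈ L) (hl1 : 0 < l.1) (hl2 : 0 < l.2) {j : ℕ} (hj : j ≠ 0) :
    BO L (om ^ j) l w = j * BO L om l w := by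
  have h1 := hasJ_pow (w := w) hL hom hS hw hl hl1 hl2 j
  obtain ⟨g1, g2, g3, g4, g5⟩ := iter_spec (w := w) hL hom hS hw hl hl1 hl2 j
  have hom' : 1 < om ^ j := one_lt_pow₀ hom hj
  rw [act_iter] at h1 g1
  have h2 : HasJ (FF L w (slope (act (om ^ j) l)) (slope l)) (BO L (om ^ j) l w) :=
    hasJ_FF hL hl g1 hl1 (act_pos hom' hl1 hl2).1 (act_det hom' hl1 hl2)
  exact h2.unique h1

/-- The cone function of a translated cone, for an arbitrary point. -/
theorem FF_act_gen (hom : 1 < om) (hS : Stab L om) {u : ℝ × ℝ} (hw : act om u - w ∈ L) {a b t : ℝ} :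
    FF L w (om⁻¹ / om * a) (om⁻¹ / om * b) t = FF L u a b (om * t) :=
  FF_scale (by linarith) (by positivity) hS hw

theorem stab_pow (hS : Stab L om) (i : ℕ) : Stab L (om ^ i) := by
  intro x
  rw [← act_iter (l := x) i]
  induction i with
  | zero => simp
  | succ i ih =>
    rw [Function.iterate_succ_apply', ← hS]
    exact ih

theorem hasJ_pow_gen (hL : IsLat L) (hom : 1 < om) (hS : Stab L om)
    (hl : l ∈ L) (hl1 : 0 < l.1) (hl2 : 0 < l.2) (u : ℕ → ℝ × ℝ) (j : ℕ)
    (hu : ∀ i < j, act (om ^ i) (u i) - w ∈ L) :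
    HasJ (FF L w (slope (act (om ^ j) l)) (slope l)) (∑ i ∈ Finset.range j, BO L om l (u i)) := by
  induction j with
  | zero =>
    have e : act (om ^ 0) l = l := by
      unfold act
      ext
      · simp
      · simp
    rw [e, Finset.sum_range_zero]
    exact HasJ.zero.congr fun t _ => FF_self.symm
  | succ j ih =>
    have ih' := ih fun i hi => hu i (by omega)
    have hj := hu j (by omega)
    have hom0 : 0 < om := by linarith
    have homj : 0 < om ^ j := pow_pos hom0 j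
    have hSj := stab_pow hS j
    have hB := hasJ_BO (w := u j) hL hom hS hl hl1 hl2
    have hB2 : HasJ (FF L w ((om ^ j)⁻¹ / om ^ j * slope (act om l)) ((om ^ j)⁻¹ / om ^ j * slope l))
        (BO L om l (u j)) :=
      (hB.scale homj).congr fun t _ => (FF_scale homj (by positivity) hSj hj).symm
    have e1 : (om ^ j)⁻¹ / om ^ j * slope (act om l) = slope (act (om ^ (j + 1)) l) := by
      rw [act_slope hom0.ne', act_slope (pow_ne_zero _ hom0.ne')]
      rw [pow_succ]
      field_simp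
    have e2 : (om ^ j)⁻¹ / om ^ j * slope l = slope (act (om ^ j) l) := by
      rw [act_slope homj.ne']
    rw [e1, e2] at hB2
    have hl' : act (om ^ j) l ∈ L := (hSj l).1 hl
    have hl'' : act (om ^ (j + 1)) l ∈ L := (stab_pow hS (j + 1) l).1 hl
    have hsl := slope_pos hl1 hl2
    have p1 : 0 < (act (om ^ j) l).1 := mul_pos homj hl1
    have p2 : 0 < (act (om ^ (j + 1)) l).1 := mul_pos (pow_pos hom0 _) hl1
    have p3 : 0 < (act (om ^ j) l).2 := mul_pos (inv_pos.2 homj) hl2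
    have h1 : slope (act (om ^ (j + 1)) l) ≤ slope (act (om ^ j) l) := by
      rw [← e1, ← e2]
      exact mul_le_mul_of_nonneg_left (act_slope_lt hom hl1 hl2).le (by positivity)
    have h2 : slope (act (om ^ j) l) ≤ slope l := by
      rw [← e2]
      have h3 : (om ^ j)⁻¹ / om ^ j ≤ 1 := by
        rw [div_le_one homj]
        have h4 : 1 ≤ om ^ j := one_le_pow₀ hom.le
        exact (inv_le_one_of_one_le₀ h4).trans h4
      have h4 := mul_le_mul_of_nonneg_right h3 hsl.le
      rwa [one_mul] at h4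
    rw [Finset.sum_range_succ]
    refine (ih'.add hB2).congr fun t ht => ?_
    exact (FF_add h1 h2 (sumR hL hl hl' hl1 p1 h2 ht) (sumR hL hl' hl'' p1 p2 h1 ht)
      (sumL hL hl hl' hl1 p1 h2 ht) (sumL hL hl' hl'' p1 p2 h1 ht)).symm

/-- **Powers of the unit, arbitrary points.** `u i` is the inverse image of `w` under `om ^ i`. -/
theorem BO_pow_gen (hL : IsLat L) (hom : 1 < om) (hS : Stab L om)
    (hl : l ∈ L) (hl1 : 0 < l.1) (hl2 : 0 < l.2) (u : ℕ → ℝ × ℝ) {j : ℕ} (hj : j ≠ 0)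
    (hu : ∀ i < j, act (om ^ i) (u i) - w ∈ L) :
    BO L (om ^ j) l w = ∑ i ∈ Finset.range j, BO L om l (u i) := by
  have h1 := hasJ_pow_gen (w := w) hL hom hS hl hl1 hl2 u j hu
  have hom' : 1 < om ^ j := one_lt_pow₀ hom hj
  have h2 : HasJ (FF L w (slope (act (om ^ j) l)) (slope l)) (BO L (om ^ j) l w) :=
    hasJ_FF hL hl ((stab_pow hS j l).1 hl) hl1 (act_pos hom' hl1 hl2).1 (act_det hom' hl1 hl2)
  exact h2.unique h1

/-- Scaling. -/
theorem BO_scale {L' : AddSubgroup (ℝ × ℝ)} {w' : ℝ × ℝ} {c1 c2 : ℝ} (hc1 : 0 < c1) (hc2 : 0 < c2)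
    (hom : 1 < om) (hl1 : 0 < l.1)
    (hLL : ∀ x : ℝ × ℝ, x ∈ L ↔ (c1 * x.1, c2 * x.2) ∈ L')
    (hw : (c1 * w.1, c2 * w.2) - w' ∈ L') :
    BO L' om (c1 * l.1, c2 * l.2) w' = BO L om l w := by
  unfold BO
  rw [← BB_scale (l := l) (m := act om l) hc1 hc2 hl1 (by rw [act_fst]; exact mul_pos (by linarith) hl1)
    hLL hw]
  congr 1
  unfold act
  ext
  · simp only
    ring
  · simp only
    ring

end

section odd

variable {L : AddSubgroup (ℝ × ℝ)} {om : ℝ} {w l m : ℝ × ℝ} {a b t : ℝ}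

theorem coneR_ray (h : a < b) : coneR L w a b ∪ ray L w a = coneL L w a b ∪ ray L w b := by
  ext x
  simp only [coneR, coneL, ray, mem_ofPred_eq, mem_union]
  constructor
  · rintro (⟨hx, h3, h4, h5⟩ | ⟨hx, h3, h4⟩)
    · rcases h5.lt_or_eq with h6 | h6
      · exact Or.inl ⟨hx, h3, h4.le, h6⟩
      · exact Or.inr ⟨hx, h3, h6⟩
    · exact Or.inl ⟨hx, h3, h4.ge, by rw [h4]; exact mul_lt_mul_of_pos_right h h3⟩
  · rintro (⟨hx, h3, h4, h5⟩ | ⟨hx, h3, h4⟩)
    · rcases h4.lt_or_eq with h6 | h6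
      · exact Or.inl ⟨hx, h3, h6, h5.le⟩
      · exact Or.inr ⟨hx, h3, h6.symm⟩
    · exact Or.inl ⟨hx, h3, by rw [h4]; exact mul_lt_mul_of_pos_right h h3, h4.le⟩

theorem disj1 : Disjoint (coneR L w a b) (ray L w a) := by
  rw [Set.disjoint_left]
  rintro x ⟨_, _, h1, _⟩ ⟨_, _, h2⟩
  linarith

theorem disj2 : Disjoint (coneL L w a b) (ray L w b) := by
  rw [Set.disjoint_left]
  rintro x ⟨_, _, _, h1⟩ ⟨_, _, h2⟩
  linarith

theorem Phi_diff (h : a < b) (h1 : SumOn (coneR L w a b) t) (h2 : SumOn (coneL L w a b) t)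
    (h3 : SumOn (ray L w a) t) (h4 : SumOn (ray L w b) t) :
    Phi (coneR L w a b) t - Phi (coneL L w a b) t = Phi (ray L w b) t - Phi (ray L w a) t := by
  have h5 := Phi_union disj1 h1 h3
  have h6 := Phi_union disj2 h2 h4
  rw [coneR_ray h] at h5
  linarith

/-- The representatives of the points of a ray. -/
def rayP (L : AddSubgroup (ℝ × ℝ)) (w l : ℝ × ℝ) : Set (ℝ × ℝ) :=
  {z | z - w ∈ L ∧ ∃ s : ℝ, 0 < s ∧ s < 1 ∧ z.1 = s * l.1 ∧ z.2 = s * l.2}

theorem rayP_finite (hL : IsLat L) : (rayP L w l).Finite := by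
  refine (par_finite hL w l l).subset ?_
  rintro z ⟨hz, s, hs0, hs1, e1, e2⟩
  exact ⟨hz, s, 0, hs0, hs1.le, le_refl 0, zero_lt_one, by rw [e1]; ring, by rw [e2]; ring⟩

noncomputable def rayEquiv (hl : l ∈ L) (hl1 : 0 < l.1) (hw : w ∉ L) :
    (rayP L w l) × ℕ ≃ ray L w (slope l) := by
  refine Equiv.ofBijective (fun p => ⟨((p.1 : ℝ × ℝ).1 + p.2 * l.1, (p.1 : ℝ × ℝ).2 + p.2 * l.2), ?_⟩)
    ⟨?_, ?_⟩
  · obtain ⟨⟨z, hz, s, hs0, hs1, e1, e2⟩, i⟩ := p
    have hi : (0 : ℝ) ≤ i := Nat.cast_nonneg i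
    refine ⟨?_, ?_, ?_⟩
    · have h1 := L.add_mem hz (natsmul_mem hl i)
      have h2 : (z.1 + i * l.1, z.2 + i * l.2) - w = z - w + ((i : ℝ) * l.1, (i : ℝ) * l.2) := by
        ext
        · simp
          ring
        · simp
          ring
      show (z.1 + i * l.1, z.2 + i * l.2) - w ∈ L
      rw [h2]
      exact h1
    · show 0 < z.1 + i * l.1
      rw [e1]
      have := mul_pos hs0 hl1
      have := mul_nonneg hi hl1.le
      linarith
    · show z.2 + i * l.2 = slope l * (z.1 + i * l.1)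
      rw [e1, e2, slope]
      field_simp
  · rintro ⟨⟨z, hz, s, hs0, hs1, e1, e2⟩, i⟩ ⟨⟨z', hz', s', hs0', hs1', e1', e2'⟩, i'⟩ h
    have h1 : z.1 + i * l.1 = z'.1 + i' * l.1 :=
      congrArg (fun x : ray L w (slope l) => (x : ℝ × ℝ).1) h
    have h2 : z.2 + i * l.2 = z'.2 + i' * l.2 :=
      congrArg (fun x : ray L w (slope l) => (x : ℝ × ℝ).2) h
    have h3 : s + i = s' + i' := by
      have h4 : (s + i - (s' + i')) * l.1 = 0 := by
        rw [e1, e1'] at h1
        linear_combination h1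
      rcases mul_eq_zero.1 h4 with h5 | h5
      · linarith
      · exact absurd h5 hl1.ne'
    have h6 : i = i' := by
      have h7 : (i : ℝ) < i' + 1 := by linarith
      have h8 : (i' : ℝ) < i + 1 := by linarith
      have h9 : i < i' + 1 := by exact_mod_cast h7
      have h10 : i' < i + 1 := by exact_mod_cast h8
      omega
    subst h6
    have h8 : z = z' := by
      ext
      · linarith
      · linarith
    subst h8
    rfl
  · rintro ⟨x, hx, hx1, hx2⟩
    set s : ℝ := x.1 / l.1 with hs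
    have e1 : x.1 = s * l.1 := by
      rw [hs]
      field_simp
    have e2 : x.2 = s * l.2 := by
      rw [hx2, slope, hs]
      field_simp
    have hs0 : 0 < s := div_pos hx1 hl1
    have hf1 : (⌊s⌋₊ : ℝ) ≤ s := Nat.floor_le hs0.le
    have hf2 : s < ⌊s⌋₊ + 1 := Nat.lt_floor_add_one s
    have hf3 : (⌊s⌋₊ : ℝ) ≠ s := by
      intro h
      apply hw
      have h1 : x = ((⌊s⌋₊ : ℝ) * l.1, (⌊s⌋₊ : ℝ) * l.2) := by
        ext
        · rw [e1, h]
        · rw [e2, h]
      have h2 := natsmul_mem hl ⌊s⌋₊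
      rw [← h1] at h2
      have h3 := L.sub_mem h2 hx
      rwa [sub_sub_cancel] at h3
    have hf4 : (⌊s⌋₊ : ℝ) < s := lt_of_le_of_ne hf1 hf3
    refine ⟨⟨⟨(x.1 - ⌊s⌋₊ * l.1, x.2 - ⌊s⌋₊ * l.2), ?_, s - ⌊s⌋₊, ?_, ?_, ?_, ?_⟩, ⌊s⌋₊⟩, ?_⟩
    · have h1 := L.sub_mem hx (natsmul_mem hl ⌊s⌋₊)
      have h2 : (x.1 - ⌊s⌋₊ * l.1, x.2 - ⌊s⌋₊ * l.2) - w =
          x - w - ((⌊s⌋₊ : ℝ) * l.1, (⌊s⌋₊ : ℝ) * l.2) := by
        ext
        · simp only [Prod.fst_sub]
          ring
        · simp only [Prod.snd_sub]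
          ring
      rw [h2]
      exact h1
    · linarith
    · linarith
    · simp only
      linear_combination e1
    · simp only
      linear_combination e2
    · apply Subtype.ext
      ext
      · simp only
        ring
      · simp only
        ring

theorem hasSum_prod2 {ι : Type*} [Fintype ι] (f : ι → ℝ) (hf : ∀ i, 0 ≤ f i) {x : ℝ}
    (hx0 : 0 ≤ x) (hx1 : x < 1) :
    HasSum (fun p : ι × ℕ => f p.1 * x ^ p.2) ((∑ i, f i) * (1 - x)⁻¹) := by
  have h1 := hasSum_geometric_of_lt_one hx0 hx1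
  exact (hasSum_fintype f).mul h1 ((hasSum_fintype f).summable.mul_of_nonneg h1.summable hf
    fun n => pow_nonneg hx0 n)

theorem ray_hasSum (hL : IsLat L) (hl : l ∈ L) (hl1 : 0 < l.1) (hw : w ∉ L) (ht : 0 < t) :
    HasSum (fun x : ray L w (slope l) => Real.exp (-(2 * (x : ℝ × ℝ).1 * t)))
      ((∑ z ∈ (rayP_finite (w := w) (l := l) hL).toFinset, Real.exp (-(2 * z.1 * t))) *
        (1 - Real.exp (-(2 * l.1 * t)))⁻¹) := by
  have _i : Fintype (rayP L w l) := (rayP_finite (w := w) (l := l) hL).fintype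
  have h1 := hasSum_prod2 (fun z : rayP L w l => Real.exp (-(2 * (z : ℝ × ℝ).1 * t)))
    (fun z => (Real.exp_pos _).le) (Real.exp_pos (-(2 * l.1 * t))).le (exp_lt hl1 ht)
  rw [Finset.sum_subtype (p := fun z => z ∈ rayP L w l) (rayP_finite (w := w) (l := l) hL).toFinset
    (fun x => by simp) (fun z => Real.exp (-(2 * z.1 * t)))]
  rw [← (rayEquiv (w := w) hl hl1 hw).hasSum_iff]
  have h3 : (fun p : (rayP L w l) × ℕ => Real.exp (-(2 * (p.1 : ℝ × ℝ).1 * t)) *
      Real.exp (-(2 * l.1 * t)) ^ p.2) =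
      (fun x : ray L w (slope l) => Real.exp (-(2 * (x : ℝ × ℝ).1 * t))) ∘
        (rayEquiv (w := w) hl hl1 hw) := by
    funext p
    simp only [Function.comp_apply]
    rw [exp_pow, ← Real.exp_add]
    congr 1
    show _ = -(2 * ((p.1 : ℝ × ℝ).1 + p.2 * l.1) * t)
    ring
  rw [h3] at h1
  exact h1

theorem rayP_neg (hl : l ∈ L) :
    rayP L (-w) l = (fun z : ℝ × ℝ => (l.1 - z.1, l.2 - z.2)) '' rayP L w l := by
  ext z
  constructor
  · rintro ⟨hz, s, hs0, hs1, e1, e2⟩
    refine ⟨(l.1 - z.1, l.2 - z.2), ⟨?_, 1 - s, by linarith, by linarith, ?_, ?_⟩, ?_⟩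
    · have h1 := L.sub_mem hl hz
      have e : (l.1 - z.1, l.2 - z.2) - w = l - (z - -w) := by
        ext
        · simp only [Prod.fst_sub, Prod.fst_neg]
          ring
        · simp only [Prod.snd_sub, Prod.snd_neg]
          ring
      rw [e]
      exact h1
    · simp only
      rw [e1]
      ring
    · simp only
      rw [e2]
      ring
    · ext
      · simp only
        ring
      · simp only
        ring
  · rintro ⟨x, ⟨hx, s, hs0, hs1, e1, e2⟩, rfl⟩
    refine ⟨?_, 1 - s, by linarith, by linarith, ?_, ?_⟩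
    · have h1 := L.sub_mem hl hx
      have e : (l.1 - x.1, l.2 - x.2) - -w = l - (x - w) := by
        ext
        · simp only [Prod.fst_sub, Prod.fst_neg]
          ring
        · simp only [Prod.snd_sub, Prod.snd_neg]
          ring
      rw [e]
      exact h1
    · simp only
      rw [e1]
      ring
    · simp only
      rw [e2]
      ring

/-- The even ray function has a regularised integral. -/
theorem ray_hasJ (hL : IsLat L) (hl : l ∈ L) (hl1 : 0 < l.1) (hw : w ∉ L) :
    ∃ v, HasJ (fun t => Phi (ray L w (slope l)) t + Phi (ray L (-w) (slope l)) t) v := by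
  have hw' : -w ∉ L := fun h => hw (by simpa using L.neg_mem h)
  have h1 : HasJ (fun t => ∑ z ∈ (rayP_finite (w := w) (l := l) hL).toFinset,
      (dsK l.1 l.1 z.1 t + dsK l.1 l.1 (l.1 - z.1) t))
      (∑ z ∈ (rayP_finite (w := w) (l := l) hL).toFinset, (LS l.1 l.1 z.1 + LS l.1 l.1 (l.1 - z.1))) := by
    refine HasJ.sum _ fun z hz => ?_
    rw [Set.Finite.mem_toFinset] at hz
    obtain ⟨_, s, hs0, hs1, e1, _⟩ := hz
    have h2 : 0 < z.1 := by rw [e1]; exact mul_pos hs0 hl1
    have h3 : z.1 < l.1 := by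
      rw [e1]
      have := mul_lt_mul_of_pos_right hs1 hl1
      linarith
    exact (hasJ_LS hl1 hl1 h2 (by linarith)).add (hasJ_LS hl1 hl1 (by linarith) (by linarith))
  refine ⟨_, h1.congr fun t ht => ?_⟩
  have h4 := (ray_hasSum (w := w) hL hl hl1 hw ht).tsum_eq
  have h5 := (ray_hasSum (w := -w) hL hl hl1 hw' ht).tsum_eq
  have h6 : (∑ z ∈ (rayP_finite (w := -w) (l := l) hL).toFinset, Real.exp (-(2 * z.1 * t))) =
      ∑ z ∈ (rayP_finite (w := w) (l := l) hL).toFinset, Real.exp (-(2 * (l.1 - z.1) * t)) := by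
    rw [← finsum_mem_eq_finite_toFinset_sum, ← finsum_mem_eq_finite_toFinset_sum, rayP_neg hl,
      finsum_mem_image]
    intro x _ y _ hxy
    have e1 : l.1 - x.1 = l.1 - y.1 := congrArg Prod.fst hxy
    have e2 : l.2 - x.2 = l.2 - y.2 := congrArg Prod.snd hxy
    ext
    · linarith
    · linarith
  unfold Phi
  rw [h4, h5, h6, ← add_mul, ← Finset.sum_add_distrib, Finset.sum_mul]
  refine Finset.sum_congr rfl fun z _ => ?_
  rw [dsK_eq hl1 hl1 ht, dsK_eq hl1 hl1 ht, ← add_div, div_eq_mul_inv, mul_inv]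
  have hE : 1 - Real.exp (-(2 * l.1 * t)) ≠ 0 := by
    have := exp_lt hl1 ht
    linarith
  have e1 : Real.exp (-(2 * (l.1 + l.1 - z.1) * t)) =
      Real.exp (-(2 * (l.1 - z.1) * t)) * Real.exp (-(2 * l.1 * t)) := by
    rw [← Real.exp_add]
    congr 1
    ring
  have e2 : Real.exp (-(2 * (l.1 + l.1 - (l.1 - z.1)) * t)) =
      Real.exp (-(2 * z.1 * t)) * Real.exp (-(2 * l.1 * t)) := by
    rw [← Real.exp_add]
    congr 1
    ring
  rw [e1, e2]
  generalize Real.exp (-(2 * l.1 * t)) = X at hE ⊢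
  generalize Real.exp (-(2 * (l.1 - z.1) * t)) = b
  generalize Real.exp (-(2 * z.1 * t)) = a
  field_simp
  ring

/-- **Oddness.** -/
theorem BO_neg (hL : IsLat L) (hom : 1 < om) (hS : Stab L om) (hw : act om w - w ∈ L)
    (hl : l ∈ L) (hl1 : 0 < l.1) (hl2 : 0 < l.2) (hwL : w ∉ L) :
    BO L om l (-w) = -BO L om l w := by
  have hwL' : -w ∉ L := fun h => hwL (by simpa using L.neg_mem h)
  have hw' : act om (-w) - -w ∈ L := by
    have h := L.neg_mem hw
    have e : act om (-w) - -w = -(act om w - w) := by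
      unfold act
      ext
      · simp only [Prod.fst_sub, Prod.fst_neg]
        ring
      · simp only [Prod.snd_sub, Prod.snd_neg]
        ring
    rwa [e]
  have h1 := (hasJ_BO (w := w) hL hom hS hl hl1 hl2).add (hasJ_BO (w := -w) hL hom hS hl hl1 hl2)
  obtain ⟨v, hv⟩ := ray_hasJ (w := w) hL hl hl1 hwL
  have h2 := hv.sub (hv.scale (by linarith : 0 < om))
  rw [sub_self] at h2
  have hal := act_pos hom hl1 hl2
  have hlt := act_slope_lt hom hl1 hl2
  have key : BO L om l w + BO L om l (-w) = 0 := by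
    refine h1.unique (h2.congr fun t ht => ?_)
    have hsr : ∀ u : ℝ × ℝ, u ∉ L → SumOn (ray L u (slope l)) t ∧
        SumOn (ray L u (slope (act om l))) t := fun u hu =>
      ⟨(ray_hasSum (w := u) hL hl hl1 hu ht).summable,
        (ray_hasSum (w := u) hL ((hS l).1 hl) hal.1 hu ht).summable⟩
    have g1 := Phi_diff (w := w) hlt (sumR hL hl ((hS l).1 hl) hl1 hal.1 hlt.le ht)
      (sumL hL hl ((hS l).1 hl) hl1 hal.1 hlt.le ht) (hsr w hwL).2 (hsr w hwL).1
    have g2 := Phi_diff (w := -w) hlt (sumR hL hl ((hS l).1 hl) hl1 hal.1 hlt.le ht)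
      (sumL hL hl ((hS l).1 hl) hl1 hal.1 hlt.le ht) (hsr (-w) hwL').2 (hsr (-w) hwL').1
    have g3 : Phi (ray L w (slope (act om l))) t = Phi (ray L w (slope l)) (om * t) := by
      rw [act_slope (by linarith)]
      exact Phi_ray_scale (by linarith) (by positivity) hS hw
    have g4 : Phi (ray L (-w) (slope (act om l))) t = Phi (ray L (-w) (slope l)) (om * t) := by
      rw [act_slope (by linarith)]
      exact Phi_ray_scale (by linarith) (by positivity) hS hw'
    unfold FF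
    rw [neg_neg]
    rw [g3] at g1
    rw [g4] at g2
    linarith
  linarith

end odd

end Zau.Cone
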