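import Mathlib
import Pool.Agent.Lib_zau.ConeD
import Pool.Agent.Lib_zau.Tower

/-!
# The function `rho` on `ℚ × ℚ`

`w = (x, y)` means `x + y e` where `e > 1`, `e ^ 2 = n e - 1`. `E n` is the multiplication by `e`, `Lam` the
lattice `ℤ × ℤ`, `io e` the embedding in `ℝ × ℝ`.
`rho n e w = - (2 / K) BO (LR e Lam) (e ^ K) (1, 1) (io e w)` for every `K ≥ 1` with `(E n ^ K) w - w ∈ Lam`
(and `0` on `Lam`).
-/

set_option autoImplicit false

open MeasureTheory Set Filter Topology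
open scoped Real

namespace Zau.Cone

/-- The embedding. -/
noncomputable def io (e : ℝ) : ℚ × ℚ →+ ℝ × ℝ where
  toFun w := ((w.1 : ℝ) + w.2 * e, (w.1 : ℝ) + w.2 * e⁻¹)
  map_zero' := by simp
  map_add' w w' := by
    ext
    · simp only [Prod.fst_add, Prod.snd_add]
      push_cast
      ring
    · simp only [Prod.fst_add, Prod.snd_add]
      push_cast
      ring

theorem io_apply (e : ℝ) (w : ℚ × ℚ) :
    io e w = ((w.1 : ℝ) + w.2 * e, (w.1 : ℝ) + w.2 * e⁻¹) := rfl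

theorem mem_Lam {w : ℚ × ℚ} : w ∈ Lam ↔ ∃ a b : ℤ, w = ((a : ℚ), (b : ℚ)) := Iff.rfl

theorem E_apply (n : ℤ) (w : ℚ × ℚ) : E n w = (-w.2, w.1 + n * w.2) := rfl

theorem E_succ (n : ℤ) (K : ℕ) (w : ℚ × ℚ) : (E n ^ (K + 1)) w = E n ((E n ^ K) w) := by
  rw [pow_succ']
  rfl

theorem E_succ' (n : ℤ) (K : ℕ) (w : ℚ × ℚ) : (E n ^ (K + 1)) w = (E n ^ K) (E n w) := by
  rw [pow_succ]
  rfl

/-- The image of a lattice in `ℝ × ℝ`. -/
noncomputable def LR (e : ℝ) (L : AddSubgroup (ℚ × ℚ)) : AddSubgroup (ℝ × ℝ) := L.map (io e)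

section

variable {n : ℤ} {e : ℝ}

theorem io_inj (he : 1 < e) : Function.Injective (io e) := by
  rw [injective_iff_map_eq_zero]
  intro w hw
  have h1 : (w.1 : ℝ) + w.2 * e = 0 := congrArg Prod.fst hw
  have h2 : (w.1 : ℝ) + w.2 * e⁻¹ = 0 := congrArg Prod.snd hw
  have h3 : e⁻¹ < 1 := inv_lt_one_of_one_lt₀ he
  have h4 : (w.2 : ℝ) * (e - e⁻¹) = 0 := by linear_combination h1 - h2
  have h5 : (w.2 : ℝ) = 0 := by
    rcases mul_eq_zero.1 h4 with h | h
    · exact h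
    · linarith
  rw [h5] at h1
  have h6 : (w.1 : ℝ) = 0 := by linarith
  ext
  · exact_mod_cast h6
  · exact_mod_cast h5

theorem io_E (he : 1 < e) (hn : e ^ 2 = n * e - 1) (w : ℚ × ℚ) :
    io e (E n w) = act e (io e w) := by
  have h0 : e ≠ 0 := by linarith
  have h1 : e⁻¹ * e = 1 := inv_mul_cancel₀ h0
  have h2 : e⁻¹ ^ 2 = n * e⁻¹ - 1 := by
    have : e⁻¹ ^ 2 * e ^ 2 = 1 := by rw [← mul_pow, h1, one_pow]
    have h3 : e⁻¹ ^ 2 * (n * e - 1) = 1 := by rw [← hn]; exact this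
    linear_combination -h3 + n * e⁻¹ * h1
  rw [io_apply, io_apply, act, E_apply]
  ext
  · simp only
    push_cast
    linear_combination (-(w.2 : ℝ)) * hn
  · simp only
    push_cast
    linear_combination (-(w.2 : ℝ)) * h2

theorem E_smul (r : ℚ) (w : ℚ × ℚ) : E n (r * w.1, r * w.2) = (r * (E n w).1, r * (E n w).2) := by
  rw [E_apply, E_apply]
  ext
  · simp only
    ring
  · simp only
    ring

theorem E_pow_smul (K : ℕ) (r : ℚ) (w : ℚ × ℚ) :
    (E n ^ K) (r * w.1, r * w.2) = (r * ((E n ^ K) w).1, r * ((E n ^ K) w).2) := by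
  induction K with
  | zero => rfl
  | succ K ih => rw [E_succ, E_succ, ih, E_smul]

theorem E_mem_iff (w : ℚ × ℚ) : w ∈ Lam ↔ E n w ∈ Lam := by
  constructor
  · rintro ⟨a, b, rfl⟩
    exact ⟨-b, a + n * b, by ext <;> simp [E_apply]⟩
  · rintro ⟨a, b, h⟩
    have h1 : -w.2 = a := congrArg Prod.fst h
    have h2 : w.1 + n * w.2 = b := congrArg Prod.snd h
    refine ⟨b + n * a, -a, ?_⟩
    ext
    · push_cast
      linear_combination h2 + n * h1
    · push_cast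
      linear_combination -h1

theorem E_pow_mem_iff (K : ℕ) (w : ℚ × ℚ) : w ∈ Lam ↔ (E n ^ K) w ∈ Lam := by
  induction K with
  | zero => rfl
  | succ K ih => rw [E_succ, ← E_mem_iff, ih]

theorem io_iter (he : 1 < e) (hn : e ^ 2 = n * e - 1) (K : ℕ) (w : ℚ × ℚ) :
    io e ((E n ^ K) w) = act (e ^ K) (io e w) := by
  rw [← act_iter]
  induction K with
  | zero => rfl
  | succ K ih => rw [E_succ, Function.iterate_succ_apply', io_E he hn, ih]

theorem mem_LR (he : 1 < e) {L : AddSubgroup (ℚ × ℚ)} {w : ℚ × ℚ} : io e w ∈ LR e L ↔ w ∈ L := by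
  rw [LR, AddSubgroup.mem_map]
  constructor
  · rintro ⟨x, hx, h⟩
    rwa [← io_inj he h]
  · intro h
    exact ⟨w, h, rfl⟩

/-- A lattice with bounded denominators is discrete. -/
theorem isLat_LR (he : 1 < e) {L : AddSubgroup (ℚ × ℚ)} {N : ℕ} (hN : 0 < N)
    (hL : ∀ w ∈ L, ((N : ℚ) * w.1, (N : ℚ) * w.2) ∈ Lam) : IsLat (LR e L) := by
  intro R
  have h3 : e⁻¹ < 1 := inv_lt_one_of_one_lt₀ he
  have hd : 0 < e - e⁻¹ := by linarith
  have hN' : (0 : ℝ) < N := Nat.cast_pos.2 hN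
  obtain ⟨M, hM⟩ : ∃ M : ℤ, N * |R| * 2 / (e - e⁻¹) ≤ M := ⟨_, Int.le_ceil _⟩
  obtain ⟨M', hM'⟩ : ∃ M' : ℤ, N * |R| + M * e ≤ M' := ⟨_, Int.le_ceil _⟩
  have hfin : ((Icc (-M') M') ×ˢ (Icc (-M) M) : Set (ℤ × ℤ)).Finite :=
    (finite_Icc _ _).prod (finite_Icc _ _)
  refine (hfin.image fun p : ℤ × ℤ => io e ((p.1 : ℚ) / N, (p.2 : ℚ) / N)).subset ?_
  rintro x ⟨hx, hx1, hx2⟩
  rw [LR, AddSubgroup.mem_map] at hx
  obtain ⟨w, hw, rfl⟩ := hx
  obtain ⟨a, b, hab⟩ := hL w hw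
  have ha : (N : ℚ) * w.1 = a := congrArg Prod.fst hab
  have hb : (N : ℚ) * w.2 = b := congrArg Prod.snd hab
  have hNq : (N : ℚ) ≠ 0 := by exact_mod_cast hN.ne'
  have haR : (N : ℝ) * w.1 = a := by exact_mod_cast ha
  have hbR : (N : ℝ) * w.2 = b := by exact_mod_cast hb
  rw [io_apply] at hx1 hx2
  simp only at hx1 hx2
  have hR : R ≤ |R| := le_abs_self R
  have h1 : |(a : ℝ) + b * e| ≤ N * |R| := by
    rw [← haR, ← hbR, show (N : ℝ) * w.1 + N * w.2 * e = N * ((w.1 : ℝ) + w.2 * e) by ring, abs_mul,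
      abs_of_pos hN']
    exact mul_le_mul_of_nonneg_left (hx1.trans hR) hN'.le
  have h2 : |(a : ℝ) + b * e⁻¹| ≤ N * |R| := by
    rw [← haR, ← hbR, show (N : ℝ) * w.1 + N * w.2 * e⁻¹ = N * ((w.1 : ℝ) + w.2 * e⁻¹) by ring,
      abs_mul, abs_of_pos hN']
    exact mul_le_mul_of_nonneg_left (hx2.trans hR) hN'.le
  have hbM : |(b : ℝ)| ≤ M := by
    refine le_trans ?_ hM
    rw [le_div_iff₀ hd]
    have h4 : |(b : ℝ)| * (e - e⁻¹) = |((a : ℝ) + b * e) - (a + b * e⁻¹)| := by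
      rw [show ((a : ℝ) + b * e) - (a + b * e⁻¹) = b * (e - e⁻¹) by ring, abs_mul, abs_of_pos hd]
    rw [h4]
    have := abs_sub ((a : ℝ) + b * e) (a + b * e⁻¹)
    linarith
  have haM : |(a : ℝ)| ≤ M' := by
    refine le_trans ?_ hM'
    have h4 : (a : ℝ) = (a + b * e) - b * e := by ring
    rw [h4]
    have h5 := abs_sub ((a : ℝ) + b * e) (b * e)
    rw [abs_mul (b : ℝ) e, abs_of_pos (by linarith : 0 < e)] at h5
    have h6 : |(b : ℝ)| * e ≤ M * e := mul_le_mul_of_nonneg_right hbM (by linarith)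
    linarith
  have hbZ : |b| ≤ M := by exact_mod_cast hbM
  have haZ : |a| ≤ M' := by exact_mod_cast haM
  refine ⟨(a, b), ⟨abs_le.1 haZ, abs_le.1 hbZ⟩, ?_⟩
  have hw2 : (((a : ℤ) : ℚ) / N, ((b : ℤ) : ℚ) / N) = w := by
    refine Prod.ext ?_ ?_
    · simp only
      rw [← ha]
      field_simp
    · simp only
      rw [← hb]
      field_simp
  show io e (((a : ℤ) : ℚ) / N, ((b : ℤ) : ℚ) / N) = io e w
  rw [hw2]

theorem isLat_Lam (he : 1 < e) : IsLat (LR e Lam) :=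
  isLat_LR he one_pos fun w hw => by simpa using hw

theorem one_mem : ((1, 1) : ℝ × ℝ) ∈ LR e Lam := by
  rw [LR, AddSubgroup.mem_map]
  exact ⟨(1, 0), ⟨1, 0, by ext <;> simp⟩, by rw [io_apply]; ext <;> simp⟩

theorem stab_LR (he : 1 < e) (hn : e ^ 2 = n * e - 1) {L : AddSubgroup (ℚ × ℚ)} {K : ℕ}
    (hS : ∀ w, w ∈ L ↔ (E n ^ K) w ∈ L) : Stab (LR e L) (e ^ K) := by
  have hinvE : ∀ w : ℚ × ℚ, ∃ u, E n u = w := by
    intro w
    refine ⟨(w.2 + n * w.1, -w.1), ?_⟩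
    rw [E_apply]
    ext
    · simp
    · simp
  have hinv : ∀ w : ℚ × ℚ, ∃ u, (E n ^ K) u = w := by
    intro w
    clear hS
    induction K with
    | zero => exact ⟨w, rfl⟩
    | succ K ih =>
      obtain ⟨u, hu⟩ := ih
      obtain ⟨v, hv⟩ := hinvE u
      exact ⟨v, by rw [E_succ', hv, hu]⟩
  intro x
  constructor
  · intro hx
    rw [LR, AddSubgroup.mem_map] at hx
    obtain ⟨w, hw, rfl⟩ := hx
    rw [← io_iter he hn]
    exact (mem_LR he).2 ((hS w).1 hw)
  · intro hx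
    rw [LR, AddSubgroup.mem_map] at hx
    obtain ⟨w, hw, h⟩ := hx
    obtain ⟨u, rfl⟩ := hinv w
    rw [io_iter he hn] at h
    have hinj : io e u = x := by
      have h0 : e ≠ 0 := by linarith
      have h1 : e ^ K * (io e u).1 = e ^ K * x.1 := congrArg Prod.fst h
      have h2 : (e ^ K)⁻¹ * (io e u).2 = (e ^ K)⁻¹ * x.2 := congrArg Prod.snd h
      ext
      · exact mul_left_cancel₀ (pow_ne_zero _ h0) h1
      · exact mul_left_cancel₀ (inv_ne_zero (pow_ne_zero _ h0)) h2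
    rw [← hinj]
    exact (mem_LR he).2 ((hS u).2 hw)

theorem stab_Lam (he : 1 < e) (hn : e ^ 2 = n * e - 1) (K : ℕ) : Stab (LR e Lam) (e ^ K) :=
  stab_LR he hn fun w => E_pow_mem_iff K w

theorem fix_LR (he : 1 < e) (hn : e ^ 2 = n * e - 1) {L : AddSubgroup (ℚ × ℚ)} {K : ℕ} {w : ℚ × ℚ}
    (hw : (E n ^ K) w - w ∈ L) : act (e ^ K) (io e w) - io e w ∈ LR e L := by
  rw [← io_iter he hn, ← map_sub]
  exact (mem_LR he).2 hw

/-- The common period of the points of `N⁻¹ Lam`. -/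
theorem exists_period (n : ℤ) (N : ℕ) (hN : 0 < N) : ∃ K : ℕ, 0 < K ∧ ∀ w : ℚ × ℚ,
    ((N : ℚ) * w.1, (N : ℚ) * w.2) ∈ Lam → (E n ^ K) w - w ∈ Lam := by
  have _i : NeZero N := ⟨hN.ne'⟩
  let f : Equiv.Perm (ZMod N × ZMod N) :=
    { toFun := fun p => (-p.2, p.1 + n * p.2)
      invFun := fun p => (p.2 + n * p.1, -p.1)
      left_inv := fun p => by
        ext
        · simp
        · simp
      right_inv := fun p => by
        ext
        · simp
        · simp }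
  let EZ : ℤ × ℤ → ℤ × ℤ := fun p => (-p.2, p.1 + n * p.2)
  have h1 : ∀ (K : ℕ) (p : ℤ × ℤ), ((((EZ^[K] p).1 : ℤ) : ZMod N), (((EZ^[K] p).2 : ℤ) : ZMod N)) =
      (f ^ K) ((p.1 : ZMod N), (p.2 : ZMod N)) := by
    intro K p
    induction K with
    | zero => rfl
    | succ K ih =>
      rw [Function.iterate_succ_apply', pow_succ', Equiv.Perm.mul_apply, ← ih]
      ext
      · simp [EZ, f]
      · simp [EZ, f]
  have h2 : ∀ (K : ℕ) (p : ℤ × ℤ), (E n ^ K) (((p.1 : ℤ) : ℚ), ((p.2 : ℤ) : ℚ)) =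
      ((((EZ^[K] p).1 : ℤ) : ℚ), (((EZ^[K] p).2 : ℤ) : ℚ)) := by
    intro K p
    induction K with
    | zero => rfl
    | succ K ih =>
      rw [E_succ, Function.iterate_succ_apply', ih, E_apply]
      ext
      · simp [EZ]
      · simp [EZ]
  refine ⟨orderOf f, orderOf_pos f, fun w hw => ?_⟩
  obtain ⟨a, b, hab⟩ := hw
  have ha : (N : ℚ) * w.1 = a := congrArg Prod.fst hab
  have hb : (N : ℚ) * w.2 = b := congrArg Prod.snd hab
  have hNq : (N : ℚ) ≠ 0 := by exact_mod_cast hN.ne'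
  have hw : w = ((N : ℚ)⁻¹ * ((a : ℚ), (b : ℚ)).1, (N : ℚ)⁻¹ * ((a : ℚ), (b : ℚ)).2) := by
    ext
    · simp only
      rw [← ha]
      field_simp
    · simp only
      rw [← hb]
      field_simp
  have h3 := h1 (orderOf f) (a, b)
  rw [pow_orderOf_eq_one] at h3
  have h4 : (((EZ^[orderOf f] (a, b)).1 : ℤ) : ZMod N) = (a : ZMod N) := congrArg Prod.fst h3
  have h5 : (((EZ^[orderOf f] (a, b)).2 : ℤ) : ZMod N) = (b : ZMod N) := congrArg Prod.snd h3
  rw [ZMod.intCast_eq_intCast_iff_dvd_sub] at h4 h5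
  obtain ⟨c, hc⟩ := h4
  obtain ⟨d, hd⟩ := h5
  rw [hw, E_pow_smul, h2 (orderOf f) (a, b)]
  refine ⟨-c, -d, ?_⟩
  ext
  · simp only [Prod.fst_sub]
    have hc' : (a : ℚ) - ((EZ^[orderOf f] (a, b)).1 : ℤ) = N * c := by exact_mod_cast hc
    have : (((EZ^[orderOf f] (a, b)).1 : ℤ) : ℚ) = a - N * c := by linarith
    rw [this]
    field_simp
    push_cast
    ring
  · simp only [Prod.snd_sub]
    have hd' : (b : ℚ) - ((EZ^[orderOf f] (a, b)).2 : ℤ) = N * d := by exact_mod_cast hd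
    have : (((EZ^[orderOf f] (a, b)).2 : ℤ) : ℚ) = b - N * d := by linarith
    rw [this]
    field_simp
    push_cast
    ring

/-- Every point has a denominator. -/
theorem exists_den (w : ℚ × ℚ) : ∃ N : ℕ, 0 < N ∧ ((N : ℚ) * w.1, (N : ℚ) * w.2) ∈ Lam := by
  refine ⟨w.1.den * w.2.den, Nat.mul_pos w.1.pos w.2.pos, w.1.num * w.2.den, w.2.num * w.1.den, ?_⟩
  ext
  · simp only
    push_cast
    have h := Rat.mul_den_eq_num w.1
    linear_combination (w.2.den : ℚ) * h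
  · simp only
    push_cast
    have h := Rat.mul_den_eq_num w.2
    linear_combination (w.1.den : ℚ) * h

/-- The least common period. -/
theorem exists_fix (n : ℤ) (w : ℚ × ℚ) : ∃ K : ℕ, 0 < K ∧ (E n ^ K) w - w ∈ Lam := by
  obtain ⟨N, hN, h⟩ := exists_den w
  obtain ⟨K, hK, h2⟩ := exists_period n N hN
  exact ⟨K, hK, h2 w h⟩

open Classical in
/-- The function `rho`. -/
noncomputable def rho (n : ℤ) (e : ℝ) (w : ℚ × ℚ) : ℝ :=
  if w ∈ Lam then 0 else
    -(2 * BO (LR e Lam) (e ^ (exists_fix n w).choose) (1, 1) (io e w)) / (exists_fix n w).choose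

theorem rho_zero {w : ℚ × ℚ} (hw : w ∈ Lam) : rho n e w = 0 := if_pos hw

theorem one_lt_pow' (he : 1 < e) {K : ℕ} (hK : 0 < K) : 1 < e ^ K := one_lt_pow₀ he hK.ne'

/-- `rho` from an arbitrary period. -/
theorem rho_eq (he : 1 < e) (hn : e ^ 2 = n * e - 1) {w : ℚ × ℚ} (hw : w ∉ Lam) {K : ℕ}
    (hK : 0 < K) (hwK : (E n ^ K) w - w ∈ Lam) :
    rho n e w * K = -(2 * BO (LR e Lam) (e ^ K) (1, 1) (io e w)) := by
  unfold rho
  rw [if_neg hw]
  set P := (exists_fix n w).choose with hP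
  obtain ⟨hP0, hPw⟩ := (exists_fix n w).choose_spec
  rw [← hP] at hP0 hPw
  have h1 := BO_pow (isLat_Lam he) (one_lt_pow' he hK) (stab_Lam he hn K) (fix_LR he hn hwK)
    (one_mem (e := e)) one_pos one_pos hP0.ne'
  have h2 := BO_pow (isLat_Lam he) (one_lt_pow' he hP0) (stab_Lam he hn P) (fix_LR he hn hPw)
    (one_mem (e := e)) one_pos one_pos hK.ne'
  rw [← pow_mul] at h1 h2
  rw [mul_comm P K, h1] at h2
  have hP' : (P : ℝ) ≠ 0 := by exact_mod_cast hP0.ne'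
  field_simp
  linarith

/-- Periodicity. -/
theorem rho_per (he : 1 < e) (hn : e ^ 2 = n * e - 1) {w w' : ℚ × ℚ} (h : w - w' ∈ Lam) :
    rho n e w = rho n e w' := by
  have hiff : w ∈ Lam ↔ w' ∈ Lam := by
    constructor
    · intro h1
      have := Lam.sub_mem h1 h
      rwa [sub_sub_cancel] at this
    · intro h1
      have := Lam.add_mem h h1
      rwa [sub_add_cancel] at this
  by_cases hw : w ∈ Lam
  · rw [rho_zero hw, rho_zero (hiff.1 hw)]
  · have hw' : w' ∉ Lam := fun h1 => hw (hiff.2 h1)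
    obtain ⟨K, hK, hwK⟩ := exists_fix n w
    have hwK' : (E n ^ K) w' - w' ∈ Lam := by
      have h1 := (E_pow_mem_iff (n := n) K _).1 h
      rw [map_sub] at h1
      have h2 := Lam.add_mem (Lam.sub_mem hwK h1) h
      have e1 : (E n ^ K) w - w - ((E n ^ K) w - (E n ^ K) w') + (w - w') =
          (E n ^ K) w' - w' := by abel
      rwa [e1] at h2
    have h1 := rho_eq he hn hw hK hwK
    have h2 := rho_eq he hn hw' hK hwK'
    have h3 : BO (LR e Lam) (e ^ K) (1, 1) (io e w) = BO (LR e Lam) (e ^ K) (1, 1) (io e w') := by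
      unfold BO
      refine BB_congr ?_
      rw [← map_sub]
      exact (mem_LR he).2 h
    rw [h3, ← h2] at h1
    have hK' : (K : ℝ) ≠ 0 := by exact_mod_cast hK.ne'
    exact mul_right_cancel₀ hK' h1

/-- Oddness. -/
theorem rho_neg (he : 1 < e) (hn : e ^ 2 = n * e - 1) (w : ℚ × ℚ) : rho n e (-w) = -rho n e w := by
  by_cases hw : w ∈ Lam
  · rw [rho_zero hw, rho_zero (Lam.neg_mem hw), neg_zero]
  · have hw' : -w ∉ Lam := fun h => hw (by simpa using Lam.neg_mem h)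
    obtain ⟨K, hK, hwK⟩ := exists_fix n w
    have hwK' : (E n ^ K) (-w) - -w ∈ Lam := by
      have h1 := Lam.neg_mem hwK
      rw [map_neg]
      have e1 : -(E n ^ K) w - -w = -((E n ^ K) w - w) := by abel
      rwa [e1]
    have h1 := rho_eq he hn hw hK hwK
    have h2 := rho_eq he hn hw' hK hwK'
    have h3 := BO_neg (isLat_Lam he) (one_lt_pow' he hK) (stab_Lam he hn K) (fix_LR he hn hwK)
      (one_mem (e := e)) one_pos one_pos (fun h => hw ((mem_LR he).1 h))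
    rw [map_neg, h3] at h2
    have hK' : (K : ℝ) ≠ 0 := by exact_mod_cast hK.ne'
    have h4 : (rho n e (-w) + rho n e w) * K = 0 := by
      rw [add_mul, h1, h2]
      ring
    rcases mul_eq_zero.1 h4 with h5 | h5
    · linarith
    · exact absurd h5 hK'

/-- Invariance under the unit. -/
theorem rho_E (he : 1 < e) (hn : e ^ 2 = n * e - 1) (w : ℚ × ℚ) :
    rho n e (E n w) = rho n e w := by
  by_cases hw : w ∈ Lam
  · rw [rho_zero hw, rho_zero ((E_mem_iff w).1 hw)]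
  · have hw' : E n w ∉ Lam := fun h => hw ((E_mem_iff w).2 h)
    obtain ⟨K, hK, hwK⟩ := exists_fix n w
    have hwK' : (E n ^ K) (E n w) - E n w ∈ Lam := by
      have h1 := (E_mem_iff (n := n) _).1 hwK
      rw [map_sub] at h1
      have h2 : E n ((E n ^ K) w) = (E n ^ K) (E n w) := by rw [← E_succ, E_succ']
      rwa [h2] at h1
    have h1 := rho_eq he hn hw hK hwK
    have h2 := rho_eq he hn hw' hK hwK'
    have hom := one_lt_pow' he hK
    have hS : Stab (LR e Lam) e := by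
      have := stab_Lam he hn 1
      rwa [pow_one] at this
    have h3 : BO (LR e Lam) (e ^ K) (act e (1, 1)) (io e (E n w)) =
        BO (LR e Lam) (e ^ K) (1, 1) (io e w) := by
      rw [io_E he hn]
      exact BO_scale (by linarith) (by positivity) hom one_pos hS
        (by rw [show (e * (io e w).1, e⁻¹ * (io e w).2) - act e (io e w) = 0 from sub_self _]
            exact (LR e Lam).zero_mem)
    have hp := act_pos (l := ((1, 1) : ℝ × ℝ)) he one_pos one_pos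
    have h4 := BO_indep (w := io e (E n w)) (isLat_Lam he) hom (stab_Lam he hn K)
      (fix_LR he hn hwK') ((hS _).1 (one_mem (e := e))) hp.1 hp.2 (one_mem (e := e)) one_pos one_pos
    rw [← h4, h3, ← h1] at h2
    have hK' : (K : ℝ) ≠ 0 := by exact_mod_cast hK.ne'
    exact mul_right_cancel₀ hK' h2

end

end Zau.Cone
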