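import Mathlib
import Pool.Agent.Lib_zau.ConeQ

/-!
# Distribution relations of `rho` and the cone products of superlattices
-/

set_option autoImplicit false

open MeasureTheory Set Filter Topology
open scoped Real

namespace Zau.Cone

section

variable {n : ℤ} {e : ℝ}

/-- The sum of `rho` over the classes of a superlattice vanishes. -/
theorem rho_sum_zero (he : 1 < e) (hn : e ^ 2 = n * e - 1) {L : AddSubgroup (ℚ × ℚ)}
    (R : Finset (ℚ × ℚ)) (hR : ∀ c ∈ R, c ∈ L)
    (hR1 : ∀ x ∈ L, ∃ c ∈ R, x - c ∈ Lam) (hR2 : ∀ c ∈ R, ∀ c' ∈ R, c - c' ∈ Lam → c = c')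
    {x : ℚ × ℚ} (hx : x ∈ L) : ∑ c ∈ R, rho n e (x + c) = 0 := by
  classical
  have h1 : ∀ c ∈ R, ∃ c' ∈ R, -x - x - c - c' ∈ Lam := fun c hc =>
    hR1 _ (L.sub_mem (L.sub_mem (L.neg_mem hx) hx) (hR c hc))
  choose! σ hσ1 hσ2 using h1
  have hinv : ∀ c ∈ R, σ (σ c) = c := by
    intro c hc
    refine hR2 _ (hσ1 _ (hσ1 c hc)) c hc ?_
    have h2 := Lam.sub_mem (hσ2 c hc) (hσ2 _ (hσ1 c hc))
    have e1 : -x - x - c - σ c - (-x - x - σ c - σ (σ c)) = σ (σ c) - c := by abel
    rwa [e1] at h2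
  have h3 : ∑ c ∈ R, rho n e (x + c) = ∑ c ∈ R, rho n e (x + σ c) :=
    Finset.sum_nbij' σ σ (fun c hc => hσ1 c hc) (fun c hc => hσ1 c hc) (fun c hc => hinv c hc)
      (fun c hc => hinv c hc) (fun c hc => by rw [hinv c hc])
  have h4 : ∑ c ∈ R, rho n e (x + σ c) = -∑ c ∈ R, rho n e (x + c) := by
    rw [← Finset.sum_neg_distrib]
    refine Finset.sum_congr rfl fun c hc => ?_
    rw [← rho_neg he hn]
    refine (rho_per he hn ?_).symm
    have e1 : -(x + c) - (x + σ c) = -x - x - c - σ c := by abel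
    rw [e1]
    exact hσ2 c hc
  rw [h4] at h3
  linarith

/-- **The cone product of a superlattice** (for `x ∉ L`). -/
theorem BO_super (he : 1 < e) (hn : e ^ 2 = n * e - 1) {L : AddSubgroup (ℚ × ℚ)}
    (hLL : Lam ≤ L) {N : ℕ} (hN : 0 < N) (hL : ∀ w ∈ L, ((N : ℚ) * w.1, (N : ℚ) * w.2) ∈ Lam)
    (R : Finset (ℚ × ℚ)) (hR : ∀ c ∈ R, c ∈ L)
    (hR1 : ∀ x ∈ L, ∃ c ∈ R, x - c ∈ Lam) (hR2 : ∀ c ∈ R, ∀ c' ∈ R, c - c' ∈ Lam → c = c')
    {K : ℕ} (hK : 0 < K) (hS : ∀ w, w ∈ L ↔ (E n ^ K) w ∈ L) {x : ℚ × ℚ} (hx : x ∉ L)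
    (hxK : (E n ^ K) x - x ∈ L) {m : ℝ × ℝ} (hm : m ∈ LR e L) (hm1 : 0 < m.1) (hm2 : 0 < m.2) :
    -(2 * BO (LR e L) (e ^ K) m (io e x)) = K * ∑ c ∈ R, rho n e (x + c) := by
  classical
  obtain ⟨N', hN', hxN'⟩ := exists_den x
  obtain ⟨P, hP, hfix⟩ := exists_period n (N * N') (Nat.mul_pos hN hN')
  have hden : ∀ c ∈ R, (((N * N' : ℕ) : ℚ) * (x + c).1, ((N * N' : ℕ) : ℚ) * (x + c).2) ∈ Lam := by
    intro c hc
    have h1 := hL c (hR c hc)
    have h2 := Lam.add_mem (Lam.nsmul_mem hxN' N) (Lam.nsmul_mem h1 N')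
    have e1 : N • ((N' : ℚ) * x.1, (N' : ℚ) * x.2) + N' • ((N : ℚ) * c.1, (N : ℚ) * c.2) =
        (((N * N' : ℕ) : ℚ) * (x + c).1, ((N * N' : ℕ) : ℚ) * (x + c).2) := by
      ext
      · simp only [Prod.smul_mk, Prod.fst_add, nsmul_eq_mul]
        push_cast
        ring
      · simp only [Prod.smul_mk, Prod.snd_add, nsmul_eq_mul]
        push_cast
        ring
    rwa [e1] at h2
  have hfixK : ∀ c ∈ R, (E n ^ (K * P)) (x + c) - (x + c) ∈ Lam := by
    intro c hc
    have h1 := hfix (x + c) (hden c hc)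
    have h2 : ∀ i : ℕ, (E n ^ (i * P)) (x + c) - (x + c) ∈ Lam := by
      intro i
      induction i with
      | zero => simp
      | succ i ih =>
        have h3 := (E_pow_mem_iff (n := n) P _).1 ih
        rw [map_sub] at h3
        have h4 := Lam.add_mem h3 h1
        have e1 : (E n ^ ((i + 1) * P)) (x + c) = (E n ^ P) ((E n ^ (i * P)) (x + c)) := by
          rw [show (i + 1) * P = P + i * P by ring, pow_add]
          rfl
        rw [e1]
        have e2 : (E n ^ P) ((E n ^ (i * P)) (x + c)) - (E n ^ P) (x + c) +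
            ((E n ^ P) (x + c) - (x + c)) = (E n ^ P) ((E n ^ (i * P)) (x + c)) - (x + c) := by abel
        rwa [e2] at h4
    exact h2 K
  have hom := one_lt_pow' he hK
  have hSL := stab_LR he hn hS
  have hLatL := isLat_LR he hN hL
  have hfx := fix_LR he hn hxK
  have hLR : LR e Lam ≤ LR e L := AddSubgroup.map_mono hLL
  have h11 : ((1, 1) : ℝ × ℝ) ∈ LR e L := hLR one_mem
  have h1 := BO_indep hLatL hom hSL hfx hm hm1 hm2 h11 one_pos one_pos
  have h2 := BO_pow hLatL hom hSL hfx h11 one_pos one_pos hP.ne'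
  rw [← pow_mul] at h2
  have hinj := io_inj he
  have h3 : BO (LR e L) (e ^ (K * P)) (1, 1) (io e x) =
      ∑ c ∈ R, BO (LR e Lam) (e ^ (K * P)) (1, 1) (io e (x + c)) := by
    unfold BO
    rw [BB_dist (isLat_Lam he) hLR (R.image (io e)) ?_ ?_ ?_, Finset.sum_image fun c _ c' _ h => hinj h]
    · refine Finset.sum_congr rfl fun c _ => ?_
      rw [map_add]
    · intro c hc
      obtain ⟨c', hc', rfl⟩ := Finset.mem_image.1 hc
      exact (mem_LR he).2 (hR c' hc')
    · intro y hy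
      rw [LR, AddSubgroup.mem_map] at hy
      obtain ⟨w, hw, rfl⟩ := hy
      obtain ⟨c, hc, hc2⟩ := hR1 w hw
      refine ⟨io e c, Finset.mem_image_of_mem _ hc, ?_⟩
      rw [← map_sub]
      exact (mem_LR he).2 hc2
    · intro c hc c' hc' h
      obtain ⟨d, hd, rfl⟩ := Finset.mem_image.1 hc
      obtain ⟨d', hd', rfl⟩ := Finset.mem_image.1 hc'
      rw [← map_sub] at h
      rw [hR2 d hd d' hd' ((mem_LR he).1 h)]
  have h4 : ∀ c ∈ R, rho n e (x + c) * ((K * P : ℕ) : ℝ) =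
      -(2 * BO (LR e Lam) (e ^ (K * P)) (1, 1) (io e (x + c))) := by
    intro c hc
    refine rho_eq he hn ?_ (Nat.mul_pos hK hP) (hfixK c hc)
    intro h
    apply hx
    have h5 := L.sub_mem (hLL h) (hR c hc)
    rwa [add_sub_cancel_right] at h5
  have h5 : (∑ c ∈ R, rho n e (x + c)) * ((K * P : ℕ) : ℝ) =
      -(2 * BO (LR e L) (e ^ (K * P)) (1, 1) (io e x)) := by
    rw [Finset.sum_mul, Finset.sum_congr rfl h4, h3, Finset.mul_sum, Finset.sum_neg_distrib]
  rw [h1]
  rw [h2] at h5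
  have hP' : (P : ℝ) ≠ 0 := by exact_mod_cast hP.ne'
  apply mul_right_cancel₀ hP'
  push_cast at h5
  linear_combination -h5

/-- The distribution relation. -/
theorem rho_dist (he : 1 < e) (hn : e ^ 2 = n * e - 1) {l : ℕ} (hl : 0 < l) (w : ℚ × ℚ) :
    rho n e (l • w) =
      ∑ i ∈ Finset.range l, ∑ k ∈ Finset.range l, rho n e (w + ((i : ℚ) / l, (k : ℚ) / l)) := by
  classical
  have hlq : (l : ℚ) ≠ 0 := by exact_mod_cast hl.ne'
  have hlr : (0 : ℝ) < l := Nat.cast_pos.2 hl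
  let L : AddSubgroup (ℚ × ℚ) :=
    { carrier := {x | l • x ∈ Lam}
      zero_mem' := by
        show l • (0 : ℚ × ℚ) ∈ Lam
        rw [smul_zero]
        exact Lam.zero_mem
      add_mem' := fun {x y} hx hy => by
        show l • (x + y) ∈ Lam
        rw [smul_add]
        exact Lam.add_mem hx hy
      neg_mem' := fun {x} hx => by
        show l • (-x) ∈ Lam
        rw [smul_neg]
        exact Lam.neg_mem hx }
  have hmem : ∀ x, x ∈ L ↔ l • x ∈ Lam := fun x => Iff.rfl
  have hLL : Lam ≤ L := fun x hx => Lam.nsmul_mem hx l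
  have hsm : ∀ x : ℚ × ℚ, l • x = ((l : ℚ) * x.1, (l : ℚ) * x.2) := by
    intro x
    ext
    · simp
    · simp
  let R : Finset (ℚ × ℚ) := ((Finset.range l) ×ˢ (Finset.range l)).image
    fun p => ((p.1 : ℚ) / l, (p.2 : ℚ) / l)
  have hRinj : ∀ p ∈ (Finset.range l) ×ˢ (Finset.range l), ∀ q ∈ (Finset.range l) ×ˢ (Finset.range l),
      (((p.1 : ℚ) / l, (p.2 : ℚ) / l) : ℚ × ℚ) - ((q.1 : ℚ) / l, (q.2 : ℚ) / l) ∈ Lam → p = q := by
    rintro ⟨i, k⟩ hp ⟨i', k'⟩ hq ⟨a, b, h⟩
    rw [Finset.mem_product, Finset.mem_range, Finset.mem_range] at hp hq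
    have h1 : (i : ℚ) / l - (i' : ℚ) / l = a := congrArg Prod.fst h
    have h2 : (k : ℚ) / l - (k' : ℚ) / l = b := congrArg Prod.snd h
    have key : ∀ (u v : ℕ) (c : ℤ), u < l → v < l → (u : ℚ) / l - (v : ℚ) / l = c → u = v := by
      intro u v c hu hv h3
      have h4 : ((u : ℤ) - v : ℤ) = l * c := by
        have h5 : (u : ℚ) - v = l * c := by
          rw [← h3]
          field_simp
        exact_mod_cast h5
      have h6 : c = 0 := by
        by_contra hc
        have h7 : (l : ℤ) ≤ |(u : ℤ) - v| := by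
          rw [h4, abs_mul, Nat.abs_cast]
          have := Int.one_le_abs hc
          nlinarith
        have h8 : |(u : ℤ) - v| < l := by
          rw [abs_lt]
          constructor <;> omega
        omega
      rw [h6, mul_zero] at h4
      omega
    rw [key i i' a hp.1 hq.1 h1, key k k' b hp.2 hq.2 h2]
  have hsum : ∀ f : ℚ × ℚ → ℝ, ∑ c ∈ R, f c =
      ∑ i ∈ Finset.range l, ∑ k ∈ Finset.range l, f ((i : ℚ) / l, (k : ℚ) / l) := by
    intro f
    rw [Finset.sum_image, Finset.sum_product]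
    intro p hp q hq h
    refine hRinj p hp q hq ?_
    have h' : (((p.1 : ℚ) / l, (p.2 : ℚ) / l) : ℚ × ℚ) = ((q.1 : ℚ) / l, (q.2 : ℚ) / l) := h
    rw [h', sub_self]
    exact Lam.zero_mem
  have hR : ∀ c ∈ R, c ∈ L := by
    intro c hc
    obtain ⟨p, _, rfl⟩ := Finset.mem_image.1 hc
    rw [hmem, hsm]
    refine ⟨p.1, p.2, ?_⟩
    ext
    · simp only
      push_cast
      field_simp
    · simp only
      push_cast
      field_simp
  have hR1 : ∀ x ∈ L, ∃ c ∈ R, x - c ∈ Lam := by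
    intro x hx
    rw [hmem, hsm] at hx
    obtain ⟨a, b, h⟩ := hx
    have h1 : (l : ℚ) * x.1 = a := congrArg Prod.fst h
    have h2 : (l : ℚ) * x.2 = b := congrArg Prod.snd h
    have hl' : (0 : ℤ) < l := by exact_mod_cast hl
    have key : ∀ c : ℤ, ∃ u : ℕ, u < l ∧ ∃ q : ℤ, c = u + l * q := by
      intro c
      have h3 := Int.emod_nonneg c hl'.ne'
      have h4 := Int.emod_lt_of_pos c hl'
      refine ⟨(c % l).toNat, ?_, c / l, ?_⟩
      · omega
      · rw [Int.toNat_of_nonneg h3]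
        exact (Int.emod_add_mul_ediv c l).symm
    obtain ⟨u, hu, q, hq⟩ := key a
    obtain ⟨v, hv, q', hq'⟩ := key b
    refine ⟨((u : ℚ) / l, (v : ℚ) / l), Finset.mem_image.2 ⟨(u, v), ?_, rfl⟩, q, q', ?_⟩
    · rw [Finset.mem_product, Finset.mem_range, Finset.mem_range]
      exact ⟨hu, hv⟩
    · have hq1 : (a : ℚ) = u + l * q := by exact_mod_cast hq
      have hq2 : (b : ℚ) = v + l * q' := by exact_mod_cast hq'
      ext
      · simp only [Prod.fst_sub]
        have : x.1 = (u + l * q) / l := by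
          rw [← hq1, ← h1]
          field_simp
        rw [this]
        field_simp
        ring
      · simp only [Prod.snd_sub]
        have : x.2 = (v + l * q') / l := by
          rw [← hq2, ← h2]
          field_simp
        rw [this]
        field_simp
        ring
  have hR2 : ∀ c ∈ R, ∀ c' ∈ R, c - c' ∈ Lam → c = c' := by
    intro c hc c' hc' h
    obtain ⟨p, hp, rfl⟩ := Finset.mem_image.1 hc
    obtain ⟨q, hq, rfl⟩ := Finset.mem_image.1 hc'
    rw [hRinj p hp q hq h]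
  rw [← hsum fun c => rho n e (w + c)]
  by_cases hw : w ∈ L
  · rw [rho_sum_zero he hn R hR hR1 hR2 hw]
    exact rho_zero hw
  · obtain ⟨K, hK, hKw⟩ := exists_fix n (l • w)
    have hxK : (E n ^ K) w - w ∈ L := by
      rw [hmem, smul_sub, ← map_nsmul]
      exact hKw
    have hS : ∀ x, x ∈ L ↔ (E n ^ K) x ∈ L := by
      intro x
      rw [hmem, hmem, ← map_nsmul]
      exact E_pow_mem_iff K _
    have hm : (((l : ℝ)⁻¹, (l : ℝ)⁻¹) : ℝ × ℝ) ∈ LR e L := by
      rw [LR, AddSubgroup.mem_map]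
      refine ⟨((l : ℚ)⁻¹, 0), ?_, ?_⟩
      · rw [hmem, hsm]
        exact ⟨1, 0, by ext <;> simp [hlq]⟩
      · rw [io_apply]
        ext
        · simp
        · simp
    have h1 := BO_super he hn hLL hl (fun x hx => by rw [← hsm]; exact hx) R hR hR1 hR2 hK hS hw hxK
      hm (inv_pos.2 hlr) (inv_pos.2 hlr)
    have h2 := BO_scale (L := LR e L) (L' := LR e Lam) (w := io e w) (w' := io e (l • w))
      (l := (((l : ℝ)⁻¹, (l : ℝ)⁻¹) : ℝ × ℝ)) hlr hlr (one_lt_pow' he hK) (inv_pos.2 hlr) ?_ ?_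
    · have e1 : (((l : ℝ) * (l : ℝ)⁻¹, (l : ℝ) * (l : ℝ)⁻¹) : ℝ × ℝ) = (1, 1) := by
        rw [mul_inv_cancel₀ hlr.ne']
      simp only [e1] at h2
      rw [← h2, ← rho_eq he hn (fun h => hw h) hK hKw] at h1
      have hK' : (K : ℝ) ≠ 0 := by exact_mod_cast hK.ne'
      apply mul_left_cancel₀ hK'
      rw [← h1]
      ring
    · intro y
      have hio : ∀ x : ℚ × ℚ, io e (l • x) = ((l : ℝ) * (io e x).1, (l : ℝ) * (io e x).2) := by
        intro x
        rw [map_nsmul]
        ext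
        · simp
        · simp
      constructor
      · intro hy
        rw [LR, AddSubgroup.mem_map] at hy
        obtain ⟨x, hx, rfl⟩ := hy
        rw [← hio]
        exact (mem_LR he).2 hx
      · intro hy
        rw [LR, AddSubgroup.mem_map] at hy
        obtain ⟨x, hx, h3⟩ := hy
        rw [LR, AddSubgroup.mem_map]
        refine ⟨((l : ℚ)⁻¹ * x.1, (l : ℚ)⁻¹ * x.2), ?_, ?_⟩
        · rw [hmem, hsm]
          have e1 : ((l : ℚ) * ((l : ℚ)⁻¹ * x.1), (l : ℚ) * ((l : ℚ)⁻¹ * x.2)) = x := by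
            ext
            · simp only
              field_simp
            · simp only
              field_simp
          simp only [e1]
          exact hx
        · have h4 : (x.1 : ℝ) + x.2 * e = l * y.1 := congrArg Prod.fst h3
          have h5 : (x.1 : ℝ) + x.2 * e⁻¹ = l * y.2 := congrArg Prod.snd h3
          rw [io_apply]
          ext
          · simp only
            push_cast
            field_simp
            linear_combination h4
          · simp only
            push_cast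
            have h6 : (l : ℝ)⁻¹ * x.1 + (l : ℝ)⁻¹ * x.2 * e⁻¹ = (l : ℝ)⁻¹ * (x.1 + x.2 * e⁻¹) := by
              ring
            rw [h6, h5, ← mul_assoc, inv_mul_cancel₀ hlr.ne', one_mul]
    · have hio : io e (l • w) = ((l : ℝ) * (io e w).1, (l : ℝ) * (io e w).2) := by
        rw [map_nsmul]
        ext
        · simp
        · simp
      rw [hio, sub_self]
      exact (LR e Lam).zero_mem

end

end Zau.Cone
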