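import Mathlib
import Pool.Agent.Lib_zau.ConeT

/-!
# The function `rhoT n` of the tower and the cyclic superlattices `Lc c`

`rhoT n = rho n (ep n)`; the fields `per`, `odd`, `eps`, `dist` of the structure `Tower`, and the cone
products of the lattices `Lc c = Lam + ℤ c`.
-/

set_option autoImplicit false

open MeasureTheory Set Filter Topology
open scoped Real

namespace Zau.Cone

theorem ep_sq {n : ℤ} (hn : 3 ≤ n) : ep n ^ 2 = n * ep n - 1 := by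
  have h3 : (3 : ℝ) ≤ n := by exact_mod_cast hn
  have h0 : (0 : ℝ) ≤ (n : ℝ) ^ 2 - 4 := by nlinarith
  have h1 := Real.sq_sqrt h0
  unfold ep
  nlinarith

theorem ep_gt {n : ℤ} (hn : 3 ≤ n) : 1 < ep n := by
  have h3 : (3 : ℝ) ≤ n := by exact_mod_cast hn
  have h1 := Real.sqrt_nonneg ((n : ℝ) ^ 2 - 4)
  unfold ep
  linarith

/-- The function `rho` of the tower. -/
noncomputable def rhoT (n : ℤ) : ℚ × ℚ → ℝ := rho n (ep n)

section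

variable {n : ℤ}

theorem rhoT_per (hn : 3 ≤ n) : ∀ w, ∀ z ∈ Lam, rhoT n (w + z) = rhoT n w := fun w z hz =>
  rho_per (ep_gt hn) (ep_sq hn) (by rwa [add_sub_cancel_left])

theorem rhoT_odd (hn : 3 ≤ n) : ∀ w, rhoT n (-w) = -rhoT n w := fun w =>
  rho_neg (ep_gt hn) (ep_sq hn) w

theorem rhoT_eps (hn : 3 ≤ n) : ∀ w, rhoT n (E n w) = rhoT n w := fun w =>
  rho_E (ep_gt hn) (ep_sq hn) w

theorem rhoT_dist (hn : 3 ≤ n) : ∀ l : ℕ, l.Prime → ∀ w : ℚ × ℚ, rhoT n (l • w) =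
    ∑ i ∈ Finset.range l, ∑ k ∈ Finset.range l, rhoT n (w + ((i : ℚ) / l, (k : ℚ) / l)) :=
  fun _ hl w => rho_dist (ep_gt hn) (ep_sq hn) hl.pos w

/-- The points of `Lc c`. -/
theorem mem_Lc {c x : ℚ × ℚ} : x ∈ Lc c ↔ ∃ z ∈ Lam, ∃ m : ℤ, x = z + m • c := by
  unfold Lc
  rw [AddSubgroup.mem_sup]
  constructor
  · rintro ⟨z, hz, y, hy, rfl⟩
    obtain ⟨m, rfl⟩ := AddSubgroup.mem_zmultiples_iff.1 hy
    exact ⟨z, hz, m, rfl⟩
  · rintro ⟨z, hz, m, rfl⟩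
    exact ⟨z, hz, m • c, AddSubgroup.mem_zmultiples_iff.2 ⟨m, rfl⟩, rfl⟩

/-- `E ^ K` fixes `c` modulo `Lam`. -/
theorem fix_c {l K j : ℕ} (hl : 0 < l)
    (hKj : ∀ z ∈ Lam, ∃ z' ∈ Lam, (E n ^ K) z - z = (l ^ j) • z') {c : ℚ × ℚ}
    (hc : (l ^ j) • c ∈ Lam) : (E n ^ K) c - c ∈ Lam := by
  obtain ⟨z', hz', h⟩ := hKj _ hc
  rw [map_nsmul, ← smul_sub] at h
  have h1 : (E n ^ K) c - c = z' := by
    have hne : ((l ^ j : ℕ) : ℚ) ≠ 0 := by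
      exact_mod_cast (pow_pos hl j).ne'
    have h2 : ∀ x : ℚ × ℚ, (l ^ j) • x = (((l ^ j : ℕ) : ℚ) * x.1, ((l ^ j : ℕ) : ℚ) * x.2) := by
      intro x
      ext
      · simp
      · simp
    rw [h2, h2] at h
    have h3 := congrArg Prod.fst h
    have h4 := congrArg Prod.snd h
    simp only at h3 h4
    ext
    · exact mul_left_cancel₀ hne h3
    · exact mul_left_cancel₀ hne h4
  rw [h1]
  exact hz'

/-- `Lc c` is stable under `E ^ K`. -/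
theorem stab_Lc {K : ℕ} {c : ℚ × ℚ} (hc : (E n ^ K) c - c ∈ Lam) :
    ∀ w, w ∈ Lc c ↔ (E n ^ K) w ∈ Lc c := by
  intro w
  have hsm : ∀ m : ℤ, (E n ^ K) (m • c) - m • c ∈ Lam := by
    intro m
    rw [map_zsmul, ← smul_sub]
    exact Lam.zsmul_mem hc m
  constructor
  · intro hw
    obtain ⟨z, hz, m, rfl⟩ := mem_Lc.1 hw
    refine mem_Lc.2 ⟨(E n ^ K) z + ((E n ^ K) (m • c) - m • c),
      Lam.add_mem ((E_pow_mem_iff K z).1 hz) (hsm m), m, ?_⟩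
    rw [map_add]
    abel
  · intro hw
    obtain ⟨z, hz, m, h⟩ := mem_Lc.1 hw
    have h1 : (E n ^ K) (w - m • c) ∈ Lam := by
      rw [map_sub, h]
      have h2 := Lam.sub_mem hz (hsm m)
      have e : z + m • c - (E n ^ K) (m • c) = z - ((E n ^ K) (m • c) - m • c) := by abel
      rw [e]
      exact h2
    have h2 := (E_pow_mem_iff K _).2 h1
    exact mem_Lc.2 ⟨_, h2, m, by abel⟩

theorem order_c {l j : ℕ} (hl : l.Prime) (hj : 0 < j) {c : ℚ × ℚ} (hc : (l ^ j) • c ∈ Lam)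
    (hc' : (l ^ (j - 1)) • c ∉ Lam) {k k' : ℕ} (hk : k < l ^ j) (hk' : k' < l ^ j)
    (h : k • c - k' • c ∈ Lam) : k = k' := by
  have _i := Fact.mk hl
  have h0 : addOrderOf ((QuotientAddGroup.mk c : (ℚ × ℚ) ⧸ Lam)) = l ^ (j - 1 + 1) := by
    refine addOrderOf_eq_prime_pow ?_ ?_
    · rw [← QuotientAddGroup.mk_nsmul, QuotientAddGroup.eq_zero_iff]
      exact hc'
    · rw [← QuotientAddGroup.mk_nsmul, QuotientAddGroup.eq_zero_iff, Nat.sub_add_cancel hj]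
      exact hc
  rw [Nat.sub_add_cancel hj] at h0
  have h1 : k • (QuotientAddGroup.mk c : (ℚ × ℚ) ⧸ Lam) =
      k' • (QuotientAddGroup.mk c : (ℚ × ℚ) ⧸ Lam) := by
    rw [← sub_eq_zero, ← QuotientAddGroup.mk_nsmul, ← QuotientAddGroup.mk_nsmul,
      ← QuotientAddGroup.mk_sub, QuotientAddGroup.eq_zero_iff]
    exact h
  exact nsmul_injOn_Iio_addOrderOf (by rw [h0]; exact hk) (by rw [h0]; exact hk') h1

/-- Representatives of `Lc c` modulo `Lam`. -/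
theorem reps_Lc {l j : ℕ} (hl : l.Prime) (hj : 0 < j) {c : ℚ × ℚ} (hc : (l ^ j) • c ∈ Lam)
    (hc' : (l ^ (j - 1)) • c ∉ Lam) :
    ∃ R : Finset (ℚ × ℚ), (∀ c' ∈ R, c' ∈ Lc c) ∧ (∀ x ∈ Lc c, ∃ c' ∈ R, x - c' ∈ Lam) ∧
      (∀ a ∈ R, ∀ b ∈ R, a - b ∈ Lam → a = b) ∧
      ∀ f : ℚ × ℚ → ℝ, ∑ a ∈ R, f a = ∑ k ∈ Finset.range (l ^ j), f (k • c) := by
  classical
  refine ⟨(Finset.range (l ^ j)).image fun k => k • c, ?_, ?_, ?_, ?_⟩
  · intro a ha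
    obtain ⟨k, _, rfl⟩ := Finset.mem_image.1 ha
    exact mem_Lc.2 ⟨0, Lam.zero_mem, k, by simp⟩
  · intro x hx
    obtain ⟨z, hz, m, rfl⟩ := mem_Lc.1 hx
    have hq : (0 : ℤ) < ((l ^ j : ℕ) : ℤ) := by exact_mod_cast pow_pos hl.pos j
    have h1 := Int.emod_nonneg m hq.ne'
    have h2 := Int.emod_lt_of_pos m hq
    have h3 := Int.emod_add_mul_ediv m ((l ^ j : ℕ) : ℤ)
    refine ⟨(m % ((l ^ j : ℕ) : ℤ)).toNat • c, Finset.mem_image_of_mem _ ?_, ?_⟩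
    · rw [Finset.mem_range]
      omega
    · have e1 : (m % ((l ^ j : ℕ) : ℤ)).toNat • c = (m % ((l ^ j : ℕ) : ℤ)) • c := by
        rw [← natCast_zsmul, Int.toNat_of_nonneg h1]
      have e2 : m • c = (m % ((l ^ j : ℕ) : ℤ)) • c + (m / ((l ^ j : ℕ) : ℤ)) • ((l ^ j) • c) := by
        rw [← natCast_zsmul c (l ^ j), ← mul_zsmul, ← add_zsmul]
        congr 1
        rw [mul_comm]
        exact h3.symm
      rw [e1]
      have e3 : z + m • c - (m % ((l ^ j : ℕ) : ℤ)) • c = z + (m / ((l ^ j : ℕ) : ℤ)) • ((l ^ j) • c) := by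
        rw [e2]
        abel
      rw [e3]
      exact Lam.add_mem hz (Lam.zsmul_mem hc _)
  · intro a ha b hb h
    obtain ⟨k, hk, rfl⟩ := Finset.mem_image.1 ha
    obtain ⟨k', hk', rfl⟩ := Finset.mem_image.1 hb
    rw [Finset.mem_range] at hk hk'
    rw [order_c hl hj hc hc' hk hk' h]
  · intro f
    rw [Finset.sum_image]
    intro k hk k' hk' h
    rw [Finset.mem_coe, Finset.mem_range] at hk hk'
    refine order_c hl hj hc hc' hk hk' ?_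
    have h' : k • c = k' • c := h
    rw [h', sub_self]
    exact Lam.zero_mem

/-- Bounded denominators of `Lc c`. -/
theorem den_Lc {q : ℕ} {c : ℚ × ℚ} (hc : q • c ∈ Lam) :
    ∀ w ∈ Lc c, ((q : ℚ) * w.1, (q : ℚ) * w.2) ∈ Lam := by
  intro w hw
  obtain ⟨z, hz, m, rfl⟩ := mem_Lc.1 hw
  have h1 := Lam.add_mem (Lam.nsmul_mem hz q) (Lam.zsmul_mem hc m)
  have e : q • z + m • (q • c) = ((q : ℚ) * (z + m • c).1, (q : ℚ) * (z + m • c).2) := by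
    ext
    · simp
      ring
    · simp
      ring
  rwa [e] at h1

/-- **The cone product of the lattice `Lc c`.** -/
theorem BO_Lc (hn : 3 ≤ n) {l K j : ℕ} (hl : l.Prime) (hK : 0 < K) (hj : 0 < j)
    (hKj : ∀ z ∈ Lam, ∃ z' ∈ Lam, (E n ^ K) z - z = (l ^ j) • z') {c : ℚ × ℚ}
    (hc : (l ^ j) • c ∈ Lam) (hc' : (l ^ (j - 1)) • c ∉ Lam) {x : ℚ × ℚ} (hx : x ∉ Lc c)
    (hxK : (E n ^ K) x - x ∈ Lc c) {m : ℝ × ℝ} (hm : m ∈ LR (ep n) (Lc c)) (hm1 : 0 < m.1)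
    (hm2 : 0 < m.2) :
    -(2 * BO (LR (ep n) (Lc c)) (ep n ^ K) m (io (ep n) x)) =
      K * ∑ k ∈ Finset.range (l ^ j), rhoT n (x + k • c) := by
  obtain ⟨R, hR, hR1, hR2, hR3⟩ := reps_Lc hl hj hc hc'
  have h1 := BO_super (ep_gt hn) (ep_sq hn) (L := Lc c) le_sup_left (pow_pos hl.pos j) (den_Lc hc)
    R hR hR1 hR2 hK (stab_Lc (fix_c hl.pos hKj hc)) hx hxK hm hm1 hm2
  rw [h1, hR3 fun a => rho n (ep n) (x + a)]
  rfl

/-- The sum vanishes on `Lc c`. -/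
theorem rhoT_Lc_zero (hn : 3 ≤ n) {l j : ℕ} (hl : l.Prime) (hj : 0 < j) {c : ℚ × ℚ}
    (hc : (l ^ j) • c ∈ Lam) (hc' : (l ^ (j - 1)) • c ∉ Lam) {x : ℚ × ℚ} (hx : x ∈ Lc c) :
    ∑ k ∈ Finset.range (l ^ j), rhoT n (x + k • c) = 0 := by
  obtain ⟨R, hR, hR1, hR2, hR3⟩ := reps_Lc hl hj hc hc'
  have h1 := rho_sum_zero (ep_gt hn) (ep_sq hn) R hR hR1 hR2 hx
  rw [hR3 fun a => rho n (ep n) (x + a)] at h1
  exact h1

/-- The level `K` product on `Lam` itself. -/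
theorem BO_Lam (hn : 3 ≤ n) {K : ℕ} (hK : 0 < K) {x : ℚ × ℚ} (hx : x ∉ Lam)
    (hxK : (E n ^ K) x - x ∈ Lam) {m : ℝ × ℝ} (hm : m ∈ LR (ep n) Lam) (hm1 : 0 < m.1)
    (hm2 : 0 < m.2) :
    -(2 * BO (LR (ep n) Lam) (ep n ^ K) m (io (ep n) x)) = K * rhoT n x := by
  have he := ep_gt hn
  have hs := ep_sq hn
  have h1 := rho_eq he hs hx hK hxK
  have h2 := BO_indep (isLat_Lam he) (one_lt_pow' he hK) (stab_Lam he hs K) (fix_LR he hs hxK)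
    hm hm1 hm2 (one_mem (e := ep n)) one_pos one_pos
  rw [h2, ← h1, mul_comm]
  rfl

end

end Zau.Cone
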