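import Mathlib

/-!
# The missing value `v = -p` of the near group equations

Finite abelian group `G` of order `m`, symmetric pairing `pr` with orthogonality, quadratic
function `γ` with `γ (x + y) * pr x y = γ x * γ y`, `b x * b (-x) = γ x` for `x ≠ 0`, `a x * b x = 1`
for `x ≠ 0`, `a 0 = b 0`, `κ ^ 2 = m`. If the equation `(**)_{p,v}` is known for all `v ≠ -p` and
`(**)_{-p,v}` for all `v ≠ p`, then `(**)_{p,v}` holds for all `v`.
-/

open Finset

namespace Zau

variable {G : Type*} [AddCommGroup G] [Fintype G] [DecidableEq G] {k : Type*} [Field k]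

/-- The difference of the two sides of the near group equation `(**)`. -/
def ngDiff (pr : G → G → k) (a b : G → k) (κ : k) (p v : G) : k :=
  (∑ w, pr w v * (a w * b (w - p))) - κ * b (-p) * b (-v) * a (-p - v)

/-- Data of the near group equations. -/
structure NGData (pr : G → G → k) (γ a b : G → k) (s κ : k) : Prop where
  pr_symm : ∀ x y, pr x y = pr y x
  pr_add : ∀ x y z, pr (x + y) z = pr x z * pr y z
  pr_orth : ∀ v, ∑ w, pr w v = if v = 0 then (Fintype.card G : k) else 0
  γ_zero : γ 0 = 1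
  γ_neg : ∀ x, γ (-x) = γ x
  γ_add : ∀ x y, γ (x + y) * pr x y = γ x * γ y
  γ_ne : ∀ x, γ x ≠ 0
  b_ne : ∀ x, b x ≠ 0
  bb : ∀ x, x ≠ 0 → b x * b (-x) = γ x
  ab : ∀ x, x ≠ 0 → a x * b x = 1
  a_zero : a 0 = s
  b_zero : b 0 = s
  κ_sq : κ ^ 2 = (Fintype.card G : k)

section
variable {pr : G → G → k} {γ a b : G → k} {s κ : k}

theorem NGData.pr_zero (h : NGData pr γ a b s κ) (x : G) : pr 0 x = 1 := by
  have h1 := h.γ_add 0 x
  rw [zero_add, h.γ_zero, one_mul] at h1
  exact mul_left_cancel₀ (h.γ_ne x) (by rw [h1, mul_one])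

theorem NGData.pr_neg (h : NGData pr γ a b s κ) (x y : G) : pr (-x) y * pr x y = 1 := by
  rw [← h.pr_add, neg_add_cancel, h.pr_zero]

theorem NGData.pr_ne (h : NGData pr γ a b s κ) (x y : G) : pr x y ≠ 0 := by
  intro h0
  have := h.pr_neg x y
  rw [h0, mul_zero] at this
  exact zero_ne_one this

theorem NGData.pr_add_right (h : NGData pr γ a b s κ) (x y z : G) :
    pr x (y + z) = pr x y * pr x z := by
  rw [h.pr_symm x (y + z), h.pr_add, h.pr_symm y x, h.pr_symm z x]

theorem NGData.pr_neg_right (h : NGData pr γ a b s κ) (x y : G) : pr x (-y) * pr x y = 1 := by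
  rw [h.pr_symm x (-y), h.pr_symm x y, h.pr_neg]

theorem NGData.b_neg (h : NGData pr γ a b s κ) (x : G) : b (-x) = γ x * a x := by
  by_cases hx : x = 0
  · subst hx
    rw [neg_zero, h.γ_zero, h.a_zero, h.b_zero, one_mul]
  · have h1 := h.bb x hx
    have h2 := h.ab x hx
    apply mul_left_cancel₀ (h.b_ne x)
    rw [h1]
    linear_combination (-(γ x)) * h2

theorem NGData.a_neg (h : NGData pr γ a b s κ) (x : G) : γ x * a (-x) = b x := by
  have := h.b_neg (-x)
  rw [neg_neg, h.γ_neg] at this
  exact this.symm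

/-- `f_p (-w) <w, p> = γ p f_p (p + w)`. -/
theorem NGData.refl (h : NGData pr γ a b s κ) (p w : G) :
    a (-w) * b (-w - p) * pr w p = γ p * (a (p + w) * b w) := by
  have h1 : b (-w - p) = γ (w + p) * a (w + p) := by
    have := h.b_neg (w + p)
    rwa [neg_add, ← sub_eq_add_neg] at this
  have h2 := h.a_neg w
  have h3 := h.γ_add w p
  rw [h1, add_comm p w]
  apply mul_left_cancel₀ (h.γ_ne w)
  linear_combination (a (w + p) * γ (w + p) * pr w p) * h2 + b w * a (w + p) * h3

theorem NGData.ft (h : NGData pr γ a b s κ) {p : G} (hp : p ≠ 0) (w : G) :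
    ∑ v, pr w v * ngDiff pr a b κ p v =
      -(κ * b (-p)) * pr w (-p) * ngDiff pr a b κ (-p) (-w) := by
  unfold ngDiff
  simp only [mul_sub, Finset.sum_sub_distrib, Finset.mul_sum]
  -- first double sum
  have h1 : ∑ v, ∑ u, pr w v * (pr u v * (a u * b (u - p))) =
      (Fintype.card G : k) * (a (-w) * b (-w - p)) := by
    rw [Finset.sum_comm]
    have : ∀ u, ∑ v, pr w v * (pr u v * (a u * b (u - p))) =
        (if u = -w then (Fintype.card G : k) else 0) * (a u * b (u - p)) := by
      intro u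
      have h2 : ∑ v, pr w v * (pr u v * (a u * b (u - p))) =
          (∑ v, pr v (w + u)) * (a u * b (u - p)) := by
        rw [Finset.sum_mul]
        refine Finset.sum_congr rfl fun v _ => ?_
        rw [h.pr_symm v (w + u), h.pr_add]
        ring
      rw [h2, h.pr_orth]
      congr 1
      by_cases hu : u = -w
      · rw [if_pos hu, if_pos (by rw [hu, add_neg_cancel])]
      · rw [if_neg hu, if_neg (fun h0 => hu (eq_neg_of_add_eq_zero_right h0))]
    rw [Finset.sum_congr rfl fun u _ => this u]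
    simp
  rw [h1]
  -- second sum, substitution `v = -p - u`
  have h2 : ∑ v, pr w v * (κ * b (-p) * b (-v) * a (-p - v)) =
      κ * b (-p) * pr w (-p) * ∑ u, pr u (-w) * (a u * b (u - -p)) := by
    rw [Finset.mul_sum]
    refine Fintype.sum_equiv (Equiv.subLeft (-p)) _ _ fun v => ?_
    rw [Equiv.subLeft_apply]
    have e1 : -p - v - -p = -v := by abel
    rw [e1]
    have e2 : pr w v = pr w (-p) * pr (-p - v) (-w) := by
      have h3 : pr (-p - v) (-w) = pr w (p + v) := by
        have h4 := h.pr_neg_right (-p - v) w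
        have h5 := h.pr_neg (p + v) w
        have h6 : -p - v = -(p + v) := by abel
        rw [h6] at h4 ⊢
        rw [h.pr_symm w (p + v)]
        apply mul_right_cancel₀ (h.pr_ne (-(p + v)) w)
        rw [h4, mul_comm, h5]
      rw [h3, ← h.pr_add_right]
      congr 1
      abel
    rw [e2]
    ring
  rw [h2]
  simp only [neg_neg, sub_neg_eq_add]
  have h3 := h.refl p w
  have h4 := h.bb p hp
  have h5 := h.κ_sq
  have h6 := h.pr_neg_right w p
  have h7 : (Fintype.card G : k) * (a (-w) * b (-w - p)) =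
      κ * b (-p) * pr w (-p) * (κ * b p * b w * a (p + w)) := by
    rw [← h5]
    apply mul_right_cancel₀ (h.pr_ne w p)
    linear_combination (κ ^ 2) * h3 - (κ ^ 2 * b w * a (p + w)) * h4 -
      (κ ^ 2 * b p * b (-p) * b w * a (p + w)) * h6
  rw [h7, Finset.mul_sum]
  have h9 : ∑ x, -(κ * b (-p)) * pr w (-p) * (pr x (-w) * (a x * b (x + p))) =
      -∑ x, κ * b (-p) * pr w (-p) * (pr x (-w) * (a x * b (x + p))) := by
    rw [← Finset.sum_neg_distrib]
    exact Finset.sum_congr rfl fun x _ => by ring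
  rw [h9]
  ring

/-- The equation for `v = -p` follows from the others. -/
theorem NGData.extend (h : NGData pr γ a b s κ) {p : G} (hp : p ≠ 0)
    (h1 : ∀ v, v ≠ -p → ngDiff pr a b κ p v = 0)
    (h2 : ∀ v, v ≠ p → ngDiff pr a b κ (-p) v = 0) (v : G) : ngDiff pr a b κ p v = 0 := by
  have h3 := h.ft hp 0
  rw [neg_zero, h2 0 (Ne.symm hp), mul_zero, Finset.sum_eq_single (-p)] at h3
  · rw [h.pr_zero, one_mul] at h3
    by_cases hv : v = -p
    · rw [hv, h3]
    · exact h1 v hv
  · intro v _ hv
    rw [h1 v hv, mul_zero]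
  · intro h4
    exact absurd (Finset.mem_univ _) h4

end

end Zau
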