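import Mathlib

/-!
# Covering lemma

For two points `p`, `v` of `(Z / m)^2` with `p ≠ 0`, `p + v ≠ 0` there is a primitive vector
`(x, y)` of `Z^2`, with `x` as large as we want and `|y| ≤ m`, such that the residues of
`E ((x, y), p)` and `E ((x, y), v)` in `[0, m)` are not zero (the first one) and have sum `< m`.
-/

namespace Zau

theorem CoverInt_neg_emod {m a : ℤ} (hm : 0 < m) (ha : ¬ m ∣ a) : (-a) % m = m - a % m := by
  have h1 : 0 < a % m := lt_of_le_of_ne (Int.emod_nonneg a hm.ne')
    (fun h => ha (Int.dvd_of_emod_eq_zero h.symm))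
  have h2 : a % m < m := Int.emod_lt_of_pos a hm
  have h3 : (-a) % m = (m - a % m) % m := by
    have : -a = (m - a % m) + m * (-(a / m) - 1) := by
      have := Int.emod_add_mul_ediv a m
      linarith [this]
    rw [this, Int.add_mul_emod_self_left]
  rw [h3]
  exact Int.emod_eq_of_lt (by omega) (by omega)

/-- One of the three vectors `(1, 0)`, `(0, 1)`, `(1, 1)` is good for `p` and `p + v`. -/
theorem CoverInt_class {m : ℤ} {i j k l : ℤ} (hp : ¬ (m ∣ i ∧ m ∣ j)) (hq : ¬ (m ∣ k ∧ m ∣ l)) :
    (¬ m ∣ j ∧ ¬ m ∣ l) ∨ (¬ m ∣ i ∧ ¬ m ∣ k) ∨ (¬ m ∣ j - i ∧ ¬ m ∣ l - k) := by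
  by_contra hcon
  rw [not_or, not_or] at hcon
  obtain ⟨h1, h2, h3⟩ := hcon
  have key : ∀ {a b : ℤ}, ¬ (m ∣ a ∧ m ∣ b) →
      (m ∣ b → ¬ m ∣ a) ∧ (m ∣ b → ¬ m ∣ b - a) ∧ (m ∣ a → ¬ m ∣ b - a) := by
    intro a b hab
    refine ⟨fun hb ha => hab ⟨ha, hb⟩, fun hb hba => hab ⟨?_, hb⟩, fun ha hba => hab ⟨ha, ?_⟩⟩
    · have := dvd_sub hb hba
      simpa using this
    · have := dvd_add hba ha
      simpa using this
  obtain ⟨p1, p2, p3⟩ := key hp
  obtain ⟨q1, q2, q3⟩ := key hq
  tauto

/-- The covering lemma. -/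
theorem cover_int {m : ℤ} (hm : 0 < m) {i j i' j' : ℤ} (hp : ¬ (m ∣ i ∧ m ∣ j))
    (hq : ¬ (m ∣ i + i' ∧ m ∣ j + j')) (X : ℤ) :
    ∃ x y : ℤ, X ≤ x ∧ |y| ≤ m ∧ IsCoprime x y ∧ 0 < (x * j - y * i) % m ∧
      (x * j - y * i) % m + (x * j' - y * i') % m < m := by
  -- the six lifts: `x = k m + u`, `y ∈ {m, 1, -1}`
  obtain ⟨K, hK⟩ : ∃ K : ℤ, X + 1 ≤ K * m := by
    refine ⟨|X| + 1, ?_⟩
    have h1 : X ≤ |X| := le_abs_self X
    have h2 : 0 ≤ |X| := abs_nonneg X
    nlinarith
  have emod_pos : ∀ {a : ℤ}, ¬ m ∣ a → 0 < a % m := fun {a} ha =>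
    lt_of_le_of_ne (Int.emod_nonneg a hm.ne') (fun h => ha (Int.dvd_of_emod_eq_zero h.symm))
  have emod_lt : ∀ a : ℤ, a % m < m := fun a => Int.emod_lt_of_pos a hm
  have main : ∀ a c : ℤ, ¬ m ∣ a → ¬ m ∣ a + c →
      (0 < a % m ∧ a % m + c % m < m) ∨ (0 < (-a) % m ∧ (-a) % m + (-c) % m < m) := by
    intro a c ha hac
    by_cases h : a % m + c % m < m
    · exact Or.inl ⟨emod_pos ha, h⟩
    · right
      have hne : a % m + c % m ≠ m := by
        intro h'
        apply hac
        have h1 := Int.emod_add_mul_ediv a m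
        have h2 := Int.emod_add_mul_ediv c m
        refine ⟨1 + a / m + c / m, ?_⟩
        linarith
      have hc : ¬ m ∣ c := by
        intro hc
        have : c % m = 0 := Int.emod_eq_zero_of_dvd hc
        rw [this] at h
        exact h (by linarith [emod_lt a])
      rw [CoverInt_neg_emod hm ha, CoverInt_neg_emod hm hc]
      have := emod_lt a
      have := emod_lt c
      constructor
      · linarith
      · omega
  rcases CoverInt_class hp hq with ⟨h1, h2⟩ | ⟨h1, h2⟩ | ⟨h1, h2⟩
  · rcases main j j' h1 h2 with ⟨h3, h4⟩ | ⟨h3, h4⟩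
    · refine ⟨K * m + 1, m, by linarith, by rw [abs_of_pos hm], ⟨1, -K, by ring⟩, ?_, ?_⟩
      · have : (K * m + 1) * j - m * i = j + m * (K * j - i) := by ring
        rw [this, Int.add_mul_emod_self_left]
        exact h3
      · have e1 : (K * m + 1) * j - m * i = j + m * (K * j - i) := by ring
        have e2 : (K * m + 1) * j' - m * i' = j' + m * (K * j' - i') := by ring
        rw [e1, e2, Int.add_mul_emod_self_left, Int.add_mul_emod_self_left]
        exact h4
    · refine ⟨K * m - 1, m, by linarith, by rw [abs_of_pos hm], ⟨-1, K, by ring⟩, ?_, ?_⟩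
      · have : (K * m - 1) * j - m * i = -j + m * (K * j - i) := by ring
        rw [this, Int.add_mul_emod_self_left]
        exact h3
      · have e1 : (K * m - 1) * j - m * i = -j + m * (K * j - i) := by ring
        have e2 : (K * m - 1) * j' - m * i' = -j' + m * (K * j' - i') := by ring
        rw [e1, e2, Int.add_mul_emod_self_left, Int.add_mul_emod_self_left]
        exact h4
  · rcases main i i' h1 h2 with ⟨h3, h4⟩ | ⟨h3, h4⟩
    · refine ⟨K * m, -1, by linarith, by rw [abs_neg, abs_one]; omega, ⟨0, -1, by ring⟩, ?_, ?_⟩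
      · have : (K * m) * j - (-1) * i = i + m * (K * j) := by ring
        rw [this, Int.add_mul_emod_self_left]
        exact h3
      · have e1 : (K * m) * j - (-1) * i = i + m * (K * j) := by ring
        have e2 : (K * m) * j' - (-1) * i' = i' + m * (K * j') := by ring
        rw [e1, e2, Int.add_mul_emod_self_left, Int.add_mul_emod_self_left]
        exact h4
    · refine ⟨K * m, 1, by linarith, by rw [abs_one]; omega, ⟨0, 1, by ring⟩, ?_, ?_⟩
      · have : (K * m) * j - 1 * i = -i + m * (K * j) := by ring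
        rw [this, Int.add_mul_emod_self_left]
        exact h3
      · have e1 : (K * m) * j - 1 * i = -i + m * (K * j) := by ring
        have e2 : (K * m) * j' - 1 * i' = -i' + m * (K * j') := by ring
        rw [e1, e2, Int.add_mul_emod_self_left, Int.add_mul_emod_self_left]
        exact h4
  · have h2' : ¬ m ∣ (j - i) + (j' - i') := by
      have : (j - i) + (j' - i') = (j + j') - (i + i') := by ring
      rwa [this]
    rcases main (j - i) (j' - i') h1 h2' with ⟨h3, h4⟩ | ⟨h3, h4⟩
    · refine ⟨K * m + 1, 1, by linarith, by rw [abs_one]; omega, ⟨0, 1, by ring⟩, ?_, ?_⟩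
      · have : (K * m + 1) * j - 1 * i = (j - i) + m * (K * j) := by ring
        rw [this, Int.add_mul_emod_self_left]
        exact h3
      · have e1 : (K * m + 1) * j - 1 * i = (j - i) + m * (K * j) := by ring
        have e2 : (K * m + 1) * j' - 1 * i' = (j' - i') + m * (K * j') := by ring
        rw [e1, e2, Int.add_mul_emod_self_left, Int.add_mul_emod_self_left]
        exact h4
    · refine ⟨K * m - 1, -1, by linarith, by rw [abs_neg, abs_one]; omega, ⟨0, -1, by ring⟩, ?_, ?_⟩
      · have : (K * m - 1) * j - (-1) * i = -(j - i) + m * (K * j) := by ring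
        rw [this, Int.add_mul_emod_self_left]
        exact h3
      · have e1 : (K * m - 1) * j - (-1) * i = -(j - i) + m * (K * j) := by ring
        have e2 : (K * m - 1) * j' - (-1) * i' = -(j' - i') + m * (K * j') := by ring
        rw [e1, e2, Int.add_mul_emod_self_left, Int.add_mul_emod_self_left]
        exact h4

end Zau
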