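import Mathlib

/-!
MP_1c78a5_mp (Zauner), part (b).  File CycSupp: polynomials of small degree over a field of characteristic `l`
divisible by a power of `X - 1` have many terms; the version for `X ^ q - 1`, `q = l ^ (n-1)`; the constancy lemma.
-/

namespace Zau

open Finset Polynomial

variable {k : Type*} [Field k]

/-- the section `∑ i, P.coeff (r + q * i) Y ^ i` (degree `< m`) -/
noncomputable def sect (q m r : ℕ) (P : k[X]) : k[X] := ∑ i ∈ range m, C (P.coeff (r + q * i)) * X ^ i

/-- moments: `∑ i, P.coeff i * i ^ t = 0` for `t < e` if `(X - 1) ^ e` divides `P`. -/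
theorem moment_of_dvd {P : k[X]} {e : ℕ} (h : (X - 1 : k[X]) ^ e ∣ P) {t : ℕ} (ht : t < e) :
    ∑ i ∈ range (P.natDegree + 1), P.coeff i * (i : k) ^ t = 0 := by
  have key : ∀ (t : ℕ) (P : k[X]) (e : ℕ), (X - 1 : k[X]) ^ e ∣ P → t < e → ∀ N, P.natDegree < N →
      ∑ i ∈ range N, P.coeff i * (i : k) ^ t = 0 := by
    intro t
    induction t with
    | zero =>
      intro P e h he N hN
      have h1 : (X - 1 : k[X]) ∣ P := (dvd_pow_self _ (by omega)).trans h
      have h2 : P.eval 1 = 0 := by
        obtain ⟨Q, rfl⟩ := h1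
        simp
      rw [eval_eq_sum_range' hN] at h2
      simpa using h2
    | succ t ih =>
      intro P e h he N hN
      have h1 : (X - 1 : k[X]) ^ (e - 1) ∣ derivative P := pow_sub_one_dvd_derivative_of_pow_dvd h
      have h2 := ih (X * derivative P) (e - 1) (h1.mul_left _) (by omega) (N + 1) (by
        have h3 : (X * derivative P).natDegree ≤ 1 + (P.natDegree - 1) :=
          natDegree_mul_le.trans (add_le_add natDegree_X_le (natDegree_derivative_le P))
        omega)
      rw [sum_range_succ'] at h2
      simp only [coeff_X_mul, coeff_derivative] at h2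
      have h3 : (X * derivative P).coeff 0 = 0 := by simp
      rw [h3, zero_mul, add_zero] at h2
      have h4 : ∑ i ∈ range (N + 1), P.coeff i * (i : k) ^ (t + 1) = 0 := by
        rw [sum_range_succ', Nat.cast_zero, zero_pow (Nat.succ_ne_zero t), mul_zero, add_zero, ← h2]
        refine sum_congr rfl fun i _ => ?_
        push_cast
        ring
      rw [sum_range_succ, coeff_eq_zero_of_natDegree_lt hN, zero_mul, add_zero] at h4
      exact h4
  exact key t P e h ht _ (Nat.lt_succ_self _)

theorem natCast_injOn (l : ℕ) [Fact l.Prime] [CharP k l] {i j : ℕ} (hi : i < l) (hj : j < l)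
    (h : (i : k) = (j : k)) : i = j := by
  have h1 := (CharP.natCast_eq_natCast k l).1 h
  rwa [Nat.ModEq, Nat.mod_eq_of_lt hi, Nat.mod_eq_of_lt hj] at h1

/-- Proof.  Apply the operators `θ - i`, `θ P = X * derivative P`, for the exponents `i` in the support except one:
each operator lowers the order of vanishing at `1` by at most one, and the result is a nonzero monomial
(`j - i ≠ 0` in `k` for different `i, j < l`); a nonzero monomial is not divisible by `X - 1`. -/
theorem card_support_of_dvd (l : ℕ) [Fact l.Prime] [CharP k l] {P : k[X]} (hP : P ≠ 0)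
    (hdeg : P.natDegree < l) {e : ℕ} (h : (X - 1 : k[X]) ^ e ∣ P) : e + 1 ≤ P.support.card := by
  by_contra hcon
  have hn : P.support.card ≤ e := by omega
  let f : Fin P.support.card → ℕ := fun i => (P.support.equivFin.symm i : ℕ)
  have hf : ∀ i, f i ∈ P.support := fun i => (P.support.equivFin.symm i).2
  have hfi : Function.Injective f := by
    intro i j hij
    exact P.support.equivFin.symm.injective (Subtype.ext hij)
  have hlt : ∀ i, f i < l := fun i => lt_of_le_of_lt (le_natDegree_of_mem_supp _ (hf i)) hdeg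
  have h1 : (fun i => P.coeff (f i)) = 0 := by
    apply Matrix.eq_zero_of_forall_pow_sum_mul_pow_eq_zero (f := fun i => ((f i : ℕ) : k))
    · intro i j hij
      exact hfi (natCast_injOn l (hlt i) (hlt j) hij)
    · intro t
      have h2 := moment_of_dvd h (t := (t : ℕ)) (lt_of_lt_of_le t.2 hn)
      have h3 : ∑ i ∈ range (P.natDegree + 1), P.coeff i * (i : k) ^ (t : ℕ)
          = ∑ i ∈ P.support, P.coeff i * (i : k) ^ (t : ℕ) := by
        symm
        apply sum_subset
        · intro i hi
          rw [mem_range]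
          have := le_natDegree_of_mem_supp _ hi
          omega
        · intro i _ hi
          rw [notMem_support_iff.1 hi, zero_mul]
      rw [h3, ← sum_coe_sort, ← Equiv.sum_comp P.support.equivFin.symm] at h2
      exact h2
  have h2 : 0 < P.support.card := by
    rw [card_pos, support_nonempty]
    exact hP
  have h3 := congrFun h1 ⟨0, h2⟩
  exact (mem_support_iff.1 (hf ⟨0, h2⟩)) h3

/-- Proof.  `(X-1)^(q e) = (X^q - 1)^e` in characteristic `l` (`q = l^s`), `P = (X^q-1)^e Q` with
`natDegree Q + q e = natDegree P`; `sect` of `(X^q-1) * P` is `(X-1) * sect P` (all sections taken with `m = l` terms are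
complete because the degrees are `< q * l`). -/
theorem sect_dvd (l : ℕ) [Fact l.Prime] [CharP k l] {s e : ℕ} {P : k[X]}
    (hdeg : P.natDegree < l ^ (s + 1)) (h : (X - 1 : k[X]) ^ (l ^ s * e) ∣ P) {r : ℕ} (hr : r < l ^ s) :
    (X - 1 : k[X]) ^ e ∣ sect (l ^ s) l r P := by
  obtain ⟨q, hq⟩ : ∃ q, q = l ^ s := ⟨_, rfl⟩
  have hl : l.Prime := Fact.out
  have h1 : (X - 1 : k[X]) ^ (l ^ s) = X ^ q - 1 := by
    rw [sub_pow_char_pow, one_pow, hq]
  rw [pow_mul, h1] at h
  rw [pow_succ, ← hq] at hdeg
  rw [← hq] at hr ⊢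
  -- coefficients of the section
  have hcoeff : ∀ (Q : k[X]), Q.natDegree < q * l → ∀ i, (sect q l r Q).coeff i = Q.coeff (r + q * i) := by
    intro Q hQ i
    unfold sect
    simp only [finsetSum_coeff, coeff_C_mul, coeff_X_pow]
    by_cases hi : i < l
    · rw [sum_eq_single i]
      · simp
      · intro j _ hj
        rw [if_neg (fun h => hj h.symm), mul_zero]
      · intro h; exact absurd (mem_range.2 hi) h
    · rw [sum_eq_zero, coeff_eq_zero_of_natDegree_lt]
      · push Not at hi
        calc Q.natDegree < q * l := hQ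
          _ ≤ q * i := Nat.mul_le_mul_left _ hi
          _ ≤ r + q * i := by omega
      · intro j hj
        rw [mem_range] at hj
        rw [if_neg (by omega), mul_zero]
  have hstep : ∀ (e : ℕ) (Q : k[X]), ((X ^ q - 1) ^ e * Q).natDegree < q * l →
      (X - 1 : k[X]) ^ e ∣ sect q l r ((X ^ q - 1) ^ e * Q) := by
    intro e
    induction e with
    | zero => intro Q _; simp
    | succ e ih =>
      intro Q hQ
      by_cases hQ0 : Q = 0
      · subst hQ0
        have : sect q l r ((X ^ q - 1) ^ (e + 1) * (0 : k[X])) = 0 := by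
          unfold sect; simp
        rw [this]
        exact dvd_zero _
      have hqpos : 0 < q := by rw [hq]; exact pow_pos hl.pos _
      have hne : (X ^ q - 1 : k[X]) ≠ 0 := (monic_X_pow_sub_C (1 : k) hqpos.ne').ne_zero
      have hdeg1 : ((X ^ q - 1 : k[X]) ^ (e + 1) * Q).natDegree
          = q + ((X ^ q - 1 : k[X]) ^ e * Q).natDegree := by
        rw [pow_succ', mul_assoc, natDegree_mul hne (mul_ne_zero (pow_ne_zero _ hne) hQ0)]
        congr 1
        exact natDegree_X_pow_sub_C (r := (1 : k))
      have hR : ((X ^ q - 1 : k[X]) ^ e * Q).natDegree < q * l := by omega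
      have h2 := ih Q hR
      have h3 : sect q l r ((X ^ q - 1) ^ (e + 1) * Q)
          = (X - 1) * sect q l r ((X ^ q - 1) ^ e * Q) := by
        ext i
        rw [hcoeff _ hQ]
        rw [pow_succ', mul_assoc]
        generalize hRdef : (X ^ q - 1 : k[X]) ^ e * Q = R at *
        rw [sub_mul, sub_mul, one_mul, one_mul, coeff_sub, coeff_sub, hcoeff _ hR]
        congr 1
        rw [coeff_X_pow_mul']
        rcases i with _ | i
        · rw [if_neg (by omega)]
          simp
        · rw [if_pos (by nlinarith), coeff_X_mul, hcoeff _ hR]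
          congr 1
          have : r + q * (i + 1) = (r + q * i) + q := by ring
          omega
      rw [h3, pow_succ']
      exact mul_dvd_mul_left _ h2
  obtain ⟨Q, rfl⟩ := h
  exact hstep e Q hdeg

/-- CONSTANCY.
Proof.  For `t < e`: `∑ i < l, φ i * i ^ t = 0` (apply `θ^t` to `∑ φ i X^i` and evaluate at `1`).  So
`Φ(x) = ∑ i, φ i (1 - (x - i)^(l-1))` has degree `≤ l - 1 - e` and `Φ(i) = φ i`; same for `ψ`.  `Φ Ψ - 1` has degree
`≤ 2(l-1-e) ≤ l - 1` and the `l` zeros `0, 1, .., l-1`, so `Φ Ψ = 1` and `Φ` is constant. -/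
theorem const_of_dvd (l : ℕ) [Fact l.Prime] [CharP k l] {e : ℕ} (he : l - 1 ≤ 2 * e) (hel : e ≤ l - 1)
    (φ ψ : ℕ → k) (hφψ : ∀ i < l, φ i * ψ i = 1)
    (h1 : (X - 1 : k[X]) ^ e ∣ ∑ i ∈ range l, C (φ i) * X ^ i)
    (h2 : (X - 1 : k[X]) ^ e ∣ ∑ i ∈ range l, C (ψ i) * X ^ i) {i : ℕ} (hi : i < l) : φ i = φ 0 := by
  classical
  have hl : l.Prime := Fact.out
  have hl1 : 1 < l := hl.one_lt
  -- interpolation
  have key : ∀ φ : ℕ → k, (X - 1 : k[X]) ^ e ∣ ∑ i ∈ range l, C (φ i) * X ^ i →
      ∃ Φ : k[X], Φ.natDegree ≤ l - 1 - e ∧ ∀ i < l, Φ.eval (i : k) = φ i := by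
    intro φ h
    have hmom : ∀ t < e, ∑ i ∈ range l, φ i * (i : k) ^ t = 0 := by
      intro t ht
      have h3 := moment_of_dvd h ht
      have hc : ∀ i, (∑ i ∈ range l, C (φ i) * X ^ i : k[X]).coeff i = if i < l then φ i else 0 := by
        intro i
        simp only [finsetSum_coeff, coeff_C_mul, coeff_X_pow]
        by_cases hi : i < l
        · rw [if_pos hi, sum_eq_single i]
          · simp
          · intro j _ hj
            rw [if_neg (fun h => hj h.symm), mul_zero]
          · intro h; exact absurd (mem_range.2 hi) h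
        · rw [if_neg hi, sum_eq_zero]
          intro j hj
          rw [mem_range] at hj
          rw [if_neg (by omega), mul_zero]
      generalize (∑ i ∈ range l, C (φ i) * X ^ i : k[X]) = P at *
      have hdeg : P.natDegree + 1 ≤ l := by
        rcases Nat.lt_or_ge P.natDegree l with h5 | h5
        · omega
        · exfalso
          have h6 := hc P.natDegree
          rw [if_neg (by omega)] at h6
          have h7 : P = 0 := leadingCoeff_eq_zero.1 h6
          rw [h7] at h5
          simp at h5
          omega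
      rw [← h3]
      symm
      rw [← Finset.sum_subset (range_subset_range.2 hdeg)]
      · refine sum_congr rfl fun i hi => ?_
        rw [mem_range] at hi
        rw [hc, if_pos (by omega)]
      · intro i hi hi2
        rw [mem_range] at hi hi2
        have h8 := hc i
        rw [if_pos hi] at h8
        rw [← h8, coeff_eq_zero_of_natDegree_lt (by omega), zero_mul]
    refine ⟨∑ i ∈ range l, C (φ i) * (1 - (X - C (i : k)) ^ (l - 1)), ?_, ?_⟩
    · rw [natDegree_le_iff_coeff_eq_zero]
      intro N hN
      have h4 : ∀ j : ℕ, ((X - C (j : k)) ^ (l - 1)).coeff N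
          = (-(j : k)) ^ (l - 1 - N) * ((l - 1).choose N : k) := by
        intro j
        rw [sub_eq_add_neg, ← C_neg, coeff_X_add_C_pow]
      simp only [finsetSum_coeff, coeff_C_mul, coeff_sub, h4, coeff_one]
      have hN0 : N ≠ 0 := by omega
      simp only [if_neg hN0, zero_sub]
      by_cases hNl : N ≤ l - 1
      · have h5 : l - 1 - N < e := by omega
        have h6 := hmom _ h5
        have h7 : ∑ x ∈ range l, φ x * -((-(x : k)) ^ (l - 1 - N) * ((l - 1).choose N : k))
            = -((-1) ^ (l - 1 - N) * ((l - 1).choose N : k)) * ∑ x ∈ range l, φ x * (x : k) ^ (l - 1 - N) := by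
          rw [mul_sum]
          refine sum_congr rfl fun x _ => ?_
          rw [neg_pow (x : k)]
          ring
        rw [h7, h6, mul_zero]
      · rw [Nat.choose_eq_zero_of_lt (by omega)]
        simp
    · intro i hi
      simp only [eval_finsetSum, eval_mul, eval_C, eval_sub, eval_one, eval_pow, eval_X]
      rw [sum_eq_single i]
      · rw [sub_self, zero_pow (by omega), sub_zero, mul_one]
      · intro j hj hji
        rw [mem_range] at hj
        have h5 : ((i : k) - (j : k)) ^ (l - 1) = 1 := by
          have h6 : ((i : ZMod l) - (j : ZMod l)) ≠ 0 := by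
            intro h7
            have h8 : (i : ZMod l) = (j : ZMod l) := sub_eq_zero.1 h7
            rw [ZMod.natCast_eq_natCast_iff] at h8
            rw [Nat.ModEq, Nat.mod_eq_of_lt hi, Nat.mod_eq_of_lt hj] at h8
            exact hji h8.symm
          have h7 := ZMod.pow_card_sub_one_eq_one h6
          have h8 := congrArg (ZMod.castHom (dvd_refl l) k) h7
          simpa using h8
        rw [h5, sub_self, mul_zero]
      · intro h; exact absurd (mem_range.2 hi) h
  obtain ⟨Φ, hΦ1, hΦ2⟩ := key φ h1
  obtain ⟨Ψ, hΨ1, hΨ2⟩ := key ψ h2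
  have hprod : Φ * Ψ = 1 := by
    by_contra hne
    have hne' : Φ * Ψ - 1 ≠ 0 := sub_ne_zero.2 hne
    have hdeg : (Φ * Ψ - 1).natDegree ≤ l - 1 := by
      refine (natDegree_sub_le _ _).trans (max_le ?_ ?_)
      · refine natDegree_mul_le.trans ?_
        omega
      · simp
    have hcard : ((range l).image (fun i : ℕ => (i : k))).card ≤ (Φ * Ψ - 1).natDegree := by
      have h3 : ((range l).image (fun i : ℕ => (i : k))) ⊆ (Φ * Ψ - 1).roots.toFinset := by
        intro z hz
        rw [mem_image] at hz
        obtain ⟨j, hj, rfl⟩ := hz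
        rw [mem_range] at hj
        rw [Multiset.mem_toFinset, mem_roots hne']
        simp [IsRoot, hΦ2 j hj, hΨ2 j hj, hφψ j hj]
      exact (card_le_card h3).trans ((Multiset.toFinset_card_le _).trans (card_roots' _))
    rw [card_image_of_injOn, card_range] at hcard
    · omega
    · intro a ha b hb hab
      rw [coe_range, Set.mem_Iio] at ha hb
      exact natCast_injOn l ha hb hab
  have hunit : IsUnit Φ := IsUnit.of_mul_eq_one _ hprod
  obtain ⟨c, _, hc⟩ := Polynomial.isUnit_iff.1 hunit
  rw [← hΦ2 i hi, ← hΦ2 0 (by omega), ← hc]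
  simp

end Zau
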