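import Pool.Agent.Lib_zau.CycN
import Pool.Agent.Lib_zau.CycSupp
import Pool.Agent.Lib_zau.CycF

/-!
MP_1c78a5_mp (Zauner), part (b).  File CycA: Theorem A (periodicity of valuations) and Theorem A'
(periodicity of residues) for groups with cyclic Sylow subgroup.
-/

namespace Zau

open Finset Polynomial

variable {K : Type*} [Field K] {Γ₀ : Type*} [LinearOrderedCommGroupWithZero Γ₀]
variable {G : Type*} [AddCommGroup G] [Fintype G] [DecidableEq G]

universe u in
theorem exists_res {K : Type u} [Field K] {Γ₀ : Type*} [LinearOrderedCommGroupWithZero Γ₀]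
    (v : Valuation K Γ₀) {l : ℕ} (hl : l.Prime) (hv : v (l : K) < 1) :
    ∃ (k : Type u) (_ : Field k) (_ : CharP k l) (res : v.integer →+* k),
      ∀ x, res x = 0 ↔ v (x : K) < 1 := by
  let A := v.valuationSubring
  let k := IsLocalRing.ResidueField A
  let res : v.integer →+* k := IsLocalRing.residue A
  have hres : ∀ x, res x = 0 ↔ v (x : K) < 1 := by
    intro x
    let y : A := ⟨x.1, x.2⟩
    have h1 : IsLocalRing.residue A y = 0 ↔ ¬ IsUnit y := by
      rw [IsLocalRing.residue_eq_zero_iff, IsLocalRing.mem_maximalIdeal, mem_nonunits_iff]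
    have h2 : IsUnit y ↔ v (x : K) = 1 :=
      (Valuation.integer.integers v).isUnit_iff_valuation_eq_one
    rw [h2] at h1
    exact h1.trans ⟨fun h => lt_of_le_of_ne x.2 h, fun h => h.ne⟩
  have h0 : (l : k) = 0 := by
    have h1 : res (l : v.integer) = 0 := (hres _).2 (by simpa using hv)
    rw [map_natCast] at h1
    exact h1
  have hch : CharP k l := by
    obtain ⟨q, hq⟩ := CharP.exists k
    have h1 : q ∣ l := (CharP.cast_eq_zero_iff k q l).1 h0
    rcases (Nat.dvd_prime hl).1 h1 with h2 | h2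
    · subst h2
      exact absurd (CharP.char_ne_one k 1 rfl) (by simp)
    · rw [← h2]
      exact hq
  exact ⟨k, inferInstance, hch, res, hres⟩

section
variable {l s m : ℕ} {g : G} {pr : G → G → K} {b : G → K} {κ : K}

omit [Fintype G] in
theorem val_aa (v : Valuation K Γ₀) (h0 : v (b 0) = 1) (w : G) : v (aa b w) = (v (b w))⁻¹ := by
  unfold aa
  split_ifs with h
  · rw [h, h0, inv_one]
  · rw [map_inv₀]

/-- `f_p(w) = a(w) b(w - p)` -/
def ff (b : G → K) (p w : G) : K := aa b w * b (w - p)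

omit [Fintype G] in
theorem val_ff (v : Valuation K Γ₀) (h0 : v (b 0) = 1) (p w : G) :
    v (ff b p w) = (v (b w))⁻¹ * v (b (w - p)) := by
  unfold ff
  rw [v.map_mul, val_aa v h0]

omit [Fintype G] in
theorem val_ff_neg (v : Valuation K Γ₀) (hb : ∀ w, b w ≠ 0) (h0 : v (b 0) = 1) (p w : G) :
    v (ff b p w) * v (ff b (-p) (w - p)) = 1 := by
  rw [val_ff v h0, val_ff v h0, sub_neg_eq_add, sub_add_cancel]
  have h1 : v (b w) ≠ 0 := (v.ne_zero_iff).2 (hb w)
  have h2 : v (b (w - p)) ≠ 0 := (v.ne_zero_iff).2 (hb _)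
  field_simp

/-- the two admissible translations -/
theorem CycSys.tc_of (S : CycSys l s m g pr b κ) {p : G} (hp : p = l ^ s • g ∨ p = -(l ^ s • g))
    (y : G) : ∑ w, pr w y * ff b p w = κ * b (-p) * b (-y) * aa b (-p - y) := by
  unfold ff
  rcases hp with rfl | rfl
  · rw [← S.tc y]
    exact Finset.sum_congr rfl fun w _ => by ring
  · rw [← S.tc' y]
    exact Finset.sum_congr rfl fun w _ => by ring

theorem CycSys.trans_bound (S : CycSys l s m g pr b κ) (v : Valuation K Γ₀) (h0 : v (b 0) = 1)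
    {p : G} (hp : p = l ^ s • g ∨ p = -(l ^ s • g)) {B : Γ₀} (hB : ∀ w, v (ff b (-p) w) ≤ B)
    (y : G) : v (∑ w, pr w y * ff b p w) ≤ v κ * v (b (-p)) * B := by
  rw [S.tc_of hp, v.map_mul, v.map_mul, v.map_mul, mul_assoc]
  refine mul_le_mul_right ?_ _
  have h1 := hB (-p - y)
  rw [val_ff v h0] at h1
  rw [val_aa v h0, mul_comm]
  have h2 : -p - y - -p = -y := by abel
  rwa [h2] at h1

/-- the polynomial of a coset -/
theorem CycSys.coset_poly (S : CycSys l s m g pr b κ) (v : Valuation K Γ₀) (hv : v (l : K) < 1)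
    {k : Type*} [Field k] [CharP k l] (res : v.integer →+* k)
    (hres : ∀ x, res x = 0 ↔ v (x : K) < 1)
    (f : G → K) (c : G) (hc : f c ≠ 0) (hmax : ∀ w, v (f w) ≤ v (f c)) {B : Γ₀}
    (hf : ∀ y, v (∑ w, pr w y * f w) ≤ B) {y0 : G} (hy0 : IsPrimitiveRoot (pr g y0) (l ^ (s + 1))) :
    ∃ (j : ℕ) (a : ℕ → v.integer), (∀ u, (a u : K) = f (c + u • g) / f c) ∧
      j < l ^ (s + 1) ∧ v (Dz (pr g y0) j) * v (f c) ≤ B ∧
      ∀ r < l ^ s, (X - 1 : k[X]) ^ (j / l ^ s) ∣
        ∑ i ∈ range l, C (res (a (r + l ^ s * i))) * X ^ i := by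
  haveI : Fact l.Prime := ⟨S.prime⟩
  have hvc : v (f c) ≠ 0 := (v.ne_zero_iff).2 hc
  have hvc0 : 0 < v (f c) := zero_lt_iff.2 hvc
  let a : ℕ → v.integer := fun u => ⟨f (c + u • g) / f c, by
    rw [Valuation.mem_integer_iff, map_div₀]
    exact (div_le_one₀ hvc0).2 (hmax _)⟩
  have ha : ∀ u, (a u : K) = f (c + u • g) / f c := fun u => rfl
  set N := l ^ (s + 1) with hNd
  have hNpos : 0 < N := pow_pos S.prime.pos _
  let F : (v.integer)[X] := ∑ u ∈ range N, C (a u) * X ^ u
  have hFc : ∀ u, F.coeff u = if u < N then a u else 0 := by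
    intro u
    simp only [F, finsetSum_coeff, coeff_C_mul, coeff_X_pow, mul_ite, mul_one, mul_zero]
    rw [Finset.sum_ite_eq (range N) u]
    simp [Finset.mem_range]
  have hFdeg : F.natDegree < N := by
    have h1 : F.natDegree ≤ N - 1 := by
      refine Polynomial.natDegree_sum_le_of_forall_le _ _ fun u hu => ?_
      refine (natDegree_C_mul_X_pow_le _ _).trans ?_
      have := Finset.mem_range.1 hu
      omega
    omega
  have hF0 : (F.map res).coeff 0 = 1 := by
    rw [coeff_map, hFc, if_pos hNpos]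
    have : a 0 = 1 := by
      apply Subtype.ext
      rw [ha, zero_smul, add_zero, div_self hc]
      rfl
    rw [this, map_one]
  have hFne : F.map res ≠ 0 := by
    intro h
    rw [h, coeff_zero] at hF0
    exact zero_ne_one hF0
  set j := (F.map res).rootMultiplicity 1 with hjd
  have hXC : (X - C 1 : k[X]) = X - 1 := by rw [C_1]
  have hdvd : (X - 1 : k[X]) ^ j ∣ F.map res := by
    rw [← hXC]
    exact pow_rootMultiplicity_dvd _ _
  have hmapdeg : (F.map res).natDegree < N := (natDegree_map_le).trans_lt hFdeg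
  have hjN : j < N := by
    have h1 := natDegree_le_of_dvd hdvd hFne
    rw [← hXC, natDegree_pow, natDegree_X_sub_C, mul_one] at h1
    omega
  refine ⟨j, a, ha, hjN, ?_, ?_⟩
  · obtain ⟨w, -, hw⟩ := lemmaN v S.prime hv hy0 res hres F hFne hFdeg
    have hNK : ((l ^ (s + 1) : ℕ) : K) ≠ 0 := by
      rw [← Dz_top hNpos hy0, ← v.ne_zero_iff]
      exact val_Dz_ne_zero v hy0 (by omega)
    have h1 := S.bound v hv f B hf c (w • y0) hNK
    have h2 : aeval (pr g y0 ^ w) F =
        (∑ u ∈ range N, pr g (w • y0) ^ u * f (c + u • g)) / f c := by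
      simp only [F, map_sum, map_mul, aeval_C, map_pow, aeval_X, Finset.sum_div]
      refine Finset.sum_congr rfl fun u _ => ?_
      rw [S.pr_nsmul']
      change (a u : K) * _ = _
      rw [ha]
      ring
    rw [h2, map_div₀] at hw
    calc v (Dz (pr g y0) j) * v (f c)
        ≤ v (∑ u ∈ range N, pr g (w • y0) ^ u * f (c + u • g)) / v (f c) * v (f c) :=
          mul_le_mul_left hw _
      _ = v (∑ u ∈ range N, pr g (w • y0) ^ u * f (c + u • g)) := div_mul_cancel₀ _ hvc
      _ ≤ B := h1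
  · intro r hr
    have h1 : (X - 1 : k[X]) ^ (l ^ s * (j / l ^ s)) ∣ F.map res :=
      (pow_dvd_pow _ (Nat.mul_div_le j (l ^ s))).trans hdvd
    have h2 := sect_dvd l hmapdeg h1 hr
    unfold sect at h2
    convert h2 using 1
    refine Finset.sum_congr rfl fun i hi => ?_
    have h3 : r + l ^ s * i < N := by
      have h4 := Finset.mem_range.1 hi
      rw [hNd, pow_succ]
      calc r + l ^ s * i < l ^ s + l ^ s * i := by omega
        _ = l ^ s * (i + 1) := by ring
        _ ≤ l ^ s * l := Nat.mul_le_mul_left _ h4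
    rw [coeff_map, hFc, if_pos h3]

/-- a periodic product may be shifted -/
theorem prod_shift {M : Type*} [CommMonoid M] (h : ℕ → M) (l : ℕ) (hp : h l = h 0) :
    ∏ i ∈ range l, h (i + 1) = ∏ i ∈ range l, h i := by
  rcases l with _ | l
  · simp
  · rw [Finset.prod_range_succ, Finset.prod_range_succ', hp]

/-- the product over a coset of `⟨t⟩` -/
theorem CycSys.prod_coset (S : CycSys l s m g pr b κ) (v : Valuation K Γ₀) (h0 : v (b 0) = 1)
    {p : G} (hp : p = l ^ s • g ∨ p = -(l ^ s • g)) (c : G) :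
    ∏ i ∈ range l, v (ff b p (c + i • (l ^ s • g))) = 1 := by
  set t := l ^ s • g with ht
  have hlt : l • t = 0 := by
    rw [ht, ← mul_smul, ← pow_succ', S.ord]
  have hne : ∀ w, v (b w) ≠ 0 := fun w => (v.ne_zero_iff).2 (S.b_ne w)
  have h1 : ∏ i ∈ range l, v (ff b p (c + i • t)) =
      (∏ i ∈ range l, v (b (c + i • t)))⁻¹ * ∏ i ∈ range l, v (b (c + i • t - p)) := by
    rw [← Finset.prod_inv_distrib, ← Finset.prod_mul_distrib]
    exact Finset.prod_congr rfl fun i _ => val_ff v h0 _ _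
  have h2 : ∏ i ∈ range l, v (b (c + i • t - p)) = ∏ i ∈ range l, v (b (c + i • t)) := by
    rcases hp with rfl | rfl
    · have := prod_shift (fun i => v (b (c + i • t - t))) l (by rw [hlt, zero_smul])
      rw [← this]
      refine Finset.prod_congr rfl fun i _ => ?_
      congr 2
      rw [succ_nsmul]
      abel
    · have := prod_shift (fun i => v (b (c + i • t))) l (by rw [hlt, zero_smul])
      rw [← this]
      refine Finset.prod_congr rfl fun i _ => ?_
      congr 2
      rw [succ_nsmul]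
      abel
  rw [h1, h2]
  exact inv_mul_cancel₀ (Finset.prod_ne_zero_iff.2 fun i _ => hne _)

/-- one sided information -/
theorem CycSys.one_side (S : CycSys l s m g pr b κ) (v : Valuation K Γ₀) (hv : v (l : K) < 1)
    (h0 : v (b 0) = 1) {p : G} (hp : p = l ^ s • g ∨ p = -(l ^ s • g)) {w0 w1 : G}
    (hw0 : ∀ w, v (ff b p w) ≤ v (ff b p w0)) (hw1 : ∀ w, v (ff b (-p) w) ≤ v (ff b (-p) w1))
    {y0 : G} (hy0 : IsPrimitiveRoot (pr g y0) (l ^ (s + 1))) :
    ∃ j < l ^ (s + 1),
      v (Dz (pr g y0) j) * v (ff b p w0) ≤ v κ * v (b (-p)) * v (ff b (-p) w1) ∧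
      1 ≤ v (ff b p w0) ∧
      v (ff b p w0) ^ (j / l ^ s + 1) ≤ v (ff b (-p) w1) ^ (l - 1 - j / l ^ s) := by
  haveI : Fact l.Prime := ⟨S.prime⟩
  obtain ⟨k, hk, hch, res, hres⟩ := exists_res v S.prime hv
  have hffne : ∀ q w, v (ff b q w) ≠ 0 := by
    intro q w
    rw [val_ff v h0]
    exact mul_ne_zero (inv_ne_zero ((v.ne_zero_iff).2 (S.b_ne w))) ((v.ne_zero_iff).2 (S.b_ne _))
  have hffne' : ff b p w0 ≠ 0 := (v.ne_zero_iff).1 (hffne p w0)
  obtain ⟨j, a, ha, hj, hD, hsec⟩ := S.coset_poly v hv res hres (ff b p) w0 hffne' hw0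
    (S.trans_bound v h0 hp hw1) hy0
  set t := l ^ s • g with ht
  set A := v (ff b p w0) with hA
  set B := v (ff b (-p) w1) with hB
  have hA0 : A ≠ 0 := hffne _ _
  have hB0 : B ≠ 0 := hffne _ _
  have hprod := S.prod_coset v h0 hp w0
  rw [← ht] at hprod
  have hlpos : 0 < l := S.prime.pos
  have hA1 : 1 ≤ A := by
    by_contra hlt
    push Not at hlt
    have h1 : ∏ i ∈ range l, v (ff b p (w0 + i • t)) ≤ ∏ i ∈ range l, A :=
      Finset.prod_le_prod' fun i _ => hw0 _
    rw [hprod, Finset.prod_const, Finset.card_range] at h1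
    exact absurd h1 (not_le.2 (pow_lt_one₀ zero_le hlt hlpos.ne'))
  have hBlow : ∀ w, B⁻¹ ≤ v (ff b p w) := by
    intro w
    have h1 := val_ff_neg v S.b_ne h0 p w
    have h2 : v (ff b p w) = (v (ff b (-p) (w - p)))⁻¹ := eq_inv_of_mul_eq_one_left h1
    rw [h2]
    exact inv_anti₀ (zero_lt_iff.2 (hffne _ _)) (hw1 _)
  have hB1 : 1 ≤ B := by
    by_contra hlt
    push Not at hlt
    have h1 : ∏ i ∈ range l, B⁻¹ ≤ ∏ i ∈ range l, v (ff b p (w0 + i • t)) :=
      Finset.prod_le_prod' fun i _ => hBlow _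
    rw [hprod, Finset.prod_const, Finset.card_range] at h1
    have h2 : 1 < B⁻¹ := (one_lt_inv₀ (zero_lt_iff.2 hB0)).2 hlt
    exact absurd h1 (not_le.2 (one_lt_pow₀ h2 hlpos.ne'))
  -- the points of the coset where the maximum is attained
  let T : Finset ℕ := (range l).filter fun i => v (ff b p (w0 + i • t)) = A
  have hTcard : j / l ^ s + 1 ≤ T.card := by
    have h1 := hsec 0 (pow_pos S.prime.pos _)
    set P : k[X] := ∑ i ∈ range l, C (res (a (0 + l ^ s * i))) * X ^ i with hP
    have hPc : ∀ i, P.coeff i = if i < l then res (a (0 + l ^ s * i)) else 0 := by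
      intro i
      simp only [hP, finsetSum_coeff, coeff_C_mul, coeff_X_pow, mul_ite, mul_one, mul_zero]
      rw [Finset.sum_ite_eq (range l) i]
      simp [Finset.mem_range]
    have hP0 : P ≠ 0 := by
      intro h
      have h2 := hPc 0
      rw [h, coeff_zero, if_pos hlpos] at h2
      have h3 : a (0 + l ^ s * 0) = 1 := by
        apply Subtype.ext
        rw [ha, mul_zero, add_zero, zero_smul, add_zero, div_self hffne']
        rfl
      rw [h3, map_one] at h2
      exact zero_ne_one h2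
    have hPdeg : P.natDegree < l := by
      have h1 : P.natDegree ≤ l - 1 := by
        refine Polynomial.natDegree_sum_le_of_forall_le _ _ fun u hu => ?_
        refine (natDegree_C_mul_X_pow_le _ _).trans ?_
        have := Finset.mem_range.1 hu
        omega
      omega
    refine (card_support_of_dvd l hP0 hPdeg h1).trans (Finset.card_le_card ?_)
    intro i hi
    rw [mem_support_iff, hPc] at hi
    split_ifs at hi with hil
    · refine Finset.mem_filter.2 ⟨Finset.mem_range.2 hil, ?_⟩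
      have h2 : ¬ v (a (0 + l ^ s * i) : K) < 1 := fun h => hi ((hres _).2 h)
      rw [ha, map_div₀, zero_add] at h2
      have h3 : (l ^ s * i) • g = i • t := by
        rw [ht, ← mul_smul, mul_comm]
      rw [h3] at h2
      refine le_antisymm (hw0 _) ?_
      by_contra h4
      push Not at h4
      exact h2 ((div_lt_one₀ (zero_lt_iff.2 hA0)).2 h4)
    · exact absurd rfl hi
  have hTle : T.card ≤ l := by
    refine (Finset.card_filter_le _ _).trans ?_
    rw [Finset.card_range]
  have hmain : A ^ T.card ≤ B ^ (l - T.card) := by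
    have h1 : (∏ i ∈ range l, v (ff b p (w0 + i • t))) =
        (∏ i ∈ T, v (ff b p (w0 + i • t))) *
          ∏ i ∈ (range l).filter (fun i => ¬ v (ff b p (w0 + i • t)) = A),
            v (ff b p (w0 + i • t)) :=
      (Finset.prod_filter_mul_prod_filter_not _ _ _).symm
    have h2 : (∏ i ∈ T, v (ff b p (w0 + i • t))) = A ^ T.card := by
      rw [Finset.prod_congr rfl fun i hi => (Finset.mem_filter.1 hi).2, Finset.prod_const]
    have h3 : ((range l).filter (fun i => ¬ v (ff b p (w0 + i • t)) = A)).card = l - T.card := by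
      have := Finset.card_filter_add_card_filter_not (s := range l)
        (fun i => v (ff b p (w0 + i • t)) = A)
      rw [Finset.card_range] at this
      have h4 : ((range l).filter (fun i => v (ff b p (w0 + i • t)) = A)).card = T.card := rfl
      omega
    have h4 : B⁻¹ ^ (l - T.card) ≤
        ∏ i ∈ (range l).filter (fun i => ¬ v (ff b p (w0 + i • t)) = A),
            v (ff b p (w0 + i • t)) := by
      rw [← h3, ← Finset.prod_const]
      exact Finset.prod_le_prod' fun i _ => hBlow _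
    rw [h1, h2] at hprod
    have h5 : A ^ T.card * B⁻¹ ^ (l - T.card) ≤ 1 := by
      rw [← hprod]
      exact mul_le_mul_right h4 _
    rw [inv_pow] at h5
    have h6 : B ^ (l - T.card) ≠ 0 := pow_ne_zero _ hB0
    have h7 := mul_le_mul_left h5 (B ^ (l - T.card))
    rwa [mul_assoc, inv_mul_cancel₀ h6, mul_one, one_mul] at h7
  refine ⟨j, hj, hD, hA1, ?_⟩
  calc A ^ (j / l ^ s + 1) ≤ A ^ T.card := pow_le_pow_right₀ hA1 hTcard
    _ ≤ B ^ (l - T.card) := hmain
    _ ≤ B ^ (l - 1 - j / l ^ s) := pow_le_pow_right₀ hB1 (by omega)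

/-- THEOREM A. -/
theorem thmA (S : CycSys l s m g pr b κ) (v : Valuation K Γ₀) (hv : v (l : K) < 1)
    (h0 : v (b 0) = 1) (hodd : ∀ w, v (b w) * v (b (-w)) = 1) (w : G) :
    v (b (w + l ^ s • g)) = v (b w) := by
  set t := l ^ s • g with ht
  obtain ⟨y0, hy0⟩ := S.exists_root
  obtain ⟨w0, hw0⟩ := Finite.exists_max fun w => v (ff b t w)
  obtain ⟨w1, hw1⟩ := Finite.exists_max fun w => v (ff b (-t) w)
  obtain ⟨j, hj, hD, hA1, hA⟩ := S.one_side v hv h0 (p := t) (Or.inl rfl) hw0 hw1 hy0
  obtain ⟨j', hj', hD', hB1, hB⟩ := S.one_side v hv h0 (p := -t) (w0 := w1) (w1 := w0)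
    (Or.inr rfl) hw1 (by rw [neg_neg]; exact hw0) hy0
  rw [neg_neg] at hD' hB
  set A := v (ff b t w0) with hAd
  set B := v (ff b (-t) w1) with hBd
  set N := l ^ (s + 1) with hN
  set q := l ^ s with hq
  set ζ := pr g y0 with hζ
  have hNpos : 0 < N := pow_pos S.prime.pos _
  have hqpos : 0 < q := pow_pos S.prime.pos _
  have hNq : N = q * l := by rw [hN, pow_succ]
  have hlpos := S.prime.pos
  have hA0 : A ≠ 0 := (lt_of_lt_of_le zero_lt_one hA1).ne'
  have hB0 : B ≠ 0 := (lt_of_lt_of_le zero_lt_one hB1).ne'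
  -- the product of the two bounds
  have hprod : v (Dz ζ j) * v (Dz ζ j') ≤ v (Dz ζ (N - 1)) := by
    have h1 : (v (Dz ζ j) * A) * (v (Dz ζ j') * B) ≤
        (v κ * v (b (-t)) * B) * (v κ * v (b t) * A) := mul_le_mul' hD hD'
    have h2 : v κ * v κ = v (Dz ζ (N - 1)) := by
      rw [Dz_top hNpos hy0, ← v.map_mul, ← pow_two, S.kap, S.card]
      rw [Nat.cast_mul, v.map_mul, val_nat_of_coprime v hv S.cop, one_mul]
    have h3 : (v κ * v (b (-t)) * B) * (v κ * v (b t) * A) = v (Dz ζ (N - 1)) * (A * B) := by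
      rw [← h2]
      calc (v κ * v (b (-t)) * B) * (v κ * v (b t) * A)
          = v κ * v κ * (A * B) * (v (b t) * v (b (-t))) := by ac_rfl
        _ = v κ * v κ * (A * B) := by rw [hodd, mul_one]
    rw [h3] at h1
    have h4 : (v (Dz ζ j) * A) * (v (Dz ζ j') * B) = v (Dz ζ j) * v (Dz ζ j') * (A * B) := by
      ac_rfl
    rw [h4] at h1
    exact le_of_mul_le_mul_right h1 (zero_lt_iff.2 (mul_ne_zero hA0 hB0))
  have hjj : N - 1 ≤ j + j' := by
    by_contra hlt
    push Not at hlt
    have h1 : j < N - 1 - j' := by omega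
    have h2 := val_Dz_lt v S.prime hv hy0 h1 (by omega)
    have h3 := val_Dz_compl v hNpos hy0 (j := j') (by omega)
    have h4 : v (Dz ζ j') ≠ 0 := val_Dz_ne_zero v hy0 hj'
    have h5 : v (Dz ζ (N - 1)) < v (Dz ζ j) * v (Dz ζ j') := by
      rw [← h3, mul_comm (v (Dz ζ j))]
      exact mul_lt_mul_of_pos_left h2 (zero_lt_iff.2 h4)
    exact absurd hprod (not_le.2 h5)
  set e := j / q with he
  set e' := j' / q with he'
  have hel : e < l := by
    rw [he, Nat.div_lt_iff_lt_mul hqpos, mul_comm, ← hNq]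
    exact hj
  have hel' : e' < l := by
    rw [he', Nat.div_lt_iff_lt_mul hqpos, mul_comm, ← hNq]
    exact hj'
  have hee : l - 1 ≤ e + e' := by
    have h1 : j < q * (e + 1) := Nat.lt_mul_div_succ j hqpos
    have h2 : j' < q * (e' + 1) := Nat.lt_mul_div_succ j' hqpos
    by_contra hlt
    push Not at hlt
    have h3 : e + e' + 2 ≤ l := by omega
    have h4 : q * (e + e' + 2) ≤ q * l := Nat.mul_le_mul_left _ h3
    have h5 : q * (e + e' + 2) = q * (e + 1) + q * (e' + 1) := by ring
    omega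
  have hAle : A ≤ 1 := by
    by_contra hlt
    push Not at hlt
    have h1 : A ^ ((e + 1) * (e' + 1)) ≤ A ^ (e * e') := by
      calc A ^ ((e + 1) * (e' + 1)) = (A ^ (e + 1)) ^ (e' + 1) := pow_mul _ _ _
        _ ≤ (B ^ (l - 1 - e)) ^ (e' + 1) := pow_le_pow_left₀ zero_le hA _
        _ = (B ^ (e' + 1)) ^ (l - 1 - e) := by rw [← pow_mul, ← pow_mul, mul_comm]
        _ ≤ (A ^ (l - 1 - e')) ^ (l - 1 - e) := pow_le_pow_left₀ zero_le hB _
        _ = A ^ ((l - 1 - e') * (l - 1 - e)) := (pow_mul _ _ _).symm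
        _ ≤ A ^ (e * e') := by
          refine pow_le_pow_right₀ hA1 (Nat.mul_le_mul ?_ ?_) <;> omega
    have h2 : e * e' < (e + 1) * (e' + 1) := by nlinarith
    exact absurd h1 (not_le.2 (pow_lt_pow_right₀ hlt h2))
  have hAeq : A = 1 := le_antisymm hAle hA1
  have hBeq : B ≤ 1 := by
    by_contra hlt
    push Not at hlt
    rw [hAeq, one_pow] at hB
    exact absurd hB (not_le.2 (one_lt_pow₀ hlt (Nat.succ_ne_zero _)))
  have hbne : ∀ w, v (b w) ≠ 0 := fun w => (v.ne_zero_iff).2 (S.b_ne w)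
  have k1 : ∀ w, v (b (w - t)) ≤ v (b w) := by
    intro w
    have h1 := (hw0 w).trans hAle
    rw [val_ff v h0] at h1
    have h2 := mul_le_mul_right h1 (v (b w))
    rwa [← mul_assoc, mul_inv_cancel₀ (hbne w), one_mul, mul_one] at h2
  have k2 : ∀ w, v (b (w + t)) ≤ v (b w) := by
    intro w
    have h1 := (hw1 w).trans hBeq
    rw [val_ff v h0, sub_neg_eq_add] at h1
    have h2 := mul_le_mul_right h1 (v (b w))
    rwa [← mul_assoc, mul_inv_cancel₀ (hbne w), one_mul, mul_one] at h2
  refine le_antisymm (k2 w) ?_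
  have := k1 (w + t)
  rwa [add_sub_cancel_right] at this

/-! ### residues -/

theorem oneU_mul (v : Valuation K Γ₀) {x y : K} (hx : v (x - 1) < 1) (hy : v (y - 1) < 1) :
    v (x * y - 1) < 1 := by
  have hx1 : v x ≤ 1 := by
    have : x = (x - 1) + 1 := by ring
    rw [this]
    exact (v.map_add _ _).trans (max_le hx.le (by rw [v.map_one]))
  have h1 : x * y - 1 = x * (y - 1) + (x - 1) := by ring
  rw [h1]
  refine v.map_add_lt ?_ hx
  rw [v.map_mul]
  exact (mul_le_of_le_one_left' hx1).trans_lt hy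

theorem oneU_val (v : Valuation K Γ₀) {x : K} (hx : v (x - 1) < 1) : v x = 1 := by
  have h1 : v (x - 1) < v 1 := by rwa [v.map_one]
  have h2 := v.map_add_eq_of_lt_right h1
  rwa [sub_add_cancel, v.map_one] at h2

theorem oneU_inv (v : Valuation K Γ₀) {x : K} (hx : v (x - 1) < 1) : v (x⁻¹ - 1) < 1 := by
  have h1 : v x = 1 := oneU_val v hx
  have h0 : x ≠ 0 := by
    intro h
    rw [h, v.map_zero] at h1
    exact zero_ne_one h1
  have h2 : x⁻¹ - 1 = x⁻¹ * (1 - x) := by field_simp
  rw [h2, v.map_mul, map_inv₀, h1, inv_one, one_mul, v.map_sub_swap]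
  exact hx

omit [Fintype G] in
/-- `a(x) b(x)` -/
theorem oneU_aab (v : Valuation K Γ₀) (hb : ∀ w, b w ≠ 0) (h0 : v (b 0 ^ 2 - 1) < 1) (x : G) :
    v (aa b x * b x - 1) < 1 := by
  unfold aa
  split_ifs with h
  · rw [h, ← pow_two]
    exact h0
  · rw [inv_mul_cancel₀ (hb x), sub_self, v.map_zero]
    exact zero_lt_one

/-- the polynomial condition in the unit case -/
theorem CycSys.unit_side (S : CycSys l s m g pr b κ) (v : Valuation K Γ₀) (hv : v (l : K) < 1)
    (hl2 : l ≠ 2) (hu : ∀ w, v (b w) = 1)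
    {k : Type*} [Field k] [CharP k l] (res : v.integer →+* k)
    (hres : ∀ x, res x = 0 ↔ v (x : K) < 1)
    {p : G} (hp : p = l ^ s • g ∨ p = -(l ^ s • g)) (c : G) :
    ∃ a : ℕ → v.integer, (∀ i, (a i : K) = ff b p (c + i • (l ^ s • g)) / ff b p c) ∧
      (X - 1 : k[X]) ^ ((l - 1) / 2) ∣ ∑ i ∈ range l, C (res (a i)) * X ^ i := by
  haveI : Fact l.Prime := ⟨S.prime⟩
  have h0 : v (b 0) = 1 := hu 0
  have hff1 : ∀ q w, v (ff b q w) = 1 := by
    intro q w
    rw [val_ff v h0, hu, hu, inv_one, one_mul]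
  have hffne : ff b p c ≠ 0 := by
    rw [← v.ne_zero_iff, hff1]
    exact one_ne_zero
  obtain ⟨y0, hy0⟩ := S.exists_root
  obtain ⟨j, a, ha, hj, hD, hsec⟩ := S.coset_poly v hv res hres (ff b p) c hffne
    (fun w => by rw [hff1, hff1]) (S.trans_bound v h0 hp (B := 1) fun w => (hff1 _ _).le) hy0
  rw [hff1, hu, mul_one, mul_one, mul_one] at hD
  set N := l ^ (s + 1) with hN
  set q := l ^ s with hq
  set ζ := pr g y0 with hζ
  have hNpos : 0 < N := pow_pos S.prime.pos _
  have hqpos : 0 < q := pow_pos S.prime.pos _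
  have hNq : N = q * l := by rw [hN, pow_succ]
  have h2j : N - 1 ≤ 2 * j := by
    by_contra hlt
    push Not at hlt
    have h1 : j < N - 1 - j := by omega
    have h2 := val_Dz_lt v S.prime hv hy0 h1 (by omega)
    have h3 := val_Dz_compl v hNpos hy0 (j := j) (by omega)
    have h4 : v (Dz ζ j) ≠ 0 := val_Dz_ne_zero v hy0 hj
    have h5 : v κ * v κ = v (Dz ζ (N - 1)) := by
      rw [Dz_top hNpos hy0, ← v.map_mul, ← pow_two, S.kap, S.card]
      rw [Nat.cast_mul, v.map_mul, val_nat_of_coprime v hv S.cop, one_mul]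
    have h6 : v (Dz ζ (N - 1)) < v (Dz ζ j) * v (Dz ζ j) := by
      rw [← h3]
      exact mul_lt_mul_of_pos_left h2 (zero_lt_iff.2 h4)
    rw [← h5] at h6
    exact absurd (mul_le_mul' hD hD) (not_le.2 h6)
  have hodd : l % 2 = 1 := (S.prime.eq_two_or_odd).resolve_left hl2
  have he : (l - 1) / 2 ≤ j / q := by
    rw [Nat.le_div_iff_mul_le hqpos]
    have h1 : l = 2 * ((l - 1) / 2) + 1 := by
      have := S.prime.pos
      omega
    have h2 : N = 2 * ((l - 1) / 2 * q) + q := by
      rw [hNq]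
      nth_rewrite 1 [h1]
      ring
    omega
  refine ⟨fun i => a (q * i), fun i => ?_, ?_⟩
  · rw [ha, ← mul_smul, mul_comm q i]
  · have h1 := hsec 0 hqpos
    simp only [zero_add] at h1
    exact (pow_dvd_pow _ he).trans h1

/-- THEOREM A'. -/
theorem thmA' (S : CycSys l s m g pr b κ) (v : Valuation K Γ₀) (hv : v (l : K) < 1) (hl2 : l ≠ 2)
    (hu : ∀ w, v (b w) = 1) (h0 : v (b 0 ^ 2 - 1) < 1) (w : G) :
    v (b (w + l ^ s • g) - b w) < 1 := by
  haveI : Fact l.Prime := ⟨S.prime⟩
  obtain ⟨k, hk, hch, res, hres⟩ := exists_res v S.prime hv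
  set t := l ^ s • g with ht
  have hlt : l • t = 0 := by
    rw [ht, ← mul_smul, ← pow_succ', S.ord]
  have hres1 : ∀ x : v.integer, v ((x : K) - 1) < 1 → res x = 1 := by
    intro x hx
    have h1 : res (x - 1) = 0 := (hres _).2 (by simpa using hx)
    rw [map_sub, map_one] at h1
    exact sub_eq_zero.1 h1
  have hffne : ∀ q x, ff b q x ≠ 0 := by
    intro q x
    rw [← v.ne_zero_iff, val_ff v (hu 0), hu, hu, inv_one, one_mul]
    exact one_ne_zero
  -- the quotients of consecutive values are constant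
  have key : ∀ c, v (ff b (-t) (c + t) / ff b (-t) c - 1) < 1 := by
    intro c
    obtain ⟨a, ha, had⟩ := S.unit_side v hv hl2 hu res hres (p := -t) (Or.inr rfl) c
    obtain ⟨a', ha', had'⟩ := S.unit_side v hv hl2 hu res hres (p := t) (Or.inl rfl) (c + t)
    rw [← ht] at ha ha'
    have hφψ : ∀ i < l, res (a i) * res (a' i) = 1 := by
      intro i _
      rw [← map_mul]
      refine hres1 _ ?_
      push_cast
      rw [ha, ha']
      have hprod : ∀ x : G, ff b (-t) x * ff b t (x + t) =
          (aa b x * b x) * (aa b (x + t) * b (x + t)) := by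
        intro x
        unfold ff
        rw [sub_neg_eq_add, add_sub_cancel_right]
        ring
      have h1 : ff b (-t) (c + i • t) / ff b (-t) c * (ff b t (c + t + i • t) / ff b t (c + t)) =
          ((aa b (c + i • t) * b (c + i • t)) * (aa b (c + i • t + t) * b (c + i • t + t))) *
            ((aa b c * b c) * (aa b (c + t) * b (c + t)))⁻¹ := by
        rw [← hprod, ← hprod, add_right_comm c t (i • t)]
        field_simp
      rw [h1]
      exact oneU_mul v (oneU_mul v (oneU_aab v S.b_ne h0 _) (oneU_aab v S.b_ne h0 _))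
        (oneU_inv v (oneU_mul v (oneU_aab v S.b_ne h0 _) (oneU_aab v S.b_ne h0 _)))
    have hodd : l % 2 = 1 := (S.prime.eq_two_or_odd).resolve_left hl2
    have h2 := const_of_dvd l (e := (l - 1) / 2) (by omega) (by omega)
      (fun i => res (a i)) (fun i => res (a' i)) hφψ had had' S.prime.one_lt
    have h3 : a 0 = 1 := by
      apply Subtype.ext
      rw [ha, zero_smul, add_zero, div_self (hffne _ _)]
      rfl
    rw [h3, map_one] at h2
    have h4 : res (a 1 - 1) = 0 := by rw [map_sub, map_one, h2, sub_self]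
    have h5 := (hres _).1 h4
    push_cast at h5
    rw [ha, one_smul] at h5
    exact h5
  let β : G → k := fun x => res ⟨b x, (hu x).le⟩
  have hβ0 : ∀ x, β x ≠ 0 := by
    intro x h
    have h1 := (hres _).1 h
    change v (b x) < 1 at h1
    rw [hu] at h1
    exact lt_irrefl _ h1
  have hstep : ∀ c, β (c + t + t) * β c = β (c + t) * β (c + t) := by
    intro c
    have h1 : v (b (c + t + t) * b c - b (c + t) * b (c + t)) < 1 := by
      have e1 : ff b (-t) (c + t) / ff b (-t) c =
          ((aa b (c + t) * b (c + t)) * (aa b c * b c)⁻¹) *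
            (b (c + t + t) * b c / (b (c + t) * b (c + t))) := by
        unfold ff
        rw [sub_neg_eq_add, sub_neg_eq_add]
        have k1 := S.b_ne c
        have k2 := S.b_ne (c + t)
        have k3 : aa b c ≠ 0 := by
          intro h
          have := hffne (-t) c
          unfold ff at this
          rw [h, zero_mul] at this
          exact this rfl
        field_simp
      have h2 := key c
      rw [e1] at h2
      have h3 : v (((aa b (c + t) * b (c + t)) * (aa b c * b c)⁻¹) - 1) < 1 :=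
        oneU_mul v (oneU_aab v S.b_ne h0 _) (oneU_inv v (oneU_aab v S.b_ne h0 _))
      have h4 := oneU_mul v (oneU_inv v h3) h2
      have h5 : ((aa b (c + t) * b (c + t)) * (aa b c * b c)⁻¹) ≠ 0 := by
        rw [← v.ne_zero_iff, oneU_val v h3]
        exact one_ne_zero
      rw [← mul_assoc, inv_mul_cancel₀ h5, one_mul] at h4
      have k2 := S.b_ne (c + t)
      have e2 : b (c + t + t) * b c - b (c + t) * b (c + t) =
          (b (c + t) * b (c + t)) * (b (c + t + t) * b c / (b (c + t) * b (c + t)) - 1) := by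
        field_simp
      rw [e2, v.map_mul, v.map_mul, hu, one_mul, one_mul]
      exact h4
    have h2 : res (⟨b (c + t + t), (hu _).le⟩ * ⟨b c, (hu _).le⟩ -
        ⟨b (c + t), (hu _).le⟩ * ⟨b (c + t), (hu _).le⟩) = 0 := (hres _).2 h1
    rw [map_sub, map_mul, map_mul] at h2
    exact sub_eq_zero.1 h2
  -- geometric progression
  set ρ : k := β (w + t) / β w with hρ
  have hgeo : ∀ i : ℕ, β (w + (i + 1) • t) = ρ * β (w + i • t) := by
    intro i
    induction i with
    | zero =>
      rw [zero_add, one_smul, zero_smul, add_zero, hρ, div_mul_cancel₀ _ (hβ0 w)]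
    | succ i ih =>
      have h1 := hstep (w + i • t)
      have e1 : w + i • t + t = w + (i + 1) • t := by rw [succ_nsmul, add_assoc]
      have e2 : w + i • t + t + t = w + (i + 1 + 1) • t := by
        rw [succ_nsmul t (i + 1), succ_nsmul, add_assoc, add_assoc, add_assoc]
      rw [e2, e1] at h1
      have h2 : β (w + (i + 1 + 1) • t) * β (w + i • t) = (ρ * β (w + (i + 1) • t)) * β (w + i • t) := by
        rw [h1]
        nth_rewrite 1 [ih]
        ring
      exact mul_right_cancel₀ (hβ0 _) h2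
  have hpow : ∀ i : ℕ, β (w + i • t) = ρ ^ i * β w := by
    intro i
    induction i with
    | zero => rw [zero_smul, add_zero, pow_zero, one_mul]
    | succ i ih => rw [hgeo, ih, pow_succ]; ring
  have hρl : ρ ^ l = 1 := by
    have h1 := hpow l
    rw [hlt, add_zero] at h1
    have h2 : (ρ ^ l - 1) * β w = 0 := by rw [sub_mul, one_mul, ← h1, sub_self]
    exact sub_eq_zero.1 ((mul_eq_zero.1 h2).resolve_right (hβ0 w))
  have hρ1 : ρ = 1 := by
    have h1 : (ρ - 1) ^ l = 0 := by
      rw [sub_pow_char, one_pow, hρl, sub_self]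
    exact sub_eq_zero.1 (pow_eq_zero_iff S.prime.ne_zero |>.1 h1)
  have h1 : β (w + t) = β w := by
    have h2 := hpow 1
    rwa [one_smul, pow_one, hρ1, one_mul] at h2
  have h2 : res (⟨b (w + t), (hu _).le⟩ - ⟨b w, (hu _).le⟩) = 0 := by
    rw [map_sub]
    exact sub_eq_zero.2 h1
  exact (hres _).1 h2

end

end Zau
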