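import Pool.Agent.Lib_zau.CycRoot

/-!
MP_1c78a5_mp (Zauner), part (b).  File CycN: the divided difference lemma.
`res : v.integer → k` is the residue map, given abstractly.
-/

namespace Zau

open Finset Polynomial

variable {K : Type*} [Field K] {Γ₀ : Type*} [LinearOrderedCommGroupWithZero Γ₀]

/-- leading coefficient of the interpolation polynomial (divided difference).
Proof.  `Lagrange.interpolate` on `range (j+1)` with the nodes `x`; the coefficient of degree `j` of the basis
polynomial `∏_{i ≠ w} (X - x i)/(x w - x i)` is `∏_{i ≠ w} (x w - x i)⁻¹`. -/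
theorem coeff_eq_divdiff {j : ℕ} (x : ℕ → K) (hx : Set.InjOn x (range (j + 1)))
    (r : K[X]) (hr : r.natDegree ≤ j) :
    r.coeff j = ∑ w ∈ range (j + 1), r.eval (x w) * (∏ i ∈ (range (j + 1)).erase w, (x w - x i))⁻¹ := by
  have hd : r.degree < ((range (j + 1)).card : WithBot ℕ) := by
    rw [card_range]
    refine (degree_le_natDegree).trans_lt ?_
    exact_mod_cast Nat.lt_succ_of_le hr
  have h := Lagrange.coeff_eq_sum hx hd
  rw [card_range, Nat.add_sub_cancel] at h
  rw [h]
  exact sum_congr rfl fun w _ => by rw [div_eq_mul_inv]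

/-- LEMMA N.
Proof.  Let `Nd = ∏_{i ≤ j} (X - ζ^i)` (monic, over `v.integer`), `F = Nd * Q + r`, `natDegree r ≤ j` (`modByMonic`).
Mod the maximal ideal `Nd` becomes `(X-1)^(j+1)` (`res (ζ^i) = 1` by `val_one_sub`), and `F.map res = (X-1)^j * U`,
`U(1) ≠ 0`, so `r.map res = U(1) (X-1)^j`: `res (r.coeff j) ≠ 0`, i.e. `v (r.coeff j) = 1`.  `r(ζ^w) = F(ζ^w)` for `w ≤ j`;
by `coeff_eq_divdiff` some `w ≤ j` has `1 ≤ v (F(ζ^w)) * (v (D w) * v (D (j-w)))⁻¹` (`val_prod_nodes`, `v.map_sum_le`),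
and `v (D j) ≤ v (D w) v (D (j-w))`.  (`j < l^n` because `natDegree F < l^n`, so `ζ^0,..,ζ^j` are distinct.) -/
theorem lemmaN (v : Valuation K Γ₀) {l n : ℕ} (hl : l.Prime) (hv : v (l : K) < 1) {ζ : K}
    (hζ : IsPrimitiveRoot ζ (l ^ n)) {k : Type*} [Field k] (res : v.integer →+* k)
    (hres : ∀ x, res x = 0 ↔ v (x : K) < 1) (F : (v.integer)[X]) (hF : F.map res ≠ 0)
    (hdeg : F.natDegree < l ^ n) :
    ∃ w ≤ (F.map res).rootMultiplicity 1,
      v (Dz ζ ((F.map res).rootMultiplicity 1)) ≤ v (aeval (ζ ^ w) F) := by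
  classical
  obtain ⟨j, hj⟩ : ∃ j, j = (F.map res).rootMultiplicity 1 := ⟨_, rfl⟩
  rw [← hj]
  have hN : l ^ n ≠ 0 := pow_ne_zero _ hl.ne_zero
  have hv1 : v ζ = 1 := val_root v hN hζ.pow_eq_one
  -- the multiplicity is small
  have hjdvd : (X - C (1 : k)) ^ j ∣ F.map res := by
    rw [hj]
    exact pow_rootMultiplicity_dvd _ _
  have hjdeg : j ≤ (F.map res).natDegree := by
    have h1 := natDegree_le_of_dvd hjdvd hF
    rwa [natDegree_pow, natDegree_X_sub_C, mul_one] at h1
  have hjN : j < l ^ n := lt_of_le_of_lt (hjdeg.trans natDegree_map_le) hdeg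
  -- the nodes
  let z : v.integer := ⟨ζ, hv1.le⟩
  have hz : ∀ i, ((z ^ i : v.integer) : K) = ζ ^ i := fun i => rfl
  have hresz : ∀ i, i ≤ j → res (z ^ i) = 1 := by
    intro i hi
    rcases Nat.eq_zero_or_pos i with rfl | hi0
    · rw [pow_zero, map_one]
    have h1 : res (1 - z ^ i) = 0 := by
      rw [hres]
      exact (val_one_sub v hl hv hζ hi0 (by omega)).1
    rw [map_sub, map_one, sub_eq_zero] at h1
    exact h1.symm
  let Nd : (v.integer)[X] := ∏ i ∈ range (j + 1), (X - C (z ^ i))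
  have hNdm : Nd.Monic := monic_prod_of_monic _ _ fun i _ => monic_X_sub_C _
  have hNddeg : Nd.natDegree = j + 1 := by
    rw [natDegree_prod_of_monic _ _ fun i _ => monic_X_sub_C _,
      sum_congr rfl fun i _ => natDegree_X_sub_C _, sum_const, card_range, smul_eq_mul, mul_one]
  have hNdmap : Nd.map res = (X - C (1 : k)) ^ (j + 1) := by
    rw [Polynomial.map_prod]
    rw [← card_range (j + 1), ← prod_const, card_range]
    refine prod_congr rfl fun i hi => ?_
    rw [Polynomial.map_sub, map_X, map_C, hresz i (Nat.lt_succ_iff.1 (mem_range.1 hi))]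
  have hNd1 : Nd ≠ 1 := by
    intro h
    rw [h, natDegree_one] at hNddeg
    omega
  obtain ⟨r, hr⟩ : ∃ r, r = F %ₘ Nd := ⟨_, rfl⟩
  have hrdeg : r.natDegree ≤ j := by
    have h1 := natDegree_modByMonic_lt F hNdm hNd1
    rw [← hr, hNddeg] at h1
    omega
  -- the top coefficient is a unit
  have hrmap : r.map res + (X - C (1 : k)) ^ (j + 1) * ((F /ₘ Nd).map res) = F.map res := by
    rw [← hNdmap, ← Polynomial.map_mul, ← Polynomial.map_add, hr, modByMonic_add_div]
  have hcoef : res (r.coeff j) ≠ 0 := by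
    intro h0
    have h1 : (X - C (1 : k)) ^ j ∣ r.map res := by
      have h2 : (X - C (1 : k)) ^ j ∣ (X - C (1 : k)) ^ (j + 1) * ((F /ₘ Nd).map res) :=
        (pow_dvd_pow _ (Nat.le_succ j)).mul_right _
      rw [← hrmap] at hjdvd
      exact (dvd_add_left h2).1 hjdvd
    have h2 : (r.map res).degree < ((X - C (1 : k)) ^ j).degree := by
      rw [degree_pow, degree_X_sub_C, nsmul_eq_mul, mul_one]
      have h3 : (r.map res).natDegree ≤ j := natDegree_map_le.trans hrdeg
      rw [degree_lt_iff_coeff_zero]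
      intro m hm
      rcases Nat.eq_or_lt_of_le hm with h4 | h4
      · rw [coeff_map, ← h4]
        exact h0
      · exact coeff_eq_zero_of_natDegree_lt (lt_of_le_of_lt h3 h4)
    have h3 : r.map res = 0 := eq_zero_of_dvd_of_degree_lt h1 h2
    rw [h3, zero_add] at hrmap
    have h4 : (X - C (1 : k)) ^ (j + 1) ∣ F.map res := by
      rw [← hrmap]
      exact dvd_mul_right _ _
    have h5 := (le_rootMultiplicity_iff hF).2 h4
    rw [← hj] at h5
    omega
  have hcoef1 : v ((r.coeff j : v.integer) : K) = 1 := by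
    refine le_antisymm (r.coeff j).2 (not_lt.1 fun h => hcoef ((hres _).2 h))
  -- values at the nodes
  have hval : ∀ w, w ≤ j → aeval (ζ ^ w) r = aeval (ζ ^ w) F := by
    intro w hw
    rw [hr]
    apply aeval_modByMonic_eq_self_of_root
    rw [map_prod]
    apply prod_eq_zero (mem_range.2 (Nat.lt_succ_of_le hw))
    rw [map_sub, aeval_X, aeval_C]
    exact sub_self _
  have hinj : Set.InjOn (fun i => ζ ^ i) (range (j + 1)) := by
    intro a ha b hb hab
    rw [coe_range, Set.mem_Iio] at ha hb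
    exact hζ.pow_inj (by omega) (by omega) hab
  have hdd := coeff_eq_divdiff (fun i => ζ ^ i) hinj (r.map (algebraMap v.integer K))
    (natDegree_map_le.trans hrdeg)
  rw [coeff_map] at hdd
  have hne : ∀ i, i < l ^ n → v (Dz ζ i) ≠ 0 := fun i hi => val_Dz_ne_zero v hζ hi
  by_contra hcon
  push Not at hcon
  have hlt : v (∑ w ∈ range (j + 1), (r.map (algebraMap v.integer K)).eval (ζ ^ w) *
      (∏ i ∈ (range (j + 1)).erase w, (ζ ^ w - ζ ^ i))⁻¹) < 1 := by
    refine v.map_sum_lt one_ne_zero fun w hw => ?_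
    have hwj : w ≤ j := Nat.lt_succ_iff.1 (mem_range.1 hw)
    rw [eval_map_algebraMap, hval w hwj, map_mul, map_inv₀, map_prod,
      val_prod_nodes v (Nat.pos_of_ne_zero hN) hζ hwj]
    have h1 : v (Dz ζ j) ≤ v (Dz ζ w) * v (Dz ζ (j - w)) := by
      have h2 := val_Dz_add v hv1.le w (j - w)
      rwa [Nat.add_sub_cancel' hwj] at h2
    have h2 : v (aeval (ζ ^ w) F) < v (Dz ζ w) * v (Dz ζ (j - w)) := (hcon w hwj).trans_le h1
    have h3 : 0 < v (Dz ζ w) * v (Dz ζ (j - w)) := lt_of_le_of_lt zero_le h2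
    rw [← div_eq_mul_inv]
    exact (div_lt_one₀ h3).2 h2
  rw [← hdd] at hlt
  exact absurd hcoef1 hlt.ne

end Zau
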