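import Mathlib

/-!
MP_1c78a5_mp (Zauner), arithmetic route (zau_notes 42), part (b): groups with cyclic Sylow subgroup.
File CycRoot: valuations of `1 - ζ ^ d`, `ζ` a primitive root of unity of order `l ^ n`, `v l < 1`.
-/

namespace Zau

open Finset

variable {K : Type*} [Field K] {Γ₀ : Type*} [LinearOrderedCommGroupWithZero Γ₀]

/-- `D(k) = (1 - ζ)(1 - ζ ^ 2) ... (1 - ζ ^ k)` -/
def Dz (ζ : K) (k : ℕ) : K := ∏ d ∈ range k, (1 - ζ ^ (d + 1))

/-- a root of unity has value 1 -/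
theorem val_root (v : Valuation K Γ₀) {ζ : K} {N : ℕ} (hN : N ≠ 0) (hζ : ζ ^ N = 1) :
    v ζ = 1 := by
  have h : v ζ ^ N = 1 := by rw [← map_pow, hζ, map_one]
  exact (pow_eq_one_iff.1 h).resolve_right hN

/-- Proof.  `v (1 - ζ ^ d) ≤ 1` by `val_root`.  With `x = 1 - ζ ^ d`: `(1 - x) ^ (l ^ n) = 1`.  By `add_pow` (or
`sub_pow_char_pow_of_..` in the residue ring) `x ^ (l ^ n)` is `± 1 * (1 - x)^(l ^ n) ∓ 1` plus `l` times an integral
element, so `v x ^ (l ^ n) < 1`.  Positive because `ζ ^ d ≠ 1`. -/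
theorem val_one_sub (v : Valuation K Γ₀) {l n : ℕ} (hl : l.Prime) (hv : v (l : K) < 1) {ζ : K}
    (hζ : IsPrimitiveRoot ζ (l ^ n)) {d : ℕ} (h0 : 0 < d) (hd : d < l ^ n) :
    v (1 - ζ ^ d) < 1 ∧ v (1 - ζ ^ d) ≠ 0 := by
  have hN : l ^ n ≠ 0 := pow_ne_zero _ hl.ne_zero
  have hv1 : v ζ = 1 := val_root v hN hζ.pow_eq_one
  have hvd : v (ζ ^ d) = 1 := by rw [map_pow, hv1, one_pow]
  have hle : v (1 - ζ ^ d) ≤ 1 := by
    refine (v.map_sub _ _).trans ?_
    rw [hvd, map_one, max_self]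
  have hne : (1 - ζ ^ d : K) ≠ 0 := by
    rw [sub_ne_zero]
    exact (hζ.pow_ne_one_of_pos_of_lt h0.ne' hd).symm
  refine ⟨lt_of_le_of_ne hle fun h1 => ?_, (v.ne_zero_iff).2 hne⟩
  let x : v.integer := ⟨1 - ζ ^ d, hle⟩
  let y : v.integer := ⟨ζ ^ d, hvd.le⟩
  obtain ⟨r, hr⟩ := exists_add_pow_prime_pow_eq hl x y n
  have hxy : x + y = 1 := by
    apply Subtype.ext
    change (1 - ζ ^ d) + ζ ^ d = 1
    ring
  have hy : y ^ l ^ n = 1 := by
    apply Subtype.ext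
    change (ζ ^ d) ^ l ^ n = 1
    rw [← pow_mul, mul_comm, pow_mul, hζ.pow_eq_one, one_pow]
  rw [hxy, hy, one_pow] at hr
  have hx : x ^ l ^ n = -((l : v.integer) * (x * y * r)) := by linear_combination -hr
  have hx' : (1 - ζ ^ d) ^ l ^ n = -((l : K) * ((x * y * r : v.integer) : K)) := by
    have := congrArg (fun z : v.integer => (z : K)) hx
    push_cast at this
    exact this
  have h2 := congrArg v hx'
  rw [map_pow, h1, one_pow, Valuation.map_neg, map_mul] at h2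
  have h3 : v (l : K) * v ((x * y * r : v.integer) : K) < 1 := by
    calc v (l : K) * v ((x * y * r : v.integer) : K) ≤ v (l : K) * 1 :=
          mul_le_mul_right (x * y * r : v.integer).2 _
      _ < 1 := by rwa [mul_one]
  exact absurd h2 h3.ne'

/-- Proof.  Induction on `a + b`: there is an integral `g` with `D(a+b) = g D(a) D(b)`; step:
`1 - ζ^(a+b) = (1 - ζ^a) + ζ^a (1 - ζ^b)`, `D(a+b) = (1-ζ^a) D(a+b-1) + ζ^a (1-ζ^b) D(a+b-1)` and
`(1 - ζ^a) D(a-1) = D(a)`. -/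
theorem val_Dz_add (v : Valuation K Γ₀) {ζ : K} (hζ : v ζ ≤ 1) (a b : ℕ) :
    v (Dz ζ (a + b)) ≤ v (Dz ζ a) * v (Dz ζ b) := by
  have key : ∀ m a b : ℕ, a + b = m → v (Dz ζ (a + b)) ≤ v (Dz ζ a) * v (Dz ζ b) := by
    intro m
    induction m with
    | zero =>
      intro a b hab
      obtain ⟨rfl, rfl⟩ : a = 0 ∧ b = 0 := by omega
      simp [Dz]
    | succ m ih =>
      intro a b hab
      rcases Nat.eq_zero_or_pos a with rfl | ha
      · simp [Dz]
      rcases Nat.eq_zero_or_pos b with rfl | hb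
      · simp [Dz]
      obtain ⟨a', rfl⟩ : ∃ a', a = a' + 1 := ⟨a - 1, by omega⟩
      obtain ⟨b', rfl⟩ : ∃ b', b = b' + 1 := ⟨b - 1, by omega⟩
      have hs : ∀ k, Dz ζ (k + 1) = Dz ζ k * (1 - ζ ^ (k + 1)) := fun k => prod_range_succ _ _
      have e1 : a' + 1 + (b' + 1) = (a' + (b' + 1)) + 1 := by ring
      have e2 : Dz ζ (a' + 1 + (b' + 1)) = Dz ζ (a' + (b' + 1)) * (1 - ζ ^ (a' + 1)) +
          ζ ^ (a' + 1) * (Dz ζ (a' + 1 + b') * (1 - ζ ^ (b' + 1))) := by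
        rw [e1, hs, show a' + 1 + b' = a' + (b' + 1) by ring]
        ring
      rw [e2]
      refine (v.map_add _ _).trans (max_le ?_ ?_)
      · rw [map_mul, hs a', map_mul]
        calc v (Dz ζ (a' + (b' + 1))) * v (1 - ζ ^ (a' + 1)) ≤
            (v (Dz ζ a') * v (Dz ζ (b' + 1))) * v (1 - ζ ^ (a' + 1)) :=
              mul_le_mul_left (ih a' (b' + 1) (by omega)) _
          _ = v (Dz ζ a') * v (1 - ζ ^ (a' + 1)) * v (Dz ζ (b' + 1)) := mul_right_comm _ _ _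
      · rw [map_mul, map_mul, hs b', map_mul]
        have h1 : v (ζ ^ (a' + 1)) ≤ 1 := by
          rw [map_pow]
          exact pow_le_one' hζ _
        calc v (ζ ^ (a' + 1)) * (v (Dz ζ (a' + 1 + b')) * v (1 - ζ ^ (b' + 1))) ≤
            1 * (v (Dz ζ (a' + 1 + b')) * v (1 - ζ ^ (b' + 1))) := mul_le_mul_left h1 _
          _ = v (Dz ζ (a' + 1 + b')) * v (1 - ζ ^ (b' + 1)) := one_mul _
          _ ≤ (v (Dz ζ (a' + 1)) * v (Dz ζ b')) * v (1 - ζ ^ (b' + 1)) :=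
              mul_le_mul_left (ih (a' + 1) b' (by omega)) _
          _ = v (Dz ζ (a' + 1)) * (v (Dz ζ b') * v (1 - ζ ^ (b' + 1))) := mul_assoc _ _ _
  exact key _ a b rfl

/-- Proof.  `X ^ N - 1 = ∏ (X - ζ ^ i)`, divide by `X - 1`, put `X = 1`. -/
theorem Dz_top {N : ℕ} (hN : 0 < N) {ζ : K} (hζ : IsPrimitiveRoot ζ N) :
    Dz ζ (N - 1) = (N : K) := by
  obtain ⟨m, rfl⟩ : ∃ m, N = m + 1 := ⟨N - 1, by omega⟩
  have h := hζ.prod_one_sub_pow_eq_order
  simp only [Nat.add_sub_cancel]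
  unfold Dz
  rw [h]
  push_cast
  ring

/-- Proof.  `D(N-1) = D(j) * ∏_{d=j+1}^{N-1} (1 - ζ^d)`, `v (1 - ζ^d) = v (1 - ζ^(N-d))`, reflect. -/
theorem val_Dz_compl (v : Valuation K Γ₀) {N : ℕ} (hN : 0 < N) {ζ : K} (hζ : IsPrimitiveRoot ζ N)
    {j : ℕ} (hj : j ≤ N - 1) :
    v (Dz ζ j) * v (Dz ζ (N - 1 - j)) = v (Dz ζ (N - 1)) := by
  have hv1 : v ζ = 1 := val_root v hN.ne' hζ.pow_eq_one
  have e1 : Dz ζ (N - 1) = Dz ζ j * ∏ d ∈ range (N - 1 - j), (1 - ζ ^ (j + d + 1)) := by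
    unfold Dz
    rw [← prod_range_add, Nat.add_sub_cancel' hj]
  rw [e1, map_mul, map_prod]
  congr 1
  unfold Dz
  rw [map_prod, ← prod_range_reflect]
  refine prod_congr rfl fun d hd => ?_
  rw [mem_range] at hd
  have e2 : j + d + 1 + (N - 1 - j - 1 - d + 1) = N := by omega
  have e3 : ζ ^ (j + d + 1) * ζ ^ (N - 1 - j - 1 - d + 1) = 1 := by
    rw [← pow_add, e2, hζ.pow_eq_one]
  have e4 : 1 - ζ ^ (N - 1 - j - 1 - d + 1) =
      -(ζ ^ (N - 1 - j - 1 - d + 1) * (1 - ζ ^ (j + d + 1))) := by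
    linear_combination -e3
  rw [e4, Valuation.map_neg, map_mul, map_pow, hv1, one_pow, one_mul]

theorem val_Dz_ne_zero (v : Valuation K Γ₀) {N : ℕ} {ζ : K} (hζ : IsPrimitiveRoot ζ N)
    {j : ℕ} (hj : j < N) : v (Dz ζ j) ≠ 0 := by
  rw [v.ne_zero_iff]
  unfold Dz
  rw [prod_ne_zero_iff]
  intro d hd
  rw [mem_range] at hd
  rw [sub_ne_zero]
  exact (hζ.pow_ne_one_of_pos_of_lt (by omega) (by omega)).symm

/-- `v (D j)` is strictly decreasing for `j < l ^ n` (from `val_one_sub`). -/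
theorem val_Dz_lt (v : Valuation K Γ₀) {l n : ℕ} (hl : l.Prime) (hv : v (l : K) < 1) {ζ : K}
    (hζ : IsPrimitiveRoot ζ (l ^ n)) {i j : ℕ} (hij : i < j) (hj : j < l ^ n) :
    v (Dz ζ j) < v (Dz ζ i) := by
  have hs : ∀ k, Dz ζ (k + 1) = Dz ζ k * (1 - ζ ^ (k + 1)) := fun k => prod_range_succ _ _
  have step : ∀ k, k + 1 < l ^ n → v (Dz ζ (k + 1)) < v (Dz ζ k) := by
    intro k hk
    rw [hs, map_mul]
    have h1 := (val_one_sub v hl hv hζ (Nat.succ_pos k) hk).1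
    have h2 := val_Dz_ne_zero v hζ (show k < l ^ n by omega)
    calc v (Dz ζ k) * v (1 - ζ ^ (k + 1)) < v (Dz ζ k) * 1 :=
          (mul_lt_mul_iff_right₀ (zero_lt_iff.2 h2)).2 h1
      _ = v (Dz ζ k) := mul_one _
  induction j, hij using Nat.le_induction with
  | base => exact step i hj
  | succ k hk ih => exact (step k hj).trans (ih (by omega))

/-- Proof.  `v (ζ^w - ζ^i) = v (1 - ζ^|w-i|)`; split `range (j+1)` without `w` into `i < w` and `i > w`. -/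
theorem val_prod_nodes (v : Valuation K Γ₀) {N : ℕ} (hN : 0 < N) {ζ : K}
    (hζ : IsPrimitiveRoot ζ N) {j w : ℕ} (hw : w ≤ j) :
    ∏ i ∈ (range (j + 1)).erase w, v (ζ ^ w - ζ ^ i) = v (Dz ζ w) * v (Dz ζ (j - w)) := by
  have hv1 : v ζ = 1 := val_root v hN.ne' hζ.pow_eq_one
  have hp : ∀ k, v (ζ ^ k) = 1 := fun k => by rw [map_pow, hv1, one_pow]
  let f : ℕ → Γ₀ := fun i => if i = w then 1 else v (ζ ^ w - ζ ^ i)
  have e1 : ∏ i ∈ (range (j + 1)).erase w, v (ζ ^ w - ζ ^ i) = ∏ i ∈ range (j + 1), f i := by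
    rw [← mul_prod_erase (range (j + 1)) f (mem_range.2 (Nat.lt_succ_of_le hw))]
    have : f w = 1 := if_pos rfl
    rw [this, one_mul]
    refine prod_congr rfl fun i hi => ?_
    exact (if_neg (ne_of_mem_erase hi)).symm
  have e2 : j + 1 = w + (1 + (j - w)) := by omega
  rw [e1, e2, prod_range_add, prod_range_add]
  have e3 : ∏ x ∈ range 1, f (w + x) = 1 := by
    rw [prod_range_one]
    exact if_pos (add_zero w)
  rw [e3, one_mul]
  congr 1
  · unfold Dz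
    rw [map_prod, ← prod_range_reflect]
    refine prod_congr rfl fun i hi => ?_
    rw [mem_range] at hi
    have h1 : w - 1 - i ≠ w := by omega
    have h2 : w = (w - 1 - i) + (i + 1) := by omega
    change (if w - 1 - i = w then (1 : Γ₀) else v (ζ ^ w - ζ ^ (w - 1 - i))) = _
    rw [if_neg h1]
    have h3 : ζ ^ w - ζ ^ (w - 1 - i) = -(ζ ^ (w - 1 - i) * (1 - ζ ^ (i + 1))) := by
      have : ζ ^ w = ζ ^ (w - 1 - i) * ζ ^ (i + 1) := by rw [← pow_add, ← h2]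
      rw [this]
      ring
    rw [h3, Valuation.map_neg, map_mul, hp, one_mul]
  · unfold Dz
    rw [map_prod]
    refine prod_congr rfl fun i hi => ?_
    have h1 : w + (1 + i) ≠ w := by omega
    change (if w + (1 + i) = w then (1 : Γ₀) else v (ζ ^ w - ζ ^ (w + (1 + i)))) = _
    rw [if_neg h1]
    have h3 : ζ ^ w - ζ ^ (w + (1 + i)) = ζ ^ w * (1 - ζ ^ (i + 1)) := by
      rw [show w + (1 + i) = w + (i + 1) by ring, pow_add]
      ring
    rw [h3, map_mul, hp, one_mul]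

end Zau
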