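import Pool.Agent.Lib_MP_1c78a5_ghost.GUp

/-!
# The q-series `phi` for a badly approximable number

`phi β x = exp (- ∑_{k ≥ 1} e (k x) / (k (1 - e (k β))))` for `im x > 0`.
-/

open Complex MeasureTheory Set Filter Topology
open scoped Real ComplexConjugate

namespace Zau

open Ghost

/-- Badly approximable numbers. -/
def BA (β : ℝ) : Prop :=
  ∃ c : ℝ, 0 < c ∧ ∀ n : ℕ, 1 ≤ n → c / n ≤ ‖1 - e ((n : ℂ) * β)‖

/-- The terms of the series. -/
noncomputable def pht (β : ℝ) (x : ℂ) (n : ℕ) : ℂ :=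
  e (((n : ℂ) + 1) * x) / (((n : ℂ) + 1) * (1 - e (((n : ℂ) + 1) * β)))

/-- Minus the logarithm of `phi`. -/
noncomputable def lph (β : ℝ) (x : ℂ) : ℂ := ∑' n : ℕ, pht β x n

/-- The q-series. -/
noncomputable def phi (β : ℝ) (x : ℂ) : ℂ := Complex.exp (-(lph β x))

theorem e_add (x y : ℂ) : e (x + y) = e x * e y := LSER_e_add x y

theorem e_ne (x : ℂ) : e x ≠ 0 := Complex.exp_ne_zero _

theorem e_zero : e 0 = 1 := by
  unfold e
  simp

theorem e_neg (x : ℂ) : e (-x) = (e x)⁻¹ := by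
  have h := GUP_e_neg x
  exact eq_inv_of_mul_eq_one_left h

theorem e_int (k : ℤ) : e (k : ℂ) = 1 := by
  unfold e
  rw [show (2 : ℂ) * π * I * (k : ℂ) = (k : ℂ) * (2 * π * I) by ring]
  exact Complex.exp_int_mul_two_pi_mul_I k

theorem e_add_int (x : ℂ) (k : ℤ) : e (x + k) = e x := by
  rw [e_add, e_int, mul_one]

theorem e_nat_mul (n : ℕ) (x : ℂ) : e ((n : ℂ) * x) = e x ^ n := LSER_e_nat_mul n x

theorem norm_e (x : ℂ) : ‖e x‖ = Real.exp (-(2 * π * x.im)) := LSER_norm_e x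

theorem conj_e (x : ℂ) : conj (e x) = e (-(conj x)) := by
  unfold e
  rw [← Complex.exp_conj]
  congr 1
  simp only [map_mul, Complex.conj_I, Complex.conj_ofReal, map_ofNat]
  ring

/-- `e x = 1` iff `x` is an integer (real `x`). -/
theorem e_real_eq_one {x : ℝ} (h : e (x : ℂ) = 1) : ∃ k : ℤ, x = k := by
  unfold e at h
  rw [Complex.exp_eq_one_iff] at h
  obtain ⟨n, hn⟩ := h
  refine ⟨n, ?_⟩
  have h1 : (2 * π * I : ℂ) ≠ 0 := by
    simp [Real.pi_ne_zero]
  have h2 : (x : ℂ) = n := by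
    have h3 : (2 * π * I : ℂ) * x = (2 * π * I) * n := by rw [hn]; ring
    exact mul_left_cancel₀ h1 h3
  exact_mod_cast h2

theorem e_eq_one_iff {x : ℂ} : e x = 1 ↔ ∃ k : ℤ, x = k := by
  constructor
  · intro h
    unfold e at h
    rw [Complex.exp_eq_one_iff] at h
    obtain ⟨n, hn⟩ := h
    refine ⟨n, ?_⟩
    have h1 : (2 * π * I : ℂ) ≠ 0 := by
      simp [Real.pi_ne_zero]
    have h3 : (2 * π * I : ℂ) * x = (2 * π * I) * n := by rw [hn]; ring
    exact mul_left_cancel₀ h1 h3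
  · rintro ⟨k, rfl⟩
    exact e_int k

theorem one_sub_e_ne_of_im {x : ℂ} (hx : 0 < x.im) : 1 - e x ≠ 0 := by
  intro h
  have h1 : e x = 1 := by linear_combination -h
  obtain ⟨k, hk⟩ := e_eq_one_iff.mp h1
  rw [hk] at hx
  simp at hx

theorem norm_natSucc (n : ℕ) : ‖((n : ℂ) + 1)‖ = (n : ℝ) + 1 := by
  have hN : (0 : ℝ) < (n : ℝ) + 1 := by positivity
  have : ((n : ℂ) + 1) = (((n : ℝ) + 1 : ℝ) : ℂ) := by push_cast; rfl
  rw [this, Complex.norm_real, Real.norm_of_nonneg hN.le]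

theorem natSucc_ne (n : ℕ) : ((n : ℂ) + 1) ≠ 0 := by exact_mod_cast Nat.succ_ne_zero n

theorem im_natSucc_mul (n : ℕ) (x : ℂ) : (((n : ℂ) + 1) * x).im = ((n : ℝ) + 1) * x.im := by
  have : ((n : ℂ) + 1) * x = (((((n : ℝ) + 1) : ℝ)) : ℂ) * x := by push_cast; ring
  rw [this, Complex.im_ofReal_mul]

theorem BA.den_ne {β : ℝ} (h : BA β) (n : ℕ) : 1 - e (((n : ℂ) + 1) * β) ≠ 0 := by
  obtain ⟨c, hc, hd⟩ := h
  have h1 := hd (n + 1) (by omega)
  push_cast at h1
  exact (LSER_den_ne hc h1).2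

/-- Bound for the terms. -/
theorem pht_bound {β : ℝ} (h : BA β) : ∃ C : ℝ, 0 < C ∧ ∀ (x : ℂ) (n : ℕ),
    ‖pht β x n‖ ≤ C * Real.exp (-(2 * π * x.im * (n + 1))) := by
  obtain ⟨c, hc, hd⟩ := h
  refine ⟨1 / c, by positivity, ?_⟩
  intro x n
  have h1 := hd (n + 1) (by omega)
  push_cast at h1
  have hN : (0 : ℝ) < (n : ℝ) + 1 := by positivity
  unfold pht
  rw [norm_div, norm_mul, norm_natSucc, norm_e, im_natSucc_mul]
  have hden' : c ≤ ((n : ℝ) + 1) * ‖1 - e (((n : ℂ) + 1) * (β : ℂ))‖ := by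
    calc c = ((n : ℝ) + 1) * (c / ((n : ℝ) + 1)) := by field_simp
      _ ≤ _ := mul_le_mul_of_nonneg_left h1 hN.le
  rw [div_eq_mul_inv, mul_comm]
  apply mul_le_mul
  · rw [one_div]
    exact inv_anti₀ hc hden'
  · apply Real.exp_le_exp.mpr
    apply le_of_eq
    ring
  · positivity
  · positivity

theorem exp_eq_geo (y : ℝ) (n : ℕ) :
    Real.exp (-(2 * π * y * ((n : ℝ) + 1))) =
      Real.exp (-(2 * π * y)) * Real.exp (-(2 * π * y)) ^ n := by
  rw [← Real.exp_nat_mul, ← Real.exp_add]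
  congr 1
  ring

theorem q_lt_one {y : ℝ} (hy : 0 < y) : Real.exp (-(2 * π * y)) < 1 := by
  rw [Real.exp_lt_one_iff]
  have := Real.pi_pos
  have : 0 < 2 * π * y := by positivity
  linarith

theorem hasSum_geo {y : ℝ} (hy : 0 < y) (C : ℝ) :
    HasSum (fun n : ℕ => C * Real.exp (-(2 * π * y * ((n : ℝ) + 1))))
      (C * (Real.exp (-(2 * π * y)) * (1 - Real.exp (-(2 * π * y)))⁻¹)) := by
  simp_rw [exp_eq_geo]
  exact ((hasSum_geometric_of_lt_one (Real.exp_pos _).le (q_lt_one hy)).mul_left _).mul_left _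

theorem pht_summable {β : ℝ} (h : BA β) {x : ℂ} (hx : 0 < x.im) : Summable (pht β x) := by
  obtain ⟨C, hC, hb⟩ := pht_bound h
  exact Summable.of_norm_bounded (hasSum_geo hx C).summable (fun n => hb x n)

/-- The series tends to zero at `i ∞`, with an exponential bound. -/
theorem lph_bound {β : ℝ} (h : BA β) {t0 : ℝ} (ht : 0 < t0) :
    ∃ C : ℝ, 0 < C ∧ ∀ x : ℂ, t0 ≤ x.im → ‖lph β x‖ ≤ C * Real.exp (-(2 * π * x.im)) := by
  obtain ⟨C, hC, hb⟩ := pht_bound h
  have hq0 := q_lt_one ht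
  refine ⟨C * (1 - Real.exp (-(2 * π * t0)))⁻¹,
    mul_pos hC (inv_pos.mpr (by linarith)), ?_⟩
  intro x hx
  have hx0 : 0 < x.im := lt_of_lt_of_le ht hx
  have h1 := hasSum_geo hx0 C
  have h2 : ‖lph β x‖ ≤ _ := tsum_of_norm_bounded h1 (fun n => hb x n)
  refine h2.trans ?_
  have h3 : Real.exp (-(2 * π * x.im)) ≤ Real.exp (-(2 * π * t0)) := by
    apply Real.exp_le_exp.mpr
    apply neg_le_neg
    have := Real.pi_pos
    exact mul_le_mul_of_nonneg_left hx (by positivity)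
  have h4 : (1 - Real.exp (-(2 * π * x.im)))⁻¹ ≤ (1 - Real.exp (-(2 * π * t0)))⁻¹ :=
    inv_anti₀ (by linarith) (by linarith)
  calc _ = C * (1 - Real.exp (-(2 * π * x.im)))⁻¹ * Real.exp (-(2 * π * x.im)) := by ring
    _ ≤ _ := by
      apply mul_le_mul_of_nonneg_right _ (Real.exp_pos _).le
      exact mul_le_mul_of_nonneg_left h4 hC.le

theorem lph_differentiableAt {β : ℝ} (h : BA β) {x : ℂ} (hx : 0 < x.im) :
    DifferentiableAt ℂ (lph β) x := by
  obtain ⟨C, hC, hb⟩ := pht_bound h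
  have hy : 0 < x.im / 2 := by positivity
  have hopen : IsOpen {z : ℂ | x.im / 2 < z.im} := isOpen_lt continuous_const Complex.continuous_im
  have hd : DifferentiableOn ℂ (fun z : ℂ => ∑' n : ℕ, pht β z n) {z : ℂ | x.im / 2 < z.im} := by
    refine Complex.differentiableOn_tsum_of_summable_norm
      (u := fun n : ℕ => C * Real.exp (-(2 * π * (x.im / 2) * ((n : ℝ) + 1))))
      (hasSum_geo hy C).summable ?_ hopen ?_
    · intro n
      apply Differentiable.differentiableOn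
      unfold pht
      have he := LSER_e_differentiable
      have h1 : Differentiable ℂ (fun z : ℂ => e (((n : ℂ) + 1) * z)) :=
        he.comp (by fun_prop)
      exact h1.div_const _
    · intro n z hz
      have hz' : x.im / 2 < z.im := hz
      refine (hb z n).trans ?_
      apply mul_le_mul_of_nonneg_left _ hC.le
      apply Real.exp_le_exp.mpr
      apply neg_le_neg
      have := Real.pi_pos
      apply mul_le_mul_of_nonneg_right _ (by positivity)
      exact mul_le_mul_of_nonneg_left hz'.le (by positivity)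
  exact hd.differentiableAt (hopen.mem_nhds (by show x.im / 2 < x.im; linarith))

theorem phi_ne_zero (β : ℝ) (x : ℂ) : phi β x ≠ 0 := Complex.exp_ne_zero _

theorem phi_differentiableAt {β : ℝ} (h : BA β) {x : ℂ} (hx : 0 < x.im) :
    DifferentiableAt ℂ (phi β) x := by
  unfold phi
  exact (lph_differentiableAt h hx).neg.cexp

/-- `e ((n + 1) (x + k)) = e ((n + 1) x)`. -/
theorem e_natSucc_add_int (n : ℕ) (x : ℂ) (k : ℤ) :
    e (((n : ℂ) + 1) * (x + k)) = e (((n : ℂ) + 1) * x) := by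
  have h1 : ((n : ℂ) + 1) * (x + k) = ((n : ℂ) + 1) * x + (((n + 1 : ℕ) * k : ℤ) : ℂ) := by
    push_cast
    ring
  rw [h1, e_add_int]

theorem phi_add_int (β : ℝ) (x : ℂ) (k : ℤ) : phi β (x + k) = phi β x := by
  unfold phi lph
  congr 2
  apply tsum_congr
  intro n
  unfold pht
  rw [e_natSucc_add_int]

theorem phi_add_one (β : ℝ) (x : ℂ) : phi β (x + 1) = phi β x := by
  have := phi_add_int β x 1
  simpa using this

/-- Only `β` modulo one matters. -/
theorem phi_beta_add_int (β : ℝ) (k : ℤ) (x : ℂ) : phi (β + k) x = phi β x := by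
  unfold phi lph
  congr 2
  apply tsum_congr
  intro n
  unfold pht
  have h1 : (((β + k : ℝ)) : ℂ) = (β : ℂ) + (k : ℂ) := by push_cast; ring
  rw [h1, e_natSucc_add_int]

theorem BA.add_int {β : ℝ} (h : BA β) (k : ℤ) : BA (β + k) := by
  obtain ⟨c, hc, hd⟩ := h
  refine ⟨c, hc, fun n hn => ?_⟩
  have h1 : (n : ℂ) * ((β + k : ℝ) : ℂ) = (n : ℂ) * β + ((n * k : ℤ) : ℂ) := by
    push_cast
    ring
  rw [h1, e_add_int]
  exact hd n hn

theorem BA.neg {β : ℝ} (h : BA β) : BA (-β) := by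
  obtain ⟨c, hc, hd⟩ := h
  refine ⟨c, hc, fun n hn => ?_⟩
  have h2 := hd n hn
  have h1 : 1 - e ((n : ℂ) * ((-β : ℝ) : ℂ)) = conj (1 - e ((n : ℂ) * β)) := by
    rw [map_sub, map_one, conj_e]
    congr 2
    simp
  rw [h1, Complex.norm_conj]
  exact h2

theorem BA.irrational {β : ℝ} (h : BA β) : Irrational β := by
  obtain ⟨c, hc, hd⟩ := h
  rintro ⟨q, hq⟩
  have h1 := hd q.den q.den_pos
  have h2 : ((q.den : ℂ)) * (β : ℂ) = ((q.num : ℤ) : ℂ) := by
    rw [← hq]
    have h3 : (q : ℚ) * (q.den : ℚ) = q.num := Rat.mul_den_eq_num q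
    have h4 : ((q : ℝ)) * (q.den : ℝ) = q.num := by exact_mod_cast h3
    have h5 : (((q : ℝ) : ℂ)) * ((q.den : ℝ) : ℂ) = ((q.num : ℝ) : ℂ) := by
      rw [← Complex.ofReal_mul, h4]
    push_cast at h5 ⊢
    rw [mul_comm]
    exact h5
  rw [h2, e_int, sub_self, norm_zero] at h1
  have h3 : (0 : ℝ) < q.den := by exact_mod_cast q.den_pos
  have : 0 < c / (q.den : ℝ) := by positivity
  linarith

theorem BA.ne_zero {β : ℝ} (h : BA β) : β ≠ 0 := h.irrational.ne_zero

/-- `phi (- β) x = (phi β (x + β))⁻¹`. -/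
theorem phi_neg {β : ℝ} (h : BA β) (x : ℂ) : phi (-β) x = (phi β (x + β))⁻¹ := by
  unfold phi
  rw [← Complex.exp_neg, neg_neg]
  congr 1
  unfold lph
  rw [← tsum_neg]
  apply tsum_congr
  intro n
  unfold pht
  have h1 : e (((n : ℂ) + 1) * ((-β : ℝ) : ℂ)) = (e (((n : ℂ) + 1) * β))⁻¹ := by
    rw [← e_neg]
    congr 1
    push_cast
    ring
  have h2 : e (((n : ℂ) + 1) * (x + β)) = e (((n : ℂ) + 1) * x) * e (((n : ℂ) + 1) * β) := by
    rw [← e_add]
    congr 1
    ring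
  rw [h1, h2]
  have h3 := h.den_ne n
  have h4 := e_ne (((n : ℂ) + 1) * β)
  have h5 := natSucc_ne n
  generalize e (((n : ℂ) + 1) * β) = q at *
  generalize e (((n : ℂ) + 1) * x) = u at *
  generalize ((n : ℂ) + 1) = N at *
  have h6 : q - 1 ≠ 0 := by
    intro h0
    apply h3
    linear_combination -h0
  have h7 : 1 - q⁻¹ ≠ 0 := by
    intro h0
    apply h6
    have h8 : q * (1 - q⁻¹) = q * 0 := by rw [h0]
    rw [mul_sub, mul_inv_cancel₀ h4, mul_one, mul_zero] at h8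
    exact h8
  field_simp
  ring

/-- `conj (phi β x) = phi (- β) (- conj x)`. -/
theorem conj_phi (β : ℝ) (x : ℂ) : conj (phi β x) = phi (-β) (-(conj x)) := by
  unfold phi
  rw [← Complex.exp_conj, map_neg]
  congr 2
  unfold lph
  rw [Complex.conj_tsum]
  apply tsum_congr
  intro n
  unfold pht
  rw [map_div₀, map_mul, map_sub, map_one, conj_e, conj_e]
  have h1 : conj ((n : ℂ) + 1) = (n : ℂ) + 1 := by simp
  have h2 : -(conj (((n : ℂ) + 1) * x)) = ((n : ℂ) + 1) * -(conj x) := by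
    rw [map_mul, h1]
    ring
  have h3 : -(conj (((n : ℂ) + 1) * (β : ℂ))) = ((n : ℂ) + 1) * ((-β : ℝ) : ℂ) := by
    rw [map_mul, h1, Complex.conj_ofReal]
    push_cast
    ring
  rw [h1, h2, h3]

/-- `phi β x = (1 - e x) phi β (x + β)`. -/
theorem phi_step {β : ℝ} (h : BA β) {x : ℂ} (hx : 0 < x.im) :
    phi β x = (1 - e x) * phi β (x + β) := by
  have hz : ‖e x‖ < 1 := by
    rw [norm_e]
    exact q_lt_one hx
  have hs : Summable (pht β x) := pht_summable h hx
  have h1 : HasSum (pht β (x + β)) (lph β x + Complex.log (1 - e x)) := by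
    have h2 := hs.hasSum.add (LSER_hasSum_log hz)
    have h3 : (fun n => pht β x n + -(e x ^ (n + 1) / ((n : ℂ) + 1))) = pht β (x + β) := by
      funext n
      unfold pht
      have h4 : e (((n : ℂ) + 1) * (x + β)) = e x ^ (n + 1) * e (((n : ℂ) + 1) * β) := by
        rw [← e_nat_mul, ← e_add]
        congr 1
        push_cast
        ring
      have h5 : e (((n : ℂ) + 1) * x) = e x ^ (n + 1) := by
        rw [← e_nat_mul]
        congr 1
        push_cast
        ring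
      rw [h4, h5]
      have h6 := h.den_ne n
      have h7 := natSucc_ne n
      generalize e (((n : ℂ) + 1) * β) = w at *
      generalize e x ^ (n + 1) = u
      generalize ((n : ℂ) + 1) = N at *
      field_simp
      ring
    rw [h3] at h2
    exact h2
  have h4 : lph β (x + β) = lph β x + Complex.log (1 - e x) := h1.tsum_eq
  have h5 := one_sub_e_ne_of_im hx
  unfold phi
  rw [h4, neg_add, Complex.exp_add, Complex.exp_neg (Complex.log _), Complex.exp_log h5]
  field_simp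

/-- The relation to the series `Lf`. -/
theorem Lf_eq {P : Par} (h1 : BA (P.b ^ 2)) (h2 : BA (P.o ^ 2)) {x : ℂ} (hx : 0 < x.im) :
    Lf P x = lph (P.b ^ 2) (P.b * x) + lph (P.o ^ 2) (P.o * x) := by
  unfold Lf lph
  have hb : 0 < ((P.b : ℂ) * x).im := by
    rw [Complex.im_ofReal_mul]
    exact mul_pos P.hb hx
  have ho : 0 < ((P.o : ℂ) * x).im := by
    rw [Complex.im_ofReal_mul]
    exact mul_pos P.ho hx
  rw [← (pht_summable h1 hb).tsum_add (pht_summable h2 ho)]
  apply tsum_congr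
  intro n
  unfold Lt pht
  push_cast
  rw [mul_assoc, mul_assoc]

end Zau
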