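import Pool.Agent.Lib_zau.SFun
import Pool.Agent.Lib_zau.PhiA

/-!
# Piece D: the lens double sine function of level `N`

`Df N U om b x = ∏_{m < N} Sf om ((x + m om + rho_m) / N)` with `rho_m` in `{1, .., N}`,
`rho_m = b + m U` mod `N`.  If `A U = - 1` mod `N`:

* (D1) `Df (b + N) = Df b`;
* (D2) `Df b x = Df (b + 1) (x - 1) * (1 - e (x / (N om) + A b / N))`;
* (D3) `Df (b + U) (x + om) = Df b x * (1 - e ((x + b) / N))`;
* (D5) differentiable for `- 1 < re x`, not zero for `- 1 < re x < om`, tends to one at `+ i ∞`;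
* (D6) `Df b x * Df (U + 1 - b) (om - 1 - x)` is an exponential.
-/

open Complex MeasureTheory Set Filter Topology
open scoped Real ComplexConjugate

namespace Zau

open Ghost

/-- The representative of `b + m U` modulo `N` in `{1, .., N}`. -/
def rho (N : ℕ) (U b : ℤ) (m : ℕ) : ℤ := (b + m * U - 1) % (N : ℤ) + 1

section rho

variable {N : ℕ} {U b : ℤ} {m : ℕ}

theorem one_le_rho (hN : 0 < N) (U b : ℤ) (m : ℕ) : 1 ≤ rho N U b m := by
  have := Int.emod_nonneg (b + m * U - 1) (b := (N : ℤ)) (by omega)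
  unfold rho
  omega

theorem rho_le (hN : 0 < N) (U b : ℤ) (m : ℕ) : rho N U b m ≤ N := by
  have := Int.emod_lt_of_pos (b + m * U - 1) (b := (N : ℤ)) (by omega)
  unfold rho
  omega

theorem rho_dvd (N : ℕ) (U b : ℤ) (m : ℕ) : (N : ℤ) ∣ b + m * U - rho N U b m := by
  have h := Int.emod_add_mul_ediv (b + m * U - 1) (N : ℤ)
  unfold rho
  refine ⟨(b + m * U - 1) / N, ?_⟩
  linarith

theorem rho_unique {r : ℤ} (h1 : 1 ≤ r) (h2 : r ≤ N) (h3 : (N : ℤ) ∣ b + m * U - r) :
    rho N U b m = r := by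
  obtain ⟨k, hk⟩ := h3
  have h4 : b + m * U - 1 = (r - 1) + N * k := by linarith
  unfold rho
  rw [h4, Int.add_mul_emod_self_left, Int.emod_eq_of_lt (by omega) (by omega)]
  ring

theorem rho_congr {b' : ℤ} {m' : ℕ} (h : (N : ℤ) ∣ (b + m * U) - (b' + m' * U)) :
    rho N U b m = rho N U b' m' := by
  unfold rho
  have h1 : (N : ℤ) ∣ (b + m * U - 1) - (b' + m' * U - 1) := by
    have : (b + m * U - 1) - (b' + m' * U - 1) = (b + m * U) - (b' + m' * U) := by ring
    rw [this]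
    exact h
  rw [Int.emod_eq_emod_iff_emod_sub_eq_zero.2 (Int.emod_eq_zero_of_dvd h1)]

theorem rho_add_N (N : ℕ) (U b : ℤ) (m : ℕ) : rho N U (b + N) m = rho N U b m :=
  rho_congr ⟨1, by ring⟩

theorem rho_add_U (N : ℕ) (U b : ℤ) (m : ℕ) : rho N U (b + U) m = rho N U b (m + 1) :=
  rho_congr ⟨0, by push_cast; ring⟩

theorem rho_N (N : ℕ) (U b : ℤ) : rho N U b N = rho N U b 0 :=
  rho_congr ⟨U, by push_cast; ring⟩

theorem rho_succ (hN : 0 < N) (h : rho N U b m ≠ N) : rho N U (b + 1) m = rho N U b m + 1 := by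
  have h1 := rho_le hN U b m
  have h2 := one_le_rho hN U b m
  refine rho_unique (by omega) (by omega) ?_
  obtain ⟨k, hk⟩ := rho_dvd N U b m
  exact ⟨k, by linarith⟩

theorem rho_succ_N (hN : 0 < N) (h : rho N U b m = N) : rho N U (b + 1) m = 1 := by
  refine rho_unique (by omega) (by omega) ?_
  obtain ⟨k, hk⟩ := rho_dvd N U b m
  rw [h] at hk
  exact ⟨k + 1, by linarith⟩

theorem rho_reflect (hN : 0 < N) (hm : m < N) :
    rho N U (U + 1 - b) (N - 1 - m) = N + 1 - rho N U b m := by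
  have h1 := rho_le hN U b m
  have h2 := one_le_rho hN U b m
  refine rho_unique (by omega) (by omega) ?_
  obtain ⟨k, hk⟩ := rho_dvd N U b m
  have h3 : ((N - 1 - m : ℕ) : ℤ) = N - 1 - m := by omega
  rw [h3]
  refine ⟨U - 1 - k, ?_⟩
  linarith

theorem rho_eq_N_iff (hN : 0 < N) (U b : ℤ) (m : ℕ) : rho N U b m = N ↔ (N : ℤ) ∣ b + m * U := by
  constructor
  · intro h
    obtain ⟨k, hk⟩ := rho_dvd N U b m
    rw [h] at hk
    exact ⟨k + 1, by linarith⟩
  · rintro ⟨k, hk⟩
    exact rho_unique (by omega) le_rfl ⟨k - 1, by rw [hk]; ring⟩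

end rho

/-- The index of the factor which changes in (D2). -/
def m0 (N : ℕ) (A b : ℤ) : ℕ := ((A * b) % (N : ℤ)).toNat

theorem m0_lt {N : ℕ} (hN : 0 < N) (A b : ℤ) : m0 N A b < N := by
  have h1 := Int.emod_nonneg (A * b) (b := (N : ℤ)) (by omega)
  have h2 := Int.emod_lt_of_pos (A * b) (b := (N : ℤ)) (by omega)
  unfold m0
  omega

theorem m0_cast {N : ℕ} (hN : 0 < N) (A b : ℤ) : (m0 N A b : ℤ) = (A * b) % (N : ℤ) := by
  have h1 := Int.emod_nonneg (A * b) (b := (N : ℤ)) (by omega)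
  unfold m0
  omega

theorem m0_dvd {N : ℕ} (hN : 0 < N) (A b : ℤ) : (N : ℤ) ∣ A * b - m0 N A b := by
  rw [m0_cast hN]
  have h := Int.emod_add_mul_ediv (A * b) (N : ℤ)
  exact ⟨A * b / N, by linarith⟩

/-- The arguments of the factors. -/
noncomputable def zz (N : ℕ) (U : ℤ) (om : ℝ) (b : ℤ) (m : ℕ) (x : ℂ) : ℂ :=
  (x + m * om + rho N U b m) / N

/-- The lens double sine function. -/
noncomputable def Df (N : ℕ) (U : ℤ) (om : ℝ) (b : ℤ) (x : ℂ) : ℂ :=
  ∏ m ∈ Finset.range N, Sf om (zz N U om b m x)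

/-- The hypotheses on the parameters. -/
structure LP (N : ℕ) (A U : ℤ) (om : ℝ) : Prop where
  hN : 0 < N
  hAU : (N : ℤ) ∣ A * U + 1
  hom : IsU om

/-- The poles of `Df`. -/
def PoleD (N : ℕ) (U : ℤ) (om : ℝ) (b : ℤ) (x : ℂ) : Prop :=
  ∃ i j : ℕ, 1 ≤ i ∧ (N : ℤ) ∣ b + j * U - i ∧ x = -((i : ℂ) + (j : ℂ) * om)

section

variable {N : ℕ} {A U : ℤ} {om : ℝ}

theorem LP.m0_iff (h : LP N A U om) {b : ℤ} {m : ℕ} (hm : m < N) :
    (N : ℤ) ∣ b + m * U ↔ m = m0 N A b := by
  obtain ⟨B, hB⟩ := h.hAU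
  constructor
  · rintro ⟨k, hk⟩
    have h1 : A * b = m + N * (A * k - m * B) := by
      have h2 : A * b + m * (A * U + 1) - m = A * (N * k) := by rw [← hk]; ring
      rw [hB] at h2
      linarith
    have h3 : (m : ℤ) = m0 N A b := by
      rw [m0_cast h.hN, h1, Int.add_mul_emod_self_left, Int.emod_eq_of_lt (by omega) (by omega)]
    exact_mod_cast h3
  · intro hm'
    obtain ⟨k, hk⟩ := m0_dvd h.hN A b
    rw [hm']
    have h1 : (m0 N A b : ℤ) = A * b - N * k := by linarith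
    rw [h1]
    refine ⟨B * b - k * U, ?_⟩
    linear_combination b * hB

theorem zz_re (N : ℕ) (U : ℤ) (om : ℝ) (b : ℤ) (m : ℕ) (x : ℂ) :
    (zz N U om b m x).re = (x.re + m * om + rho N U b m) / N := by
  unfold zz
  have h1 : (N : ℂ) = ((N : ℝ) : ℂ) := by push_cast; rfl
  rw [h1, Complex.div_ofReal_re]
  congr 1
  simp

theorem zz_im (N : ℕ) (U : ℤ) (om : ℝ) (b : ℤ) (m : ℕ) (x : ℂ) :
    (zz N U om b m x).im = x.im / N := by
  unfold zz
  have h1 : (N : ℂ) = ((N : ℝ) : ℂ) := by push_cast; rfl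
  rw [h1, Complex.div_ofReal_im]
  congr 1
  simp

theorem LP.NC (h : LP N A U om) : (N : ℂ) ≠ 0 := by
  have := h.hN
  exact_mod_cast this.ne'

theorem LP.NR (h : LP N A U om) : (0 : ℝ) < N := by
  exact_mod_cast h.hN

/-- (D1). -/
theorem Df_add_N (N : ℕ) (U : ℤ) (om : ℝ) (b : ℤ) (x : ℂ) : Df N U om (b + N) x = Df N U om b x := by
  unfold Df zz
  refine Finset.prod_congr rfl fun m _ => ?_
  rw [rho_add_N]

theorem Df_congr {b b' : ℤ} (hb : (N : ℤ) ∣ b - b') (x : ℂ) : Df N U om b x = Df N U om b' x := by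
  unfold Df zz
  refine Finset.prod_congr rfl fun m _ => ?_
  rw [rho_congr (b := b) (b' := b') (m' := m)]
  have : b + m * U - (b' + m * U) = b - b' := by ring
  rw [this]
  exact hb

/-- The poles of the factors are the poles of `Df`. -/
theorem LP.pole_iff (h : LP N A U om) {b : ℤ} {x : ℂ} :
    (∃ m < N, PoleS om (zz N U om b m x)) ↔ PoleD N U om b x := by
  have hN := h.NC
  constructor
  · rintro ⟨m, hm, i, j, hij⟩
    have h1 := one_le_rho h.hN U b m
    obtain ⟨k, hk⟩ := rho_dvd N U b m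
    refine ⟨i * N + (rho N U b m).toNat, j * N + m, by omega, ⟨k + j * U - i, ?_⟩, ?_⟩
    · push_cast
      rw [Int.toNat_of_nonneg (by omega)]
      linarith
    · unfold zz at hij
      rw [div_eq_iff hN] at hij
      have h2 : (((rho N U b m).toNat : ℕ) : ℂ) = ((rho N U b m : ℤ) : ℂ) := by
        have : (((rho N U b m).toNat : ℕ) : ℤ) = rho N U b m := Int.toNat_of_nonneg (by omega)
        rw [← this]
        push_cast
        rfl
      push_cast
      rw [h2]
      linear_combination hij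
  · rintro ⟨i, j, hi, ⟨k, hk⟩, hx⟩
    have h1 : (j : ℤ) = j % N + N * (j / N) := by
      have := Int.emod_add_mul_ediv (j : ℤ) (N : ℤ)
      linarith
    have h2 : j % N < N := Nat.mod_lt _ h.hN
    have h3 := Nat.mod_add_div j N
    have hi3 := Nat.mod_add_div (i - 1) N
    have hi2 : (i - 1) % N < N := Nat.mod_lt _ h.hN
    have hr : rho N U b (j % N) = ((i - 1) % N : ℕ) + 1 := by
      refine rho_unique (by omega) (by omega) ?_
      refine ⟨k - (j / N : ℕ) * U + ((i - 1) / N : ℕ), ?_⟩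
      have e1 : ((j % N : ℕ) : ℤ) = j - N * ((j / N : ℕ) : ℤ) := by
        have : ((j % N : ℕ) : ℤ) + N * ((j / N : ℕ) : ℤ) = j := by exact_mod_cast h3
        linarith
      have e2 : (((i - 1) % N : ℕ) : ℤ) = (i : ℤ) - 1 - N * (((i - 1) / N : ℕ) : ℤ) := by
        have : (((i - 1) % N : ℕ) : ℤ) + N * (((i - 1) / N : ℕ) : ℤ) = ((i - 1 : ℕ) : ℤ) := by
          exact_mod_cast hi3
        have h4 : ((i - 1 : ℕ) : ℤ) = (i : ℤ) - 1 := by omega
        linarith
      rw [e1, e2]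
      linarith
    refine ⟨j % N, h2, (i - 1) / N, j / N, ?_⟩
    unfold zz
    rw [div_eq_iff hN, hr, hx]
    have e1 : ((j % N : ℕ) : ℂ) + N * ((j / N : ℕ) : ℂ) = j := by exact_mod_cast h3
    have e2 : (((i - 1) % N : ℕ) : ℂ) + N * (((i - 1) / N : ℕ) : ℂ) = (i : ℂ) - 1 := by
      have h5 : (((i - 1) % N : ℕ) : ℂ) + N * (((i - 1) / N : ℕ) : ℂ) = ((i - 1 : ℕ) : ℂ) := by
        exact_mod_cast hi3
      rw [h5, Nat.cast_sub hi]
      push_cast
      ring
    rw [Int.cast_add, Int.cast_natCast, Int.cast_one]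
    linear_combination om * e1 + e2

theorem LP.not_pole (h : LP N A U om) {b : ℤ} {x : ℂ} (hx : ¬ PoleD N U om b x) {m : ℕ}
    (hm : m < N) : ¬ PoleS om (zz N U om b m x) := fun hp => hx (h.pole_iff.1 ⟨m, hm, hp⟩)

theorem LP.not_poleD_of_re (h : LP N A U om) {b : ℤ} {x : ℂ} (hx : -1 < x.re) :
    ¬ PoleD N U om b x := by
  rintro ⟨i, j, hi, _, rfl⟩
  have h1 : (1 : ℝ) ≤ i := by exact_mod_cast hi
  have h2 : (0 : ℝ) ≤ j * om := mul_nonneg (Nat.cast_nonneg _) h.hom.pos.le
  simp at hx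
  linarith

theorem not_poleD_of_im {b : ℤ} {x : ℂ} (hx : x.im ≠ 0) : ¬ PoleD N U om b x := by
  rintro ⟨i, j, _, _, rfl⟩
  apply hx
  simp

/-- (D5) differentiable outside of the poles. -/
theorem LP.Df_differentiableAt (h : LP N A U om) {b : ℤ} {x : ℂ} (hx : ¬ PoleD N U om b x) :
    DifferentiableAt ℂ (Df N U om b) x := by
  unfold Df
  refine DifferentiableAt.fun_finsetProd fun m hm => ?_
  have hm' : m < N := Finset.mem_range.1 hm
  have h1 : DifferentiableAt ℂ (Sf om) (zz N U om b m x) :=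
    Sf_differentiableAt h.hom (h.not_pole hx hm')
  have h2 : DifferentiableAt ℂ (zz N U om b m) x := by
    unfold zz
    fun_prop
  exact DifferentiableAt.comp (f := zz N U om b m) x h1 h2

/-- The reflected factor. -/
theorem LP.zz_reflect (h : LP N A U om) {b : ℤ} {m : ℕ} (hm : m < N) (x : ℂ) :
    zz N U om (U + 1 - b) (N - 1 - m) (om - 1 - x) = 1 + om - zz N U om b m x := by
  have hN := h.NC
  unfold zz
  rw [rho_reflect h.hN hm]
  have h3 : ((N - 1 - m : ℕ) : ℂ) = N - 1 - m := by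
    rw [Nat.cast_sub (by omega), Nat.cast_sub h.hN]
    push_cast
    ring
  rw [h3]
  push_cast
  field_simp
  ring

theorem LP.not_pole_reflect (h : LP N A U om) {b : ℤ} {x : ℂ}
    (hx : ¬ PoleD N U om (U + 1 - b) (om - 1 - x)) {m : ℕ} (hm : m < N) :
    ¬ PoleS om (1 + om - zz N U om b m x) := by
  rw [← h.zz_reflect hm]
  exact h.not_pole hx (by have := h.hN; omega)

/-- (D5) no zeros outside of the reflected poles. -/
theorem LP.Df_ne_zero (h : LP N A U om) {b : ℤ} {x : ℂ} (hx : ¬ PoleD N U om b x)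
    (hx' : ¬ PoleD N U om (U + 1 - b) (om - 1 - x)) : Df N U om b x ≠ 0 := by
  unfold Df
  rw [Finset.prod_ne_zero_iff]
  intro m hm
  have hm' : m < N := Finset.mem_range.1 hm
  exact Sf_ne_zero h.hom (h.not_pole hx hm') (h.not_pole_reflect hx' hm')

theorem LP.Df_ne_zero_strip (h : LP N A U om) {b : ℤ} {x : ℂ} (h1 : -1 < x.re) (h2 : x.re < om) :
    Df N U om b x ≠ 0 := by
  apply h.Df_ne_zero (h.not_poleD_of_re h1)
  apply h.not_poleD_of_re
  simp
  linarith

theorem LP.Df_ne_zero_im (h : LP N A U om) {b : ℤ} {x : ℂ} (h1 : x.im ≠ 0) :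
    Df N U om b x ≠ 0 := by
  apply h.Df_ne_zero (not_poleD_of_im h1)
  apply not_poleD_of_im
  simpa using h1

/-- (D2). -/
theorem LP.Df_step_one (h : LP N A U om) {b : ℤ} {x : ℂ} (hx : ¬ PoleD N U om (b + 1) (x - 1)) :
    Df N U om b x = Df N U om (b + 1) (x - 1) * (1 - e (x / (N * om) + A * b / N)) := by
  have hN := h.NC
  have hm0 := m0_lt h.hN A b
  have hmem : m0 N A b ∈ Finset.range N := Finset.mem_range.2 hm0
  have hrho : rho N U b (m0 N A b) = N := by
    rw [rho_eq_N_iff h.hN, h.m0_iff hm0]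
  unfold Df
  rw [← Finset.mul_prod_erase _ _ hmem, ← Finset.mul_prod_erase _ _ hmem]
  have h1 : ∏ m ∈ (Finset.range N).erase (m0 N A b), Sf om (zz N U om (b + 1) m (x - 1)) =
      ∏ m ∈ (Finset.range N).erase (m0 N A b), Sf om (zz N U om b m x) := by
    refine Finset.prod_congr rfl fun m hm => ?_
    rw [Finset.mem_erase, Finset.mem_range] at hm
    have h2 : rho N U b m ≠ N := by
      rw [Ne, rho_eq_N_iff h.hN, h.m0_iff hm.2]
      exact hm.1
    congr 1
    unfold zz
    rw [rho_succ h.hN h2]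
    push_cast
    ring
  have h3 : zz N U om b (m0 N A b) x = zz N U om (b + 1) (m0 N A b) (x - 1) + 1 := by
    unfold zz
    rw [rho_succ_N h.hN hrho, hrho]
    push_cast
    field_simp
    ring
  have h4 : e (zz N U om (b + 1) (m0 N A b) (x - 1) / om) = e (x / (N * om) + A * b / N) := by
    obtain ⟨k, hk⟩ := m0_dvd h.hN A b
    have h5 : (x / (N * om) + A * b / N : ℂ) =
        zz N U om (b + 1) (m0 N A b) (x - 1) / om + ((k : ℤ) : ℂ) := by
      have h6 : (A : ℂ) * b = m0 N A b + N * k := by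
        have : (A : ℤ) * b = m0 N A b + N * k := by linarith
        exact_mod_cast this
      have hom := h.hom.neC
      unfold zz
      rw [rho_succ_N h.hN hrho, h6]
      field_simp
      push_cast
      ring
    rw [h5, e_add_int]
  rw [h1, h3, Sf_add_one h.hom (h.not_pole hx hm0), h4]
  ring

/-- (D3). -/
theorem LP.Df_step_om (h : LP N A U om) {b : ℤ} {x : ℂ} (hx : ¬ PoleD N U om b x) :
    Df N U om (b + U) (x + om) = Df N U om b x * (1 - e ((x + b) / N)) := by
  have hN := h.NC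
  obtain ⟨M, hM⟩ : ∃ M : ℕ, N = M + 1 := ⟨N - 1, by have := h.hN; omega⟩
  have h1 : ∀ m : ℕ, zz N U om (b + U) m (x + om) = zz N U om b (m + 1) x := by
    intro m
    unfold zz
    rw [rho_add_U]
    push_cast
    ring
  have h2 : zz N U om b N x = zz N U om b 0 x + om := by
    unfold zz
    rw [rho_N]
    push_cast
    field_simp
    ring
  have h3 : e (zz N U om b 0 x) = e ((x + b) / N) := by
    obtain ⟨k, hk⟩ := rho_dvd N U b 0
    have h4 : ((x + b) / N : ℂ) = zz N U om b 0 x + ((k : ℤ) : ℂ) := by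
      have h5 : (b : ℂ) = rho N U b 0 + N * k := by
        have : (b : ℤ) = rho N U b 0 + N * k := by
          push_cast at hk
          linarith
        exact_mod_cast this
      unfold zz
      rw [h5]
      push_cast
      field_simp
      ring
    rw [h4, e_add_int]
  have h4 : ∏ m ∈ Finset.range N, Sf om (zz N U om b (m + 1) x) =
      (∏ m ∈ Finset.range M, Sf om (zz N U om b (m + 1) x)) * Sf om (zz N U om b N x) := by
    have : Finset.range N = Finset.range (M + 1) := by rw [hM]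
    rw [this, Finset.prod_range_succ, ← hM]
  have h5 : ∏ m ∈ Finset.range N, Sf om (zz N U om b m x) =
      (∏ m ∈ Finset.range M, Sf om (zz N U om b (m + 1) x)) * Sf om (zz N U om b 0 x) := by
    have : Finset.range N = Finset.range (M + 1) := by rw [hM]
    rw [this, Finset.prod_range_succ']
  unfold Df
  simp only [h1]
  rw [h4, h5, h2, Sf_add_om h.hom (h.not_pole hx h.hN), h3]
  ring

end

end Zau
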