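import Mathlib

/-!
# Zauner, density part A: Euler products over arbitrary index sets

`Zf x = ∑ f, ∏ x i ^ f i`, the sum over all finitely supported exponents, in `ENNReal`.
-/

open Finset

namespace Pool.Agent.Zau

variable {ι κ : Type*}

/-- the sum of all monomials in the `x i` -/
noncomputable def Zf (x : ι → ENNReal) : ENNReal := ∑' f : ι →₀ ℕ, f.prod fun i n => x i ^ n

theorem Zf_mono {x y : ι → ENNReal} (h : ∀ i, x i ≤ y i) : Zf x ≤ Zf y :=
  ENNReal.tsum_le_tsum fun _ => Finset.prod_le_prod' fun i _ => pow_le_pow_left' (h i) _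

theorem Zf_comp_le (y : κ → ENNReal) {g : ι → κ} (hg : Function.Injective g) :
    Zf (fun i => y (g i)) ≤ Zf y := by
  unfold Zf
  have h1 : ∀ f : ι →₀ ℕ, (f.prod fun i n => y (g i) ^ n) =
      (f.mapDomain g).prod fun j n => y j ^ n := by
    intro f
    rw [Finsupp.prod_mapDomain_index_inj hg]
  simp_rw [h1]
  exact ENNReal.tsum_comp_le_tsum_of_injective (Finsupp.mapDomain_injective hg)
    (fun f : κ →₀ ℕ => f.prod fun j n => y j ^ n)

theorem Zf_sum (x : ι → ENNReal) (y : κ → ENNReal) : Zf (Sum.elim x y) = Zf x * Zf y := by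
  unfold Zf
  rw [← ENNReal.tsum_mul_right]
  simp_rw [← ENNReal.tsum_mul_left]
  rw [← ENNReal.tsum_prod]
  rw [← Finsupp.sumFinsuppEquivProdFinsupp.symm.tsum_eq]
  refine tsum_congr fun fg => ?_
  exact Finsupp.prod_sumElim fg.1 fg.2 (fun i n => Sum.elim x y i ^ n)

/-- splitting of the index set -/
theorem Zf_split (x : ι → ENNReal) (S : Set ι) :
    Zf x ≤ Zf (fun i : S => x i) * Zf (fun i : (Sᶜ : Set ι) => x i) := by
  classical
  rw [← Zf_sum]
  have h1 : x = fun i => (Sum.elim (fun i : S => x i) (fun i : (Sᶜ : Set ι) => x i))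
      ((Equiv.Set.sumCompl S).symm i) := by
    funext i
    obtain ⟨j, rfl⟩ := (Equiv.Set.sumCompl S).surjective i
    rw [Equiv.symm_apply_apply]
    rcases j with j | j <;> rfl
  conv_lhs => rw [h1]
  exact Zf_comp_le _ (Equiv.Set.sumCompl S).symm.injective

/-- the product bound: if `∑ x i ≤ C` and `x i ≤ 1 / 2` then `Zf x ≤ exp (2 C)` -/
theorem Zf_le_exp {u : ι → ℝ} (h0 : ∀ i, 0 ≤ u i) (h1 : ∀ i, u i ≤ 1 / 2) {C : ℝ}
    (hC : ∀ s : Finset ι, ∑ i ∈ s, u i ≤ C) :
    Zf (fun i => ENNReal.ofReal (u i)) ≤ ENNReal.ofReal (Real.exp (2 * C)) := by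
  classical
  unfold Zf
  rw [ENNReal.tsum_eq_iSup_sum]
  refine iSup_le fun T => ?_
  -- a finite set of exponents is contained in a box
  set F : Finset ι := T.biUnion Finsupp.support with hF
  obtain ⟨M, hM⟩ : ∃ M : ℕ, ∀ f ∈ T, ∀ i, f i < M := by
    refine ⟨(T.sup fun f => F.sup fun i => f i) + 1, fun f hf i => ?_⟩
    by_cases hi : i ∈ F
    · have h2 : f i ≤ F.sup fun i => f i := Finset.le_sup (f := fun i => f i) hi
      have h3 : (F.sup fun i => f i) ≤ T.sup fun f => F.sup fun i => f i :=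
        Finset.le_sup (f := fun f : ι →₀ ℕ => F.sup fun i => f i) hf
      omega
    · have h2 : f i = 0 := by
        by_contra h3
        exact hi (Finset.mem_biUnion.mpr ⟨f, hf, Finsupp.mem_support_iff.mpr h3⟩)
      omega
  have h2 : ∀ f ∈ T, (f.prod fun i n => ENNReal.ofReal (u i) ^ n) =
      ENNReal.ofReal (∏ i ∈ F, u i ^ f i) := by
    intro f hf
    rw [ENNReal.ofReal_prod_of_nonneg fun i _ => pow_nonneg (h0 i) _]
    rw [Finsupp.prod_of_support_subset f (s := F)
      (fun i hi => Finset.mem_biUnion.mpr ⟨f, hf, hi⟩) _ (fun i _ => pow_zero _)]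
    exact Finset.prod_congr rfl fun i _ => (ENNReal.ofReal_pow (h0 i) _).symm
  rw [Finset.sum_congr rfl h2, ← ENNReal.ofReal_sum_of_nonneg
    fun f _ => Finset.prod_nonneg fun i _ => pow_nonneg (h0 i) _]
  refine ENNReal.ofReal_le_ofReal ?_
  have h3 : ∑ f ∈ T, ∏ i ∈ F, u i ^ f i ≤
      ∑ p ∈ F.pi fun _ => Finset.range M, ∏ i ∈ F.attach, u i.1 ^ p i.1 i.2 := by
    have h4 : ∀ f ∈ T, ∏ i ∈ F, u i ^ f i =
        ∏ i ∈ F.attach, u i.1 ^ ((fun (i : ι) (_ : i ∈ F) => f i) i.1 i.2) := by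
      intro f _
      rw [← Finset.prod_attach F (fun i => u i ^ f i)]
    rw [Finset.sum_congr rfl h4]
    rw [← Finset.sum_image (s := T) (g := fun f : ι →₀ ℕ => fun (i : ι) (_ : i ∈ F) => f i)
      (f := fun p => ∏ i ∈ F.attach, u i.1 ^ p i.1 i.2)]
    · refine Finset.sum_le_sum_of_subset_of_nonneg ?_ ?_
      · intro p hp
        obtain ⟨f, hf, rfl⟩ := Finset.mem_image.mp hp
        rw [Finset.mem_pi]
        exact fun i hi => Finset.mem_range.mpr (hM f hf i)
      · intro p _ _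
        exact Finset.prod_nonneg fun i _ => pow_nonneg (h0 _) _
    · intro f hf g hg hfg
      ext i
      by_cases hi : i ∈ F
      · exact congrFun (congrFun hfg i) hi
      · have h5 : ∀ f ∈ T, f i = 0 := by
          intro f hf
          by_contra h3
          exact hi (Finset.mem_biUnion.mpr ⟨f, hf, Finsupp.mem_support_iff.mpr h3⟩)
        rw [h5 f hf, h5 g hg]
  refine h3.trans ?_
  have h5 := Finset.prod_sum F (fun _ => Finset.range M) (fun i n => u i ^ n)
  rw [← h5]
  have h6 : ∀ i ∈ F, ∑ n ∈ Finset.range M, u i ^ n ≤ Real.exp (2 * u i) := by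
    intro i _
    have h7 : ∑ n ∈ Finset.range M, u i ^ n ≤ (1 - u i)⁻¹ := by
      rw [← tsum_geometric_of_lt_one (h0 i) (by linarith [h1 i])]
      exact Summable.sum_le_tsum _ (fun n _ => pow_nonneg (h0 i) n)
        (summable_geometric_of_lt_one (h0 i) (by linarith [h1 i]))
    have h8 : (1 - u i)⁻¹ ≤ 1 + 2 * u i := by
      rw [inv_le_iff_one_le_mul₀ (by linarith [h1 i])]
      nlinarith [h0 i, h1 i]
    have h9 := Real.add_one_le_exp (2 * u i)
    linarith
  refine (Finset.prod_le_prod (fun i _ => Finset.sum_nonneg fun n _ => pow_nonneg (h0 i) n)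
    h6).trans ?_
  rw [← Real.exp_sum, ← Finset.mul_sum]
  exact Real.exp_le_exp.mpr (by linarith [hC F])

end Pool.Agent.Zau
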