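import Pool.Agent.Lib_zau.DensA

/-!
# Zauner, density part B: the Dedekind zeta function as an Euler product
-/

open NumberField IsDedekindDomain Filter Topology

namespace Pool.Agent.Zau

variable (K : Type*) [Field K] [NumberField K]

/-- the weight `N v ^ (-s)` of a prime -/
noncomputable def xw (s : ℝ) (v : HeightOneSpectrum (𝓞 K)) : ℝ :=
  (Ideal.absNorm v.asIdeal : ℝ) ^ (-s)

/-- the term of the zeta function for the norm `n` -/
noncomputable def phi (s : ℝ) (n : ℕ) : ℝ := if n = 0 then 0 else (n : ℝ) ^ (-s)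

/-- the zeta function in `ENNReal` -/
noncomputable def Dz (s : ℝ) : ENNReal :=
  ∑' I : Ideal (𝓞 K), ENNReal.ofReal (phi s (Ideal.absNorm I))

omit K in
theorem phi_nonneg (s : ℝ) (n : ℕ) : 0 ≤ phi s n := by
  unfold phi
  split_ifs
  · exact le_rfl
  · positivity

omit K in
theorem phi_mul (s : ℝ) (m n : ℕ) : phi s (m * n) = phi s m * phi s n := by
  unfold phi
  by_cases hm : m = 0
  · simp [hm]
  by_cases hn : n = 0
  · simp [hn]
  rw [if_neg (mul_ne_zero hm hn), if_neg hm, if_neg hn, Nat.cast_mul,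
    Real.mul_rpow (Nat.cast_nonneg m) (Nat.cast_nonneg n)]

omit K in
theorem phi_one (s : ℝ) : phi s 1 = 1 := by
  unfold phi
  simp

omit K in
theorem phi_pow (s : ℝ) (m k : ℕ) : phi s (m ^ k) = phi s m ^ k := by
  induction k with
  | zero => rw [pow_zero, pow_zero, phi_one]
  | succ k ih => rw [pow_succ, pow_succ, phi_mul, ih]

omit K in
theorem phi_prod {ι : Type*} (s : ℝ) (T : Finset ι) (f : ι → ℕ) :
    phi s (∏ i ∈ T, f i) = ∏ i ∈ T, phi s (f i) := by
  classical
  induction T using Finset.induction_on with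
  | empty => simp [phi_one]
  | insert a T ha ih => rw [Finset.prod_insert ha, Finset.prod_insert ha, phi_mul, ih]

theorem absNorm_ne_zero (v : HeightOneSpectrum (𝓞 K)) : Ideal.absNorm v.asIdeal ≠ 0 := by
  rw [Ne, Ideal.absNorm_eq_zero_iff]
  exact v.ne_bot

theorem xw_eq_phi (s : ℝ) (v : HeightOneSpectrum (𝓞 K)) :
    xw K s v = phi s (Ideal.absNorm v.asIdeal) := by
  unfold xw phi
  rw [if_neg (absNorm_ne_zero K v)]

theorem xw_nonneg (s : ℝ) (v : HeightOneSpectrum (𝓞 K)) : 0 ≤ xw K s v := by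
  rw [xw_eq_phi]
  exact phi_nonneg _ _

/-- the ideal with given exponents -/
noncomputable def idl (f : HeightOneSpectrum (𝓞 K) →₀ ℕ) : Ideal (𝓞 K) :=
  f.prod fun v n => v.asIdeal ^ n

omit [NumberField K] in
theorem idl_eq (f : HeightOneSpectrum (𝓞 K) →₀ ℕ) :
    idl K f = ((Finsupp.toMultiset f).map HeightOneSpectrum.asIdeal).prod := by
  classical
  unfold idl
  rw [Finsupp.toMultiset_map, Finsupp.prod_toMultiset]
  rw [Finsupp.prod_mapDomain_index (fun _ => pow_zero _) (fun _ _ _ => pow_add _ _ _)]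

omit [NumberField K] in
theorem asIdeal_inj : Function.Injective (HeightOneSpectrum.asIdeal (R := 𝓞 K)) := by
  intro v w h
  exact HeightOneSpectrum.ext h

theorem nf_idl (f : HeightOneSpectrum (𝓞 K) →₀ ℕ) :
    UniqueFactorizationMonoid.normalizedFactors (idl K f) =
      (Finsupp.toMultiset f).map HeightOneSpectrum.asIdeal := by
  rw [idl_eq]
  apply UniqueFactorizationMonoid.normalizedFactors_prod_of_prime
  intro p hp
  obtain ⟨v, -, rfl⟩ := Multiset.mem_map.mp hp
  exact v.prime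

theorem idl_injective : Function.Injective (idl K) := by
  intro f g h
  have h1 := congrArg UniqueFactorizationMonoid.normalizedFactors h
  rw [nf_idl, nf_idl] at h1
  have h2 := Multiset.map_injective (asIdeal_inj K) h1
  classical
  ext v
  have h3 := congrArg (Multiset.count v) h2
  rwa [Finsupp.count_toMultiset, Finsupp.count_toMultiset] at h3

theorem exists_idl {I : Ideal (𝓞 K)} (hI : I ≠ ⊥) : ∃ f, idl K f = I := by
  classical
  have h1 : ∀ p ∈ UniqueFactorizationMonoid.normalizedFactors I, ∃ v : HeightOneSpectrum (𝓞 K),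
      v.asIdeal = p := by
    intro p hp
    have h2 := UniqueFactorizationMonoid.prime_of_normalized_factor p hp
    exact ⟨⟨p, Ideal.isPrime_of_prime h2, h2.ne_zero⟩, rfl⟩
  obtain ⟨m, hm⟩ : ∃ m : Multiset (HeightOneSpectrum (𝓞 K)),
      m.map HeightOneSpectrum.asIdeal = UniqueFactorizationMonoid.normalizedFactors I := by
    have h3 : ∀ t : Multiset (Ideal (𝓞 K)), (∀ p ∈ t, ∃ v : HeightOneSpectrum (𝓞 K),
        v.asIdeal = p) → ∃ m : Multiset (HeightOneSpectrum (𝓞 K)),
          m.map HeightOneSpectrum.asIdeal = t := by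
      intro t
      induction t using Multiset.induction_on with
      | empty => exact fun _ => ⟨0, by simp⟩
      | cons a t ih =>
        intro h
        obtain ⟨m, hm⟩ := ih fun p hp => h p (Multiset.mem_cons_of_mem hp)
        obtain ⟨v, hv⟩ := h a (Multiset.mem_cons_self a t)
        exact ⟨v ::ₘ m, by rw [Multiset.map_cons, hm, hv]⟩
    exact h3 _ h1
  refine ⟨Multiset.toFinsupp m, ?_⟩
  rw [idl_eq, Multiset.toFinsupp_toMultiset, hm]
  exact Ideal.prod_normalizedFactors_eq_self hI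

theorem phi_idl (s : ℝ) (f : HeightOneSpectrum (𝓞 K) →₀ ℕ) :
    ENNReal.ofReal (phi s (Ideal.absNorm (idl K f))) =
      f.prod fun v n => ENNReal.ofReal (xw K s v) ^ n := by
  unfold idl Finsupp.prod
  rw [map_prod, phi_prod, ENNReal.ofReal_prod_of_nonneg fun i _ => phi_nonneg _ _]
  refine Finset.prod_congr rfl fun v _ => ?_
  simp only []
  rw [map_pow, phi_pow, ENNReal.ofReal_pow (phi_nonneg _ _), xw_eq_phi]

theorem Dz_eq_Zf (s : ℝ) : Dz K s = Zf (fun v => ENNReal.ofReal (xw K s v)) := by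
  unfold Dz Zf
  simp_rw [← phi_idl K s]
  refine ((idl_injective K).tsum_eq
    (f := fun I : Ideal (𝓞 K) => ENNReal.ofReal (phi s (Ideal.absNorm I))) ?_).symm
  intro I hI
  have h1 : I ≠ ⊥ := by
    rintro rfl
    apply hI
    simp [phi]
  obtain ⟨f, hf⟩ := exists_idl K h1
  exact ⟨f, hf⟩

/-- the real coefficients -/
noncomputable def cf (n : ℕ) : ℕ := Nat.card {I : Ideal (𝓞 K) // Ideal.absNorm I = n}

theorem Dz_eq_tsum (s : ℝ) : Dz K s = ∑' n : ℕ, ENNReal.ofReal (cf K n * phi s n) := by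
  unfold Dz
  rw [← (Equiv.sigmaFiberEquiv (fun I : Ideal (𝓞 K) => Ideal.absNorm I)).tsum_eq,
    ENNReal.tsum_sigma']
  refine tsum_congr fun n => ?_
  have hfin : Finite {I : Ideal (𝓞 K) // Ideal.absNorm I = n} :=
    (Ideal.finite_setOfPred_absNorm_eq (S := 𝓞 K) n).to_subtype
  have := Fintype.ofFinite {I : Ideal (𝓞 K) // Ideal.absNorm I = n}
  have h1 : ∀ I : {I : Ideal (𝓞 K) // Ideal.absNorm I = n},
      ENNReal.ofReal (phi s (Ideal.absNorm
        ((Equiv.sigmaFiberEquiv (fun I : Ideal (𝓞 K) => Ideal.absNorm I)) ⟨n, I⟩))) =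
      ENNReal.ofReal (phi s n) := by
    intro I
    have h2 : Ideal.absNorm
        ((Equiv.sigmaFiberEquiv (fun I : Ideal (𝓞 K) => Ideal.absNorm I)) ⟨n, I⟩) = n := I.2
    rw [h2]
  rw [tsum_congr h1, tsum_fintype, Finset.sum_const, Finset.card_univ, ← Nat.card_eq_fintype_card,
    nsmul_eq_mul, ENNReal.ofReal_mul (Nat.cast_nonneg _), ENNReal.ofReal_natCast]
  rfl

theorem dedekindZeta_eq (s : ℝ) :
    dedekindZeta K s = ((∑' n : ℕ, (cf K n * phi s n : ℝ) : ℝ) : ℂ) := by
  unfold dedekindZeta LSeries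
  rw [Complex.ofReal_tsum]
  refine tsum_congr fun n => ?_
  rw [LSeries.term_def]
  unfold phi cf
  split_ifs with h
  · simp
  · rw [Complex.ofReal_mul, Complex.ofReal_cpow (Nat.cast_nonneg n), Complex.ofReal_neg,
      Complex.cpow_neg, div_eq_mul_inv]
    simp

theorem tendsto_real : Tendsto (fun s : ℝ => (s - 1) * ∑' n : ℕ, (cf K n * phi s n : ℝ)) (𝓝[>] 1)
    (𝓝 (dedekindZeta_residue K)) := by
  have h1 := tendsto_sub_one_mul_dedekindZeta_nhdsGT K
  have h2 := (Complex.continuous_re.tendsto _).comp h1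
  refine (h2.congr fun s => ?_)
  simp only [Function.comp_apply]
  rw [dedekindZeta_eq]
  norm_cast

theorem eventually_summable :
    ∀ᶠ s : ℝ in 𝓝[>] 1, Summable fun n : ℕ => (cf K n * phi s n : ℝ) := by
  have h1 := (tendsto_real K).eventually_ne (dedekindZeta_residue_ne_zero K)
  filter_upwards [h1] with s hs
  by_contra h2
  apply hs
  rw [tsum_eq_zero_of_not_summable h2, mul_zero]

/-- `(s - 1) ζ_K(s)` tends to the residue, which is positive and finite. -/
theorem Dz_facts : ∃ c C : ℝ, 0 < c ∧ 0 < C ∧ ∀ᶠ s : ℝ in 𝓝[>] 1,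
    ENNReal.ofReal (c / (s - 1)) ≤ Dz K s ∧ Dz K s ≤ ENNReal.ofReal (C / (s - 1)) := by
  have hpos := dedekindZeta_residue_pos K
  refine ⟨dedekindZeta_residue K / 2, 2 * dedekindZeta_residue K, by positivity, by positivity, ?_⟩
  have h1 : ∀ᶠ s : ℝ in 𝓝[>] 1, dedekindZeta_residue K / 2 <
      (s - 1) * ∑' n : ℕ, (cf K n * phi s n : ℝ) :=
    (tendsto_real K).eventually_const_lt (by linarith)
  have h2 : ∀ᶠ s : ℝ in 𝓝[>] 1, (s - 1) * ∑' n : ℕ, (cf K n * phi s n : ℝ) <
      2 * dedekindZeta_residue K :=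
    (tendsto_real K).eventually_lt_const (by linarith)
  filter_upwards [h1, h2, eventually_summable K, self_mem_nhdsWithin] with s h1 h2 h3 h4
  have h5 : 0 < s - 1 := by
    have : (1 : ℝ) < s := h4
    linarith
  rw [Dz_eq_tsum, ← ENNReal.ofReal_tsum_of_nonneg
    (fun n => mul_nonneg (Nat.cast_nonneg _) (phi_nonneg _ _)) h3]
  constructor
  · refine ENNReal.ofReal_le_ofReal ?_
    rw [div_le_iff₀ h5]
    linarith
  · refine ENNReal.ofReal_le_ofReal ?_
    rw [le_div_iff₀ h5]
    linarith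

end Pool.Agent.Zau
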