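import Pool.Agent.Lib_zau.DensB

/-!
# Zauner, density part C: almost all primes of degree one cannot split
-/

open NumberField IsDedekindDomain Filter Topology

namespace Pool.Agent.Zau

section

variable {K : Type*} [Field K] [NumberField K]

theorem two_le_absNorm (v : HeightOneSpectrum (𝓞 K)) : 2 ≤ Ideal.absNorm v.asIdeal := by
  have h1 := absNorm_ne_zero K v
  have h2 : Ideal.absNorm v.asIdeal ≠ 1 := by
    rw [Ne, Ideal.absNorm_eq_one_iff]
    exact v.isPrime.ne_top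
  omega

/-- the rational prime below -/
theorem exists_char (v : HeightOneSpectrum (𝓞 K)) : ∃ p : ℕ, p.Prime ∧
    (p : 𝓞 K) ∈ v.asIdeal ∧ p ≤ Ideal.absNorm v.asIdeal ∧
    (¬ (Ideal.absNorm v.asIdeal).Prime → p ^ 2 ≤ Ideal.absNorm v.asIdeal) := by
  have hm : v.asIdeal.IsMaximal := v.isMaximal
  obtain ⟨p, k, hk, hmem, hp, h1⟩ := Ideal.exists_prime_and_absNorm_eq_pow v.asIdeal
  refine ⟨p, hp, hmem, ?_, ?_⟩
  · rw [h1]
    exact Nat.le_self_pow hk.ne' p
  · intro h2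
    rw [h1]
    have h3 : k ≠ 1 := by
      rintro rfl
      rw [pow_one] at h1
      exact h2 (h1 ▸ hp)
    exact Nat.pow_le_pow_right hp.pos (by omega)

/-- at most `[K : ℚ]` primes lie over `p` -/
theorem card_over (p : ℕ) (hp : p.Prime) (T : Finset (HeightOneSpectrum (𝓞 K)))
    (hT : ∀ v ∈ T, (p : 𝓞 K) ∈ v.asIdeal ∧ p ≤ Ideal.absNorm v.asIdeal) :
    T.card ≤ Module.finrank ℚ K := by
  classical
  have h1 : (∏ v ∈ T.image HeightOneSpectrum.asIdeal, v) ∣ Ideal.span {(p : 𝓞 K)} := by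
    apply Finset.prod_primes_dvd
    · intro a ha
      obtain ⟨v, -, rfl⟩ := Finset.mem_image.mp ha
      exact v.prime
    · intro a ha
      obtain ⟨v, hv, rfl⟩ := Finset.mem_image.mp ha
      rw [Ideal.dvd_span_singleton]
      exact (hT v hv).1
  rw [Finset.prod_image (fun v _ w _ h => asIdeal_inj K h)] at h1
  have h2 := map_dvd Ideal.absNorm h1
  rw [map_prod, Ideal.absNorm_span_singleton] at h2
  have h3 : (Algebra.norm ℤ (p : 𝓞 K)).natAbs = p ^ Module.finrank ℚ K := by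
    have h4 : (p : 𝓞 K) = algebraMap ℤ (𝓞 K) (p : ℤ) := by simp
    rw [h4, Algebra.norm_algebraMap, RingOfIntegers.rank]
    simp [Int.natAbs_pow]
  rw [h3] at h2
  have h5 : p ^ T.card ≤ ∏ v ∈ T, Ideal.absNorm v.asIdeal := by
    rw [← Finset.prod_const]
    exact Finset.prod_le_prod' fun v hv => (hT v hv).2
  have h6 := Nat.le_of_dvd (pow_pos hp.pos _) h2
  exact (Nat.pow_le_pow_iff_right hp.one_lt).mp (h5.trans h6)

/-- the primes whose norm is not prime contribute a bounded amount -/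
theorem sum_bad_le (T : Finset (HeightOneSpectrum (𝓞 K)))
    (hT : ∀ v ∈ T, ¬ (Ideal.absNorm v.asIdeal).Prime) :
    ∑ v ∈ T, xw K 1 v ≤ Module.finrank ℚ K * ∑' n : ℕ, 1 / (n : ℝ) ^ 2 := by
  classical
  choose p hp hmem hle hsq using fun v : HeightOneSpectrum (𝓞 K) => exists_char v
  have h1 : ∀ v ∈ T, xw K 1 v ≤ 1 / (p v : ℝ) ^ 2 := by
    intro v hv
    unfold xw
    rw [Real.rpow_neg_one, ← one_div]
    have h2 := hsq v (hT v hv)
    have h3 : (0 : ℝ) < (p v : ℝ) ^ 2 := by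
      have := (hp v).pos
      positivity
    exact one_div_le_one_div_of_le h3 (by exact_mod_cast h2)
  refine (Finset.sum_le_sum h1).trans ?_
  rw [Finset.sum_comp (fun n : ℕ => 1 / (n : ℝ) ^ 2) p]
  have h4 : ∀ n ∈ T.image p, (T.filter fun v => p v = n).card • (1 / (n : ℝ) ^ 2) ≤
      Module.finrank ℚ K * (1 / (n : ℝ) ^ 2) := by
    intro n hn
    obtain ⟨w, hw, rfl⟩ := Finset.mem_image.mp hn
    rw [nsmul_eq_mul]
    refine mul_le_mul_of_nonneg_right ?_ (by positivity)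
    exact_mod_cast card_over (p w) (hp w) _ fun v hv => by
      rw [Finset.mem_filter] at hv
      rw [← hv.2]
      exact ⟨hmem v, hle v⟩
  refine (Finset.sum_le_sum h4).trans ?_
  rw [← Finset.mul_sum]
  refine mul_le_mul_of_nonneg_left ?_ (Nat.cast_nonneg _)
  exact Summable.sum_le_tsum _ (fun n _ => by positivity)
    (Real.summable_one_div_nat_pow.mpr (by norm_num))

theorem xw_le_half {s : ℝ} (hs : 1 ≤ s) (v : HeightOneSpectrum (𝓞 K)) : xw K s v ≤ 1 / 2 := by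
  have h1 : (2 : ℝ) ≤ (Ideal.absNorm v.asIdeal : ℝ) := by exact_mod_cast two_le_absNorm v
  unfold xw
  calc (Ideal.absNorm v.asIdeal : ℝ) ^ (-s) ≤ (Ideal.absNorm v.asIdeal : ℝ) ^ (-1 : ℝ) :=
        Real.rpow_le_rpow_of_exponent_le (by linarith) (by linarith)
    _ = 1 / (Ideal.absNorm v.asIdeal : ℝ) := by rw [Real.rpow_neg_one, one_div]
    _ ≤ 1 / 2 := one_div_le_one_div_of_le (by norm_num) h1

theorem xw_le_one {s : ℝ} (hs : 1 ≤ s) (v : HeightOneSpectrum (𝓞 K)) : xw K s v ≤ xw K 1 v := by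
  have h1 : (2 : ℝ) ≤ (Ideal.absNorm v.asIdeal : ℝ) := by exact_mod_cast two_le_absNorm v
  unfold xw
  exact Real.rpow_le_rpow_of_exponent_le (by linarith) (by linarith)

/-- the primes of degree one not in `F` -/
def goodS (F : Finset (HeightOneSpectrum (𝓞 K))) : Set (HeightOneSpectrum (𝓞 K)) :=
  {v | (Ideal.absNorm v.asIdeal).Prime ∧ v ∉ F}

theorem sum_good_le (F T : Finset (HeightOneSpectrum (𝓞 K))) (hT : ∀ v ∈ T, v ∉ goodS F) {s : ℝ}
    (hs : 1 ≤ s) :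
    ∑ v ∈ T, xw K s v ≤ F.card + Module.finrank ℚ K * ∑' n : ℕ, 1 / (n : ℝ) ^ 2 := by
  classical
  rw [← Finset.sum_filter_add_sum_filter_not T (fun v => v ∈ F)]
  have h1 : ∑ v ∈ T.filter (fun v => v ∈ F), xw K s v ≤ F.card := by
    calc ∑ v ∈ T.filter (fun v => v ∈ F), xw K s v
        ≤ ∑ v ∈ T.filter (fun v => v ∈ F), (1 : ℝ) :=
          Finset.sum_le_sum fun v _ => (xw_le_half hs v).trans (by norm_num)
      _ = ((T.filter (fun v => v ∈ F)).card : ℝ) := by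
          rw [Finset.sum_const, nsmul_eq_mul, mul_one]
      _ ≤ F.card := by
          refine Nat.cast_le.mpr (Finset.card_le_card fun v hv => ?_)
          exact (Finset.mem_filter.mp hv).2
  have h2 : ∑ v ∈ T.filter (fun v => ¬ v ∈ F), xw K s v ≤
      Module.finrank ℚ K * ∑' n : ℕ, 1 / (n : ℝ) ^ 2 := by
    refine (Finset.sum_le_sum fun v _ => xw_le_one hs v).trans (sum_bad_le _ ?_)
    intro v hv
    rw [Finset.mem_filter] at hv
    exact fun h3 => hT v hv.1 ⟨h3, hv.2⟩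
  exact add_le_add h1 h2

/-- the Euler product over the primes whose norm is not prime and finitely many others is
bounded for `s ≥ 1` -/
theorem Zf_bad_le (F : Finset (HeightOneSpectrum (𝓞 K))) : ∃ M : ℝ, 0 < M ∧ ∀ s : ℝ, 1 ≤ s →
    Zf (fun v : ((goodS F)ᶜ : Set (HeightOneSpectrum (𝓞 K))) =>
      ENNReal.ofReal (xw K s v.1)) ≤ ENNReal.ofReal M := by
  classical
  refine ⟨Real.exp (2 * (F.card + Module.finrank ℚ K * ∑' n : ℕ, 1 / (n : ℝ) ^ 2)),
    Real.exp_pos _, fun s hs => ?_⟩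
  refine Zf_le_exp (u := fun v : ((goodS F)ᶜ : Set (HeightOneSpectrum (𝓞 K))) => xw K s v.1)
    (fun v => xw_nonneg K s v.1) (fun v => xw_le_half hs v.1) ?_
  intro T
  have h0 : ∑ v ∈ T, xw K s v.1 = ∑ v ∈ T.map (Function.Embedding.subtype _), xw K s v := by
    rw [Finset.sum_map]
    rfl
  rw [h0]
  refine sum_good_le F _ ?_ hs
  intro v hv
  obtain ⟨w, -, rfl⟩ := Finset.mem_map.mp hv
  exact w.2

end

/-- **Almost all primes of degree one cannot have two primes of the same norm above them.** -/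
theorem split_contra {E E₂ : Type*} [Field E] [NumberField E] [Field E₂] [NumberField E₂]
    (j : 𝓞 E →+* 𝓞 E₂) (F : Finset (HeightOneSpectrum (𝓞 E)))
    (h : ∀ v : HeightOneSpectrum (𝓞 E), v ∉ F → (Ideal.absNorm v.asIdeal).Prime →
      ∃ Q₁ Q₂ : HeightOneSpectrum (𝓞 E₂), Q₁ ≠ Q₂ ∧
        Q₁.asIdeal.comap j = v.asIdeal ∧
        Q₂.asIdeal.comap j = v.asIdeal ∧
        Ideal.absNorm Q₁.asIdeal = Ideal.absNorm v.asIdeal ∧
        Ideal.absNorm Q₂.asIdeal = Ideal.absNorm v.asIdeal) : False := by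
  classical
  set S : Set (HeightOneSpectrum (𝓞 E)) := goodS F with hS
  choose Q₁ Q₂ hne hc₁ hc₂ hn₁ hn₂ using fun v : S => h v.1 v.2.2 v.2.1
  -- the lower bound for `E₂`
  have hinj : Function.Injective (Sum.elim Q₁ Q₂) := by
    rintro (v | v) (w | w) hvw
    · simp only [Sum.elim_inl] at hvw
      have h1 : v.1 = w.1 := asIdeal_inj E (by rw [← hc₁ v, ← hc₁ w, hvw])
      rw [Subtype.ext h1]
    · simp only [Sum.elim_inl, Sum.elim_inr] at hvw
      have h1 : v.1 = w.1 := asIdeal_inj E (by rw [← hc₁ v, ← hc₂ w, hvw])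
      rw [Subtype.ext h1] at hvw
      exact absurd hvw (hne w)
    · simp only [Sum.elim_inl, Sum.elim_inr] at hvw
      have h1 : v.1 = w.1 := asIdeal_inj E (by rw [← hc₂ v, ← hc₁ w, hvw])
      rw [Subtype.ext h1] at hvw
      exact absurd hvw.symm (hne w)
    · simp only [Sum.elim_inr] at hvw
      have h1 : v.1 = w.1 := asIdeal_inj E (by rw [← hc₂ v, ← hc₂ w, hvw])
      rw [Subtype.ext h1]
  have hlow : ∀ s : ℝ, Zf (fun v : S => ENNReal.ofReal (xw E s v)) *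
      Zf (fun v : S => ENNReal.ofReal (xw E s v)) ≤ Dz E₂ s := by
    intro s
    rw [Dz_eq_Zf, ← Zf_sum]
    refine le_trans (le_of_eq ?_) (Zf_comp_le (fun v => ENNReal.ofReal (xw E₂ s v)) hinj)
    congr 1
    funext v
    rcases v with v | v
    · simp only [Sum.elim_inl, xw]
      rw [hn₁ v]
    · simp only [Sum.elim_inr, xw]
      rw [hn₂ v]
  obtain ⟨M, hM, hbad⟩ := Zf_bad_le F
  obtain ⟨c, -, hc, -, hE, -⟩ : ∃ c C : ℝ, 0 < c ∧ 0 < C ∧ (∀ᶠ s : ℝ in 𝓝[>] 1,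
      ENNReal.ofReal (c / (s - 1)) ≤ Dz E s) ∧ True := by
    obtain ⟨c, C, hc, hC, h1⟩ := Dz_facts E
    exact ⟨c, C, hc, hC, h1.mono fun s hs => hs.1, trivial⟩
  obtain ⟨C, hC, hE₂⟩ : ∃ C : ℝ, 0 < C ∧ ∀ᶠ s : ℝ in 𝓝[>] 1,
      Dz E₂ s ≤ ENNReal.ofReal (C / (s - 1)) := by
    obtain ⟨c, C, hc, hC, h1⟩ := Dz_facts E₂
    exact ⟨C, hC, h1.mono fun s hs => hs.2⟩
  have hsmall : ∀ᶠ s : ℝ in 𝓝[>] 1, s - 1 < c ^ 2 / (C * M ^ 2) := by
    have h1 : Tendsto (fun s : ℝ => s - 1) (𝓝[>] 1) (𝓝 0) := by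
      have h2 : Tendsto (fun s : ℝ => s - 1) (𝓝 1) (𝓝 (1 - 1)) :=
        (continuous_id.sub continuous_const).tendsto 1
      rw [sub_self] at h2
      exact h2.mono_left nhdsWithin_le_nhds
    exact h1.eventually_lt_const (by positivity)
  obtain ⟨s, h1, h2, h3, h4⟩ := (hE.and (hE₂.and (hsmall.and self_mem_nhdsWithin))).exists
  have hs1 : (1 : ℝ) < s := h4
  have hs : 0 < s - 1 := by linarith
  set Z : ENNReal := Zf (fun v : S => ENNReal.ofReal (xw E s v)) with hZ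
  -- `Z` is finite
  have hZZ : Z * Z ≤ ENNReal.ofReal (C / (s - 1)) := (hlow s).trans h2
  have hZtop : Z ≠ ⊤ := by
    intro h5
    rw [h5, ENNReal.top_mul_top, top_le_iff] at hZZ
    exact ENNReal.ofReal_ne_top hZZ
  obtain ⟨z, hz0, hz⟩ : ∃ z : ℝ, 0 ≤ z ∧ Z = ENNReal.ofReal z :=
    ⟨Z.toReal, ENNReal.toReal_nonneg, (ENNReal.ofReal_toReal hZtop).symm⟩
  have h5 : c / (s - 1) ≤ z * M := by
    have h6 : ENNReal.ofReal (c / (s - 1)) ≤ ENNReal.ofReal (z * M) := by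
      refine h1.trans ?_
      rw [Dz_eq_Zf]
      refine (Zf_split _ S).trans ?_
      rw [ENNReal.ofReal_mul hz0, ← hz]
      exact mul_le_mul_right (hbad s hs1.le) _
    exact (ENNReal.ofReal_le_ofReal_iff (by positivity)).mp h6
  have h7 : z * z ≤ C / (s - 1) := by
    rw [hz, ← ENNReal.ofReal_mul hz0] at hZZ
    exact (ENNReal.ofReal_le_ofReal_iff (by positivity)).mp hZZ
  rw [div_le_iff₀ hs] at h5
  rw [le_div_iff₀ hs] at h7
  rw [lt_div_iff₀ (by positivity)] at h3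
  -- `c ^ 2 ≤ z ^ 2 M ^ 2 (s - 1) ^ 2 ≤ C (s - 1) M ^ 2 < c ^ 2`
  have h8 : c ^ 2 ≤ (z * M * (s - 1)) ^ 2 := pow_le_pow_left₀ hc.le h5 2
  have h9 : (z * M * (s - 1)) ^ 2 = (z * z * (s - 1)) * (M ^ 2 * (s - 1)) := by ring
  have h10 : (z * z * (s - 1)) * (M ^ 2 * (s - 1)) ≤ C * (M ^ 2 * (s - 1)) :=
    mul_le_mul_of_nonneg_right h7 (by positivity)
  nlinarith

end Pool.Agent.Zau
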