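import Pool.Agent.Lib_zau.DensC

/-!
# Zauner, density part D: primes of residue degree one
-/

open NumberField IsDedekindDomain

namespace Pool.Agent.Zau

/-- a prime ideal `P ∋ p` with `x ^ p = x` modulo `P` for all `x` has norm `p`, and every element
is congruent to an integer -/
theorem degree_one {K : Type*} [Field K] [NumberField K] {p : ℕ} (hp : p.Prime) {P : Ideal (𝓞 K)}
    (hP : P.IsPrime) (hmem : (p : 𝓞 K) ∈ P) (hfr : ∀ x : 𝓞 K, x - x ^ p ∈ P) :
    Ideal.absNorm P = p ∧ ∀ x : 𝓞 K, ∃ n : ℕ, x - (n : 𝓞 K) ∈ P := by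
  classical
  haveI := Fact.mk hp
  have hne : P ≠ ⊥ := by
    rintro rfl
    rw [Ideal.mem_bot] at hmem
    exact hp.ne_zero (by exact_mod_cast hmem)
  haveI : P.IsMaximal := hP.isMaximal hne
  letI : Field (𝓞 K ⧸ P) := Ideal.Quotient.field P
  haveI : Finite (𝓞 K ⧸ P) := Ideal.finiteQuotientOfFreeOfNeBot P hne
  letI := Fintype.ofFinite (𝓞 K ⧸ P)
  haveI : CharP (𝓞 K ⧸ P) p := by
    have h1 : ((p : ℕ) : 𝓞 K ⧸ P) = 0 := by
      have h2 : (Ideal.Quotient.mk P) (p : 𝓞 K) = 0 := Ideal.Quotient.eq_zero_iff_mem.mpr hmem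
      rwa [map_natCast] at h2
    exact (CharP.charP_iff_prime_eq_zero hp).mpr h1
  have hcard : Fintype.card (𝓞 K ⧸ P) ≤ p := by
    have h1 : ∀ y : 𝓞 K ⧸ P, y ^ p = y := by
      intro y
      obtain ⟨x, rfl⟩ := Ideal.Quotient.mk_surjective y
      rw [← map_pow, eq_comm, Ideal.Quotient.eq]
      exact hfr x
    have h2 : (Polynomial.X ^ p - Polynomial.X : Polynomial (𝓞 K ⧸ P)) ≠ 0 :=
      FiniteField.X_pow_card_sub_X_ne_zero _ hp.one_lt
    have h3 : (Finset.univ : Finset (𝓞 K ⧸ P)) ⊆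
        (Polynomial.X ^ p - Polynomial.X : Polynomial (𝓞 K ⧸ P)).roots.toFinset := by
      intro y _
      rw [Multiset.mem_toFinset, Polynomial.mem_roots h2]
      simp [h1 y]
    calc Fintype.card (𝓞 K ⧸ P) = (Finset.univ : Finset (𝓞 K ⧸ P)).card := rfl
      _ ≤ _ := Finset.card_le_card h3
      _ ≤ _ := Multiset.toFinset_card_le _
      _ ≤ _ := Polynomial.card_roots' _
      _ = p := FiniteField.X_pow_card_sub_X_natDegree_eq _ hp.one_lt
  have hinj : Function.Injective (ZMod.castHom (dvd_refl p) (𝓞 K ⧸ P)) := RingHom.injective _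
  have hcard2 : Fintype.card (𝓞 K ⧸ P) = p := by
    refine le_antisymm hcard ?_
    have h1 := Fintype.card_le_of_injective _ hinj
    rwa [ZMod.card] at h1
  have hbij : Function.Bijective (ZMod.castHom (dvd_refl p) (𝓞 K ⧸ P)) := by
    rw [Fintype.bijective_iff_injective_and_card]
    exact ⟨hinj, by rw [hcard2, ZMod.card]⟩
  constructor
  · rw [Ideal.absNorm_apply, Submodule.cardQuot_apply, Nat.card_eq_fintype_card]
    exact hcard2
  · intro x
    obtain ⟨a, ha⟩ := hbij.2 (Ideal.Quotient.mk P x)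
    refine ⟨a.val, ?_⟩
    rw [← Ideal.Quotient.eq, ← ha, map_natCast]
    rw [← map_natCast (ZMod.castHom (dvd_refl p) (𝓞 K ⧸ P)), ZMod.natCast_zmod_val]

end Pool.Agent.Zau
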