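import Pool.Agent.Lib_zau.DensD

/-!
# Zauner, density part E: Frobenius elements which are odd powers of a given automorphism
-/

open NumberField IsDedekindDomain

namespace Pool.Agent.Zau

variable {L : Type*} [Field L] [NumberField L]

theorem coe_smul' (g : L ≃ₐ[ℚ] L) (x : 𝓞 L) : ((g • x : 𝓞 L) : L) = g (x : L) := rfl

/-- membership in the fixed field of a cyclic group -/
theorem mem_fixed_zpowers (g : L ≃ₐ[ℚ] L) (x : L) :
    x ∈ IntermediateField.fixedField (Subgroup.zpowers g) ↔ g x = x := by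
  rw [IntermediateField.mem_fixedField_iff]
  constructor
  · intro h
    exact h g (Subgroup.mem_zpowers g)
  · intro h f hf
    obtain ⟨k, rfl⟩ := Subgroup.mem_zpowers_iff.mp hf
    have h1 : ∀ n : ℕ, (g ^ n) x = x := by
      intro n
      induction n with
      | zero => rfl
      | succ n ih => rw [pow_succ, AlgEquiv.mul_apply, h, ih]
    cases k with
    | ofNat n => exact h1 n
    | negSucc n =>
      rw [zpow_negSucc]
      have h2 := h1 (n + 1)
      conv_lhs => rw [← h2]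
      exact (g ^ (n + 1)).symm_apply_apply x

theorem coe_smul_sub (h : L ≃ₐ[ℚ] L) (g : Subgroup.zpowers h) (x : 𝓞 L) :
    ((g • x : 𝓞 L) : L) = (g : L ≃ₐ[ℚ] L) (x : L) := rfl

/-- the Frobenius of a prime of `𝓞 L` over a prime of degree one of the fixed field of `h` -/
theorem exists_frob_pow (h : L ≃ₐ[ℚ] L) (P : Ideal (𝓞 L)) (hP : P.IsPrime) (hP0 : P ≠ ⊥)
    (v : Ideal (𝓞 (IntermediateField.fixedField (Subgroup.zpowers h))))
    (hv : P.comap (algebraMap _ (𝓞 L)) = v) :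
    ∃ i : ℕ, ∀ x : 𝓞 L, (h ^ i) • x - x ^ (Ideal.absNorm v) ∈ P := by
  have hfin : Finite (𝓞 L ⧸ P) := Ideal.finiteQuotientOfFreeOfNeBot P hP0
  have hcomm : SMulCommClass (Subgroup.zpowers h)
      (𝓞 (IntermediateField.fixedField (Subgroup.zpowers h))) (𝓞 L) := by
    constructor
    intro g a b
    apply RingOfIntegers.ext
    have h1 : (algebraMap (𝓞 (IntermediateField.fixedField (Subgroup.zpowers h))) (𝓞 L) a : L) =
      ((a : IntermediateField.fixedField (Subgroup.zpowers h)) : L) := rfl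
    have h2 : (g : L ≃ₐ[ℚ] L) ((a : IntermediateField.fixedField (Subgroup.zpowers h)) : L) =
        ((a : IntermediateField.fixedField (Subgroup.zpowers h)) : L) := by
      have h3 := (a : IntermediateField.fixedField (Subgroup.zpowers h)).2
      rw [IntermediateField.mem_fixedField_iff] at h3
      exact h3 g.1 g.2
    have hm : ∀ u w : 𝓞 L, ((u * w : 𝓞 L) : L) = (u : L) * (w : L) := fun _ _ => rfl
    rw [Algebra.smul_def, Algebra.smul_def, coe_smul_sub, hm, hm, map_mul, h1, h2,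
      coe_smul_sub]
  have hinv : Algebra.IsInvariant (𝓞 (IntermediateField.fixedField (Subgroup.zpowers h))) (𝓞 L)
      (Subgroup.zpowers h) := by
    constructor
    intro b hb
    have h1 : (b : L) ∈ IntermediateField.fixedField (Subgroup.zpowers h) := by
      rw [IntermediateField.mem_fixedField_iff]
      intro f hf
      have h2 := congrArg (fun x : 𝓞 L => (x : L)) (hb ⟨f, hf⟩)
      exact h2
    have h3 : IsIntegral ℤ (⟨(b : L), h1⟩ : IntermediateField.fixedField (Subgroup.zpowers h)) := by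
      have h4 := RingOfIntegers.isIntegral_coe b
      rw [← isIntegral_algebraMap_iff (A := IntermediateField.fixedField (Subgroup.zpowers h))
        (B := L) (R := ℤ) (Subtype.val_injective)]
      exact h4
    exact ⟨⟨_, h3⟩, RingOfIntegers.ext rfl⟩
  obtain ⟨σ, hσ⟩ := IsArithFrobAt.exists_of_isInvariant
    (𝓞 (IntermediateField.fixedField (Subgroup.zpowers h))) (Subgroup.zpowers h) P
  have hfo : IsOfFinOrder h := isOfFinOrder_of_finite h
  obtain ⟨i, hi⟩ : ∃ i : ℕ, h ^ i = (σ : L ≃ₐ[ℚ] L) := by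
    have h1 := σ.2
    rw [← hfo.mem_powers_iff_mem_zpowers] at h1
    exact h1
  refine ⟨i, fun x => ?_⟩
  have h1 := hσ x
  have h2 : Nat.card ((𝓞 (IntermediateField.fixedField (Subgroup.zpowers h))) ⧸
      P.under (𝓞 (IntermediateField.fixedField (Subgroup.zpowers h)))) = Ideal.absNorm v := by
    rw [Ideal.absNorm_apply, Submodule.cardQuot_apply, ← hv]
  rw [h2] at h1
  have h3 : (h ^ i) • x = (MulSemiringAction.toAlgHom
      (𝓞 (IntermediateField.fixedField (Subgroup.zpowers h))) (𝓞 L) σ) x := by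
    rw [hi]
    rfl
  rw [h3]
  exact h1

/-- the heart: if the Frobenius is an even power of `h`, there are two primes of the same norm in
the fixed field of `h ^ 2` -/
theorem exists_two (h : L ≃ₐ[ℚ] L) {p : ℕ} (hp : p.Prime)
    {E₂ : Type*} [Field E₂] [NumberField E₂] (j : 𝓞 E₂ →+* 𝓞 L)
    (hj : ∀ y : 𝓞 E₂, (h ^ 2) • (j y) = j y) (t : 𝓞 E₂) {d : ℕ}
    (hd : (d : 𝓞 L) ∈ Ideal.span {j t - h⁻¹ • j t}) (P : Ideal (𝓞 L)) (hP : P.IsPrime)
    (hmem : (p : 𝓞 L) ∈ P) (hdP : (d : 𝓞 L) ∉ P) {i : ℕ} (hi : Even i)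
    (hfr : ∀ x : 𝓞 L, (h ^ i) • x - x ^ p ∈ P) :
    ∃ Q₁ Q₂ : Ideal (𝓞 E₂), Q₁.IsPrime ∧ Q₂.IsPrime ∧ Q₁ ≠ Q₂ ∧ Ideal.absNorm Q₁ = p ∧
      Ideal.absNorm Q₂ = p ∧ Q₁ = P.comap j ∧
      Q₂ = (P.comap (MulSemiringAction.toRingHom (L ≃ₐ[ℚ] L) (𝓞 L) h⁻¹)).comap j := by
  have hfix : ∀ y : 𝓞 E₂, (h ^ i) • (j y) = j y := by
    intro y
    obtain ⟨k, rfl⟩ := hi
    rw [← two_mul, pow_mul]
    have h1 : ∀ k : ℕ, ((h ^ 2) ^ k) • (j y) = j y := by
      intro k
      induction k with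
      | zero => rw [pow_zero, one_smul]
      | succ k ih => rw [pow_succ, mul_smul, hj, ih]
    exact h1 k
  have key : ∀ R : Ideal (𝓞 L), R.IsPrime → (p : 𝓞 L) ∈ R →
      (∀ x : 𝓞 L, (h ^ i) • x - x ^ p ∈ R) → (R.comap j).IsPrime ∧
        Ideal.absNorm (R.comap j) = p ∧
        ∀ x : 𝓞 E₂, ∃ n : ℕ, x - (n : 𝓞 E₂) ∈ R.comap j := by
    intro R hR hpR hfR
    have h1 : (R.comap j).IsPrime := Ideal.comap_isPrime j R
    have h2 : (p : 𝓞 E₂) ∈ R.comap j := by
      rw [Ideal.mem_comap, map_natCast]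
      exact hpR
    have h3 : ∀ x : 𝓞 E₂, x - x ^ p ∈ R.comap j := by
      intro x
      rw [Ideal.mem_comap, map_sub, map_pow]
      have h4 := hfR (j x)
      rwa [hfix] at h4
    exact ⟨h1, degree_one hp h1 h2 h3⟩
  obtain ⟨h1, h2, h3⟩ := key P hP hmem hfr
  have hP' : (P.comap (MulSemiringAction.toRingHom (L ≃ₐ[ℚ] L) (𝓞 L) h⁻¹)).IsPrime :=
    Ideal.comap_isPrime _ P
  have hmem' : (p : 𝓞 L) ∈ P.comap (MulSemiringAction.toRingHom (L ≃ₐ[ℚ] L) (𝓞 L) h⁻¹) := by
    rw [Ideal.mem_comap, map_natCast]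
    exact hmem
  have hfr' : ∀ x : 𝓞 L, (h ^ i) • x - x ^ p ∈
      P.comap (MulSemiringAction.toRingHom (L ≃ₐ[ℚ] L) (𝓞 L) h⁻¹) := by
    intro x
    rw [Ideal.mem_comap, MulSemiringAction.toRingHom_apply, smul_sub, smul_pow', ← mul_smul]
    have h4 : h⁻¹ * h ^ i = h ^ i * h⁻¹ := by
      rw [← zpow_natCast, ← zpow_neg_one, ← zpow_add, ← zpow_add, add_comm]
    rw [h4, mul_smul]
    exact hfr _
  obtain ⟨h5, h6, h7⟩ := key _ hP' hmem' hfr'
  refine ⟨_, _, h1, h5, ?_, h2, h6, rfl, rfl⟩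
  intro heq
  apply hdP
  obtain ⟨n, hn⟩ := h3 t
  have h8 : j t - (n : 𝓞 L) ∈ P := by
    rw [Ideal.mem_comap, map_sub, map_natCast] at hn
    exact hn
  have h9 : h⁻¹ • j t - (n : 𝓞 L) ∈ P := by
    rw [heq, Ideal.mem_comap, Ideal.mem_comap, MulSemiringAction.toRingHom_apply, map_sub,
      map_natCast, smul_sub] at hn
    have h10 : h⁻¹ • (n : 𝓞 L) = (n : 𝓞 L) :=
      map_natCast (MulSemiringAction.toRingHom (L ≃ₐ[ℚ] L) (𝓞 L) h⁻¹) n
    rwa [h10] at hn
  have h11 : j t - h⁻¹ • j t ∈ P := by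
    have h12 := P.sub_mem h8 h9
    rwa [sub_sub_sub_cancel_right] at h12
  exact (Ideal.span_singleton_le_iff_mem P).mpr h11 hd

end Pool.Agent.Zau
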