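import Pool.Agent.Lib_zau.DensE

/-!
# Zauner, density part F: infinitely many Frobenius elements among the odd powers of an
automorphism of even order
-/

open NumberField IsDedekindDomain

namespace Pool.Agent.Zau

variable {L : Type*} [Field L] [NumberField L]

/-- an element of the fixed field of `h ^ 2` which is not fixed by `h` -/
theorem exists_moved (h : L ≃ₐ[ℚ] L) (heven : Even (orderOf h)) :
    ∃ t : 𝓞 (IntermediateField.fixedField (Subgroup.zpowers (h ^ 2))),
      algebraMap _ (𝓞 L) t - h⁻¹ • (algebraMap _ (𝓞 L) t) ≠ 0 := by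
  by_contra hcon
  push Not at hcon
  have h1 : ∀ x ∈ IntermediateField.fixedField (Subgroup.zpowers (h ^ 2)), h x = x := by
    intro x hx
    obtain ⟨a, b, hb, hab⟩ := IsFractionRing.div_surjective
      (A := 𝓞 (IntermediateField.fixedField (Subgroup.zpowers (h ^ 2))))
      (⟨x, hx⟩ : IntermediateField.fixedField (Subgroup.zpowers (h ^ 2)))
    have h2 : ∀ c : 𝓞 (IntermediateField.fixedField (Subgroup.zpowers (h ^ 2))),
        h ((c : IntermediateField.fixedField (Subgroup.zpowers (h ^ 2))) : L) =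
        ((c : IntermediateField.fixedField (Subgroup.zpowers (h ^ 2))) : L) := by
      intro c
      have h3 := sub_eq_zero.mp (hcon c)
      have h4 := congrArg (fun y : 𝓞 L => h (y : L)) h3
      simp only [coe_smul'] at h4
      have h5 : h (h⁻¹ ((algebraMap _ (𝓞 L) c : 𝓞 L) : L)) = ((algebraMap _ (𝓞 L) c : 𝓞 L) : L) :=
        h.apply_symm_apply _
      rw [h5] at h4
      exact h4
    have h6 : x = ((a : IntermediateField.fixedField (Subgroup.zpowers (h ^ 2))) : L) /
        ((b : IntermediateField.fixedField (Subgroup.zpowers (h ^ 2))) : L) := by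
      have h7 := congrArg (fun y : IntermediateField.fixedField (Subgroup.zpowers (h ^ 2)) =>
        (y : L)) hab
      exact h7.symm
    rw [h6, map_div₀, h2, h2]
  have h2 : h ∈ Subgroup.zpowers (h ^ 2) := by
    rw [← IntermediateField.fixingSubgroup_fixedField (Subgroup.zpowers (h ^ 2)),
      IntermediateField.mem_fixingSubgroup_iff]
    exact h1
  obtain ⟨k, hk⟩ := Subgroup.mem_zpowers_iff.mp h2
  have h3 : h ^ (2 * k - 1 : ℤ) = 1 := by
    rw [zpow_sub, zpow_one, zpow_mul, zpow_ofNat, hk, mul_inv_cancel]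
  have h4 := orderOf_dvd_iff_zpow_eq_one.mpr h3
  obtain ⟨c, hc⟩ := heven
  rw [hc] at h4
  obtain ⟨e, he⟩ := h4
  push_cast at he
  have h5 : (2 : ℤ) * (k - c * e) = 1 := by linarith
  omega

/-- the inclusion of the rings of integers of the two fixed fields -/
noncomputable def incE (h : L ≃ₐ[ℚ] L) :
    𝓞 (IntermediateField.fixedField (Subgroup.zpowers h)) →+*
      𝓞 (IntermediateField.fixedField (Subgroup.zpowers (h ^ 2))) :=
  RingOfIntegers.mapRingHom (IntermediateField.inclusion (by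
    intro x hx
    rw [mem_fixed_zpowers] at hx ⊢
    rw [pow_two, AlgEquiv.mul_apply, hx, hx]) :
      IntermediateField.fixedField (Subgroup.zpowers h) →ₐ[ℚ]
      IntermediateField.fixedField (Subgroup.zpowers (h ^ 2))).toRingHom

theorem incE_comp (h : L ≃ₐ[ℚ] L) :
    (algebraMap (𝓞 (IntermediateField.fixedField (Subgroup.zpowers (h ^ 2)))) (𝓞 L)).comp
      (incE h) = algebraMap _ (𝓞 L) := by
  ext x
  rfl

/-- **Density lemma.** Let `h` be an automorphism of even order of a number field `L`. Then there are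
arbitrarily large primes `p` and prime ideals `P` of `L` over `p` such that some odd power of `h`
is a Frobenius automorphism at `P`. -/
theorem exists_frob_odd (h : L ≃ₐ[ℚ] L) (heven : Even (orderOf h)) (N : ℕ) :
    ∃ p : ℕ, N < p ∧ p.Prime ∧ ∃ P : Ideal (𝓞 L), P.IsPrime ∧ (p : 𝓞 L) ∈ P ∧
      ∃ i : ℕ, Odd i ∧ ∀ x : 𝓞 L, (h ^ i) • x - x ^ p ∈ P := by
  classical
  by_contra hcon
  obtain ⟨t, ht⟩ := exists_moved h heven
  set j₂ : 𝓞 (IntermediateField.fixedField (Subgroup.zpowers (h ^ 2))) →+* 𝓞 L :=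
    algebraMap _ (𝓞 L) with hj₂
  have hj : ∀ y, (h ^ 2) • (j₂ y) = j₂ y := by
    intro y
    apply RingOfIntegers.ext
    rw [coe_smul']
    have h1 := (y : IntermediateField.fixedField (Subgroup.zpowers (h ^ 2))).2
    rw [mem_fixed_zpowers] at h1
    exact h1
  set I : Ideal (𝓞 L) := Ideal.span {j₂ t - h⁻¹ • j₂ t} with hI
  have hI0 : I ≠ ⊥ := by
    rw [hI, Ne, Ideal.span_singleton_eq_bot]
    exact ht
  set d : ℕ := Ideal.absNorm I with hd
  have hd0 : d ≠ 0 := by
    rw [hd, Ne, Ideal.absNorm_eq_zero_iff]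
    exact hI0
  have hdI : (d : 𝓞 L) ∈ I := Ideal.absNorm_mem I
  have hfin : {v : HeightOneSpectrum (𝓞 (IntermediateField.fixedField (Subgroup.zpowers h))) |
      v.asIdeal ∣ Ideal.span {((N.factorial * d : ℕ) :
        𝓞 (IntermediateField.fixedField (Subgroup.zpowers h)))}}.Finite := by
    apply Ideal.finite_factors
    rw [Ne, Ideal.zero_eq_bot, Ideal.span_singleton_eq_bot]
    exact_mod_cast mul_ne_zero (Nat.factorial_ne_zero N) hd0
  refine split_contra (incE h) hfin.toFinset ?_
  intro v hv hprime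
  rw [Set.Finite.mem_toFinset, Set.mem_ofPred_eq, Ideal.dvd_span_singleton] at hv
  set p : ℕ := Ideal.absNorm v.asIdeal with hp
  have hpv : (p : 𝓞 (IntermediateField.fixedField (Subgroup.zpowers h))) ∈ v.asIdeal :=
    Ideal.absNorm_mem v.asIdeal
  have hNp : N < p := by
    by_contra hle
    push Not at hle
    apply hv
    obtain ⟨c, hc⟩ := hprime.dvd_factorial.mpr hle
    rw [hc, mul_assoc, Nat.cast_mul]
    exact v.asIdeal.mul_mem_right _ hpv
  obtain ⟨P, -, hP, hPv⟩ := Ideal.exists_ideal_over_prime_of_isIntegral v.asIdeal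
    (⊥ : Ideal (𝓞 L)) (by
      intro x hx
      rw [Ideal.mem_comap, Ideal.mem_bot] at hx
      have h1 : x = 0 := FaithfulSMul.algebraMap_injective _ (𝓞 L) (hx.trans (map_zero _).symm)
      rw [h1]
      exact v.asIdeal.zero_mem)
  have hpP : (p : 𝓞 L) ∈ P := by
    have h1 : (p : 𝓞 (IntermediateField.fixedField (Subgroup.zpowers h))) ∈
        P.comap (algebraMap _ (𝓞 L)) := by
      rw [hPv]
      exact hpv
    rwa [Ideal.mem_comap, map_natCast] at h1
  have hP0 : P ≠ ⊥ := by
    rintro rfl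
    rw [Ideal.mem_bot] at hpP
    exact hprime.ne_zero (by exact_mod_cast hpP)
  have hdP : (d : 𝓞 L) ∉ P := by
    intro h1
    apply hv
    have h2 : (d : 𝓞 (IntermediateField.fixedField (Subgroup.zpowers h))) ∈ v.asIdeal := by
      rw [← hPv, Ideal.mem_comap, map_natCast]
      exact h1
    rw [Nat.cast_mul]
    exact v.asIdeal.mul_mem_left _ h2
  obtain ⟨i, hi⟩ := exists_frob_pow h P hP hP0 v.asIdeal hPv
  rcases Nat.even_or_odd i with hie | hio
  swap
  · exact absurd ⟨p, hNp, hprime, P, hP, hpP, i, hio, hi⟩ hcon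
  obtain ⟨Q₁, Q₂, hQ₁, hQ₂, hne, hn₁, hn₂, he₁, he₂⟩ :=
    exists_two h hprime j₂ hj t hdI P hP hpP hdP hie hi
  have hb₁ : Q₁ ≠ ⊥ := by
    rintro rfl
    rw [Ideal.absNorm_bot] at hn₁
    exact hprime.ne_zero hn₁.symm
  have hb₂ : Q₂ ≠ ⊥ := by
    rintro rfl
    rw [Ideal.absNorm_bot] at hn₂
    exact hprime.ne_zero hn₂.symm
  refine ⟨⟨Q₁, hQ₁, hb₁⟩, ⟨Q₂, hQ₂, hb₂⟩, ?_, ?_, ?_, hn₁, hn₂⟩
  · intro h1
    exact hne (congrArg HeightOneSpectrum.asIdeal h1)
  · show Q₁.comap (incE h) = v.asIdeal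
    rw [he₁, Ideal.comap_comap, hj₂, incE_comp]
    exact hPv
  · show Q₂.comap (incE h) = v.asIdeal
    rw [he₂, Ideal.comap_comap, Ideal.comap_comap, hj₂, incE_comp, ← hPv]
    congr 1
    ext x
    rw [RingHom.comp_apply, MulSemiringAction.toRingHom_apply, coe_smul']
    have h1 := (x : IntermediateField.fixedField (Subgroup.zpowers h)).2
    rw [mem_fixed_zpowers] at h1
    have h2 : h⁻¹ (h ((x : IntermediateField.fixedField (Subgroup.zpowers h)) : L)) =
        ((x : IntermediateField.fixedField (Subgroup.zpowers h)) : L) :=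
      h.symm_apply_apply _
    rw [h1] at h2
    exact h2

end Pool.Agent.Zau
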