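import Mathlib

/-!
# Zauner: extension of field homomorphisms to `ℂ`

Every ring homomorphism `τ : L → ℂ` on a countable subfield `L` of `ℂ` extends to a ring homomorphism
`ℂ → ℂ`.
-/

set_option autoImplicit false

namespace Zau

open Cardinal

theorem exists_algHom_of_card {K M N : Type} [Field K] [Field M] [Field N] [Algebra K M]
    [Algebra K N] [IsAlgClosed M] [IsAlgClosed N] (hK : #K ≤ ℵ₀) (hM : ℵ₀ < #M) (h : #M = #N) :
    Nonempty (M →ₐ[K] N) := by
  obtain ⟨s, hs⟩ := exists_isTranscendenceBasis K M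
  obtain ⟨t, ht⟩ := exists_isTranscendenceBasis K N
  have h1 : #M = #s :=
    IsAlgClosed.cardinal_eq_cardinal_transcendence_basis_of_aleph0_lt' _ hs hK hM
  have h2 : #N = #t :=
    IsAlgClosed.cardinal_eq_cardinal_transcendence_basis_of_aleph0_lt' _ ht hK (h ▸ hM)
  obtain ⟨e⟩ : Nonempty (s ≃ t) := Cardinal.eq.1 (h1.symm.trans (h.trans h2))
  let f : Algebra.adjoin K (Set.range ((↑) : s → M)) →ₐ[K] N :=
    (MvPolynomial.aeval (fun i : s => ((e i : t) : N))).comp hs.1.aevalEquiv.symm.toAlgHom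
  have hf : Function.Injective f := by
    have h3 : AlgebraicIndependent K (fun i : s => ((e i : t) : N)) :=
      ht.1.comp _ e.injective
    have h4 : Function.Injective (MvPolynomial.aeval (fun i : s => ((e i : t) : N)) :
        MvPolynomial s K →ₐ[K] N) := h3
    exact fun x y hxy => hs.1.aevalEquiv.symm.injective (h4 hxy)
  let _ : Algebra (Algebra.adjoin K (Set.range ((↑) : s → M))) N := f.toRingHom.toAlgebra
  have : IsScalarTower K (Algebra.adjoin K (Set.range ((↑) : s → M))) N :=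
    IsScalarTower.of_algebraMap_eq fun x => (f.commutes x).symm
  have : FaithfulSMul (Algebra.adjoin K (Set.range ((↑) : s → M))) N :=
    (faithfulSMul_iff_algebraMap_injective _ _).2 hf
  have : Algebra.IsAlgebraic (Algebra.adjoin K (Set.range ((↑) : s → M))) M := hs.isAlgebraic
  let g : M →ₐ[Algebra.adjoin K (Set.range ((↑) : s → M))] N := IsAlgClosed.lift
  exact ⟨g.restrictScalars K⟩

/-- A ring homomorphism from a countable subfield of `ℂ` to `ℂ` extends to `ℂ`. -/
theorem exists_extend (L : Subfield ℂ) (hL : #L ≤ ℵ₀) (τ : L →+* ℂ) :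
    ∃ σ : ℂ →+* ℂ, ∀ x : L, σ x = τ x := by
  have hC : ℵ₀ < #ℂ := by
    rw [Cardinal.mk_complex]
    exact Cardinal.aleph0_lt_continuum
  obtain ⟨g⟩ := @exists_algHom_of_card L ℂ ℂ _ _ _ _ τ.toAlgebra _ _ hL hC rfl
  exact ⟨@AlgHom.toRingHom L ℂ ℂ _ _ _ _ τ.toAlgebra g, fun x =>
    @AlgHom.commutes L ℂ ℂ _ _ _ _ τ.toAlgebra g x⟩

/-- The same for an abstract number field (or any countable field) `L` with an embedding `i` into `ℂ`
and a second homomorphism `τ : L → ℂ`. -/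
theorem exists_extend_of_embedding {L : Type} [Field L] (hL : #L ≤ ℵ₀) (i τ : L →+* ℂ) :
    ∃ σ : ℂ →+* ℂ, ∀ x : L, σ (i x) = τ x := by
  have hC : ℵ₀ < #ℂ := by
    rw [Cardinal.mk_complex]
    exact Cardinal.aleph0_lt_continuum
  obtain ⟨g⟩ := @exists_algHom_of_card L ℂ ℂ _ _ _ i.toAlgebra τ.toAlgebra _ _ hL hC rfl
  exact ⟨@AlgHom.toRingHom L ℂ ℂ _ _ _ i.toAlgebra τ.toAlgebra g, fun x =>
    @AlgHom.commutes L ℂ ℂ _ _ _ i.toAlgebra τ.toAlgebra g x⟩

/-- For a number field `L` embedded into `ℂ` by `i` and `h : L ≃ₐ[ℚ] L` there is a ring homomorphism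
`σ : ℂ → ℂ` with `σ (i x) = i (h x)`. -/
theorem exists_extend_aut {L : Type} [Field L] [NumberField L] (i : L →+* ℂ) (h : L ≃ₐ[ℚ] L) :
    ∃ σ : ℂ →+* ℂ, ∀ x : L, σ (i x) = i (h x) := by
  have hL : #L ≤ ℵ₀ := by
    refine (Algebra.IsAlgebraic.cardinalMk_le_max ℚ L).trans ?_
    simp
  exact exists_extend_of_embedding hL i (i.comp (h : L →+* L))

end Zau
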