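import Pool.Agent.Results.MP_1c78a5_mp.GhostSIC

/-!
# Zauner's conjecture from the unimodularity of one Galois conjugate of the ghost overlaps

`zauner_of_conj`: if for every `d ≥ 4` some ring homomorphism `σ : ℂ →+* ℂ` maps all the numbers
`nu d a b`, `(a, b) ≠ (0, 0)`, to the unit circle, then a Weyl-Heisenberg covariant SIC fiducial exists in
every dimension `d ≥ 2`.
-/

set_option autoImplicit false

open Ghost Complex
open scoped ComplexConjugate Real

namespace Zau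

/-- The state `φ` is a Weyl-Heisenberg covariant SIC fiducial. -/
def IsSIC {d : ℕ} [NeZero d] (φ : ZMod d → ℂ) : Prop :=
  ∑ i, ‖φ i‖ ^ 2 = 1 ∧ ∀ a b : ZMod d, ¬(a = 0 ∧ b = 0) →
    ‖braket φ (displacement d a b) φ‖ ^ 2 = 1 / (d + 1)

theorem braket_disp_eq {d : ℕ} [NeZero d] (a b : ZMod d) (φ : ZMod d → ℂ) :
    braket φ (displacement d a b) φ =
      ∑ i, conj (φ i) * (ZMod.stdAddChar (b * (i - a)) * φ (i - a)) := by
  unfold braket dotProduct
  rw [disp_mulVec]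
  rfl

theorem norm_sq_eq (z : ℂ) : ‖z‖ ^ 2 = z.re * z.re + z.im * z.im := by
  rw [Complex.sq_norm, Complex.normSq_apply]

theorem norm_char {d : ℕ} [NeZero d] (x : ZMod d) : ‖(ZMod.stdAddChar x : ℂ)‖ = 1 := by
  have : (ZMod.stdAddChar x : ℂ) ^ d = 1 := by
    rw [← AddChar.map_nsmul_eq_pow]
    simp
  exact norm_eq_one_of_pow_eq_one this (NeZero.ne d)

/-- The fiducial in dimension two. -/
theorem sic_two : ∃ φ : ZMod 2 → ℂ, IsSIC φ := by
  set α : ℝ := Real.sqrt ((3 + Real.sqrt 3) / 6) with hα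
  set γ : ℝ := Real.sqrt ((3 - Real.sqrt 3) / 12) with hγ
  have h3 : Real.sqrt 3 ^ 2 = 3 := Real.sq_sqrt (by norm_num)
  have h3p : 0 ≤ Real.sqrt 3 := Real.sqrt_nonneg 3
  have h3b : Real.sqrt 3 ≤ 2 := by nlinarith
  have hα2 : α ^ 2 = (3 + Real.sqrt 3) / 6 := Real.sq_sqrt (by positivity)
  have hγ2 : γ ^ 2 = (3 - Real.sqrt 3) / 12 := Real.sq_sqrt (by linarith)
  have hαγ : α ^ 2 * γ ^ 2 = 1 / 12 := by
    rw [hα2, hγ2]
    nlinarith
  have hχ : (ZMod.stdAddChar (1 : ZMod 2) : ℂ) = -1 := by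
    have h := ZMod.stdAddChar_coe (N := 2) 1
    rw [Int.cast_one] at h
    rw [h, ← Complex.exp_pi_mul_I]
    congr 1
    push_cast
    ring
  have h0 : (ZMod.stdAddChar (0 : ZMod 2) : ℂ) = 1 := AddChar.map_zero_eq_one _
  have hsum : ∀ f : ZMod 2 → ℂ, ∑ i, f i = f 0 + f 1 := fun f => Fin.sum_univ_two f
  have hsum' : ∀ f : ZMod 2 → ℝ, ∑ i, f i = f 0 + f 1 := fun f => Fin.sum_univ_two f
  have e1 : (0 : ZMod 2) - 1 = 1 := by decide
  set φ : ZMod 2 → ℂ := fun i => if i = 0 then (α : ℂ) else (γ : ℂ) + γ * I with hφ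
  have f0 : φ 0 = α := if_pos rfl
  have f1 : φ 1 = (γ : ℂ) + γ * I := if_neg (by decide)
  refine ⟨φ, ?_, ?_⟩
  · rw [hsum', f0, f1, norm_sq_eq, norm_sq_eq]
    simp
    nlinarith
  · intro a b hab
    have hcase : (a = 0 ∧ b = 1) ∨ (a = 1 ∧ b = 0) ∨ (a = 1 ∧ b = 1) := by
      revert a b
      decide
    rcases hcase with ⟨rfl, rfl⟩ | ⟨rfl, rfl⟩ | ⟨rfl, rfl⟩
    · rw [braket_disp_eq, hsum, sub_zero, sub_zero, f0, f1, mul_zero, mul_one, h0, hχ, norm_sq_eq]
      simp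
      nlinarith
    · rw [braket_disp_eq, hsum, sub_self, e1, f0, f1, zero_mul, zero_mul, h0, norm_sq_eq]
      simp
      nlinarith
    · rw [braket_disp_eq, hsum, sub_self, e1, f0, f1, mul_zero, mul_one, h0, hχ, norm_sq_eq]
      simp
      nlinarith

/-- The fiducial in dimension three. -/
theorem sic_three : ∃ φ : ZMod 3 → ℂ, IsSIC φ := by
  set γ : ℝ := Real.sqrt (1 / 2) with hγ
  have hγ2 : γ ^ 2 = 1 / 2 := Real.sq_sqrt (by norm_num)
  have h0 : (ZMod.stdAddChar (0 : ZMod 3) : ℂ) = 1 := AddChar.map_zero_eq_one _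
  have hsum : ∀ f : ZMod 3 → ℂ, ∑ i, f i = f 0 + f 1 + f 2 := fun f => Fin.sum_univ_three f
  have hsum' : ∀ f : ZMod 3 → ℝ, ∑ i, f i = f 0 + f 1 + f 2 := fun f => Fin.sum_univ_three f
  set φ : ZMod 3 → ℂ := fun i => if i = 0 then 0 else if i = 1 then (γ : ℂ) else -(γ : ℂ) with hφ
  have f0 : φ 0 = 0 := if_pos rfl
  have f1 : φ 1 = γ := by
    rw [hφ]
    exact (if_neg (by decide)).trans (if_pos rfl)
  have f2 : φ 2 = -γ := by
    rw [hφ]
    exact (if_neg (by decide)).trans (if_neg (by decide))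
  refine ⟨φ, ?_, ?_⟩
  · rw [hsum', f0, f1, f2, norm_sq_eq, norm_sq_eq, norm_sq_eq]
    simp
    nlinarith
  · intro a b hab
    rw [braket_disp_eq, hsum]
    have ha : a = 0 ∨ a = 1 ∨ a = 2 := by
      clear hab
      revert a
      decide
    rcases ha with rfl | rfl | rfl
    · -- `a = 0`
      have hb : b ≠ 0 := fun h => hab ⟨rfl, h⟩
      have hs : (1 : ℂ) + ZMod.stdAddChar (b * 1) + ZMod.stdAddChar (b * 2) = 0 := by
        have h1 := (ZMod.isPrimitive_stdAddChar 3)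
        have h2 : ∑ i : ZMod 3, (ZMod.stdAddChar (b * i) : ℂ) = 0 := by
          have h3 := AddChar.sum_mulShift b h1
          rw [if_neg hb] at h3
          simpa [mul_comm] using h3
        rw [hsum, mul_zero, h0] at h2
        exact h2
      have hs' : (ZMod.stdAddChar (b * 1) : ℂ) + ZMod.stdAddChar (b * 2) = -1 := by
        linear_combination hs
      rw [sub_zero, sub_zero, sub_zero, f0, f1, f2]
      have h4 : conj (0 : ℂ) * (ZMod.stdAddChar (b * 0) * 0) + conj (γ : ℂ) *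
          (ZMod.stdAddChar (b * 1) * γ) + conj (-(γ : ℂ)) * (ZMod.stdAddChar (b * 2) * -γ) =
          ((-(1 / 2) : ℝ) : ℂ) := by
        rw [map_zero, zero_mul, zero_add, map_neg, Complex.conj_ofReal]
        have h5 : ((γ : ℂ)) ^ 2 = 1 / 2 := by
          rw [← Complex.ofReal_pow, hγ2]
          push_cast
          ring
        push_cast
        linear_combination (γ : ℂ) ^ 2 * hs' - h5
      rw [h4, Complex.norm_real]
      norm_num
    · have e0 : (0 : ZMod 3) - 1 = 2 := by decide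
      have e2 : (2 : ZMod 3) - 1 = 1 := by decide
      rw [e0, sub_self, e2, f0, f1, f2]
      have h4 : conj (0 : ℂ) * (ZMod.stdAddChar (b * 2) * -γ) + conj (γ : ℂ) *
          (ZMod.stdAddChar (b * 0) * 0) + conj (-(γ : ℂ)) * (ZMod.stdAddChar (b * 1) * γ) =
          -(γ ^ 2 : ℝ) * ZMod.stdAddChar (b * 1) := by
        rw [map_zero, map_neg, Complex.conj_ofReal]
        push_cast
        ring
      rw [h4, norm_mul, norm_char, norm_neg, Complex.norm_real, hγ2]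
      norm_num
    · have e0 : (0 : ZMod 3) - 2 = 1 := by decide
      have e1 : (1 : ZMod 3) - 2 = 2 := by decide
      rw [e0, e1, sub_self, f0, f1, f2]
      have h4 : conj (0 : ℂ) * (ZMod.stdAddChar (b * 1) * γ) + conj (γ : ℂ) *
          (ZMod.stdAddChar (b * 2) * -γ) + conj (-(γ : ℂ)) * (ZMod.stdAddChar (b * 0) * 0) =
          -(γ ^ 2 : ℝ) * ZMod.stdAddChar (b * 2) := by
        rw [map_zero, map_neg, Complex.conj_ofReal]
        push_cast
        ring
      rw [h4, norm_mul, norm_char, norm_neg, Complex.norm_real, hγ2]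
      norm_num

/-- The final step: unimodular conjugates of the ghost overlaps give Zauner's conjecture. -/
theorem zauner_of_conj
    (H : ∀ (d : ℕ) [NeZero d], 4 ≤ d → ∃ σ : ℂ →+* ℂ, ∀ a b : ZMod d, ¬(a = 0 ∧ b = 0) →
      ‖σ (Pool.Agent.Results.MP_1c78a5_mp.GhostSIC.nu d a b)‖ = 1)
    (d : ℕ) [NeZero d] (hd : 2 ≤ d) : ∃ φ : ZMod d → ℂ, IsSIC φ := by
  rcases Nat.lt_or_ge d 4 with h | h
  · obtain rfl | rfl : d = 2 ∨ d = 3 := by omega
    · obtain ⟨φ, hφ⟩ := sic_two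
      exact ⟨φ, by convert hφ⟩
    · obtain ⟨φ, hφ⟩ := sic_three
      exact ⟨φ, by convert hφ⟩
  · obtain ⟨σ, hσ⟩ := H d h
    obtain ⟨ψ, -, -, -, h4⟩ := Pool.Agent.Results.MP_1c78a5_mp.GhostSIC.result d h
    obtain ⟨φ, -, h5, h6⟩ := h4 σ hσ
    exact ⟨φ, h5, h6⟩

end Zau
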