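import Pool.Agent.Lib_MP_1c78a5_ghost.CShift

/-!
# Abstract pieces for the Fourier transform formula

* `integrable_vertical`, `vertical_shift'`: shift of a vertical line of integration;
* `entire_const`: an entire function with two real periods of irrational quotient is constant;
* `family_const`: a family of functions, indexed by the residues modulo `N`, holomorphic in the strip
  `-(om + δ) < re η < 0` with `ρ (c + 1) (η - 1) = ρ c η` and `ρ (c + V) (η - om) = ρ c η`, is constant and
  independent of the index.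
-/

open Complex MeasureTheory Set Filter Topology
open scoped Real ComplexConjugate

namespace Zau

open Ghost

theorem integrable_vertical {f : ℂ → ℂ} {σ A c : ℝ} (hc : 0 < c)
    (hd : ∀ z : ℂ, z.re = σ → ContinuousAt f z)
    (hb : ∀ z : ℂ, z.re = σ → ‖f z‖ ≤ A * Real.exp (-c * |z.im|)) :
    Integrable (fun y : ℝ => f ((σ : ℂ) + y * I)) := by
  have hre : ∀ y : ℝ, ((σ : ℂ) + y * I).re = σ := fun y => by simp
  have him : ∀ y : ℝ, ((σ : ℂ) + y * I).im = y := fun y => by simp
  refine CSHIFT_integrable hc ?_ (A := A) ?_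
  · rw [continuous_iff_continuousAt]
    intro y
    have h3 : ContinuousAt f ((σ : ℂ) + y * I) := hd _ (hre y)
    have h4 : ContinuousAt (fun y : ℝ => (σ : ℂ) + y * I) y := by fun_prop
    exact ContinuousAt.comp (f := fun y : ℝ => (σ : ℂ) + y * I) h3 h4
  · intro y
    have := hb ((σ : ℂ) + y * I) (hre y)
    rwa [him] at this

/-- Shift of a vertical line of integration, in either direction. -/
theorem vertical_shift' {f : ℂ → ℂ} {σ σ' A c : ℝ} (hc : 0 < c)
    (hd : ∀ z : ℂ, min σ σ' ≤ z.re → z.re ≤ max σ σ' → DifferentiableAt ℂ f z)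
    (hb : ∀ z : ℂ, min σ σ' ≤ z.re → z.re ≤ max σ σ' → ‖f z‖ ≤ A * Real.exp (-c * |z.im|)) :
    ∫ y : ℝ, f ((σ : ℂ) + y * I) = ∫ y : ℝ, f ((σ' : ℂ) + y * I) := by
  rcases le_total σ σ' with h | h
  · rw [min_eq_left h, max_eq_right h] at hd hb
    exact vertical_shift h hc hd hb
  · rw [min_eq_right h, max_eq_left h] at hd hb
    exact (vertical_shift h hc hd hb).symm

/-- An entire function with two real periods of irrational quotient is constant. -/
theorem entire_const {f : ℂ → ℂ} (hf : Differentiable ℂ f) {p q : ℝ} (hpq : Irrational (p / q))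
    (h1 : ∀ w : ℂ, f (w + p) = f w) (h2 : ∀ w : ℂ, f (w + q) = f w) (w w' : ℂ) : f w = f w' := by
  have hall : ∀ (w : ℂ) (s : ℝ), f (w + s) = f w := by
    have hsub : ∀ s ∈ (AddSubgroup.closure {p, q} : AddSubgroup ℝ), ∀ w : ℂ,
        f (w + s) = f w := by
      intro s hs
      induction hs using AddSubgroup.closure_induction with
      | mem x hx =>
        rcases hx with hx | hx
        · rw [hx]; exact h1
        · rw [Set.mem_singleton_iff] at hx
          rw [hx]; exact h2
      | zero => intro w; simp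
      | add x y _ _ hx hy =>
        intro w
        have : w + ((x + y : ℝ) : ℂ) = (w + x) + y := by push_cast; ring
        rw [this, hy, hx]
      | neg x _ hx =>
        intro w
        have h3 := hx (w + ((-x : ℝ) : ℂ))
        have : w + ((-x : ℝ) : ℂ) + x = w := by push_cast; ring
        rw [this] at h3
        exact h3.symm
    intro w s
    have hc1 : Continuous fun s : ℝ => f (w + s) :=
      hf.continuous.comp (continuous_const.add Complex.continuous_ofReal)
    have hc2 : Continuous fun _ : ℝ => f w := continuous_const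
    have hdense : Dense ((AddSubgroup.closure {p, q} : AddSubgroup ℝ) : Set ℝ) := by
      rw [dense_addSubgroupClosure_pair_iff]
      exact hpq
    have := Continuous.ext_on hdense hc1 hc2 (fun s hs => hsub s hs w)
    exact congrFun this s
  have hder : ∀ w : ℂ, deriv f w = 0 := by
    intro w
    have h3 : HasDerivAt f (deriv f w) (w + ((0 : ℝ) : ℂ)) := by
      have : w + ((0 : ℝ) : ℂ) = w := by simp
      rw [this]
      exact (hf w).hasDerivAt
    have h4 : HasDerivAt (fun s : ℝ => w + (s : ℂ)) 1 0 := by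
      have := (Complex.ofRealCLM.hasDerivAt (x := (0 : ℝ))).const_add w
      simpa using this
    have h5 : HasDerivAt (fun s : ℝ => f (w + (s : ℂ))) (deriv f w * 1) 0 :=
      HasDerivAt.comp (𝕜 := ℝ) (h₂ := f) (h := fun s : ℝ => w + (s : ℂ)) 0 h3 h4
    have h6 : (fun s : ℝ => f (w + (s : ℂ))) = fun _ => f w := by
      funext s; exact hall w s
    rw [h6] at h5
    have h7 := h5.unique (hasDerivAt_const (0 : ℝ) (f w))
    simpa using h7
  exact is_const_of_deriv_eq_zero hf hder w w'

section family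

variable {om δ : ℝ} {ρ : ℤ → ℂ → ℂ}

theorem family_iter
    (h1 : ∀ c : ℤ, ∀ η : ℂ, -(om + δ) + 1 < η.re → η.re < 0 → ρ (c + 1) (η - 1) = ρ c η) (k : ℕ) :
    ∀ c : ℤ, ∀ η : ℂ, -(om + δ) + k < η.re → η.re < 0 → ρ (c + k) (η - k) = ρ c η := by
  induction k with
  | zero => intro c η _ _; simp
  | succ k ih =>
    intro c η hη hη0
    push_cast at hη
    have h3 : η - ((k + 1 : ℕ) : ℂ) = (η - k) - 1 := by push_cast; ring
    have h4 : c + ((k + 1 : ℕ) : ℤ) = (c + k) + 1 := by push_cast; ring
    have hre : (η - (k : ℂ)).re = η.re - k := by simp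
    have hk : (0 : ℝ) ≤ k := k.cast_nonneg
    rw [h3, h4, h1 (c + k) (η - k) (by rw [hre]; linarith) (by rw [hre]; linarith)]
    exact ih c η (by linarith) hη0

theorem family_int
    (h1 : ∀ c : ℤ, ∀ η : ℂ, -(om + δ) + 1 < η.re → η.re < 0 → ρ (c + 1) (η - 1) = ρ c η)
    (c : ℤ) (w : ℂ) (m n : ℤ) (hm : -(om + δ) < w.re - m) (hm0 : w.re - m < 0)
    (hn : -(om + δ) < w.re - n) (hn0 : w.re - n < 0) :
    ρ (c + m) (w - m) = ρ (c + n) (w - n) := by
  have key : ∀ m n : ℤ, m ≤ n → w.re - m < 0 → -(om + δ) < w.re - n →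
      ρ (c + m) (w - m) = ρ (c + n) (w - n) := by
    intro m n hmn hm0 hn
    obtain ⟨k, hk⟩ := Int.le.dest hmn
    have h2 : w - (n : ℂ) = (w - m) - (k : ℂ) := by
      rw [← hk]; push_cast; ring
    have h3 : c + n = (c + m) + k := by rw [← hk]; ring
    have hn' : w.re - (n : ℝ) = w.re - m - k := by rw [← hk]; push_cast; ring
    have hre : (w - (m : ℂ)).re = w.re - m := by simp
    rw [h2, h3]
    exact (family_iter h1 k (c + m) (w - m) (by rw [hre]; linarith) (by rw [hre]; linarith)).symm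
  rcases le_total m n with h | h
  · exact key m n h hm0 hn
  · exact (key n m h hn0 hm).symm

/-- A family of functions holomorphic in the strip `-(om + δ) < re η < 0` with
`ρ (c + 1) (η - 1) = ρ c η`, `ρ (c + V) (η - om) = ρ c η` and `ρ (c + N) = ρ c` is constant and does not depend
on `c`. -/
theorem family_const {N : ℕ} (hN : 0 < N) {V : ℤ} (hom : 1 < om) (hirr : Irrational om)
    (hδ : 0 < δ)
    (hd : ∀ c : ℤ, ∀ η : ℂ, -(om + δ) < η.re → η.re < 0 → DifferentiableAt ℂ (ρ c) η)
    (hper : ∀ c : ℤ, ∀ η : ℂ, -(om + δ) < η.re → η.re < 0 → ρ (c + N) η = ρ c η)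
    (h1 : ∀ c : ℤ, ∀ η : ℂ, -(om + δ) + 1 < η.re → η.re < 0 → ρ (c + 1) (η - 1) = ρ c η)
    (h2 : ∀ c : ℤ, ∀ η : ℂ, -δ < η.re → η.re < 0 → ρ (c + V) (η - om) = ρ c η)
    {c c' : ℤ} {η η' : ℂ} (hη : -(om + δ) < η.re) (hη0 : η.re < 0)
    (hη' : -(om + δ) < η'.re) (hη0' : η'.re < 0) : ρ c η = ρ c' η' := by
  obtain ⟨E, hE⟩ : ∃ E : ℤ → ℂ → ℂ, E = fun c w => ρ (c + (⌊w.re⌋ + 1)) (w - ((⌊w.re⌋ + 1 : ℤ) : ℂ)) :=
    ⟨_, rfl⟩
  have hfl : ∀ w : ℂ, -(om + δ) < w.re - ((⌊w.re⌋ + 1 : ℤ) : ℝ) ∧
      w.re - ((⌊w.re⌋ + 1 : ℤ) : ℝ) < 0 := by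
    intro w
    have ha := Int.floor_le w.re
    have hb := Int.lt_floor_add_one w.re
    push_cast
    constructor <;> linarith
  have hEn : ∀ (c : ℤ) (w : ℂ) (n : ℤ), -(om + δ) < w.re - n → w.re - n < 0 →
      E c w = ρ (c + n) (w - n) := by
    intro c w n hn hn0
    rw [hE]
    exact family_int h1 c w _ n (hfl w).1 (hfl w).2 hn hn0
  have hE0 : ∀ (c : ℤ) (w : ℂ), -(om + δ) < w.re → w.re < 0 → E c w = ρ c w := by
    intro c w hw hw0
    have := hEn c w 0 (by simpa using hw) (by simpa using hw0)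
    simpa using this
  have hdiff : ∀ c : ℤ, Differentiable ℂ (E c) := by
    intro c w
    obtain ⟨n, hn⟩ : ∃ n : ℤ, n = ⌊w.re⌋ + 1 := ⟨_, rfl⟩
    have hwn := hfl w
    rw [← hn] at hwn
    have hopen : IsOpen {z : ℂ | -(om + δ) < z.re - n ∧ z.re - n < 0} := by
      apply IsOpen.inter
      · exact isOpen_lt continuous_const (Complex.continuous_re.sub continuous_const)
      · exact isOpen_lt (Complex.continuous_re.sub continuous_const) continuous_const
    have hev : E c =ᶠ[𝓝 w] fun z => ρ (c + n) (z - (n : ℂ)) := by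
      filter_upwards [hopen.mem_nhds hwn] with z hz
      exact hEn c z n hz.1 hz.2
    have hre : (w - (n : ℂ)).re = w.re - n := by simp
    have hd1 : DifferentiableAt ℂ (fun z => ρ (c + n) (z - (n : ℂ))) w := by
      have h5 := hd (c + n) (w - (n : ℂ)) (by rw [hre]; exact hwn.1) (by rw [hre]; exact hwn.2)
      exact DifferentiableAt.comp w h5 (differentiableAt_id.sub_const _)
    exact hd1.congr_of_eventuallyEq hev
  -- the first relation, everywhere
  have hr1 : ∀ (c : ℤ) (w : ℂ), E (c + 1) (w - 1) = E c w := by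
    intro c w
    have h3 := hfl w
    rw [hEn c w _ h3.1 h3.2]
    have hre : (w - 1).re = w.re - 1 := by simp
    rw [hEn (c + 1) (w - 1) ⌊w.re⌋ (by rw [hre]; push_cast at h3; linarith)
      (by rw [hre]; push_cast at h3; linarith)]
    congr 1
    · ring
    · push_cast; ring
  -- the second relation, everywhere
  have hr2 : ∀ (c : ℤ) (w : ℂ), E (c + V) (w - om) = E c w := by
    intro c
    have han : AnalyticOnNhd ℂ (E c) univ := fun z _ => (hdiff c).analyticAt z
    have han2 : AnalyticOnNhd ℂ (fun w => E (c + V) (w - om)) univ := fun z _ =>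
      ((hdiff (c + V)).comp (differentiable_id.sub_const (om : ℂ))).analyticAt z
    have hev : (fun w => E (c + V) (w - om)) =ᶠ[𝓝 (-((δ / 2 : ℝ) : ℂ))] E c := by
      have hopen : IsOpen {z : ℂ | -δ < z.re ∧ z.re < 0} := by
        apply IsOpen.inter
        · exact isOpen_lt continuous_const Complex.continuous_re
        · exact isOpen_lt Complex.continuous_re continuous_const
      have hmem : (-((δ / 2 : ℝ) : ℂ)) ∈ {z : ℂ | -δ < z.re ∧ z.re < 0} := by
        have e1 : (-((δ / 2 : ℝ) : ℂ)).re = -(δ / 2) := by simp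
        constructor
        · rw [e1]; linarith
        · rw [e1]; linarith
      filter_upwards [hopen.mem_nhds hmem] with z hz
      have hre : (z - (om : ℂ)).re = z.re - om := by simp
      rw [hE0 c z (by linarith [hz.1]) hz.2,
        hE0 (c + V) (z - om) (by rw [hre]; linarith [hz.1]) (by rw [hre]; linarith [hz.2])]
      exact h2 c z hz.1 hz.2
    intro w
    exact congrFun (han2.eq_of_eventuallyEq han hev) w
  have hrN : ∀ (c : ℤ) (w : ℂ), E (c + N) w = E c w := by
    intro c w
    have h3 := hfl w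
    have hre : (w - ((⌊w.re⌋ + 1 : ℤ) : ℂ)).re = w.re - ((⌊w.re⌋ + 1 : ℤ) : ℝ) := by simp
    rw [hEn c w _ h3.1 h3.2, hEn (c + N) w _ h3.1 h3.2]
    have h4 : c + N + (⌊w.re⌋ + 1) = c + (⌊w.re⌋ + 1) + N := by ring
    rw [h4]
    exact hper _ _ (by rw [hre]; exact h3.1) (by rw [hre]; exact h3.2)
  have hrNk : ∀ (c : ℤ) (w : ℂ) (k : ℤ), E (c + k * N) w = E c w := by
    have hpos : ∀ (k : ℕ) (c : ℤ) (w : ℂ), E (c + k * N) w = E c w := by
      intro k
      induction k with
      | zero => intro c w; simp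
      | succ k ih =>
        intro c w
        have : c + ((k + 1 : ℕ) : ℤ) * N = c + k * N + N := by push_cast; ring
        rw [this, hrN, ih]
    intro c w k
    rcases le_total 0 k with hk | hk
    · obtain ⟨m, rfl⟩ := Int.eq_ofNat_of_zero_le hk
      exact hpos m c w
    · obtain ⟨m, hm⟩ := Int.eq_ofNat_of_zero_le (show 0 ≤ -k by omega)
      have h3 := hpos m (c + k * N) w
      rw [← hm] at h3
      have h4 : c + k * N + -k * N = c := by ring
      rw [h4] at h3
      exact h3.symm
  -- iterates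
  have hi1 : ∀ (k : ℕ) (c : ℤ) (w : ℂ), E (c + k) (w - k) = E c w := by
    intro k
    induction k with
    | zero => intro c w; simp
    | succ k ih =>
      intro c w
      have h3 : c + ((k + 1 : ℕ) : ℤ) = (c + k) + 1 := by push_cast; ring
      have h4 : w - ((k + 1 : ℕ) : ℂ) = (w - k) - 1 := by push_cast; ring
      rw [h3, h4, hr1, ih]
  have hi2 : ∀ (k : ℕ) (c : ℤ) (w : ℂ), E (c + k * V) (w - k * om) = E c w := by
    intro k
    induction k with
    | zero => intro c w; simp
    | succ k ih =>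
      intro c w
      have h3 : c + ((k + 1 : ℕ) : ℤ) * V = (c + k * V) + V := by push_cast; ring
      have h4 : w - ((k + 1 : ℕ) : ℂ) * om = (w - k * om) - om := by push_cast; ring
      rw [h3, h4, hr2, ih]
  have hp1 : ∀ w : ℂ, E c (w + ((N * om : ℝ) : ℂ)) = E c w := by
    intro w
    have h3 := hi2 N c (w + ((N * om : ℝ) : ℂ))
    have h4 : w + ((N * om : ℝ) : ℂ) - (N : ℂ) * om = w := by push_cast; ring
    rw [h4] at h3
    rw [← h3]
    have h5 : c + (N : ℤ) * V = c + V * N := by ring
    rw [h5]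
    exact hrNk c w V
  have hp2 : ∀ w : ℂ, E c (w + ((N : ℝ) : ℂ)) = E c w := by
    intro w
    have h3 := hi1 N c (w + ((N : ℝ) : ℂ))
    have h4 : w + ((N : ℝ) : ℂ) - (N : ℂ) = w := by push_cast; ring
    rw [h4] at h3
    rw [← h3]
    exact hrN c w
  have hN' : (N : ℝ) ≠ 0 := by exact_mod_cast hN.ne'
  have hirr' : Irrational ((N * om : ℝ) / (N : ℝ)) := by
    have : (N * om : ℝ) / (N : ℝ) = om := by field_simp
    rw [this]
    exact hirr
  have hconst : ∀ w w' : ℂ, E c w = E c w' := fun w w' => entire_const (hdiff c) hirr' hp1 hp2 w w'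
  have hcc : ∀ (k : ℤ) (w : ℂ), E (c + k) w = E c w := by
    intro k w
    rcases le_total 0 k with hk | hk
    · obtain ⟨m, rfl⟩ := Int.eq_ofNat_of_zero_le hk
      have h3 := hi1 m c (w + m)
      have h4 : w + (m : ℂ) - m = w := by ring
      rw [h4] at h3
      exact h3.trans (hconst _ _)
    · obtain ⟨m, hm⟩ := Int.eq_ofNat_of_zero_le (show 0 ≤ -k by omega)
      have h3 := hi1 m (c + k) w
      have h4 : c + k + (m : ℤ) = c := by rw [← hm]; ring
      rw [h4] at h3
      rw [← h3]
      exact hconst _ _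
  rw [← hE0 c η hη hη0, ← hE0 c' η' hη' hη0']
  have h5 : c' = c + (c' - c) := by ring
  rw [h5, hcc]
  exact hconst _ _

end family

end Zau
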