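import Pool.Agent.Lib_zau.FkvDef

/-!
# FKV formula, piece P1: bounds of the integrand, independence of the contour

Owner: helper85.
-/

open Complex MeasureTheory Set Filter Topology
open scoped Real ComplexConjugate

namespace Zau

open Ghost

theorem FKV_norm_e (z : ℂ) : ‖e z‖ = Real.exp (-(2 * π * z.im)) := by
  unfold e
  rw [Complex.norm_exp]
  congr 1
  simp

theorem FKV_e_diff (z : ℂ) : DifferentiableAt ℂ e z := by
  unfold e
  fun_prop

namespace LensF

variable (M : LensF)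

theorem om_pos : 0 < M.om := lt_trans one_pos M.hom

theorem N_pos : (0 : ℝ) < M.N := by exact_mod_cast M.hN

theorem N_ne : (M.N : ℂ) ≠ 0 := by exact_mod_cast M.hN.ne'

theorem om_ne : (M.om : ℂ) ≠ 0 := by exact_mod_cast M.om_pos.ne'

/-- The bound of `D_b (ξ - x) R_{b'} (ξ - y)` on a closed strip inside of the domain. -/
theorem DR_bound (b b' : ℤ) {x y c1 c2 : ℝ} (h1 : x - 1 < c1) (h2 : c2 < y + M.om) :
    ∃ C : ℝ, 0 < C ∧ ∀ ξ : ℂ, c1 ≤ ξ.re → ξ.re ≤ c2 →
      ‖M.D b (ξ - x) * M.R b' (ξ - y)‖ ≤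
        C * Real.exp (2 * π * (y - x) / (M.N * M.om) * max 0 (-ξ.im)) := by
  obtain ⟨C1, hC1⟩ := M.Dup
  obtain ⟨C2, hC2⟩ := M.Ddn
  have hN := M.N_pos
  have hom := M.om_pos
  set κ : ℝ := 2 * π * (y - x) / (M.N * M.om) with hκ
  -- the compact part
  have hK : IsCompact ({z : ℂ | c1 ≤ z.re ∧ z.re ≤ c2 ∧ -1 ≤ z.im ∧ z.im ≤ 1}) := by
    have h : {z : ℂ | c1 ≤ z.re ∧ z.re ≤ c2 ∧ -1 ≤ z.im ∧ z.im ≤ 1} =
        Icc c1 c2 ×ℂ Icc (-1) 1 := by
      ext z
      simp only [mem_setOf_eq, Complex.mem_reProdIm, mem_Icc]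
      tauto
    rw [h]
    exact isCompact_Icc.reProdIm isCompact_Icc
  have hcont : ContinuousOn (fun ξ : ℂ => M.D b (ξ - x) * M.R b' (ξ - y))
      {z : ℂ | c1 ≤ z.re ∧ z.re ≤ c2 ∧ -1 ≤ z.im ∧ z.im ≤ 1} := by
    intro z hz
    apply ContinuousAt.continuousWithinAt
    apply ContinuousAt.mul
    · have h3 : DifferentiableAt ℂ (M.D b) (z - x) := by
        apply M.D_diff
        right
        simp
        linarith [hz.1]
      exact ContinuousAt.comp (f := fun ξ : ℂ => ξ - x) (g := M.D b) h3.continuousAt (by fun_prop)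
    · have h3 : DifferentiableAt ℂ (M.R b') (z - y) := by
        apply M.R_diff
        right
        simp
        linarith [hz.2.1]
      exact ContinuousAt.comp (f := fun ξ : ℂ => ξ - y) (g := M.R b') h3.continuousAt (by fun_prop)
  obtain ⟨C3, hC3⟩ := hK.exists_bound_of_continuousOn hcont
  have hC1' : 0 ≤ C1 := le_trans (norm_nonneg _) (hC1 0 I (by simp)).1
  have hC2' : 0 ≤ C2 := by
    have h3 := (hC2 0 (-I) (by simp)).1
    have h4 : 0 ≤ C2 * Real.exp (π * |(-I).im| * (2 * (-I).re + 1 - M.om) / (M.N * M.om)) :=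
      le_trans (norm_nonneg _) h3
    exact nonneg_of_mul_nonneg_left h4 (Real.exp_pos _)
  refine ⟨C1 * C1 + C2 * C2 + |C3| * Real.exp |κ| + 1, by positivity, fun ξ hξ1 hξ2 => ?_⟩
  have hE := Real.exp_pos (κ * max 0 (-ξ.im))
  rcases le_or_gt 1 ξ.im with h3 | h3
  · -- upper part
    have h4 : max 0 (-ξ.im) = 0 := max_eq_left (by linarith)
    rw [h4, mul_zero, Real.exp_zero, mul_one, norm_mul]
    have h5 := (hC1 b (ξ - x) (by simpa using h3)).1
    have h6 := (hC1 b' (ξ - y) (by simpa using h3)).2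
    have h7 : ‖M.D b (ξ - x)‖ * ‖M.R b' (ξ - y)‖ ≤ C1 * C1 :=
      mul_le_mul h5 h6 (norm_nonneg _) hC1'
    have h8 : 0 ≤ |C3| * Real.exp |κ| := by positivity
    nlinarith [mul_nonneg hC2' hC2']
  · rcases le_or_gt ξ.im (-1) with h4 | h4
    · -- lower part
      have h5 := (hC2 b (ξ - x) (by simpa using h4)).1
      have h6 := (hC2 b' (ξ - y) (by simpa using h4)).2
      have h7 : max 0 (-ξ.im) = |ξ.im| := by
        rw [max_eq_right (by linarith), abs_of_neg (by linarith)]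
      have h8 : (ξ - x).im = ξ.im := by simp
      have h9 : (ξ - y).im = ξ.im := by simp
      have h10 : (ξ - x).re = ξ.re - x := by simp
      have h11 : (ξ - y).re = ξ.re - y := by simp
      rw [h8, h10] at h5
      rw [h9, h11] at h6
      rw [norm_mul]
      have h12 := mul_le_mul h5 h6 (norm_nonneg _) (le_trans (norm_nonneg _) h5)
      have h13 : C2 * Real.exp (π * |ξ.im| * (2 * (ξ.re - x) + 1 - M.om) / (M.N * M.om)) *
          (C2 * Real.exp (-(π * |ξ.im| * (2 * (ξ.re - y) + 1 - M.om) / (M.N * M.om)))) =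
          C2 * C2 * Real.exp (κ * max 0 (-ξ.im)) := by
        rw [h7, mul_mul_mul_comm, ← Real.exp_add]
        congr 2
        rw [hκ]
        field_simp
        ring
      rw [h13] at h12
      refine h12.trans ?_
      apply mul_le_mul_of_nonneg_right _ hE.le
      have h14 : 0 ≤ |C3| * Real.exp |κ| := by positivity
      nlinarith [mul_nonneg hC1' hC1']
    · -- middle part
      have h5 := hC3 ξ ⟨hξ1, hξ2, h4.le, h3.le⟩
      have h6 : 0 ≤ max 0 (-ξ.im) := le_max_left _ _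
      have h7 : max 0 (-ξ.im) ≤ 1 := max_le zero_le_one (by linarith)
      have h8 : -|κ| ≤ κ * max 0 (-ξ.im) := by
        have h9 : |κ * max 0 (-ξ.im)| ≤ |κ| := by
          rw [abs_mul, abs_of_nonneg h6]
          exact mul_le_of_le_one_right (abs_nonneg _) h7
        linarith [neg_abs_le (κ * max 0 (-ξ.im))]
      have h9 : 1 ≤ Real.exp |κ| * Real.exp (κ * max 0 (-ξ.im)) := by
        rw [← Real.exp_add]
        exact Real.one_le_exp (by linarith)
      have h10 : |C3| ≤ |C3| * (Real.exp |κ| * Real.exp (κ * max 0 (-ξ.im))) :=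
        le_mul_of_one_le_right (abs_nonneg _) h9
      have h11 : 0 ≤ (C1 * C1 + C2 * C2 + 1) * Real.exp (κ * max 0 (-ξ.im)) := by positivity
      calc ‖M.D b (ξ - x) * M.R b' (ξ - y)‖ ≤ C3 := h5
        _ ≤ |C3| := le_abs_self _
        _ ≤ |C3| * (Real.exp |κ| * Real.exp (κ * max 0 (-ξ.im))) := h10
        _ ≤ _ := by nlinarith

/-- The absolute value of the exponential factor. -/
theorem norm_e_eta (η ξ : ℂ) : ‖e (-(ξ * η) / (M.N * M.om))‖ =
    Real.exp (2 * π * (ξ.re * η.im + ξ.im * η.re) / (M.N * M.om)) := by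
  rw [FKV_norm_e]
  congr 1
  have h : (-(ξ * η) / ((M.N : ℂ) * M.om)) = (-(ξ * η)) / (((M.N * M.om : ℝ)) : ℂ) := by
    push_cast
    ring
  rw [h, Complex.div_ofReal_im]
  simp
  ring

/-- The bound of the integrand, uniform for `η` in a rectangle. -/
theorem gf_bound (b b' : ℤ) {x y c1 c2 r1 r2 Y : ℝ} (h1 : x - 1 < c1) (h2 : c2 < y + M.om)
    (hr1 : y - x < r1) (hr2 : r2 < 0) :
    ∃ C δ : ℝ, 0 < C ∧ 0 < δ ∧ ∀ η ξ : ℂ, r1 ≤ η.re → η.re ≤ r2 → |η.im| ≤ Y →
      c1 ≤ ξ.re → ξ.re ≤ c2 → ‖M.gf b b' x y η ξ‖ ≤ C * Real.exp (-δ * |ξ.im|) := by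
  obtain ⟨C, hC, hb⟩ := M.DR_bound b b' h1 h2
  have hN := M.N_pos
  have hom := M.om_pos
  have hNom : 0 < (M.N : ℝ) * M.om := mul_pos hN hom
  set δ : ℝ := 2 * π / (M.N * M.om) * min (-r2) (r1 - (y - x)) with hδ
  have hmin : 0 < min (-r2) (r1 - (y - x)) := lt_min (by linarith) (by linarith)
  have hδ0 : 0 < δ := by positivity
  set X : ℝ := max |c1| |c2| with hX
  set E : ℝ := Real.exp (2 * π / (M.N * M.om) * (X * |Y|)) with hE
  refine ⟨C * E, δ, by positivity, hδ0, fun η ξ a1 a2 a3 a4 a5 => ?_⟩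
  have h3 := hb ξ a4 a5
  unfold gf
  rw [norm_mul, M.norm_e_eta]
  have h4 : |ξ.re| ≤ X := by
    rw [abs_le]
    constructor
    · have := neg_abs_le c1
      have := le_max_left |c1| |c2|
      linarith
    · have := le_abs_self c2
      have := le_max_right |c1| |c2|
      linarith
  have h5 : ξ.re * η.im ≤ X * |Y| := by
    calc ξ.re * η.im ≤ |ξ.re * η.im| := le_abs_self _
      _ = |ξ.re| * |η.im| := abs_mul _ _
      _ ≤ X * |Y| := mul_le_mul h4 (a3.trans (le_abs_self Y)) (abs_nonneg _)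
          (le_trans (abs_nonneg _) h4)
  have hp : 0 < 2 * π / (M.N * M.om) := by positivity
  have h6 : 2 * π * (y - x) / (M.N * M.om) * max 0 (-ξ.im) +
      2 * π * (ξ.re * η.im + ξ.im * η.re) / (M.N * M.om) ≤
      2 * π / (M.N * M.om) * (X * |Y|) + -δ * |ξ.im| := by
    have h7 : (y - x) * max 0 (-ξ.im) + ξ.im * η.re ≤ -(min (-r2) (r1 - (y - x)) * |ξ.im|) := by
      rcases le_or_gt 0 ξ.im with h8 | h8
      · rw [max_eq_left (by linarith), abs_of_nonneg h8]
        have h9 := min_le_left (-r2) (r1 - (y - x))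
        nlinarith
      · rw [max_eq_right (by linarith), abs_of_neg h8]
        have h9 := min_le_right (-r2) (r1 - (y - x))
        nlinarith
    have h8 : (y - x) * max 0 (-ξ.im) + (ξ.re * η.im + ξ.im * η.re) ≤
        X * |Y| + -(min (-r2) (r1 - (y - x)) * |ξ.im|) := by linarith
    have h9 := mul_le_mul_of_nonneg_left h8 hp.le
    have h10 : 2 * π * (y - x) / (M.N * M.om) * max 0 (-ξ.im) +
        2 * π * (ξ.re * η.im + ξ.im * η.re) / (M.N * M.om) =
        2 * π / (M.N * M.om) * ((y - x) * max 0 (-ξ.im) + (ξ.re * η.im + ξ.im * η.re)) := by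
      field_simp
    have h11 : 2 * π / (M.N * M.om) * (X * |Y|) + -δ * |ξ.im| =
        2 * π / (M.N * M.om) * (X * |Y| + -(min (-r2) (r1 - (y - x)) * |ξ.im|)) := by
      rw [hδ]
      ring
    rw [h10, h11]
    exact h9
  calc ‖M.D b (ξ - x) * M.R b' (ξ - y)‖ *
        Real.exp (2 * π * (ξ.re * η.im + ξ.im * η.re) / (M.N * M.om))
      ≤ C * Real.exp (2 * π * (y - x) / (M.N * M.om) * max 0 (-ξ.im)) *
        Real.exp (2 * π * (ξ.re * η.im + ξ.im * η.re) / (M.N * M.om)) :=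
        mul_le_mul_of_nonneg_right h3 (Real.exp_pos _).le
    _ = C * Real.exp (2 * π * (y - x) / (M.N * M.om) * max 0 (-ξ.im) +
        2 * π * (ξ.re * η.im + ξ.im * η.re) / (M.N * M.om)) := by rw [mul_assoc, Real.exp_add]
    _ ≤ C * Real.exp (2 * π / (M.N * M.om) * (X * |Y|) + -δ * |ξ.im|) :=
        mul_le_mul_of_nonneg_left (Real.exp_le_exp.2 h6) hC.le
    _ = C * E * Real.exp (-δ * |ξ.im|) := by rw [Real.exp_add, hE, mul_assoc]

theorem gf_diff (b b' : ℤ) {x y : ℝ} (η : ℂ) {ξ : ℂ} (h : ξ.im ≠ 0 ∨ (x - 1 < ξ.re ∧ ξ.re < y + M.om)) :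
    DifferentiableAt ℂ (M.gf b b' x y η) ξ := by
  have h1 : DifferentiableAt ℂ (M.D b) (ξ - x) := by
    apply M.D_diff
    rcases h with h | h
    · left; simpa using h
    · right
      simp
      linarith [h.1]
  have h2 : DifferentiableAt ℂ (M.R b') (ξ - y) := by
    apply M.R_diff
    rcases h with h | h
    · left; simpa using h
    · right
      simp
      linarith [h.2]
  have h3 : DifferentiableAt ℂ (fun ξ : ℂ => M.D b (ξ - x)) ξ :=
    DifferentiableAt.comp (f := fun ξ : ℂ => ξ - x) ξ h1 (by fun_prop)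
  have h4 : DifferentiableAt ℂ (fun ξ : ℂ => M.R b' (ξ - y)) ξ :=
    DifferentiableAt.comp (f := fun ξ : ℂ => ξ - y) ξ h2 (by fun_prop)
  have h5 : DifferentiableAt ℂ (fun ξ : ℂ => e (-(ξ * η) / (M.N * M.om))) ξ := by
    unfold e
    fun_prop
  unfold gf
  exact (h3.mul h4).mul h5

/-- The integral does not depend on the line. -/
theorem J_shift_le (b b' : ℤ) {x y s s' : ℝ} {η : ℂ} (h1 : y - x < η.re) (h2 : η.re < 0)
    (hs1 : x - 1 < s) (hss : s ≤ s') (hs2' : s' < y + M.om) :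
    M.J b b' x y η s = M.J b b' x y η s' := by
  obtain ⟨C, δ, hC, hδ, hb⟩ := M.gf_bound b b' (c1 := s) (c2 := s') (r1 := η.re) (r2 := η.re)
    (Y := |η.im|) hs1 hs2' h1 h2
  exact vertical_shift (f := M.gf b b' x y η) hss hδ
    (fun z hz1 hz2 => M.gf_diff b b' η (Or.inr ⟨by linarith, by linarith⟩))
    (fun z hz1 hz2 => hb η z le_rfl le_rfl le_rfl hz1 hz2)

/-- The integral does not depend on the line. -/
theorem J_shift (b b' : ℤ) {x y s s' : ℝ} {η : ℂ} (h1 : y - x < η.re) (h2 : η.re < 0)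
    (hs1 : x - 1 < s) (hs2 : s < y + M.om) (hs1' : x - 1 < s') (hs2' : s' < y + M.om) :
    M.J b b' x y η s = M.J b b' x y η s' := by
  rcases le_total s s' with h | h
  · exact M.J_shift_le b b' h1 h2 hs1 h hs2'
  · exact (M.J_shift_le b b' h1 h2 hs1' h hs2).symm

theorem gf_integrable (b b' : ℤ) {x y s : ℝ} {η : ℂ} (h1 : y - x < η.re) (h2 : η.re < 0)
    (hs1 : x - 1 < s) (hs2 : s < y + M.om) :
    Integrable (fun t : ℝ => M.gf b b' x y η (s + t * I)) := by
  obtain ⟨C, δ, hC, hδ, hb⟩ := M.gf_bound b b' (c1 := s) (c2 := s) (r1 := η.re) (r2 := η.re)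
    (Y := |η.im|) hs1 hs2 h1 h2
  have hre : ∀ t : ℝ, ((s : ℂ) + t * I).re = s := fun t => by simp
  have him : ∀ t : ℝ, ((s : ℂ) + t * I).im = t := fun t => by simp
  refine CSHIFT_integrable (A := C) hδ ?_ ?_
  · rw [continuous_iff_continuousAt]
    intro t
    have h3 := (M.gf_diff b b' (x := x) (y := y) η (ξ := s + t * I)
      (Or.inr ⟨by rw [hre]; linarith, by rw [hre]; linarith⟩)).continuousAt
    exact ContinuousAt.comp (f := fun t : ℝ => ((s : ℂ) + t * I)) (g := M.gf b b' x y η) h3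
      (by fun_prop)
  · intro t
    have := hb η (s + t * I) le_rfl le_rfl le_rfl (by rw [hre]) (by rw [hre])
    rwa [him] at this

end LensF

end Zau
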