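import Pool.Agent.Lib_MP_1c78a5_ghost.BStrip
import Pool.Agent.Lib_MP_1c78a5_ghost.CShift

/-!
# The FKV formula (note 14 section 4): abstract data and definitions

`LensF` lists exactly what is used of the level `N` lens double sine `D_b (ξ)` and of its analytic
inverse `R_b (ξ) = 1 / D_b (ξ)`.
-/

open Complex MeasureTheory Set Filter Topology
open scoped Real ComplexConjugate

namespace Zau

open Ghost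

/-- The lens double sine of level `N`, abstractly. -/
structure LensF where
  N : ℕ
  A : ℤ
  B : ℤ
  U : ℤ
  om : ℝ
  hN : 0 < N
  hdet : B * N = A * U + 1
  hom : 1 < om
  hirr : Irrational om
  htr : om + om⁻¹ = A - U
  D : ℤ → ℂ → ℂ
  R : ℤ → ℂ → ℂ
  D_per : ∀ b ξ, D (b + N) ξ = D b ξ
  R_per : ∀ b ξ, R (b + N) ξ = R b ξ
  D_diff : ∀ b ξ, (ξ.im ≠ 0 ∨ -1 < ξ.re) → DifferentiableAt ℂ (D b) ξ
  R_diff : ∀ b ξ, (ξ.im ≠ 0 ∨ ξ.re < om) → DifferentiableAt ℂ (R b) ξ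
  DR : ∀ b ξ, (ξ.im ≠ 0 ∨ (-1 < ξ.re ∧ ξ.re < om)) → D b ξ * R b ξ = 1
  D2 : ∀ (b : ℤ) (ξ : ℂ), (ξ.im ≠ 0 ∨ 0 < ξ.re) →
    D (b + 1) (ξ - 1) * (1 - e (ξ / (N * om) + A * b / N)) = D b ξ
  R2 : ∀ (b : ℤ) (ξ : ℂ), (ξ.im ≠ 0 ∨ ξ.re < om) →
    R (b + 1) (ξ - 1) = R b ξ * (1 - e (ξ / (N * om) + A * b / N))
  D3 : ∀ (b : ℤ) (ξ : ℂ), (ξ.im ≠ 0 ∨ -1 < ξ.re) →
    D (b + U) (ξ + om) = D b ξ * (1 - e ((ξ + b) / N))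
  R3 : ∀ (b : ℤ) (ξ : ℂ), (ξ.im ≠ 0 ∨ ξ.re < 0) →
    R (b + U) (ξ + om) * (1 - e ((ξ + b) / N)) = R b ξ
  Dup : ∃ C : ℝ, ∀ (b : ℤ) (ξ : ℂ), 1 ≤ ξ.im → ‖D b ξ‖ ≤ C ∧ ‖R b ξ‖ ≤ C
  Dlim : ∀ ε : ℝ, 0 < ε → ∃ T : ℝ, ∀ (b : ℤ) (ξ : ℂ), T ≤ ξ.im →
    ‖D b ξ - 1‖ < ε ∧ ‖R b ξ - 1‖ < ε
  Ddn : ∃ C : ℝ, ∀ (b : ℤ) (ξ : ℂ), ξ.im ≤ -1 →
    ‖D b ξ‖ ≤ C * Real.exp (π * |ξ.im| * (2 * ξ.re + 1 - om) / (N * om)) ∧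
    ‖R b ξ‖ ≤ C * Real.exp (-(π * |ξ.im| * (2 * ξ.re + 1 - om) / (N * om)))

namespace LensF

variable (M : LensF)

/-- `U_L (ξ, b) = e ((ξ + b) / N)`. -/
noncomputable def UL (b : ℤ) (ξ : ℂ) : ℂ := e ((ξ + b) / M.N)

/-- `U_R (ξ, b) = e (ξ / (N ω) + A b / N)`. -/
noncomputable def UR (b : ℤ) (ξ : ℂ) : ℂ := e (ξ / (M.N * M.om) + M.A * b / M.N)

/-- The characters `χ_{η,c} (ξ, b) = e (- ξ η / (N ω) + A b c / N)`. -/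
noncomputable def ch (η : ℂ) (c b : ℤ) (ξ : ℂ) : ℂ :=
  e (-(ξ * η) / (M.N * M.om) + M.A * b * c / M.N)

/-- The general integrand `D_b (ξ - x) R_{b'} (ξ - y) e (- ξ η / (N ω))`. -/
noncomputable def gf (b b' : ℤ) (x y : ℝ) (η : ℂ) (ξ : ℂ) : ℂ :=
  M.D b (ξ - x) * M.R b' (ξ - y) * e (-(ξ * η) / (M.N * M.om))

/-- The integral over the vertical line `Re ξ = s`. -/
noncomputable def J (b b' : ℤ) (x y : ℝ) (η : ℂ) (s : ℝ) : ℂ :=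
  ∫ t : ℝ, M.gf b b' x y η (s + t * I)

/-- The sum over the residues modulo `N`. -/
noncomputable def psum (g : ℤ → ℂ) : ℂ := ∑ b ∈ Finset.range M.N, g b

/-- The integral of the FKV formula:
`∑_b ∫_{Re ξ = s} D_{b+1} (ξ - 1) / D_{b-k+U} (ξ - a + ω) χ_{η,c} (ξ, b)`. -/
noncomputable def Ik (a : ℝ) (k : ℤ) (η : ℂ) (c : ℤ) (s : ℝ) : ℂ :=
  M.psum fun b => e (M.A * b * c / M.N) * M.J (b + 1) (b - k + M.U) 1 (a - M.om) η s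

/-- The right side of the FKV formula. -/
noncomputable def Rk (a : ℝ) (k : ℤ) (η : ℂ) (c : ℤ) : ℂ :=
  I * M.N * M.om * M.D 0 0 * M.R (M.U - k) (M.om - a) *
    (M.D (c + M.U - k) (η + M.om - a) * M.R (c + M.U) (η + M.om))

end LensF

end Zau
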