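import Pool.Agent.Lib_zau.FkvBd

/-!
# FKV formula, piece P3: the integral is holomorphic in `η`

Owner: helper64.
-/

open Complex MeasureTheory Set Filter Topology
open scoped Real ComplexConjugate

namespace Zau

open Ghost

namespace LensF

variable (M : LensF)

/-- Differentiation under the integral sign (`hasDerivAt_integral_of_dominated_loc_of_deriv_le`), the
bound is `gf_bound` (uniform for `η` in a rectangle) times `2 π ‖ξ‖ / (N om) ≤ C (1 + |t|)`. -/
theorem J_diff (b b' : ℤ) {x y s : ℝ} {η : ℂ} (h1 : y - x < η.re) (h2 : η.re < 0)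
    (hs1 : x - 1 < s) (hs2 : s < y + M.om) :
    DifferentiableAt ℂ (fun η : ℂ => M.J b b' x y η s) η := by
  have hN := M.N_pos
  have hom := M.om_pos
  have hNom : 0 < (M.N : ℝ) * M.om := mul_pos hN hom
  have hre : ∀ t : ℝ, ((s : ℂ) + t * I).re = s := fun t => by simp
  have him : ∀ t : ℝ, ((s : ℂ) + t * I).im = t := fun t => by simp
  obtain ⟨r1, hr1, hr1'⟩ := exists_between h1
  obtain ⟨r2, hr2', hr2⟩ := exists_between h2
  obtain ⟨C, δ, hC, hδ, hb⟩ := M.gf_bound b b' (c1 := s) (c2 := s) (r1 := r1) (r2 := r2)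
    (Y := |η.im| + 1) hs1 hs2 hr1 hr2
  -- the neighbourhood
  have hnb : {w : ℂ | r1 ≤ w.re ∧ w.re ≤ r2 ∧ |w.im| ≤ |η.im| + 1} ∈ 𝓝 η := by
    have a1 : ∀ᶠ w : ℂ in 𝓝 η, r1 < w.re :=
      (Complex.continuous_re.continuousAt).eventually (lt_mem_nhds hr1')
    have a2 : ∀ᶠ w : ℂ in 𝓝 η, w.re < r2 :=
      (Complex.continuous_re.continuousAt).eventually (gt_mem_nhds hr2')
    have a3 : ∀ᶠ w : ℂ in 𝓝 η, |w.im| < |η.im| + 1 :=
      (Complex.continuous_im.abs.continuousAt (x := η)).eventually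
        (gt_mem_nhds (by linarith))
    filter_upwards [a1, a2, a3] with w c1 c2 c3
    exact ⟨c1.le, c2.le, c3.le⟩
  set F' : ℂ → ℝ → ℂ := fun w t =>
    M.gf b b' x y w (s + t * I) * (-(2 * π * I * (s + t * I)) / (M.N * M.om)) with hF'
  have hcont : ∀ w : ℂ, Continuous (fun t : ℝ => M.gf b b' x y w (s + t * I)) := by
    intro w
    rw [continuous_iff_continuousAt]
    intro t
    have h3 := (M.gf_diff b b' (x := x) (y := y) w (ξ := s + t * I)
      (Or.inr ⟨by rw [hre]; linarith, by rw [hre]; linarith⟩)).continuousAt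
    exact ContinuousAt.comp (f := fun t : ℝ => ((s : ℂ) + t * I)) (g := M.gf b b' x y w) h3
      (by fun_prop)
  have hbd : ∀ t : ℝ, |s| + |t| ≤ (|s| + 2 / δ) * Real.exp (δ / 2 * |t|) := by
    intro t
    have c1 : δ / 2 * |t| + 1 ≤ Real.exp (δ / 2 * |t|) := Real.add_one_le_exp _
    have c2 : 0 ≤ |t| := abs_nonneg t
    have c3 : 0 ≤ |s| := abs_nonneg s
    have c4 : 0 < 2 / δ := by positivity
    have c5 : |t| = 2 / δ * (δ / 2 * |t|) := by field_simp
    have c6 : 0 ≤ δ / 2 * |t| := by positivity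
    have c7 : |t| ≤ 2 / δ * Real.exp (δ / 2 * |t|) := by
      calc |t| = 2 / δ * (δ / 2 * |t|) := c5
        _ ≤ 2 / δ * Real.exp (δ / 2 * |t|) := mul_le_mul_of_nonneg_left (by linarith) c4.le
    have c8 : |s| * 1 ≤ |s| * Real.exp (δ / 2 * |t|) :=
      mul_le_mul_of_nonneg_left (by linarith) c3
    linarith
  set K : ℝ := C * (2 * π / (M.N * M.om)) * (|s| + 2 / δ) with hK
  have hbound : ∀ t : ℝ, ∀ w ∈ {w : ℂ | r1 ≤ w.re ∧ w.re ≤ r2 ∧ |w.im| ≤ |η.im| + 1},
      ‖F' w t‖ ≤ K * Real.exp (-(δ / 2) * |t|) := by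
    intro t w hw
    have c1 := hb w (s + t * I) hw.1 hw.2.1 hw.2.2 (by rw [hre]) (by rw [hre])
    rw [him] at c1
    have c2 : ‖(-(2 * π * I * (s + t * I)) / ((M.N : ℂ) * M.om))‖ =
        2 * π / (M.N * M.om) * ‖(s + t * I : ℂ)‖ := by
      rw [norm_div, norm_neg, norm_mul, norm_mul, norm_mul, norm_mul]
      rw [Complex.norm_I, Complex.norm_natCast, Complex.norm_real, Complex.norm_real,
        Real.norm_of_nonneg Real.pi_pos.le, Real.norm_of_nonneg hom.le]
      norm_num
      ring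
    have c3 : ‖(s + t * I : ℂ)‖ ≤ |s| + |t| := by
      refine (norm_add_le _ _).trans ?_
      rw [norm_mul, Complex.norm_I, Complex.norm_real, Complex.norm_real, mul_one,
        Real.norm_eq_abs, Real.norm_eq_abs]
    have c4 : 0 < 2 * π / (M.N * M.om) := by positivity
    have c5 : ‖(s + t * I : ℂ)‖ ≤ (|s| + 2 / δ) * Real.exp (δ / 2 * |t|) := c3.trans (hbd t)
    rw [hF']
    beta_reduce
    rw [norm_mul, c2]
    calc ‖M.gf b b' x y w (s + t * I)‖ * (2 * π / (M.N * M.om) * ‖(s + t * I : ℂ)‖)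
        ≤ (C * Real.exp (-δ * |t|)) *
          (2 * π / (M.N * M.om) * ((|s| + 2 / δ) * Real.exp (δ / 2 * |t|))) := by
          apply mul_le_mul c1 (mul_le_mul_of_nonneg_left c5 c4.le) (by positivity) (by positivity)
      _ = K * (Real.exp (-δ * |t|) * Real.exp (δ / 2 * |t|)) := by rw [hK]; ring
      _ = K * Real.exp (-(δ / 2) * |t|) := by
          rw [← Real.exp_add]
          congr 2
          ring
  have hKint : Integrable (fun t : ℝ => K * Real.exp (-(δ / 2) * |t|)) := by
    have c1 : Integrable (fun t : ℝ => ((Real.exp (-(δ / 2) * |t|) : ℝ) : ℂ)) := by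
      refine CSHIFT_integrable (A := 1) (c := δ / 2) (by positivity) (by fun_prop) ?_
      intro t
      rw [Complex.norm_real, Real.norm_of_nonneg (Real.exp_pos _).le, one_mul]
    have c2 := c1.re
    simp only [Complex.ofReal_re, RCLike.re_eq_complex_re] at c2
    exact c2.const_mul K
  have hder : ∀ t : ℝ, ∀ w ∈ {w : ℂ | r1 ≤ w.re ∧ w.re ≤ r2 ∧ |w.im| ≤ |η.im| + 1},
      HasDerivAt (fun w => M.gf b b' x y w (s + t * I)) (F' w t) w := by
    intro t w hw
    rw [hF']
    unfold gf e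
    beta_reduce
    have c1 : HasDerivAt (fun w : ℂ => 2 * π * I * (-((s + t * I) * w) / (M.N * M.om)))
        (-(2 * π * I * (s + t * I)) / (M.N * M.om)) w := by
      have c2 : (fun w : ℂ => 2 * π * I * (-((s + t * I) * w) / (M.N * M.om))) =
          fun w : ℂ => (-(2 * π * I * (s + t * I)) / (M.N * M.om)) * w := by
        funext w
        ring
      rw [c2]
      simpa using (hasDerivAt_id w).const_mul (-(2 * π * I * (s + t * I)) / ((M.N : ℂ) * M.om))
    have c3 := (c1.cexp).const_mul (M.D b (s + t * I - x) * M.R b' (s + t * I - y))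
    refine c3.congr_deriv ?_
    ring
  have hmain := hasDerivAt_integral_of_dominated_loc_of_deriv_le (μ := volume) (𝕜 := ℂ)
    (F := fun w t => M.gf b b' x y w (s + t * I)) (F' := F') (x₀ := η)
    (bound := fun t => K * Real.exp (-(δ / 2) * |t|)) hnb
    (Eventually.of_forall fun w => (hcont w).aestronglyMeasurable)
    (M.gf_integrable b b' h1 h2 hs1 hs2)
    (by
      apply Continuous.aestronglyMeasurable
      rw [hF']
      exact (hcont η).mul (by fun_prop))
    (Eventually.of_forall hbound) hKint (Eventually.of_forall hder)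
  exact hmain.2.differentiableAt

end LensF

end Zau
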