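import Pool.Agent.Lib_zau.LensMk
import Pool.Agent.Lib_zau.FkvDef

/-!
# The instance of `Zau.LensF`
-/

open Complex MeasureTheory Set Filter Topology
open scoped Real ComplexConjugate

namespace Zau

open Ghost

/-- A `Lens` is a `LensF`. -/
noncomputable def Lens.toF (L : Lens) : LensF :=
  have hU : IsU (L.P.b ^ 2) := isU_of_par L.hub L.htr
  have hc : ((L.P.b ^ 2 : ℝ) : ℂ) = (L.P.b : ℂ) ^ 2 := by push_cast; rfl
  { N := L.N
    A := L.A
    B := L.B
    U := L.U
    om := L.P.b ^ 2
    hN := L.hN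
    hdet := L.hdet
    hom := hU.one_lt
    hirr := hU.irrational
    htr := by
      have h1 := L.P.hbo
      have h2 : (L.P.b ^ 2)⁻¹ = L.P.o ^ 2 := by
        refine (eq_inv_of_mul_eq_one_left ?_).symm
        calc L.P.o ^ 2 * L.P.b ^ 2 = (L.P.b * L.P.o) ^ 2 := by ring
          _ = 1 := by rw [h1]; norm_num
      rw [h2, L.htr]
      push_cast
      ring
    D := L.D
    R := L.R
    D_per := L.D_per
    R_per := L.R_per
    D_diff := L.D_diff
    R_diff := L.R_diff
    DR := L.DR
    D2 := fun b x hx => by rw [hc]; exact L.D2 b x hx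
    R2 := fun b x hx => by rw [hc]; exact L.R2 b x hx
    D3 := fun b x hx => by rw [hc]; exact L.D3 b x hx
    R3 := fun b x hx => by rw [hc]; exact L.R3 b x hx
    Dup := L.Dup
    Dlim := L.Dlim
    Ddn := L.Ddn }

theorem Lens.toF_D (L : Lens) : L.toF.D = L.D := rfl

theorem Lens.toF_R (L : Lens) : L.toF.R = L.R := rfl

theorem Lens.toF_om (L : Lens) : L.toF.om = L.P.b ^ 2 := rfl

theorem Lens.toF_N (L : Lens) : L.toF.N = L.N := rfl

end Zau
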