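import Pool.Agent.Lib_zau.FkvMain
import Pool.Agent.Lib_zau.LensMk2

/-!
# The FKV formula for `Zau.Lens`

Owner: helper85.
-/

open Complex MeasureTheory Set Filter Topology
open scoped Real ComplexConjugate

namespace Zau

open Ghost

namespace Lens

theorem f_chi_eq (L : Lens) (a : ℝ) (k : ℤ) (η : ℂ) (c b : ℤ) (ξ : ℂ) :
    L.f a k ξ b * L.chi η c ξ b =
      e (L.A * b * c / L.N) * L.toF.gf (b + 1) (b - k + L.U) 1 (a - L.om) η ξ := by
  have h1 : ξ - ((1 : ℝ) : ℂ) = ξ - 1 := by simp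
  have h2 : ξ - ((a - L.om : ℝ) : ℂ) = ξ - a + L.om := by
    push_cast
    ring
  have h3 : e (-(ξ * η) / ((L.N : ℂ) * (L.om : ℂ)) + L.A * b * c / L.N) =
      e (-(ξ * η) / ((L.N : ℂ) * (L.om : ℂ))) * e (L.A * b * c / L.N) := FKV_e_add _ _
  unfold f chi LensF.gf
  rw [h3, h1, h2]
  change _ = e (L.A * b * c / L.N) * (L.D (b + 1) (ξ - 1) * L.R (b - k + L.U) (ξ - a + L.om) *
    e (-(ξ * η) / ((L.N : ℂ) * (L.om : ℂ))))
  ring

/-- The FKV formula. -/
theorem FKV (L : Lens) {a : ℝ} (ha0 : 0 < a) (ha : a < L.om) (hint : ∀ n : ℤ, a ≠ n) (k c : ℤ)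
    {η : ℂ} (h1 : -(L.om + 1 - a) < η.re) (h2 : η.re < 0) {x0 : ℝ} (h0 : 0 < x0) (hs : x0 < a) :
    (∀ b : ℤ, Integrable fun t : ℝ => L.f a k (x0 + t * I) b * L.chi η c (x0 + t * I) b) ∧
    L.II a k η c x0 = I * L.N * L.om * L.D 0 0 * L.D (c + L.U - k) (η + L.om - a) *
      L.R (L.U - k) (L.om - a) * L.R (c + L.U) (η + L.om) := by
  have hF := L.toF.fkv ha0 (by exact ha) hint k c (η := η) (by exact h1) h2 h0 hs
  constructor
  · intro b
    have h3 := L.toF.gf_integrable (b + 1) (b - k + L.U) (x := 1) (y := a - L.om) (s := x0) (η := η)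
      (by linarith) h2 (by linarith) (by
        have : L.toF.om = L.om := rfl
        rw [this]
        linarith)
    have h4 := h3.const_mul (e (L.A * b * c / L.N))
    refine h4.congr (Eventually.of_forall fun t => ?_)
    exact (L.f_chi_eq a k η c b (x0 + t * I)).symm
  · have h5 : L.II a k η c x0 = L.toF.Ik a k η c x0 := by
      unfold II LensF.Ik LensF.psum
      apply Finset.sum_congr rfl
      intro b _
      unfold LensF.J
      beta_reduce
      rw [← MeasureTheory.integral_const_mul]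
      congr 1
      funext t
      have := L.f_chi_eq a k η c b (x0 + t * I)
      rw [this]
      rfl
    rw [h5, hF]
    unfold LensF.Rk
    change I * L.N * (L.om : ℂ) * L.D 0 0 * L.R (L.U - k) ((L.om : ℂ) - a) *
      (L.D (c + L.U - k) (η + (L.om : ℂ) - a) * L.R (c + L.U) (η + (L.om : ℂ))) = _
    ring

end Lens

end Zau
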