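import Pool.Agent.Lib_zau.FkvBd

/-!
# FKV formula, piece P4: the behaviour for `η → 0`

Owner: helper40.
-/

open Complex MeasureTheory Set Filter Topology
open scoped Real ComplexConjugate

namespace Zau

open Ghost

theorem bdd_of_tendsto_atTop {f : ℝ → ℂ} (hf : Continuous f) {l : ℂ}
    (hup : Tendsto f atTop (𝓝 l)) : ∃ K : ℝ, ∀ t : ℝ, 0 ≤ t → ‖f t‖ ≤ K := by
  have h1 : ∀ᶠ t in atTop, ‖f t‖ < ‖l‖ + 1 :=
    hup.norm.eventually (gt_mem_nhds (by linarith))
  obtain ⟨T, hT⟩ := eventually_atTop.1 h1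
  obtain ⟨K, hK⟩ := (isCompact_Icc (a := (0 : ℝ)) (b := T)).exists_bound_of_continuousOn
    hf.continuousOn
  refine ⟨max K (‖l‖ + 1), fun t ht => ?_⟩
  rcases le_total t T with h | h
  · exact (hK t ⟨ht, h⟩).trans (le_max_left _ _)
  · exact (hT t h).le.trans (le_max_right _ _)

/-- Abelian limit. Substitute `t = u / ε`: on `t > 0` the integral times `ε` is
`∫_{u > 0} f (u / ε) exp (- lam u) du → ∫_{u > 0} exp (- lam u) du = 1 / lam` by dominated convergence
(`f` is bounded on `[0, ∞)`); on `t < 0` the integral is bounded for `lam ε < δ / 2`. -/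
theorem fkv_abel {f : ℝ → ℂ} (hf : Continuous f) (hup : Tendsto f atTop (𝓝 1)) {C δ : ℝ} (hδ : 0 < δ)
    (hdn : ∀ t : ℝ, t ≤ 0 → ‖f t‖ ≤ C * Real.exp (δ * t)) {lam : ℝ} (hlam : 0 < lam) :
    Tendsto (fun ε : ℝ => (ε : ℂ) * ∫ t : ℝ, f t * Complex.exp (-(lam * ε * t))) (𝓝[>] 0)
      (𝓝 (1 / lam)) := by
  obtain ⟨K, hK⟩ := bdd_of_tendsto_atTop hf hup
  have hC : 0 ≤ C := by
    have := hdn 0 le_rfl
    simp at this
    exact (norm_nonneg _).trans this
  have hK0 : 0 ≤ K := (norm_nonneg _).trans (hK 0 le_rfl)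
  -- the substitution
  have hsub : ∀ ε : ℝ, 0 < ε → (ε : ℂ) * ∫ t : ℝ, f t * Complex.exp (-(lam * ε * t)) =
      ∫ u : ℝ, f (u / ε) * Complex.exp (-(lam * u)) := by
    intro ε hε
    have h := MeasureTheory.Measure.integral_comp_div
      (fun t : ℝ => f t * Complex.exp (-(lam * ε * t))) ε
    rw [abs_of_pos hε, Complex.real_smul] at h
    rw [← h]
    refine integral_congr_ae (Eventually.of_forall fun u => ?_)
    have hε' : (ε : ℂ) ≠ 0 := by exact_mod_cast hε.ne'
    have h2 : (lam : ℂ) * ε * ((u / ε : ℝ) : ℂ) = lam * u := by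
      push_cast
      field_simp
    simp only [h2]
  have hnexp : ∀ u : ℝ, ‖Complex.exp (-((lam : ℂ) * u))‖ = Real.exp (-(lam * u)) := by
    intro u
    rw [Complex.norm_exp]
    congr 1
    simp
  have hlim0 : (∫ u : ℝ, (Ioi (0 : ℝ)).indicator (fun u : ℝ => Complex.exp (-((lam : ℂ) * u))) u) =
      1 / (lam : ℂ) := by
    rw [integral_indicator measurableSet_Ioi]
    have h := integral_exp_mul_complex_Ioi (a := -(lam : ℂ)) (by simpa using hlam) 0
    have h2 : ∀ u : ℝ, Complex.exp (-((lam : ℂ) * u)) = Complex.exp (-(lam : ℂ) * u) := by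
      intro u
      rw [neg_mul]
    simp only [h2]
    rw [h]
    simp
  rw [← hlim0]
  have hmain : Tendsto (fun ε : ℝ => ∫ u : ℝ, f (u / ε) * Complex.exp (-(lam * u))) (𝓝[>] 0)
      (𝓝 (∫ u : ℝ, (Ioi (0 : ℝ)).indicator (fun u : ℝ => Complex.exp (-((lam : ℂ) * u))) u)) := by
    refine tendsto_integral_filter_of_dominated_convergence
      (fun u : ℝ => (K + C) * Real.exp (-lam * |u|)) ?_ ?_ ?_ ?_
    · refine Eventually.of_forall fun ε => ?_
      refine Continuous.aestronglyMeasurable ?_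
      exact (hf.comp (continuous_id.div_const ε)).mul (by fun_prop)
    · have hev : ∀ᶠ ε : ℝ in 𝓝[>] 0, 0 < ε ∧ ε < δ / (2 * lam) := by
        have h1 : Ioo (0 : ℝ) (δ / (2 * lam)) ∈ 𝓝[>] (0 : ℝ) :=
          Ioo_mem_nhdsGT (by positivity)
        filter_upwards [h1] with ε hε
        exact hε
      filter_upwards [hev] with ε hε
      refine Eventually.of_forall fun u => ?_
      rw [norm_mul, hnexp]
      rcases le_total 0 u with hu | hu
      · have h1 := hK (u / ε) (div_nonneg hu hε.1.le)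
        have h2 : Real.exp (-lam * |u|) = Real.exp (-(lam * u)) := by
          rw [abs_of_nonneg hu, neg_mul]
        rw [h2]
        exact mul_le_mul_of_nonneg_right (by linarith) (Real.exp_pos _).le
      · have h1 := hdn (u / ε) (div_nonpos_of_nonpos_of_nonneg hu hε.1.le)
        have h2 : Real.exp (-lam * |u|) = Real.exp (lam * u) := by
          rw [abs_of_nonpos hu]
          congr 1
          ring
        have h3 : Real.exp (δ * (u / ε)) * Real.exp (-(lam * u)) ≤ Real.exp (lam * u) := by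
          rw [← Real.exp_add]
          refine Real.exp_le_exp.2 ?_
          have h4 : 2 * lam ≤ δ / ε := by
            rw [le_div_iff₀ hε.1]
            have := hε.2
            rw [lt_div_iff₀ (by positivity)] at this
            linarith
          have h5 : δ * (u / ε) = δ / ε * u := by ring
          rw [h5]
          nlinarith
        rw [h2]
        calc ‖f (u / ε)‖ * Real.exp (-(lam * u))
            ≤ C * Real.exp (δ * (u / ε)) * Real.exp (-(lam * u)) :=
              mul_le_mul_of_nonneg_right h1 (Real.exp_pos _).le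
          _ = C * (Real.exp (δ * (u / ε)) * Real.exp (-(lam * u))) := by ring
          _ ≤ C * Real.exp (lam * u) := mul_le_mul_of_nonneg_left h3 hC
          _ ≤ (K + C) * Real.exp (lam * u) :=
              mul_le_mul_of_nonneg_right (by linarith) (Real.exp_pos _).le
    · have h := CSHIFT_integrable (f := fun u : ℝ => ((((K + C) * Real.exp (-lam * |u|)) : ℝ) : ℂ))
        (A := K + C) hlam (by fun_prop) (by
          intro y
          rw [Complex.norm_real, Real.norm_eq_abs,
            abs_of_nonneg (mul_nonneg (by linarith) (Real.exp_pos _).le)])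
      exact h.re.congr (Eventually.of_forall fun u => Complex.ofReal_re _)
    · have hne : ∀ᵐ u : ℝ, u ≠ 0 := by
        have h1 : (volume : Measure ℝ) {0} = 0 := by simp
        exact measure_eq_zero_iff_ae_notMem.1 h1 |>.mono fun u hu => by simpa using hu
      filter_upwards [hne] with u hu
      rcases lt_or_gt_of_ne hu with hu | hu
      · rw [indicator_of_notMem (by simp; linarith)]
        have h1 : Tendsto (fun ε : ℝ => C * Real.exp (δ * (u / ε)) * Real.exp (-(lam * u)))
            (𝓝[>] 0) (𝓝 0) := by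
          have h2 : Tendsto (fun ε : ℝ => u / ε) (𝓝[>] 0) atBot := by
            have h3 := (tendsto_inv_nhdsGT_zero (𝕜 := ℝ)).const_mul_atTop_of_neg hu
            exact h3.congr fun ε => by rw [div_eq_mul_inv]
          have h3 : Tendsto (fun ε : ℝ => Real.exp (δ * (u / ε))) (𝓝[>] 0) (𝓝 0) :=
            Real.tendsto_exp_atBot.comp (h2.const_mul_atBot hδ)
          have h4 := (h3.const_mul C).mul_const (Real.exp (-(lam * u)))
          simpa using h4
        refine squeeze_zero_norm' ?_ h1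
        filter_upwards [self_mem_nhdsWithin] with ε hε
        have hε' : (0 : ℝ) < ε := hε
        rw [norm_mul, hnexp]
        exact mul_le_mul_of_nonneg_right
          (hdn (u / ε) (div_nonpos_of_nonpos_of_nonneg hu.le hε'.le)) (Real.exp_pos _).le
      · rw [indicator_of_mem (by simpa using hu)]
        have h2 : Tendsto (fun ε : ℝ => u / ε) (𝓝[>] 0) atTop := by
          have h3 := (tendsto_inv_nhdsGT_zero (𝕜 := ℝ)).const_mul_atTop hu
          exact h3.congr fun ε => by rw [div_eq_mul_inv]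
        have h3 := (hup.comp h2).mul_const (Complex.exp (-((lam : ℂ) * u)))
        rw [one_mul] at h3
        exact h3
  refine hmain.congr' ?_
  filter_upwards [self_mem_nhdsWithin] with ε hε
  exact (hsub ε hε).symm

namespace LensF

variable (M : LensF)

/-- For `η = - ε → 0-` and `c = 0` the integral `Ik` is `~ N (N om / (2 π ε))`: in every summand
`f t = D_{b+1} (s + i t - 1) R_{b-k+U} (s + i t - a + om)` tends to `1` for `t → ∞` (`Dlim`) and is bounded by
`C exp (2 π (om + 1 - a) t / (N om))` for `t ≤ 0` (`Ddn` for `t ≤ -1`, continuity on `[-1, 0]`), and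
`e (- (s + i t) (- ε) / (N om)) = e (s ε / (N om)) exp (- 2 π ε t / (N om))`; use `fkv_abel` with
`lam = 2 π / (N om)`. -/
theorem Ik_lim {a s : ℝ} (h0 : 0 < s) (hs : s < a) (ha : a < M.om) (k : ℤ) :
    Tendsto (fun ε : ℝ => (ε : ℂ) * M.Ik a k (-(ε : ℂ)) 0 s) (𝓝[>] 0)
      (𝓝 (M.N * (M.N * M.om / (2 * π)))) := by
  have hN := M.N_pos
  have hom := M.om_pos
  have hNC := M.N_ne
  have homC := M.om_ne
  have hpi : (π : ℂ) ≠ 0 := by exact_mod_cast Real.pi_ne_zero
  obtain ⟨lam, hlam⟩ : ∃ lam : ℝ, lam = 2 * π / (M.N * M.om) := ⟨_, rfl⟩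
  have hlam0 : 0 < lam := by rw [hlam]; positivity
  have hre : ∀ t : ℝ, ((s : ℂ) + t * I).re = s := fun t => by simp
  have him : ∀ t : ℝ, ((s : ℂ) + t * I).im = t := fun t => by simp
  -- one summand
  have hone : ∀ b : ℤ, Tendsto (fun ε : ℝ => (ε : ℂ) *
      M.J (b + 1) (b - k + M.U) 1 (a - M.om) (-(ε : ℂ)) s) (𝓝[>] 0)
      (𝓝 (M.N * M.om / (2 * π))) := by
    intro b
    obtain ⟨f, hfdef⟩ : ∃ f : ℝ → ℂ, f = fun t : ℝ =>
        M.D (b + 1) (s + t * I - (1 : ℝ)) * M.R (b - k + M.U) (s + t * I - ((a - M.om : ℝ) : ℂ)) :=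
      ⟨_, rfl⟩
    have hfc : Continuous f := by
      rw [hfdef, continuous_iff_continuousAt]
      intro t
      have h1 : ContinuousAt (M.D (b + 1)) ((s : ℂ) + t * I - (1 : ℝ)) := by
        refine (M.D_diff _ _ (Or.inr ?_)).continuousAt
        rw [Complex.sub_re, hre, Complex.ofReal_re]
        linarith
      have h2 : ContinuousAt (M.R (b - k + M.U)) ((s : ℂ) + t * I - ((a - M.om : ℝ) : ℂ)) := by
        refine (M.R_diff _ _ (Or.inr ?_)).continuousAt
        rw [Complex.sub_re, hre, Complex.ofReal_re]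
        linarith
      refine ContinuousAt.mul ?_ ?_
      · exact ContinuousAt.comp (f := fun t : ℝ => (s : ℂ) + t * I - (1 : ℝ)) h1 (by fun_prop)
      · exact ContinuousAt.comp (f := fun t : ℝ => (s : ℂ) + t * I - ((a - M.om : ℝ) : ℂ)) h2
          (by fun_prop)
    have hfup : Tendsto f atTop (𝓝 1) := by
      have h1 : Tendsto (fun t : ℝ => M.D (b + 1) ((s : ℂ) + t * I - (1 : ℝ))) atTop (𝓝 1) := by
        rw [Metric.tendsto_atTop]
        intro ε hε
        obtain ⟨T, hT⟩ := M.Dlim ε hε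
        refine ⟨T, fun t ht => ?_⟩
        rw [dist_eq_norm]
        refine (hT (b + 1) ((s : ℂ) + t * I - (1 : ℝ)) ?_).1
        rw [Complex.sub_im, him, Complex.ofReal_im]
        linarith
      have h2 : Tendsto (fun t : ℝ => M.R (b - k + M.U)
          ((s : ℂ) + t * I - ((a - M.om : ℝ) : ℂ))) atTop (𝓝 1) := by
        rw [Metric.tendsto_atTop]
        intro ε hε
        obtain ⟨T, hT⟩ := M.Dlim ε hε
        refine ⟨T, fun t ht => ?_⟩
        rw [dist_eq_norm]
        refine (hT (b - k + M.U) ((s : ℂ) + t * I - ((a - M.om : ℝ) : ℂ)) ?_).2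
        rw [Complex.sub_im, him, Complex.ofReal_im]
        linarith
      have h3 := h1.mul h2
      rw [one_mul] at h3
      rw [hfdef]
      exact h3
    obtain ⟨C, hC, hCb⟩ := M.DR_bound (b + 1) (b - k + M.U) (x := 1) (y := a - M.om)
      (c1 := s) (c2 := s) (by linarith) (by linarith)
    obtain ⟨δ, hδ⟩ : ∃ δ : ℝ, δ = 2 * π * (M.om + 1 - a) / (M.N * M.om) := ⟨_, rfl⟩
    have hδ0 : 0 < δ := by
      rw [hδ]
      have : 0 < M.om + 1 - a := by linarith
      positivity
    have hdn : ∀ t : ℝ, t ≤ 0 → ‖f t‖ ≤ C * Real.exp (δ * t) := by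
      intro t ht
      have h1 := hCb (s + t * I) (by rw [hre]) (by rw [hre])
      rw [him, max_eq_right (by linarith)] at h1
      rw [hfdef]
      refine h1.trans (le_of_eq ?_)
      congr 2
      rw [hδ]
      ring
    have habel := fkv_abel hfc hfup hδ0 hdn hlam0
    have hE : Tendsto (fun ε : ℝ => e ((s : ℂ) * ε / (M.N * M.om))) (𝓝[>] 0) (𝓝 1) := by
      have h1 : Continuous fun ε : ℝ => e ((s : ℂ) * ε / (M.N * M.om)) := by
        unfold e
        fun_prop
      have h2 := h1.tendsto 0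
      have h3 : e ((s : ℂ) * ((0 : ℝ) : ℂ) / (M.N * M.om)) = 1 := by
        unfold e
        simp
      rw [h3] at h2
      exact h2.mono_left nhdsWithin_le_nhds
    have hprod := hE.mul habel
    have hlim : (1 : ℂ) * (1 / (lam : ℂ)) = M.N * M.om / (2 * π) := by
      rw [hlam]
      push_cast
      field_simp
    rw [hlim] at hprod
    refine hprod.congr fun ε => ?_
    have hJ : M.J (b + 1) (b - k + M.U) 1 (a - M.om) (-(ε : ℂ)) s =
        e ((s : ℂ) * ε / (M.N * M.om)) * ∫ t : ℝ, f t * Complex.exp (-(lam * ε * t)) := by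
      unfold J
      rw [← integral_const_mul]
      refine integral_congr_ae (Eventually.of_forall fun t => ?_)
      simp only [gf, hfdef]
      have h1 : e (-(((s : ℂ) + t * I) * -(ε : ℂ)) / (M.N * M.om)) =
          e ((s : ℂ) * ε / (M.N * M.om)) * Complex.exp (-(lam * ε * t)) := by
        unfold e
        rw [← Complex.exp_add]
        congr 1
        rw [hlam]
        push_cast
        field_simp
        linear_combination (ε * t : ℂ) * I_sq
      rw [h1]
      ring
    rw [hJ]
    ring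
  have hsum : Tendsto (fun ε : ℝ => ∑ b ∈ Finset.range M.N, (ε : ℂ) *
      M.J ((b : ℤ) + 1) ((b : ℤ) - k + M.U) 1 (a - M.om) (-(ε : ℂ)) s) (𝓝[>] 0)
      (𝓝 (∑ _b ∈ Finset.range M.N, (M.N * M.om / (2 * π) : ℂ))) :=
    tendsto_finsetSum _ fun b _ => hone b
  rw [Finset.sum_const, Finset.card_range, nsmul_eq_mul] at hsum
  refine hsum.congr fun ε => ?_
  unfold Ik psum
  rw [Finset.mul_sum]
  refine Finset.sum_congr rfl fun b _ => ?_
  have h1 : e ((M.A : ℂ) * ((b : ℤ) : ℂ) * ((0 : ℤ) : ℂ) / M.N) = 1 := by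
    unfold e
    simp
  beta_reduce
  rw [h1, one_mul]

end LensF

end Zau
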