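import Pool.Agent.Lib_zau.FkvRec
import Pool.Agent.Lib_zau.FkvHol
import Pool.Agent.Lib_zau.FkvLim
import Pool.Agent.Lib_zau.FkvAbs

/-!
# The FKV formula of level `N` (note 14 section 4)

Owner: helper85.
-/

open Complex MeasureTheory Set Filter Topology
open scoped Real ComplexConjugate

namespace Zau

open Ghost

/-- Continuity: equality off the real line. -/
theorem FKV_eq_of_im {f g : ℂ → ℂ} {η : ℂ} (hf : ContinuousAt f η) (hg : ContinuousAt g η)
    (h : ∀ z : ℂ, z.re = η.re → z.im ≠ 0 → f z = g z) : f η = g η := by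
  by_cases h0 : η.im = 0
  · have h1 : Tendsto (fun t : ℝ => η + t * I) (𝓝[>] 0) (𝓝 η) := by
      have h2 : Tendsto (fun t : ℝ => η + t * I) (𝓝 0) (𝓝 (η + ((0 : ℝ) : ℂ) * I)) := by
        apply Continuous.tendsto
        fun_prop
      simp only [ofReal_zero, zero_mul, add_zero] at h2
      exact h2.mono_left nhdsWithin_le_nhds
    have h3 := hf.tendsto.comp h1
    have h4 := hg.tendsto.comp h1
    have h5 : (f ∘ fun t : ℝ => η + t * I) =ᶠ[𝓝[>] 0] (g ∘ fun t : ℝ => η + t * I) := by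
      filter_upwards [self_mem_nhdsWithin] with t ht
      have ht' : (0 : ℝ) < t := ht
      simp only [Function.comp_apply]
      apply h
      · simp
      · simp [h0]
        exact ht'.ne'
    exact tendsto_nhds_unique (h3.congr' h5) h4
  · exact h η rfl h0

namespace LensF

variable (M : LensF)

theorem one_sub_UR_ne (c : ℤ) {η : ℂ} (h : η.im ≠ 0) {u : ℂ} (hu : ‖u‖ = 1) :
    1 - u * M.UR c η ≠ 0 := by
  intro h1
  have h2 : u * M.UR c η = 1 := (sub_eq_zero.1 h1).symm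
  have h3 : ‖u * M.UR c η‖ = 1 := by rw [h2, norm_one]
  rw [norm_mul, hu, one_mul] at h3
  unfold UR at h3
  rw [FKV_norm_e, Real.exp_eq_one_iff] at h3
  have hN := M.N_pos
  have hom := M.om_pos
  have h4 : (η / ((M.N : ℂ) * M.om) + M.A * c / M.N).im = η.im / (M.N * M.om) := by
    have h5 : (η / ((M.N : ℂ) * M.om) + M.A * c / M.N) =
        η / ((M.N * M.om : ℝ) : ℂ) + (((M.A * c / M.N : ℝ)) : ℂ) := by
      push_cast
      ring
    rw [h5, Complex.add_im, Complex.div_ofReal_im, Complex.ofReal_im, add_zero]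
  rw [h4] at h3
  have h6 : η.im / (M.N * M.om) ≠ 0 := div_ne_zero h (mul_pos hN hom).ne'
  have := Real.pi_pos
  apply h6
  have h7 : 2 * π * (η.im / (M.N * M.om)) = 0 := by linarith
  rcases mul_eq_zero.1 h7 with h8 | h8
  · linarith
  · exact h8

theorem one_sub_UL_ne (c : ℤ) {η : ℂ} (h : η.im ≠ 0) {u : ℂ} (hu : ‖u‖ = 1) :
    1 - u * M.UL c η ≠ 0 := by
  intro h1
  have h2 : u * M.UL c η = 1 := (sub_eq_zero.1 h1).symm
  have h3 : ‖u * M.UL c η‖ = 1 := by rw [h2, norm_one]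
  rw [norm_mul, hu, one_mul] at h3
  unfold UL at h3
  rw [FKV_norm_e, Real.exp_eq_one_iff] at h3
  have hN := M.N_pos
  have h4 : ((η + c) / (M.N : ℂ)).im = η.im / M.N := by
    have h5 : ((η + c) / (M.N : ℂ)) = (η + ((c : ℝ) : ℂ)) / ((M.N : ℝ) : ℂ) := by
      push_cast
      ring
    rw [h5, Complex.div_ofReal_im, Complex.add_im, Complex.ofReal_im, add_zero]
  rw [h4] at h3
  have h6 : η.im / M.N ≠ 0 := div_ne_zero h hN.ne'
  have := Real.pi_pos
  apply h6
  have h7 : 2 * π * (η.im / M.N) = 0 := by linarith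
  rcases mul_eq_zero.1 h7 with h8 | h8
  · linarith
  · exact h8

theorem norm_al (a : ℝ) (k : ℤ) : ‖M.al a k‖ = 1 := by
  unfold al
  rw [FKV_norm_e]
  have h5 : (-(((a : ℂ) + k) / (M.N : ℂ))) = ((-((a + k) / M.N) : ℝ) : ℂ) := by
    push_cast
    ring
  rw [h5, Complex.ofReal_im]
  simp

theorem norm_be (a : ℝ) (k : ℤ) : ‖M.be a k‖ = 1 := by
  unfold be
  rw [FKV_norm_e]
  have h5 : (-((a : ℂ) / ((M.N : ℂ) * M.om)) - M.A * k / M.N) =
      ((-(a / (M.N * M.om)) - M.A * k / M.N : ℝ) : ℂ) := by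
    push_cast
    ring
  rw [h5, Complex.ofReal_im]
  simp

/-- The inverse of the right side, without the constant. -/
noncomputable def W (a : ℝ) (k : ℤ) (c : ℤ) (η : ℂ) : ℂ :=
  M.R (c + M.U - k) (η + M.om - a) * M.D (c + M.U) (η + M.om)

theorem e_shift_R (a : ℝ) (k c : ℤ) (η : ℂ) :
    e ((η + M.om - a) / (M.N * M.om) + M.A * ((c + M.U - k : ℤ) : ℂ) / M.N) =
      M.be a k * M.UR c η := by
  have hN := M.N_ne
  have hom := M.om_ne
  unfold be UR
  rw [← FKV_e_add]
  apply FKV_e_congr M.B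
  have := M.AU_cast
  push_cast
  field_simp
  linear_combination (M.om : ℂ) * this

theorem e_shift_D (c : ℤ) (η : ℂ) :
    e ((η + M.om) / (M.N * M.om) + M.A * ((c + M.U : ℤ) : ℂ) / M.N) = M.UR c η := by
  have hN := M.N_ne
  have hom := M.om_ne
  unfold UR
  apply FKV_e_congr M.B
  have := M.AU_cast
  push_cast
  field_simp
  linear_combination (M.om : ℂ) * this

theorem W_rec2 {a : ℝ} (ha : 0 < a) (k c : ℤ) {η : ℂ} (h1 : -M.om < η.re) (h2 : η.re < 0) :
    M.W a k (c + 1) (η - 1) * (1 - M.UR c η) = M.W a k c η * (1 - M.be a k * M.UR c η) := by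
  have h3 := M.R2 (c + M.U - k) (η + M.om - a) (Or.inr (by simp; linarith))
  have h4 := M.D2 (c + M.U) (η + M.om) (Or.inr (by simp; linarith))
  rw [M.e_shift_R] at h3
  rw [M.e_shift_D] at h4
  unfold W
  have e1 : c + 1 + M.U - k = c + M.U - k + 1 := by ring
  have e2 : c + 1 + M.U = c + M.U + 1 := by ring
  have e3 : η - 1 + M.om - a = η + M.om - a - 1 := by ring
  have e4 : η - 1 + (M.om : ℂ) = η + M.om - 1 := by ring
  rw [e1, e2, e3, e4, h3, ← h4]
  ring

theorem W_rec1 {a : ℝ} (ha : 0 < a) (k c : ℤ) {η : ℂ} (h1 : -1 < η.re) (h2 : η.re < 0) :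
    M.W a k (c - M.U) (η - M.om) * (1 - M.UL c η) = M.W a k c η * (1 - M.al a k * M.UL c η) := by
  have hN := M.N_ne
  have h3 := M.R3 (c - k) (η - a) (Or.inr (by simp; linarith))
  have h4 := M.D3 c η (Or.inr h1)
  have h5 : e ((η - a + ((c - k : ℤ) : ℂ)) / M.N) = M.al a k * M.UL c η := by
    unfold al UL
    rw [← FKV_e_add]
    congr 1
    push_cast
    field_simp
    ring
  rw [h5] at h3
  unfold W
  have e1 : c - M.U + M.U - k = c - k := by ring
  have e2 : c - M.U + M.U = c := by ring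
  have e3 : η - (M.om : ℂ) + M.om - a = η - a := by ring
  have e4 : η - (M.om : ℂ) + M.om = η := by ring
  have e5 : c + M.U - k = c - k + M.U := by ring
  have e6 : η + (M.om : ℂ) - a = η - a + M.om := by ring
  rw [e1, e2, e3, e4, e5, e6, ← h3, h4]
  unfold UL
  ring

theorem W_diff {a : ℝ} (ha : 0 < a) (k c : ℤ) {η : ℂ} (h1 : -(M.om + 1) < η.re) (h2 : η.re < 0) :
    DifferentiableAt ℂ (M.W a k c) η := by
  have h3 : DifferentiableAt ℂ (M.R (c + M.U - k)) (η + M.om - a) :=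
    M.R_diff _ _ (Or.inr (by simp; linarith))
  have h4 : DifferentiableAt ℂ (M.D (c + M.U)) (η + M.om) :=
    M.D_diff _ _ (Or.inr (by simp; linarith))
  unfold W
  exact (DifferentiableAt.comp (f := fun η : ℂ => η + M.om - a) η h3 (by fun_prop)).mul
    (DifferentiableAt.comp (f := fun η : ℂ => η + M.om) η h4 (by fun_prop))

theorem Ik_diff {a s : ℝ} (k c : ℤ) (h0 : 0 < s) (hs : s < a) {η : ℂ}
    (h1 : -(M.om + 1 - a) < η.re) (h2 : η.re < 0) :
    DifferentiableAt ℂ (fun η : ℂ => M.Ik a k η c s) η := by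
  unfold Ik psum
  apply DifferentiableAt.fun_sum
  intro b _
  apply DifferentiableAt.const_mul
  exact M.J_diff _ _ (x := 1) (y := a - M.om) (by linarith) h2 (by linarith) (by linarith)

/-- The product of the integral with the inverse of the right side. -/
noncomputable def Qk (a : ℝ) (k : ℤ) (s : ℝ) (c : ℤ) (η : ℂ) : ℂ := M.Ik a k η c s * M.W a k c η

theorem Qk_diff {a s : ℝ} (k c : ℤ) (h0 : 0 < s) (hs : s < a) {η : ℂ}
    (h1 : -(M.om + 1 - a) < η.re) (h2 : η.re < 0) :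
    DifferentiableAt ℂ (M.Qk a k s c) η := by
  unfold Qk
  exact (M.Ik_diff k c h0 hs h1 h2).mul (M.W_diff (by linarith) k c (by linarith) h2)

theorem Qk_per (a : ℝ) (k : ℤ) (s : ℝ) (c : ℤ) (η : ℂ) :
    M.Qk a k s (c + M.N) η = M.Qk a k s c η := by
  have hN := M.N_ne
  unfold Qk W Ik
  have e1 : c + M.N + M.U - k = c + M.U - k + M.N := by ring
  have e2 : c + M.N + M.U = c + M.U + M.N := by ring
  rw [e1, e2, M.R_per, M.D_per]
  congr 1
  apply M.psum_congr
  intro b
  congr 1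
  apply FKV_e_congr (M.A * b)
  push_cast
  field_simp

theorem Qk_rec2 {a s : ℝ} (k c : ℤ) (h0 : 0 < s) (hs : s < a) {η : ℂ}
    (h1 : a - M.om < η.re) (h2 : η.re < 0) :
    M.Qk a k s (c + 1) (η - 1) = M.Qk a k s c η := by
  refine FKV_eq_of_im (f := fun η => M.Qk a k s (c + 1) (η - 1)) (g := M.Qk a k s c) ?_ ?_ ?_
  · have h3 : DifferentiableAt ℂ (M.Qk a k s (c + 1)) (η - 1) :=
      M.Qk_diff k (c + 1) h0 hs (by simp; linarith) (by simp; linarith)
    exact (DifferentiableAt.comp (f := fun η : ℂ => η - 1) η h3 (by fun_prop)).continuousAt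
  · exact (M.Qk_diff k c h0 hs (by linarith) h2).continuousAt
  · intro z hz hz0
    rw [← hz] at h1 h2
    have h3 := M.Ik_rec2 (k := k) c h0 hs h1 h2
    have h4 := M.W_rec2 (a := a) (by linarith) k c (η := z) (by linarith) h2
    have h5 := M.one_sub_UR_ne c hz0 (u := 1) norm_one
    have h6 := M.one_sub_UR_ne c hz0 (M.norm_be a k)
    rw [one_mul] at h5
    have h7 : (M.Qk a k s (c + 1) (z - 1) - M.Qk a k s c z) *
        ((1 - M.UR c z) * (1 - M.be a k * M.UR c z)) = 0 := by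
      unfold Qk
      linear_combination (-(M.W a k c z * (1 - M.be a k * M.UR c z))) * h3 +
        (M.Ik a k (z - 1) (c + 1) s * (1 - M.be a k * M.UR c z)) * h4
    rcases mul_eq_zero.1 h7 with h8 | h8
    · exact sub_eq_zero.1 h8
    · exact absurd h8 (mul_ne_zero h5 h6)

theorem Qk_rec1 {a s : ℝ} (k c : ℤ) (h0 : 0 < s) (hs : s < a) {η : ℂ}
    (h1 : a - 1 < η.re) (h2 : η.re < 0) :
    M.Qk a k s (c - M.U) (η - M.om) = M.Qk a k s c η := by
  have hom := M.hom
  refine FKV_eq_of_im (f := fun η => M.Qk a k s (c - M.U) (η - M.om)) (g := M.Qk a k s c) ?_ ?_ ?_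
  · have h3 : DifferentiableAt ℂ (M.Qk a k s (c - M.U)) (η - M.om) :=
      M.Qk_diff k (c - M.U) h0 hs (by simp; linarith) (by simp; linarith)
    exact (DifferentiableAt.comp (f := fun η : ℂ => η - M.om) η h3 (by fun_prop)).continuousAt
  · exact (M.Qk_diff k c h0 hs (by linarith) h2).continuousAt
  · intro z hz hz0
    rw [← hz] at h1 h2
    have h3 := M.Ik_rec1 (k := k) c h0 hs (by linarith) h1 h2
    have h4 := M.W_rec1 (a := a) (by linarith) k c (η := z) (by linarith) h2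
    have h5 := M.one_sub_UL_ne c hz0 (u := 1) norm_one
    have h6 := M.one_sub_UL_ne c hz0 (M.norm_al a k)
    rw [one_mul] at h5
    have h7 : (M.Qk a k s (c - M.U) (z - M.om) - M.Qk a k s c z) *
        ((1 - M.UL c z) * (1 - M.al a k * M.UL c z)) = 0 := by
      unfold Qk
      linear_combination (-(M.W a k c z * (1 - M.al a k * M.UL c z))) * h3 +
        (M.Ik a k (z - M.om) (c - M.U) s * (1 - M.al a k * M.UL c z)) * h4
    rcases mul_eq_zero.1 h7 with h8 | h8
    · exact sub_eq_zero.1 h8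
    · exact absurd h8 (mul_ne_zero h5 h6)

/-- The product is constant for `a < 1`. -/
theorem Qk_const {a s : ℝ} (k : ℤ) (h0 : 0 < s) (hs : s < a) (ha : a < 1) {c c' : ℤ} {η η' : ℂ}
    (h1 : -(M.om + 1 - a) < η.re) (h2 : η.re < 0) (h1' : -(M.om + 1 - a) < η'.re)
    (h2' : η'.re < 0) : M.Qk a k s c η = M.Qk a k s c' η' := by
  have hom := M.hom
  refine family_const (om := M.om) (δ := 1 - a) (ρ := M.Qk a k s) M.hN (V := -M.U) M.hom M.hirr
    (by linarith) ?_ ?_ ?_ ?_ (by linarith) h2 (by linarith) h2'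
  · intro c η h3 h4
    exact M.Qk_diff k c h0 hs (by linarith) h4
  · intro c η _ _
    exact M.Qk_per a k s c η
  · intro c η h3 h4
    exact M.Qk_rec2 k c h0 hs (by linarith) h4
  · intro c η h3 h4
    exact M.Qk_rec1 k c h0 hs (by linarith) h4

/-- The value of the constant. -/
theorem Qk_lim {a s : ℝ} (k : ℤ) (h0 : 0 < s) (hs : s < a) (ha : a < M.om) :
    Tendsto (fun ε : ℝ => M.Qk a k s 0 (-(ε : ℂ))) (𝓝[>] 0)
      (𝓝 (I * M.N * M.om * M.D 0 0 * M.R (M.U - k) (M.om - a))) := by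
  have hN := M.N_ne
  have hom := M.om_ne
  have homp := M.om_pos
  have h1 := M.Ik_lim h0 hs ha k
  -- the derivative of the exponential
  have h2 : Tendsto (fun ε : ℝ => (1 - e (-(ε : ℂ) / M.N)) / ε) (𝓝[>] 0) (𝓝 (2 * π * I / M.N)) := by
    have hd : HasDerivAt (fun ε : ℝ => 1 - e (-(ε : ℂ) / M.N)) (2 * π * I / M.N) 0 := by
      have h3 : HasDerivAt (fun ε : ℂ => 1 - e (-ε / M.N)) (2 * π * I / M.N) ((0 : ℝ) : ℂ) := by
        unfold e
        have h4 : HasDerivAt (fun ε : ℂ => 2 * π * I * (-ε / M.N)) (2 * π * I * (-1 / M.N))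
            ((0 : ℝ) : ℂ) := by
          apply HasDerivAt.const_mul
          apply HasDerivAt.div_const
          exact (hasDerivAt_id _).neg
        have h5 := h4.cexp.const_sub 1
        have h6 : -(Complex.exp (2 * π * I * (-((0 : ℝ) : ℂ) / M.N)) * (2 * π * I * (-1 / M.N))) =
            2 * π * I / M.N := by
          rw [ofReal_zero, neg_zero, zero_div, mul_zero, Complex.exp_zero]
          ring
        rw [h6] at h5
        exact h5
      exact h3.comp_ofReal
    have h3 := hd.tendsto_slope_zero_right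
    refine h3.congr' ?_
    filter_upwards [self_mem_nhdsWithin] with ε hε
    simp only [zero_add, ofReal_zero, neg_zero, zero_div]
    rw [FKV_e_zero, sub_self, sub_zero, Complex.real_smul]
    push_cast
    rw [mul_comm, div_eq_mul_inv (1 - e _)]
  have h3 : Tendsto (fun ε : ℝ => M.D 0 (-(ε : ℂ))) (𝓝[>] 0) (𝓝 (M.D 0 0)) := by
    have h4 : ContinuousAt (M.D 0) 0 := (M.D_diff 0 0 (Or.inr (by simp))).continuousAt
    have h5 : Tendsto (fun ε : ℝ => -(ε : ℂ)) (𝓝 0) (𝓝 (-((0 : ℝ) : ℂ))) := by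
      apply Continuous.tendsto
      fun_prop
    simp only [ofReal_zero, neg_zero] at h5
    exact h4.tendsto.comp (h5.mono_left nhdsWithin_le_nhds)
  have h4 : Tendsto (fun ε : ℝ => M.R (M.U - k) (-(ε : ℂ) + M.om - a)) (𝓝[>] 0)
      (𝓝 (M.R (M.U - k) (M.om - a))) := by
    have h4 : ContinuousAt (M.R (M.U - k)) (M.om - a) :=
      (M.R_diff _ _ (Or.inr (by simp; linarith))).continuousAt
    have h5 : Tendsto (fun ε : ℝ => -(ε : ℂ) + M.om - a) (𝓝 0)
        (𝓝 (-((0 : ℝ) : ℂ) + M.om - a)) := by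
      apply Continuous.tendsto
      fun_prop
    simp only [ofReal_zero, neg_zero, zero_add] at h5
    exact h4.tendsto.comp (h5.mono_left nhdsWithin_le_nhds)
  have h5 := ((h1.mul h2).mul h3).mul h4
  have h6 : (M.N * (M.N * M.om / (2 * π)) * (2 * π * I / M.N) * M.D 0 0 *
      M.R (M.U - k) (M.om - a) : ℂ) =
      I * M.N * M.om * M.D 0 0 * M.R (M.U - k) (M.om - a) := by
    have hpi : (π : ℂ) ≠ 0 := by exact_mod_cast Real.pi_ne_zero
    field_simp
  rw [h6] at h5
  refine h5.congr' ?_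
  have hlt : ∀ᶠ ε : ℝ in 𝓝[>] 0, ε < 1 :=
    (eventually_lt_nhds zero_lt_one).filter_mono nhdsWithin_le_nhds
  filter_upwards [self_mem_nhdsWithin, hlt] with ε hε hε1
  have hε' : (ε : ℂ) ≠ 0 := by
    have : (0 : ℝ) < ε := hε
    exact_mod_cast this.ne'
  have h7 := M.D3 0 (-(ε : ℂ)) (Or.inr (by simp; linarith))
  unfold Qk W
  have e1 : (0 : ℤ) + M.U - k = M.U - k := by ring
  rw [e1, h7]
  have e2 : (-(ε : ℂ) + ((0 : ℤ) : ℂ)) / M.N = -(ε : ℂ) / M.N := by simp
  rw [e2]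
  field_simp

/-- The formula for `a < 1`. -/
theorem fkv_small {a s : ℝ} (h0 : 0 < s) (hs : s < a) (ha : a < 1) (k c : ℤ) {η : ℂ}
    (h1 : -(M.om + 1 - a) < η.re) (h2 : η.re < 0) : M.Ik a k η c s = M.Rk a k η c := by
  have hom := M.hom
  have h3 : M.Qk a k s c η = I * M.N * M.om * M.D 0 0 * M.R (M.U - k) (M.om - a) := by
    have h4 := M.Qk_lim k h0 hs (by linarith)
    have h5 : Tendsto (fun ε : ℝ => M.Qk a k s 0 (-(ε : ℂ))) (𝓝[>] 0) (𝓝 (M.Qk a k s c η)) := by
      refine tendsto_const_nhds.congr' ?_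
      have hlt : ∀ᶠ ε : ℝ in 𝓝[>] 0, ε < 1 :=
        (eventually_lt_nhds zero_lt_one).filter_mono nhdsWithin_le_nhds
      filter_upwards [self_mem_nhdsWithin, hlt] with ε hε hε1
      have : (0 : ℝ) < ε := hε
      exact M.Qk_const k h0 hs ha h1 h2 (by simp; linarith) (by simp; linarith)
    exact tendsto_nhds_unique h5 h4
  have h4 := M.DR (c + M.U - k) (η + M.om - a) (Or.inr (by simp; constructor <;> linarith))
  have h5 := M.DR (c + M.U) (η + M.om) (Or.inr (by simp; constructor <;> linarith))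
  unfold Qk W at h3
  unfold Rk
  rw [← h3]
  linear_combination (-(M.Ik a k η c s * (M.D (c + M.U) (η + M.om) * M.R (c + M.U) (η + M.om)))) * h4 -
    M.Ik a k η c s * h5

/-- The induction relation of the right side. -/
theorem Rk_succ {a : ℝ} (ha : 0 < a) (k c : ℤ) {η : ℂ} (h1 : a - M.om < η.re) (h2 : η.re < 0) :
    M.Rk (a + 1) (k - 1) η c = M.Rk a k η c - M.be a k * M.Rk a k (η - 1) (c + 1) := by
  have h3 := M.R2 (M.U - k) (M.om - a) (Or.inr (by simp; linarith))
  have h4 := M.D2 (c + M.U - k) (η + M.om - a) (Or.inr (by simp; linarith))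
  have h5 := M.R2 (c + M.U) (η + M.om) (Or.inr (by simp; linarith))
  rw [M.e_shift_R] at h4
  rw [M.e_shift_D] at h5
  have h6 := M.e_shift_R a k 0 0
  have h7 : M.UR 0 0 = 1 := by
    unfold UR
    simp [FKV_e_zero]
  rw [h7, mul_one] at h6
  have e0 : ((0 : ℂ) + M.om - a) = M.om - a := by ring
  have e00 : (0 : ℤ) + M.U - k = M.U - k := by ring
  rw [e0, e00] at h6
  rw [h6] at h3
  unfold Rk
  have e1 : M.U - (k - 1) = M.U - k + 1 := by ring
  have e2 : (M.om : ℂ) - ((a + 1 : ℝ) : ℂ) = M.om - a - 1 := by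
    push_cast
    ring
  have e3 : c + M.U - (k - 1) = c + M.U - k + 1 := by ring
  have e4 : η + (M.om : ℂ) - ((a + 1 : ℝ) : ℂ) = η + M.om - a - 1 := by
    push_cast
    ring
  have e5 : c + 1 + M.U - k = c + M.U - k + 1 := by ring
  have e6 : c + 1 + M.U = c + M.U + 1 := by ring
  have e7 : η - 1 + (M.om : ℂ) - a = η + M.om - a - 1 := by ring
  have e8 : η - 1 + (M.om : ℂ) = η + M.om - 1 := by ring
  rw [e1, e2, e3, e4, e5, e6, e7, e8, h3, h5, ← h4]
  ring

/-- The integral does not depend on the line. -/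
theorem Ik_line {a s s' : ℝ} (k c : ℤ) {η : ℂ} (h0 : 0 < s) (hs : s < a) (h0' : 0 < s')
    (hs' : s' < a) (h1 : -(M.om + 1 - a) < η.re) (h2 : η.re < 0) :
    M.Ik a k η c s = M.Ik a k η c s' := by
  unfold Ik
  apply M.psum_congr
  intro b
  rw [M.J_shift (b + 1) (b - k + M.U) (x := 1) (y := a - M.om) (by linarith) h2 (by linarith)
    (by linarith) (s' := s') (by linarith) (by linarith)]

/-- The FKV formula, induction on the integer part. -/
theorem fkv_aux (n : ℕ) : ∀ (a s : ℝ) (k c : ℤ) (η : ℂ), (n : ℝ) < a → a < n + 1 → a < M.om →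
    0 < s → s < a → -(M.om + 1 - a) < η.re → η.re < 0 → M.Ik a k η c s = M.Rk a k η c := by
  induction n with
  | zero =>
    intro a s k c η h1 h2 h3 h4 h5 h6 h7
    exact M.fkv_small h4 h5 (by simpa using h2) k c h6 h7
  | succ n ih =>
    intro a s k c η h1 h2 h3 h4 h5 h6 h7
    push_cast at h1 h2
    have hn : (0 : ℝ) ≤ n := n.cast_nonneg
    obtain ⟨a', ha'⟩ : ∃ a' : ℝ, a' = a - 1 := ⟨_, rfl⟩
    have e1 : a = a' + 1 := by linarith
    subst e1
    have e2 : k = (k + 1) - 1 := by ring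
    have hs' : 0 < a' / 2 := by linarith
    have hs'' : a' / 2 < a' := by linarith
    rw [M.Ik_line k c h4 h5 hs' (by linarith) h6 h7]
    rw [e2, M.Ik_succ c hs' hs'' (by linarith) h7, M.Rk_succ (by linarith) (k + 1) c (by linarith) h7]
    rw [ih a' (a' / 2) (k + 1) c η (by linarith) (by linarith) (by linarith) hs' hs''
      (by linarith) h7]
    rw [ih a' (a' / 2) (k + 1) (c + 1) (η - 1) (by linarith) (by linarith) (by linarith) hs' hs''
      (by simp; linarith) (by simp; linarith)]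

/-- The FKV formula of level `N`. -/
theorem fkv {a s : ℝ} (ha0 : 0 < a) (ha : a < M.om) (hint : ∀ n : ℤ, a ≠ n) (k c : ℤ) {η : ℂ}
    (h1 : -(M.om + 1 - a) < η.re) (h2 : η.re < 0) (h0 : 0 < s) (hs : s < a) :
    M.Ik a k η c s = M.Rk a k η c := by
  have hfl : (⌊a⌋₊ : ℝ) ≤ a := Nat.floor_le ha0.le
  have hfl' : a < ⌊a⌋₊ + 1 := Nat.lt_floor_add_one a
  have hne : (⌊a⌋₊ : ℝ) ≠ a := by
    intro h
    apply hint ⌊a⌋₊
    rw [← h]
    simp
  exact M.fkv_aux ⌊a⌋₊ a s k c η (lt_of_le_of_ne hfl hne) hfl' ha h0 hs h1 h2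

end LensF

end Zau
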