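import Pool.Agent.Lib_MP_1c78a5_ghost.BStrip
import Pool.Agent.Lib_MP_1c78a5_ghost.CShift

/-!
# FKV formula, piece P2: a vector valued function on a half strip with two periods is constant

Owner: helper40 (`Ghost.strip_const` in `BStrip.lean` is the scalar version with the same proof).
-/

open Complex MeasureTheory Set Filter Topology
open scoped Real ComplexConjugate

namespace Zau

/-- A function holomorphic in the upper half plane with two real periods of irrational quotient is
constant. -/
theorem upper_const {f : ℂ → ℂ} (hf : ∀ w : ℂ, 0 < w.im → DifferentiableAt ℂ f w) {p q : ℝ}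
    (hpq : Irrational (p / q))
    (h1 : ∀ w : ℂ, 0 < w.im → f (w + p) = f w) (h2 : ∀ w : ℂ, 0 < w.im → f (w + q) = f w)
    {w w' : ℂ} (hw : 0 < w.im) (hw' : 0 < w'.im) : f w = f w' := by
  have him : ∀ (w : ℂ) (s : ℝ), (w + (s : ℂ)).im = w.im := fun w s => by simp
  have hall : ∀ (w : ℂ) (s : ℝ), 0 < w.im → f (w + s) = f w := by
    have hsub : ∀ s ∈ (AddSubgroup.closure {p, q} : AddSubgroup ℝ), ∀ w : ℂ, 0 < w.im →
        f (w + s) = f w := by
      intro s hs
      induction hs using AddSubgroup.closure_induction with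
      | mem x hx =>
        rcases hx with hx | hx
        · rw [hx]; exact h1
        · rw [Set.mem_singleton_iff] at hx
          rw [hx]; exact h2
      | zero => intro w _; simp
      | add x y _ _ hx hy =>
        intro w hw
        have : w + ((x + y : ℝ) : ℂ) = (w + x) + y := by push_cast; ring
        rw [this, hy _ (by rw [him]; exact hw), hx _ hw]
      | neg x _ hx =>
        intro w hw
        have h3 := hx (w + ((-x : ℝ) : ℂ)) (by rw [him]; exact hw)
        have : w + ((-x : ℝ) : ℂ) + x = w := by push_cast; ring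
        rw [this] at h3
        exact h3.symm
    intro w s hw
    have hc1 : Continuous fun s : ℝ => f (w + s) := by
      rw [continuous_iff_continuousAt]
      intro s
      have h3 : ContinuousAt f (w + (s : ℂ)) := (hf _ (by rw [him]; exact hw)).continuousAt
      exact ContinuousAt.comp (f := fun s : ℝ => w + (s : ℂ)) h3 (by fun_prop)
    have hc2 : Continuous fun _ : ℝ => f w := continuous_const
    have hdense : Dense ((AddSubgroup.closure {p, q} : AddSubgroup ℝ) : Set ℝ) := by
      rw [dense_addSubgroupClosure_pair_iff]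
      exact hpq
    have := Continuous.ext_on hdense hc1 hc2 (fun s hs => hsub s hs w hw)
    exact congrFun this s
  have hder : ∀ w : ℂ, 0 < w.im → deriv f w = 0 := by
    intro w hw
    have h3 : HasDerivAt f (deriv f w) (w + ((0 : ℝ) : ℂ)) := by
      have : w + ((0 : ℝ) : ℂ) = w := by simp
      rw [this]
      exact (hf w hw).hasDerivAt
    have h4 : HasDerivAt (fun s : ℝ => w + (s : ℂ)) 1 0 := by
      have := (Complex.ofRealCLM.hasDerivAt (x := (0 : ℝ))).const_add w
      simpa using this
    have h5 : HasDerivAt (fun s : ℝ => f (w + (s : ℂ))) (deriv f w * 1) 0 :=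
      HasDerivAt.comp (𝕜 := ℝ) (h₂ := f) (h := fun s : ℝ => w + (s : ℂ)) 0 h3 h4
    have h6 : (fun s : ℝ => f (w + (s : ℂ))) = fun _ => f w := by
      funext s; exact hall w s hw
    rw [h6] at h5
    have h7 := h5.unique (hasDerivAt_const (0 : ℝ) (f w))
    simpa using h7
  have hopen : IsOpen {z : ℂ | 0 < z.im} := isOpen_lt continuous_const Complex.continuous_im
  have hconn : IsPreconnected {z : ℂ | 0 < z.im} := (convex_halfSpace_im_gt 0).isPreconnected
  exact hopen.is_const_of_deriv_eq_zero hconn (fun z hz => (hf z hz).differentiableWithinAt)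
    (fun z hz => hder z hz) hw hw'

section per

variable {L : ℝ} {Q : ℤ → ℂ → ℂ}

theorem per_iter
    (h1 : ∀ (c : ℤ) (η : ℂ), 0 < η.im → -L < η.re - 1 → η.re < 0 → Q (c + 1) (η - 1) = Q c η)
    (k : ℕ) : ∀ (c : ℤ) (η : ℂ), 0 < η.im → -L < η.re - k → η.re < 0 →
      Q (c + k) (η - k) = Q c η := by
  induction k with
  | zero => intro c η _ _ _; simp
  | succ k ih =>
    intro c η him hη hη0
    push_cast at hη
    have h3 : η - ((k + 1 : ℕ) : ℂ) = (η - k) - 1 := by push_cast; ring
    have h4 : c + ((k + 1 : ℕ) : ℤ) = (c + k) + 1 := by push_cast; ring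
    have hre : (η - (k : ℂ)).re = η.re - k := by simp
    have him' : (η - (k : ℂ)).im = η.im := by simp
    have hk : (0 : ℝ) ≤ k := k.cast_nonneg
    rw [h3, h4, h1 (c + k) (η - k) (by rw [him']; exact him) (by rw [hre]; linarith)
      (by rw [hre]; linarith)]
    exact ih c η him (by linarith) hη0

theorem per_int
    (h1 : ∀ (c : ℤ) (η : ℂ), 0 < η.im → -L < η.re - 1 → η.re < 0 → Q (c + 1) (η - 1) = Q c η)
    (c : ℤ) (w : ℂ) (m n : ℤ) (him : 0 < w.im) (hm : -L < w.re - m) (hm0 : w.re - m < 0)
    (hn : -L < w.re - n) (hn0 : w.re - n < 0) :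
    Q (c + m) (w - m) = Q (c + n) (w - n) := by
  have key : ∀ m n : ℤ, m ≤ n → w.re - m < 0 → -L < w.re - n →
      Q (c + m) (w - m) = Q (c + n) (w - n) := by
    intro m n hmn hm0 hn
    obtain ⟨k, hk⟩ := Int.le.dest hmn
    have h2 : w - (n : ℂ) = (w - m) - (k : ℂ) := by
      rw [← hk]; push_cast; ring
    have h3 : c + n = (c + m) + k := by rw [← hk]; ring
    have hn' : w.re - (n : ℝ) = w.re - m - k := by rw [← hk]; push_cast; ring
    have hre : (w - (m : ℂ)).re = w.re - m := by simp
    have him' : (w - (m : ℂ)).im = w.im := by simp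
    rw [h2, h3]
    exact (per_iter h1 k (c + m) (w - m) (by rw [him']; exact him) (by rw [hre]; linarith)
      (by rw [hre]; linarith)).symm
  rcases le_total m n with h | h
  · exact key m n h hm0 hn
  · exact (key n m h hn0 hm).symm

end per

/-- Proof (compare `Ghost.strip_const`). For `η` in the upper half plane and every integer `n` with
`η - n` in the strip `-L < re < 0` put `Q' c η = Q (c + n) (η - n)` (with `n = ⌊re η⌋ + 1`, so that
`-1 ≤ re (η - n) < 0`; `L > 1`); by `h1` this does not depend on the choice of `n` (points between two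
points of the strip lie in the strip), so `Q' c` is locally `Q (c + n) (· - n)` with a fixed `n`, hence
differentiable on the upper half plane, `Q' (c + 1) (η - 1) = Q' c η`, `Q' c = Q c` on the strip. By
`h2`, `Q' (c - U) (η - om) = Q' c η` on the nonempty open set `om - L < re η < 0`, `0 < im η`, so by the identity theorem
(`AnalyticOnNhd.eqOn_of_preconnected_of_eventuallyEq` or as in `strip_const`) on the upper half plane.
So `Q' c` has the periods `N` and `N om` (use `hper`), these generate a dense subgroup of the reals, so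
`Q' c` is constant on horizontal lines, its derivative is zero, it is constant on the upper half
plane. The constant does not depend on `c` by the first equation. -/
theorem fkv_per {om L : ℝ} (hom : 1 < om) (hirr : Irrational om) (hL : om < L) {N : ℕ} (hN : 0 < N)
    (U : ℤ) (Q : ℤ → ℂ → ℂ) (hper : ∀ (c : ℤ) (η : ℂ), Q (c + N) η = Q c η)
    (hdiff : ∀ (c : ℤ) (η : ℂ), 0 < η.im → -L < η.re → η.re < 0 → DifferentiableAt ℂ (Q c) η)
    (h1 : ∀ (c : ℤ) (η : ℂ), 0 < η.im → -L < η.re - 1 → η.re < 0 → Q (c + 1) (η - 1) = Q c η)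
    (h2 : ∀ (c : ℤ) (η : ℂ), 0 < η.im → -L < η.re - om → η.re < 0 → Q (c - U) (η - om) = Q c η) :
    ∃ C : ℂ, ∀ (c : ℤ) (η : ℂ), 0 < η.im → -L < η.re → η.re < 0 → Q c η = C := by
  obtain ⟨E, hE⟩ : ∃ E : ℤ → ℂ → ℂ,
      E = fun c w => Q (c + (⌊w.re⌋ + 1)) (w - ((⌊w.re⌋ + 1 : ℤ) : ℂ)) := ⟨_, rfl⟩
  have hfl : ∀ w : ℂ, -L < w.re - ((⌊w.re⌋ + 1 : ℤ) : ℝ) ∧
      w.re - ((⌊w.re⌋ + 1 : ℤ) : ℝ) < 0 := by
    intro w
    have ha := Int.floor_le w.re
    have hb := Int.lt_floor_add_one w.re
    push_cast
    constructor <;> linarith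
  have hEn : ∀ (c : ℤ) (w : ℂ) (n : ℤ), 0 < w.im → -L < w.re - n → w.re - n < 0 →
      E c w = Q (c + n) (w - n) := by
    intro c w n him hn hn0
    rw [hE]
    exact per_int h1 c w _ n him (hfl w).1 (hfl w).2 hn hn0
  have hE0 : ∀ (c : ℤ) (w : ℂ), 0 < w.im → -L < w.re → w.re < 0 → E c w = Q c w := by
    intro c w him hw hw0
    have := hEn c w 0 him (by simpa using hw) (by simpa using hw0)
    simpa using this
  have hdiffE : ∀ (c : ℤ) (w : ℂ), 0 < w.im → DifferentiableAt ℂ (E c) w := by
    intro c w him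
    obtain ⟨n, hn⟩ : ∃ n : ℤ, n = ⌊w.re⌋ + 1 := ⟨_, rfl⟩
    have hwn := hfl w
    rw [← hn] at hwn
    have hopen : IsOpen {z : ℂ | 0 < z.im ∧ -L < z.re - n ∧ z.re - n < 0} := by
      apply IsOpen.inter
      · exact isOpen_lt continuous_const Complex.continuous_im
      · apply IsOpen.inter
        · exact isOpen_lt continuous_const (Complex.continuous_re.sub continuous_const)
        · exact isOpen_lt (Complex.continuous_re.sub continuous_const) continuous_const
    have hev : E c =ᶠ[𝓝 w] fun z => Q (c + n) (z - (n : ℂ)) := by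
      filter_upwards [hopen.mem_nhds ⟨him, hwn⟩] with z hz
      exact hEn c z n hz.1 hz.2.1 hz.2.2
    have hre : (w - (n : ℂ)).re = w.re - n := by simp
    have him' : (w - (n : ℂ)).im = w.im := by simp
    have hd1 : DifferentiableAt ℂ (fun z => Q (c + n) (z - (n : ℂ))) w := by
      have h5 := hdiff (c + n) (w - (n : ℂ)) (by rw [him']; exact him)
        (by rw [hre]; exact hwn.1) (by rw [hre]; exact hwn.2)
      exact DifferentiableAt.comp w h5 (differentiableAt_id.sub_const _)
    exact hd1.congr_of_eventuallyEq hev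
  -- the first relation, everywhere
  have hr1 : ∀ (c : ℤ) (w : ℂ), 0 < w.im → E (c + 1) (w - 1) = E c w := by
    intro c w him
    have h3 := hfl w
    rw [hEn c w _ him h3.1 h3.2]
    have hre : (w - 1).re = w.re - 1 := by simp
    have him' : (w - 1).im = w.im := by simp
    rw [hEn (c + 1) (w - 1) ⌊w.re⌋ (by rw [him']; exact him)
      (by rw [hre]; push_cast at h3; linarith) (by rw [hre]; push_cast at h3; linarith)]
    congr 1
    · ring
    · push_cast; ring
  have hopenU : IsOpen {z : ℂ | 0 < z.im} := isOpen_lt continuous_const Complex.continuous_im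
  have hconnU : IsPreconnected {z : ℂ | 0 < z.im} := (convex_halfSpace_im_gt 0).isPreconnected
  -- the second relation, everywhere
  have hr2 : ∀ (c : ℤ) (w : ℂ), 0 < w.im → E (c - U) (w - om) = E c w := by
    intro c
    have han : AnalyticOnNhd ℂ (E c) {z : ℂ | 0 < z.im} :=
      DifferentiableOn.analyticOnNhd
        (fun z hz => (hdiffE c z hz).differentiableWithinAt) hopenU
    have han2 : AnalyticOnNhd ℂ (fun w => E (c - U) (w - om)) {z : ℂ | 0 < z.im} := by
      refine DifferentiableOn.analyticOnNhd (fun z hz => ?_) hopenU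
      have h5 := hdiffE (c - U) (z - om) (by simpa using hz)
      exact (DifferentiableAt.comp z h5 (differentiableAt_id.sub_const _)).differentiableWithinAt
    obtain ⟨z0, hz0⟩ : ∃ z0 : ℂ, z0 = (((om - L) / 2 : ℝ) : ℂ) + I := ⟨_, rfl⟩
    have e1 : z0.re = (om - L) / 2 := by rw [hz0]; simp
    have e2 : z0.im = 1 := by rw [hz0]; simp
    have hev : (fun w => E (c - U) (w - om)) =ᶠ[𝓝 z0] E c := by
      have hopen : IsOpen {z : ℂ | 0 < z.im ∧ -L < z.re - om ∧ z.re < 0} := by
        apply IsOpen.inter
        · exact isOpen_lt continuous_const Complex.continuous_im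
        · apply IsOpen.inter
          · exact isOpen_lt continuous_const (Complex.continuous_re.sub continuous_const)
          · exact isOpen_lt Complex.continuous_re continuous_const
      have hmem : z0 ∈ {z : ℂ | 0 < z.im ∧ -L < z.re - om ∧ z.re < 0} := by
        refine ⟨?_, ?_, ?_⟩
        · rw [e2]; exact one_pos
        · rw [e1]; linarith
        · rw [e1]; linarith
      filter_upwards [hopen.mem_nhds hmem] with z hz
      have hre : (z - (om : ℂ)).re = z.re - om := by simp
      have him' : (z - (om : ℂ)).im = z.im := by simp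
      rw [hE0 c z hz.1 (by linarith [hz.2.1]) hz.2.2,
        hE0 (c - U) (z - om) (by rw [him']; exact hz.1) (by rw [hre]; exact hz.2.1)
          (by rw [hre]; linarith [hz.2.2])]
      exact h2 c z hz.1 hz.2.1 hz.2.2
    intro w hw
    exact han2.eqOn_of_preconnected_of_eventuallyEq han hconnU
      (show 0 < z0.im by rw [e2]; exact one_pos) hev hw
  have hrN : ∀ (c : ℤ) (w : ℂ), E (c + N) w = E c w := by
    intro c w
    rw [hE]
    have h4 : c + N + (⌊w.re⌋ + 1) = c + (⌊w.re⌋ + 1) + N := by ring
    simp only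
    rw [h4]
    exact hper _ _
  have hrNk : ∀ (c : ℤ) (w : ℂ) (k : ℤ), E (c + k * N) w = E c w := by
    have hpos : ∀ (k : ℕ) (c : ℤ) (w : ℂ), E (c + k * N) w = E c w := by
      intro k
      induction k with
      | zero => intro c w; simp
      | succ k ih =>
        intro c w
        have : c + ((k + 1 : ℕ) : ℤ) * N = c + k * N + N := by push_cast; ring
        rw [this, hrN, ih]
    intro c w k
    rcases le_total 0 k with hk | hk
    · obtain ⟨m, rfl⟩ := Int.eq_ofNat_of_zero_le hk
      exact hpos m c w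
    · obtain ⟨m, hm⟩ := Int.eq_ofNat_of_zero_le (show 0 ≤ -k by omega)
      have h3 := hpos m (c + k * N) w
      rw [← hm] at h3
      have h4 : c + k * N + -k * N = c := by ring
      rw [h4] at h3
      exact h3.symm
  -- iterates
  have hi1 : ∀ (k : ℕ) (c : ℤ) (w : ℂ), 0 < w.im → E (c + k) (w - k) = E c w := by
    intro k
    induction k with
    | zero => intro c w _; simp
    | succ k ih =>
      intro c w hw
      have h3 : c + ((k + 1 : ℕ) : ℤ) = (c + k) + 1 := by push_cast; ring
      have h4 : w - ((k + 1 : ℕ) : ℂ) = (w - k) - 1 := by push_cast; ring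
      rw [h3, h4, hr1 _ _ (by simpa using hw), ih _ _ hw]
  have hi2 : ∀ (k : ℕ) (c : ℤ) (w : ℂ), 0 < w.im → E (c - k * U) (w - k * om) = E c w := by
    intro k
    induction k with
    | zero => intro c w _; simp
    | succ k ih =>
      intro c w hw
      have h3 : c - ((k + 1 : ℕ) : ℤ) * U = (c - k * U) - U := by push_cast; ring
      have h4 : w - ((k + 1 : ℕ) : ℂ) * om = (w - k * om) - om := by push_cast; ring
      have h5 : (w - (k : ℂ) * om).im = w.im := by simp
      rw [h3, h4, hr2 _ _ (by rw [h5]; exact hw), ih _ _ hw]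
  have him' : ∀ (w : ℂ) (s : ℝ), (w + (s : ℂ)).im = w.im := fun w s => by simp
  have hp1 : ∀ (c : ℤ) (w : ℂ), 0 < w.im → E c (w + ((N * om : ℝ) : ℂ)) = E c w := by
    intro c w hw
    have h3 := hi2 N c (w + ((N * om : ℝ) : ℂ)) (by rw [him']; exact hw)
    have h4 : w + ((N * om : ℝ) : ℂ) - (N : ℂ) * om = w := by push_cast; ring
    rw [h4] at h3
    rw [← h3]
    have h5 : c - (N : ℤ) * U = c + (-U) * N := by ring
    rw [h5]
    exact hrNk c w (-U)
  have hp2 : ∀ (c : ℤ) (w : ℂ), 0 < w.im → E c (w + ((N : ℝ) : ℂ)) = E c w := by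
    intro c w hw
    have h3 := hi1 N c (w + ((N : ℝ) : ℂ)) (by rw [him']; exact hw)
    have h4 : w + ((N : ℝ) : ℂ) - (N : ℂ) = w := by push_cast; ring
    rw [h4] at h3
    rw [← h3]
    exact hrN c w
  have hN' : (N : ℝ) ≠ 0 := by exact_mod_cast hN.ne'
  have hirr' : Irrational ((N * om : ℝ) / (N : ℝ)) := by
    have : (N * om : ℝ) / (N : ℝ) = om := by field_simp
    rw [this]
    exact hirr
  have hconst : ∀ (c : ℤ) (w w' : ℂ), 0 < w.im → 0 < w'.im → E c w = E c w' :=
    fun c w w' hw hw' => upper_const (hdiffE c) hirr' (hp1 c) (hp2 c) hw hw'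
  have hcc : ∀ (k : ℕ) (c : ℤ) (w : ℂ), 0 < w.im → E (c + k) w = E c w := by
    intro k c w hw
    have h3 := hi1 k c (w + (k : ℝ)) (by rw [him']; exact hw)
    have h4 : w + ((k : ℝ) : ℂ) - (k : ℂ) = w := by push_cast; ring
    rw [h4] at h3
    exact h3.trans (hconst c _ _ (by rw [him']; exact hw) hw)
  refine ⟨E 0 I, fun c η hη hη1 hη0 => ?_⟩
  rw [← hE0 c η hη hη1 hη0, hconst c η I hη (by simp)]
  rcases le_total 0 c with hc | hc
  · obtain ⟨m, rfl⟩ := Int.eq_ofNat_of_zero_le hc
    have := hcc m 0 I (by simp)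
    rw [zero_add] at this
    exact this
  · obtain ⟨m, hm⟩ := Int.eq_ofNat_of_zero_le (show 0 ≤ -c by omega)
    have := hcc m c I (by simp)
    rw [← hm] at this
    have h4 : c + -c = 0 := by ring
    rw [h4] at this
    exact this.symm

end Zau
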