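import Pool.Agent.Lib_zau.FkvBd

/-!
# FKV formula: the functional equations of the integral

Owner: helper85.
-/

open Complex MeasureTheory Set Filter Topology
open scoped Real ComplexConjugate

namespace Zau

open Ghost

theorem FKV_e_add (x y : ℂ) : e (x + y) = e x * e y := by
  unfold e
  rw [← Complex.exp_add]
  congr 1
  ring

theorem FKV_e_int (n : ℤ) : e (n : ℂ) = 1 := by
  unfold e
  rw [show (2 : ℂ) * π * I * n = n * (2 * π * I) by ring]
  exact Complex.exp_int_mul_two_pi_mul_I n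

theorem FKV_e_ne (x : ℂ) : e x ≠ 0 := Complex.exp_ne_zero _

theorem FKV_e_zero : e 0 = 1 := by
  simp [e]

theorem FKV_e_congr {x y : ℂ} (n : ℤ) (h : x = y + n) : e x = e y := by
  rw [h, FKV_e_add, FKV_e_int, mul_one]

namespace LensF

variable (M : LensF)

/-- The sum over the residues is invariant under shifts. -/
theorem psum_shift_one (g : ℤ → ℂ) (hg : ∀ b, g (b + M.N) = g b) :
    M.psum (fun b => g (b + 1)) = M.psum g := by
  unfold psum
  have h1 := Finset.sum_range_succ (fun i : ℕ => g (i : ℤ)) M.N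
  have h2 := Finset.sum_range_succ' (fun i : ℕ => g (i : ℤ)) M.N
  have h3 : g ((M.N : ℕ) : ℤ) = g 0 := by
    have := hg 0
    rwa [zero_add] at this
  have h4 : ∑ i ∈ Finset.range M.N, g ((i : ℤ) + 1) =
      ∑ i ∈ Finset.range M.N, g (((i + 1 : ℕ)) : ℤ) := by
    apply Finset.sum_congr rfl
    intro i _
    push_cast
    rfl
  rw [h4]
  rw [h1] at h2
  have h5 : g ((0 : ℕ) : ℤ) = g 0 := by simp
  rw [h5, h3] at h2
  exact (add_right_cancel h2).symm

theorem psum_shift (g : ℤ → ℂ) (hg : ∀ b, g (b + M.N) = g b) (k : ℤ) :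
    M.psum (fun b => g (b + k)) = M.psum g := by
  induction k using Int.induction_on with
  | zero => simp
  | succ i ih =>
    rw [← ih]
    have h := M.psum_shift_one (fun b => g (b + i)) (by
      intro b
      have := hg (b + i)
      rw [← this]
      congr 1
      ring)
    rw [← h]
    congr 1
    funext b
    congr 1
    ring
  | pred i ih =>
    rw [← ih]
    have h := M.psum_shift_one (fun b => g (b + (-(i : ℤ) - 1))) (by
      intro b
      have := hg (b + (-(i : ℤ) - 1))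
      rw [← this]
      congr 1
      ring)
    rw [← h]
    congr 1
    funext b
    congr 1
    ring

theorem psum_congr {f g : ℤ → ℂ} (h : ∀ b, f b = g b) : M.psum f = M.psum g := by
  unfold psum
  exact Finset.sum_congr rfl fun b _ => h b

theorem psum_add (f g : ℤ → ℂ) : M.psum (fun b => f b + g b) = M.psum f + M.psum g := by
  unfold psum
  exact Finset.sum_add_distrib

theorem psum_sub (f g : ℤ → ℂ) : M.psum (fun b => f b - g b) = M.psum f - M.psum g := by
  unfold psum
  exact Finset.sum_sub_distrib _ _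

theorem psum_mul (c : ℂ) (f : ℤ → ℂ) : M.psum (fun b => c * f b) = c * M.psum f := by
  unfold psum
  rw [Finset.mul_sum]

/-- `α = e (- (a + k) / N)`. -/
noncomputable def al (a : ℝ) (k : ℤ) : ℂ := e (-((a + k) / M.N))

/-- `β' = e (- a / (N ω) - A k / N)`. -/
noncomputable def be (a : ℝ) (k : ℤ) : ℂ := e (-(a / (M.N * M.om)) - M.A * k / M.N)

theorem J_per (b b' : ℤ) (x y : ℝ) (η : ℂ) (s : ℝ) :
    M.J (b + M.N) (b' + M.N) x y η s = M.J b b' x y η s := by
  unfold J gf
  simp only [M.D_per, M.R_per]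

/-! ### the step `ω` -/

theorem gf_L1 {a : ℝ} {k b : ℤ} {η ξ : ℂ} (h : ξ.re < a) :
    M.gf (b + 1) (b - k) 1 a η ξ = M.gf (b + 1) (b - k + M.U) 1 (a - M.om) η ξ -
      M.al a k * e (b / M.N) * M.gf (b + 1) (b - k + M.U) 1 (a - M.om) (η - M.om) ξ := by
  have hN := M.N_ne
  have hom := M.om_ne
  have h3 := M.R3 (b - k) (ξ - a) (Or.inr (by simpa using h))
  have h4 : ξ - ((a - M.om : ℝ) : ℂ) = ξ - a + M.om := by
    push_cast
    ring
  unfold gf al
  rw [h4, ← h3]
  have h5 : e (-((a + k) / M.N)) * e (b / M.N) * e (-(ξ * (η - M.om)) / (M.N * M.om)) =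
      e ((ξ - a + (b - k : ℤ)) / M.N) * e (-(ξ * η) / (M.N * M.om)) := by
    rw [← FKV_e_add, ← FKV_e_add, ← FKV_e_add]
    congr 1
    push_cast
    field_simp
    ring
  linear_combination (M.D (b + 1) (ξ - (1 : ℝ)) * M.R (b - k + M.U) (ξ - a + M.om)) * h5

theorem gf_L2 {a : ℝ} {k b : ℤ} {η ξ : ℂ} (h : 0 < ξ.re) :
    M.gf (b + M.U + 1) (b + M.U - k) 1 a η (ξ + M.om) =
      e (-(η / M.N)) * (M.gf (b + 1) (b - k + M.U) 1 (a - M.om) η ξ -
      e (b / M.N) * M.gf (b + 1) (b - k + M.U) 1 (a - M.om) (η - M.om) ξ) := by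
  have hN := M.N_ne
  have hom := M.om_ne
  have h3 := M.D3 (b + 1) (ξ - 1) (Or.inr (by simp; linarith))
  have h4 : ξ - ((a - M.om : ℝ) : ℂ) = ξ + M.om - a := by
    push_cast
    ring
  have h5 : ξ + M.om - ((1 : ℝ) : ℂ) = ξ - 1 + M.om := by
    push_cast
    ring
  have h6 : b + 1 + M.U = b + M.U + 1 := by ring
  have h7 : b - k + M.U = b + M.U - k := by ring
  have h8 : ξ - 1 + ((b + 1 : ℤ) : ℂ) = ξ + b := by
    push_cast
    ring
  rw [h6, h8] at h3
  unfold gf
  rw [h4, h5, h7, h3]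
  have h9 : ξ - ((1 : ℝ) : ℂ) = ξ - 1 := by simp
  rw [h9]
  have h10 : e (-((ξ + M.om) * η) / (M.N * M.om)) =
      e (-(η / M.N)) * e (-(ξ * η) / (M.N * M.om)) := by
    rw [← FKV_e_add]
    congr 1
    field_simp
    ring
  have h11 : e (b / M.N) * e (-(ξ * (η - M.om)) / (M.N * M.om)) =
      e ((ξ + b) / M.N) * e (-(ξ * η) / (M.N * M.om)) := by
    rw [← FKV_e_add, ← FKV_e_add]
    congr 1
    field_simp
    ring
  rw [h10]
  linear_combination (e (-(η / M.N)) * (M.D (b + 1) (ξ - 1) * M.R (b + M.U - k) (ξ + M.om - a))) * h11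

theorem J_L1 {a s : ℝ} {k b : ℤ} {η : ℂ} (h0 : 0 < s) (hs : s < a) (h1 : a - 1 < η.re)
    (h2 : η.re < 0) :
    M.J (b + 1) (b - k) 1 a η s = M.J (b + 1) (b - k + M.U) 1 (a - M.om) η s -
      M.al a k * e (b / M.N) * M.J (b + 1) (b - k + M.U) 1 (a - M.om) (η - M.om) s := by
  have hom := M.om_pos
  have i1 := M.gf_integrable (b + 1) (b - k + M.U) (x := 1) (y := a - M.om) (s := s) (η := η)
    (by linarith) h2 (by linarith) (by linarith)
  have i2 := M.gf_integrable (b + 1) (b - k + M.U) (x := 1) (y := a - M.om) (s := s)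
    (η := η - M.om) (by simp; linarith) (by simp; linarith) (by linarith) (by linarith)
  unfold J
  rw [← MeasureTheory.integral_const_mul, ← integral_sub i1 (i2.const_mul _)]
  congr 1
  funext t
  exact M.gf_L1 (by simpa using hs)

theorem J_L2 {a s : ℝ} {k b : ℤ} {η : ℂ} (h0 : 0 < s) (hs : s < a) (h1 : a - 1 < η.re)
    (h2 : η.re < 0) :
    M.J (b + M.U + 1) (b + M.U - k) 1 a η (s + M.om) =
      e (-(η / M.N)) * (M.J (b + 1) (b - k + M.U) 1 (a - M.om) η s -
      e (b / M.N) * M.J (b + 1) (b - k + M.U) 1 (a - M.om) (η - M.om) s) := by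
  have hom := M.om_pos
  have i1 := M.gf_integrable (b + 1) (b - k + M.U) (x := 1) (y := a - M.om) (s := s) (η := η)
    (by linarith) h2 (by linarith) (by linarith)
  have i2 := M.gf_integrable (b + 1) (b - k + M.U) (x := 1) (y := a - M.om) (s := s)
    (η := η - M.om) (by simp; linarith) (by simp; linarith) (by linarith) (by linarith)
  unfold J
  rw [← MeasureTheory.integral_const_mul (e (b / M.N)), ← integral_sub i1 (i2.const_mul _),
    ← MeasureTheory.integral_const_mul]
  congr 1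
  funext t
  have h3 : (((s + M.om : ℝ) : ℂ) + t * I) = ((s : ℂ) + t * I) + M.om := by
    push_cast
    ring
  rw [h3]
  exact M.gf_L2 (by simpa using h0)

theorem AU_cast : (M.A : ℂ) * M.U = M.B * M.N - 1 := by
  have h : (M.A * M.U : ℤ) = M.B * M.N - 1 := by
    rw [M.hdet]
    ring
  have h2 : ((M.A * M.U : ℤ) : ℂ) = ((M.B * M.N - 1 : ℤ) : ℂ) := by rw [h]
  push_cast at h2
  exact h2

/-- The first functional equation. -/
theorem Ik_rec1 {a s : ℝ} {k : ℤ} {η : ℂ} (c : ℤ) (h0 : 0 < s) (hs : s < a) (ha : a < M.om)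
    (h1 : a - 1 < η.re) (h2 : η.re < 0) :
    M.Ik a k η c s * (1 - M.UL c η) =
      M.Ik a k (η - M.om) (c - M.U) s * (1 - M.al a k * M.UL c η) := by
  have hN := M.N_ne
  have hom := M.om_ne
  have homp := M.om_pos
  -- the two sides of the contour shift
  have e1 : M.psum (fun b => e (M.A * b * c / M.N) * M.J (b + 1) (b - k) 1 a η s) =
      M.Ik a k η c s - M.al a k * M.Ik a k (η - M.om) (c - M.U) s := by
    unfold Ik
    rw [← M.psum_mul, ← M.psum_sub]
    apply M.psum_congr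
    intro b
    rw [M.J_L1 h0 hs h1 h2]
    have h3 : e (M.A * b * c / M.N) * e (b / M.N) = e (M.A * b * ((c - M.U : ℤ) : ℂ) / M.N) := by
      rw [← FKV_e_add]
      apply FKV_e_congr (M.B * b)
      have := M.AU_cast
      push_cast
      field_simp
      linear_combination (b : ℂ) * this
    rw [← h3]
    ring
  have e2 : M.psum (fun b => e (M.A * b * c / M.N) * M.J (b + 1) (b - k) 1 a η s) =
      M.psum (fun b => e (M.A * b * c / M.N) * M.J (b + 1) (b - k) 1 a η (s + M.om)) := by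
    apply M.psum_congr
    intro b
    rw [M.J_shift (b + 1) (b - k) (x := 1) (y := a) (s := s) (s' := s + M.om) (by linarith) h2
      (by linarith) (by linarith) (by linarith) (by linarith)]
  have e3 : M.psum (fun b => e (M.A * b * c / M.N) * M.J (b + 1) (b - k) 1 a η (s + M.om)) =
      M.psum (fun b => e (M.A * ((b + M.U : ℤ) : ℂ) * c / M.N) *
        M.J (b + M.U + 1) (b + M.U - k) 1 a η (s + M.om)) := by
    refine (M.psum_shift (fun b => e (M.A * (b : ℂ) * c / M.N) *
      M.J (b + 1) (b - k) 1 a η (s + M.om)) ?_ M.U).symm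
    intro b
    have h3 : b + M.N + 1 = b + 1 + M.N := by ring
    have h4 : b + M.N - k = b - k + M.N := by ring
    simp only [h3, h4, M.J_per]
    congr 1
    apply FKV_e_congr (M.A * c)
    push_cast
    field_simp
  have e4 : M.psum (fun b => e (M.A * ((b + M.U : ℤ) : ℂ) * c / M.N) *
        M.J (b + M.U + 1) (b + M.U - k) 1 a η (s + M.om)) =
      e (-((η + c) / M.N)) * (M.Ik a k η c s - M.Ik a k (η - M.om) (c - M.U) s) := by
    unfold Ik
    rw [← M.psum_sub, ← M.psum_mul]
    apply M.psum_congr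
    intro b
    rw [M.J_L2 h0 hs h1 h2]
    have h3 : e (M.A * b * c / M.N) * e (b / M.N) = e (M.A * b * ((c - M.U : ℤ) : ℂ) / M.N) := by
      rw [← FKV_e_add]
      apply FKV_e_congr (M.B * b)
      have := M.AU_cast
      push_cast
      field_simp
      linear_combination (b : ℂ) * this
    have h4 : e (M.A * ((b + M.U : ℤ) : ℂ) * c / M.N) * e (-(η / M.N)) =
        e (-((η + c) / M.N)) * e (M.A * b * c / M.N) := by
      rw [← FKV_e_add, ← FKV_e_add]
      apply FKV_e_congr (M.B * c)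
      have := M.AU_cast
      push_cast
      field_simp
      linear_combination (c : ℂ) * this
    rw [← h3]
    linear_combination (M.J (b + 1) (b - k + M.U) 1 (a - M.om) η s -
      e (b / M.N) * M.J (b + 1) (b - k + M.U) 1 (a - M.om) (η - M.om) s) * h4
  have h5 : M.Ik a k η c s - M.al a k * M.Ik a k (η - M.om) (c - M.U) s =
      e (-((η + c) / M.N)) * (M.Ik a k η c s - M.Ik a k (η - M.om) (c - M.U) s) := by
    rw [← e1, e2, e3, e4]
  have h6 : e (-((η + c) / M.N)) * M.UL c η = 1 := by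
    unfold UL
    rw [← FKV_e_add, neg_add_cancel, FKV_e_zero]
  linear_combination (-M.UL c η) * h5 + (M.Ik a k (η - M.om) (c - M.U) s - M.Ik a k η c s) * h6

/-! ### the step `-1` -/

theorem gf_M1 {a : ℝ} {k b : ℤ} {η ξ : ℂ} (h : 0 < ξ.re) :
    M.gf b (b - k + M.U) 0 (a - M.om) η ξ = M.gf (b + 1) (b - k + M.U) 1 (a - M.om) η ξ -
      e (M.A * b / M.N) * M.gf (b + 1) (b - k + M.U) 1 (a - M.om) (η - 1) ξ := by
  have hN := M.N_ne
  have hom := M.om_ne
  have h3 := M.D2 b ξ (Or.inr h)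
  have h4 : ξ - ((0 : ℝ) : ℂ) = ξ := by simp
  have h5 : ξ - ((1 : ℝ) : ℂ) = ξ - 1 := by simp
  unfold gf
  rw [h4, h5, ← h3]
  have h6 : e (M.A * b / M.N) * e (-(ξ * (η - 1)) / (M.N * M.om)) =
      e (ξ / (M.N * M.om) + M.A * b / M.N) * e (-(ξ * η) / (M.N * M.om)) := by
    rw [← FKV_e_add, ← FKV_e_add]
    congr 1
    field_simp
    ring
  linear_combination (M.D (b + 1) (ξ - 1) * M.R (b - k + M.U) (ξ - (a - M.om : ℝ))) * h6

/-- Multiplication of the denominator. -/
theorem gf_M0 {a : ℝ} {k b : ℤ} {η ξ : ℂ} (h : ξ.re < a) :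
    M.D (b + 1) (ξ - 1) * M.R (b - k + M.U + 1) (ξ - 1 - (a - M.om)) *
      e (-(ξ * η) / (M.N * M.om)) =
      M.gf (b + 1) (b - k + M.U) 1 (a - M.om) η ξ -
      M.be a k * e (M.A * b / M.N) * M.gf (b + 1) (b - k + M.U) 1 (a - M.om) (η - 1) ξ := by
  have hN := M.N_ne
  have hom := M.om_ne
  have h3 := M.R2 (b - k + M.U) (ξ - (a - M.om : ℝ)) (Or.inr (by simp; linarith))
  have h4 : ξ - 1 - ((a : ℂ) - M.om) = ξ - (a - M.om : ℝ) - 1 := by
    push_cast
    ring
  have h5 : ξ - ((1 : ℝ) : ℂ) = ξ - 1 := by simp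
  unfold gf be
  rw [h4, h3, h5]
  have h6 : e (-(a / (M.N * M.om)) - M.A * k / M.N) * e (M.A * b / M.N) *
      e (-(ξ * (η - 1)) / (M.N * M.om)) =
      e ((ξ - (a - M.om : ℝ)) / (M.N * M.om) + M.A * (b - k + M.U : ℤ) / M.N) *
        e (-(ξ * η) / (M.N * M.om)) := by
    rw [← FKV_e_add, ← FKV_e_add, ← FKV_e_add]
    apply FKV_e_congr (-M.B)
    have := M.AU_cast
    push_cast
    field_simp
    linear_combination (-(M.om : ℂ)) * this
  linear_combination (M.D (b + 1) (ξ - 1) * M.R (b - k + M.U) (ξ - (a - M.om : ℝ))) * h6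

theorem gf_M2 {a : ℝ} {k b : ℤ} {η ξ : ℂ} (h : ξ.re < a) :
    M.gf (b + 1) (b + 1 - k + M.U) 0 (a - M.om) η (ξ - 1) =
      e (η / (M.N * M.om)) * (M.gf (b + 1) (b - k + M.U) 1 (a - M.om) η ξ -
      M.be a k * e (M.A * b / M.N) * M.gf (b + 1) (b - k + M.U) 1 (a - M.om) (η - 1) ξ) := by
  have hN := M.N_ne
  have hom := M.om_ne
  rw [← M.gf_M0 h]
  unfold gf
  have h3 : b + 1 - k + M.U = b - k + M.U + 1 := by ring
  have h4 : ξ - 1 - ((0 : ℝ) : ℂ) = ξ - 1 := by simp
  have h5 : ξ - 1 - ((a - M.om : ℝ) : ℂ) = ξ - 1 - (a - M.om) := by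
    push_cast
    ring
  rw [h3, h4, h5]
  have h6 : e (-((ξ - 1) * η) / (M.N * M.om)) =
      e (η / (M.N * M.om)) * e (-(ξ * η) / (M.N * M.om)) := by
    rw [← FKV_e_add]
    congr 1
    field_simp
    ring
  rw [h6]
  ring

theorem J_M1 {a s : ℝ} {k b : ℤ} {η : ℂ} (h0 : 0 < s) (hs : s < a) (h1 : a - M.om < η.re)
    (h2 : η.re < 0) :
    M.J b (b - k + M.U) 0 (a - M.om) η s = M.J (b + 1) (b - k + M.U) 1 (a - M.om) η s -
      e (M.A * b / M.N) * M.J (b + 1) (b - k + M.U) 1 (a - M.om) (η - 1) s := by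
  have hom := M.om_pos
  have i1 := M.gf_integrable (b + 1) (b - k + M.U) (x := 1) (y := a - M.om) (s := s) (η := η)
    (by linarith) h2 (by linarith) (by linarith)
  have i2 := M.gf_integrable (b + 1) (b - k + M.U) (x := 1) (y := a - M.om) (s := s)
    (η := η - 1) (by simp; linarith) (by simp; linarith) (by linarith) (by linarith)
  unfold J
  rw [← MeasureTheory.integral_const_mul, ← integral_sub i1 (i2.const_mul _)]
  congr 1
  funext t
  exact M.gf_M1 (by simpa using h0)

theorem J_M2 {a s : ℝ} {k b : ℤ} {η : ℂ} (h0 : 0 < s) (hs : s < a) (h1 : a - M.om < η.re)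
    (h2 : η.re < 0) :
    M.J (b + 1) (b + 1 - k + M.U) 0 (a - M.om) η (s - 1) =
      e (η / (M.N * M.om)) * (M.J (b + 1) (b - k + M.U) 1 (a - M.om) η s -
      M.be a k * e (M.A * b / M.N) * M.J (b + 1) (b - k + M.U) 1 (a - M.om) (η - 1) s) := by
  have hom := M.om_pos
  have i1 := M.gf_integrable (b + 1) (b - k + M.U) (x := 1) (y := a - M.om) (s := s) (η := η)
    (by linarith) h2 (by linarith) (by linarith)
  have i2 := M.gf_integrable (b + 1) (b - k + M.U) (x := 1) (y := a - M.om) (s := s)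
    (η := η - 1) (by simp; linarith) (by simp; linarith) (by linarith) (by linarith)
  unfold J
  rw [← MeasureTheory.integral_const_mul (M.be a k * e (M.A * b / M.N)),
    ← integral_sub i1 (i2.const_mul _), ← MeasureTheory.integral_const_mul]
  congr 1
  funext t
  have h3 : (((s - 1 : ℝ) : ℂ) + t * I) = ((s : ℂ) + t * I) - 1 := by
    push_cast
    ring
  rw [h3]
  exact M.gf_M2 (by simpa using hs)

/-- The second functional equation. -/
theorem Ik_rec2 {a s : ℝ} {k : ℤ} {η : ℂ} (c : ℤ) (h0 : 0 < s) (hs : s < a)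
    (h1 : a - M.om < η.re) (h2 : η.re < 0) :
    M.Ik a k η c s * (1 - M.UR c η) =
      M.Ik a k (η - 1) (c + 1) s * (1 - M.be a k * M.UR c η) := by
  have hN := M.N_ne
  have hom := M.om_ne
  have homp := M.om_pos
  have e1 : M.psum (fun b => e (M.A * b * c / M.N) * M.J b (b - k + M.U) 0 (a - M.om) η s) =
      M.Ik a k η c s - M.Ik a k (η - 1) (c + 1) s := by
    unfold Ik
    rw [← M.psum_sub]
    apply M.psum_congr
    intro b
    rw [M.J_M1 h0 hs h1 h2]
    have h3 : e (M.A * b * c / M.N) * e (M.A * b / M.N) =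
        e (M.A * b * ((c + 1 : ℤ) : ℂ) / M.N) := by
      rw [← FKV_e_add]
      congr 1
      push_cast
      field_simp
    rw [← h3]
    ring
  have e2 : M.psum (fun b => e (M.A * b * c / M.N) * M.J b (b - k + M.U) 0 (a - M.om) η s) =
      M.psum (fun b => e (M.A * b * c / M.N) *
        M.J b (b - k + M.U) 0 (a - M.om) η (s - 1)) := by
    apply M.psum_congr
    intro b
    rw [M.J_shift b (b - k + M.U) (x := 0) (y := a - M.om) (s := s) (s' := s - 1) (by linarith) h2
      (by linarith) (by linarith) (by linarith) (by linarith)]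
  have e3 : M.psum (fun b => e (M.A * b * c / M.N) *
        M.J b (b - k + M.U) 0 (a - M.om) η (s - 1)) =
      M.psum (fun b => e (M.A * ((b + 1 : ℤ) : ℂ) * c / M.N) *
        M.J (b + 1) (b + 1 - k + M.U) 0 (a - M.om) η (s - 1)) := by
    refine (M.psum_shift (fun b => e (M.A * (b : ℂ) * c / M.N) *
      M.J b (b - k + M.U) 0 (a - M.om) η (s - 1)) ?_ 1).symm
    intro b
    have h4 : b + M.N - k + M.U = b - k + M.U + M.N := by ring
    simp only [h4, M.J_per]
    congr 1
    apply FKV_e_congr (M.A * c)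
    push_cast
    field_simp
  have e4 : M.psum (fun b => e (M.A * ((b + 1 : ℤ) : ℂ) * c / M.N) *
        M.J (b + 1) (b + 1 - k + M.U) 0 (a - M.om) η (s - 1)) =
      M.UR c η * (M.Ik a k η c s - M.be a k * M.Ik a k (η - 1) (c + 1) s) := by
    unfold Ik
    rw [← M.psum_mul, ← M.psum_sub, ← M.psum_mul]
    apply M.psum_congr
    intro b
    rw [M.J_M2 h0 hs h1 h2]
    have h3 : e (M.A * b * c / M.N) * e (M.A * b / M.N) =
        e (M.A * b * ((c + 1 : ℤ) : ℂ) / M.N) := by
      rw [← FKV_e_add]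
      congr 1
      push_cast
      field_simp
    have h4 : e (M.A * ((b + 1 : ℤ) : ℂ) * c / M.N) * e (η / (M.N * M.om)) =
        M.UR c η * e (M.A * b * c / M.N) := by
      unfold UR
      rw [← FKV_e_add, ← FKV_e_add]
      congr 1
      push_cast
      field_simp
      ring
    rw [← h3]
    linear_combination (M.J (b + 1) (b - k + M.U) 1 (a - M.om) η s -
      M.be a k * e (M.A * b / M.N) * M.J (b + 1) (b - k + M.U) 1 (a - M.om) (η - 1) s) * h4
  have h5 : M.Ik a k η c s - M.Ik a k (η - 1) (c + 1) s =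
      M.UR c η * (M.Ik a k η c s - M.be a k * M.Ik a k (η - 1) (c + 1) s) := by
    rw [← e1, e2, e3, e4]
  linear_combination h5

/-- The induction relation. -/
theorem Ik_succ {a s : ℝ} {k : ℤ} {η : ℂ} (c : ℤ) (h0 : 0 < s) (hs : s < a)
    (h1 : a - M.om < η.re) (h2 : η.re < 0) :
    M.Ik (a + 1) (k - 1) η c s = M.Ik a k η c s - M.be a k * M.Ik a k (η - 1) (c + 1) s := by
  have hN := M.N_ne
  have hom := M.om_ne
  have homp := M.om_pos
  unfold Ik
  rw [← M.psum_mul, ← M.psum_sub]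
  apply M.psum_congr
  intro b
  have h3 : e (M.A * b * c / M.N) * e (M.A * b / M.N) =
      e (M.A * b * ((c + 1 : ℤ) : ℂ) / M.N) := by
    rw [← FKV_e_add]
    congr 1
    push_cast
    field_simp
  have i1 := M.gf_integrable (b + 1) (b - k + M.U) (x := 1) (y := a - M.om) (s := s) (η := η)
    (by linarith) h2 (by linarith) (by linarith)
  have i2 := M.gf_integrable (b + 1) (b - k + M.U) (x := 1) (y := a - M.om) (s := s)
    (η := η - 1) (by simp; linarith) (by simp; linarith) (by linarith) (by linarith)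
  have h4 : M.J (b + 1) (b - (k - 1) + M.U) 1 (a + 1 - M.om) η s =
      M.J (b + 1) (b - k + M.U) 1 (a - M.om) η s -
      M.be a k * e (M.A * b / M.N) * M.J (b + 1) (b - k + M.U) 1 (a - M.om) (η - 1) s := by
    unfold J
    rw [← MeasureTheory.integral_const_mul, ← integral_sub i1 (i2.const_mul _)]
    congr 1
    funext t
    rw [← M.gf_M0 (by simpa using hs)]
    unfold gf
    have h5 : b - (k - 1) + M.U = b - k + M.U + 1 := by ring
    have h6 : (s : ℂ) + t * I - ((1 : ℝ) : ℂ) = s + t * I - 1 := by simp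
    have h7 : (s : ℂ) + t * I - ((a + 1 - M.om : ℝ) : ℂ) = s + t * I - 1 - (a - M.om) := by
      push_cast
      ring
    rw [h5, h6, h7]
  rw [h4, ← h3]
  ring

end LensF

end Zau
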