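import Pool.Agent.Lib_zau.HomZMod

/-!
Existence of Frobenius elements in a prescribed coset: for an automorphism `h` of a number field
`L` with `h √D = -√D` there are infinitely many prime numbers `p` with a prime `P` of `L` above `p`
and an odd `i` such that `h ^ i` acts on `𝓞 L / P` as `x ↦ x ^ p`.
-/

open NumberField

namespace Zau

section Frob

variable {L : Type} [Field L] [NumberField L]

/-- The fixed field of `h`. -/
abbrev fixE (h : L ≃ₐ[ℚ] L) : IntermediateField ℚ L :=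
  IntermediateField.fixedField (Subgroup.zpowers h)

/-- The fixed field of `h ^ 2`. -/
abbrev fixF (h : L ≃ₐ[ℚ] L) : IntermediateField ℚ L :=
  IntermediateField.fixedField (Subgroup.zpowers (h ^ 2))

theorem fixE_le_fixF (h : L ≃ₐ[ℚ] L) : fixE h ≤ fixF h := by
  apply IntermediateField.fixedField_antitone
  rw [Subgroup.zpowers_le]
  exact Subgroup.pow_mem _ (Subgroup.mem_zpowers h) 2

theorem mem_fixE {h : L ≃ₐ[ℚ] L} {x : L} : x ∈ fixE h ↔ h x = x := by
  rw [IntermediateField.mem_fixedField_iff]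
  constructor
  · intro H
    exact H h (Subgroup.mem_zpowers h)
  · intro H g hg
    have : Subgroup.zpowers h ≤ MulAction.stabilizer (L ≃ₐ[ℚ] L) x := by
      rw [Subgroup.zpowers_le]
      exact H
    exact this hg

theorem mem_fixF {h : L ≃ₐ[ℚ] L} {x : L} : x ∈ fixF h ↔ h (h x) = x := by
  rw [IntermediateField.mem_fixedField_iff]
  constructor
  · intro H
    have := H (h ^ 2) (Subgroup.mem_zpowers _)
    rwa [pow_two] at this
  · intro H g hg
    have : Subgroup.zpowers (h ^ 2) ≤ MulAction.stabilizer (L ≃ₐ[ℚ] L) x := by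
      rw [Subgroup.zpowers_le, MulAction.mem_stabilizer_iff, pow_two]
      exact H
    exact this hg

/-- `h` acts on the fixed field of `h ^ 2`. -/
noncomputable def tauF (h : L ≃ₐ[ℚ] L) : fixF h →+* fixF h :=
  RingHom.codRestrict ((h : L →+* L).comp (algebraMap (fixF h) L)) (fixF h) (fun x => by
    rw [mem_fixF]
    have := mem_fixF.mp x.2
    show h (h (h (x : L))) = h (x : L)
    rw [this])

theorem tauF_apply (h : L ≃ₐ[ℚ] L) (x : fixF h) : ((tauF h x : fixF h) : L) = h (x : L) := rfl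

/-- the inclusion of the fixed fields -/
noncomputable def inclEF (h : L ≃ₐ[ℚ] L) : fixE h →+* fixF h :=
  (IntermediateField.inclusion (fixE_le_fixF h)).toRingHom

theorem inclEF_apply (h : L ≃ₐ[ℚ] L) (x : fixE h) : ((inclEF h x : fixF h) : L) = (x : L) := rfl

theorem invariant_fixE (h : L ≃ₐ[ℚ] L) :
    Algebra.IsInvariant (𝓞 (fixE h)) (𝓞 L) (Subgroup.zpowers h) := by
  refine ⟨fun b hb => ?_⟩
  have h1 : (b : L) ∈ fixE h := by
    rw [mem_fixE]
    have := hb ⟨h, Subgroup.mem_zpowers h⟩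
    have h2 := congrArg (fun z : 𝓞 L => (z : L)) this
    exact h2
  have h2 : IsIntegral ℤ (⟨(b : L), h1⟩ : fixE h) := by
    have h3 : IsIntegral ℤ (algebraMap (fixE h) L ⟨(b : L), h1⟩) := b.2
    exact (isIntegral_algebraMap_iff (algebraMap (fixE h) L).injective).mp h3
  refine ⟨⟨⟨(b : L), h1⟩, h2⟩, ?_⟩
  rfl

theorem smulComm_fixE (h : L ≃ₐ[ℚ] L) :
    SMulCommClass (Subgroup.zpowers h) (𝓞 (fixE h)) (𝓞 L) := by
  refine ⟨fun g a b => ?_⟩
  apply RingOfIntegers.ext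
  have hg : (g : L ≃ₐ[ℚ] L) ((a : fixE h) : L) = ((a : fixE h) : L) :=
    (IntermediateField.mem_fixedField_iff _ _).mp (a : fixE h).2 g g.2
  have e1 : ((g • (a • b) : 𝓞 L) : L) = (g : L ≃ₐ[ℚ] L) (((a : fixE h) : L) * (b : L)) := rfl
  have e2 : ((a • (g • b) : 𝓞 L) : L) = ((a : fixE h) : L) * (g : L ≃ₐ[ℚ] L) (b : L) := rfl
  rw [e1, e2, map_mul, hg]

/-- main statement -/
theorem exists_frob (h : L ≃ₐ[ℚ] L) (δ : L) (D : ℤ) (hD : D ≠ 0)
    (hδ : δ ^ 2 = (D : L)) (hhδ : h δ = -δ) (N : ℕ) :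
    ∃ p : ℕ, p.Prime ∧ N < p ∧ ∃ P : Ideal (𝓞 L), P.IsMaximal ∧ ((p : 𝓞 L) ∈ P) ∧
      ∃ i : ℕ, Odd i ∧ ∀ x : 𝓞 L, (h ^ i) • x - x ^ p ∈ P := by
  classical
  -- the element δ in the ring of integers of F
  have hδF : δ ∈ fixF h := by
    rw [mem_fixF, hhδ, map_neg, hhδ, neg_neg]
  have hδint : IsIntegral ℤ (⟨δ, hδF⟩ : fixF h) := by
    refine IsIntegral.of_pow (n := 2) (by norm_num) ?_
    have : (⟨δ, hδF⟩ : fixF h) ^ 2 = algebraMap ℤ (fixF h) D := by
      apply Subtype.ext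
      have e1 : (((⟨δ, hδF⟩ : fixF h) ^ 2 : fixF h) : L) = δ ^ 2 := rfl
      have e2 : ((algebraMap ℤ (fixF h) D : fixF h) : L) = (D : L) := by
        rw [eq_intCast]
        exact map_intCast (algebraMap (fixF h) L) D
      rw [e1, e2, hδ]
    rw [this]
    exact isIntegral_algebraMap
  let δF : 𝓞 (fixF h) := ⟨⟨δ, hδF⟩, hδint⟩
  have hδF2 : δF ^ 2 = (D : 𝓞 (fixF h)) := by
    apply RingOfIntegers.ext
    apply Subtype.ext
    have e1 : (((δF ^ 2 : 𝓞 (fixF h)) : fixF h) : L) = δ ^ 2 := rfl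
    have e2 : ((((D : 𝓞 (fixF h)) : 𝓞 (fixF h)) : fixF h) : L) = (D : L) := by
      have : (((D : 𝓞 (fixF h)) : 𝓞 (fixF h)) : fixF h) = (D : fixF h) :=
        map_intCast (algebraMap (𝓞 (fixF h)) (fixF h)) D
      rw [this]
      exact map_intCast (algebraMap (fixF h) L) D
    rw [e1, e2, hδ]
  obtain ⟨p, hp, hNp, φ, hφ⟩ := Mertens.exists_not_extend (fixE h) (fixF h)
    (RingOfIntegers.mapRingHom (inclEF h)) (RingOfIntegers.mapRingHom (tauF h))
    (by
      ext x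
      show h ((x : fixE h) : L) = ((x : fixE h) : L)
      exact mem_fixE.mp (x : fixE h).2)
    δF D hD hδF2
    (by
      apply RingOfIntegers.ext
      apply Subtype.ext
      show h δ = -δ
      exact hhδ) N
  have hpf : Fact p.Prime := ⟨hp⟩
  refine ⟨p, hp, hNp, ?_⟩
  -- the kernel of φ
  have hs : Function.Surjective φ := fun y => ⟨(y.val : 𝓞 (fixE h)), by
    rw [map_natCast, ZMod.natCast_zmod_val]⟩
  have hq : (RingHom.ker φ).IsMaximal := RingHom.ker_isMaximal_of_surjective φ hs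
  have hint : Algebra.IsIntegral (𝓞 (fixE h)) (𝓞 L) := inferInstance
  obtain ⟨P, hP, hPq⟩ := Ideal.exists_ideal_over_maximal_of_isIntegral (S := 𝓞 L)
    (RingHom.ker φ) (by
      have hinj : Function.Injective (algebraMap (𝓞 (fixE h)) (𝓞 L)) :=
        FaithfulSMul.algebraMap_injective _ _
      rw [(RingHom.injective_iff_ker_eq_bot _).mp hinj]
      exact bot_le)
  have hpP : (p : 𝓞 L) ∈ P := by
    have h1 : (p : 𝓞 (fixE h)) ∈ RingHom.ker φ := by
      rw [RingHom.mem_ker, map_natCast, ZMod.natCast_self]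
    rw [← hPq, Ideal.mem_comap, map_natCast] at h1
    exact h1
  refine ⟨P, hP, hpP, ?_⟩
  -- Frobenius element
  have hinv := invariant_fixE h
  have hsc := smulComm_fixE h
  have hPprime : P.IsPrime := hP.isPrime
  have hP0 : P ≠ ⊥ := by
    intro h0
    rw [h0, Ideal.mem_bot] at hpP
    exact hp.ne_zero (by exact_mod_cast hpP)
  have hfin : Finite (𝓞 L ⧸ P) := by
    have h1 : Ideal.absNorm P ≠ 0 := by
      intro h0
      exact hP0 (Ideal.absNorm_eq_zero_iff.mp h0)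
    exact Nat.finite_of_card_ne_zero h1
  obtain ⟨σ, hσ⟩ := IsArithFrobAt.exists_of_isInvariant (𝓞 (fixE h)) (Subgroup.zpowers h) P
  have hcard : Nat.card (𝓞 (fixE h) ⧸ P.under (𝓞 (fixE h))) = p := by
    have e1 : P.under (𝓞 (fixE h)) = RingHom.ker φ := hPq
    rw [e1, Nat.card_congr (RingHom.quotientKerEquivOfSurjective hs).toEquiv, Nat.card_zmod]
  have hσ' : ∀ x : 𝓞 L, (σ : L ≃ₐ[ℚ] L) • x - x ^ p ∈ P := by
    intro x
    have := hσ x
    rw [hcard] at this
    exact this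
  -- `σ` is a natural power of `h`
  have hfo : IsOfFinOrder h := isOfFinOrder_of_finite h
  obtain ⟨i, hi⟩ := (hfo.mem_powers_iff_mem_zpowers).mpr σ.2
  refine ⟨i, ?_, fun x => ?_⟩
  swap
  · have e : h ^ i = (σ : L ≃ₐ[ℚ] L) := hi
    rw [e]
    exact hσ' x
  by_contra hodd
  rw [Nat.not_odd_iff_even] at hodd
  obtain ⟨k, hk⟩ := hodd
  -- `σ` fixes `F`
  have hfix : ∀ y : fixF h, (σ : L ≃ₐ[ℚ] L) (y : L) = (y : L) := by
    intro y
    have e : (h ^ 2) ^ k = (σ : L ≃ₐ[ℚ] L) := by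
      rw [← hi, ← pow_mul]
      congr 1
      omega
    have h1 : (σ : L ≃ₐ[ℚ] L) ∈ Subgroup.zpowers (h ^ 2) := by
      rw [← e]
      exact Subgroup.pow_mem _ (Subgroup.mem_zpowers _) k
    exact (IntermediateField.mem_fixedField_iff _ _).mp y.2 _ h1
  -- the residue field
  let _ : Field (𝓞 L ⧸ P) := Ideal.Quotient.field P
  have hchar : CharP (𝓞 L ⧸ P) p := by
    have h0 : ((p : ℕ) : 𝓞 L ⧸ P) = 0 := by
      have : ((p : ℕ) : 𝓞 L ⧸ P) = Ideal.Quotient.mk P (p : 𝓞 L) := by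
        rw [map_natCast]
      rw [this]
      exact Ideal.Quotient.eq_zero_iff_mem.mpr hpP
    exact (CharP.charP_iff_prime_eq_zero hp).2 h0
  let c : ZMod p →+* (𝓞 L ⧸ P) := ZMod.castHom (dvd_refl p) (𝓞 L ⧸ P)
  have hcinj : Function.Injective c := c.injective
  let f : 𝓞 (fixF h) →+* (𝓞 L ⧸ P) :=
    (Ideal.Quotient.mk P).comp (algebraMap (𝓞 (fixF h)) (𝓞 L))
  have hfc : ∀ y, f y ∈ c.range := by
    intro y
    have h1 : (f y) ^ p = f y := by
      have h2 := hσ' (algebraMap (𝓞 (fixF h)) (𝓞 L) y)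
      have h3 : (σ : L ≃ₐ[ℚ] L) • (algebraMap (𝓞 (fixF h)) (𝓞 L) y) =
          algebraMap (𝓞 (fixF h)) (𝓞 L) y := by
        apply RingOfIntegers.ext
        exact hfix (y : fixF h)
      rw [h3] at h2
      have h4 := Ideal.Quotient.eq.mpr h2
      rw [map_pow] at h4
      exact h4.symm
    have h2 : f y ∈ (⊥ : Subfield (𝓞 L ⧸ P)) := (Subfield.mem_bot_iff_pow_eq_self _ p).mpr h1
    have h3 : (⊥ : Subfield (𝓞 L ⧸ P)) ≤ c.fieldRange := bot_le
    obtain ⟨z, hz⟩ := h3 h2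
    exact ⟨z, hz⟩
  let e : ZMod p ≃+* c.range := RingEquiv.ofBijective c.rangeRestrict
    ⟨fun a b hab => hcinj (congrArg Subtype.val hab), c.rangeRestrict_surjective⟩
  let ψ : 𝓞 (fixF h) →+* ZMod p := (e.symm : c.range →+* ZMod p).comp (f.codRestrict c.range hfc)
  have hψ : ∀ y, c (ψ y) = f y := by
    intro y
    have h1 : e (ψ y) = f.codRestrict c.range hfc y := e.apply_symm_apply _
    exact congrArg Subtype.val h1
  apply hφ ψ
  ext x
  apply hcinj
  rw [RingHom.comp_apply, hψ]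
  -- compare with `φ`
  have h1 : x - ((φ x).val : 𝓞 (fixE h)) ∈ RingHom.ker φ := by
    rw [RingHom.mem_ker, map_sub, map_natCast, ZMod.natCast_zmod_val, sub_self]
  rw [← hPq, Ideal.mem_comap, map_sub, map_natCast] at h1
  have h2 := Ideal.Quotient.eq.mpr h1
  rw [map_natCast] at h2
  have h3 : c (φ x) = (((φ x).val : ℕ) : 𝓞 L ⧸ P) := by
    conv_lhs => rw [← ZMod.natCast_zmod_val (φ x)]
    rw [map_natCast]
  rw [h3, ← h2]
  rfl

end Frob

end Zau
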