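import Pool.Agent.Lib_zau.Lens
import Pool.Agent.Lib_zau.CycF

/-!
# Zauner (MP_1c78a5_mp): the finite group `G = (om - 1)⁻¹ L / L` in coordinates

`(P, R)` stands for `w = (om - 1)⁻¹ (P + R β)`, `L = ℤ + ℤ β`, `om = -U + N β`, `om β = -B + A β`.
Fixed point coordinates: `r = N P + (U + 1) R`, `b = - N P - U R`, `ξ = r (om - 1) / m`,
`m = A - U - 2`.
-/

set_option autoImplicit false

namespace Zau

open Finset

/-- `(om - 1) L` in the coordinates `(P, R)`. -/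
def GamL (N : ℕ) (A B U : ℤ) : AddSubgroup (ℤ × ℤ) :=
  AddSubgroup.closure {((-U - 1, (N : ℤ)) : ℤ × ℤ), (-B, A - 1)}

/-- The group `G`. -/
abbrev GQ (N : ℕ) (A B U : ℤ) : Type := (ℤ × ℤ) ⧸ GamL N A B U

/-- The coordinate `r`. -/
def rr (N : ℕ) (U : ℤ) (x : ℤ × ℤ) : ℤ := N * x.1 + (U + 1) * x.2

/-- The coordinate `b`. -/
def bb (N : ℕ) (U : ℤ) (x : ℤ × ℤ) : ℤ := -(N * x.1) - U * x.2

/-- The form. -/
def form (N : ℕ) (A B U : ℤ) (x y : ℤ × ℤ) : ℤ :=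
  N * x.1 * y.1 + (A - 1) * x.1 * y.2 + (U + 1) * x.2 * y.1 + B * x.2 * y.2

/-- The pairing on `ℤ × ℤ`. -/
noncomputable def prZ (N : ℕ) (A B U : ℤ) (x y : ℤ × ℤ) : ℂ :=
  Ghost.e ((form N A B U x y : ℂ) / ((A - U - 2 : ℤ) : ℂ))

/-- The pairing on `G`. -/
noncomputable def prG (N : ℕ) (A B U : ℤ) (x y : GQ N A B U) : ℂ :=
  prZ N A B U (Quotient.out x) (Quotient.out y)

/-- The ghost solution on `ℤ × ℤ`. -/
noncomputable def bZ (L : Lens) (x : ℤ × ℤ) : ℂ :=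
  L.P.b * L.D 0 0 * L.R (bb L.N L.U x - (L.U + 1) * (rr L.N L.U x / (L.A - L.U - 2)))
    (((rr L.N L.U x % (L.A - L.U - 2) : ℤ) : ℂ) * ((L.om : ℂ) - 1) / ((L.A - L.U - 2 : ℤ) : ℂ))

/-- The ghost solution on `G`. -/
noncomputable def bG (L : Lens) (x : GQ L.N L.A L.B L.U) : ℂ := bZ L (Quotient.out x)

/-- `κ = √om - 1 / √om`. -/
noncomputable def kapL (L : Lens) : ℂ := L.P.b - L.P.o

section

variable {N : ℕ} {A B U : ℤ}

theorem form_symm (x y : ℤ × ℤ) :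
    form N A B U x y = form N A B U y x + (A - U - 2) * (x.1 * y.2 - x.2 * y.1) := by
  unfold form
  ring

theorem rr_g1 (x : ℤ × ℤ) : rr N U (x + (-U - 1, (N : ℤ))) = rr N U x := by
  unfold rr
  simp only [Prod.fst_add, Prod.snd_add]
  ring

theorem rr_g2 (hdet : B * N = A * U + 1) (x : ℤ × ℤ) :
    rr N U (x + (-B, A - 1)) = rr N U x + (A - U - 2) := by
  unfold rr
  simp only [Prod.fst_add, Prod.snd_add]
  linear_combination -hdet

theorem bb_g1 (x : ℤ × ℤ) : bb N U (x + (-U - 1, (N : ℤ))) = bb N U x + N := by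
  unfold bb
  simp only [Prod.fst_add, Prod.snd_add]
  ring

theorem bb_g2 (hdet : B * N = A * U + 1) (x : ℤ × ℤ) :
    bb N U (x + (-B, A - 1)) = bb N U x + (U + 1) := by
  unfold bb
  simp only [Prod.fst_add, Prod.snd_add]
  linear_combination hdet

end

end Zau
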