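import Pool.Agent.Lib_zau.GLstar
import Pool.Agent.Lib_zau.Near3

/-!
# Zauner (MP_1c78a5_mp): the near group equation in the form of block B9
-/

set_option autoImplicit false

namespace Zau

/-- The output of block B4. -/
theorem starAll : StarAll := fun L hD _ _ hl hlN p hp hlp y => L.star_prime hD hl hlN p hp hlp y

end Zau
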