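import Pool.Agent.Lib_zau.LensMk

/-!
# The exact reflection constant, the value at the representative of zero, positivity
-/

open Complex MeasureTheory Set Filter Topology
open scoped Real ComplexConjugate

namespace Zau

open Ghost

theorem e_neg_half : e (-1 / 2) = -1 := by
  unfold e
  have : 2 * (π : ℂ) * I * (-1 / 2) = -(π * I) := by ring
  rw [this, Complex.exp_neg, Complex.exp_pi_mul_I]
  norm_num

theorem e_qS_add_one {om : ℝ} (h : om ≠ 0) (z : ℂ) :
    e (qS om (z + 1)) = -(e (qS om z) * e (z / om)) := by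
  have h5 : qS om (z + 1) = qS om z + z / om + (-1 / 2) := by
    have : (om : ℂ) ≠ 0 := by exact_mod_cast h
    unfold qS
    field_simp
    ring
  rw [h5, e_add, e_add, e_neg_half]
  ring

section

variable {N : ℕ} {A U : ℤ} {om : ℝ}

theorem Ee_eq_prodF (N : ℕ) (U : ℤ) (om : ℝ) (b : ℤ) (x : ℂ) :
    Ee N U om b x = prodF N U om (fun z => cS om * e (qS om z)) b x := by
  unfold Ee prodF
  rw [e_sum, Finset.prod_mul_distrib, Finset.prod_const, Finset.card_range]

/-- The first difference equation of the reflection exponential. -/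
theorem LP.Ee_step (h : LP N A U om) (b : ℤ) (x : ℂ) :
    Ee N U om b x = -e (x / (N * om) + A * b / N) * Ee N U om (b + 1) (x - 1) := by
  obtain ⟨C, h1, h2⟩ := h.prod_step_one (fun z => cS om * e (qS om z)) b x
  rw [Ee_eq_prodF, Ee_eq_prodF, h1, h2, e_qS_add_one h.hom.ne, h.e_w2]
  ring

theorem LP.sum_rhoC (h : LP N A U om) (b : ℤ) :
    ∑ m ∈ Finset.range N, (rho N U b m : ℂ) = N * (N + 1) / 2 := by
  have h1 := h.sum_rhoR b
  have h2 := congrArg (fun r : ℝ => (r : ℂ)) h1
  push_cast at h2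
  exact h2

theorem sum_range_idC (N : ℕ) : ∑ m ∈ Finset.range N, (m : ℂ) = N * (N - 1) / 2 := by
  have h1 := sum_range_id' N
  have h2 := congrArg (fun r : ℝ => (r : ℂ)) h1
  push_cast at h2
  exact h2

/-- Dependence on `x`. -/
theorem LP.Ee_x (h : LP N A U om) (b : ℤ) (x : ℂ) :
    Ee N U om b x = Ee N U om b 0 * e (x * (x - om + 1) / (2 * N * om)) := by
  have hN := h.NC
  have hom := h.hom.neC
  have h1 : ∑ m ∈ Finset.range N, qS om (zz N U om b m x) =
      ∑ m ∈ Finset.range N, qS om (zz N U om b m 0) + x * (x - om + 1) / (2 * N * om) := by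
    rw [← sub_eq_iff_eq_add', ← Finset.sum_sub_distrib]
    have h2 : ∀ m ∈ Finset.range N, qS om (zz N U om b m x) - qS om (zz N U om b m 0) =
        x * (x - (1 + om) * N) / (2 * N ^ 2 * om) + x / (N ^ 2 * om) * om * (m : ℂ) +
          x / (N ^ 2 * om) * (rho N U b m : ℂ) := by
      intro m _
      unfold qS zz
      field_simp
      ring
    rw [Finset.sum_congr rfl h2, Finset.sum_add_distrib, Finset.sum_add_distrib, Finset.sum_const,
      ← Finset.mul_sum, ← Finset.mul_sum, sum_range_idC, h.sum_rhoC, Finset.card_range,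
      nsmul_eq_mul]
    field_simp
    ring
  unfold Ee
  rw [h1, e_add]
  ring

/-- The exponent of the normalised reflection exponential. -/
noncomputable def gx (N : ℕ) (A : ℤ) (om : ℝ) (b : ℤ) (x : ℂ) : ℂ :=
  x * (x - om + 1) / (2 * N * om) + (b * (N - 1) - A * b * (b - 1)) / (2 * N)

theorem LP.Ee_b_succ (h : LP N A U om) (b : ℤ) :
    Ee N U om (b + 1) 0 = e ((N - 1 - 2 * A * b) / (2 * N)) * Ee N U om b 0 := by
  have hN := h.NC
  have hom := h.hom.neC
  have h1 := h.Ee_step b 0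
  have h2 := h.Ee_x (b + 1) (0 - 1)
  rw [h2] at h1
  rw [h1]
  have h3 : e ((N - 1 - 2 * A * b : ℂ) / (2 * N)) * -e ((0 : ℂ) / (N * om) + A * b / N) *
      e ((0 - 1) * (0 - 1 - om + 1) / (2 * N * om)) = 1 := by
    have h5 : -e ((0 : ℂ) / (N * om) + A * b / N) = e (-1 / 2) * e ((0 : ℂ) / (N * om) + A * b / N) := by
      rw [e_neg_half]
      ring
    rw [h5, ← e_add, ← e_add, ← e_add]
    have h6 : (N - 1 - 2 * A * b : ℂ) / (2 * N) + (-1 / 2 + ((0 : ℂ) / (N * om) + A * b / N)) +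
        (0 - 1) * (0 - 1 - om + 1) / (2 * N * om) = 0 := by
      field_simp
      ring
    rw [h6, e_zero]
  linear_combination (-(Ee N U om (b + 1) 0)) * h3

/-- Dependence on `b`. -/
theorem LP.Ee_b (h : LP N A U om) (b : ℤ) :
    Ee N U om b 0 = Ee N U om 0 0 * e ((b * (N - 1) - A * b * (b - 1)) / (2 * N)) := by
  have hN := h.NC
  induction b using Int.induction_on with
  | zero =>
    have : (((0 : ℤ) : ℂ) * (N - 1) - A * ((0 : ℤ) : ℂ) * (((0 : ℤ) : ℂ) - 1)) / (2 * N) = 0 := by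
      push_cast
      ring
    rw [this, e_zero, mul_one]
  | succ n ih =>
    rw [h.Ee_b_succ, ih]
    have h1 : ((((n : ℤ) + 1 : ℤ) : ℂ) * (N - 1) -
        A * (((n : ℤ) + 1 : ℤ) : ℂ) * ((((n : ℤ) + 1 : ℤ) : ℂ) - 1)) / (2 * N) =
        (N - 1 - 2 * A * ((n : ℤ) : ℂ)) / (2 * N) +
        ((((n : ℤ) : ℂ)) * (N - 1) - A * ((n : ℤ) : ℂ) * (((n : ℤ) : ℂ) - 1)) / (2 * N) := by
      push_cast
      field_simp
      ring
    rw [h1, e_add]
    ring
  | pred n ih =>
    have h2 := h.Ee_b_succ (-(n : ℤ) - 1)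
    have h3 : -(n : ℤ) - 1 + 1 = -(n : ℤ) := by ring
    rw [h3, ih] at h2
    have h4 : ((((-(n : ℤ)) : ℤ) : ℂ) * (N - 1) -
        A * ((-(n : ℤ) : ℤ) : ℂ) * (((-(n : ℤ) : ℤ) : ℂ) - 1)) / (2 * N) =
        (N - 1 - 2 * A * ((-(n : ℤ) - 1 : ℤ) : ℂ)) / (2 * N) +
        ((((-(n : ℤ) - 1 : ℤ) : ℂ)) * (N - 1) -
          A * ((-(n : ℤ) - 1 : ℤ) : ℂ) * (((-(n : ℤ) - 1 : ℤ) : ℂ) - 1)) / (2 * N) := by
      push_cast
      field_simp
      ring
    rw [h4, e_add] at h2
    have h5 := e_ne ((N - 1 - 2 * A * ((-(n : ℤ) - 1 : ℤ) : ℂ)) / (2 * N))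
    apply mul_left_cancel₀ h5
    rw [← h2]
    ring

/-- The reflection exponential, exactly. -/
theorem LP.Ee_eq (h : LP N A U om) (b : ℤ) (x : ℂ) :
    Ee N U om b x = Ee N U om 0 0 * e (gx N A om b x) := by
  rw [h.Ee_x, h.Ee_b]
  unfold gx
  rw [e_add]
  ring

/-- (D4). -/
theorem LP.Df_tau (h : LP N A U om) {b : ℤ} {x : ℂ} (hx : ¬ PoleD N U om b x)
    (hx' : ¬ PoleD N U om (b + U + 1) (x + om - 1)) :
    Df N U om (b + U + 1) (x + om - 1) * (1 - e (x / (N * om) + A * b / N)) =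
      Df N U om b x * (1 - e ((x + b) / N)) := by
  have h1 := h.Df_step_om hx
  have h2 := h.Df_step_one (b := b + U) (x := x + om) hx'
  have hN := h.NC
  have hom := h.hom.neC
  have h3 : e ((x + om) / (N * om) + A * ((b + U : ℤ) : ℂ) / N) = e (x / (N * om) + A * b / N) := by
    obtain ⟨B, hB⟩ := h.hAU
    have h4 : (x + om) / (N * om) + A * ((b + U : ℤ) : ℂ) / N =
        (x / (N * om) + A * b / N) + ((B : ℤ) : ℂ) := by
      have h5 : (A : ℂ) * U + 1 = N * B := by exact_mod_cast hB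
      push_cast
      field_simp
      linear_combination (om : ℂ) * h5
    rw [h4, e_add_int]
  rw [h3] at h2
  rw [← h1, h2]

/-- `D_{U+1} (om - 1) = om D_0 (0)`. -/
theorem LP.Df_zero (h : LP N A U om) :
    Df N U om (U + 1) (om - 1) = om * Df N U om 0 0 := by
  have hN := h.NC
  have hom := h.hom.neC
  have hom1 := h.hom.one_lt
  have hp0 : ¬ PoleD N U om 0 0 := h.not_poleD_of_re (by simp)
  have hp1 : ¬ PoleD N U om (U + 1) (om - 1) := h.not_poleD_of_re (by
    simp only [Complex.sub_re, Complex.ofReal_re, Complex.one_re]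
    linarith)
  have hd0 : HasDerivAt (Df N U om 0) (deriv (Df N U om 0) 0) 0 :=
    (h.Df_differentiableAt hp0).hasDerivAt
  have hd1 : HasDerivAt (fun x : ℂ => Df N U om (U + 1) (x + om - 1))
      (deriv (Df N U om (U + 1)) (om - 1)) 0 := by
    have h1 : HasDerivAt (Df N U om (U + 1)) (deriv (Df N U om (U + 1)) (om - 1)) (0 + om - 1) := by
      rw [zero_add]
      exact (h.Df_differentiableAt hp1).hasDerivAt
    have h2 : HasDerivAt (fun x : ℂ => x + om - 1) 1 0 := ((hasDerivAt_id (0 : ℂ)).add_const _).sub_const _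
    have h3 : HasDerivAt (fun x : ℂ => Df N U om (U + 1) (x + om - 1))
        (deriv (Df N U om (U + 1)) (om - 1) * 1) 0 :=
      HasDerivAt.comp (h := fun x : ℂ => x + om - 1) (0 : ℂ) h1 h2
    rw [mul_one] at h3
    exact h3
  have he : ∀ c : ℂ, HasDerivAt (fun x : ℂ => 1 - e (x * c)) (-(2 * π * I * c)) 0 := by
    intro c
    unfold e
    have h1 : HasDerivAt (fun x : ℂ => 2 * π * I * (x * c)) (2 * π * I * c) 0 := by
      have h2 := ((hasDerivAt_id (0 : ℂ)).mul_const c).const_mul (2 * π * I : ℂ)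
      simpa using h2
    have h3 := h1.cexp
    have h4 : Complex.exp (2 * π * I * ((0 : ℂ) * c)) = 1 := by simp
    rw [h4, one_mul] at h3
    simpa using h3.const_sub 1
  have hL : HasDerivAt (fun x : ℂ => Df N U om 0 x * (1 - e (x * (1 / N))))
      (Df N U om 0 0 * (-(2 * π * I * (1 / N)))) 0 := by
    have h1 := hd0.mul (he (1 / N))
    have h2 : (1 : ℂ) - e (0 * (1 / N)) = 0 := by rw [zero_mul, e_zero, sub_self]
    rw [h2, mul_zero, zero_add] at h1
    exact h1
  have hR : HasDerivAt (fun x : ℂ => Df N U om (U + 1) (x + om - 1) * (1 - e (x * (1 / (N * om)))))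
      (Df N U om (U + 1) (om - 1) * (-(2 * π * I * (1 / (N * om))))) 0 := by
    have h1 := hd1.mul (he (1 / (N * om)))
    have h2 : (1 : ℂ) - e (0 * (1 / (N * om))) = 0 := by rw [zero_mul, e_zero, sub_self]
    rw [h2, mul_zero, zero_add] at h1
    simp only [zero_add] at h1
    exact h1
  have heq : (fun x : ℂ => Df N U om (U + 1) (x + om - 1) * (1 - e (x * (1 / (N * om))))) =ᶠ[𝓝 0]
      (fun x : ℂ => Df N U om 0 x * (1 - e (x * (1 / N)))) := by
    have hopen : IsOpen {x : ℂ | -1 < x.re} := isOpen_lt continuous_const Complex.continuous_re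
    filter_upwards [hopen.mem_nhds (by simp : (0 : ℂ) ∈ {x : ℂ | -1 < x.re})] with x hx
    have hx0 : -1 < x.re := hx
    have h1 := h.Df_tau (b := 0) (x := x) (h.not_poleD_of_re hx0) (by
      apply h.not_poleD_of_re
      simp only [Complex.sub_re, Complex.add_re, Complex.ofReal_re, Complex.one_re]
      linarith)
    have e1 : (x / (N * om) + A * ((0 : ℤ) : ℂ) / N : ℂ) = x * (1 / (N * om)) := by
      push_cast
      ring
    have e2 : ((x + ((0 : ℤ) : ℂ)) / N : ℂ) = x * (1 / N) := by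
      push_cast
      ring
    rw [e1, e2, zero_add] at h1
    exact h1
  have h5 := (hR.congr_of_eventuallyEq heq.symm).unique hL
  have h6 : (2 * (π : ℂ) * I) ≠ 0 := by
    simp [Real.pi_ne_zero]
  have h7 : Df N U om (U + 1) (om - 1) * (-(2 * π * I * (1 / (N * om)))) * (-(N * om)) / (2 * π * I) =
      Df N U om 0 0 * (-(2 * π * I * (1 / N))) * (-(N * om)) / (2 * π * I) := by rw [h5]
  field_simp at h7
  linear_combination h7

/-- The constant in the reflection formula. -/
theorem LP.Ee_zero (h : LP N A U om) : Ee N U om 0 0 = om * Df N U om 0 0 ^ 2 := by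
  have hom1 := h.hom.one_lt
  have h1 := h.Df_reflect (b := 0) (x := 0) (h.not_poleD_of_re (by simp)) (by
    apply h.not_poleD_of_re
    simp only [Complex.sub_re, Complex.ofReal_re, Complex.one_re, Complex.zero_re]
    linarith)
  have e1 : U + 1 - 0 = U + 1 := by ring
  have e2 : (om : ℂ) - 1 - 0 = om - 1 := by ring
  rw [e1, e2, h.Df_zero] at h1
  rw [← h1]
  ring

/-- `D_b (x) D_{U+1-b} (om - 1 - x) = om D_0 (0) ^ 2 e (gx b x)`. -/
theorem LP.Df_reflect' (h : LP N A U om) {b : ℤ} {x : ℂ} (hx : ¬ PoleD N U om b x)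
    (hx' : ¬ PoleD N U om (U + 1 - b) (om - 1 - x)) :
    Df N U om b x * Df N U om (U + 1 - b) (om - 1 - x) =
      om * Df N U om 0 0 ^ 2 * e (gx N A om b x) := by
  rw [h.Df_reflect hx hx', h.Ee_eq, h.Ee_zero]

/-- At the fixed points the reflection exponential is a root of unity. -/
theorem LP.gx_fixed (h : LP N A U om) {m : ℤ} (hm : om + om⁻¹ - 2 = m) (b r : ℤ) :
    e (gx N A om b (om * r / (om - 1))) ^ (2 * N * m.natAbs) = 1 := by
  have hN := h.NC
  have hom := h.hom.neC
  have hom1 : (om : ℂ) - 1 ≠ 0 := by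
    have := h.hom.one_lt
    have h1 : om - 1 ≠ 0 := by linarith
    exact_mod_cast h1
  have hmC : (om : ℂ) + (om : ℂ)⁻¹ - 2 = m := by
    rw [← Complex.ofReal_inv]
    exact_mod_cast hm
  have hmC' : ((om : ℂ) - 1) ^ 2 = m * om := by
    rw [← hmC]
    field_simp
    ring
  have hm0 : (m : ℂ) ≠ 0 := by
    intro h0
    rw [h0, zero_mul] at hmC'
    exact hom1 (pow_eq_zero_iff (two_ne_zero)|>.1 hmC')
  have h2 : gx N A om b (om * r / (om - 1)) =
      ((r : ℂ) ^ 2 - r * m + m * (b * (N - 1) - A * b * (b - 1))) / (2 * N * m) := by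
    unfold gx
    have h3 : (om : ℂ) * r / (om - 1) * (om * r / (om - 1) - om + 1) / (2 * N * om) =
        ((r : ℂ) ^ 2 - r * m) / (2 * N * m) := by
      have h4 : (om : ℂ) * r / (om - 1) * (om * r / (om - 1) - om + 1) =
          om * ((r : ℂ) ^ 2 * om / (om - 1) ^ 2 - r) := by
        field_simp
        ring
      rw [h4, hmC']
      field_simp
    rw [h3]
    field_simp
  rw [← e_nat_mul]
  rw [h2]
  have h5 : ((2 * N * m.natAbs : ℕ) : ℂ) *
      (((r : ℂ) ^ 2 - r * m + m * (b * (N - 1) - A * b * (b - 1))) / (2 * N * m)) =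
      (m.sign * (r ^ 2 - r * m + m * (b * (N - 1) - A * b * (b - 1))) : ℤ) := by
    have h6 : ((m.natAbs : ℕ) : ℂ) = m.sign * m := by
      have h7 : ((m.natAbs : ℕ) : ℤ) = m.sign * m := (Int.sign_mul_self_eq_natAbs m).symm
      calc ((m.natAbs : ℕ) : ℂ) = (((m.natAbs : ℕ) : ℤ) : ℂ) := (Int.cast_natCast _).symm
        _ = ((m.sign * m : ℤ) : ℂ) := by rw [h7]
        _ = m.sign * m := Int.cast_mul _ _
    push_cast
    rw [h6]
    field_simp
  rw [h5, e_int]

/-- The ratio of the values at `w` and `- w` is a square of real numbers for real `x`. -/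
theorem LP.Df_ratio (h : LP N A U om) {b : ℤ} {x : ℝ} (h1 : -1 < x) (h2 : x < om) :
    ∃ y : ℝ, 0 < y ∧ (∏ m ∈ Finset.range N, G (Pom om) (xo om (zz N U om b m x))) = y ∧
      Df N U om b x = Df N U om (U + 1 - b) (om - 1 - x) * (y : ℂ) ^ 2 := by
  have hN := h.NR
  have hp1 : ¬ PoleD N U om b (x : ℂ) := h.not_poleD_of_re (by simpa using h1)
  have hp2 : ¬ PoleD N U om (U + 1 - b) (om - 1 - (x : ℂ)) := by
    apply h.not_poleD_of_re
    simp only [Complex.sub_re, Complex.ofReal_re, Complex.one_re]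
    linarith
  have hz : ∀ m : ℕ, m < N → ∃ y : ℝ, 0 < y ∧ G (Pom om) (xo om (zz N U om b m x)) = y := by
    intro m hm
    have h3 : zz N U om b m (x : ℂ) = (((x + m * om + rho N U b m) / N : ℝ) : ℂ) := by
      unfold zz
      push_cast
      rfl
    rw [h3]
    have e1 : (1 : ℝ) ≤ rho N U b m := by exact_mod_cast one_le_rho h.hN U b m
    have e2 : (rho N U b m : ℝ) ≤ N := by exact_mod_cast rho_le h.hN U b m
    have e3 : (m : ℝ) + 1 ≤ N := by exact_mod_cast hm
    have e4 : 0 ≤ (m : ℝ) * om := mul_nonneg (Nat.cast_nonneg _) h.hom.pos.le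
    have e5 := mul_le_mul_of_nonneg_right e3 h.hom.pos.le
    apply G_real_pos h.hom
    · apply div_pos _ hN
      linarith
    · rw [div_lt_iff₀ hN]
      linarith
  choose! y hy0 hy using hz
  refine ⟨∏ m ∈ Finset.range N, y m, Finset.prod_pos fun m hm => hy0 m (Finset.mem_range.1 hm),
    ?_, ?_⟩
  · push_cast
    exact Finset.prod_congr rfl fun m hm => hy m (Finset.mem_range.1 hm)
  · have h3 : Df N U om (U + 1 - b) (om - 1 - x) =
        ∏ m ∈ Finset.range N, Sf om (1 + om - zz N U om b m x) := by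
      unfold Df
      rw [← Finset.prod_range_reflect]
      refine Finset.prod_congr rfl fun m hm => ?_
      rw [h.zz_reflect (Finset.mem_range.1 hm)]
    rw [h3]
    push_cast
    rw [← Finset.prod_pow, ← Finset.prod_mul_distrib]
    unfold Df
    refine Finset.prod_congr rfl fun m hm => ?_
    have hm' := Finset.mem_range.1 hm
    rw [← hy m hm']
    exact Sf_eq_sq h.hom (h.not_pole hp1 hm') (h.not_pole_reflect hp2 hm')

end

end Zau
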