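import Pool.Agent.Lib_zau.Lens
import Pool.Agent.Lib_MP_1c78a5_ghost.CRes

/-!
# The main contour: definitions and elementary facts
-/

open Complex MeasureTheory Set Filter Topology
open scoped Real

namespace Zau

namespace Lens

theorem om_gt_one (L : Lens) : 1 < L.om := by
  have h := L.hub
  unfold om
  nlinarith

theorem om_pos (L : Lens) : 0 < L.om := lt_trans one_pos L.om_gt_one

theorem om_ne (L : Lens) : L.om ≠ 0 := L.om_pos.ne'

theorem om_ne_c (L : Lens) : (L.om : ℂ) ≠ 0 := by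
  exact_mod_cast L.om_ne

theorem om_sub_ne (L : Lens) : L.om - 1 ≠ 0 := by
  have := L.om_gt_one
  linarith

theorem om_sub_ne_c (L : Lens) : (L.om : ℂ) - 1 ≠ 0 := by
  exact_mod_cast L.om_sub_ne

theorem om_cast (L : Lens) : (L.om : ℂ) = (L.P.b : ℂ) ^ 2 := by
  unfold om
  push_cast
  ring

theorem N_pos (L : Lens) : (0 : ℝ) < L.N := by
  exact_mod_cast L.hN

theorem N_ne_c (L : Lens) : (L.N : ℂ) ≠ 0 := by
  exact_mod_cast L.hN.ne'

theorem o_sq (L : Lens) : L.P.o ^ 2 = 1 / L.om := by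
  unfold om
  have h1 := L.P.hbo
  have h2 := L.P.hb
  field_simp
  nlinarith

theorem om_rel (L : Lens) : L.om + 1 / L.om = (L.A : ℝ) - L.U := by
  have h := L.htr
  rw [L.o_sq] at h
  push_cast at h
  exact h

/-- the order of the group of fixed points -/
def m (L : Lens) : ℤ := L.A - L.U - 2

theorem m_pos (L : Lens) : 0 < L.m := by
  have := L.hAU
  unfold m
  omega

theorem om_m (L : Lens) : L.om * L.m = (L.om - 1) ^ 2 := by
  have h := L.om_rel
  have h1 := L.om_ne
  unfold m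
  push_cast
  rw [← h]
  field_simp
  ring

/-- the ordinates of the fixed points -/
noncomputable def xi (L : Lens) (r : ℤ) : ℝ := L.om * r / (L.om - 1)

theorem xi_m (L : Lens) : L.xi L.m = L.om - 1 := by
  unfold xi
  rw [L.om_m]
  have := L.om_sub_ne
  field_simp

theorem xi_zero (L : Lens) : L.xi 0 = 0 := by
  unfold xi
  simp

theorem xi_add (L : Lens) (r s : ℤ) : L.xi (r + s) = L.xi r + L.xi s := by
  unfold xi
  push_cast
  ring

theorem xi_sub (L : Lens) (r s : ℤ) : L.xi (r - s) = L.xi r - L.xi s := by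
  unfold xi
  push_cast
  ring

theorem xi_neg (L : Lens) (r : ℤ) : L.xi (-r) = -L.xi r := by
  unfold xi
  push_cast
  ring

theorem xi_fac_pos (L : Lens) : 1 < L.om / (L.om - 1) := by
  have := L.om_gt_one
  rw [lt_div_iff₀ (by linarith)]
  linarith

theorem xi_eq (L : Lens) (r : ℤ) : L.xi r = L.om / (L.om - 1) * r := by
  unfold xi
  ring

theorem xi_lt (L : Lens) {r s : ℤ} (h : r < s) : L.xi r + 1 < L.xi s := by
  rw [xi_eq, xi_eq]
  have h1 := L.xi_fac_pos
  have h2 : (r : ℝ) + 1 ≤ s := by exact_mod_cast h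
  nlinarith

theorem xi_le (L : Lens) {r s : ℤ} (h : r ≤ s) : L.xi r ≤ L.xi s := by
  rcases h.eq_or_lt with rfl | h
  · exact le_rfl
  · linarith [L.xi_lt h]

theorem xi_lt_iff (L : Lens) {r s : ℤ} : L.xi r < L.xi s ↔ r < s := by
  constructor
  · intro h
    by_contra h2
    push Not at h2
    linarith [L.xi_le h2]
  · intro h
    linarith [L.xi_lt h]

theorem one_lt_xi (L : Lens) {r : ℤ} (h : 0 < r) : 1 < L.xi r := by
  have := L.xi_lt h
  rw [xi_zero] at this
  linarith

/-- the quotient `U_L / U_R` -/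
noncomputable def qq (L : Lens) (z : ℂ) (b : ℤ) : ℂ :=
  Ghost.e (z * ((L.om : ℂ) - 1) / (L.N * (L.om : ℂ)) - ((L.A : ℂ) - 1) * b / L.N)

/-- the integrand of the main contour, for `p = (xi p0, k)`, `v = (xi v0, c)` -/
noncomputable def KK (L : Lens) (p0 k v0 c : ℤ) (z : ℂ) (b : ℤ) : ℂ :=
  L.chi (L.xi v0) c z b * (L.D b z * L.R (b - k) (z - L.xi p0)) * (1 - L.qq z b)⁻¹

/-- the constant `alpha = e (-(xi p0 + k) / N)` -/
noncomputable def al (L : Lens) (p0 k : ℤ) : ℂ := Ghost.e (-((L.xi p0 : ℂ) + k) / L.N)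

/-- the fixed points with second component `b`, between `1` and `m` -/
noncomputable def pts (L : Lens) (b : ℤ) : Finset ℤ :=
  (Finset.Icc 1 L.m).filter (fun r => (L.N : ℤ) ∣ r - (L.A - 1) * b)

/-- the term of the fixed point sum -/
noncomputable def term (L : Lens) (p0 k v0 c : ℤ) (r b : ℤ) : ℂ :=
  L.chi (L.xi v0) c (L.xi r) b * (L.D b (L.xi r) * L.R (b - k) (L.xi r - L.xi p0))

end Lens

end Zau
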