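import Pool.Agent.Lib_zau.Vdm
import Pool.Agent.Lib_zau.GamD
import Pool.Agent.Lib_zau.GLDefs
import Pool.Agent.Lib_zau.MDefs

/-!
# Zauner (MP_1c78a5_mp), B4, first part: the finite group of fixed points of a lens

`GQ L.N L.A L.B L.U = (ℤ × ℤ) / ⟨(-U-1, N), (-B, A-1)⟩` has `m = A - U - 2` elements, the pairing
`prG` is nondegenerate, `gamG` is the quadratic function with `b w * b (-w) = gamG w`.
-/

set_option autoImplicit false

open Finset

namespace Zau

open Ghost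

section

variable {N : ℕ} {U : ℤ}

theorem rr_add (x y : ℤ × ℤ) : rr N U (x + y) = rr N U x + rr N U y := by
  simp only [rr, Prod.fst_add, Prod.snd_add]; ring

theorem bb_add (x y : ℤ × ℤ) : bb N U (x + y) = bb N U x + bb N U y := by
  simp only [bb, Prod.fst_add, Prod.snd_add]; ring

theorem rr_neg (x : ℤ × ℤ) : rr N U (-x) = -rr N U x := by
  simp only [rr, Prod.fst_neg, Prod.snd_neg]; ring

theorem bb_neg (x : ℤ × ℤ) : bb N U (-x) = -bb N U x := by
  simp only [bb, Prod.fst_neg, Prod.snd_neg]; ring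

theorem rr_sub (x y : ℤ × ℤ) : rr N U (x - y) = rr N U x - rr N U y := by
  simp only [rr, Prod.fst_sub, Prod.snd_sub]; ring

theorem bb_sub (x y : ℤ × ℤ) : bb N U (x - y) = bb N U x - bb N U y := by
  simp only [bb, Prod.fst_sub, Prod.snd_sub]; ring

theorem rr_zero : rr N U 0 = 0 := by simp [rr]

theorem bb_zero : bb N U 0 = 0 := by simp [bb]

end

namespace Lens

variable (L : Lens)

/-- The group. -/
abbrev GG : Type := GQ L.N L.A L.B L.U

theorem m_ne : L.m ≠ 0 := L.m_pos.ne'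

theorem m_neC : (L.m : ℂ) ≠ 0 := by
  exact_mod_cast L.m_ne

theorem hNZ : (0 : ℤ) < L.N := by
  exact_mod_cast L.hN

/-- The relations. -/
def relHom : (ℤ × ℤ) →+ (ℤ × ℤ) where
  toFun x := (-(L.U + 1) * x.1 - L.B * x.2, L.N * x.1 + (L.A - 1) * x.2)
  map_zero' := by simp
  map_add' x y := by
    ext
    · simp only [Prod.fst_add, Prod.snd_add]; ring
    · simp only [Prod.fst_add, Prod.snd_add]; ring

theorem relHom_apply (x : ℤ × ℤ) :
    L.relHom x = (-(L.U + 1) * x.1 - L.B * x.2, L.N * x.1 + (L.A - 1) * x.2) := rfl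

/-- The subgroup of relations. -/
abbrev Rel : AddSubgroup (ℤ × ℤ) := GamL L.N L.A L.B L.U

theorem Rel_eq : L.Rel = L.relHom.range := by
  apply le_antisymm
  · refine (AddSubgroup.closure_le _).2 ?_
    rintro z hz
    rcases hz with rfl | rfl
    · exact ⟨(1, 0), by rw [relHom_apply]; ext <;> simp; ring⟩
    · exact ⟨(0, 1), by rw [relHom_apply]; ext <;> simp⟩
  · rintro _ ⟨x, rfl⟩
    have h1 : L.relHom x = x.1 • ((-L.U - 1, (L.N : ℤ)) : ℤ × ℤ) + x.2 • ((-L.B, L.A - 1) : ℤ × ℤ) := by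
      rw [relHom_apply]
      ext
      · simp only [Prod.fst_add, Prod.smul_fst, smul_eq_mul]; ring
      · simp only [Prod.snd_add, Prod.smul_snd, smul_eq_mul]; ring
    rw [h1]
    refine add_mem (zsmul_mem (AddSubgroup.subset_closure ?_) _)
      (zsmul_mem (AddSubgroup.subset_closure ?_) _)
    · exact Or.inl rfl
    · exact Or.inr rfl

theorem mem_Rel' (z : ℤ × ℤ) : z ∈ L.Rel ↔ ∃ x, L.relHom x = z := by
  rw [Rel_eq]
  exact Iff.rfl

theorem rr_rel (x : ℤ × ℤ) : rr L.N L.U (L.relHom x) = x.2 * L.m := by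
  have h := L.hdet
  simp only [rr, relHom_apply, m]
  linear_combination (-x.2) * h

theorem bb_rel (x : ℤ × ℤ) : bb L.N L.U (L.relHom x) = x.1 * L.N + x.2 * (L.U + 1) := by
  have h := L.hdet
  simp only [bb, relHom_apply]
  linear_combination (x.2) * h

/-- The fixed point equation. -/
theorem fix (x : ℤ × ℤ) : rr L.N L.U x - (L.A - 1) * bb L.N L.U x =
    L.N * (L.A * x.1 + L.B * x.2) := by
  have h := L.hdet
  simp only [rr, bb]
  linear_combination (-x.2) * h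

theorem fix_dvd (x : ℤ × ℤ) : (L.N : ℤ) ∣ rr L.N L.U x - (L.A - 1) * bb L.N L.U x := ⟨_, L.fix x⟩

/-- The point with given coordinates. -/
theorem exists_pt {r b : ℤ} (h : (L.N : ℤ) ∣ r - (L.A - 1) * b) :
    ∃ x : ℤ × ℤ, rr L.N L.U x = r ∧ bb L.N L.U x = b := by
  obtain ⟨k, hk⟩ := h
  have hd := L.hdet
  refine ⟨(-(b * L.B + L.U * k), r + b), ?_, ?_⟩
  · simp only [rr]
    linear_combination L.U * hk - b * hd
  · simp only [bb]
    linear_combination b * hd - L.U * hk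

/-- Relations in terms of the coordinates. -/
theorem mem_Rel (x : ℤ × ℤ) : x ∈ L.Rel ↔ ∃ j : ℤ, rr L.N L.U x = j * L.m ∧
    (L.N : ℤ) ∣ bb L.N L.U x - j * (L.U + 1) := by
  rw [mem_Rel']
  constructor
  · rintro ⟨y, rfl⟩
    refine ⟨y.2, L.rr_rel y, y.1, ?_⟩
    rw [L.bb_rel]
    ring
  · rintro ⟨j, h1, i, h2⟩
    have hd := L.hdet
    refine ⟨(i, j), ?_⟩
    rw [relHom_apply]
    have hN : (L.N : ℤ) ≠ 0 := L.hNZ.ne'
    have e2 : x.2 = rr L.N L.U x + bb L.N L.U x := by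
      simp only [rr, bb]
      ring
    have e3 : (L.N : ℤ) * i + (L.A - 1) * j = x.2 := by
      rw [e2, h1]
      simp only [m]
      linear_combination -h2
    have e1 : -(L.U + 1) * i - L.B * j = x.1 := by
      apply mul_left_cancel₀ hN
      have h3 : (L.N : ℤ) * x.1 = -bb L.N L.U x - L.U * x.2 := by
        simp only [bb]
        ring
      rw [h3, ← e3]
      linear_combination h2 - j * hd
    ext
    · exact e1
    · exact e3

theorem mk_eq_zero (x : ℤ × ℤ) : (QuotientAddGroup.mk x : L.GG) = 0 ↔ x ∈ L.Rel :=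
  QuotientAddGroup.eq_zero_iff x

theorem mk_eq (x y : ℤ × ℤ) : (QuotientAddGroup.mk x : L.GG) = QuotientAddGroup.mk y ↔
    x - y ∈ L.Rel := by
  rw [← sub_eq_zero, ← QuotientAddGroup.mk_sub, mk_eq_zero]

theorem out_spec (u : L.GG) : (QuotientAddGroup.mk (Quotient.out u) : L.GG) = u :=
  QuotientAddGroup.out_eq' u

theorem ind (u : L.GG) : ∃ x : ℤ × ℤ, QuotientAddGroup.mk x = u := ⟨Quotient.out u, L.out_spec u⟩

theorem out_mk (x : ℤ × ℤ) : ∃ z ∈ L.Rel, Quotient.out (QuotientAddGroup.mk x : L.GG) = x + z := by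
  have h := L.out_spec (QuotientAddGroup.mk x)
  rw [mk_eq] at h
  exact ⟨_, h, by abel⟩

/-- Functions on the group. -/
theorem lift_out {X : Type*} (f : ℤ × ℤ → X) (hf : ∀ x, ∀ z ∈ L.Rel, f (x + z) = f x)
    (x : ℤ × ℤ) : f (Quotient.out (QuotientAddGroup.mk x : L.GG)) = f x := by
  obtain ⟨z, hz, h⟩ := L.out_mk x
  rw [h, hf x z hz]

/-! ### Finiteness and cardinality -/

/-- The determinant of the relations. -/
theorem det_relHom : LinearMap.det (L.relHom.toIntLinearMap) = -L.m := by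
  have h := L.hdet
  rw [← LinearMap.det_toMatrix (Module.Basis.finTwoProd ℤ), Matrix.det_fin_two]
  simp only [LinearMap.toMatrix_apply, Module.Basis.finTwoProd_zero, Module.Basis.finTwoProd_one,
    AddMonoidHom.coe_toIntLinearMap, relHom_apply, m]
  simp
  linear_combination h

theorem relHom_injective : Function.Injective L.relHom := by
  rw [injective_iff_map_eq_zero]
  intro x hx
  have h1 := L.rr_rel x
  have h2 := L.bb_rel x
  rw [hx, rr_zero] at h1
  rw [hx, bb_zero] at h2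
  have h3 : x.2 = 0 := (mul_eq_zero.1 h1.symm).resolve_right L.m_ne
  rw [h3, zero_mul, add_zero] at h2
  have h4 : x.1 = 0 := (mul_eq_zero.1 h2.symm).resolve_right L.hNZ.ne'
  exact Prod.ext h4 h3

theorem card_nat : Nat.card L.GG = L.m.natAbs := by
  have h := Submodule.natAbs_det_equiv (M := ℤ × ℤ) (AddSubgroup.toIntSubmodule L.relHom.range)
    (AddMonoidHom.ofInjective L.relHom_injective)
  have h0 : Nat.card L.GG = Nat.card ((ℤ × ℤ) ⧸ L.relHom.range) := by
    have h1 := L.Rel_eq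
    unfold Rel at h1
    unfold GG GQ
    rw [h1]
  rw [h0]
  refine h.symm.trans ?_
  refine (congrArg (fun f => (LinearMap.det f).natAbs) (?_ : _ = L.relHom.toIntLinearMap)).trans ?_
  · ext <;> rfl
  · simp only [det_relHom, Int.natAbs_neg]

instance instFiniteGG : Finite L.GG := Nat.finite_of_card_ne_zero (by
  rw [card_nat]
  have := L.m_pos
  omega)

noncomputable instance instFintypeGG : Fintype L.GG := Fintype.ofFinite _

noncomputable instance instDecEqGG : DecidableEq L.GG := Classical.decEq _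

theorem card_G : (Fintype.card L.GG : ℤ) = L.m := by
  rw [← Nat.card_eq_fintype_card, card_nat]
  have := L.m_pos
  omega

/-! ### The pairing -/

/-- The bilinear form. -/
def bil (x y : ℤ × ℤ) : ℤ :=
  L.N * x.1 * y.1 + (L.U + 1) * (x.1 * y.2 + x.2 * y.1) + L.B * x.2 * y.2

theorem bil_symm (x y : ℤ × ℤ) : L.bil x y = L.bil y x := by
  simp only [bil]; ring

theorem bil_add (x y z : ℤ × ℤ) : L.bil (x + y) z = L.bil x z + L.bil y z := by
  simp only [bil, Prod.fst_add, Prod.snd_add]; ring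

theorem bil_relHom (x y : ℤ × ℤ) : L.bil (L.relHom x) y =
    L.m * (x.1 * L.U * y.2 + x.2 * (y.1 + L.B * y.2)) := by
  have h := L.hdet
  simp only [bil, relHom_apply, m]
  linear_combination (x.1 * y.2 - x.2 * y.1) * h

theorem bil_rel {z : ℤ × ℤ} (hz : z ∈ L.Rel) (y : ℤ × ℤ) : L.m ∣ L.bil z y := by
  obtain ⟨x, rfl⟩ := (L.mem_Rel' z).1 hz
  exact ⟨_, L.bil_relHom x y⟩

theorem e_int_div (k : ℤ) : e ((((L.m * k : ℤ) : ℂ)) / L.m) = 1 := by
  have h := L.m_neC
  have h1 : (((L.m * k : ℤ) : ℂ)) / L.m = (k : ℂ) := by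
    push_cast
    field_simp
  rw [h1, e_int]

/-- The pairing on representatives. -/
noncomputable abbrev pr0 (x y : ℤ × ℤ) : ℂ := prZ L.N L.A L.B L.U x y

theorem pr0_eq (x y : ℤ × ℤ) : L.pr0 x y = e ((L.bil x y : ℂ) / L.m) := by
  have h := L.m_neC
  have h1 : (form L.N L.A L.B L.U x y : ℂ) / ((L.A - L.U - 2 : ℤ) : ℂ) =
      (L.bil x y : ℂ) / L.m + ((x.1 * y.2 : ℤ) : ℂ) := by
    have h2 : form L.N L.A L.B L.U x y = L.bil x y + L.m * (x.1 * y.2) := by
      simp only [form, bil, m]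
      ring
    have h3 : (L.A - L.U - 2 : ℤ) = L.m := rfl
    rw [h2, h3]
    push_cast
    field_simp
  unfold pr0 prZ
  rw [h1, e_add_int]

theorem pr0_add (x y z : ℤ × ℤ) : L.pr0 (x + y) z = L.pr0 x z * L.pr0 y z := by
  rw [pr0_eq, pr0_eq, pr0_eq, ← e_add, bil_add]
  congr 1
  push_cast
  ring

theorem pr0_symm (x y : ℤ × ℤ) : L.pr0 x y = L.pr0 y x := by
  rw [pr0_eq, pr0_eq, bil_symm]

theorem pr0_rel {z : ℤ × ℤ} (hz : z ∈ L.Rel) (y : ℤ × ℤ) : L.pr0 z y = 1 := by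
  obtain ⟨k, hk⟩ := L.bil_rel hz y
  rw [pr0_eq, hk, e_int_div]

/-- The pairing. -/
noncomputable abbrev pr (u v : L.GG) : ℂ := prG L.N L.A L.B L.U u v

theorem pr_mk (x y : ℤ × ℤ) : L.pr (QuotientAddGroup.mk x) (QuotientAddGroup.mk y) = L.pr0 x y := by
  show L.pr0 (Quotient.out (QuotientAddGroup.mk x : L.GG))
    (Quotient.out (QuotientAddGroup.mk y : L.GG)) = L.pr0 x y
  obtain ⟨z, hz, h⟩ := L.out_mk x
  obtain ⟨z', hz', h'⟩ := L.out_mk y
  rw [h, h', pr0_add, L.pr0_rel hz, mul_one, pr0_symm, pr0_add, L.pr0_rel hz', mul_one, pr0_symm]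

theorem pr_zero (y : L.GG) : L.pr 0 y = 1 := by
  obtain ⟨y, rfl⟩ := L.ind y
  have : (0 : L.GG) = QuotientAddGroup.mk 0 := rfl
  rw [this, pr_mk]
  exact L.pr0_rel (zero_mem _) y

theorem pr_add (x y z : L.GG) : L.pr (x + y) z = L.pr x z * L.pr y z := by
  obtain ⟨x, rfl⟩ := L.ind x
  obtain ⟨y, rfl⟩ := L.ind y
  obtain ⟨z, rfl⟩ := L.ind z
  rw [← QuotientAddGroup.mk_add, pr_mk, pr_mk, pr_mk, pr0_add]

theorem pr_symm (x y : L.GG) : L.pr x y = L.pr y x := by
  obtain ⟨x, rfl⟩ := L.ind x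
  obtain ⟨y, rfl⟩ := L.ind y
  rw [pr_mk, pr_mk, pr0_symm]

theorem pr0_eq_one_iff (x y : ℤ × ℤ) : L.pr0 x y = 1 ↔ L.m ∣ L.bil x y := by
  rw [pr0_eq, e_eq_one_iff]
  have h := L.m_neC
  constructor
  · rintro ⟨k, hk⟩
    refine ⟨k, ?_⟩
    rw [div_eq_iff h] at hk
    have : (L.bil x y : ℂ) = ((L.m * k : ℤ) : ℂ) := by
      rw [hk]
      push_cast
      ring
    exact_mod_cast this
  · rintro ⟨k, hk⟩
    refine ⟨k, ?_⟩
    rw [hk]
    push_cast
    field_simp

theorem pr_nondeg (x : L.GG) (h : ∀ y, L.pr x y = 1) : x = 0 := by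
  obtain ⟨x, rfl⟩ := L.ind x
  rw [mk_eq_zero, mem_Rel]
  have h1 := h (QuotientAddGroup.mk (1, 0))
  have h2 := h (QuotientAddGroup.mk (0, 1))
  rw [pr_mk, pr0_eq_one_iff] at h1 h2
  obtain ⟨j, hj⟩ := h1
  obtain ⟨i, hi⟩ := h2
  have hd := L.hdet
  refine ⟨j, ?_, ?_⟩
  · simp only [bil, rr, mul_one, mul_zero, add_zero, zero_add] at hj ⊢
    linarith
  · simp only [bil, mul_one, mul_zero, add_zero, zero_add] at hj hi
    refine ⟨-(x.1 + i), ?_⟩
    have h3 : (L.U + 1) * j + L.U * x.2 = L.N * i := by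
      apply mul_left_cancel₀ L.m_ne
      simp only [m] at hj hi ⊢
      linear_combination (-(L.U + 1)) * hj + (L.N : ℤ) * hi - x.2 * hd
    simp only [bb]
    linear_combination -h3

theorem pr_orth (x : L.GG) (hx : x ≠ 0) : ∑ y, L.pr x y = 0 := by
  obtain ⟨y0, hy0⟩ : ∃ y, L.pr x y ≠ 1 := by
    by_contra h
    push Not at h
    exact hx (L.pr_nondeg x h)
  have h1 : ∑ y, L.pr x y = L.pr x y0 * ∑ y, L.pr x y := by
    rw [mul_sum, ← Equiv.sum_comp (Equiv.addLeft y0)]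
    refine sum_congr rfl fun y _ => ?_
    rw [Equiv.coe_addLeft, L.pr_symm, L.pr_add, L.pr_symm y0, L.pr_symm y]
  have h2 : (1 - L.pr x y0) * ∑ y, L.pr x y = 0 := by
    linear_combination h1
  exact (mul_eq_zero.1 h2).resolve_left (sub_ne_zero.2 hy0.symm)

/-- The pairing as a structure. -/
noncomputable def pairing : Pairing L.GG where
  P := L.pr
  zero_left := L.pr_zero
  add_left := L.pr_add
  symm := L.pr_symm
  orth := L.pr_orth

/-! ### The quadratic function -/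

/-- The quadratic form with its sign correction. -/
def g2 (x : ℤ × ℤ) : ℤ :=
  -L.bil x x + L.m * (x.1 * (L.A * L.N + L.A + L.N) + x.2 * (L.U * L.B + L.B + L.U))

theorem g2_add (x y : ℤ × ℤ) : L.g2 (x + y) = L.g2 x + L.g2 y - 2 * L.bil x y := by
  simp only [g2, bil, Prod.fst_add, Prod.snd_add]; ring

theorem g2_rel {z : ℤ × ℤ} (hz : z ∈ L.Rel) : 2 * L.m ∣ L.g2 z := by
  obtain ⟨x, rfl⟩ := (L.mem_Rel' z).1 hz
  have h := L.hdet
  have h1 : L.g2 (L.relHom x) = L.m *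
      (-(x.1 * L.U * (L.N * x.1 + (L.A - 1) * x.2) +
        x.2 * (-(L.U + 1) * x.1 - L.B * x.2 + L.B * (L.N * x.1 + (L.A - 1) * x.2))) +
      ((-(L.U + 1) * x.1 - L.B * x.2) * (L.A * L.N + L.A + L.N) +
        (L.N * x.1 + (L.A - 1) * x.2) * (L.U * L.B + L.B + L.U))) := by
    unfold g2
    rw [bil_relHom]
    simp only [relHom_apply]
    ring
  have h2 : (2 : ℤ) ∣ (-(x.1 * L.U * (L.N * x.1 + (L.A - 1) * x.2) +
        x.2 * (-(L.U + 1) * x.1 - L.B * x.2 + L.B * (L.N * x.1 + (L.A - 1) * x.2))) +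
      ((-(L.U + 1) * x.1 - L.B * x.2) * (L.A * L.N + L.A + L.N) +
        (L.N * x.1 + (L.A - 1) * x.2) * (L.U * L.B + L.B + L.U))) := by
    apply (ZMod.intCast_zmod_eq_zero_iff_dvd _ 2).1
    have h3 := congrArg (fun k : ℤ => (k : ZMod 2)) h
    push_cast at h3 ⊢
    revert h3
    generalize ((L.B : ℤ) : ZMod 2) = b
    generalize ((L.N : ℕ) : ZMod 2) = n
    generalize ((L.A : ℤ) : ZMod 2) = a
    generalize ((L.U : ℤ) : ZMod 2) = u
    generalize ((x.1 : ℤ) : ZMod 2) = i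
    generalize ((x.2 : ℤ) : ZMod 2) = j
    revert b n a u i j
    decide
  obtain ⟨k, hk⟩ := h2
  rw [h1, hk]
  exact ⟨k, by ring⟩

/-- The quadratic function on representatives. -/
noncomputable def gam0 (x : ℤ × ℤ) : ℂ := e ((L.g2 x : ℂ) / (2 * L.m))

theorem gam0_add (x y : ℤ × ℤ) : L.gam0 (x + y) * L.pr0 x y = L.gam0 x * L.gam0 y := by
  rw [pr0_eq]
  unfold gam0
  rw [← e_add, ← e_add, g2_add]
  congr 1
  have := L.m_neC
  push_cast
  field_simp
  ring

theorem gam0_rel {z : ℤ × ℤ} (hz : z ∈ L.Rel) : L.gam0 z = 1 := by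
  obtain ⟨k, hk⟩ := L.g2_rel hz
  unfold gam0
  rw [hk, e_eq_one_iff]
  refine ⟨k, ?_⟩
  have := L.m_neC
  push_cast
  field_simp

theorem gam0_add_rel (x : ℤ × ℤ) {z : ℤ × ℤ} (hz : z ∈ L.Rel) : L.gam0 (x + z) = L.gam0 x := by
  have h := L.gam0_add x z
  rw [L.gam0_rel hz, pr0_symm, L.pr0_rel hz, mul_one, mul_one] at h
  exact h

/-- The quadratic function. -/
noncomputable def gam (u : L.GG) : ℂ := L.gam0 (Quotient.out u)

theorem gam_mk (x : ℤ × ℤ) : L.gam (QuotientAddGroup.mk x) = L.gam0 x :=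
  L.lift_out L.gam0 (fun x _ hz => L.gam0_add_rel x hz) x

theorem gam_zero : L.gam 0 = 1 := by
  have : (0 : L.GG) = QuotientAddGroup.mk 0 := rfl
  rw [this, gam_mk]
  exact L.gam0_rel (zero_mem _)

theorem gam_add (x y : L.GG) : L.gam (x + y) * L.pr x y = L.gam x * L.gam y := by
  obtain ⟨x, rfl⟩ := L.ind x
  obtain ⟨y, rfl⟩ := L.ind y
  rw [← QuotientAddGroup.mk_add, gam_mk, gam_mk, gam_mk, pr_mk, gam0_add]

theorem gam0_pow (x : ℤ × ℤ) : L.gam0 x ^ (2 * L.m.natAbs) = 1 := by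
  unfold gam0
  rw [← e_nat_mul, e_eq_one_iff]
  refine ⟨L.g2 x, ?_⟩
  have h1 : ((L.m.natAbs : ℕ) : ℤ) = L.m := Int.natAbs_of_nonneg L.m_pos.le
  have h2 : ((L.m.natAbs : ℕ) : ℂ) = L.m := by
    rw [← Int.cast_natCast, h1]
  have := L.m_neC
  push_cast
  rw [h2]
  field_simp

theorem gam_pow (u : L.GG) : L.gam u ^ (2 * L.m.natAbs) = 1 := L.gam0_pow _

end Lens

end Zau
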