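import Pool.Agent.Lib_zau.MDefs
import Pool.Agent.Lib_zau.LensMk2
import Pool.Agent.Lib_zau.FkvBd

/-!
# The main contour: limits (helper77)
-/

open Complex MeasureTheory Set Filter Topology
open scoped Real

namespace Zau

/-- Limit of horizontal integrals. -/
theorem hor_lim {h : ℝ → ℝ → ℂ} {σ σ' : ℝ} (hσ : σ ≤ σ') {c : ℂ}
    (hi : ∀ T, 0 < T → IntervalIntegrable (h T) volume σ σ')
    (hl : ∀ ε : ℝ, 0 < ε → ∃ T0 : ℝ, ∀ T x, T0 ≤ T → σ ≤ x → x ≤ σ' → ‖h T x - c‖ ≤ ε) :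
    Tendsto (fun T : ℝ => ∫ x in σ..σ', h T x) atTop (𝓝 ((σ' - σ) * c)) := by
  rw [Metric.tendsto_atTop]
  intro ε hε
  obtain ⟨T0, hT0⟩ := hl (ε / (2 * (σ' - σ + 1))) (by
    have : 0 < 2 * (σ' - σ + 1) := by linarith
    positivity)
  refine ⟨max T0 1, fun T hT => ?_⟩
  have hT1 : T0 ≤ T := (le_max_left _ _).trans hT
  have hT2 : 0 < T := lt_of_lt_of_le one_pos ((le_max_right _ _).trans hT)
  have e1 : ((σ' : ℂ) - σ) * c = ∫ _x in σ..σ', c := by
    rw [intervalIntegral.integral_const]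
    simp
  rw [dist_eq_norm, e1, ← intervalIntegral.integral_sub (hi T hT2) intervalIntegrable_const]
  have h2 := intervalIntegral.norm_integral_le_of_norm_le_const (a := σ) (b := σ')
    (f := fun x => h T x - c) (C := ε / (2 * (σ' - σ + 1))) (by
      intro x hx
      rw [uIoc_of_le hσ] at hx
      exact hT0 T x hT1 hx.1.le hx.2)
  refine lt_of_le_of_lt h2 ?_
  rw [abs_of_nonneg (by linarith)]
  have h3 : 0 < σ' - σ + 1 := by linarith
  rw [div_mul_eq_mul_div, div_lt_iff₀ (by linarith)]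
  nlinarith

/-- Reindexing of a sum over a period. -/
theorem sum_period {N : ℕ} (g : ℤ → ℂ) (hg : ∀ b, g (b + N) = g b) (s : ℤ) :
    ∑ b ∈ Finset.range N, g ((b : ℤ) + s) = ∑ b ∈ Finset.range N, g b := by
  have hsucc : ∀ s : ℤ, ∑ b ∈ Finset.range N, g ((b : ℤ) + (s + 1)) =
      ∑ b ∈ Finset.range N, g ((b : ℤ) + s) := by
    intro s
    have h1 := Finset.sum_range_succ (fun b : ℕ => g ((b : ℤ) + s)) N
    have h2 := Finset.sum_range_succ' (fun b : ℕ => g ((b : ℤ) + s)) N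
    rw [h1] at h2
    have h3 : g ((N : ℤ) + s) = g (((0 : ℕ) : ℤ) + s) := by
      rw [add_comm, hg]
      simp
    rw [h3] at h2
    have h4 := add_right_cancel h2
    rw [h4]
    refine Finset.sum_congr rfl fun b _ => ?_
    congr 1
    push_cast
    ring
  have hnat : ∀ n : ℕ, ∑ b ∈ Finset.range N, g ((b : ℤ) + n) = ∑ b ∈ Finset.range N, g b := by
    intro n
    induction n with
    | zero => simp
    | succ n ih =>
      rw [← ih, ← hsucc n]
      push_cast
      rfl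
  have hneg : ∀ n : ℕ, ∑ b ∈ Finset.range N, g ((b : ℤ) + (-(n : ℤ))) =
      ∑ b ∈ Finset.range N, g b := by
    intro n
    induction n with
    | zero => simp
    | succ n ih =>
      rw [← ih, ← hsucc (-((n + 1 : ℕ) : ℤ))]
      refine Finset.sum_congr rfl fun b _ => ?_
      congr 1
      push_cast
      ring
  obtain ⟨n, rfl | rfl⟩ := Int.eq_nat_or_neg s
  · exact hnat n
  · exact hneg n

namespace Lens

variable (L : Lens)

/-- `2 π / (N om)` -/
noncomputable def kap : ℝ := 2 * π / (L.N * L.om)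

theorem kap_pos : 0 < L.kap := by
  have h1 := L.N_pos
  have h2 := L.om_pos
  unfold kap
  positivity

theorem norm_chi (μ : ℝ) (c : ℤ) (z : ℂ) (b : ℤ) :
    ‖L.chi μ c z b‖ = Real.exp (L.kap * (z.im * μ)) := by
  unfold chi
  rw [norm_e]
  congr 1
  have h : (-(z * (μ : ℂ)) / ((L.N : ℂ) * L.om) + (L.A : ℂ) * b * c / L.N) =
      (-(z * (μ : ℂ))) / (((L.N * L.om : ℝ)) : ℂ) + (((L.A * b * c / L.N : ℝ)) : ℂ) := by
    push_cast
    ring
  rw [h, Complex.add_im, Complex.ofReal_im, Complex.div_ofReal_im]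
  simp only [Complex.neg_im, Complex.mul_im, Complex.ofReal_re, Complex.ofReal_im, mul_zero,
    zero_add, add_zero]
  unfold kap
  ring

theorem norm_qq (z : ℂ) (b : ℤ) :
    ‖L.qq z b‖ = Real.exp (-(L.kap * (z.im * (L.om - 1)))) := by
  unfold qq
  rw [norm_e]
  congr 1
  have h : (z * ((L.om : ℂ) - 1) / ((L.N : ℂ) * L.om) - ((L.A : ℂ) - 1) * b / L.N) =
      (z * (((L.om - 1 : ℝ)) : ℂ)) / (((L.N * L.om : ℝ)) : ℂ) -
        (((((L.A : ℝ) - 1) * b / L.N : ℝ)) : ℂ) := by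
    push_cast
    ring
  rw [h, Complex.sub_im, Complex.ofReal_im, Complex.div_ofReal_im]
  simp only [Complex.mul_im, Complex.ofReal_re, Complex.ofReal_im, mul_zero,
    zero_add, sub_zero]
  unfold kap
  ring

theorem chi_zero (c : ℤ) (z : ℂ) (b : ℤ) :
    L.chi (L.xi 0) c z b = Ghost.e (L.A * b * c / L.N) := by
  unfold chi
  rw [xi_zero]
  simp

theorem tendsto_D (b : ℤ) : Tendsto (L.D b) (comap Complex.im atTop) (𝓝 1) := by
  rw [Metric.tendsto_nhds]
  intro ε hε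
  obtain ⟨T, hT⟩ := L.Dlim ε hε
  have h1 : ∀ᶠ y : ℝ in atTop, T ≤ y := eventually_ge_atTop T
  filter_upwards [tendsto_comap.eventually h1] with z hz
  rw [dist_eq_norm]
  exact (hT b z hz).1

theorem tendsto_R (b : ℤ) : Tendsto (L.R b) (comap Complex.im atTop) (𝓝 1) := by
  rw [Metric.tendsto_nhds]
  intro ε hε
  obtain ⟨T, hT⟩ := L.Dlim ε hε
  have h1 : ∀ᶠ y : ℝ in atTop, T ≤ y := eventually_ge_atTop T
  filter_upwards [tendsto_comap.eventually h1] with z hz
  rw [dist_eq_norm]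
  exact (hT b z hz).2

theorem tendsto_qq (b : ℤ) : Tendsto (fun z => L.qq z b) (comap Complex.im atTop) (𝓝 0) := by
  rw [tendsto_zero_iff_norm_tendsto_zero]
  have h1 : Tendsto (fun y : ℝ => Real.exp (-(L.kap * (y * (L.om - 1))))) atTop (𝓝 0) := by
    have h2 : 0 < L.kap * (L.om - 1) := mul_pos L.kap_pos (by linarith [L.om_gt_one])
    have h3 : Tendsto (fun y : ℝ => L.kap * (L.om - 1) * y) atTop atTop :=
      tendsto_id.const_mul_atTop h2
    refine (Real.tendsto_exp_neg_atTop_nhds_zero.comp h3).congr fun y => ?_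
    simp only [Function.comp_apply]
    congr 1
    ring
  refine (h1.comp tendsto_comap).congr fun z => ?_
  rw [norm_qq]
  rfl

theorem tendsto_chi {v0 : ℤ} (hv : v0 ≤ 0) (c b : ℤ) :
    Tendsto (fun z => L.chi (L.xi v0) c z b) (comap Complex.im atTop)
      (𝓝 (if v0 = 0 then Ghost.e (L.A * b * c / L.N) else 0)) := by
  by_cases h : v0 = 0
  · subst h
    simp only [if_true, chi_zero]
    exact tendsto_const_nhds
  · rw [if_neg h, tendsto_zero_iff_norm_tendsto_zero]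
    have hv' : L.xi v0 < 0 := by
      have := L.xi_lt (lt_of_le_of_ne hv h)
      rw [xi_zero] at this
      linarith
    have h1 : Tendsto (fun y : ℝ => Real.exp (L.kap * (y * L.xi v0))) atTop (𝓝 0) := by
      have h2 : 0 < L.kap * (-L.xi v0) := mul_pos L.kap_pos (by linarith)
      have h3 : Tendsto (fun y : ℝ => L.kap * (-L.xi v0) * y) atTop atTop :=
        tendsto_id.const_mul_atTop h2
      refine (Real.tendsto_exp_neg_atTop_nhds_zero.comp h3).congr fun y => ?_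
      simp only [Function.comp_apply]
      congr 1
      ring
    refine (h1.comp tendsto_comap).congr fun z => ?_
    rw [norm_chi]
    rfl

theorem tendsto_KK_top (p0 k : ℤ) {v0 : ℤ} (hv : v0 ≤ 0) (c b : ℤ) :
    Tendsto (fun z => L.KK p0 k v0 c z b) (comap Complex.im atTop)
      (𝓝 (if v0 = 0 then Ghost.e (L.A * b * c / L.N) else 0)) := by
  have h1 := L.tendsto_chi hv c b
  have h2 := L.tendsto_D b
  have h3 : Tendsto (fun z : ℂ => L.R (b - k) (z - L.xi p0)) (comap Complex.im atTop) (𝓝 1) := by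
    have h4 : Tendsto (fun z : ℂ => z - (L.xi p0 : ℂ)) (comap Complex.im atTop)
        (comap Complex.im atTop) := by
      rw [tendsto_comap_iff]
      have h5 : Complex.im ∘ (fun z : ℂ => z - (L.xi p0 : ℂ)) = Complex.im := by
        funext z
        simp
      rw [h5]
      exact tendsto_comap
    exact (L.tendsto_R (b - k)).comp h4
  have h4 : Tendsto (fun z : ℂ => (1 - L.qq z b)⁻¹) (comap Complex.im atTop) (𝓝 1) := by
    have h5 := (tendsto_const_nhds (x := (1 : ℂ))).sub (L.tendsto_qq b)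
    rw [sub_zero] at h5
    have h6 := h5.inv₀ one_ne_zero
    rwa [inv_one] at h6
  have h5 := (h1.mul (h2.mul h3)).mul h4
  rw [mul_one, mul_one, mul_one] at h5
  exact h5

theorem KK_top (p0 k : ℤ) {v0 : ℤ} (hv : v0 ≤ 0) (c b : ℤ) {ε : ℝ} (hε : 0 < ε) :
    ∃ T0 : ℝ, ∀ z : ℂ, T0 ≤ z.im →
      ‖L.KK p0 k v0 c z b - (if v0 = 0 then Ghost.e (L.A * b * c / L.N) else 0)‖ ≤ ε := by
  have h1 := (Metric.tendsto_nhds.1 (L.tendsto_KK_top p0 k hv c b)) ε hε
  rw [Filter.eventually_comap] at h1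
  obtain ⟨T0, hT0⟩ := Filter.eventually_atTop.1 h1
  refine ⟨T0, fun z hz => ?_⟩
  have h2 := hT0 z.im hz z rfl
  rw [dist_eq_norm] at h2
  exact h2.le

/-- The lower end: the integrand tends to zero. -/
theorem KK_bot {p0 k v0 : ℤ} (hp0 : 1 ≤ p0) (hv : -L.m + p0 < v0) (c b : ℤ) {ε : ℝ}
    (hε : 0 < ε) : ∃ T0 : ℝ, ∀ z : ℂ, T0 ≤ -z.im → 1 / 2 ≤ z.re → z.re ≤ L.om - 1 / 2 →
      ‖L.KK p0 k v0 c z b‖ ≤ ε := by
  have hom := L.om_gt_one
  have hkap := L.kap_pos
  have hp1 : 1 < L.xi p0 := L.one_lt_xi (by omega)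
  have hv1 : L.xi p0 - (L.om - 1) < L.xi v0 := by
    rw [← L.xi_m, ← L.xi_sub]
    exact L.xi_lt_iff.2 (by omega)
  have toF1 : L.toF.om = L.om := rfl
  have toF2 : L.toF.N = L.N := rfl
  have toF3 : L.toF.D = L.D := rfl
  have toF4 : L.toF.R = L.R := rfl
  obtain ⟨C, hC, hb⟩ := L.toF.DR_bound b (b - k) (x := 0) (y := L.xi p0) (c1 := 1 / 2)
    (c2 := L.om - 1 / 2) (by norm_num) (by
      rw [toF1]
      linarith)
  rw [toF1, toF2, toF3, toF4] at hb
  have hδ : 0 < L.kap * (L.xi v0 - L.xi p0 + (L.om - 1)) := mul_pos hkap (by linarith)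
  have hδ2 : 0 < L.kap * (L.om - 1) := mul_pos hkap (by linarith)
  have hδ3 := hδ2
  have t1 : Tendsto (fun T : ℝ => Real.exp (L.kap * (L.om - 1) * T)) atTop atTop :=
    Real.tendsto_exp_atTop.comp (tendsto_id.const_mul_atTop hδ2)
  obtain ⟨T1, hT1⟩ := Filter.eventually_atTop.1 (t1.eventually (eventually_ge_atTop 2))
  have t2 : Tendsto (fun T : ℝ => 2 * C *
      Real.exp (-(L.kap * (L.xi v0 - L.xi p0 + (L.om - 1)) * T))) atTop (𝓝 0) := by
    have h3 : Tendsto (fun T : ℝ => L.kap * (L.xi v0 - L.xi p0 + (L.om - 1)) * T) atTop atTop :=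
      tendsto_id.const_mul_atTop hδ
    have h4 := (Real.tendsto_exp_neg_atTop_nhds_zero.comp h3).const_mul (2 * C)
    rw [mul_zero] at h4
    exact h4
  obtain ⟨T2, hT2⟩ := Filter.eventually_atTop.1 (t2.eventually (gt_mem_nhds hε))
  refine ⟨max (max T1 T2) 0, fun z hz hz1 hz2 => ?_⟩
  have hz3 : T1 ≤ -z.im := (le_max_left _ _).trans ((le_max_left _ _).trans hz)
  have hz4 : T2 ≤ -z.im := (le_max_right _ _).trans ((le_max_left _ _).trans hz)
  have hz5 : 0 ≤ -z.im := (le_max_right _ _).trans hz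
  have b1 := hb z hz1 hz2
  rw [Complex.ofReal_zero, sub_zero, sub_zero, max_eq_right hz5] at b1
  have b2 := hT1 _ hz3
  have b3 := hT2 _ hz4
  have b4 : ‖(1 - L.qq z b)⁻¹‖ ≤ 2 * Real.exp (-(L.kap * (L.om - 1) * (-z.im))) := by
    rw [norm_inv]
    have e1 : ‖L.qq z b‖ = Real.exp (L.kap * (L.om - 1) * (-z.im)) := by
      rw [norm_qq]
      congr 1
      ring
    have e2 : ‖L.qq z b‖ - 1 ≤ ‖1 - L.qq z b‖ := by
      have h := norm_sub_norm_le (L.qq z b) 1
      rw [norm_one, norm_sub_rev] at h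
      exact h
    rw [e1] at e2
    rw [Real.exp_neg]
    have e3 : 0 < Real.exp (L.kap * (L.om - 1) * (-z.im)) := Real.exp_pos _
    have e4 : Real.exp (L.kap * (L.om - 1) * (-z.im)) / 2 ≤ ‖1 - L.qq z b‖ := by linarith
    calc ‖1 - L.qq z b‖⁻¹ ≤ (Real.exp (L.kap * (L.om - 1) * (-z.im)) / 2)⁻¹ :=
          inv_anti₀ (by positivity) e4
      _ = 2 * (Real.exp (L.kap * (L.om - 1) * (-z.im)))⁻¹ := by
          rw [inv_div]
          ring
  have b5 : ‖L.chi (L.xi v0) c z b‖ = Real.exp (L.kap * (z.im * L.xi v0)) := L.norm_chi _ _ _ _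
  have b6 : 2 * π * L.xi p0 / (L.N * L.om) * -z.im = L.kap * L.xi p0 * -z.im := by
    unfold kap
    ring
  rw [b6] at b1
  unfold KK
  rw [norm_mul, norm_mul, b5]
  calc Real.exp (L.kap * (z.im * L.xi v0)) * ‖L.D b z * L.R (b - k) (z - L.xi p0)‖ *
        ‖(1 - L.qq z b)⁻¹‖
      ≤ Real.exp (L.kap * (z.im * L.xi v0)) * (C * Real.exp (L.kap * L.xi p0 * -z.im)) *
        (2 * Real.exp (-(L.kap * (L.om - 1) * (-z.im)))) := by gcongr
    _ = 2 * C * Real.exp (-(L.kap * (L.xi v0 - L.xi p0 + (L.om - 1)) * -z.im)) := by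
        have : Real.exp (-(L.kap * (L.xi v0 - L.xi p0 + (L.om - 1)) * -z.im)) =
            Real.exp (L.kap * (z.im * L.xi v0)) * Real.exp (L.kap * L.xi p0 * -z.im) *
            Real.exp (-(L.kap * (L.om - 1) * (-z.im))) := by
          rw [← Real.exp_add, ← Real.exp_add]
          congr 1
          ring
        rw [this]
        ring
    _ ≤ ε := b3.le

end Lens

end Zau
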