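import Pool.Agent.Lib_zau.MRes
import Pool.Agent.Lib_zau.MLim

/-!
# The main contour: assembly (helper77)
-/

open Complex MeasureTheory Set Filter Topology
open scoped Real

namespace Zau

namespace Lens

variable (L : Lens)

/-- No fixed point has an ordinate with real part `1 / 2` or `om - 1 / 2`. -/
theorem ne_xi {z : ℂ} (h : z.im ≠ 0 ∨ z.re = 1 / 2 ∨ z.re = L.om - 1 / 2) (r : ℤ) :
    z ≠ L.xi r := by
  have hom := L.om_gt_one
  rintro rfl
  rw [Complex.ofReal_im, Complex.ofReal_re] at h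
  rcases h with h | h | h
  · exact h rfl
  · have h1 := L.xi_mem (r := r) (by linarith) (by linarith)
    have h2 := L.xi_strip h1.1 h1.2
    linarith [h2.1]
  · have h1 := L.xi_mem (r := r) (by linarith) (by linarith)
    have h2 := L.xi_strip h1.1 h1.2
    linarith [h2.2]

theorem KK_cont {p0 : ℤ} (hp0 : 1 ≤ p0) (k v0 c : ℤ) {z : ℂ} (b : ℤ) (h0 : 1 / 2 ≤ z.re)
    (h1 : z.re ≤ L.om - 1 / 2) (h : z.im ≠ 0 ∨ z.re = 1 / 2 ∨ z.re = L.om - 1 / 2) :
    ContinuousAt (fun z => L.KK p0 k v0 c z b) z :=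
  (L.KK_diff hp0 k v0 c b h0 h1 fun r _ => L.ne_xi h r).continuousAt

theorem KK_int_hor {p0 : ℤ} (hp0 : 1 ≤ p0) (k v0 c b : ℤ) {T : ℝ} (hT : T ≠ 0) :
    IntervalIntegrable (fun x : ℝ => L.KK p0 k v0 c ((x : ℂ) + T * I) b) volume
      (1 / 2) (L.om - 1 / 2) := by
  have hom := L.om_gt_one
  refine ContinuousOn.intervalIntegrable fun x hx => ContinuousAt.continuousWithinAt ?_
  rw [uIcc_of_le (by linarith)] at hx
  have h := L.KK_cont hp0 k v0 c (z := (x : ℂ) + T * I) b (by simpa using hx.1)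
    (by simpa using hx.2) (Or.inl (by simpa using hT))
  exact ContinuousAt.comp (f := fun x : ℝ => (x : ℂ) + T * I)
    (g := fun z => L.KK p0 k v0 c z b) h (by fun_prop)

theorem KK_int_vert {p0 : ℤ} (hp0 : 1 ≤ p0) (k v0 c b : ℤ) {s : ℝ}
    (hs : s = 1 / 2 ∨ s = L.om - 1 / 2) (T : ℝ) :
    IntervalIntegrable (fun y : ℝ => L.KK p0 k v0 c ((s : ℂ) + y * I) b) volume (-T) T := by
  have hom := L.om_gt_one
  refine ContinuousOn.intervalIntegrable fun x hx => ContinuousAt.continuousWithinAt ?_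
  have hre : ((s : ℂ) + x * I).re = s := by simp
  have h := L.KK_cont hp0 k v0 c (z := (s : ℂ) + x * I) b
    (by rw [hre]; rcases hs with rfl | rfl <;> linarith)
    (by rw [hre]; rcases hs with rfl | rfl <;> linarith)
    (by rw [hre]; rcases hs with h | h
        · exact Or.inr (Or.inl h)
        · exact Or.inr (Or.inr h))
  exact ContinuousAt.comp (f := fun x : ℝ => (s : ℂ) + x * I)
    (g := fun z => L.KK p0 k v0 c z b) h (by fun_prop)

/-- The top limit of the integrand. -/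
noncomputable def topc (v0 c b : ℤ) : ℂ := if v0 = 0 then Ghost.e (L.A * b * c / L.N) else 0

theorem lim_top {p0 : ℤ} (hp0 : 1 ≤ p0) (k : ℤ) {v0 : ℤ} (hv : v0 ≤ 0) (c b : ℤ) :
    Tendsto (fun T : ℝ => ∫ x in (1 / 2 : ℝ)..(L.om - 1 / 2),
      L.KK p0 k v0 c ((x : ℂ) + T * I) b) atTop (𝓝 (((L.om : ℂ) - 1) * L.topc v0 c b)) := by
  have hom := L.om_gt_one
  have h := hor_lim (h := fun T x => L.KK p0 k v0 c ((x : ℂ) + T * I) b) (σ := 1 / 2)
    (σ' := L.om - 1 / 2) (by linarith) (c := L.topc v0 c b)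
    (fun T hT => L.KK_int_hor hp0 k v0 c b hT.ne') (by
      intro ε hε
      obtain ⟨T0, hT0⟩ := L.KK_top p0 k hv c b hε
      refine ⟨T0, fun T x hT _ _ => ?_⟩
      exact hT0 _ (by simpa using hT))
  have e1 : ((((L.om - 1 / 2 : ℝ)) : ℂ) - ((1 / 2 : ℝ) : ℂ)) = (L.om : ℂ) - 1 := by
    push_cast
    ring
  rw [e1] at h
  exact h

theorem lim_bot {p0 k v0 : ℤ} (hp0 : 1 ≤ p0) (hv : -L.m + p0 < v0) (c b : ℤ) :
    Tendsto (fun T : ℝ => ∫ x in (1 / 2 : ℝ)..(L.om - 1 / 2),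
      L.KK p0 k v0 c ((x : ℂ) - T * I) b) atTop (𝓝 0) := by
  have hom := L.om_gt_one
  have hneg : ∀ (x T : ℝ), (x : ℂ) - T * I = (x : ℂ) + ((-T : ℝ) : ℂ) * I := by
    intro x T
    push_cast
    ring
  have h := hor_lim (h := fun T x => L.KK p0 k v0 c ((x : ℂ) - T * I) b) (σ := 1 / 2)
    (σ' := L.om - 1 / 2) (by linarith) (c := 0)
    (fun T hT => by
      simp only [hneg]
      exact L.KK_int_hor hp0 k v0 c b (by simpa using hT.ne')) (by
      intro ε hε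
      obtain ⟨T0, hT0⟩ := L.KK_bot (k := k) hp0 hv c b hε
      refine ⟨T0, fun T x hT h1 h2 => ?_⟩
      rw [sub_zero]
      exact hT0 _ (by simpa using hT) (by simpa using h1) (by simpa using h2))
  rw [mul_zero] at h
  exact h

/-- The two vertical sides. -/
theorem vert_T {p0 k v0 c : ℤ} (hp0 : 1 ≤ p0) (hp : (L.N : ℤ) ∣ p0 - (L.A - 1) * k)
    (hv : (L.N : ℤ) ∣ v0 - (L.A - 1) * c) (T : ℝ) :
    ∑ b ∈ Finset.range L.N,
      (I * (∫ y in (-T)..T, L.KK p0 k v0 c (((L.om - 1 / 2 : ℝ) : ℂ) + y * I) b) -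
        I * (∫ y in (-T)..T, L.KK p0 k v0 c (((1 / 2 : ℝ) : ℂ) + y * I) b)) =
    I * (1 - L.al p0 k) * ∑ b ∈ Finset.range L.N, ∫ y in (-T)..T,
      L.f (L.xi p0) k (((1 / 2 : ℝ) : ℂ) + y * I) b *
        L.chi (L.xi v0 - 1) (c + 1) (((1 / 2 : ℝ) : ℂ) + y * I) b := by
  have hom := L.om_gt_one
  have hx1 := L.one_lt_xi (r := p0) (by omega)
  have e1 := sum_period (N := L.N)
    (fun b => I * (∫ y in (-T)..T, L.KK p0 k v0 c (((L.om - 1 / 2 : ℝ) : ℂ) + y * I) b))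
    (fun b => by simp only [KK_per]) (L.U + 1)
  rw [Finset.sum_sub_distrib, ← e1, ← Finset.sum_sub_distrib, Finset.mul_sum]
  refine Finset.sum_congr rfl fun b _ => ?_
  rw [← mul_sub, ← intervalIntegral.integral_sub
    (L.KK_int_vert hp0 k v0 c _ (Or.inr rfl) T) (L.KK_int_vert hp0 k v0 c _ (Or.inl rfl) T),
    mul_assoc, ← intervalIntegral.integral_const_mul (1 - L.al p0 k)]
  congr 1
  refine intervalIntegral.integral_congr fun y _ => ?_
  have hre : ((((1 / 2 : ℝ) : ℂ)) + y * I).re = 1 / 2 := by simp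
  have h := L.KK_shift hp hv (z := ((1 / 2 : ℝ) : ℂ) + y * I) b (by rw [hre]; norm_num)
    (by rw [hre]; linarith) (by
      intro h
      obtain ⟨r, _, hr⟩ := MRes.qq_eq_one L h
      exact L.ne_xi (Or.inr (Or.inl hre)) r hr)
  have e2 : (((1 / 2 : ℝ) : ℂ)) + y * I + L.om - 1 = ((L.om - 1 / 2 : ℝ) : ℂ) + y * I := by
    push_cast
    ring
  rw [e2] at h
  have e3 : ((b : ℕ) : ℤ) + (L.U + 1) = (b : ℤ) + L.U + 1 := by ring
  simp only [e3]
  exact h

/-- The contour argument. -/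
theorem contour {p0 k v0 c : ℤ} (hp0 : 1 ≤ p0) (hp : (L.N : ℤ) ∣ p0 - (L.A - 1) * k)
    (hv : (L.N : ℤ) ∣ v0 - (L.A - 1) * c) (hv1 : -L.m + p0 < v0) (hv2 : v0 ≤ 0)
    (hint : ∀ b : ℤ, Integrable fun t : ℝ => L.f (L.xi p0) k (((1 / 2 : ℝ) : ℂ) + t * I) b *
        L.chi (L.xi v0 - 1) (c + 1) (((1 / 2 : ℝ) : ℂ) + t * I) b) :
    -(L.N * L.om / ((L.om : ℂ) - 1)) * ∑ b ∈ Finset.range L.N,
        ∑ r ∈ L.pts b, L.term p0 k v0 c r b =
      -(((L.om : ℂ) - 1) * ∑ b ∈ Finset.range L.N, L.topc v0 c b) +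
        I * (1 - L.al p0 k) * L.II (L.xi p0) k (L.xi v0 - 1) (c + 1) (1 / 2) := by
  have hom := L.om_gt_one
  -- the three limits
  have l1 : Tendsto (fun T : ℝ => ∑ b ∈ Finset.range L.N, ∫ x in (1 / 2 : ℝ)..(L.om - 1 / 2),
      L.KK p0 k v0 c ((x : ℂ) - T * I) b) atTop (𝓝 (∑ b ∈ Finset.range L.N, (0 : ℂ))) :=
    tendsto_finsetSum _ fun b _ => L.lim_bot hp0 hv1 c b
  have l2 : Tendsto (fun T : ℝ => ∑ b ∈ Finset.range L.N, ∫ x in (1 / 2 : ℝ)..(L.om - 1 / 2),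
      L.KK p0 k v0 c ((x : ℂ) + T * I) b) atTop
      (𝓝 (∑ b ∈ Finset.range L.N, (((L.om : ℂ) - 1) * L.topc v0 c b))) :=
    tendsto_finsetSum _ fun b _ => L.lim_top hp0 k hv2 c b
  have l3 : Tendsto (fun T : ℝ => ∑ b ∈ Finset.range L.N, ∫ y in (-T)..T,
      L.f (L.xi p0) k (((1 / 2 : ℝ) : ℂ) + y * I) b *
        L.chi (L.xi v0 - 1) (c + 1) (((1 / 2 : ℝ) : ℂ) + y * I) b) atTop
      (𝓝 (L.II (L.xi p0) k (L.xi v0 - 1) (c + 1) (1 / 2))) := by
    unfold II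
    refine tendsto_finsetSum _ fun b _ => ?_
    exact intervalIntegral_tendsto_integral (hint b) tendsto_neg_atTop_atBot tendsto_id
  have l4 := (l1.sub l2).add (l3.const_mul (I * (1 - L.al p0 k)))
  have l5 : Tendsto (fun _ : ℝ => -(L.N * L.om / ((L.om : ℂ) - 1)) * ∑ b ∈ Finset.range L.N,
        ∑ r ∈ L.pts b, L.term p0 k v0 c r b) atTop
      (𝓝 (∑ b ∈ Finset.range L.N, (0 : ℂ) -
        ∑ b ∈ Finset.range L.N, (((L.om : ℂ) - 1) * L.topc v0 c b) +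
        I * (1 - L.al p0 k) * L.II (L.xi p0) k (L.xi v0 - 1) (c + 1) (1 / 2))) := by
    refine l4.congr' ?_
    filter_upwards [eventually_gt_atTop 0] with T hT
    rw [← L.sum_BR hp0 k v0 c hT, ← L.vert_T hp0 hp hv T, ← Finset.sum_sub_distrib,
      ← Finset.sum_add_distrib]
    refine Finset.sum_congr rfl fun b _ => ?_
    unfold Ghost.CRES_BR
    ring
  have h := tendsto_nhds_unique tendsto_const_nhds l5
  rw [h, ← Finset.mul_sum, Finset.sum_const_zero]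
  ring

end Lens

end Zau
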