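import Pool.Agent.Lib_zau.FkvLens
import Pool.Agent.Lib_zau.Main

/-!
# The region theorem (note 14, section 5; helper77 and helper58)
-/

open Complex MeasureTheory Set Filter Topology
open scoped Real

namespace Zau

namespace Lens

variable (L : Lens)

theorem om_irr : Irrational L.om := L.toF.hirr

theorem xi_ne_int {p0 : ℤ} (hp0 : p0 ≠ 0) (n : ℤ) : L.xi p0 ≠ n := by
  intro h
  have hom := L.om_gt_one
  unfold xi at h
  rw [div_eq_iff L.om_sub_ne] at h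
  have h1 : L.om * ((p0 - n : ℤ) : ℝ) = ((-n : ℤ) : ℝ) := by
    push_cast
    linarith
  by_cases h2 : p0 = n
  · rw [h2, sub_self, Int.cast_zero, mul_zero] at h1
    have h3 : n = 0 := by
      have : ((0 : ℤ) : ℝ) = ((-n : ℤ) : ℝ) := by simpa using h1
      have := Int.cast_injective this
      omega
    exact hp0 (h2.trans h3)
  · have h3 : ((p0 - n : ℤ) : ℝ) ≠ 0 := by
      exact_mod_cast sub_ne_zero.2 h2
    apply L.om_irr
    refine ⟨((-n : ℤ) : ℚ) / ((p0 - n : ℤ) : ℚ), ?_⟩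
    rw [← eq_div_iff h3] at h1
    rw [h1]
    push_cast
    rfl

theorem UR_zero : L.UR 0 0 = 1 := by
  unfold UR Ghost.e
  simp

/-- The value of `R` at `-p`, moved into the strip. -/
theorem R_neg {p0 k : ℤ} (hp0 : 1 ≤ p0) (hp : (L.N : ℤ) ∣ p0 - (L.A - 1) * k) :
    (1 - L.al p0 k) * L.R (L.U - k) (L.om - L.xi p0) =
      L.R (L.U + 1 - k) (L.xi (L.m - p0)) := by
  have h1 := L.one_lt_xi (r := p0) (by omega)
  have h2 := MRes.R2' L (L.U - k) (L.om - L.xi p0) (by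
    rw [Complex.sub_re, Complex.ofReal_re, Complex.ofReal_re]
    linarith)
  have h3 : L.UR ((L.om : ℂ) - L.xi p0) (L.U - k) = L.al p0 k := by
    have e1 := MRes.UR_left L (-k) (-L.xi p0)
    have e2 := MRes.UR_sub L hp 0 0
    rw [UR_zero, one_mul, zero_sub, zero_sub] at e2
    rw [e2] at e1
    rw [← e1]
    congr 1
    · ring
    · ring
  rw [h3] at h2
  rw [mul_comm, ← h2, xi_sub, xi_m]
  congr 1
  · ring
  · push_cast
    ring

theorem om_m_c : (L.om : ℂ) * L.m = ((L.om : ℂ) - 1) ^ 2 := by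
  exact_mod_cast L.om_m

theorem geom_aux {N : ℕ} (hN : 0 < N) (x : ℤ) (h : ¬ (N : ℤ) ∣ x) :
    ∑ b ∈ Finset.range N, Ghost.e (x * b / N) = 0 := by
  have hN' : (N : ℂ) ≠ 0 := by exact_mod_cast hN.ne'
  have h1 : ∀ b : ℕ, Ghost.e (x * b / N) = (Ghost.e (x / N)) ^ b := by
    intro b
    unfold Ghost.e
    rw [← Complex.exp_nat_mul]
    congr 1
    ring
  simp only [h1]
  have h2 : Ghost.e (x / N) ≠ 1 := by
    intro h3
    obtain ⟨k, hk⟩ := MRes.e_eq_one.1 h3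
    apply h
    refine ⟨k, ?_⟩
    rw [div_eq_iff hN'] at hk
    have : (x : ℂ) = ((k * N : ℤ) : ℂ) := by
      push_cast
      exact hk
    have h4 := Int.cast_injective this
    rw [h4, mul_comm]
  have h3 := geom_sum_mul (Ghost.e (x / N)) N
  have h4 : (Ghost.e (x / N)) ^ N = 1 := by
    rw [← h1 N, MRes.e_eq_one]
    refine ⟨x, ?_⟩
    field_simp
  rw [h4, sub_self] at h3
  rcases mul_eq_zero.1 h3 with h5 | h5
  · exact h5
  · exact absurd (sub_eq_zero.1 h5) h2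

theorem dvd_of_dvd_A {c : ℤ} (h : (L.N : ℤ) ∣ L.A * c) : (L.N : ℤ) ∣ c := by
  obtain ⟨k, hk⟩ := h
  refine ⟨L.B * c - L.U * k, ?_⟩
  have h1 := L.hdet
  have h2 : c = L.B * L.N * c - L.U * (L.A * c) := by
    rw [h1]
    ring
  rw [hk] at h2
  linear_combination h2

theorem sum_topc (v0 c : ℤ) : ∑ b ∈ Finset.range L.N, L.topc v0 c b =
    if v0 = 0 ∧ (L.N : ℤ) ∣ c then (L.N : ℂ) else 0 := by
  unfold topc
  by_cases h : v0 = 0
  · simp only [h, if_true, true_and]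
    by_cases h2 : (L.N : ℤ) ∣ c
    · rw [if_pos h2]
      obtain ⟨k, hk⟩ := h2
      have h3 : ∀ b ∈ Finset.range L.N, Ghost.e (L.A * ((b : ℕ) : ℤ) * c / L.N) = 1 := by
        intro b _
        rw [MRes.e_eq_one]
        refine ⟨L.A * b * k, ?_⟩
        rw [hk]
        have := L.N_ne_c
        push_cast
        field_simp
      rw [Finset.sum_congr rfl h3]
      simp
    · rw [if_neg h2]
      have h3 : ∀ b ∈ Finset.range L.N, Ghost.e (L.A * ((b : ℕ) : ℤ) * c / L.N) =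
          Ghost.e (((L.A * c : ℤ) : ℂ) * b / L.N) := by
        intro b _
        congr 1
        push_cast
        ring
      rw [Finset.sum_congr rfl h3]
      exact geom_aux L.hN _ fun h => h2 (L.dvd_of_dvd_A h)
  · simp [h]

/-- The region theorem: for fixed points `p = (xi p0, k)`, `v = (xi v0, c)` with `1 ≤ p0 < m`,
`-m + p0 < v0 ≤ 0`. -/
theorem region {p0 k v0 c : ℤ} (hp0 : 1 ≤ p0) (hp : (L.N : ℤ) ∣ p0 - (L.A - 1) * k)
    (hv : (L.N : ℤ) ∣ v0 - (L.A - 1) * c) (hv1 : -L.m + p0 < v0) (hv2 : v0 ≤ 0) :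
    ∑ b ∈ Finset.range L.N, ∑ r ∈ L.pts b, L.term p0 k v0 c r b =
      ((L.om : ℂ) - 1) * L.D 0 0 * L.D (c - k + L.U + 1) (L.xi (v0 - p0 + L.m)) *
        L.R (L.U + 1 - k) (L.xi (L.m - p0)) * L.R (c + L.U + 1) (L.xi (v0 + L.m)) +
      (if v0 = 0 ∧ (L.N : ℤ) ∣ c then (L.m : ℂ) else 0) := by
  have hom := L.om_gt_one
  have h1 := L.one_lt_xi (r := p0) (by omega)
  have h2 : L.xi p0 < L.om - 1 := by
    rw [← L.xi_m]
    exact L.xi_lt_iff.2 (by omega)
  have h3 : L.xi p0 - (L.om - 1) < L.xi v0 := by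
    rw [← L.xi_m, ← L.xi_sub]
    exact L.xi_lt_iff.2 (by omega)
  have h4 : L.xi v0 ≤ 0 := by
    have := L.xi_le hv2
    rwa [xi_zero] at this
  have hre : ((L.xi v0 : ℂ) - 1).re = L.xi v0 - 1 := by
    rw [Complex.sub_re, Complex.ofReal_re, Complex.one_re]
  have hF := L.FKV (a := L.xi p0) (by linarith) (by linarith)
    (L.xi_ne_int (by omega)) k (c + 1) (η := (L.xi v0 : ℂ) - 1) (by rw [hre]; linarith)
    (by rw [hre]; linarith) (x0 := 1 / 2) (by norm_num) (by linarith)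
  have hC := L.contour hp0 hp hv hv1 hv2 hF.1
  rw [hF.2, sum_topc] at hC
  have hR := L.R_neg hp0 hp
  have hx1 : (L.xi v0 : ℂ) - 1 + L.om - L.xi p0 = (L.xi (v0 - p0 + L.m) : ℝ) := by
    rw [xi_add, xi_sub, xi_m]
    push_cast
    ring
  have hx2 : (L.xi v0 : ℂ) - 1 + L.om = (L.xi (v0 + L.m) : ℝ) := by
    rw [xi_add, xi_m]
    push_cast
    ring
  have hi1 : c + 1 + L.U - k = c - k + L.U + 1 := by ring
  have hi2 : c + 1 + L.U = c + L.U + 1 := by ring
  rw [hx1, hx2, hi1, hi2] at hC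
  have hN := L.N_ne_c
  have hom' := L.om_ne_c
  have hom1 := L.om_sub_ne_c
  have hm := L.om_m_c
  have key : ∑ b ∈ Finset.range L.N, ∑ r ∈ L.pts b, L.term p0 k v0 c r b =
      -(((L.om : ℂ) - 1) / (L.N * L.om)) *
      (-(((L.om : ℂ) - 1) * (if v0 = 0 ∧ (L.N : ℤ) ∣ c then (L.N : ℂ) else 0)) +
        I * (1 - L.al p0 k) * (I * L.N * L.om * L.D 0 0 *
          L.D (c - k + L.U + 1) (L.xi (v0 - p0 + L.m) : ℝ) *
          L.R (L.U - k) ((L.om : ℂ) - L.xi p0) * L.R (c + L.U + 1) (L.xi (v0 + L.m) : ℝ))) := by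
    rw [← hC]
    field_simp
  rw [key, ← hR]
  have hI : I * I = -1 := Complex.I_mul_I
  by_cases hz : v0 = 0 ∧ (L.N : ℤ) ∣ c
  · simp only [if_pos hz]
    have hm' : (L.m : ℂ) = ((L.om : ℂ) - 1) ^ 2 / L.om := by
      rw [← hm]
      field_simp
    rw [hm']
    field_simp
    linear_combination (-(L.om * L.D 0 0 * L.D (c - k + L.U + 1) (L.xi (v0 - p0 + L.m) : ℝ) *
      L.R (L.U - k) ((L.om : ℂ) - L.xi p0) * L.R (c + L.U + 1) (L.xi (v0 + L.m) : ℝ) *
      (1 - L.al p0 k))) * hI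
  · simp only [if_neg hz]
    field_simp
    linear_combination (-(((L.om : ℂ) - 1) * L.om * L.N * L.D 0 0 *
      L.D (c - k + L.U + 1) (L.xi (v0 - p0 + L.m) : ℝ) *
      L.R (L.U - k) ((L.om : ℂ) - L.xi p0) * L.R (c + L.U + 1) (L.xi (v0 + L.m) : ℝ) *
      (1 - L.al p0 k))) * hI

end Lens

end Zau
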