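import Pool.Agent.Lib_zau.GLb
import Pool.Agent.Lib_zau.MReg

/-!
# Zauner (MP_1c78a5_mp), B4, third part: the near group equation for the lens

The region theorem is translated to the group `L.GG`; `Sol.star_of_region` gives the equation
`∑ w, pr w v * aa b w * b (w - q) = κ * b (-q) * b (-v) * aa b (-q - v)` for every `v` and every `q`
such that `m` does not divide `rr q` and `gcd (N, m)` divides `rr q`.
-/

set_option autoImplicit false

open Finset

namespace Zau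

open Ghost

namespace Lens

variable (L : Lens)

/-- A representative with `1 ≤ r ≤ m`, `0 ≤ b < N`. -/
theorem exists_canon1 (u : L.GG) : ∃ x : ℤ × ℤ, QuotientAddGroup.mk x = u ∧
    1 ≤ rr L.N L.U x ∧ rr L.N L.U x ≤ L.m ∧ 0 ≤ bb L.N L.U x ∧ bb L.N L.U x < L.N := by
  obtain ⟨y, rfl, h0, h1⟩ := L.exists_canon u
  -- first step
  obtain ⟨z, hz, hz0, hz1⟩ : ∃ z : ℤ × ℤ, (QuotientAddGroup.mk z : L.GG) = QuotientAddGroup.mk y ∧
      1 ≤ rr L.N L.U z ∧ rr L.N L.U z ≤ L.m := by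
    rcases h0.eq_or_lt with h2 | h2
    · refine ⟨y + L.relHom (0, 1), ?_, ?_, ?_⟩
      · rw [mk_eq, add_sub_cancel_left]
        exact (L.mem_Rel' _).2 ⟨_, rfl⟩
      · rw [rr_add, rr_rel, ← h2]
        simp only
        have := L.m_pos
        omega
      · rw [rr_add, rr_rel, ← h2]
        simp
    · exact ⟨y, rfl, by omega, h1.le⟩
  refine ⟨z - L.relHom (bb L.N L.U z / L.N, 0), ?_, ?_, ?_, ?_, ?_⟩
  · rw [← hz, mk_eq, sub_sub_cancel_left]
    exact neg_mem ((L.mem_Rel' _).2 ⟨_, rfl⟩)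
  · rw [rr_sub, rr_rel]
    simpa using hz0
  · rw [rr_sub, rr_rel]
    simpa using hz1
  · rw [bb_sub, bb_rel]
    have h2 := Int.emod_nonneg (bb L.N L.U z) L.hNZ.ne'
    have h3 := Int.emod_add_mul_ediv (bb L.N L.U z) L.N
    simp only
    have h4 : bb L.N L.U z - (bb L.N L.U z / L.N * L.N + 0 * (L.U + 1)) = bb L.N L.U z % L.N := by
      linear_combination -h3
    rw [h4]
    exact h2
  · rw [bb_sub, bb_rel]
    have h2 := Int.emod_lt_of_pos (bb L.N L.U z) L.hNZ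
    have h3 := Int.emod_add_mul_ediv (bb L.N L.U z) L.N
    simp only
    have h4 : bb L.N L.U z - (bb L.N L.U z / L.N * L.N + 0 * (L.U + 1)) = bb L.N L.U z % L.N := by
      linear_combination -h3
    rw [h4]
    exact h2

/-- Two representatives in the box are equal. -/
theorem box_inj {x y : ℤ × ℤ} (h : (QuotientAddGroup.mk x : L.GG) = QuotientAddGroup.mk y)
    (hx0 : 1 ≤ rr L.N L.U x) (hx1 : rr L.N L.U x ≤ L.m) (hx2 : 0 ≤ bb L.N L.U x)
    (hx3 : bb L.N L.U x < L.N) (hy0 : 1 ≤ rr L.N L.U y) (hy1 : rr L.N L.U y ≤ L.m)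
    (hy2 : 0 ≤ bb L.N L.U y) (hy3 : bb L.N L.U y < L.N) :
    rr L.N L.U x = rr L.N L.U y ∧ bb L.N L.U x = bb L.N L.U y := by
  rw [mk_eq, mem_Rel] at h
  obtain ⟨j, h1, h2⟩ := h
  rw [rr_sub] at h1
  rw [bb_sub] at h2
  have hj : j = 0 := by
    have hm := L.m_pos
    by_contra hj
    rcases lt_or_gt_of_ne hj with hj | hj
    · have : j * L.m ≤ -1 * L.m := mul_le_mul_of_nonneg_right (by omega) hm.le
      omega
    · have : 1 * L.m ≤ j * L.m := mul_le_mul_of_nonneg_right (by omega) hm.le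
      omega
  subst hj
  refine ⟨by omega, ?_⟩
  have h3 : (L.N : ℤ) ∣ bb L.N L.U x - bb L.N L.U y := by simpa using h2
  have h4 := Int.eq_zero_of_abs_lt_dvd h3 (by rw [abs_lt]; constructor <;> omega)
  omega

/-- The sum over the fixed points in the strip is the sum over the group. -/
theorem sum_pts (F : ℤ → ℤ → ℂ) (f : L.GG → ℂ)
    (h : ∀ x : ℤ × ℤ, 1 ≤ rr L.N L.U x → rr L.N L.U x ≤ L.m →
      F (rr L.N L.U x) (bb L.N L.U x) = f (QuotientAddGroup.mk x)) :
    ∑ b ∈ range L.N, ∑ r ∈ L.pts b, F r b = ∑ u, f u := by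
  rw [sum_sigma']
  have hpt : ∀ a ∈ (range L.N).sigma (fun b : ℕ => L.pts b), ∃ x : ℤ × ℤ,
      rr L.N L.U x = a.2 ∧ bb L.N L.U x = a.1 := by
    rintro ⟨b, r⟩ ha
    rw [mem_sigma] at ha
    have h2 : r ∈ L.pts b := ha.2
    unfold pts at h2
    rw [mem_filter] at h2
    exact L.exists_pt h2.2
  have hbox : ∀ a ∈ (range L.N).sigma (fun b : ℕ => L.pts b),
      1 ≤ a.2 ∧ a.2 ≤ L.m ∧ 0 ≤ (a.1 : ℤ) ∧ (a.1 : ℤ) < L.N := by
    rintro ⟨b, r⟩ ha
    rw [mem_sigma, mem_range] at ha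
    have h2 : r ∈ L.pts b := ha.2
    unfold pts at h2
    rw [mem_filter, mem_Icc] at h2
    have h3 : b < L.N := ha.1
    exact ⟨h2.1.1, h2.1.2, by positivity, by exact_mod_cast h3⟩
  refine sum_bij (fun a ha => (QuotientAddGroup.mk (hpt a ha).choose : L.GG)) ?_ ?_ ?_ ?_
  · intro a ha
    exact mem_univ _
  · intro a ha a' ha' haa
    obtain ⟨e1, e2⟩ := (hpt a ha).choose_spec
    obtain ⟨e1', e2'⟩ := (hpt a' ha').choose_spec
    obtain ⟨b1, b2, b3, b4⟩ := hbox a ha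
    obtain ⟨b1', b2', b3', b4'⟩ := hbox a' ha'
    obtain ⟨h1, h2⟩ := L.box_inj haa (by rw [e1]; exact b1) (by rw [e1]; exact b2)
      (by rw [e2]; exact b3) (by rw [e2]; exact b4) (by rw [e1']; exact b1')
      (by rw [e1']; exact b2') (by rw [e2']; exact b3') (by rw [e2']; exact b4')
    rw [e1, e1'] at h1
    rw [e2, e2'] at h2
    obtain ⟨b, r⟩ := a
    obtain ⟨b', r'⟩ := a'
    simp only at h1 h2
    have h3 : b = b' := by exact_mod_cast h2
    subst h3
    subst h1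
    rfl
  · intro u _
    obtain ⟨x, hx, h0, h1, h2, h3⟩ := L.exists_canon1 u
    have hmem : (⟨(bb L.N L.U x).toNat, rr L.N L.U x⟩ : Σ _ : ℕ, ℤ) ∈
        (range L.N).sigma (fun b : ℕ => L.pts b) := by
      rw [mem_sigma, mem_range]
      refine ⟨by simp only; omega, ?_⟩
      unfold pts
      simp only
      rw [mem_filter, mem_Icc, Int.toNat_of_nonneg h2]
      exact ⟨⟨h0, h1⟩, L.fix_dvd x⟩
    refine ⟨_, hmem, ?_⟩
    obtain ⟨e1, e2⟩ := (hpt _ hmem).choose_spec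
    have e2' := e2.trans (Int.toNat_of_nonneg h2)
    rw [← hx, mk_eq]
    have hR : rr L.N L.U ((hpt _ hmem).choose - x) = 0 := by rw [rr_sub, e1, sub_self]
    have hB : bb L.N L.U ((hpt _ hmem).choose - x) = 0 := by rw [bb_sub, e2', sub_self]
    rw [mem_Rel]
    exact ⟨0, by rw [hR, zero_mul], by rw [hB]; simp⟩
  · intro a ha
    obtain ⟨e1, e2⟩ := (hpt a ha).choose_spec
    obtain ⟨b1, b2, b3, b4⟩ := hbox a ha
    have := h (hpt a ha).choose (by rw [e1]; exact b1) (by rw [e1]; exact b2)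
    rw [e1, e2] at this
    exact this

/-- The pairing in coordinates. -/
theorem chi_eq (x y : ℤ × ℤ) :
    L.chi (L.xi (-rr L.N L.U y)) (-bb L.N L.U y) (L.xi (rr L.N L.U x)) (bb L.N L.U x) =
      L.pr0 x y := by
  rw [pr0_eq]
  unfold chi
  have hN := L.N_ne_c
  have hom := L.om_ne_c
  have hom1 := L.om_sub_ne_c
  have hm := L.m_neC
  have hmC : ((L.om : ℂ) - 1) ^ 2 = L.m * L.om := by
    have := congrArg (fun r : ℝ => (r : ℂ)) L.om_m
    push_cast at this
    linear_combination -this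
  have h1 : -((L.xi (rr L.N L.U x) : ℂ) * (L.xi (-rr L.N L.U y) : ℂ)) / (L.N * (L.om : ℂ)) =
      (rr L.N L.U x : ℂ) * rr L.N L.U y / (L.N * L.m) := by
    have h2 : ((L.om : ℂ) - 1) ^ 2 ≠ 0 := pow_ne_zero 2 hom1
    have h3 : -((L.xi (rr L.N L.U x) : ℂ) * (L.xi (-rr L.N L.U y) : ℂ)) =
        (L.om : ℂ) ^ 2 * (rr L.N L.U x * rr L.N L.U y) / ((L.om : ℂ) - 1) ^ 2 := by
      unfold xi
      push_cast
      field_simp
    rw [h3, hmC]
    field_simp
  rw [h1]
  -- the integer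
  have hd := L.hdet
  have key : rr L.N L.U x * rr L.N L.U y - L.m * (L.A * bb L.N L.U x * bb L.N L.U y) =
      L.N * L.bil x y + L.N * L.m * (-(L.A * L.N * x.1 * y.1 + L.A * L.U * (x.1 * y.2 + x.2 * y.1) +
        L.U * L.B * x.2 * y.2)) := by
    simp only [rr, bb, bil, m]
    linear_combination ((L.A - L.U - 2) * L.U * x.2 * y.2 - x.2 * y.2) * hd
  have keyC := congrArg (fun r : ℤ => (r : ℂ)) key
  push_cast at keyC
  have h4 : (rr L.N L.U x : ℂ) * rr L.N L.U y / (L.N * L.m) +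
      L.A * bb L.N L.U x * ((-bb L.N L.U y : ℤ) : ℂ) / L.N =
      (L.bil x y : ℂ) / L.m + ((-(L.A * L.N * x.1 * y.1 + L.A * L.U * (x.1 * y.2 + x.2 * y.1) +
        L.U * L.B * x.2 * y.2) : ℤ) : ℂ) := by
    push_cast
    field_simp
    linear_combination keyC
  rw [h4, e_add_int]

/-- The class of zero in the strip. -/
theorem mk_eq_zero_iff {x : ℤ × ℤ} (h0 : 0 ≤ rr L.N L.U x) (h1 : rr L.N L.U x < L.m) :
    (QuotientAddGroup.mk x : L.GG) = 0 ↔ rr L.N L.U x = 0 ∧ (L.N : ℤ) ∣ bb L.N L.U x := by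
  rw [mk_eq_zero, mem_Rel]
  constructor
  · rintro ⟨j, h2, h3⟩
    have hm := L.m_pos
    have hj : j = 0 := by
      by_contra hj
      rcases lt_or_gt_of_ne hj with hj | hj
      · have : j * L.m ≤ -1 * L.m := mul_le_mul_of_nonneg_right (by omega) hm.le
        omega
      · have : 1 * L.m ≤ j * L.m := mul_le_mul_of_nonneg_right (by omega) hm.le
        omega
    subst hj
    exact ⟨by omega, by simpa using h3⟩
  · rintro ⟨h2, h3⟩
    exact ⟨0, by rw [h2, zero_mul], by simpa using h3⟩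

/-- A class with `0 < r < m` is not zero. -/
theorem mk_ne_zero {x : ℤ × ℤ} (h0 : 0 < rr L.N L.U x) (h1 : rr L.N L.U x < L.m) :
    (QuotientAddGroup.mk x : L.GG) ≠ 0 := by
  rw [Ne, L.mk_eq_zero_iff h0.le h1]
  rintro ⟨h2, _⟩
  omega

/-- The value of `bG` in the strip `-m < r < m`. -/
theorem bG_val' {x : ℤ × ℤ} (h0 : -L.m < rr L.N L.U x) (h1 : rr L.N L.U x < L.m) :
    bG L (QuotientAddGroup.mk x) = L.P.b * L.D 0 0 * L.R (bb L.N L.U x) (L.xi (rr L.N L.U x)) := by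
  rcases le_or_gt 0 (rr L.N L.U x) with h2 | h2
  · exact L.bG_canon h2 h1
  · obtain ⟨y, hy⟩ : ∃ y, y = x + L.relHom (0, 1) := ⟨_, rfl⟩
    have hmk : (QuotientAddGroup.mk y : L.GG) = QuotientAddGroup.mk x := by
      rw [mk_eq, hy, add_sub_cancel_left]
      exact (L.mem_Rel' _).2 ⟨_, rfl⟩
    have hr : rr L.N L.U y = rr L.N L.U x + L.m := by
      rw [hy, rr_add, rr_rel]
      simp
    have hb : bb L.N L.U y = bb L.N L.U x + L.U + 1 := by
      rw [hy, bb_add, bb_rel]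
      simp only
      ring
    have hne : (QuotientAddGroup.mk x : L.GG) ≠ 0 := by
      rw [← hmk]
      exact L.mk_ne_zero (by rw [hr]; omega) (by rw [hr]; omega)
    rw [← hmk, L.bG_canon (by rw [hr]; omega) (by rw [hr]; omega), hr, hb, L.R_tau hne h2]

/-- The value of `1 / bG` in the strip `1 ≤ r ≤ m`. -/
theorem aa_val (hD : L.D = Df L.N L.U L.om) {x : ℤ × ℤ} (h0 : 1 ≤ rr L.N L.U x)
    (h1 : rr L.N L.U x ≤ L.m) :
    L.P.b * L.D 0 0 * aa (bG L) (QuotientAddGroup.mk x) =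
      L.D (bb L.N L.U x) (L.xi (rr L.N L.U x)) := by
  by_cases hx : (QuotientAddGroup.mk x : L.GG) = 0
  · have h2 : rr L.N L.U x = L.m := by
      by_contra h3
      exact L.mk_ne_zero (by omega) (by omega) hx
    have h3 : (L.N : ℤ) ∣ bb L.N L.U x - (L.U + 1) := by
      rw [mk_eq_zero, mem_Rel] at hx
      obtain ⟨j, h4, h5⟩ := hx
      have h6 : j = 1 := by
        rw [h2] at h4
        have : (j - 1) * L.m = 0 := by linarith
        rcases mul_eq_zero.1 this with h | h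
        · omega
        · exact absurd h L.m_ne
      rw [h6, one_mul] at h5
      exact h5
    have hLP : LP L.N L.A L.U L.om :=
      ⟨L.hN, ⟨L.B, by rw [← L.hdet, mul_comm]⟩, isU_of_par L.hub L.htr⟩
    have h7 := hLP.Df_zero
    rw [L.D_congr h3, h2, xi_m, hx]
    unfold aa
    rw [if_pos rfl, bG_zero, hD]
    push_cast
    rw [h7, L.om_cast]
    ring
  · have h2 := L.bG_val hx (by omega) h1
    unfold aa
    rw [if_neg hx, ← h2]
    have := L.bG_ne (QuotientAddGroup.mk x)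
    field_simp

/-- The region. -/
theorem star_region (hD : L.D = Df L.N L.U L.om) {x y : ℤ × ℤ} (hx0 : 1 ≤ rr L.N L.U x)
    (hy0 : 0 ≤ rr L.N L.U y) (hxy : rr L.N L.U x + rr L.N L.U y < L.m) :
    ∑ w, L.pr w (QuotientAddGroup.mk y) * (aa (bG L) w *
      bG L (w - QuotientAddGroup.mk x)) =
      kapL L * bG L (-(QuotientAddGroup.mk x : L.GG)) * bG L (-(QuotientAddGroup.mk y : L.GG)) *
        aa (bG L) (-(QuotientAddGroup.mk x : L.GG) - QuotientAddGroup.mk y) := by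
  have hreg := L.region (p0 := rr L.N L.U x) (k := bb L.N L.U x) (v0 := -rr L.N L.U y)
    (c := -bb L.N L.U y) hx0 (L.fix_dvd x) (by
      obtain ⟨k, hk⟩ := L.fix_dvd y
      exact ⟨-k, by linear_combination -hk⟩) (by omega) (by omega)
  have hC : (L.P.b : ℂ) * L.D 0 0 ≠ 0 := mul_ne_zero L.Pb_ne L.D00_ne
  have hsum := L.sum_pts (fun r b => L.term (rr L.N L.U x) (bb L.N L.U x) (-rr L.N L.U y)
    (-bb L.N L.U y) r b) (fun w => L.pr w (QuotientAddGroup.mk y) * (aa (bG L) w *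
      bG L (w - QuotientAddGroup.mk x))) (by
    intro z hz0 hz1
    show L.term _ _ _ _ _ _ = _
    unfold term
    rw [L.chi_eq z y, ← L.pr_mk, ← L.aa_val hD hz0 hz1, ← QuotientAddGroup.mk_sub,
      L.bG_val' (x := z - x) (by rw [rr_sub]; omega) (by rw [rr_sub]; omega), rr_sub, bb_sub]
    rw [xi_sub]
    push_cast
    ring)
  rw [hsum] at hreg
  rw [hreg]
  -- the right side
  have hm := L.m_pos
  have hkap : kapL L * L.P.b = (L.om : ℂ) - 1 := by
    have h1 := L.P.hbo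
    have h2 : (L.P.b : ℂ) * L.P.o = 1 := by exact_mod_cast h1
    unfold kapL
    rw [L.om_cast]
    linear_combination -h2
  -- `-q`
  obtain ⟨X, hX⟩ : ∃ X, X = -x + L.relHom (0, 1) := ⟨_, rfl⟩
  have hXmk : (QuotientAddGroup.mk X : L.GG) = -(QuotientAddGroup.mk x : L.GG) := by
    rw [← QuotientAddGroup.mk_neg, mk_eq, hX, add_sub_cancel_left]
    exact (L.mem_Rel' _).2 ⟨_, rfl⟩
  have hXr : rr L.N L.U X = L.m - rr L.N L.U x := by
    rw [hX, rr_add, rr_neg, rr_rel]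
    simp only
    ring
  have hXb : bb L.N L.U X = L.U + 1 - bb L.N L.U x := by
    rw [hX, bb_add, bb_neg, bb_rel]
    simp only
    ring
  have e1 := L.bG_canon (x := X) (by rw [hXr]; omega) (by rw [hXr]; omega)
  rw [hXmk, hXr, hXb] at e1
  -- `-q - v`
  obtain ⟨Z, hZ⟩ : ∃ Z, Z = -x - y + L.relHom (0, 1) := ⟨_, rfl⟩
  have hZmk : (QuotientAddGroup.mk Z : L.GG) =
      -(QuotientAddGroup.mk x : L.GG) - QuotientAddGroup.mk y := by
    rw [← QuotientAddGroup.mk_neg, ← QuotientAddGroup.mk_sub, mk_eq, hZ, add_sub_cancel_left]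
    exact (L.mem_Rel' _).2 ⟨_, rfl⟩
  have hZr : rr L.N L.U Z = -rr L.N L.U y - rr L.N L.U x + L.m := by
    rw [hZ, rr_add, rr_sub, rr_neg, rr_rel]
    simp only
    ring
  have hZb : bb L.N L.U Z = -bb L.N L.U y - bb L.N L.U x + L.U + 1 := by
    rw [hZ, bb_add, bb_sub, bb_neg, bb_rel]
    simp only
    ring
  have e2 := L.aa_val hD (x := Z) (by rw [hZr]; omega) (by rw [hZr]; omega)
  rw [hZmk, hZr, hZb] at e2
  by_cases hy : (QuotientAddGroup.mk y : L.GG) = 0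
  · obtain ⟨h1, h2⟩ := (L.mk_eq_zero_iff hy0 (by omega)).1 hy
    have h3 : -rr L.N L.U y = 0 ∧ (L.N : ℤ) ∣ -bb L.N L.U y :=
      ⟨by omega, by simpa using h2⟩
    rw [if_pos h3, hy, neg_zero, sub_zero, bG_zero]
    have hLP : LP L.N L.A L.U L.om :=
      ⟨L.hN, ⟨L.B, by rw [← L.hdet, mul_comm]⟩, isU_of_par L.hub L.htr⟩
    have h7 := hLP.Df_zero
    -- the values
    have d1 := L.DR_xi (r := L.m - rr L.N L.U x) (by omega) (by omega) (L.U + 1 - bb L.N L.U x)
    have d2 := L.DR_xi (r := L.m) hm.le le_rfl (L.U + 1)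
    have h4 : -rr L.N L.U y - rr L.N L.U x + L.m = L.m - rr L.N L.U x := by omega
    have h5 : -rr L.N L.U y + L.m = L.m := by omega
    have h6 : L.D (-bb L.N L.U y - bb L.N L.U x + L.U + 1) (L.xi (L.m - rr L.N L.U x)) =
        L.D (L.U + 1 - bb L.N L.U x) (L.xi (L.m - rr L.N L.U x)) := by
      apply L.D_congr
      obtain ⟨k, hk⟩ := h2
      exact ⟨-k, by linear_combination -hk⟩
    have h8 : L.R (-bb L.N L.U y + L.U + 1) (L.xi L.m) = L.R (L.U + 1) (L.xi L.m) := by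
      apply L.R_congr
      obtain ⟨k, hk⟩ := h2
      exact ⟨-k, by linear_combination -hk⟩
    have h9 : L.D (L.U + 1) (L.xi L.m) = L.om * L.D 0 0 := by
      rw [xi_m, hD]
      push_cast
      exact h7
    have h10 : bG L (-(QuotientAddGroup.mk x : L.GG)) *
        aa (bG L) (-(QuotientAddGroup.mk x : L.GG)) = 1 := by
      unfold aa
      rw [if_neg (neg_ne_zero.2 (L.mk_ne_zero (by omega) (by omega)))]
      exact mul_inv_cancel₀ (L.bG_ne _)
    rw [h4, h5, h6, h8]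
    rw [h9] at d2
    have hmC : (L.om : ℂ) * L.m = ((L.om : ℂ) - 1) ^ 2 := L.om_m_c
    have hom := L.om_ne_c
    apply mul_left_cancel₀ hom
    linear_combination ((L.om : ℂ) - 1) * L.om * L.D 0 0 * L.R (L.U + 1) (L.xi L.m) * d1 +
      ((L.om : ℂ) - 1) * d2 + hmC - L.om * (L.P.b : ℂ) * kapL L * h10 - L.om * hkap
  · have h3 : ¬ (-rr L.N L.U y = 0 ∧ (L.N : ℤ) ∣ -bb L.N L.U y) := by
      rintro ⟨h1, h2⟩
      exact hy ((L.mk_eq_zero_iff hy0 (by omega)).2 ⟨by omega, by simpa using h2⟩)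
    rw [if_neg h3, add_zero]
    obtain ⟨Y, hY⟩ : ∃ Y, Y = -y + L.relHom (0, 1) := ⟨_, rfl⟩
    have hYmk : (QuotientAddGroup.mk Y : L.GG) = -(QuotientAddGroup.mk y : L.GG) := by
      rw [← QuotientAddGroup.mk_neg, mk_eq, hY, add_sub_cancel_left]
      exact (L.mem_Rel' _).2 ⟨_, rfl⟩
    have hYr : rr L.N L.U Y = -rr L.N L.U y + L.m := by
      rw [hY, rr_add, rr_neg, rr_rel]
      simp only
      ring
    have hYb : bb L.N L.U Y = -bb L.N L.U y + L.U + 1 := by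
      rw [hY, bb_add, bb_neg, bb_rel]
      simp only
      ring
    have e3 := L.bG_val (x := Y) (by rw [hYmk]; exact neg_ne_zero.2 hy) (by rw [hYr]; omega)
      (by rw [hYr]; omega)
    rw [hYmk, hYr, hYb] at e3
    have d1 := L.DR_xi (r := -rr L.N L.U y + L.m) (by omega) (by omega) (-bb L.N L.U y + L.U + 1)
    have e4 : bG L (-(QuotientAddGroup.mk y : L.GG)) =
        L.P.b * L.D 0 0 * L.R (-bb L.N L.U y + L.U + 1) (L.xi (-rr L.N L.U y + L.m)) := by
      linear_combination L.R (-bb L.N L.U y + L.U + 1) (L.xi (-rr L.N L.U y + L.m)) * e3 -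
        bG L (-(QuotientAddGroup.mk y : L.GG)) * d1
    have e5 : L.U + 1 - bb L.N L.U x = L.U + 1 - bb L.N L.U x := rfl
    rw [e1, e4, ← e2, ← hkap]
    ring

/-- The order of the group as a natural number. -/
def M : ℕ := L.m.toNat

theorem M_cast : (L.M : ℤ) = L.m := Int.toNat_of_nonneg L.m_pos.le

instance instNeZeroM : NeZero L.M := ⟨by
  have h1 := L.M_cast
  have h2 := L.m_pos
  omega⟩

/-- The coordinate `r` modulo `m`. -/
def t0 : (ℤ × ℤ) →+ ZMod L.M where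
  toFun x := (rr L.N L.U x : ZMod L.M)
  map_zero' := by rw [rr_zero, Int.cast_zero]
  map_add' x y := by rw [rr_add, Int.cast_add]

/-- The coordinate `r` modulo `m` on the group. -/
def t : L.GG →+ ZMod L.M := QuotientAddGroup.lift L.Rel L.t0 (by
  intro x hx
  obtain ⟨j, h1, _⟩ := (L.mem_Rel x).1 hx
  show ((rr L.N L.U x : ℤ) : ZMod L.M) = 0
  rw [h1, ← L.M_cast]
  push_cast
  simp)

theorem t_mk (x : ℤ × ℤ) : L.t (QuotientAddGroup.mk x) = (rr L.N L.U x : ZMod L.M) := rfl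

theorem t_val (x : ℤ × ℤ) : ((L.t (QuotientAddGroup.mk x)).val : ℤ) = rr L.N L.U x % L.m := by
  rw [t_mk, ZMod.val_intCast, M_cast]

theorem t_eq_zero (x : ℤ × ℤ) : L.t (QuotientAddGroup.mk x) = 0 ↔ L.m ∣ rr L.N L.U x := by
  rw [t_mk, ZMod.intCast_zmod_eq_zero_iff_dvd, M_cast]

theorem pr_h (v : L.GG) : L.pairing.P (QuotientAddGroup.mk (1, 0)) v =
    Complex.exp (2 * Real.pi * Complex.I * ((L.t v).val : ℂ) / L.M) := by
  obtain ⟨y, rfl⟩ := L.ind v
  show L.pr _ _ = _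
  rw [pr_mk, pr0_eq]
  have h1 : L.bil (1, 0) y = rr L.N L.U y := by
    simp only [bil, rr]
    ring
  have h2 : ((L.t (QuotientAddGroup.mk y)).val : ℂ) =
      rr L.N L.U y - L.m * ((rr L.N L.U y / L.m : ℤ) : ℂ) := by
    have h3 := L.t_val y
    have h4 := Int.emod_add_mul_ediv (rr L.N L.U y) L.m
    have h5 : ((L.t (QuotientAddGroup.mk y)).val : ℤ) =
        rr L.N L.U y - L.m * (rr L.N L.U y / L.m) := by
      rw [h3]
      linear_combination h4
    exact_mod_cast h5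
  have h6 : (L.M : ℂ) = (L.m : ℂ) := by
    rw [← L.M_cast]
    push_cast
    rfl
  have h7 : (rr L.N L.U y : ℂ) / L.m = ((L.t (QuotientAddGroup.mk y)).val : ℂ) / L.m +
      ((rr L.N L.U y / L.m : ℤ) : ℂ) := by
    rw [h2]
    have := L.m_neC
    field_simp
    ring
  rw [h1, h7, e_add_int, h6]
  unfold e
  congr 1
  ring

/-- **The near group equation.** -/
theorem star (hD : L.D = Df L.N L.U L.om) {x : ℤ × ℤ} (h1 : ¬ L.m ∣ rr L.N L.U x)
    (h2 : ∀ g : ℕ, (g : ℤ) ∣ L.N → (g : ℤ) ∣ L.m → (g : ℤ) ∣ rr L.N L.U x) (v : L.GG) :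
    ∑ w, L.pr w v * aa (bG L) w * bG L (w - QuotientAddGroup.mk x) =
      kapL L * bG L (-(QuotientAddGroup.mk x : L.GG)) * bG L (-v) *
        aa (bG L) (-(QuotientAddGroup.mk x : L.GG) - v) := by
  have h := (L.sol hD).star_of_region L.M L.t (QuotientAddGroup.mk (1, 0)) L.pr_h ?_
    (QuotientAddGroup.mk x) (by rw [Ne, L.t_eq_zero]; exact h1) ?_ v
  · have h3 : ∑ w, L.pr w v * aa (bG L) w * bG L (w - QuotientAddGroup.mk x) =
        L.pairing.FT ((L.sol hD).f (QuotientAddGroup.mk x)) v := by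
      unfold Pairing.FT
      refine sum_congr rfl fun w _ => ?_
      show _ = L.pr w v * (aa (bG L) w * bG L (w - QuotientAddGroup.mk x))
      ring
    rw [h3, h]
    rfl
  · intro q u hq hqu
    obtain ⟨X, rfl, hX0, hX1⟩ := L.exists_canon q
    obtain ⟨Y, rfl, hY0, hY1⟩ := L.exists_canon u
    have e1 := L.t_val X
    have e2 := L.t_val Y
    rw [Int.emod_eq_of_lt hX0 hX1] at e1
    rw [Int.emod_eq_of_lt hY0 hY1] at e2
    have e3 : rr L.N L.U X ≠ 0 := by
      intro h3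
      apply hq
      rw [L.t_eq_zero, h3]
      exact dvd_zero _
    have e4 := L.M_cast
    have h4 := L.star_region hD (x := X) (y := Y) (by omega) hY0 (by omega)
    exact h4
  · -- the gcd condition
    have e1 : ((Nat.gcd (L.t (QuotientAddGroup.mk (1, 0))).val L.M : ℕ) : ℤ) ∣ L.m := by
      rw [← L.M_cast]
      exact_mod_cast Nat.gcd_dvd_right _ _
    have e2 : ((Nat.gcd (L.t (QuotientAddGroup.mk (1, 0))).val L.M : ℕ) : ℤ) ∣ L.N := by
      have h3 : ((Nat.gcd (L.t (QuotientAddGroup.mk (1, 0))).val L.M : ℕ) : ℤ) ∣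
          ((L.t (QuotientAddGroup.mk (1, 0))).val : ℤ) := by
        exact_mod_cast Nat.gcd_dvd_left _ _
      rw [L.t_val (1, 0)] at h3
      have h4 : rr L.N L.U (1, 0) = L.N := by simp [rr]
      rw [h4] at h3
      have h5 := Int.emod_add_mul_ediv (L.N : ℤ) L.m
      rw [← h5]
      exact dvd_add h3 (dvd_mul_of_dvd_left e1 _)
    have e3 := h2 _ e2 e1
    have h5 := Int.emod_add_mul_ediv (rr L.N L.U x) L.m
    have h6 : ((Nat.gcd (L.t (QuotientAddGroup.mk (1, 0))).val L.M : ℕ) : ℤ) ∣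
        ((L.t (QuotientAddGroup.mk x)).val : ℤ) := by
      rw [L.t_val x]
      have h7 : rr L.N L.U x % L.m = rr L.N L.U x - L.m * (rr L.N L.U x / L.m) := by linarith
      rw [h7]
      exact dvd_sub e3 (dvd_mul_of_dvd_left e1 _)
    exact_mod_cast h6

/-- The near group equation for a point of prime power order. -/
theorem star_prime (hD : L.D = Df L.N L.U L.om) {l : ℕ} (hl : l.Prime) (hlN : ¬ l ∣ L.N)
    (q : L.GG) (hq : q ≠ 0) (hlq : ∃ i : ℕ, l ^ i • q = 0) (v : L.GG) :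
    ∑ w, L.pr w v * aa (bG L) w * bG L (w - q) =
      kapL L * bG L (-q) * bG L (-v) * aa (bG L) (-q - v) := by
  obtain ⟨x, rfl, h0, h1⟩ := L.exists_canon q
  obtain ⟨i, hi⟩ := hlq
  have hrel : (l ^ i) • x ∈ L.Rel := by
    rw [← L.mk_eq_zero]
    exact hi
  have hs1 : ((l ^ i) • x).1 = (l : ℤ) ^ i * x.1 := by
    rw [Prod.smul_fst, nsmul_eq_mul, Nat.cast_pow]
  have hs2 : ((l ^ i) • x).2 = (l : ℤ) ^ i * x.2 := by
    rw [Prod.smul_snd, nsmul_eq_mul, Nat.cast_pow]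
  have hrs : rr L.N L.U ((l ^ i) • x) = (l : ℤ) ^ i * rr L.N L.U x := by
    unfold rr
    rw [hs1, hs2]
    ring
  have hbs : bb L.N L.U ((l ^ i) • x) = (l : ℤ) ^ i * bb L.N L.U x := by
    unfold bb
    rw [hs1, hs2]
    ring
  obtain ⟨j, hj1, hj2⟩ := (L.mem_Rel _).1 hrel
  rw [hrs] at hj1
  rw [hbs] at hj2
  have hco : IsCoprime (L.N : ℤ) ((l : ℤ) ^ i) := by
    have h3 : Nat.Coprime L.N (l ^ i) := ((Nat.Prime.coprime_iff_not_dvd hl).2 hlN).symm.pow_right i
    have h4 := Nat.isCoprime_iff_coprime.2 h3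
    push_cast at h4
    exact h4
  have hne : ¬ L.m ∣ rr L.N L.U x := by
    intro hdv
    have hr0 : rr L.N L.U x = 0 := Int.eq_zero_of_abs_lt_dvd hdv (by rw [abs_lt]; constructor <;> omega)
    rw [hr0, mul_zero] at hj1
    have hj : j = 0 := (mul_eq_zero.1 hj1.symm).resolve_right L.m_ne
    rw [hj, zero_mul, sub_zero] at hj2
    exact hq ((L.mk_eq_zero_iff h0 h1).2 ⟨hr0, hco.dvd_of_dvd_mul_left hj2⟩)
  refine L.star hD hne ?_ v
  intro g hgN hgm
  have h3 : (g : ℤ) ∣ (l : ℤ) ^ i * rr L.N L.U x := by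
    rw [hj1]
    exact dvd_mul_of_dvd_right hgm _
  have h4 : IsCoprime (g : ℤ) ((l : ℤ) ^ i) := hco.of_isCoprime_of_dvd_left hgN
  exact h4.dvd_of_dvd_mul_left h3

end Lens

end Zau
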