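import Pool.Agent.Lib_zau.B10b
import Pool.Agent.Lib_zau.Gal

/-!
# Zauner (MP_1c78a5_mp): the Galois step for a tower
-/

set_option autoImplicit false

namespace Zau

open Finset

section

variable {d : ℕ} [NeZero d]

/-- The point `(a / d, b / d)`. -/
def ptd (d : ℕ) (w : ZMod d × ZMod d) : ℚ × ℚ := ((w.1.val : ℚ) / d, (w.2.val : ℚ) / d)

theorem ptd_mem (w : ZMod d × ZMod d) : d • ptd d w ∈ Lam := by
  have hd0 : (d : ℚ) ≠ 0 := by exact_mod_cast (NeZero.ne d)
  refine ⟨w.1.val, w.2.val, ?_⟩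
  unfold ptd
  ext
  · simp only [Prod.smul_mk, nsmul_eq_mul]
    push_cast
    field_simp
  · simp only [Prod.smul_mk, nsmul_eq_mul]
    push_cast
    field_simp

/-- Points of `V` with the same residues differ by a lattice point. -/
theorem ptd_cast (i j : ℤ) : ∃ z ∈ Lam,
    ptd d ((i : ZMod d), (j : ZMod d)) = ((i : ℚ) / d, (j : ℚ) / d) + z := by
  have hd0 : (d : ℚ) ≠ 0 := by exact_mod_cast (NeZero.ne d)
  have key : ∀ i : ℤ, ∃ k : ℤ, (((i : ZMod d).val : ℚ)) / d = (i : ℚ) / d + k := by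
    intro i
    have h1 : (d : ℤ) ∣ ((i : ZMod d).val : ℤ) - i := by
      rw [← ZMod.intCast_zmod_eq_zero_iff_dvd]
      push_cast
      rw [ZMod.natCast_zmod_val, sub_self]
    obtain ⟨k, hk⟩ := h1
    refine ⟨k, ?_⟩
    have h2 : ((i : ZMod d).val : ℚ) = i + d * k := by
      have h3 : ((i : ZMod d).val : ℤ) = i + d * k := by linarith
      exact_mod_cast h3
    rw [h2]
    field_simp
  obtain ⟨k, hk⟩ := key i
  obtain ⟨k', hk'⟩ := key j
  refine ⟨((k : ℚ), (k' : ℚ)), ⟨k, k', rfl⟩, ?_⟩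
  unfold ptd
  ext
  · exact hk
  · exact hk'

theorem galois_d (hd : 4 ≤ d) {rho : ℚ × ℚ → ℝ} (T : Tower ((d : ℤ) - 1) rho)
    (halg : ∀ x : ℚ × ℚ, d • x ∈ Lam → IsAlgebraic ℚ ((Real.exp (3 * rho x) : ℝ) : ℂ)) :
    ∃ σ : ℂ →+* ℂ, ∀ w : ZMod d × ZMod d,
      ‖σ ((Real.exp (3 * rho (ptd d w)) : ℝ) : ℂ)‖ = 1 := by
  have hn : (3 : ℤ) ≤ (d : ℤ) - 1 := by
    have : (4 : ℤ) ≤ d := by exact_mod_cast hd
    linarith
  obtain ⟨k, rfl⟩ : ∃ k, d = k + 4 := ⟨d - 4, by omega⟩
  have hper : ∀ i j : ℤ, rho (ptd (k + 4) ((i : ZMod (k + 4)), (j : ZMod (k + 4)))) =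
      rho ((i : ℚ) / ((k + 4 : ℕ) : ℚ), (j : ℚ) / ((k + 4 : ℕ) : ℚ)) := by
    intro i j
    obtain ⟨z, hz, h⟩ := ptd_cast (d := k + 4) i j
    rw [h, T.per _ z hz]
  have hval : ∀ w : ZMod (k + 4) × ZMod (k + 4),
      w = (((w.1.val : ℤ) : ZMod (k + 4)), ((w.2.val : ℤ) : ZMod (k + 4))) := by
    intro w
    ext
    · push_cast
      rw [ZMod.natCast_zmod_val]
    · push_cast
      rw [ZMod.natCast_zmod_val]
  let R : ZMod (k + 4) × ZMod (k + 4) → ℝ := fun w => Real.exp (3 * rho (ptd (k + 4) w))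
  have hD : ¬ IsSquare ((k + 5) * (k + 1)) := by
    rintro ⟨r, hr⟩
    have h1 : k + 2 < r := by nlinarith
    have h2 : r < k + 3 := by nlinarith
    omega
  obtain ⟨σ, -, hσ⟩ := galois_step_abs (W := ZMod (k + 4) × ZMod (k + 4)) (f := k + 4) (by omega)
    (fun w => by
      ext
      · show (k + 4) • w.1 = 0
        rw [nsmul_eq_mul, ZMod.natCast_self, zero_mul]
      · show (k + 4) • w.2 = 0
        rw [nsmul_eq_mul, ZMod.natCast_self, zero_mul])
    ((k + 5) * (k + 1)) hD R (fun w => Real.exp_pos _)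
    (fun w => by
      show Real.exp (3 * rho (ptd (k + 4) (-w))) = (Real.exp (3 * rho (ptd (k + 4) w)))⁻¹
      rw [← Real.exp_neg]
      congr 1
      have h1 : -w = (((-(w.1.val : ℤ) : ℤ) : ZMod (k + 4)), ((-(w.2.val : ℤ) : ℤ) : ZMod (k + 4))) := by
        conv_lhs => rw [hval w]
        ext
        · push_cast; rfl
        · push_cast; rfl
      rw [h1, hper]
      have h2 : (((-(w.1.val : ℤ) : ℤ) : ℚ) / ((k + 4 : ℕ) : ℚ),
          ((-(w.2.val : ℤ) : ℤ) : ℚ) / ((k + 4 : ℕ) : ℚ)) = -ptd (k + 4) w := by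
        unfold ptd
        ext
        · simp only [Prod.neg_mk]
          push_cast
          ring
        · simp only [Prod.neg_mk]
          push_cast
          ring
      rw [h2, T.odd]
      ring)
    (fun w => halg _ (ptd_mem w))
    (by
      refine ⟨2, ?_⟩
      intro l hl hl2 hin Γ₀ _ v hv w
      have hin' : ¬ IsSquare (((((k + 4 : ℕ) : ℤ) - 1) ^ 2 - 4 : ℤ) : ZMod l) := by
        have h : ((((k + 4 : ℕ) : ℤ) - 1) ^ 2 - 4 : ℤ) = (((k + 5) * (k + 1) : ℕ) : ℤ) := by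
          push_cast
          ring
        rw [h]
        exact hin
      have h1 := (kronecker' hn T (k + 4) (by push_cast; ring) l hl (by omega) hin' v hv
        (ptd (k + 4) w) (ptd_mem w)).2
      have h2 : R (l • w) = Real.exp (3 * rho (l • ptd (k + 4) w)) := by
        show Real.exp (3 * rho (ptd (k + 4) (l • w))) = _
        have h3 : l • w = ((((l : ℤ) * (w.1.val : ℤ) : ℤ) : ZMod (k + 4)),
            (((l : ℤ) * (w.2.val : ℤ) : ℤ) : ZMod (k + 4))) := by
          conv_lhs => rw [hval w]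
          ext
          · push_cast
            rw [← nsmul_eq_mul]
            rfl
          · push_cast
            rw [← nsmul_eq_mul]
            rfl
        rw [h3, hper]
        congr 3
        unfold ptd
        ext
        · simp only [Prod.smul_mk, nsmul_eq_mul]
          push_cast
          ring
        · simp only [Prod.smul_mk, nsmul_eq_mul]
          push_cast
          ring
      rw [h2]
      exact h1)
  exact ⟨σ, hσ⟩

end

end Zau
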