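import Mathlib

/-!
MP_1c78a5_mp, piece B11 (Galois step): valuations of `ℂ` above a large prime number.
-/

open NumberField

namespace Zau

section Val

variable {Γ₀ : Type*} [LinearOrderedCommGroupWithZero Γ₀] (v : Valuation ℂ Γ₀)

theorem v_nat_le (n : ℕ) : v (n : ℂ) ≤ 1 := by
  induction n with
  | zero => simp
  | succ n ih =>
    push_cast
    exact (v.map_add _ _).trans (max_le ih (by simp))

theorem v_int_le (n : ℤ) : v (n : ℂ) ≤ 1 := by
  obtain ⟨m, rfl | rfl⟩ := n.eq_nat_or_neg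
  · exact_mod_cast v_nat_le v m
  · have := v_nat_le v m
    push_cast
    rwa [Valuation.map_neg]

theorem v_integral_le {x : ℂ} (hx : IsIntegral ℤ x) : v x ≤ 1 := by
  have h1 : IsIntegral v.integer x := by
    have : IsScalarTower ℤ v.integer ℂ := IsScalarTower.of_algebraMap_eq fun n => by simp
    exact hx.tower_top
  exact Valuation.Integers.mem_of_integral (Valuation.integer.integers v) h1

theorem v_nat_eq_one {p : ℕ} (hp : p.Prime) (hv : v (p : ℂ) < 1) {m : ℕ} (hm : ¬ p ∣ m) :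
    v (m : ℂ) = 1 := by
  refine le_antisymm (v_nat_le v m) ?_
  by_contra hlt
  push Not at hlt
  have hcop : IsCoprime (m : ℤ) (p : ℤ) := by
    rw [Nat.isCoprime_iff_coprime, Nat.coprime_comm]
    exact (Nat.Prime.coprime_iff_not_dvd hp).2 hm
  obtain ⟨a, b, hab⟩ := hcop
  have h1 : (a : ℂ) * m + b * p = 1 := by exact_mod_cast hab
  have h2 : v ((a : ℂ) * m + b * p) < 1 := by
    refine lt_of_le_of_lt (v.map_add _ _) (max_lt ?_ ?_)
    · rw [map_mul]
      exact lt_of_le_of_lt (mul_le_of_le_one_left' (v_int_le v a)) hlt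
    · rw [map_mul]
      exact lt_of_le_of_lt (mul_le_of_le_one_left' (v_int_le v b)) hv
  rw [h1, map_one] at h2
  exact lt_irrefl _ h2

/-- clear denominators -/
theorem exists_nat_mul_integral {x : ℂ} (hx : IsAlgebraic ℚ x) :
    ∃ m : ℕ, m ≠ 0 ∧ IsIntegral ℤ ((m : ℂ) * x) := by
  have h1 : IsAlgebraic ℤ x := (IsFractionRing.isAlgebraic_iff ℤ ℚ ℂ).2 hx
  obtain ⟨y, hy0, hy⟩ := h1.exists_integral_multiple
  refine ⟨y.natAbs, by simpa using hy0, ?_⟩
  rw [zsmul_eq_mul] at hy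
  rcases Int.natAbs_eq y with h | h
  · rw [h] at hy
    simpa using hy
  · rw [h] at hy
    have := hy.neg
    simpa using this

theorem exists_bound_unit {x : ℂ} (hx : IsAlgebraic ℚ x) (hx0 : x ≠ 0) :
    ∃ N : ℕ, ∀ p : ℕ, p.Prime → N < p → ∀ {Γ₀ : Type} [LinearOrderedCommGroupWithZero Γ₀]
      (v : Valuation ℂ Γ₀), v (p : ℂ) < 1 → v x = 1 := by
  obtain ⟨m, hm0, hm⟩ := exists_nat_mul_integral hx
  obtain ⟨k, hk0, hk⟩ := exists_nat_mul_integral hx.inv
  refine ⟨max m k, fun p hp hN Γ₀ _ v hv => ?_⟩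
  have h1 : v (m : ℂ) = 1 := v_nat_eq_one v hp hv fun h =>
    absurd (Nat.le_of_dvd (Nat.pos_of_ne_zero hm0) h) (by omega)
  have h2 : v (k : ℂ) = 1 := v_nat_eq_one v hp hv fun h =>
    absurd (Nat.le_of_dvd (Nat.pos_of_ne_zero hk0) h) (by omega)
  have h3 := v_integral_le v hm
  have h4 := v_integral_le v hk
  rw [map_mul, h1, one_mul] at h3
  rw [map_mul, h2, one_mul, map_inv₀] at h4
  refine le_antisymm h3 ?_
  have hv0 : v x ≠ 0 := (Valuation.ne_zero_iff v).2 hx0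
  rwa [inv_le_one₀ (zero_lt_iff.2 hv0)] at h4

end Val

section Place

variable {L : Type} [Field L] [NumberField L]

/-- There is a valuation of `ℂ` above every prime ideal of a number field. -/
theorem exists_place_gal (i : L →+* ℂ) (P : Ideal (𝓞 L)) (hP : P ≠ ⊤) :
    ∃ (Γ₀ : Type) (_ : LinearOrderedCommGroupWithZero Γ₀) (v : Valuation ℂ Γ₀),
      ∀ x ∈ P, v (i (x : L)) < 1 := by
  let f : 𝓞 L →+* ℂ := i.comp (algebraMap (𝓞 L) L)
  have hf : Function.Injective f := i.injective.comp RingOfIntegers.coe_injective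
  let e : 𝓞 L ≃+* f.range := RingEquiv.ofBijective f.rangeRestrict
    ⟨fun x y hxy => hf (congrArg Subtype.val hxy), f.rangeRestrict_surjective⟩
  let I : Ideal f.range := P.comap e.symm.toRingHom
  have hI : I ≠ ⊤ := by
    intro h
    apply hP
    rw [Ideal.eq_top_iff_one] at h ⊢
    have : e.symm.toRingHom 1 ∈ P := h
    simpa using this
  obtain ⟨B, hB1, hB2⟩ := Ideal.image_subset_nonunits_valuationSubring I hI
  refine ⟨B.ValueGroup, inferInstance, B.valuation, fun x hx => ?_⟩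
  have h1 : i (x : L) ∈ B.nonunits := by
    apply hB2
    refine ⟨e x, ?_, rfl⟩
    show e.symm (e x) ∈ P
    rwa [RingEquiv.symm_apply_apply]
  exact (ValuationSubring.mem_nonunits_iff B).1 h1

/-- Frobenius congruence for elements with denominators prime to `p`. -/
theorem frob_congr {Γ₀ : Type} [LinearOrderedCommGroupWithZero Γ₀] (v : Valuation ℂ Γ₀)
    (i : L →+* ℂ) (P : Ideal (𝓞 L)) (hPv : ∀ x ∈ P, v (i (x : L)) < 1) {p : ℕ} (hp : p.Prime)
    (hv : v (p : ℂ) < 1) (φ : L ≃ₐ[ℚ] L) (hφ : ∀ x : 𝓞 L, φ • x - x ^ p ∈ P) {x : L} {m : ℕ}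
    (hm : ¬ p ∣ m) (hx : IsIntegral ℤ ((m : L) * x)) :
    v (i x) ≤ 1 ∧ v (i (φ x) - i x ^ p) < 1 := by
  have hvm := v_nat_eq_one v hp hv hm
  have hx' : IsIntegral ℤ ((m : ℂ) * i x) := by
    have := hx.map (i : L →+* ℂ).toIntAlgHom
    simpa using this
  have hle : v (i x) ≤ 1 := by
    have := v_integral_le v hx'
    rwa [map_mul, hvm, one_mul] at this
  refine ⟨hle, ?_⟩
  let y : 𝓞 L := ⟨(m : L) * x, hx⟩
  have h1 := hPv _ (hφ y)
  have h2 : ((φ • y - y ^ p : 𝓞 L) : L) = (m : L) * φ x - ((m : L) * x) ^ p := by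
    have e1 : ((φ • y : 𝓞 L) : L) = φ ((m : L) * x) := rfl
    have e2 : ((y ^ p : 𝓞 L) : L) = ((m : L) * x) ^ p := rfl
    have e3 : ((φ • y - y ^ p : 𝓞 L) : L) = ((φ • y : 𝓞 L) : L) - ((y ^ p : 𝓞 L) : L) := rfl
    rw [e3, e1, e2, map_mul, map_natCast]
  rw [h2, map_sub, map_mul, map_pow, map_mul, map_natCast] at h1
  obtain ⟨k, hk⟩ : ∃ k : ℤ, (m : ℤ) ^ p = m + p * k := by
    have hF : ((m : ZMod p)) ^ p = m := by
      have := Fact.mk hp
      exact ZMod.pow_card _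
    have : (((m : ℤ) ^ p - m : ℤ) : ZMod p) = 0 := by
      push_cast
      rw [hF, sub_self]
    obtain ⟨k, hk⟩ := (ZMod.intCast_zmod_eq_zero_iff_dvd _ p).1 this
    exact ⟨k, by linarith⟩
  have hkC : ((m : ℂ)) ^ p = m + p * k := by exact_mod_cast hk
  have h3 : (m : ℂ) * (i (φ x) - i x ^ p) =
      ((m : ℂ) * i (φ x) - ((m : ℂ) * i x) ^ p) + p * (k * i x ^ p) := by
    rw [mul_pow, hkC]; ring
  have h4 : v ((m : ℂ) * (i (φ x) - i x ^ p)) < 1 := by
    rw [h3]
    refine lt_of_le_of_lt (v.map_add _ _) (max_lt h1 ?_)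
    rw [map_mul, map_mul, map_pow]
    have h5 : v (k : ℂ) * v (i x) ^ p ≤ 1 :=
      mul_le_one' (v_int_le v k) (pow_le_one' hle p)
    exact lt_of_le_of_lt (mul_le_of_le_one_right' h5) hv
  rwa [map_mul, hvm, one_mul] at h4

end Place

end Zau
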