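import Pool.Agent.Lib_zau.FrobDensity
import Pool.Agent.Lib_zau.Ext
import Pool.Agent.Lib_zau.GalV

/-!
MP_1c78a5_mp, piece B11 (Galois step): the argument with elements of 2-power order.
-/

open NumberField

namespace Zau

section Group

variable {L : Type} [Field L] [NumberField L]

/-- The prime number is large enough to separate the elements of a finite set. -/
theorem exists_bound_sep (i : L →+* ℂ) (S : Finset L) :
    ∃ N : ℕ, ∀ p : ℕ, p.Prime → N < p →
      (∀ s ∈ S, ∃ m : ℕ, ¬ p ∣ m ∧ IsIntegral ℤ ((m : L) * s)) ∧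
      ∀ {Γ₀ : Type} [LinearOrderedCommGroupWithZero Γ₀] (v : Valuation ℂ Γ₀), v (p : ℂ) < 1 →
        ∀ s ∈ S, ∀ s' ∈ S, v (i s - i s') < 1 → s = s' := by
  classical
  have halg : ∀ x : L, IsAlgebraic ℚ (i x) := by
    intro x
    have h1 : IsAlgebraic ℚ x := Algebra.IsAlgebraic.isAlgebraic x
    exact h1.algHom i.toRatAlgHom
  have h1 : ∀ s : L, ∃ m : ℕ, m ≠ 0 ∧ IsIntegral ℤ ((m : L) * s) := by
    intro s
    obtain ⟨m, hm0, hm⟩ := exists_nat_mul_integral (halg s)
    refine ⟨m, hm0, ?_⟩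
    have h2 : i ((m : L) * s) = (m : ℂ) * i s := by simp
    rw [← h2] at hm
    exact (isIntegral_algHom_iff i.toIntAlgHom i.injective).1 hm
  choose m hm0 hm using h1
  have h2 : ∀ q : L × L, ∃ N : ℕ, q.1 ≠ q.2 → ∀ p : ℕ, p.Prime → N < p →
      ∀ {Γ₀ : Type} [LinearOrderedCommGroupWithZero Γ₀] (v : Valuation ℂ Γ₀),
        v (p : ℂ) < 1 → v (i q.1 - i q.2) = 1 := by
    intro q
    by_cases hq : q.1 = q.2
    · exact ⟨0, fun h => absurd hq h⟩
    · have h3 : i q.1 - i q.2 ≠ 0 := sub_ne_zero.2 fun h => hq (i.injective h)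
      have h4 : IsAlgebraic ℚ (i q.1 - i q.2) := (halg _).sub (halg _)
      obtain ⟨N, hN⟩ := exists_bound_unit h4 h3
      exact ⟨N, fun _ p hp hNp Γ₀ _ v hv => hN p hp hNp v hv⟩
  choose N hN using h2
  refine ⟨S.sup m + (S ×ˢ S).sup N, fun p hp hlt => ⟨fun s hs => ⟨m s, ?_, hm s⟩, ?_⟩⟩
  · intro hdvd
    have h3 := Nat.le_of_dvd (Nat.pos_of_ne_zero (hm0 s)) hdvd
    have h4 : m s ≤ S.sup m := Finset.le_sup hs
    omega
  · intro Γ₀ _ v hv s hs s' hs' hlt'
    by_contra hne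
    have h3 : N (s, s') ≤ (S ×ˢ S).sup N := Finset.le_sup (Finset.mk_mem_product hs hs')
    have h4 := hN (s, s') hne p hp (by omega) v hv
    rw [h4] at hlt'
    exact lt_irrefl _ hlt'

variable {W : Type} [AddCommGroup W]

/-- The congruence hypothesis of the Galois step. -/
def Kron (D : ℤ) (R : W → ℝ) : Prop :=
  ∃ N₀ : ℕ, ∀ l : ℕ, l.Prime → N₀ < l → ¬ IsSquare ((D : ℤ) : ZMod l) →
    ∀ {Γ₀ : Type} [LinearOrderedCommGroupWithZero Γ₀] (v : Valuation ℂ Γ₀), v (l : ℂ) < 1 →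
      ∀ w : W, v ((R (l • w) : ℂ) - (R w : ℂ) ^ (l ^ 2)) < 1

/-- The law for one automorphism of 2-power order which moves `√D`. -/
theorem law_of_two_power [Finite W] {f : ℕ} (hf : f ≠ 0) (D : ℤ) (hD : D ≠ 0) (R : W → ℝ)
    (hK : Kron D R) (i : L →+* ℂ) (r : W → L) (hr : ∀ w, i (r w) = (R w : ℂ))
    (δ : L) (hδ : δ ^ 2 = (D : L)) (ζ : L) (hζ : ζ ^ f = 1)
    (h : L ≃ₐ[ℚ] L) (hh : h δ = -δ) (h2 : ∃ k : ℕ, orderOf h = 2 ^ k) :
    ∃ n : ℕ, h ζ = ζ ^ n ∧ ∀ w, h (h (r w)) = r (n • w) := by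
  classical
  have := Fintype.ofFinite W
  obtain ⟨N₀, hN₀⟩ := hK
  -- the finite set
  let X : Finset L := Finset.univ.image r ∪ (Finset.range f).image (fun k => ζ ^ k) ∪ {δ, -δ}
  let S : Finset L := (Finset.univ : Finset (L ≃ₐ[ℚ] L)).biUnion fun g => X.image g
  have hXS : ∀ x ∈ X, ∀ g : L ≃ₐ[ℚ] L, g x ∈ S := fun x hx g =>
    Finset.mem_biUnion.2 ⟨g, Finset.mem_univ _, Finset.mem_image_of_mem _ hx⟩
  have hXS1 : ∀ x ∈ X, x ∈ S := fun x hx => hXS x hx 1
  have hrX : ∀ w, r w ∈ X := fun w =>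
    Finset.mem_union_left _ (Finset.mem_union_left _ (Finset.mem_image_of_mem _ (Finset.mem_univ _)))
  have hζX : ∀ k, ζ ^ k ∈ X := by
    intro k
    refine Finset.mem_union_left _ (Finset.mem_union_right _ ?_)
    refine Finset.mem_image.2 ⟨k % f, Finset.mem_range.2 (Nat.mod_lt _ (Nat.pos_of_ne_zero hf)), ?_⟩
    conv_rhs => rw [← Nat.mod_add_div k f, pow_add, pow_mul, hζ, one_pow, mul_one]
  have hδX : δ ∈ X := Finset.mem_union_right _ (by simp)
  have hδX' : -δ ∈ X := Finset.mem_union_right _ (by simp)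
  obtain ⟨N₁, hN₁⟩ := exists_bound_sep i S
  obtain ⟨p, hp, hNp, P, hPmax, hpP, j, hj, hfrob⟩ :=
    exists_frob h δ D hD hδ hh (N₀ + N₁ + D.natAbs + 2)
  obtain ⟨Γ₀, _, v, hv⟩ := exists_place_gal i P hPmax.ne_top
  have hvp : v (p : ℂ) < 1 := by
    have := hv _ hpP
    simpa using this
  obtain ⟨hint, hsep⟩ := hN₁ p hp (by omega)
  have hsep := @hsep Γ₀ _ v hvp
  set φ := h ^ j with hφ
  have hcongr : ∀ x ∈ S, v (i x) ≤ 1 ∧ v (i (φ x) - i x ^ p) < 1 := by
    intro x hx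
    obtain ⟨m, hm, hmx⟩ := hint x hx
    exact frob_congr v i P hv hp hvp φ hfrob hm hmx
  have hsub : ∀ a b : ℂ, v (a - b) < 1 → v b ≤ 1 → ∀ n : ℕ, v (a ^ n - b ^ n) < 1 := by
    intro a b hab hb n
    have ha : v a ≤ 1 := by
      have : a = (a - b) + b := by ring
      rw [this]
      exact (v.map_add _ _).trans (max_le hab.le hb)
    induction n with
    | zero => simp
    | succ n ih =>
      have e : a ^ (n + 1) - b ^ (n + 1) = a ^ n * (a - b) + (a ^ n - b ^ n) * b := by ring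
      rw [e]
      refine lt_of_le_of_lt (v.map_add _ _) (max_lt ?_ ?_)
      · rw [map_mul, map_pow]
        exact lt_of_le_of_lt (mul_le_of_le_one_left' (pow_le_one' ha n)) hab
      · rw [map_mul]
        exact lt_of_le_of_lt (mul_le_of_le_one_right' hb) ih
  -- action on roots of unity
  have hφζ : φ ζ = ζ ^ p := by
    apply hsep _ (hXS _ (by simpa using hζX 1) φ) _ (hXS1 _ (hζX p))
    rw [map_pow]
    exact (hcongr _ (hXS1 _ (by simpa using hζX 1))).2
  -- action on δ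
  have hφδ : φ δ = -δ := by
    have : ∀ k : ℕ, (h ^ k) δ = (-1) ^ k * δ := by
      intro k
      induction k with
      | zero => simp
      | succ k ih =>
        rw [pow_succ', AlgEquiv.mul_apply, ih, map_mul, map_pow, map_neg, map_one, hh]
        ring
    rw [hφ, this, hj.neg_one_pow]
    ring
  -- D is not a square mod p
  have hns : ¬ IsSquare ((D : ℤ) : ZMod p) := by
    rintro ⟨a, ha⟩
    have hF := Fact.mk hp
    have hDp : ((D : ℤ) : ZMod p) ≠ 0 := by
      rw [Ne, ZMod.intCast_zmod_eq_zero_iff_dvd]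
      intro hdvd
      have := Int.natAbs_dvd_natAbs.2 hdvd
      rw [Int.natAbs_natCast] at this
      have := Nat.le_of_dvd (Int.natAbs_pos.2 hD) this
      omega
    have ha0 : a ≠ 0 := by
      rintro rfl
      apply hDp
      rw [ha]; simp
    have hp2 : p ≠ 2 := by omega
    have hpow : ((D : ℤ) : ZMod p) ^ ((p - 1) / 2) = 1 := by
      rw [ha, ← sq, ← pow_mul]
      have : 2 * ((p - 1) / 2) = p - 1 := by
        have := hp.odd_of_ne_two hp2
        obtain ⟨k, hk⟩ := this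
        omega
      rw [this]
      exact ZMod.pow_card_sub_one_eq_one ha0
    have h3 : (((D ^ ((p - 1) / 2) - 1 : ℤ)) : ZMod p) = 0 := by
      push_cast
      rw [hpow, sub_self]
    obtain ⟨k, hk⟩ := (ZMod.intCast_zmod_eq_zero_iff_dvd _ p).1 h3
    have h4 : v (i (φ δ) - i δ ^ p) < 1 := (hcongr _ (hXS1 _ hδX)).2
    have h5 : i δ ^ p = i δ + i δ * (p * k) := by
      have e1 : i δ ^ 2 = (D : ℂ) := by
        rw [← map_pow, hδ]; simp
      have e2 : (D : ℂ) ^ ((p - 1) / 2) = 1 + p * k := by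
        have : (D : ℤ) ^ ((p - 1) / 2) = 1 + p * k := by linarith
        exact_mod_cast this
      have e3 : p = 2 * ((p - 1) / 2) + 1 := by
        obtain ⟨k, hk⟩ := hp.odd_of_ne_two hp2
        omega
      calc i δ ^ p = i δ ^ (2 * ((p - 1) / 2) + 1) := by rw [← e3]
        _ = i δ + i δ * (p * k) := by
          rw [pow_succ, pow_mul, e1, e2]; ring
    have h6 : v (i (-δ) - i δ) < 1 := by
      have e : i (-δ) - i δ = (i (φ δ) - i δ ^ p) + i δ * (p * k) := by
        rw [h5, hφδ]; ring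
      rw [e]
      refine lt_of_le_of_lt (v.map_add _ _) (max_lt h4 ?_)
      rw [map_mul, map_mul]
      refine lt_of_le_of_lt (mul_le_of_le_one_left' (hcongr _ (hXS1 _ hδX)).1) ?_
      exact lt_of_le_of_lt (mul_le_of_le_one_right' (v_int_le v k)) hvp
    have h7 := hsep _ (hXS1 _ hδX') _ (hXS1 _ hδX) h6
    have h8 : (2 : L) * δ = 0 := by
      have : δ + δ = 0 := by
        nth_rewrite 1 [← h7]
        simp
      rw [two_mul, this]
    have h9 : δ = 0 := by simpa using h8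
    rw [h9] at hδ
    apply hD
    have : (D : L) = 0 := by rw [← hδ]; simp
    exact_mod_cast this
  have hKp := fun w => hN₀ p hp (by omega) hns v hvp w
  -- the law for φ
  have hφ2 : ∀ w, φ (φ (r w)) = r (p • w) := by
    intro w
    apply hsep _ _ _ (hXS1 _ (hrX _))
    · have h3 := (hcongr _ (hXS1 _ (hrX w)))
      have h4 := (hcongr _ (hXS _ (hrX w) φ))
      have h5 := hsub _ _ h3.2 (by rw [map_pow]; exact pow_le_one' h3.1 p) p
      have h6 := hKp w
      have e : i (φ (φ (r w))) - i (r (p • w)) =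
          (i (φ (φ (r w))) - i (φ (r w)) ^ p) + (i (φ (r w)) ^ p - (i (r w) ^ p) ^ p) -
            ((R (p • w) : ℂ) - (R w : ℂ) ^ (p ^ 2)) := by
        rw [hr, hr, sq, pow_mul]; ring
      rw [e]
      refine lt_of_le_of_lt (v.map_sub _ _) (max_lt ?_ h6)
      exact lt_of_le_of_lt (v.map_add _ _) (max_lt h4.2 h5)
    · have := hXS _ (hrX w) (φ * φ)
      simpa [AlgEquiv.mul_apply] using this
  -- h is a power of φ
  obtain ⟨k, hk⟩ := h2
  have hcop : j.Coprime (orderOf h) := by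
    rw [hk]
    exact Nat.Coprime.pow_right _ (Nat.coprime_two_right.2 hj)
  obtain ⟨m, hm⟩ := exists_pow_eq_self_of_coprime hcop
  rw [← hφ] at hm
  refine ⟨p ^ m, ?_, ?_⟩
  · have : ∀ t : ℕ, (φ ^ t) ζ = ζ ^ (p ^ t) := by
      intro t
      induction t with
      | zero => simp
      | succ t ih => rw [pow_succ', AlgEquiv.mul_apply, ih, map_pow, hφζ, ← pow_mul, ← pow_succ']
    rw [← this m, hm]
  · have : ∀ t : ℕ, ∀ w, (φ ^ t) ((φ ^ t) (r w)) = r ((p ^ t) • w) := by
      intro t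
      induction t with
      | zero => simp
      | succ t ih =>
        intro w
        have e : (φ ^ (t + 1)) ((φ ^ (t + 1)) (r w)) = (φ ^ t) ((φ ^ t) (φ (φ (r w)))) := by
          simp only [← AlgEquiv.mul_apply]
          congr 1
          group
        rw [e, hφ2, ih, smul_smul, ← pow_succ]
    intro w
    rw [← this m w, hm]

end Group

end Zau
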