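import Pool.Agent.Lib_zau.KronT

/-!
MP_1c78a5_mp (Zauner).  File KronO: the orbit form of the Kronecker congruence.
-/

set_option autoImplicit false

namespace Zau

open Finset

/-- A sum over a finite set on which a permutation acts with all orbits of length `j`. -/
theorem sum_of_orbits {X A : Type*} [Fintype X] [AddCommGroup A] (σ : Equiv.Perm X)
    (j : ℕ) (hj : 0 < j) (hσ : ∀ x, (σ ^ j) x = x)
    (hmin : ∀ i, 0 < i → i < j → ∀ x, (σ ^ i) x ≠ x) (g : X → A) (hg : ∀ x, g (σ x) = g x) (c : A)
    (hc : ∀ x, j • g x = j • c) : ∑ x, g x = (Fintype.card X) • c := by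
  classical
  have hcard : ∀ x : X, Fintype.card (MulAction.orbit (Subgroup.zpowers σ) x) = j := by
    intro x
    rw [← MulAction.minimalPeriod_eq_card]
    apply le_antisymm
    · apply Function.IsPeriodicPt.minimalPeriod_le hj
      show (σ • ·)^[j] x = x
      rw [smul_iterate]
      exact hσ x
    · by_contra hlt
      push Not at hlt
      have h1 : 0 < Function.minimalPeriod (σ • ·) x := by
        apply Function.IsPeriodicPt.minimalPeriod_pos hj
        show (σ • ·)^[j] x = x
        rw [smul_iterate]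
        exact hσ x
      apply hmin _ h1 hlt x
      have h2 := Function.iterate_minimalPeriod (f := (σ • ·)) (x := x)
      rw [smul_iterate] at h2
      exact h2
  have hpow : ∀ (s : Subgroup.zpowers σ) (x : X), g (s • x) = g x := by
    rintro ⟨s, k, rfl⟩ x
    show g ((σ ^ k) x) = g x
    have h1 : ∀ (n : ℕ) (x : X), g ((σ ^ n) x) = g x := by
      intro n
      induction n with
      | zero => intro x; rfl
      | succ n ih => intro x; rw [pow_succ', Equiv.Perm.mul_apply, hg, ih]
    rcases k with n | n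
    · exact h1 n x
    · have h2 := h1 (n + 1) ((σ ^ (Int.negSucc n)) x)
      rw [← h2, ← Equiv.Perm.mul_apply, zpow_negSucc, mul_inv_cancel, Equiv.Perm.one_apply]
  have hinner : ∀ ω : Quotient (MulAction.orbitRel (Subgroup.zpowers σ) X),
      ∑ x with Quotient.mk (MulAction.orbitRel (Subgroup.zpowers σ) X) x = ω, g x =
        (univ.filter fun x =>
          Quotient.mk (MulAction.orbitRel (Subgroup.zpowers σ) X) x = ω).card • c := by
    intro ω
    have hmem : ∀ x, Quotient.mk (MulAction.orbitRel (Subgroup.zpowers σ) X) x = ω ↔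
        x ∈ MulAction.orbit (Subgroup.zpowers σ) ω.out := by
      intro x
      conv_lhs => rw [← Quotient.out_eq ω]
      rw [Quotient.eq]
      exact Iff.rfl
    have h1 : (univ.filter fun x =>
        Quotient.mk (MulAction.orbitRel (Subgroup.zpowers σ) X) x = ω).card = j := by
      rw [← hcard ω.out, ← Set.toFinset_card]
      congr 1
      ext x
      rw [mem_filter, Set.mem_toFinset, hmem]
      simp
    have h2 : ∀ x ∈ univ.filter (fun x =>
        Quotient.mk (MulAction.orbitRel (Subgroup.zpowers σ) X) x = ω), g x = g ω.out := by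
      intro x hx
      rw [mem_filter, hmem] at hx
      obtain ⟨s, hs⟩ := hx.2
      rw [← hs]
      exact hpow s _
    rw [sum_congr rfl h2, sum_const, h1, hc]
  rw [← Finset.sum_fiberwise univ (fun x => Quotient.mk (MulAction.orbitRel (Subgroup.zpowers σ) X) x)
    g, sum_congr rfl fun ω _ => hinner ω, ← sum_smul, ← Finset.card_eq_sum_card_fiberwise
    (fun x _ => mem_coe.2 (mem_univ _)), card_univ]

/-- The finite set `T[p]`. -/
noncomputable def PBas.tp {T : Type*} [AddCommGroup T] {p : ℕ} (B : PBas T p) : Finset T := by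
  classical
  exact (range p ×ˢ range p).image fun km => km.1 • B.e1 + km.2 • B.e2

variable {T A : Type*} [AddCommGroup T] [AddCommGroup A] {p : ℕ}

theorem PBas.mem_tp (B : PBas T p) (t : T) : t ∈ B.tp ↔ p • t = 0 := by
  classical
  unfold PBas.tp
  simp only [mem_image, mem_product, mem_range, Prod.exists]
  constructor
  · rintro ⟨k, m, -, rfl⟩
    rw [_root_.smul_add, smul_comm p k, smul_comm p m, B.he1, B.he2, smul_zero, smul_zero,
      add_zero]
  · intro h
    obtain ⟨k, hk, m, hm, rfl⟩ := B.span t h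
    exact ⟨k, m, ⟨hk, hm⟩, rfl⟩

theorem PBas.injOn (B : PBas T p) :
    Set.InjOn (fun km : ℕ × ℕ => km.1 • B.e1 + km.2 • B.e2) (range p ×ˢ range p : Finset (ℕ × ℕ)) := by
  rintro ⟨k, m⟩ h ⟨k', m'⟩ h' heq
  simp only [coe_product, coe_range, Set.mem_prod, Set.mem_Iio] at h h'
  obtain ⟨hk, hm⟩ := h
  obtain ⟨hk', hm'⟩ := h'
  have hp0 : 0 < p := by omega
  have hmod1 : ∀ j : ℕ, (j % p) • B.e1 = j • B.e1 := by
    intro j
    conv_rhs => rw [← Nat.mod_add_div j p, add_smul, mul_comm, mul_smul, B.he1, smul_zero, add_zero]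
  have hmod2 : ∀ j : ℕ, (j % p) • B.e2 = j • B.e2 := by
    intro j
    conv_rhs => rw [← Nat.mod_add_div j p, add_smul, mul_comm, mul_smul, B.he2, smul_zero, add_zero]
  have h1 : ((k + (p - k')) % p) • B.e1 + ((m + (p - m')) % p) • B.e2 = 0 := by
    rw [hmod1, hmod2, add_smul, add_smul]
    have h2 : (k • B.e1 + (p - k') • B.e1) + (m • B.e2 + (p - m') • B.e2) =
        (k • B.e1 + m • B.e2) + ((p - k') • B.e1 + (p - m') • B.e2) := by abel
    have heq' : k • B.e1 + m • B.e2 = k' • B.e1 + m' • B.e2 := heq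
    rw [h2, heq']
    have h3 : (k' • B.e1 + m' • B.e2) + ((p - k') • B.e1 + (p - m') • B.e2) =
        (k' • B.e1 + (p - k') • B.e1) + (m' • B.e2 + (p - m') • B.e2) := by abel
    rw [h3, ← add_smul, ← add_smul]
    have h4 : k' + (p - k') = p := by omega
    have h5 : m' + (p - m') = p := by omega
    rw [h4, h5, B.he1, B.he2, add_zero]
  obtain ⟨h6, h7⟩ := B.inj _ (Nat.mod_lt _ hp0) _ (Nat.mod_lt _ hp0) h1
  have h8 : ∀ a b : ℕ, a < p → b < p → (a + (p - b)) % p = 0 → a = b := by
    intro a b ha hb hab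
    obtain ⟨c, hc⟩ := Nat.dvd_of_mod_eq_zero hab
    have h9 : c = 1 := by
      rcases Nat.lt_or_ge c 1 with h | h
      · obtain rfl : c = 0 := by omega
        omega
      · rcases Nat.lt_or_ge c 2 with h' | h'
        · omega
        · have : p * 2 ≤ p * c := Nat.mul_le_mul_left p h'
          omega
    subst h9
    omega
  rw [h8 k k' hk hk' h6, h8 m m' hm hm' h7]

theorem ftor_eq_sum (B : PBas T p) (F : T → A) (x : T) : ftor B F x = ∑ t ∈ B.tp, F (x + t) := by
  classical
  unfold ftor PBas.tp
  rw [sum_image B.injOn, sum_product]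
  refine sum_congr rfl fun k _ => sum_congr rfl fun m _ => ?_
  rw [add_assoc]

theorem card_tp (B : PBas T p) : B.tp.card = p ^ 2 := by
  classical
  unfold PBas.tp
  rw [card_image_of_injOn B.injOn, card_product, card_range, pow_two]

/-- The exact form of the Kronecker congruence. -/
theorem kron (hp : p.Prime) (B : PBas T p) (r : T → A) (S : T →+ T) (k0 j : ℕ) (hj : 0 < j)
    (hdist : ∀ x, r (p • x) = ftor B r x) (hS : ∀ x, r (S x) = r x)
    (hSj : ∀ t, p • t = 0 → S^[j] t = t)
    (hmin : ∀ i, 0 < i → i < j → ∀ t, p • t = 0 → t ≠ 0 → S^[i] t ≠ t)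
    (w : T) (hw : S w = w) (hper : ∀ t, p • t = 0 → (k0 * j) • r (w + t) = (k0 * j) • r w) :
    k0 • r (p • w) = (p ^ 2) • (k0 • r w) := by
  classical
  rw [hdist, ftor_eq_sum]
  have h0 : (0 : T) ∈ B.tp := (B.mem_tp 0).2 (smul_zero _)
  rw [← add_sum_erase _ _ h0, add_zero, smul_add, smul_sum]
  have hmaps : ∀ t, p • t = 0 → p • S t = 0 := fun t ht => by rw [← map_nsmul, ht, map_zero]
  have hit : ∀ (i : ℕ) (t : T), p • t = 0 → p • (S^[i] t) = 0 := by
    intro i
    induction i with
    | zero => intro t ht; exact ht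
    | succ i ih => intro t ht; rw [Function.iterate_succ_apply]; exact ih _ (hmaps t ht)
  have hinj : ∀ t, p • t = 0 → S t = 0 → t = 0 := by
    intro t ht h
    have h1 := hSj t ht
    obtain ⟨q, rfl⟩ : ∃ q, j = q + 1 := ⟨j - 1, by omega⟩
    rw [Function.iterate_succ_apply, h] at h1
    have h2 : ∀ i : ℕ, S^[i] (0 : T) = 0 := by
      intro i
      induction i with
      | zero => rfl
      | succ i ih => rw [Function.iterate_succ_apply, map_zero, ih]
    rw [h2] at h1
    exact h1.symm
  let X := {t : T // t ∈ B.tp.erase 0}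
  have hX : ∀ t : X, S t.1 ∈ B.tp.erase 0 := by
    intro t
    have ht := mem_erase.1 t.2
    have ht2 := (B.mem_tp _).1 ht.2
    exact mem_erase.2 ⟨fun h => ht.1 (hinj _ ht2 h), (B.mem_tp _).2 (hmaps _ ht2)⟩
  let f : X → X := fun t => ⟨S t.1, hX t⟩
  have hf : ∀ (i : ℕ) (t : X), (f^[i] t).1 = S^[i] t.1 := by
    intro i
    induction i with
    | zero => intro t; rfl
    | succ i ih => intro t; rw [Function.iterate_succ_apply, ih, Function.iterate_succ_apply]
  have hfinj : Function.Injective f := by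
    intro a b hab
    have h1 : S a.1 = S b.1 := congrArg Subtype.val hab
    have ha := (B.mem_tp _).1 (mem_erase.1 a.2).2
    have hb := (B.mem_tp _).1 (mem_erase.1 b.2).2
    have h2 : a.1 - b.1 = 0 := by
      apply hinj
      · rw [smul_sub, ha, hb, sub_zero]
      · rw [map_sub, h1, sub_self]
    exact Subtype.ext (sub_eq_zero.1 h2)
  let σ : Equiv.Perm X := Equiv.ofBijective f (Finite.injective_iff_bijective.1 hfinj)
  have hσ : ∀ (i : ℕ) (t : X), (σ ^ i) t = f^[i] t := by
    intro i
    induction i with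
    | zero => intro t; rfl
    | succ i ih =>
      intro t
      rw [pow_succ, Equiv.Perm.mul_apply, ih, Function.iterate_succ_apply]
      rfl
  have key := sum_of_orbits σ j hj
    (fun x => by
      apply Subtype.ext
      rw [hσ, hf]
      exact hSj _ ((B.mem_tp _).1 (mem_erase.1 x.2).2))
    (fun i hi hij x h => by
      have h1 := congrArg Subtype.val h
      rw [hσ, hf] at h1
      have hx := mem_erase.1 x.2
      exact hmin i hi hij _ ((B.mem_tp _).1 hx.2) hx.1 h1)
    (fun x => k0 • r (w + x.1))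
    (fun x => by
      show k0 • r (w + S x.1) = k0 • r (w + x.1)
      congr 1
      rw [← hS (w + x.1), map_add, hw])
    (k0 • r w)
    (fun x => by
      have h1 := hper x.1 ((B.mem_tp _).1 (mem_erase.1 x.2).2)
      rw [smul_smul, smul_smul, mul_comm j k0]
      exact h1)
  have hsum : ∑ t ∈ B.tp.erase 0, k0 • r (w + t) = ∑ x : X, k0 • r (w + x.1) :=
    (Finset.sum_coe_sort (B.tp.erase 0) (fun t => k0 • r (w + t))).symm
  have hcardX : Fintype.card X = p ^ 2 - 1 := by
    rw [Fintype.card_coe, card_erase_of_mem h0, card_tp]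
  rw [hsum, key, hcardX]
  have h1 : 1 ≤ p ^ 2 := Nat.one_le_pow _ _ hp.pos
  calc k0 • r w + (p ^ 2 - 1) • (k0 • r w) = (1 + (p ^ 2 - 1)) • (k0 • r w) := by
        rw [add_smul, one_smul]
    _ = (p ^ 2) • (k0 • r w) := by
        congr 1
        omega

end Zau
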