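import Pool.Agent.Lib_zau.CycA
import Pool.Agent.Lib_zau.KronO

/-!
MP_1c78a5_mp (Zauner).  File Glue: Theorem A, Theorem A' and the chain lemma give the Kronecker
congruence `exp(k₀ ρ(l w)) ≡ exp(k₀ ρ(w))^(l²)` for every valuation over `l`.
-/

set_option autoImplicit false

namespace Zau

open Finset

section PU
variable {K : Type*} [Field K] {Γ₀ : Type*} [LinearOrderedCommGroupWithZero Γ₀]

theorem val_eq_one_of_sub (v : Valuation K Γ₀) {x : K} (h : v (x - 1) < 1) : v x = 1 := by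
  have h1 : v (1 + (x - 1)) = 1 := v.map_one_add_of_lt h
  rwa [add_sub_cancel] at h1

/-- The group of principal units. -/
def PU (v : Valuation K Γ₀) : Subgroup Kˣ where
  carrier := {x | v ((x : K) - 1) < 1}
  one_mem' := by simp
  mul_mem' := by
    intro x y hx hy
    simp only [Set.mem_ofPred_eq, Units.val_mul] at hx hy ⊢
    have h1 : (x : K) * y - 1 = x * (y - 1) + (x - 1) := by ring
    rw [h1]
    refine lt_of_le_of_lt (v.map_add _ _) (max_lt ?_ hx)
    rw [v.map_mul, val_eq_one_of_sub v hx, one_mul]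
    exact hy
  inv_mem' := by
    intro x hx
    simp only [Set.mem_ofPred_eq, Units.val_inv_eq_inv_val] at hx ⊢
    have h1 : (x : K)⁻¹ - 1 = -((x - 1) * (x : K)⁻¹) := by
      field_simp
      ring
    rw [h1, v.map_neg, v.map_mul, map_inv₀, val_eq_one_of_sub v hx, inv_one, mul_one]
    exact hx

theorem mem_PU (v : Valuation K Γ₀) (x : Kˣ) : x ∈ PU v ↔ v ((x : K) - 1) < 1 := Iff.rfl

/-- `x ^ l ∈ 1 + 𝔪` implies `x ∈ 1 + 𝔪`. -/
theorem PU_root (v : Valuation K Γ₀) {l : ℕ} (hl : l.Prime) (hv : v (l : K) < 1) (x : Kˣ)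
    (hx : x ^ l ∈ PU v) : x ∈ PU v := by
  obtain ⟨k, hk, hch, res, hres⟩ := exists_res v hl hv
  rw [mem_PU] at hx ⊢
  have h1 : v (((x ^ l : Kˣ) : K)) = 1 := val_eq_one_of_sub v hx
  rw [Units.val_pow_eq_pow_val] at h1 hx
  have h2 : v (x : K) = 1 := by
    rw [map_pow] at h1
    exact (pow_eq_one_iff.1 h1).resolve_right hl.ne_zero
  have : Fact l.Prime := ⟨hl⟩
  let y : v.integer := ⟨x, h2.le⟩
  have h3 : res (y ^ l - 1) = 0 := (hres _).2 (by simpa [y] using hx)
  rw [map_sub, map_one, map_pow] at h3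
  have h4 : (res y - 1) ^ l = 0 := by rw [sub_pow_char, one_pow, h3]
  have h5 : res (y - 1) = 0 := by
    rw [map_sub, map_one]
    exact pow_eq_zero_iff hl.ne_zero |>.1 h4
  have h6 := (hres _).1 h5
  simpa [y] using h6

theorem noTor_PU (v : Valuation K Γ₀) {l : ℕ} (hl : l.Prime) (hv : v (l : K) < 1) :
    NoTor l (Additive (Kˣ ⧸ PU v)) := by
  intro a ha
  induction a using Additive.rec with
  | ofMul a =>
    obtain ⟨x, rfl⟩ := QuotientGroup.mk_surjective a
    have h1 : (QuotientGroup.mk (x ^ l) : Kˣ ⧸ PU v) = 1 := by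
      have := congrArg Additive.toMul ha
      exact this
    rw [QuotientGroup.eq_one_iff] at h1
    have h2 := PU_root v hl hv x h1
    show Additive.ofMul (QuotientGroup.mk x : Kˣ ⧸ PU v) = 0
    rw [(QuotientGroup.eq_one_iff x).2 h2]
    rfl

/-- The value group has no torsion. -/
theorem torsionfree_val (n : ℕ) (hn : 0 < n) (a : Additive Γ₀ˣ) (h : n • a = 0) : a = 0 := by
  induction a using Additive.rec with
  | ofMul a =>
    have h1 : a ^ n = 1 := congrArg Additive.toMul h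
    have h2 : (a : Γ₀) ^ n = 1 := by rw [← Units.val_pow_eq_pow_val, h1, Units.val_one]
    have h3 : (a : Γ₀) = 1 := (pow_eq_one_iff.1 h2).resolve_right hn.ne'
    have h4 : a = 1 := Units.ext h3
    rw [h4]
    rfl

end PU


section hom
variable {Γ₀ : Type*} [LinearOrderedCommGroupWithZero Γ₀]

/-- The unit `exp x`. -/
noncomputable def eu (x : ℝ) : ℂˣ := Units.mk0 (Complex.exp x) (Complex.exp_ne_zero _)

theorem eu_val (x : ℝ) : ((eu x : ℂˣ) : ℂ) = Complex.exp x := rfl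

theorem eu_add (x y : ℝ) : eu (x + y) = eu x * eu y := by
  apply Units.ext
  rw [Units.val_mul, eu_val, eu_val, eu_val, Complex.ofReal_add, Complex.exp_add]

theorem eu_zero : eu 0 = 1 := by
  apply Units.ext
  rw [eu_val, Complex.ofReal_zero, Complex.exp_zero, Units.val_one]

/-- `x ↦ exp x` as a map to `ℂˣ / (1 + 𝔪)`. -/
noncomputable def E2 (v : Valuation ℂ Γ₀) : ℝ →+ Additive (ℂˣ ⧸ PU v) where
  toFun x := Additive.ofMul (QuotientGroup.mk (eu x))
  map_zero' := by rw [eu_zero]; rfl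
  map_add' x y := by rw [eu_add]; rfl

/-- `x ↦ v (exp x)` as a map to the value group. -/
noncomputable def E1 (v : Valuation ℂ Γ₀) : ℝ →+ Additive Γ₀ˣ where
  toFun x := Additive.ofMul (Units.map (v : ℂ →* Γ₀) (eu x))
  map_zero' := by rw [eu_zero, map_one]; rfl
  map_add' x y := by rw [eu_add, map_mul]; rfl

theorem E1_eq_zero (v : Valuation ℂ Γ₀) (x : ℝ) : E1 v x = 0 ↔ v (Complex.exp x) = 1 := by
  have h1 : E1 v x = 0 ↔ Units.map (v : ℂ →* Γ₀) (eu x) = 1 := Iff.rfl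
  rw [h1, Units.ext_iff]
  exact Iff.rfl

theorem E2_eq (v : Valuation ℂ Γ₀) (x y : ℝ) : E2 v x = E2 v y ↔ eu x / eu y ∈ PU v := by
  have h1 : E2 v x = E2 v y ↔ (QuotientGroup.mk (eu x) : ℂˣ ⧸ PU v) = QuotientGroup.mk (eu y) :=
    Iff.rfl
  rw [h1, QuotientGroup.eq]
  have h2 : (eu x)⁻¹ * eu y = (eu x / eu y)⁻¹ := by rw [inv_div, div_eq_inv_mul]
  rw [h2]
  exact (PU v).inv_mem_iff

end hom

section fc
variable {T A A' : Type*} [AddCommGroup T] [AddCommGroup A] [AddCommGroup A'] {p : ℕ}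

theorem fcyc_map (φ : A →+ A') (F : T → A) (n : ℕ) (y x : T) :
    fcyc (fun z => φ (F z)) n y x = φ (fcyc F n y x) := by
  unfold fcyc
  rw [map_sum]

theorem ftor_map (B : PBas T p) (φ : A →+ A') (F : T → A) (x : T) :
    ftor B (fun z => φ (F z)) x = φ (ftor B F x) := by
  unfold ftor
  rw [map_sum]
  refine sum_congr rfl fun k _ => ?_
  rw [map_sum]

end fc

/-- What the analytic part gives for the lattice `Λ + ℤ y`, `y` of order `n`: `q` is the map from
`{x : ω x - x ∈ ℕ y}` onto the group of the lattice. -/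
def NearAt {T : Type*} [AddCommGroup T] (rho : T → ℝ) (om : T → T) (l n K : ℕ) (y : T)
    (ω : ℂ) : Prop :=
  ∃ (G : Type) (_ : AddCommGroup G) (_ : Fintype G) (_ : DecidableEq G) (s m : ℕ) (g : G)
    (pr : G → G → ℂ) (b : G → ℂ) (κ : ℂ) (q : T → G),
    CycSys l s m g pr b κ ∧ b 0 ^ 2 = ω ∧
    (∀ w, w ≠ 0 → ∃ N : ℕ, 0 < N ∧ (b w * b (-w)) ^ N = 1) ∧
    (∀ x x', (∃ k : ℕ, om x - x = k • y) → (∃ k : ℕ, om x' - x' = k • y) →
      q (x + x') = q x + q x') ∧
    (∀ w, ∃ x, (∃ k : ℕ, om x - x = k • y) ∧ q x = w) ∧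
    (∀ x, (∃ k : ℕ, om x - x = k • y) →
      b (q x) / b (-(q x)) = Complex.exp ((K * fcyc rho n y x : ℝ) : ℂ))

section core
variable {Γ₀ : Type*} [LinearOrderedCommGroupWithZero Γ₀]
variable {T : Type*} [AddCommGroup T] {l : ℕ}

/-- consequences of `NearAt` for a valuation -/
theorem NearAt.val {rho : T → ℝ} {om : T →+ T} {n K : ℕ} {y : T} {ω : ℂ}
    (h : NearAt rho om l n K y ω) (hl : l.Prime) (hl2 : l ≠ 2)
    (hfix : ∀ t, l • t = 0 → om t = t) (v : Valuation ℂ Γ₀) (hv : v (l : ℂ) < 1)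
    (hω : v (ω - 1) < 1) :
    (∀ x, (∃ k : ℕ, om x - x = k • y) → ∀ t, l • t = 0 →
      v (Complex.exp ((K * fcyc rho n y (x + t) : ℝ) : ℂ)) =
        v (Complex.exp ((K * fcyc rho n y x : ℝ) : ℂ))) ∧
    ((∀ x, (∃ k : ℕ, om x - x = k • y) → v (Complex.exp ((K * fcyc rho n y x : ℝ) : ℂ)) = 1) →
      ∀ x, (∃ k : ℕ, om x - x = k • y) → ∀ t, l • t = 0 →
        eu (K * fcyc rho n y (x + t)) / eu (K * fcyc rho n y x) ∈ PU v) := by
  obtain ⟨G, _, _, _, s, m, g, pr, b, κ, q, hS, hb0, hbb, hadd, hsurj, hexp⟩ := h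
  have hω1 : v ω = 1 := val_eq_one_of_sub v hω
  have h0 : v (b 0) = 1 := by
    have h1 : v (b 0) ^ 2 = 1 := by rw [← map_pow, hb0, hω1]
    exact (pow_eq_one_iff.1 h1).resolve_right two_ne_zero
  have hodd : ∀ w, v (b w) * v (b (-w)) = 1 := by
    intro w
    by_cases hw : w = 0
    · rw [hw, neg_zero, h0, one_mul]
    · obtain ⟨N, hN, h1⟩ := hbb w hw
      rw [← map_mul]
      exact val_root v hN.ne' h1
  have hneg : ∀ w, v (b (-w)) = (v (b w))⁻¹ := fun w => eq_inv_of_mul_eq_one_right (hodd w)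
  -- the torsion points
  have hgood : ∀ t, l • t = 0 → ∃ k : ℕ, om t - t = k • y := fun t ht =>
    ⟨0, by rw [hfix t ht, sub_self, zero_smul]⟩
  have hq0 : q 0 = 0 := by
    have h1 := hadd 0 0 (hgood 0 (smul_zero _)) (hgood 0 (smul_zero _))
    rw [add_zero] at h1
    exact (left_eq_add.1 h1)
  have hqn : ∀ t, l • t = 0 → ∀ i : ℕ, q (i • t) = i • q t := by
    intro t ht i
    induction i with
    | zero => rw [zero_smul, zero_smul, hq0]
    | succ i ih =>
      rw [succ_nsmul, succ_nsmul, hadd _ _ _ (hgood t ht), ih]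
      exact hgood _ (by rw [smul_comm, ht, smul_zero])
  have hord : addOrderOf g = l ^ (s + 1) := by
    haveI : Fact l.Prime := ⟨hl⟩
    exact addOrderOf_eq_prime_pow hS.ne hS.ord
  have hqt : ∀ t, l • t = 0 → ∃ i : ℕ, q t = i • (l ^ s • g) := by
    intro t ht
    have h1 : l • q t = 0 := by rw [← hqn t ht, ht, hq0]
    obtain ⟨i, hi⟩ := hS.cyc (q t) (by rw [pow_succ, mul_smul, h1, smul_zero])
    rw [hi, smul_smul, ← addOrderOf_dvd_iff_nsmul_eq_zero, hord, pow_succ'] at h1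
    obtain ⟨c, hc⟩ := Nat.dvd_of_mul_dvd_mul_left hl.pos h1
    exact ⟨c, by rw [hi, hc, smul_smul, mul_comm]⟩
  have hA : ∀ w (i : ℕ), v (b (w + i • (l ^ s • g))) = v (b w) := by
    intro w i
    induction i with
    | zero => rw [zero_smul, add_zero]
    | succ i ih => rw [succ_nsmul, ← add_assoc, thmA hS v hv h0 hodd, ih]
  have hval : ∀ x, (∃ k : ℕ, om x - x = k • y) →
      v (Complex.exp ((K * fcyc rho n y x : ℝ) : ℂ)) = v (b (q x)) ^ 2 := by
    intro x hx
    rw [← hexp x hx, map_div₀, hneg, div_inv_eq_mul, pow_two]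
  have hgt : ∀ x, (∃ k : ℕ, om x - x = k • y) → ∀ t, l • t = 0 →
      ∃ k : ℕ, om (x + t) - (x + t) = k • y := by
    intro x hx t ht
    obtain ⟨k, hk⟩ := hx
    exact ⟨k, by rw [map_add, hfix t ht, add_sub_add_right_eq_sub, hk]⟩
  refine ⟨?_, ?_⟩
  · intro x hx t ht
    rw [hval x hx, hval _ (hgt x hx t ht), hadd _ _ hx (hgood t ht)]
    obtain ⟨i, hi⟩ := hqt t ht
    rw [hi, hA]
  · intro hu x hx t ht
    have hu1 : ∀ w, v (b w) = 1 := by
      intro w
      obtain ⟨x, hx, rfl⟩ := hsurj w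
      have h1 := hu x hx
      rw [hval x hx] at h1
      exact (pow_eq_one_iff.1 h1).resolve_right two_ne_zero
    let bu : G → ℂˣ := fun w => Units.mk0 (b w) (hS.b_ne w)
    have hA' : ∀ w (i : ℕ), bu (w + i • (l ^ s • g)) / bu w ∈ PU v := by
      intro w i
      induction i with
      | zero =>
        rw [zero_smul, add_zero, div_self']
        exact (PU v).one_mem
      | succ i ih =>
        have h1 : bu (w + (i + 1) • (l ^ s • g)) / bu w =
            (bu (w + i • (l ^ s • g) + l ^ s • g) / bu (w + i • (l ^ s • g))) *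
              (bu (w + i • (l ^ s • g)) / bu w) := by
          rw [succ_nsmul, ← add_assoc, div_mul_div_cancel]
        rw [h1]
        refine (PU v).mul_mem ?_ ih
        rw [mem_PU]
        have h2 := thmA' hS v hv hl2 hu1 (by rw [hb0]; exact hω) (w + i • (l ^ s • g))
        show v (((bu (w + i • (l ^ s • g) + l ^ s • g) / bu (w + i • (l ^ s • g)) : ℂˣ) : ℂ) - 1) < 1
        rw [Units.val_div_eq_div_val]
        show v (b (w + i • (l ^ s • g) + l ^ s • g) / b (w + i • (l ^ s • g)) - 1) < 1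
        rw [div_sub_one (hS.b_ne _), map_div₀, hu1 (w + i • (l ^ s • g)), div_one]
        exact h2
    have heu : ∀ x, (∃ k : ℕ, om x - x = k • y) →
        eu (K * fcyc rho n y x) = bu (q x) / bu (-(q x)) := by
      intro x hx
      apply Units.ext
      rw [eu_val, ← hexp x hx, Units.val_div_eq_div_val]
      rfl
    obtain ⟨i, hi⟩ := hqt t ht
    rw [heu x hx, heu _ (hgt x hx t ht), hadd _ _ hx (hgood t ht), hi]
    have h1 := hA' (q x) i
    have h2 := hA' (-(q x + i • (l ^ s • g))) i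
    have h3 : -(q x + i • (l ^ s • g)) + i • (l ^ s • g) = -(q x) := by abel
    rw [h3] at h2
    have h4 : bu (q x + i • (l ^ s • g)) / bu (-(q x + i • (l ^ s • g))) /
        (bu (q x) / bu (-(q x))) = (bu (q x + i • (l ^ s • g)) / bu (q x)) *
          (bu (-(q x)) / bu (-(q x + i • (l ^ s • g)))) := by
      rw [div_div_div_eq, div_mul_div_comm]
      congr 1
      rw [mul_comm]
    rw [h4]
    exact (PU v).mul_mem h1 h2

/-- CORE: units and the Kronecker congruence. -/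
theorem core (hl : l.Prime) (hl2 : l ≠ 2) (B : PBas T l)
    (htor : ∀ x : T, ∃ n : ℕ, 0 < n ∧ n • x = 0)
    (S : T →+ T) (rho : T → ℝ) (hdist : ∀ x, rho (l • x) = ftor B rho x)
    (hS : ∀ x, rho (S x) = rho x) (k0 j a : ℕ) (hk0 : 0 < k0) (hj : 0 < j)
    (hSj : ∀ t, l • t = 0 → S^[j] t = t)
    (hmin : ∀ i, 0 < i → i < j → ∀ t, l • t = 0 → t ≠ 0 → S^[i] t ≠ t)
    (om : T →+ T) (hom : ∀ x, om x = S^[j] x) (ω : ℂ)
    (hnear : ∀ y, addOrderOf y = l ^ a → NearAt rho om l (l ^ a) (k0 * j) y ω)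
    (v : Valuation ℂ Γ₀) (hv : v (l : ℂ) < 1) (hω : v (ω - 1) < 1)
    (w : T) (hw : S w = w) :
    v (Complex.exp ((k0 * rho w : ℝ) : ℂ)) = 1 ∧
      v (Complex.exp ((k0 * rho (l • w) : ℝ) : ℂ) -
        Complex.exp ((k0 * rho w : ℝ) : ℂ) ^ (l ^ 2)) < 1 := by
  set K : ℕ := k0 * j with hK
  have hK0 : 0 < K := Nat.mul_pos hk0 hj
  have hfix : ∀ t, l • t = 0 → om t = t := fun t ht => by rw [hom, hSj t ht]
  have homw : om w = w := by
    rw [hom]
    exact Function.iterate_fixed hw j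
  -- values
  have hE1 : ∀ x, K • E1 v x = 0 → E1 v x = 0 := fun x h => torsionfree_val K hK0 _ h
  have hper1 : ∀ y, addOrderOf y = l ^ a → ∀ x, (∃ k : ℕ, om x - x = k • y) →
      ∀ t, l • t = 0 → fcyc (fun z => E1 v (rho z)) (l ^ a) y (x + t) =
        fcyc (fun z => E1 v (rho z)) (l ^ a) y x := by
    intro y hy x hx t ht
    have h1 := ((hnear y hy).val hl hl2 hfix v hv hω).1 x hx t ht
    rw [fcyc_map, fcyc_map, ← sub_eq_zero, ← map_sub]
    apply hE1
    rw [← map_nsmul, E1_eq_zero, nsmul_eq_mul, mul_sub, Complex.ofReal_sub, Complex.exp_sub,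
      map_div₀]
    push_cast at h1 ⊢
    rw [h1, div_self]
    exact (v.ne_zero_iff).2 (Complex.exp_ne_zero _)
  have hunits := units_all hl B (fun n hn b hb => torsionfree_val n hn b hb)
    (fun z => E1 v (rho z)) om (fun x => by rw [ftor_map, hdist]) a htor hper1
  have hu : ∀ y, addOrderOf y = l ^ a → ∀ x, (∃ k : ℕ, om x - x = k • y) →
      v (Complex.exp ((K * fcyc rho (l ^ a) y x : ℝ) : ℂ)) = 1 := by
    intro y hy x hx
    have h1 := hunits a le_rfl y hy x hx
    rw [fcyc_map] at h1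
    rw [← E1_eq_zero, ← nsmul_eq_mul, map_nsmul, h1, smul_zero]
  have hw1 : E1 v (rho w) = 0 := by
    have h1 := hunits 0 (Nat.zero_le _) 0 (by simp) w ⟨0, by rw [homw, sub_self, zero_smul]⟩
    simpa [fcyc] using h1
  have hv1 : v (Complex.exp ((k0 * rho w : ℝ) : ℂ)) = 1 := by
    rw [← E1_eq_zero, ← nsmul_eq_mul, map_nsmul, hw1, smul_zero]
  refine ⟨hv1, ?_⟩
  -- residues
  have hnt := noTor_PU v hl hv
  have hper2 : ∀ y, addOrderOf y = l ^ a → ∀ x, (∃ k : ℕ, om x - x = k • y) →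
      ∀ t, l • t = 0 → fcyc (fun z => K • E2 v (rho z)) (l ^ a) y (x + t) =
        fcyc (fun z => K • E2 v (rho z)) (l ^ a) y x := by
    intro y hy x hx t ht
    have h1 := ((hnear y hy).val hl hl2 hfix v hv hω).2 (hu y hy) x hx t ht
    have h2 : ∀ x, fcyc (fun z => K • E2 v (rho z)) (l ^ a) y x =
        E2 v (K * fcyc rho (l ^ a) y x) := by
      intro x
      rw [← nsmul_eq_mul, map_nsmul]
      unfold fcyc
      rw [map_sum, smul_sum]
    rw [h2, h2, E2_eq]
    exact h1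
  have hw2 : ∀ t, l • t = 0 → K • E2 v (rho (w + t)) = K • E2 v (rho w) := fun t ht =>
    chain_zero hl B hnt (fun z => K • E2 v (rho z)) om a hper2 w homw t ht
  have hk := kron hl B (fun z => E2 v (rho z)) S k0 j hj (fun x => by rw [ftor_map, hdist])
    (fun x => by rw [hS]) hSj hmin w hw hw2
  rw [← map_nsmul, ← map_nsmul, ← map_nsmul, E2_eq, mem_PU, Units.val_div_eq_div_val, eu_val,
    eu_val, nsmul_eq_mul, nsmul_eq_mul, nsmul_eq_mul] at hk
  set X := Complex.exp ((k0 * rho w : ℝ) : ℂ) with hX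
  have h5 : Complex.exp (((l ^ 2 : ℕ) * (k0 * rho w) : ℝ) : ℂ) = X ^ (l ^ 2) := by
    rw [hX, ← Complex.exp_nat_mul]
    congr 1
    push_cast
    ring
  rw [h5, div_sub_one (pow_ne_zero _ (Complex.exp_ne_zero _)), map_div₀, map_pow, hv1, one_pow,
    div_one] at hk
  exact hk

end core

end Zau
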