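import Pool.Agent.Lib_zau.MertensL
import Pool.Agent.Lib_MP_ad0b27_co.PrimesF

/-!
The value of the von Mangoldt function of a number field at a prime number `p` is `log p` times the
number of ring homomorphisms from the ring of integers to `ZMod p`; a prime `p` for which a
homomorphism of the smaller ring does not extend to the bigger one.
-/

open NumberField Filter Topology

namespace Zau

namespace Mertens

theorem finite_hom (L : Type) [Field L] [NumberField L] (p : ℕ) [Fact p.Prime] :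
    Finite (𝓞 L →+* ZMod p) := by
  classical
  let b := NumberField.RingOfIntegers.basis L
  refine Finite.of_injective (fun φ : 𝓞 L →+* ZMod p => fun i => φ (b i)) ?_
  intro φ ψ h
  ext x
  have hx := b.sum_repr x
  rw [← hx, map_sum, map_sum]
  refine Finset.sum_congr rfl fun i _ => ?_
  rw [zsmul_eq_mul, map_mul, map_mul, map_intCast, map_intCast]
  have := congrFun h i
  simp only at this
  rw [this]

theorem hom_ext_of_ker (L : Type) [Field L] [NumberField L] (p : ℕ) [Fact p.Prime]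
    (φ ψ : 𝓞 L →+* ZMod p) (h : RingHom.ker φ = RingHom.ker ψ) : φ = ψ := by
  ext x
  -- `x - n` is in the kernel of `φ` for the integer `n = (φ x).val`
  have h1 : φ (x - ((φ x).val : 𝓞 L)) = 0 := by
    rw [map_sub, map_natCast, ZMod.natCast_zmod_val, sub_self]
  have h2 : x - ((φ x).val : 𝓞 L) ∈ RingHom.ker ψ := by
    rw [← h]; exact h1
  have h3 : ψ (x - ((φ x).val : 𝓞 L)) = 0 := h2
  rw [map_sub, map_natCast, ZMod.natCast_zmod_val, sub_eq_zero] at h3
  exact h3.symm

theorem LamL_prime_eq (L : Type) [Field L] [NumberField L] (p : ℕ) [Fact p.Prime] :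
    SphereRep.LamL L p = Real.log p * Nat.card (𝓞 L →+* ZMod p) := by
  have hp : p.Prime := Fact.out
  set ι := {q : Ideal (𝓞 L) × ℕ //
      q.1.IsPrime ∧ q.1 ≠ ⊥ ∧ 1 ≤ q.2 ∧ Ideal.absNorm q.1 ^ q.2 = p} with hι
  have hk1 : ∀ q : ι, q.1.2 = 1 := by
    intro q
    obtain ⟨_, _, hk, hm⟩ := q.2
    by_contra hk1
    have h2 : 2 ≤ q.1.2 := by omega
    exact Nat.Prime.not_prime_pow h2 (hm ▸ hp)
  have hN : ∀ q : ι, Ideal.absNorm q.1.1 = p := by
    intro q
    have := q.2.2.2.2
    rwa [hk1 q, pow_one] at this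
  have hcard : ∀ φ : 𝓞 L →+* ZMod p, Ideal.absNorm (RingHom.ker φ) = p := by
    intro φ
    have hs : Function.Surjective φ := fun y => ⟨(y.val : 𝓞 L), by
      rw [map_natCast, ZMod.natCast_zmod_val]⟩
    have e : (𝓞 L ⧸ RingHom.ker φ) ≃+* ZMod p := RingHom.quotientKerEquivOfSurjective hs
    have h1 : Ideal.absNorm (RingHom.ker φ) = Nat.card (𝓞 L ⧸ RingHom.ker φ) := rfl
    rw [h1, Nat.card_congr e.toEquiv, Nat.card_zmod]
  let F : (𝓞 L →+* ZMod p) → ι := fun φ => ⟨(RingHom.ker φ, 1), by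
    refine ⟨RingHom.ker_isPrime φ, ?_, le_refl _, ?_⟩
    · intro h0
      have h1 := hcard φ
      simp only at h0
      rw [h0, Ideal.absNorm_bot] at h1
      exact hp.ne_zero h1.symm
    · simp only [pow_one]
      exact hcard φ⟩
  have hF : Function.Bijective F := by
    constructor
    · intro φ ψ h
      have h1 : RingHom.ker φ = RingHom.ker ψ := by
        have := congrArg (fun q : ι => q.1.1) h
        exact this
      exact hom_ext_of_ker L p φ ψ h1
    · intro q
      obtain ⟨hP, hP0, hk, hm⟩ := q.2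
      have hPm : q.1.1.IsMaximal := hP.isMaximal hP0
      have hcard : Nat.card (𝓞 L ⧸ q.1.1) = p := hN q
      have hfin : Finite (𝓞 L ⧸ q.1.1) :=
        Nat.finite_of_card_ne_zero (by rw [hcard]; exact hp.ne_zero)
      let _ : Fintype (𝓞 L ⧸ q.1.1) := Fintype.ofFinite _
      have hc : Fintype.card (𝓞 L ⧸ q.1.1) = p := by rw [← Nat.card_eq_fintype_card, hcard]
      let e : (𝓞 L ⧸ q.1.1) ≃+* ZMod p := (ZMod.ringEquivOfPrime (𝓞 L ⧸ q.1.1) hp hc).symm
      refine ⟨(e : (𝓞 L ⧸ q.1.1) →+* ZMod p).comp (Ideal.Quotient.mk q.1.1), ?_⟩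
      apply Subtype.ext
      refine Prod.ext ?_ (hk1 q).symm
      show RingHom.ker ((e : (𝓞 L ⧸ q.1.1) →+* ZMod p).comp (Ideal.Quotient.mk q.1.1)) = q.1.1
      ext x
      rw [RingHom.mem_ker, RingHom.comp_apply]
      have : ((e : (𝓞 L ⧸ q.1.1) →+* ZMod p) (Ideal.Quotient.mk q.1.1 x) = 0) ↔
          Ideal.Quotient.mk q.1.1 x = 0 := by
        simp
      rw [this, Ideal.Quotient.eq_zero_iff_mem]
  have hfin : Finite (𝓞 L →+* ZMod p) := finite_hom L p
  have hfin' : Finite ι := Finite.of_surjective F hF.2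
  let _ : Fintype ι := Fintype.ofFinite ι
  have h1 : SphereRep.LamL L p = ∑ q : ι, Real.log (Ideal.absNorm q.1.1) :=
    finsum_eq_sum_of_fintype _
  rw [h1, Finset.sum_congr rfl (fun q _ => by rw [hN q]), Finset.sum_const, nsmul_eq_mul,
    Finset.card_univ, ← Nat.card_eq_fintype_card, ← Nat.card_congr (Equiv.ofBijective F hF),
    mul_comm]

/-- if every homomorphism extends, there are at least twice as many homomorphisms of the big ring -/
theorem two_mul_card_le (E F : Type) [Field E] [NumberField E] [Field F] [NumberField F]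
    (i : 𝓞 E →+* 𝓞 F) (τ : 𝓞 F →+* 𝓞 F) (hτ : τ.comp i = i) (δ : 𝓞 F) (D : ℤ)
    (hδ : δ ^ 2 = (D : 𝓞 F)) (hτδ : τ δ = -δ) (p : ℕ) [Fact p.Prime] (hp : ¬ (p : ℤ) ∣ 2 * D)
    (hext : ∀ φ : 𝓞 E →+* ZMod p, ∃ ψ : 𝓞 F →+* ZMod p, ψ.comp i = φ) :
    2 * Nat.card (𝓞 E →+* ZMod p) ≤ Nat.card (𝓞 F →+* ZMod p) := by
  classical
  choose s hs using hext
  have hfin := finite_hom F p
  have hfin' := finite_hom E p
  let G : (𝓞 E →+* ZMod p) × Bool → (𝓞 F →+* ZMod p) :=
    fun q => if q.2 then s q.1 else (s q.1).comp τ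
  have hG : ∀ q, (G q).comp i = q.1 := by
    intro q
    simp only [G]
    split_ifs
    · exact hs q.1
    · rw [RingHom.comp_assoc, hτ, hs q.1]
  have hne : ∀ φ : 𝓞 E →+* ZMod p, s φ ≠ (s φ).comp τ := by
    intro φ h
    have h1 : s φ δ = s φ (τ δ) := by
      have := congrArg (fun f : 𝓞 F →+* ZMod p => f δ) h
      exact this
    rw [hτδ, map_neg] at h1
    have h2 : (2 : ZMod p) * s φ δ = 0 := by
      rw [two_mul]
      nth_rewrite 2 [h1]
      ring
    have h3 : ((2 * D : ℤ) : ZMod p) = 0 := by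
      have h4 : (s φ δ) ^ 2 = (D : ZMod p) := by
        rw [← map_pow, hδ, map_intCast]
      push_cast
      rw [← h4]
      calc (2 : ZMod p) * s φ δ ^ 2 = (2 * s φ δ) * s φ δ := by ring
        _ = 0 := by rw [h2, zero_mul]
    exact hp ((ZMod.intCast_zmod_eq_zero_iff_dvd _ _).mp h3)
  have hinj : Function.Injective G := by
    rintro ⟨φ, b⟩ ⟨ψ, c⟩ h
    have h1 : φ = ψ := by
      have h2 := hG (φ, b)
      rw [h, hG (ψ, c)] at h2
      exact h2.symm
    subst h1
    refine Prod.ext rfl ?_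
    simp only [G] at h
    cases b <;> cases c
    · rfl
    · exact absurd h.symm (by simpa using hne φ)
    · exact absurd h (by simpa using hne φ)
    · rfl
  have h := Nat.card_le_card_of_injective G hinj
  rw [Nat.card_prod] at h
  have hb : Nat.card Bool = 2 := by simp
  rw [hb] at h
  linarith

/-- infinitely many primes with a homomorphism of the small ring that does not extend -/
theorem exists_not_extend (E F : Type) [Field E] [NumberField E] [Field F] [NumberField F]
    (i : 𝓞 E →+* 𝓞 F) (τ : 𝓞 F →+* 𝓞 F) (hτ : τ.comp i = i) (δ : 𝓞 F) (D : ℤ) (hD : D ≠ 0)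
    (hδ : δ ^ 2 = (D : 𝓞 F)) (hτδ : τ δ = -δ) (N : ℕ) :
    ∃ p : ℕ, p.Prime ∧ N < p ∧ ∃ φ : 𝓞 E →+* ZMod p, ∀ ψ : 𝓞 F →+* ZMod p, ψ.comp i ≠ φ := by
  classical
  by_contra hcon
  push Not at hcon
  obtain ⟨B, hB⟩ := SphereRep.primePow_sum_le
  set K : ℕ := N + 2 * D.natAbs with hK
  -- comparison at large primes
  have hcmp : ∀ p : ℕ, p.Prime → K < p → 2 * SphereRep.LamL E p ≤ SphereRep.LamL F p := by
    intro p hp hKp
    have : Fact p.Prime := ⟨hp⟩
    rw [LamL_prime_eq, LamL_prime_eq]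
    have hnd : ¬ (p : ℤ) ∣ 2 * D := by
      intro h
      have h1 : p ∣ (2 * D).natAbs := Int.natCast_dvd.mp h
      have h2 : (2 * D).natAbs = 2 * D.natAbs := by rw [Int.natAbs_mul]; rfl
      rw [h2] at h1
      have h3 := Nat.le_of_dvd (by have := Int.natAbs_pos.mpr hD; omega) h1
      omega
    have h := two_mul_card_le E F i τ hτ δ D hδ hτδ p hnd (fun φ => by
      obtain ⟨ψ, hψ⟩ := hcon p hp (by omega) φ
      exact ⟨ψ, hψ⟩)
    have h' : (2 : ℝ) * Nat.card (𝓞 E →+* ZMod p) ≤ Nat.card (𝓞 F →+* ZMod p) := by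
      exact_mod_cast h
    have hl : 0 ≤ Real.log p := Real.log_natCast_nonneg p
    nlinarith
  set dE : ℝ := (Module.finrank ℚ E : ℝ) with hdE
  have hdE0 : 0 ≤ dE := Nat.cast_nonneg _
  set C : ℝ := 2 * (∑ m ∈ Finset.Icc 1 K, SphereRep.LamL E m / m) + 2 * (dE * B) with hC
  have hmain : ∀ n : ℕ, 2 * (∑ m ∈ Finset.Icc 1 n, SphereRep.LamL E m / m) ≤
      (∑ m ∈ Finset.Icc 1 n, SphereRep.LamL F m / m) + C := by
    intro n
    have hpt : ∀ m ∈ Finset.Icc 1 n, 2 * (SphereRep.LamL E m / m) ≤ SphereRep.LamL F m / m +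
        (2 * (if m ∈ Finset.Icc 1 K then SphereRep.LamL E m / m else 0) +
          2 * (dE * (if IsPrimePow m ∧ ¬ m.Prime then Real.log m / m else 0))) := by
      intro m hm
      rw [Finset.mem_Icc] at hm
      have hE0 : 0 ≤ SphereRep.LamL E m / m :=
        div_nonneg (SphereRep.LamL_nonneg E m) (Nat.cast_nonneg m)
      have hF0 : 0 ≤ SphereRep.LamL F m / m :=
        div_nonneg (SphereRep.LamL_nonneg F m) (Nat.cast_nonneg m)
      have hl0 : 0 ≤ Real.log m / m := div_nonneg (Real.log_natCast_nonneg m) (Nat.cast_nonneg m)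
      have hi2 : 0 ≤ dE * (if IsPrimePow m ∧ ¬ m.Prime then Real.log m / m else 0) := by
        refine mul_nonneg hdE0 ?_
        split_ifs
        · exact hl0
        · exact le_refl _
      by_cases hmK : m ∈ Finset.Icc 1 K
      · rw [if_pos hmK]
        linarith
      · rw [if_neg hmK]
        by_cases hz : SphereRep.LamL E m = 0
        · rw [hz, zero_div]
          linarith
        · have hpp := SphereRep.LamL_isPrimePow E m hz
          by_cases hp : m.Prime
          · have hKm : K < m := by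
              rw [Finset.mem_Icc] at hmK
              omega
            have h1 := hcmp m hp hKm
            have hm0 : (0 : ℝ) < m := by exact_mod_cast hm.1
            have h2 : 2 * (SphereRep.LamL E m / m) ≤ SphereRep.LamL F m / m := by
              rw [← mul_div_assoc]
              exact div_le_div_of_nonneg_right h1 hm0.le
            linarith
          · rw [if_pos (⟨hpp, hp⟩ : IsPrimePow m ∧ ¬ m.Prime)]
            have h2 : SphereRep.LamL E m / m ≤ dE * (Real.log m / m) := by
              rw [← mul_div_assoc]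
              exact div_le_div_of_nonneg_right (SphereRep.LamL_le E m) (Nat.cast_nonneg m)
            linarith
    have hsum := Finset.sum_le_sum hpt
    rw [← Finset.mul_sum, Finset.sum_add_distrib, Finset.sum_add_distrib, ← Finset.mul_sum,
      ← Finset.mul_sum, ← Finset.mul_sum] at hsum
    have h3 : ∑ m ∈ Finset.Icc 1 n,
        (if m ∈ Finset.Icc 1 K then SphereRep.LamL E m / m else 0) ≤
        ∑ m ∈ Finset.Icc 1 K, SphereRep.LamL E m / m := by
      rw [← Finset.sum_filter]
      refine Finset.sum_le_sum_of_subset_of_nonneg ?_ fun m _ _ =>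
        div_nonneg (SphereRep.LamL_nonneg E m) (Nat.cast_nonneg m)
      intro m hm
      exact (Finset.mem_filter.mp hm).2
    have h4 : ∑ m ∈ Finset.Icc 1 n,
        (if IsPrimePow m ∧ ¬ m.Prime then Real.log m / m else 0) ≤ B := by
      rw [← Finset.sum_filter]
      exact hB n
    have h5 : dE * ∑ m ∈ Finset.Icc 1 n,
        (if IsPrimePow m ∧ ¬ m.Prime then Real.log m / m else 0) ≤ dE * B :=
      mul_le_mul_of_nonneg_left h4 hdE0
    rw [hC]
    linarith
  -- the contradiction
  obtain ⟨N₁, hN₁⟩ := eventually_atTop.1 (LamL_upper F (1 / 6) (by norm_num))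
  obtain ⟨N₂, hN₂⟩ := eventually_atTop.1
    ((Real.tendsto_log_atTop.comp tendsto_natCast_atTop_atTop).eventually_ge_atTop
      (2 * C + 1))
  obtain ⟨n, hn, hlow⟩ := LamL_lower E (1 / 6) (by norm_num) (N₁ + N₂)
  have hup := hN₁ n (by omega)
  have hlog : 2 * C + 1 ≤ Real.log n := hN₂ n (by omega)
  have h := hmain n
  have hl : 0 ≤ Real.log n := Real.log_natCast_nonneg n
  nlinarith

end Mertens

end Zau
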