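import Mathlib

/-!
MP_1c78a5_mp, piece (c): the Radon identity on `F_p^2` and the descent along the chain of lattices
`L(c,i) = Λ + ℤ c / p^i`.
-/

open Finset

namespace Zau

/-- The sum over the `p + 1` lines through the origin of `F_p^2`. -/
theorem lines_prod {p : ℕ} [Fact p.Prime] {A : Type*} [CommMonoid A] (f : ZMod p → ZMod p → A) :
    (∏ s : ZMod p, ∏ x : ZMod p, f x (s * x)) * ∏ y : ZMod p, f 0 y =
      (∏ x : ZMod p, ∏ y : ZMod p, f x y) * f 0 0 ^ p := by
  classical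
  rw [Finset.prod_comm]
  rw [← Finset.mul_prod_erase univ (fun x : ZMod p => ∏ s : ZMod p, f x (s * x)) (mem_univ 0),
    ← Finset.mul_prod_erase univ (fun x : ZMod p => ∏ y : ZMod p, f x y) (mem_univ 0)]
  have h1 : ∏ s : ZMod p, f 0 (s * 0) = f 0 0 ^ p := by
    simp [ZMod.card]
  have h2 : ∏ x ∈ univ.erase (0 : ZMod p), ∏ s : ZMod p, f x (s * x) =
      ∏ x ∈ univ.erase (0 : ZMod p), ∏ y : ZMod p, f x y := by
    refine Finset.prod_congr rfl fun x hx => ?_
    have hx0 : x ≠ 0 := (Finset.mem_erase.1 hx).1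
    exact Fintype.prod_equiv (Equiv.mulRight₀ x hx0) _ _ fun s => rfl
  rw [h1, h2]
  ac_rfl

section Reps

variable {V : Type*} [AddCommGroup V]

/-- `τ` is a complete system of representatives of `L''` modulo `L`. -/
def IsReps (L L'' : AddSubgroup V) {ι : Type} (τ : ι → V) : Prop :=
  (∀ i, τ i ∈ L'') ∧ ∀ x ∈ L'', ∃! i, x - τ i ∈ L

/-- The lattice `p⁻¹ L`. -/
def pinv (p : ℕ) (L : AddSubgroup V) : AddSubgroup V :=
  L.comap (nsmulAddMonoidHom p)

theorem mem_pinv {p : ℕ} {L : AddSubgroup V} {x : V} : x ∈ pinv p L ↔ p • x ∈ L := Iff.rfl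

/-- The group generated by `L` and `t`. -/
theorem mem_sup_z {L : AddSubgroup V} {t x : V} :
    x ∈ L ⊔ AddSubgroup.zmultiples t ↔ ∃ l ∈ L, ∃ k : ℤ, x = l + k • t := by
  rw [AddSubgroup.mem_sup]
  constructor
  · rintro ⟨l, hl, z, hz, rfl⟩
    obtain ⟨k, rfl⟩ := AddSubgroup.mem_zmultiples_iff.1 hz
    exact ⟨l, hl, k, rfl⟩
  · rintro ⟨l, hl, k, rfl⟩
    exact ⟨l, hl, _, AddSubgroup.mem_zmultiples_iff.2 ⟨k, rfl⟩, rfl⟩

/-- multiples of an element of order `p` modulo `L`. -/
theorem zsmul_mem_of_dvd {p : ℕ} {L : AddSubgroup V} {t : V} (ht : p • t ∈ L) {k : ℤ}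
    (hk : (p : ℤ) ∣ k) : k • t ∈ L := by
  obtain ⟨m, rfl⟩ := hk
  rw [mul_comm, mul_smul, natCast_zsmul]
  exact L.zsmul_mem ht m

theorem val_smul_sub_mem {p : ℕ} [NeZero p] {L : AddSubgroup V} {t : V} (ht : p • t ∈ L) (k : ℤ) :
    k • t - (k : ZMod p).val • t ∈ L := by
  rw [← natCast_zsmul, ← sub_smul]
  apply zsmul_mem_of_dvd ht
  rw [← ZMod.intCast_zmod_eq_zero_iff_dvd]
  simp

/-- Representatives of `L + ℤ t` modulo `L` when `t` has order `p` modulo `L`. -/
theorem isReps_line {p : ℕ} [NeZero p] {L : AddSubgroup V} {t : V} (ht : p • t ∈ L)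
    (hind : ∀ a : ℤ, a • t ∈ L → (p : ℤ) ∣ a) :
    IsReps L (L ⊔ AddSubgroup.zmultiples t) (fun x : ZMod p => x.val • t) := by
  refine ⟨fun x => mem_sup_z.2 ⟨0, L.zero_mem, x.val, by rw [natCast_zsmul, zero_add]⟩,
    fun x hx => ?_⟩
  obtain ⟨l, hl, k, rfl⟩ := mem_sup_z.1 hx
  refine ⟨(k : ZMod p), ?_, fun y hy => ?_⟩
  · have := L.add_mem hl (val_smul_sub_mem ht k)
    simpa [add_sub_assoc] using this
  · have h1 : (k - (y.val : ℤ)) • t ∈ L := by
      have := L.sub_mem hy hl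
      rw [sub_smul, natCast_zsmul]
      convert this using 1
      abel
    have h2 := (ZMod.intCast_zmod_eq_zero_iff_dvd _ p).2 (hind _ h1)
    rw [Int.cast_sub, sub_eq_zero] at h2
    rw [h2]
    simp

/-- Representatives of `p⁻¹ L` modulo `L` when `u, v` form a basis of `p⁻¹L / L`. -/
theorem isReps_plane {p : ℕ} [NeZero p] {L P : AddSubgroup V} {u v : V}
    (huP : u ∈ P) (hvP : v ∈ P) (hu : p • u ∈ L) (hv : p • v ∈ L)
    (hspan : ∀ x ∈ P, ∃ l ∈ L, ∃ a b : ℤ, x = l + (a • u + b • v))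
    (hind : ∀ a b : ℤ, a • u + b • v ∈ L → (p : ℤ) ∣ a ∧ (p : ℤ) ∣ b) :
    IsReps L P (fun x : ZMod p × ZMod p => x.1.val • u + x.2.val • v) := by
  refine ⟨fun x => P.add_mem (P.nsmul_mem huP _) (P.nsmul_mem hvP _), fun x hx => ?_⟩
  obtain ⟨l, hl, a, b, rfl⟩ := hspan x hx
  refine ⟨((a : ZMod p), (b : ZMod p)), ?_, fun y hy => ?_⟩
  · have := L.add_mem hl (L.add_mem (val_smul_sub_mem hu a) (val_smul_sub_mem hv b))
    dsimp only
    convert this using 1
    abel
  · have h1 : (a - (y.1.val : ℤ)) • u + (b - (y.2.val : ℤ)) • v ∈ L := by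
      have := L.sub_mem hy hl
      rw [sub_smul, sub_smul, natCast_zsmul, natCast_zsmul]
      convert this using 1
      dsimp only
      abel
    obtain ⟨h2, h3⟩ := hind _ _ h1
    have h2' := (ZMod.intCast_zmod_eq_zero_iff_dvd _ p).2 h2
    have h3' := (ZMod.intCast_zmod_eq_zero_iff_dvd _ p).2 h3
    rw [Int.cast_sub, sub_eq_zero] at h2' h3'
    ext
    · simp [h2']
    · simp [h3']

end Reps

section Step

variable {V : Type*} [AddCommGroup V] {A : Type*} [CommGroup A]

/-- One step of the descent. `L` a lattice, `u, v` a basis of `P / L`, `P = p⁻¹ L`, `F s` the value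
for the lattice `L + ℤ (u + s v)`. -/
theorem step_algebra {p : ℕ} [Fact p.Prime] (hinj : ∀ a b : A, a ^ p = b ^ p → a = b)
    {L : AddSubgroup V} {u v : V} (hv : p • v ∈ L) (r : V → A)
    (hr : ∀ w, ∀ l ∈ L, r (w + l) = r w) (G : V → ZMod p → A) (P : V → A) (S : V → Prop)
    (hS : ∀ w, S w → S (w + v))
    (hG : ∀ w, S w → ∀ s, G w s = ∏ x : ZMod p, r (w + x.val • (u + s.val • v)))
    (hP : ∀ w, S w → P w = ∏ x : ZMod p × ZMod p, r (w + (x.1.val • u + x.2.val • v)))
    (hGP : ∀ w, S w → ∀ s, P w = G w s ^ p) :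
    ∀ w, S w → r (w + v) = r w := by
  have key : ∀ w, S w → ∏ y : ZMod p, r (w + y.val • v) = r w ^ p := by
    intro w hw
    have h1 := lines_prod (fun x y : ZMod p => r (w + (x.val • u + y.val • v)))
    have h2 : ∀ s x : ZMod p, r (w + (x.val • u + (s * x).val • v)) =
        r (w + x.val • (u + s.val • v)) := by
      intro s x
      have h3 : x.val • (u + s.val • v) = (x.val • u + (s * x).val • v) +
          (((x.val * s.val : ℕ) : ℤ) • v - ((((x.val * s.val : ℕ) : ℤ) : ZMod p)).val • v) := by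
        have : (((x.val * s.val : ℕ) : ℤ) : ZMod p) = s * x := by
          push_cast
          simp [mul_comm]
        rw [this, smul_add, smul_smul, natCast_zsmul]
        abel
      rw [h3, ← add_assoc w (_ + _) (_ - _), hr _ _ (val_smul_sub_mem hv _)]
    simp only [h2] at h1
    rw [← Finset.prod_congr rfl fun s _ => hG w hw s] at h1
    have h3 : ∏ x : ZMod p, ∏ y : ZMod p, r (w + (x.val • u + y.val • v)) = P w := by
      rw [hP w hw, Fintype.prod_prod_type]
    rw [h3] at h1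
    simp only [ZMod.val_zero, zero_smul, zero_add, add_zero] at h1
    apply hinj
    have h4 : (∏ s : ZMod p, G w s) ^ p = P w ^ p := by
      rw [← Finset.prod_pow]
      rw [Finset.prod_congr rfl fun s _ => (hGP w hw s).symm]
      simp [ZMod.card]
    have h5 := congrArg (· ^ p) h1
    simp only [mul_pow] at h5
    rw [h4] at h5
    exact mul_left_cancel h5
  intro w hw
  apply hinj
  rw [← key w hw, ← key _ (hS w hw)]
  symm
  refine Fintype.prod_equiv (Equiv.addRight (-1 : ZMod p)) _ _ fun y => ?_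
  have h6 : w + v + ((Equiv.addRight (-1 : ZMod p)) y).val • v =
      w + y.val • v + (((((y.val : ℤ) - 1 : ℤ) : ZMod p)).val • v -  ((y.val : ℤ) - 1) • v) := by
    have : ((((y.val : ℤ) - 1 : ℤ) : ZMod p)) = y - 1 := by
      push_cast; simp
    rw [this, sub_smul, natCast_zsmul, one_smul]
    have h7 : (Equiv.addRight (-1 : ZMod p)) y = y - 1 := by
      rw [sub_eq_add_neg]; rfl
    rw [h7]
    abel
  rw [h6]
  symm
  apply hr
  have := L.neg_mem (val_smul_sub_mem hv ((y.val : ℤ) - 1))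
  rwa [neg_sub] at this

/-- The bottom step of the descent. -/
theorem step_bottom {p : ℕ} [Fact p.Prime] {L : AddSubgroup V} {u v : V} (hv : p • v ∈ L) (r : V → A)
    (hr : ∀ w, ∀ l ∈ L, r (w + l) = r w) (w : V) (G : ZMod p → A) (G' : A) (P : A)
    (hG : ∀ s, G s = ∏ x : ZMod p, r (w + x.val • (u + s.val • v)))
    (hG' : G' = ∏ x : ZMod p, r (w + x.val • v))
    (hP : P = ∏ x : ZMod p × ZMod p, r (w + (x.1.val • u + x.2.val • v)))
    (hGP : ∀ s, P = G s ^ p) (hGP' : P = G' ^ p) : P = r w ^ (p ^ 2) := by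
  have h1 := lines_prod (fun x y : ZMod p => r (w + (x.val • u + y.val • v)))
  have h2 : ∀ s x : ZMod p, r (w + (x.val • u + (s * x).val • v)) =
      r (w + x.val • (u + s.val • v)) := by
    intro s x
    have h3 : x.val • (u + s.val • v) = (x.val • u + (s * x).val • v) +
        (((x.val * s.val : ℕ) : ℤ) • v - ((((x.val * s.val : ℕ) : ℤ) : ZMod p)).val • v) := by
      have : (((x.val * s.val : ℕ) : ℤ) : ZMod p) = s * x := by
        push_cast
        simp [mul_comm]
      rw [this, smul_add, smul_smul, natCast_zsmul]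
      abel
    rw [h3, ← add_assoc w (_ + _) (_ - _), hr _ _ (val_smul_sub_mem hv _)]
  simp only [h2] at h1
  rw [← Finset.prod_congr rfl fun s _ => hG s] at h1
  have h3 : ∏ x : ZMod p, ∏ y : ZMod p, r (w + (x.val • u + y.val • v)) = P := by
    rw [hP, Fintype.prod_prod_type]
  rw [h3] at h1
  simp only [ZMod.val_zero, zero_smul, zero_add, add_zero] at h1
  rw [← hG'] at h1
  have h4 : (∏ s : ZMod p, G s) ^ p = P ^ p := by
    rw [← Finset.prod_pow]
    rw [Finset.prod_congr rfl fun s _ => (hGP s).symm]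
    simp [ZMod.card]
  have h5 := congrArg (· ^ p) h1
  simp only [mul_pow] at h5
  rw [h4, ← hGP'] at h5
  have h6 := mul_left_cancel h5
  rw [h6, ← pow_mul, sq]

end Step

end Zau
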