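import Pool.Agent.Lib_zau.KronA

/-!
MP_1c78a5_mp, piece (c): descent along the chain of lattices `L(c,i) = Λ + ℤ c / p^i`.
-/

open Finset

namespace Zau

section Chain

variable {V : Type*} [AddCommGroup V] [Module ℚ V]

/-- `c / p^i` -/
noncomputable def dv (p i : ℕ) (c : V) : V := ((p : ℚ) ^ i)⁻¹ • c

/-- The lattice `Λ + ℤ c / p^i`. -/
noncomputable def Lci (p : ℕ) (Λ : AddSubgroup V) (c : V) (i : ℕ) : AddSubgroup V :=
  Λ ⊔ AddSubgroup.zmultiples (dv p i c)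

/-- `Λ / pΛ` is two dimensional: every `c` which is nonzero mod `p` belongs to a basis. -/
def IsPlane (p : ℕ) (Λ : AddSubgroup V) : Prop :=
  ∀ c ∈ Λ, dv p 1 c ∉ Λ → ∃ d ∈ Λ,
    (∀ x ∈ Λ, ∃ a b : ℤ, ∃ y ∈ Λ, x = a • c + b • d + p • y) ∧
    (∀ a b : ℤ, ∀ y ∈ Λ, a • c + b • d = p • y → (p : ℤ) ∣ a ∧ (p : ℤ) ∣ b)

theorem pow_smul_dv {p : ℕ} (hp : p ≠ 0) (i j : ℕ) (c : V) : (p ^ i) • dv p (i + j) c = dv p j c := by
  have hp' : (p : ℚ) ≠ 0 := Nat.cast_ne_zero.2 hp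
  unfold dv
  rw [← Nat.cast_smul_eq_nsmul ℚ, smul_smul]
  congr 1
  push_cast
  field_simp
  ring

theorem smul_dv_succ {p : ℕ} (hp : p ≠ 0) (i : ℕ) (c : V) : p • dv p (i + 1) c = dv p i c := by
  have := pow_smul_dv hp 1 i c
  rwa [pow_one, add_comm] at this

theorem dv_zero (p : ℕ) (c : V) : dv p 0 c = c := by simp [dv]

theorem pow_smul_dv_self {p : ℕ} (hp : p ≠ 0) (i : ℕ) (c : V) : (p ^ i) • dv p i c = c := by
  have := pow_smul_dv hp i 0 c
  rwa [add_zero, dv_zero] at this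

theorem smul_dv_one {p : ℕ} (hp : p ≠ 0) (c : V) : p • dv p 1 c = c := by
  have := smul_dv_succ hp 0 c
  rwa [dv_zero, zero_add] at this

theorem dv_add (p i : ℕ) (c d : V) : dv p i (c + d) = dv p i c + dv p i d := by
  simp [dv]

theorem dv_nsmul (p i k : ℕ) (c : V) : dv p i (k • c) = k • dv p i c := by
  unfold dv
  rw [smul_comm]

theorem dv_zsmul (p i : ℕ) (k : ℤ) (c : V) : dv p i (k • c) = k • dv p i c := by
  unfold dv
  rw [smul_comm]

theorem nsmul_left_cancel {n : ℕ} (hn : n ≠ 0) {x y : V} (h : n • x = n • y) : x = y := by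
  have hn' : (n : ℚ) ≠ 0 := Nat.cast_ne_zero.2 hn
  rw [← Nat.cast_smul_eq_nsmul ℚ, ← Nat.cast_smul_eq_nsmul ℚ] at h
  exact smul_right_injective V hn' h

theorem Lci_zero (p : ℕ) {Λ : AddSubgroup V} {c : V} (hc : c ∈ Λ) : Lci p Λ c 0 = Λ := by
  unfold Lci
  rw [dv_zero, sup_eq_left, AddSubgroup.zmultiples_le]
  exact hc

theorem le_Lci (p : ℕ) (Λ : AddSubgroup V) (c : V) (i : ℕ) : Λ ≤ Lci p Λ c i := le_sup_left

theorem dv_mem_Lci (p : ℕ) (Λ : AddSubgroup V) (c : V) (i : ℕ) : dv p i c ∈ Lci p Λ c i :=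
  mem_sup_z.2 ⟨0, Λ.zero_mem, 1, by simp⟩

theorem pow_smul_mem_of_mem_Lci {p : ℕ} (hp : p ≠ 0) {Λ : AddSubgroup V} {c : V} (hc : c ∈ Λ)
    {i : ℕ} {x : V} (hx : x ∈ Lci p Λ c i) : (p ^ i) • x ∈ Λ := by
  obtain ⟨l, hl, k, rfl⟩ := mem_sup_z.1 hx
  rw [smul_add, smul_comm, pow_smul_dv_self hp]
  exact Λ.add_mem (Λ.nsmul_mem hl _) (Λ.zsmul_mem hc k)

/-- independence of `c / p^(i+1)`, `d / p` modulo `L(c,i)`. -/
theorem ind_aux {p : ℕ} (hp : p ≠ 0) {Λ : AddSubgroup V} {c d : V}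
    (hcd : ∀ a b : ℤ, ∀ y ∈ Λ, a • c + b • d = p • y → (p : ℤ) ∣ a ∧ (p : ℤ) ∣ b) (i : ℕ) :
    ∀ a b : ℤ, ∀ l ∈ Λ, a • c + (b * p ^ i) • d = (p ^ (i + 1)) • l →
      (p : ℤ) ∣ a ∧ (p : ℤ) ∣ b := by
  induction i with
  | zero =>
    intro a b l hl h
    apply hcd a b l hl
    simpa using h
  | succ i ih =>
    intro a b l hl h
    have h1 : a • c + (b * p ^ (i + 1)) • d = p • ((p ^ (i + 1)) • l) := by
      rw [h, smul_smul, pow_succ' p (i + 1)]
    obtain ⟨⟨a', rfl⟩, -⟩ := hcd _ _ _ (Λ.nsmul_mem hl _) h1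
    refine ⟨dvd_mul_right _ _, ?_⟩
    have h2 : a' • c + (b * p ^ i) • d = (p ^ (i + 1)) • l := by
      apply nsmul_left_cancel hp
      rw [← h1, smul_add, ← natCast_zsmul, ← natCast_zsmul, smul_smul, smul_smul]
      congr 2
      push_cast
      ring
    exact (ih _ _ _ hl h2).2

end Chain

/-- The data of the descent: a lattice `Λ`, an additive map `ω`, and functions `R L` for the
lattices `Λ ≤ L ≤ p^{-a} Λ`. -/
structure RSys (p a : ℕ) {V : Type*} [AddCommGroup V] [Module ℚ V] (Λ : AddSubgroup V)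
    (ω : V →+ V) {A : Type*} [CommGroup A] (R : AddSubgroup V → V → A) : Prop where
  /-- `p`-th power is injective on the values -/
  inj : ∀ x y : A, x ^ p = y ^ p → x = y
  /-- `Λ / p` is a plane -/
  plane : IsPlane p Λ
  /-- `ω = 1` modulo `p^a` -/
  om : ∀ x ∈ Λ, ∃ y ∈ Λ, ω x - x = (p ^ a) • y
  /-- periodicity -/
  per : ∀ L : AddSubgroup V, Λ ≤ L → (∀ x ∈ L, (p ^ a) • x ∈ Λ) → ∀ w, ∀ l ∈ L,
    R L (w + l) = R L w
  /-- distribution relation -/
  dist : ∀ L L'' : AddSubgroup V, Λ ≤ L → L ≤ L'' → (∀ x ∈ L'', (p ^ a) • x ∈ Λ) →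
    ∀ {ι : Type} [Fintype ι] (τ : ι → V), IsReps L L'' τ → ∀ w, ω w - w ∈ L →
      R L'' w = ∏ i, R L (w + τ i)
  /-- scaling -/
  scale : ∀ L : AddSubgroup V, Λ ≤ L → (∀ x ∈ pinv p L, (p ^ a) • x ∈ Λ) →
    ∀ w, ω w - w ∈ pinv p L → R (pinv p L) w = R L (p • w)

section Main

variable {p a : ℕ} [Fact p.Prime] {V : Type*} [AddCommGroup V] [Module ℚ V] {Λ : AddSubgroup V}
  {ω : V →+ V} {A : Type*} [CommGroup A] {R : AddSubgroup V → V → A}

theorem RSys.om_sub_mem (h : RSys p a Λ ω R) {j : ℕ} (hj : j ≤ a) {x : V}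
    (hx : (p ^ j) • x ∈ Λ) : ω x - x ∈ Λ := by
  have hp : p ≠ 0 := (Fact.out : p.Prime).ne_zero
  obtain ⟨y, hy, hxy⟩ := h.om _ hx
  have : ω x - x = (p ^ (a - j)) • y := by
    apply nsmul_left_cancel (pow_ne_zero j hp)
    rw [smul_sub, ← map_nsmul, hxy, smul_smul, ← pow_add, Nat.add_sub_cancel' hj]
  rw [this]
  exact Λ.nsmul_mem hy _

variable (p Λ) in
/-- geometry of the plane `p⁻¹L / L`, `L = L(c,i)` -/
theorem plane_geom {c d : V} (hd : d ∈ Λ)
    (h1 : ∀ x ∈ Λ, ∃ a b : ℤ, ∃ y ∈ Λ, x = a • c + b • d + p • y)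
    (h2 : ∀ a b : ℤ, ∀ y ∈ Λ, a • c + b • d = p • y → (p : ℤ) ∣ a ∧ (p : ℤ) ∣ b) (i : ℕ) :
    p • dv p (i + 1) c ∈ Lci p Λ c i ∧ p • dv p 1 d ∈ Λ ∧
    (∀ x ∈ pinv p (Lci p Λ c i), ∃ l ∈ Lci p Λ c i, ∃ a b : ℤ,
      x = l + (a • dv p (i + 1) c + b • dv p 1 d)) ∧
    (∀ a b : ℤ, a • dv p (i + 1) c + b • dv p 1 d ∈ Lci p Λ c i → (p : ℤ) ∣ a ∧ (p : ℤ) ∣ b) := by
  have hp : p ≠ 0 := (Fact.out : p.Prime).ne_zero
  refine ⟨?_, ?_, ?_, ?_⟩
  · rw [smul_dv_succ hp]; exact dv_mem_Lci _ _ _ _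
  · rw [smul_dv_one hp]; exact hd
  · intro x hx
    rw [mem_pinv] at hx
    obtain ⟨l, hl, k, hk⟩ := mem_sup_z.1 hx
    obtain ⟨a, b, y, hy, rfl⟩ := h1 l hl
    refine ⟨y, le_Lci _ _ _ _ hy, a * p ^ i + k, b, ?_⟩
    apply nsmul_left_cancel hp
    rw [hk, smul_add, smul_add, smul_comm p (a * p ^ i + k), smul_comm p b, smul_dv_one hp,
      smul_dv_succ hp, add_smul, mul_smul]
    have : ((p : ℤ) ^ i) • dv p i c = c := by
      have := pow_smul_dv_self hp i c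
      rw [← natCast_zsmul] at this
      push_cast at this
      exact this
    rw [this]
    abel
  · intro a b hab
    obtain ⟨l, hl, k, hk⟩ := mem_sup_z.1 hab
    have h3 : (a - k * p) • c + (b * p ^ i) • d = (p ^ (i + 1)) • l := by
      have h4 := congrArg (fun z => (p ^ (i + 1)) • z) hk
      simp only [smul_add] at h4
      have e2 : (p ^ (i + 1)) • dv p 1 d = (p ^ i) • d := by
        rw [pow_succ, mul_smul, smul_dv_one hp]
      have e3 : (p ^ (i + 1)) • dv p i c = p • c := by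
        rw [pow_succ', mul_smul, pow_smul_dv_self hp]
      rw [smul_comm _ a, smul_comm _ b, smul_comm _ k, pow_smul_dv_self hp, e2, e3] at h4
      have e4 : (k * p : ℤ) • c = k • (p • c) := by
        rw [mul_smul, natCast_zsmul]
      have e5 : (b * p ^ i : ℤ) • d = b • ((p ^ i) • d) := by
        rw [mul_smul]
        congr 1
        rw [← natCast_zsmul]
        push_cast
        rfl
      rw [sub_smul, e4, e5]
      have h5 : a • c + b • ((p ^ i) • d) - k • (p • c) = (p ^ (i + 1)) • l := by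
        rw [h4]; abel
      rw [← h5]; abel
    obtain ⟨h4, h5⟩ := ind_aux hp h2 i _ _ l hl h3
    refine ⟨?_, h5⟩
    have := dvd_add h4 (Dvd.intro_left k rfl : (p : ℤ) ∣ k * p)
    simpa using this

/-- the line `L + ℤ (c/p^(i+1) + s d/p)` is `L(c + s p^i d, i+1)` -/
theorem line_eq (hp : p ≠ 0) {c d : V} (hd : d ∈ Λ) (i s : ℕ) :
    Lci p Λ c i ⊔ AddSubgroup.zmultiples (dv p (i + 1) c + s • dv p 1 d) =
      Lci p Λ (c + (s * p ^ i) • d) (i + 1) := by
  have e1 : dv p (i + 1) (c + (s * p ^ i) • d) = dv p (i + 1) c + s • dv p 1 d := by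
    rw [dv_add, mul_smul, dv_nsmul, ← pow_smul_dv hp i 1 d, dv_nsmul]
  have e2 : dv p i c = p • (dv p (i + 1) c + s • dv p 1 d) - s • d := by
    rw [smul_add, smul_dv_succ hp, smul_comm p s, smul_dv_one hp]; abel
  apply le_antisymm
  · apply sup_le
    · apply sup_le (le_Lci _ _ _ _)
      rw [AddSubgroup.zmultiples_le, e2, ← e1]
      apply AddSubgroup.sub_mem
      · exact AddSubgroup.nsmul_mem _ (dv_mem_Lci _ _ _ _) _
      · exact le_Lci _ _ _ _ (Λ.nsmul_mem hd _)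
    · rw [AddSubgroup.zmultiples_le, ← e1]
      exact dv_mem_Lci _ _ _ _
  · apply sup_le
    · exact le_trans (le_Lci _ _ _ _) le_sup_left
    · rw [AddSubgroup.zmultiples_le, e1]
      exact mem_sup_z.2 ⟨0, AddSubgroup.zero_mem _, 1, by simp⟩

/-- `w` is a point of the finite group attached to `L`. -/
def Pt (ω : V →+ V) (L : AddSubgroup V) (w : V) : Prop := ω w - w ∈ L

/-- periodicity in all lattices `L(c,i)` -/
def PerAt (p : ℕ) (Λ : AddSubgroup V) (ω : V →+ V) (R : AddSubgroup V → V → A) (i : ℕ) : Prop :=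
  ∀ c ∈ Λ, dv p 1 c ∉ Λ → ∀ w, Pt ω (Lci p Λ c i) w → ∀ t ∈ pinv p Λ,
    R (Lci p Λ c i) (w + t) = R (Lci p Λ c i) w

/-- the geometric facts used in one step -/
theorem step_facts (h : RSys p a Λ ω R) {i : ℕ} (hi : i < a) (hper : PerAt p Λ ω R (i + 1))
    {c d : V} (hc : c ∈ Λ) (hd : d ∈ Λ)
    (h1 : ∀ x ∈ Λ, ∃ a b : ℤ, ∃ y ∈ Λ, x = a • c + b • d + p • y)
    (h2 : ∀ a b : ℤ, ∀ y ∈ Λ, a • c + b • d = p • y → (p : ℤ) ∣ a ∧ (p : ℤ) ∣ b)
    {w : V} (hw : Pt ω (Lci p Λ c i) w) :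
    (∀ s : ZMod p, R (Lci p Λ (c + (s.val * p ^ i) • d) (i + 1)) w =
      ∏ x : ZMod p, R (Lci p Λ c i) (w + x.val • (dv p (i + 1) c + s.val • dv p 1 d))) ∧
    (R (pinv p (Lci p Λ c i)) w = ∏ x : ZMod p × ZMod p,
      R (Lci p Λ c i) (w + (x.1.val • dv p (i + 1) c + x.2.val • dv p 1 d))) ∧
    (∀ s : ZMod p, R (pinv p (Lci p Λ c i)) w =
      R (Lci p Λ (c + (s.val * p ^ i) • d) (i + 1)) w ^ p) := by
  have hp : p ≠ 0 := (Fact.out : p.Prime).ne_zero
  obtain ⟨g1, g2, g3, g4⟩ := plane_geom p Λ hd h1 h2 i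
  set L := Lci p Λ c i with hL
  set u := dv p (i + 1) c with hu
  set v := dv p 1 d with hv
  have hΛL : Λ ≤ L := le_Lci _ _ _ _
  have hLP : L ≤ pinv p L := fun x hx => L.nsmul_mem hx _
  have huP : u ∈ pinv p L := g1
  have hvP : v ∈ pinv p L := hΛL g2
  have hsp : ∀ s : ZMod p, ∀ x ∈ L, x ∈ L := fun _ _ h => h
  have hPa : ∀ x ∈ pinv p L, (p ^ a) • x ∈ Λ := by
    intro x hx
    rw [mem_pinv] at hx
    have h3 : (p ^ i) • (p • x) ∈ Λ := pow_smul_mem_of_mem_Lci hp hc hx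
    rw [smul_smul, ← pow_succ] at h3
    have h4 : (p ^ a) • x = (p ^ (a - (i + 1))) • ((p ^ (i + 1)) • x) := by
      rw [smul_smul, ← pow_add]; congr 2; omega
    rw [h4]
    exact Λ.nsmul_mem h3 _
  have hline : ∀ s : ZMod p, L ⊔ AddSubgroup.zmultiples (u + s.val • v) =
      Lci p Λ (c + (s.val * p ^ i) • d) (i + 1) := fun s => line_eq hp hd i s.val
  have hLsP : ∀ s : ZMod p, L ⊔ AddSubgroup.zmultiples (u + s.val • v) ≤ pinv p L := by
    intro s
    apply sup_le hLP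
    rw [AddSubgroup.zmultiples_le]
    exact AddSubgroup.add_mem _ huP (AddSubgroup.nsmul_mem _ hvP _)
  have hcs : ∀ s : ZMod p, c + (s.val * p ^ i) • d ∈ Λ :=
    fun s => Λ.add_mem hc (Λ.nsmul_mem hd _)
  have hcs' : ∀ s : ZMod p, dv p 1 (c + (s.val * p ^ i) • d) ∉ Λ := by
    intro s hs
    have h3 := h2 1 ((s.val * p ^ i : ℕ) : ℤ) _ hs (by
      rw [smul_dv_one hp, one_smul, natCast_zsmul])
    have h4 : (p : ℤ) ∣ 1 := h3.1
    have h5 : p ∣ 1 := by exact_mod_cast h4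
    exact (Fact.out : p.Prime).one_lt.ne' (Nat.dvd_one.1 h5)
  refine ⟨fun s => ?_, ?_, fun s => ?_⟩
  · rw [← hline s]
    refine h.dist L _ hΛL le_sup_left (fun x hx => hPa x (hLsP s hx)) _ (isReps_line ?_ ?_) w hw
    · have h3 : p • (u + s.val • v) = p • u + s.val • (p • v) := by
        rw [smul_add, smul_comm p s.val]
      rw [h3]
      exact L.add_mem g1 (L.nsmul_mem (hΛL g2) _)
    · intro k hk
      have h3 : k • (u + s.val • v) = k • u + (k * s.val) • v := by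
        rw [smul_add, mul_smul, natCast_zsmul]
      rw [h3] at hk
      exact (g4 _ _ hk).1
  · exact h.dist L _ hΛL hLP hPa _
      (isReps_plane huP hvP g1 (hΛL g2) g3 g4) w hw
  · have h3 : pinv p L = (L ⊔ AddSubgroup.zmultiples (u + s.val • v)) ⊔
        AddSubgroup.zmultiples v := by
      apply le_antisymm
      · intro x hx
        obtain ⟨l, hl, a', b', rfl⟩ := g3 x hx
        refine mem_sup_z.2 ⟨l + a' • (u + s.val • v), mem_sup_z.2 ⟨l, hl, a', rfl⟩,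
          b' - a' * s.val, ?_⟩
        rw [smul_add, sub_smul, mul_smul, natCast_zsmul]
        abel
      · apply sup_le (hLsP s)
        rw [AddSubgroup.zmultiples_le]
        exact hvP
    have h4 := h.dist (L ⊔ AddSubgroup.zmultiples (u + s.val • v)) (pinv p L)
      (le_trans hΛL le_sup_left) (hLsP s) hPa (fun x : ZMod p => x.val • v) (by
        conv in pinv p L => rw [h3]
        apply isReps_line
        · exact (le_trans hΛL le_sup_left) g2
        · intro k hk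
          obtain ⟨l, hl, m, hm⟩ := mem_sup_z.1 hk
          have h5 : (-m) • u + (k - m * s.val) • v ∈ L := by
            have : (-m) • u + (k - m * s.val) • v = l := by
              rw [sub_smul, hm, smul_add, mul_smul, natCast_zsmul, neg_smul]
              abel
            rw [this]; exact hl
          obtain ⟨h6, h7⟩ := g4 _ _ h5
          have h8 : (p : ℤ) ∣ m := by simpa using h6
          have h9 := dvd_add h7 (Dvd.dvd.mul_right h8 (s.val : ℤ))
          simpa using h9) w ((le_sup_left : L ≤ _) hw)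
    rw [h4, hline s]
    have h5 : ∀ x : ZMod p, R (Lci p Λ (c + (s.val * p ^ i) • d) (i + 1)) (w + x.val • v) =
        R (Lci p Λ (c + (s.val * p ^ i) • d) (i + 1)) w := by
      intro x
      apply hper _ (hcs s) (hcs' s)
      · unfold Pt
        rw [← hline s]
        exact (le_sup_left : L ≤ _) hw
      · rw [mem_pinv, smul_comm]
        exact Λ.nsmul_mem g2 _
    simp [h5, ZMod.card]

/-- descent of the periodicity -/
theorem perAt_step (h : RSys p a Λ ω R) {i : ℕ} (hi0 : 1 ≤ i) (hi : i < a)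
    (hper : PerAt p Λ ω R (i + 1)) : PerAt p Λ ω R i := by
  have hp : p ≠ 0 := (Fact.out : p.Prime).ne_zero
  intro c hc hc1
  obtain ⟨d, hd, h1, h2⟩ := h.plane c hc hc1
  obtain ⟨g1, g2, g3, g4⟩ := plane_geom p Λ hd h1 h2 i
  have hLa : ∀ x ∈ Lci p Λ c i, (p ^ a) • x ∈ Λ := by
    intro x hx
    have h3 : (p ^ i) • x ∈ Λ := pow_smul_mem_of_mem_Lci hp hc hx
    have h4 : (p ^ a) • x = (p ^ (a - i)) • ((p ^ i) • x) := by
      rw [smul_smul, ← pow_add]; congr 2; omega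
    rw [h4]
    exact Λ.nsmul_mem h3 _
  have hr := h.per (Lci p Λ c i) (le_Lci _ _ _ _) hLa
  have hS : ∀ w, Pt ω (Lci p Λ c i) w → Pt ω (Lci p Λ c i) (w + dv p 1 d) := by
    intro w hw
    unfold Pt at hw ⊢
    have h3 : ω (dv p 1 d) - dv p 1 d ∈ Λ := by
      apply h.om_sub_mem (j := 1) (by omega)
      rw [pow_one]; exact g2
    have h4 : ω (w + dv p 1 d) - (w + dv p 1 d) = (ω w - w) + (ω (dv p 1 d) - dv p 1 d) := by
      rw [map_add]; abel
    rw [h4]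
    exact AddSubgroup.add_mem _ hw (le_Lci _ _ _ _ h3)
  have hv : p • dv p 1 d ∈ Lci p Λ c i := le_Lci _ _ _ _ g2
  have key : ∀ w, Pt ω (Lci p Λ c i) w →
      R (Lci p Λ c i) (w + dv p 1 d) = R (Lci p Λ c i) w := by
    refine step_algebra (p := p) h.inj (u := dv p (i + 1) c) hv (R (Lci p Λ c i)) hr
      (fun w s => R (Lci p Λ (c + (s.val * p ^ i) • d) (i + 1)) w)
      (fun w => R (pinv p (Lci p Λ c i)) w) (Pt ω (Lci p Λ c i)) hS ?_ ?_ ?_
    · intro w hw s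
      exact (step_facts h hi hper hc hd h1 h2 hw).1 s
    · intro w hw
      exact (step_facts h hi hper hc hd h1 h2 hw).2.1
    · intro w hw s
      exact (step_facts h hi hper hc hd h1 h2 hw).2.2 s
  have key2 : ∀ n : ℕ, ∀ w, Pt ω (Lci p Λ c i) w →
      R (Lci p Λ c i) (w + n • dv p 1 d) = R (Lci p Λ c i) w := by
    intro n
    induction n with
    | zero => intro w _; simp
    | succ n ih =>
      intro w hw
      have e : w + (n + 1) • dv p 1 d = (w + dv p 1 d) + n • dv p 1 d := by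
        rw [add_smul, one_smul]; abel
      rw [e, ih _ (hS w hw), key w hw]
  intro w hw t ht
  rw [mem_pinv] at ht
  obtain ⟨a', b', y, hy, hxy⟩ := h1 _ ht
  have e : t = a' • dv p 1 c + b' • dv p 1 d + y := by
    apply nsmul_left_cancel hp
    rw [hxy, smul_add, smul_add, smul_comm p a', smul_comm p b', smul_dv_one hp, smul_dv_one hp]
  have hc' : dv p 1 c ∈ Lci p Λ c i := by
    have h3 := pow_smul_dv hp (i - 1) 1 c
    rw [Nat.sub_add_cancel hi0] at h3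
    rw [← h3]
    exact AddSubgroup.nsmul_mem _ (dv_mem_Lci _ _ _ _) _
  have e2 : w + t = (w + (b' : ZMod p).val • dv p 1 d) +
      (a' • dv p 1 c + (b' • dv p 1 d - (b' : ZMod p).val • dv p 1 d) + y) := by
    rw [e]; abel
  rw [e2, hr, key2 _ _ hw]
  exact AddSubgroup.add_mem _ (AddSubgroup.add_mem _ (AddSubgroup.zsmul_mem _ hc' _)
    (val_smul_sub_mem hv b')) (le_Lci _ _ _ _ hy)

theorem Lci_pow_mem {c : V} (hc : c ∈ Λ) {i : ℕ} (hi : i ≤ a) :
    ∀ x ∈ Lci p Λ c i, (p ^ a) • x ∈ Λ := by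
  have hp : p ≠ 0 := (Fact.out : p.Prime).ne_zero
  intro x hx
  have h3 : (p ^ i) • x ∈ Λ := pow_smul_mem_of_mem_Lci hp hc hx
  have h4 : (p ^ a) • x = (p ^ (a - i)) • ((p ^ i) • x) := by
    rw [smul_smul, ← pow_add]; congr 2; omega
  rw [h4]
  exact Λ.nsmul_mem h3 _

theorem pinv_Lci_pow_mem {c : V} (hc : c ∈ Λ) {i : ℕ} (hi : i < a) :
    ∀ x ∈ pinv p (Lci p Λ c i), (p ^ a) • x ∈ Λ := by
  have hp : p ≠ 0 := (Fact.out : p.Prime).ne_zero
  intro x hx
  rw [mem_pinv] at hx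
  have h3 : (p ^ i) • (p • x) ∈ Λ := pow_smul_mem_of_mem_Lci hp hc hx
  rw [smul_smul, ← pow_succ] at h3
  have h4 : (p ^ a) • x = (p ^ (a - (i + 1))) • ((p ^ (i + 1)) • x) := by
    rw [smul_smul, ← pow_add]; congr 2; omega
  rw [h4]
  exact Λ.nsmul_mem h3 _

/-- the relation between two consecutive levels of the chain -/
theorem up_pow (h : RSys p a Λ ω R) {i : ℕ} (hi : i < a) (hper : PerAt p Λ ω R (i + 1))
    {c : V} (hc : c ∈ Λ) (hc1 : dv p 1 c ∉ Λ) {w : V} (hw : Pt ω (Lci p Λ c (i + 1)) w) :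
    R (Lci p Λ c (i + 1)) w ^ p = R (Lci p Λ c i) (p • w) := by
  have hp : p ≠ 0 := (Fact.out : p.Prime).ne_zero
  obtain ⟨d, hd, h1, h2⟩ := h.plane c hc hc1
  obtain ⟨g1, g2, g3, g4⟩ := plane_geom p Λ hd h1 h2 i
  have e0 : Lci p Λ c (i + 1) = Lci p Λ c i ⊔ AddSubgroup.zmultiples (dv p (i + 1) c) := by
    have := line_eq (Λ := Λ) hp (c := c) hd i 0
    simpa using this.symm
  have hsub : Lci p Λ c (i + 1) ≤ pinv p (Lci p Λ c i) := by
    rw [e0]
    apply sup_le (fun x hx => AddSubgroup.nsmul_mem _ hx _)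
    rw [AddSubgroup.zmultiples_le]
    exact g1
  have h3 : pinv p (Lci p Λ c i) = Lci p Λ c (i + 1) ⊔ AddSubgroup.zmultiples (dv p 1 d) := by
    apply le_antisymm
    · intro x hx
      obtain ⟨l, hl, a', b', rfl⟩ := g3 x hx
      rw [e0]
      refine mem_sup_z.2 ⟨l + a' • dv p (i + 1) c, mem_sup_z.2 ⟨l, hl, a', rfl⟩, b', ?_⟩
      abel
    · apply sup_le hsub
      rw [AddSubgroup.zmultiples_le]
      exact le_Lci _ _ _ _ g2
  have h4 := h.dist (Lci p Λ c (i + 1)) (pinv p (Lci p Λ c i)) (le_Lci _ _ _ _) hsub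
    (pinv_Lci_pow_mem hc hi) (fun x : ZMod p => x.val • dv p 1 d) (by
      conv in pinv p (Lci p Λ c i) => rw [h3]
      apply isReps_line
      · exact le_Lci _ _ _ _ g2
      · intro k hk
        rw [e0] at hk
        obtain ⟨l, hl, m, hm⟩ := mem_sup_z.1 hk
        have h5 : (-m) • dv p (i + 1) c + k • dv p 1 d ∈ Lci p Λ c i := by
          have : (-m) • dv p (i + 1) c + k • dv p 1 d = l := by
            rw [hm, neg_smul]
            abel
          rw [this]; exact hl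
        exact (g4 _ _ h5).2) w hw
  have h5 : ∀ x : ZMod p, R (Lci p Λ c (i + 1)) (w + x.val • dv p 1 d) =
      R (Lci p Λ c (i + 1)) w := by
    intro x
    apply hper c hc hc1 w hw
    rw [mem_pinv, smul_comm]
    exact Λ.nsmul_mem g2 _
  rw [← h.scale _ (le_Lci _ _ _ _) (pinv_Lci_pow_mem hc hi) w (hsub hw), h4]
  simp [h5, ZMod.card]

/-- the congruence at the bottom -/
theorem bottom_pow (h : RSys p a Λ ω R) (ha : 1 ≤ a) (hper : PerAt p Λ ω R 1)
    {c : V} (hc : c ∈ Λ) (hc1 : dv p 1 c ∉ Λ) {w : V} (hw : Pt ω Λ w) :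
    R Λ (p • w) = R Λ w ^ (p ^ 2) := by
  have hp : p ≠ 0 := (Fact.out : p.Prime).ne_zero
  obtain ⟨d, hd, h1, h2⟩ := h.plane c hc hc1
  have h1' : ∀ x ∈ Λ, ∃ a b : ℤ, ∃ y ∈ Λ, x = a • d + b • c + p • y := by
    intro x hx
    obtain ⟨a', b', y, hy, rfl⟩ := h1 x hx
    exact ⟨b', a', y, hy, by abel⟩
  have h2' : ∀ a b : ℤ, ∀ y ∈ Λ, a • d + b • c = p • y → (p : ℤ) ∣ a ∧ (p : ℤ) ∣ b := by
    intro a' b' y hy hxy
    rw [add_comm] at hxy
    exact (h2 b' a' y hy hxy).symm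
  have hwc : Pt ω (Lci p Λ c 0) w := by rw [Lci_zero p hc]; exact hw
  have hwd : Pt ω (Lci p Λ d 0) w := by rw [Lci_zero p hd]; exact hw
  obtain ⟨f1, f2, f3⟩ := step_facts h (i := 0) (by omega) hper hc hd h1 h2 hwc
  obtain ⟨f4, -, f6⟩ := step_facts h (i := 0) (by omega) hper hd hc h1' h2' hwd
  rw [Lci_zero p hc] at f1 f2 f3
  rw [Lci_zero p hd] at f4 f6
  have f4' := f4 0
  have f6' := f6 0
  simp only [ZMod.val_zero, zero_smul, add_zero, zero_mul] at f4' f6'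
  have hsc : R (pinv p Λ) w = R Λ (p • w) := by
    apply h.scale Λ le_rfl
    · have := pinv_Lci_pow_mem (p := p) (a := a) hc (i := 0) (by omega)
      rwa [Lci_zero p hc] at this
    · exact Λ.nsmul_mem hw _
  rw [← hsc]
  have hv : p • dv p 1 d ∈ Λ := by rw [smul_dv_one hp]; exact hd
  refine step_bottom (p := p) (u := dv p (0 + 1) c) hv (R Λ)
    (h.per Λ le_rfl (fun x hx => Λ.nsmul_mem hx _)) w _ _ _ f1 f4' f2 f3 f6'

theorem perAt_all (h : RSys p a Λ ω R) (htop : PerAt p Λ ω R a) :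
    ∀ i, 1 ≤ i → i ≤ a → PerAt p Λ ω R i := by
  intro i hi hia
  induction hia using Nat.decreasingInduction with
  | self => exact htop
  | of_succ k hk ih => exact perAt_step h hi hk (ih (by omega))

/-- Main theorem of piece (c), first part. -/
theorem kron_bottom (h : RSys p a Λ ω R) (ha : 1 ≤ a) (htop : PerAt p Λ ω R a)
    (hne : ∃ c ∈ Λ, dv p 1 c ∉ Λ) {w : V} (hw : Pt ω Λ w) :
    R Λ (p • w) = R Λ w ^ (p ^ 2) := by
  obtain ⟨c, hc, hc1⟩ := hne
  exact bottom_pow h ha (perAt_all h htop 1 le_rfl ha) hc hc1 hw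

/-- periodicity at the bottom -/
theorem kron_periodic (h : RSys p a Λ ω R) (ha : 1 ≤ a) (htop : PerAt p Λ ω R a)
    (hne : ∃ c ∈ Λ, dv p 1 c ∉ Λ) {w : V} (hw : Pt ω Λ w) {t : V} (ht : t ∈ pinv p Λ) :
    R Λ (w + t) = R Λ w := by
  have hw' : Pt ω Λ (w + t) := by
    unfold Pt at hw ⊢
    have h3 : ω t - t ∈ Λ := by
      apply h.om_sub_mem (j := 1) ha
      rw [pow_one]; exact ht
    have h4 : ω (w + t) - (w + t) = (ω w - w) + (ω t - t) := by
      rw [map_add]; abel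
    rw [h4]
    exact Λ.add_mem hw h3
  have h1 := kron_bottom h ha htop hne hw
  have h2 := kron_bottom h ha htop hne hw'
  have ht' : p • t ∈ Λ := ht
  rw [smul_add, h.per Λ le_rfl (fun x hx => Λ.nsmul_mem hx _) _ _ ht', h1, sq, pow_mul, pow_mul]
    at h2
  exact (h.inj _ _ (h.inj _ _ h2)).symm

/-- Values in the whole chain are determined by the bottom: if `R Λ` is trivial, so is
`R (L(c,i))`. -/
theorem chain_trivial (h : RSys p a Λ ω R) (htop : PerAt p Λ ω R a)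
    (h1 : ∀ w, Pt ω Λ w → R Λ w = 1) :
    ∀ i, i ≤ a → ∀ c ∈ Λ, dv p 1 c ∉ Λ → ∀ w, Pt ω (Lci p Λ c i) w → R (Lci p Λ c i) w = 1 := by
  have hp : p ≠ 0 := (Fact.out : p.Prime).ne_zero
  intro i
  induction i with
  | zero =>
    intro _ c hc hc1 w hw
    rw [Lci_zero p hc] at hw ⊢
    exact h1 w hw
  | succ i ih =>
    intro hi c hc hc1 w hw
    have h3 := up_pow h (i := i) (by omega) (perAt_all h htop (i + 1) (by omega) hi) hc hc1 hw
    have h4 : Pt ω (Lci p Λ c i) (p • w) := by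
      unfold Pt at hw ⊢
      rw [map_nsmul, ← smul_sub]
      obtain ⟨l, hl, k, hk⟩ := mem_sup_z.1 hw
      rw [hk, smul_add, smul_comm, smul_dv_succ hp]
      exact AddSubgroup.add_mem _ (le_Lci _ _ _ _ (Λ.nsmul_mem hl _))
        (AddSubgroup.zsmul_mem _ (dv_mem_Lci _ _ _ _) _)
    rw [ih (by omega) c hc hc1 _ h4] at h3
    exact h.inj _ _ (by rw [h3, one_pow])

end Main

end Zau
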