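import Pool.Agent.Lib_zau.Radon

/-!
MP_1c78a5_mp (Zauner).  File KronT: units, and the exact form of the Kronecker congruence.
Continues Radon.lean: `F : T → A` satisfies the distribution relation `F (p x) = ∑_{t ∈ T[p]} F (x + t)`.
-/

set_option autoImplicit false

namespace Zau

open Finset

variable {T A : Type*} [AddCommGroup T] [AddCommGroup A] {p : ℕ}

theorem ftor_const (B : PBas T p) (F : T → A) (x : T)
    (h : ∀ t, p • t = 0 → F (x + t) = F x) : ftor B F x = (p ^ 2) • F x := by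
  unfold ftor
  have h1 : ∀ k m : ℕ, F (x + k • B.e1 + m • B.e2) = F x := by
    intro k m
    rw [add_assoc]
    apply h
    rw [_root_.smul_add, smul_comm p k, smul_comm p m, B.he1, B.he2, smul_zero, smul_zero,
      add_zero]
  simp only [h1, sum_const, card_range, smul_smul, pow_two]

/-- Units: a torsion free `A`. -/
theorem unit_zero (hp : p.Prime) (B : PBas T p) (hA : ∀ n : ℕ, 0 < n → ∀ a : A, n • a = 0 → a = 0)
    (F : T → A) (om : T →+ T) (hdist : ∀ x, F (p • x) = ftor B F x)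
    (hper : ∀ x, om x = x → ∀ t, p • t = 0 → F (x + t) = F x)
    (x : T) (hx : om x = x) (hfin : ∃ n : ℕ, 0 < n ∧ n • x = 0) : F x = 0 := by
  obtain ⟨n, hn, hnx⟩ := hfin
  have : NeZero n := ⟨hn.ne'⟩
  have hstep : ∀ y, om y = y → F (p • y) = (p ^ 2) • F y := fun y hy => by
    rw [hdist, ftor_const B F y (hper y hy)]
  have hpow : ∀ j : ℕ, om ((p ^ j) • x) = (p ^ j) • x := fun j => by rw [map_nsmul, hx]
  have hit : ∀ j : ℕ, F ((p ^ j) • x) = (p ^ (2 * j)) • F x := by
    intro j
    induction j with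
    | zero => simp
    | succ j ih =>
      rw [pow_succ, mul_comm, mul_smul, hstep _ (hpow j), ih, smul_smul, ← pow_add]
      congr 2
      ring
  obtain ⟨i, j, hij, h⟩ := Finite.exists_ne_map_eq_of_infinite (fun j : ℕ => ((p ^ j : ℕ) : ZMod n))
  have hmod : (p ^ i) ≡ (p ^ j) [MOD n] := (ZMod.natCast_eq_natCast_iff _ _ _).1 h
  have hsm : (p ^ i) • x = (p ^ j) • x := by
    have h1 : ∀ a : ℕ, a • x = (a % n) • x := by
      intro a
      conv_lhs => rw [← Nat.mod_add_div a n, add_smul, mul_comm, mul_smul, hnx, smul_zero, add_zero]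
    rw [h1 (p ^ i), h1 (p ^ j)]
    rw [show p ^ i % n = p ^ j % n from hmod]
  have h2 : (p ^ (2 * i)) • F x = (p ^ (2 * j)) • F x := by rw [← hit, ← hit, hsm]
  wlog hlt : i < j generalizing i j
  · exact this j i hij.symm h.symm hmod.symm hsm.symm h2.symm (by omega)
  have h3 : p ^ (2 * i) < p ^ (2 * j) := Nat.pow_lt_pow_right hp.one_lt (by omega)
  apply hA (p ^ (2 * j) - p ^ (2 * i)) (by omega)
  obtain ⟨c, hc⟩ : ∃ c, p ^ (2 * j) = p ^ (2 * i) + c := ⟨p ^ (2 * j) - p ^ (2 * i), by omega⟩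
  rw [hc, Nat.add_sub_cancel_left]
  rw [hc, add_smul] at h2
  exact (left_eq_add.1 h2)

theorem sum_range_mul_periodic (p n : ℕ) {M : Type*} [AddCommMonoid M] (g : ℕ → M)
    (hg : ∀ k, g (k + n) = g k) : ∑ k ∈ range (p * n), g k = p • ∑ k ∈ range n, g k := by
  induction p with
  | zero => simp
  | succ p ih =>
    rw [Nat.succ_mul, Finset.sum_range_add, ih, succ_nsmul]
    congr 1
    have : ∀ q k, g (q * n + k) = g k := by
      intro q k
      induction q with
      | zero => rw [Nat.zero_mul, Nat.zero_add]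
      | succ q ih =>
        rw [Nat.succ_mul]
        have h1 : q * n + n + k = (q * n + k) + n := by ring
        rw [h1, hg, ih]
    exact sum_congr rfl fun k _ => this p k

/-- Going up: `p • f(p y, p x) = p² • f(y, x)` if `f(y, ·)` is invariant at `x`. -/
theorem fcyc_up (B : PBas T p) (F : T → A) (hdist : ∀ x, F (p • x) = ftor B F x)
    (hp0 : 0 < p) (i : ℕ) (y x : T) (hy : (p ^ (i + 1)) • y = 0)
    (h : ∀ t, p • t = 0 → fcyc F (p ^ (i + 1)) y (x + t) = fcyc F (p ^ (i + 1)) y x) :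
    p • fcyc F (p ^ i) (p • y) (p • x) = (p ^ 2) • fcyc F (p ^ (i + 1)) y x := by
  have h1 : fcyc F (p ^ i) (p • y) (p • x) = ∑ k ∈ range (p ^ i), ftor B F (x + k • y) := by
    unfold fcyc
    refine sum_congr rfl fun k _ => ?_
    rw [← hdist, smul_comm k p, ← _root_.smul_add]
  have h2 : (p ^ 2) • fcyc F (p ^ (i + 1)) y x =
      ∑ k ∈ range (p ^ (i + 1)), ftor B F (x + k • y) := by
    have h3 : ∀ a b : ℕ, fcyc F (p ^ (i + 1)) y (x + a • B.e1 + b • B.e2) =
        fcyc F (p ^ (i + 1)) y x := by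
      intro a b
      rw [add_assoc]
      apply h
      rw [_root_.smul_add, smul_comm p a, smul_comm p b, B.he1, B.he2, smul_zero, smul_zero,
        add_zero]
    have h4 : (p ^ 2) • fcyc F (p ^ (i + 1)) y x =
        ∑ a ∈ range p, ∑ b ∈ range p, fcyc F (p ^ (i + 1)) y (x + a • B.e1 + b • B.e2) := by
      simp only [h3, sum_const, card_range, smul_smul, pow_two]
    rw [h4]
    unfold fcyc ftor
    have h5 : ∀ a : ℕ, ∑ b ∈ range p, ∑ k ∈ range (p ^ (i + 1)),
        F (x + a • B.e1 + b • B.e2 + k • y) = ∑ k ∈ range (p ^ (i + 1)), ∑ b ∈ range p,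
        F (x + a • B.e1 + b • B.e2 + k • y) := fun a => sum_comm
    simp_rw [h5]
    rw [sum_comm]
    refine sum_congr rfl fun k _ => sum_congr rfl fun a _ => sum_congr rfl fun b _ => ?_
    congr 1
    abel
  rw [h2, h1, pow_succ, mul_comm (p ^ i) p, sum_range_mul_periodic]
  intro k
  have h6 : x + (k + p ^ i) • y = x + k • y + (p ^ i) • y := by rw [add_smul]; abel
  rw [h6]
  apply ftor_add hp0
  rw [← mul_smul, mul_comm, ← pow_succ, hy]

/-- All cyclic sums vanish in a torsion free group. -/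
theorem units_all (hp : p.Prime) (B : PBas T p)
    (hA : ∀ n : ℕ, 0 < n → ∀ a : A, n • a = 0 → a = 0)
    (F : T → A) (om : T →+ T) (hdist : ∀ x, F (p • x) = ftor B F x) (a : ℕ)
    (htor : ∀ x : T, ∃ n : ℕ, 0 < n ∧ n • x = 0)
    (h : ∀ y, addOrderOf y = p ^ a → ∀ x, (∃ k : ℕ, om x - x = k • y) →
      ∀ t, p • t = 0 → fcyc F (p ^ a) y (x + t) = fcyc F (p ^ a) y x) :
    ∀ i ≤ a, ∀ c, addOrderOf c = p ^ i → ∀ x, (∃ k : ℕ, om x - x = k • c) →
      fcyc F (p ^ i) c x = 0 := by
  have hA' : NoTor p A := fun b hb => hA p hp.pos b hb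
  have hch := chain hp B hA' F om a h
  intro i
  induction i with
  | zero =>
    intro _ c hc x hx
    rw [pow_zero, AddMonoid.addOrderOf_eq_one_iff] at hc
    subst hc
    simp only [smul_zero, exists_const] at hx
    have h1 : F x = 0 := unit_zero hp B hA F om hdist
      (fun x hx t ht => chain_zero hp B hA' F om a h x hx t ht) x (sub_eq_zero.1 hx) (htor x)
    simpa [fcyc] using h1
  | succ i ih =>
    intro hi c hc x hx
    have h1 := hch (i + 1) hi c hc x hx
    have hc0 : (p ^ (i + 1)) • c = 0 := by rw [← hc]; exact addOrderOf_nsmul_eq_zero c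
    have h2 := fcyc_up B F hdist hp.pos i c x hc0 h1
    have hpc : addOrderOf (p • c) = p ^ i := by
      rw [addOrderOf_nsmul_of_dvd hp.ne_zero (by rw [hc]; exact dvd_pow_self p (by omega)), hc,
        pow_succ, Nat.mul_div_cancel _ hp.pos]
    have h3 : fcyc F (p ^ i) (p • c) (p • x) = 0 := by
      apply ih (by omega) _ hpc
      obtain ⟨k, hk⟩ := hx
      exact ⟨k, by rw [map_nsmul, ← smul_sub, hk, smul_comm]⟩
    rw [h3, smul_zero] at h2
    exact hA'.pow 2 h2.symm

end Zau
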