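import Pool.Agent.Lib_zau.KronO
import Pool.Agent.Lib_zau.CycA

/-!
MP_1c78a5_mp (Zauner).  File KronV: units and the Kronecker congruence for every valuation of `ℂ`, from
the charts (finite groups with cyclic Sylow subgroup and solutions of the ghost system).
-/

set_option autoImplicit false

namespace Zau

open Finset

variable {T : Type*} [AddCommGroup T]

/-- The points `x` with `ω x - x ∈ ℤ y`. -/
def Xs (om : AddMonoid.End T) (y : T) : AddSubgroup T :=
  (AddSubgroup.zmultiples y).comap (om - 1 : AddMonoid.End T)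

theorem mem_Xs {om : AddMonoid.End T} {y x : T} :
    x ∈ Xs om y ↔ om x - x ∈ AddSubgroup.zmultiples y := by
  unfold Xs
  rw [AddSubgroup.mem_comap]
  rfl

/-- A chart: a finite group with a solution of the ghost system (for the points of order `l`), at the
level `om`, for the cyclic group generated by `y`. `Lg` is the logarithm of the ghost on `T`, `u` the unit. -/
def HasChart (om : AddMonoid.End T) (l a : ℕ) (y : T) (Lg : T → ℝ) (u : ℂ) : Prop :=
  ∃ (G : Type) (_ : AddCommGroup G) (_ : Fintype G) (_ : DecidableEq G) (π : Xs om y →+ G)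
    (s m : ℕ) (g : G) (pr : G → G → ℂ) (b : G → ℂ) (κ : ℂ),
    Function.Surjective π ∧ CycSys l s m g pr b κ ∧ b 0 ^ 2 = u ∧
    (∀ w, w ≠ 0 → ∃ n : ℕ, 0 < n ∧ (b w * b (-w)) ^ n = 1) ∧
    (∀ x : Xs om y, Complex.exp ((fcyc Lg (l ^ a) y (x : T) : ℝ) : ℂ) = b (π x) / b (-π x))

theorem val_integral {K : Type*} [Field K] {Γ₀ : Type*} [LinearOrderedCommGroupWithZero Γ₀]
    (v : Valuation K Γ₀) {α : K} (h : IsIntegral ℤ α) : v α ≤ 1 := by
  have h1 : IsIntegral v.integer α := h.tower_top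
  exact (Valuation.integer.integers v).mem_of_integral h1

variable {Γ₀ : Type*} [LinearOrderedCommGroupWithZero Γ₀]

theorem val_unit (v : Valuation ℂ Γ₀) {l : ℕ} (hv : v (l : ℂ) < 1) {u : ℂ}
    (hu : ∃ α : ℂ, IsIntegral ℤ α ∧ u = 1 + l * α) : v (u - 1) < 1 ∧ v u = 1 := by
  obtain ⟨α, hα, rfl⟩ := hu
  have h1 : v (l * α) < 1 := by
    rw [map_mul]
    calc v (l : ℂ) * v α ≤ v (l : ℂ) * 1 := mul_le_mul_right (val_integral v hα) _
      _ = v (l : ℂ) := mul_one _
      _ < 1 := hv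
  refine ⟨by rwa [add_sub_cancel_left], ?_⟩
  rw [Valuation.map_add_eq_of_lt_left v (by rwa [map_one]), map_one]

/-- The image of a point of order `l`. -/
theorem chart_tor {l s m : ℕ} {G : Type} [AddCommGroup G] [Fintype G] [DecidableEq G] {g : G}
    {pr : G → G → ℂ} {b : G → ℂ} {κ : ℂ} (S : CycSys l s m g pr b κ) (z : G) (hz : l • z = 0) :
    ∃ i : ℕ, z = i • (l ^ s • g) := by
  have h1 : l ^ (s + 1) • z = 0 := by rw [pow_succ, mul_smul, hz, smul_zero]
  obtain ⟨i, rfl⟩ := S.cyc z h1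
  have hord : addOrderOf g = l ^ (s + 1) := by
    have : Fact l.Prime := ⟨S.prime⟩
    exact addOrderOf_eq_prime_pow (by
      intro h
      exact S.ne h) S.ord
  have h2 : l ^ (s + 1) ∣ l * i := by
    rw [← hord, addOrderOf_dvd_iff_nsmul_eq_zero, mul_smul]
    exact hz
  rw [pow_succ, mul_comm] at h2
  obtain ⟨c, rfl⟩ := Nat.dvd_of_mul_dvd_mul_left S.prime.pos h2
  exact ⟨c, by rw [mul_comm, mul_smul]⟩

section units

variable {l : ℕ} (hl : l.Prime) (B : PBas T l) (E : AddMonoid.End T) (rho : T → ℝ)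

/-- The valuation of the ghost as an element of an additive group. -/
noncomputable def Fv (v : Valuation ℂ Γ₀) (f : T → ℝ) (x : T) : Additive Γ₀ˣ :=
  Additive.ofMul (Units.mk0 (v (Complex.exp ((f x : ℝ) : ℂ)))
    (v.ne_zero_iff.2 (Complex.exp_ne_zero _)))

theorem Fv_eq_iff (v : Valuation ℂ Γ₀) (z w : ℂ) (hz : z ≠ 0) (hw : w ≠ 0) :
    Units.mk0 (v z) (v.ne_zero_iff.2 hz) = Units.mk0 (v w) (v.ne_zero_iff.2 hw) ↔ v z = v w := by
  rw [Units.ext_iff]
  rfl

omit [AddCommGroup T] in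
theorem Fv_sum {ι : Type*} (v : Valuation ℂ Γ₀) (f : T → ℝ) (s : Finset ι) (x : ι → T) :
    ∑ i ∈ s, Fv v f (x i) = Additive.ofMul (Units.mk0
      (v (Complex.exp (((∑ i ∈ s, f (x i)) : ℝ) : ℂ)))
      (v.ne_zero_iff.2 (Complex.exp_ne_zero _))) := by
  classical
  induction s using Finset.induction_on with
  | empty =>
    simp only [sum_empty]
    symm
    rw [ofMul_eq_zero]
    apply Units.ext
    simp
  | insert a s ha ih =>
    rw [sum_insert ha, ih]
    unfold Fv
    rw [← ofMul_mul]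
    congr 1
    apply Units.ext
    simp only [Units.val_mul, Units.val_mk0]
    rw [← map_mul, ← Complex.exp_add, sum_insert ha]
    push_cast
    rfl

theorem tor_free (n : ℕ) (hn : 0 < n) (a : Additive Γ₀ˣ) (h : n • a = 0) : a = 0 := by
  have h1 : (Additive.toMul a) ^ n = 1 := by
    have := congrArg Additive.toMul h
    simpa using this
  have h2 : Additive.toMul a = 1 := by
    have h3 : ((Additive.toMul a : Γ₀ˣ) : Γ₀) ^ n = 1 := by
      rw [← Units.val_pow_eq_pow_val, h1, Units.val_one]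
    exact Units.ext ((pow_eq_one_iff.1 h3).resolve_right hn.ne')
  have h3 : Additive.ofMul (Additive.toMul a) = Additive.ofMul 1 := by rw [h2]
  simpa using h3

/-- The boundary condition for the valuations. -/
theorem chart_val (v : Valuation ℂ Γ₀) (hv : v (l : ℂ) < 1) {om : AddMonoid.End T} {a : ℕ} {y : T}
    {Lg : T → ℝ} {u : ℂ} (hu : ∃ α : ℂ, IsIntegral ℤ α ∧ u = 1 + l * α)
    (hom : ∀ t, l • t = 0 → om t = t) (hc : HasChart om l a y Lg u)
    (x : T) (hx : x ∈ Xs om y) (t : T) (ht : l • t = 0) :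
    fcyc (Fv v Lg) (l ^ a) y (x + t) = fcyc (Fv v Lg) (l ^ a) y x := by
  obtain ⟨G, _, _, _, π, s, m, g, pr, b, κ, hsurj, S, hb0, hroot, hexp⟩ := hc
  obtain ⟨hu1, hu2⟩ := val_unit v hv hu
  have hvb0 : v (b 0) = 1 := by
    have h1 : v (b 0) ^ 2 = 1 := by rw [← map_pow, hb0, hu2]
    exact (pow_eq_one_iff.1 h1).resolve_right two_ne_zero
  have hodd : ∀ w, v (b w) * v (b (-w)) = 1 := by
    intro w
    by_cases hw : w = 0
    · rw [hw, neg_zero, hvb0, one_mul]
    · obtain ⟨n, hn, h⟩ := hroot w hw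
      rw [← map_mul]
      exact val_root v hn.ne' h
  have htX : t ∈ Xs om y := by
    rw [mem_Xs, hom t ht, sub_self]
    exact zero_mem _
  obtain ⟨i, hi⟩ := chart_tor S (π ⟨t, htX⟩) (by
    rw [← map_nsmul]
    have : (l • (⟨t, htX⟩ : Xs om y)) = 0 := Subtype.ext ht
    rw [this, map_zero])
  have hA : ∀ (i : ℕ) (w : G), v (b (w + i • (l ^ s • g))) = v (b w) := by
    intro i
    induction i with
    | zero => intro w; rw [zero_smul, add_zero]
    | succ i ih =>
      intro w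
      rw [succ_nsmul, ← add_assoc, thmA S v hv hvb0 hodd, ih]
  have hval : ∀ x : Xs om y, v (Complex.exp ((fcyc Lg (l ^ a) y (x : T) : ℝ) : ℂ)) =
      v (b (π x)) ^ 2 := by
    intro x
    rw [hexp, map_div₀, pow_two, div_eq_mul_inv]
    congr 1
    rw [eq_comm]
    exact eq_inv_of_mul_eq_one_left (hodd _)
  unfold fcyc
  rw [Fv_sum, Fv_sum]
  congr 1
  rw [Fv_eq_iff]
  · have h1 := hval (⟨x, hx⟩ + ⟨t, htX⟩)
    have h2 := hval ⟨x, hx⟩
    rw [map_add, hi, hA i] at h1
    rw [← h2] at h1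
    exact h1
  · exact Complex.exp_ne_zero _
  · exact Complex.exp_ne_zero _

end units

end Zau
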