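import Pool.Agent.Lib_MP_1c78a5_ghost.GBd
import Pool.Agent.Lib_MP_1c78a5_ghost.BStrip

/-!
# Zauner, analytic part: the functions `S`, `1 / S`, and the level `N` functions `D`, `1 / D`

`P.b ^ 2 = ω`, `P.o ^ 2 = 1 / ω`, `P.Q * P.o = (1 + ω) / ω`.
-/

open Complex MeasureTheory Set Filter Topology
open scoped Real ComplexConjugate

namespace Zau

open Ghost

/-- The constant of the double sine function in the upper half plane (see `Ghost.G_upper`). -/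
noncomputable def rC (P : Par) : ℂ :=
  G P I * (e (-(I ^ 2 - P.Q * I) / 4) * Complex.exp (Lf P I))⁻¹

/-- `S z = exp (i π B₂₂ (z) / 2) / S₂ (z | 1, ω)` up to a constant; `S z → 1` at `+ i ∞`. -/
noncomputable def SS (P : Par) (z : ℂ) : ℂ :=
  G P (P.o * z) * e (((P.o * z) ^ 2 - P.Q * (P.o * z)) / 4) / rC P

/-- The analytic continuation of `1 / S`. -/
noncomputable def TT (P : Par) (z : ℂ) : ℂ :=
  rC P * (G P (P.Q - P.o * z) * e (-((P.o * z) ^ 2 - P.Q * (P.o * z)) / 4))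

/-- The data of a matrix of trace `A - U ≥ 3` in `SL₂ (ℤ)` with lower left entry `N > 0`:
`ω = N β - U`, `1 / ω = A - N β`, `β / ω = B - U β`. -/
structure Mat where
  P : Par
  N : ℕ
  A : ℤ
  B : ℤ
  U : ℤ
  hN : 0 < N
  hdet : B * N = A * U + 1
  htr : P.b ^ 2 + P.o ^ 2 = (A : ℝ) - U
  h3 : 3 ≤ A - U
  hub : 1 < P.b

/-- `ω`. -/
noncomputable def Mat.om (M : Mat) : ℝ := M.P.b ^ 2

/-- `β = (ω + U) / N`. -/
noncomputable def Mat.be (M : Mat) : ℝ := (M.om + M.U) / M.N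

/-- `d = trace + 1`. -/
def Mat.d (M : Mat) : ℕ := (M.A - M.U + 1).toNat

/-- `U_L (ξ, b) = e ((ξ + b) / N)`. -/
noncomputable def Mat.UL (M : Mat) (b : ℤ) (ξ : ℂ) : ℂ := e ((ξ + b) / M.N)

/-- `U_R (ξ, b) = e (ξ / (N ω) + A b / N)`. -/
noncomputable def Mat.UR (M : Mat) (b : ℤ) (ξ : ℂ) : ℂ := e (ξ / (M.N * M.om) + M.A * b / M.N)

/-- The representative of `b + m U` modulo `N` in `{1, …, N}`. -/
def Mat.rho (M : Mat) (b : ℤ) (m : ℕ) : ℤ := (b + m * M.U - 1) % M.N + 1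

/-- The argument `z_m = (ξ + m ω + ρ_m) / N`. -/
noncomputable def Mat.zz (M : Mat) (b : ℤ) (ξ : ℂ) (m : ℕ) : ℂ :=
  (ξ + m * M.om + M.rho b m) / M.N

/-- The level `N` function `D_b (ξ)`. -/
noncomputable def Mat.D (M : Mat) (b : ℤ) (ξ : ℂ) : ℂ := ∏ m ∈ Finset.range M.N, SS M.P (M.zz b ξ m)

/-- The analytic continuation of `1 / D_b (ξ)`. -/
noncomputable def Mat.R (M : Mat) (b : ℤ) (ξ : ℂ) : ℂ := ∏ m ∈ Finset.range M.N, TT M.P (M.zz b ξ m)

theorem Mat.isUnit (M : Mat) : M.P.IsUnit M.d := by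
  have h3 := M.h3
  refine ⟨?_, M.hub, ?_⟩
  · unfold Mat.d
    omega
  · have h : ((M.d : ℕ) : ℤ) = M.A - M.U + 1 := by
      unfold Mat.d
      omega
    have h' : ((M.d : ℕ) : ℝ) = M.A - M.U + 1 := by exact_mod_cast h
    rw [M.htr, h']
    ring

theorem Mat.om_gt (M : Mat) : 1 < M.om := by
  have := M.hub
  unfold Mat.om
  nlinarith

theorem Mat.o_sq (M : Mat) : M.P.o ^ 2 = M.om⁻¹ := by
  have h := M.P.hbo
  have hb := M.P.hb
  unfold Mat.om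
  refine eq_inv_of_mul_eq_one_left ?_
  calc M.P.o ^ 2 * M.P.b ^ 2 = (M.P.b * M.P.o) ^ 2 := by ring
    _ = 1 := by rw [h]; norm_num

theorem Mat.om_inv (M : Mat) : M.om⁻¹ = M.A - M.N * M.be := by
  have h := M.htr
  have hN : (M.N : ℝ) ≠ 0 := by exact_mod_cast M.hN.ne'
  rw [← M.o_sq]
  unfold Mat.be
  rw [mul_div_cancel₀ _ hN]
  unfold Mat.om
  linarith

theorem Mat.om_eq (M : Mat) : M.om = M.N * M.be - M.U := by
  have hN : (M.N : ℝ) ≠ 0 := by exact_mod_cast M.hN.ne'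
  unfold Mat.be
  rw [mul_div_cancel₀ _ hN]
  ring

end Zau
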