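import Pool.Agent.Results.MP_1c78a5_mp.GhostSIC

/-!
# The last step: from a unimodular conjugate of the ghost overlaps to a SIC, and the dimensions 2 and 3
-/

set_option autoImplicit false

namespace Zau

open Ghost Complex Finset
open scoped ComplexConjugate Real
open Pool.Agent.Results.MP_1c78a5_mp.GhostSIC (nu)

/-- `φ` is a Weyl-Heisenberg covariant SIC fiducial in dimension `d`. -/
def IsFid (d : ℕ) [NeZero d] (φ : ZMod d → ℂ) : Prop :=
  ∑ i, ‖φ i‖ ^ 2 = 1 ∧ ∀ a b : ZMod d, ¬(a = 0 ∧ b = 0) → ‖braket φ (displacement d a b) φ‖ ^ 2 = 1 / ((d : ℝ) + 1)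

private lemma sum3 {M : Type*} [AddCommMonoid M] (f : ZMod 3 → M) : ∑ i, f i = f 0 + f 1 + f 2 :=
  Fin.sum_univ_three f

private lemma sum2 {M : Type*} [AddCommMonoid M] (f : ZMod 2 → M) : ∑ i, f i = f 0 + f 1 :=
  Fin.sum_univ_two f

private lemma cases3 (a : ZMod 3) : a = 0 ∨ a = 1 ∨ a = 2 := by
  revert a
  decide

private lemma cases2 (a : ZMod 2) : a = 0 ∨ a = 1 := by
  revert a
  decide

/-- dimension 3: `(0, 1, -1) / √2` -/
theorem fid3 : ∃ φ : ZMod 3 → ℂ, IsFid 3 φ := by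
  set r : ℂ := (((Real.sqrt 2)⁻¹ : ℝ) : ℂ) with hr
  have hr2 : r * r = 1 / 2 := by
    rw [hr, ← Complex.ofReal_mul, ← mul_inv, Real.mul_self_sqrt (by norm_num)]
    norm_num
  have hrc : conj r = r := by rw [hr, Complex.conj_ofReal]
  have hrn : ‖r‖ ^ 2 = 1 / 2 := by
    have h1 := congrArg norm hr2
    rw [norm_mul] at h1
    rw [sq, h1]
    norm_num
  set φ : ZMod 3 → ℂ := ![0, r, -r] with hφ
  have h0 : φ 0 = 0 := rfl
  have h1 : φ 1 = r := rfl
  have h2 : φ 2 = -r := rfl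
  have hch : ∀ c : ZMod 3, ‖(ZMod.stdAddChar c : ℂ)‖ = 1 := by
    intro c
    have : (ZMod.stdAddChar c : ℂ) ^ 3 = 1 := by
      rw [← AddChar.map_nsmul_eq_pow]
      have h3 : 3 • c = 0 := by
        revert c
        decide
      rw [h3, AddChar.map_zero_eq_one]
    exact norm_eq_one_of_pow_eq_one this (by norm_num)
  have e1 : (1 : ZMod 3) + 1 = 2 := by decide
  have e2 : (2 : ZMod 3) + 1 = 0 := by decide
  have e3 : (1 : ZMod 3) + 2 = 0 := by decide
  have e4 : (2 : ZMod 3) + 2 = 1 := by decide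
  refine ⟨φ, ?_, ?_⟩
  · rw [sum3, h0, h1, h2, norm_neg, hrn, norm_zero]
    norm_num
  · intro a b hab
    rw [braket_disp]
    unfold ovl
    rw [sum3]
    rcases cases3 a with rfl | rfl | rfl
    · have hb : b ≠ 0 := fun h => hab ⟨rfl, h⟩
      rw [add_zero, add_zero, add_zero, h0, h1, h2]
      have hs : (ZMod.stdAddChar (b * 1) : ℂ) + ZMod.stdAddChar (b * 2) = -1 := by
        have h3 : ∑ i : ZMod 3, (ZMod.stdAddChar (b * i) : ℂ) = 0 := by
          have := AddChar.sum_mulShift (R := ZMod 3) (R' := ℂ) b (ψ := ZMod.stdAddChar)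
            (ZMod.isPrimitive_stdAddChar 3)
          rw [if_neg hb] at this
          push_cast at this
          rw [← this]
          refine sum_congr rfl fun i _ => ?_
          rw [mul_comm]
        rw [sum3, mul_zero, AddChar.map_zero_eq_one] at h3
        linear_combination h3
      have h4 : conj (0 : ℂ) * (ZMod.stdAddChar (b * 0) * 0) + conj r * (ZMod.stdAddChar (b * 1) * r) +
          conj (-r) * (ZMod.stdAddChar (b * 2) * -r) = -(1 / 2) := by
        rw [map_neg, hrc]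
        linear_combination (r * r) * hs - hr2
      rw [h4, norm_neg]
      norm_num
    · rw [zero_add, e1, e2, h0, h1, h2]
      have h4 : conj r * (ZMod.stdAddChar (b * 0) * 0) + conj (-r) * (ZMod.stdAddChar (b * 1) * r) +
          conj (0 : ℂ) * (ZMod.stdAddChar (b * 2) * -r) = -(1 / 2) * ZMod.stdAddChar (b * 1) := by
        rw [map_neg, hrc, map_zero]
        linear_combination -(ZMod.stdAddChar (b * 1) : ℂ) * hr2
      rw [h4, norm_mul, hch, norm_neg]
      norm_num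
    · rw [zero_add, e3, e4, h0, h1, h2]
      have h4 : conj (-r) * (ZMod.stdAddChar (b * 0) * 0) + conj (0 : ℂ) * (ZMod.stdAddChar (b * 1) * r) +
          conj r * (ZMod.stdAddChar (b * 2) * -r) = -(1 / 2) * ZMod.stdAddChar (b * 2) := by
        rw [hrc, map_zero]
        linear_combination -(ZMod.stdAddChar (b * 2) : ℂ) * hr2
      rw [h4, norm_mul, hch, norm_neg]
      norm_num

/-- dimension 2: `(x, s (1 + i))` with `x ^ 2 = (3 + √3) / 6`, `s ^ 2 = (3 - √3) / 12` -/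
theorem fid2 : ∃ φ : ZMod 2 → ℂ, IsFid 2 φ := by
  have h3 : Real.sqrt 3 ^ 2 = 3 := Real.sq_sqrt (by norm_num)
  have h3' : Real.sqrt 3 ≤ 2 := by
    rw [Real.sqrt_le_left (by norm_num)]
    norm_num
  have h3'' : 0 ≤ Real.sqrt 3 := Real.sqrt_nonneg 3
  obtain ⟨x, hx⟩ : ∃ x : ℝ, x ^ 2 = (3 + Real.sqrt 3) / 6 :=
    ⟨Real.sqrt ((3 + Real.sqrt 3) / 6), Real.sq_sqrt (by positivity)⟩
  obtain ⟨t, ht⟩ : ∃ t : ℝ, t ^ 2 = (3 - Real.sqrt 3) / 12 :=
    ⟨Real.sqrt ((3 - Real.sqrt 3) / 12), Real.sq_sqrt (by linarith)⟩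
  have hxt : x ^ 2 * t ^ 2 = 1 / 12 := by
    rw [hx, ht]
    nlinarith
  set φ : ZMod 2 → ℂ := ![(x : ℂ), (t : ℂ) * (1 + I)] with hφ
  have h0 : φ 0 = x := rfl
  have h1 : φ 1 = t * (1 + I) := rfl
  have hc0 : (ZMod.stdAddChar (0 : ZMod 2) : ℂ) = 1 := AddChar.map_zero_eq_one _
  have hc1 : (ZMod.stdAddChar (1 : ZMod 2) : ℂ) = -1 := by
    have h2 := ZMod.stdAddChar_coe (N := 2) 1
    rw [Int.cast_one] at h2
    rw [h2]
    rw [show (2 * (π : ℂ) * I * ((1 : ℤ) : ℂ) / ((2 : ℕ) : ℂ)) = π * I by push_cast; ring]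
    exact Complex.exp_pi_mul_I
  have e1 : (1 : ZMod 2) + 1 = 0 := by decide
  have hnI : ‖(1 + I : ℂ)‖ ^ 2 = 2 := by
    rw [← Complex.normSq_eq_norm_sq, Complex.normSq_apply]
    norm_num
  have hconj : conj ((t : ℂ) * (1 + I)) = t * (1 - I) := by
    rw [map_mul, map_add, map_one, Complex.conj_I, Complex.conj_ofReal]
    ring
  refine ⟨φ, ?_, ?_⟩
  · rw [sum2, h0, h1, norm_mul, mul_pow, hnI, Complex.norm_real, Complex.norm_real, Real.norm_eq_abs,
      Real.norm_eq_abs, sq_abs, sq_abs, hx, ht]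
    ring
  · intro a b hab
    rw [braket_disp]
    unfold ovl
    rw [sum2]
    rcases cases2 a with rfl | rfl
    · have hb : b = 1 := by
        rcases cases2 b with rfl | rfl
        · exact absurd ⟨rfl, rfl⟩ hab
        · rfl
      subst hb
      rw [add_zero, add_zero, h0, h1, mul_zero, mul_one, hc0, hc1, hconj, Complex.conj_ofReal]
      have h4 : (x : ℂ) * (1 * x) + t * (1 - I) * (-1 * (t * (1 + I))) = ((x ^ 2 - 2 * t ^ 2 : ℝ) : ℂ) := by
        push_cast
        linear_combination (t : ℂ) ^ 2 * I_sq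
      rw [h4, Complex.norm_real, Real.norm_eq_abs, sq_abs, hx, ht]
      push_cast
      nlinarith
    · rw [zero_add, e1, h0, h1]
      rcases cases2 b with rfl | rfl
      · rw [zero_mul, zero_mul, hc0, hconj, Complex.conj_ofReal]
        have h4 : (t : ℂ) * (1 - I) * (1 * x) + x * (1 * (t * (1 + I))) = ((2 * (x * t) : ℝ) : ℂ) := by
          push_cast
          ring
        rw [h4, Complex.norm_real, Real.norm_eq_abs, sq_abs, mul_pow, mul_pow, hxt]
        norm_num
      · rw [mul_zero, mul_one, hc0, hc1, hconj, Complex.conj_ofReal]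
        have h4 : (t : ℂ) * (1 - I) * (1 * x) + x * (-1 * (t * (1 + I))) = ((-(2 * (x * t)) : ℝ) : ℂ) * I := by
          push_cast
          ring
        rw [h4, norm_mul, Complex.norm_I, mul_one, Complex.norm_real, Real.norm_eq_abs, sq_abs, neg_sq, mul_pow,
          mul_pow, hxt]
        norm_num

/-- **The last step.** If the ghost overlaps `nu d a b` have for every `d ≥ 4` a unimodular image under a ring
homomorphism, then Zauner's conjecture holds. -/
theorem sic_of_unimodular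
    (H : ∀ (d : ℕ) [NeZero d], 4 ≤ d → ∃ σ : ℂ →+* ℂ, ∀ a b : ZMod d, ¬(a = 0 ∧ b = 0) → ‖σ (nu d a b)‖ = 1)
    (d : ℕ) [NeZero d] (hd : 2 ≤ d) : ∃ φ : ZMod d → ℂ, IsFid d φ := by
  rcases Nat.lt_or_ge d 4 with h4 | h4
  · have h : d = 2 ∨ d = 3 := by omega
    rcases h with rfl | rfl
    · exact fid2
    · exact fid3
  · obtain ⟨σ, hσ⟩ := H d h4
    obtain ⟨ψ, -, -, -, h⟩ := Pool.Agent.Results.MP_1c78a5_mp.GhostSIC.result d h4
    obtain ⟨φ, -, h1, h2⟩ := h σ hσ
    exact ⟨φ, h1, h2⟩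

end Zau
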