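import Pool.Agent.Lib_zau.ConeJ
import Pool.Agent.Results.MP_1c78a5_mp.GhostSIC

/-!
# The ghost overlaps as cone sums

`nu d a b` is the product of `exp (- LS 1 ε z)` over the three points `z = s + t ε`, `0 < s ≤ 1`,
`0 ≤ t < 1`, which represent `w`, `ε w`, `ε² w` modulo `ℤ + ℤ ε`, where `w = (a + b ε) / d`.
-/

set_option autoImplicit false

open MeasureTheory Set Filter Topology
open scoped Real

namespace Zau.Link

open Zau.Cone Pool.Agent.Results.MP_1c78a5_mp.GhostSIC

/-- `doubleSine` is `exp (- LS)`. -/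
theorem doubleSine_eq (A B z : ℝ) : doubleSine A B z = Real.exp (-LS A B z) := by
  unfold doubleSine LS
  rw [← integral_neg]
  congr 1
  refine integral_congr_ae (Filter.Eventually.of_forall fun t => ?_)
  simp only [dsK]
  have e1 : (2 * z - (A + B)) * t = -((A + B - 2 * z) * t) := by ring
  rw [e1, Real.sinh_neg, div_div]
  ring

/-- The functional equation. -/
theorem LS_add_one {B x : ℝ} (hB : 0 < B) (h0 : 0 < x) (h1 : x < B) :
    LS 1 B (x + 1) = LS 1 B x + Real.log (2 * Real.sin (π * x / B)) := by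
  set r : ℝ := Real.sqrt B with hr
  have hr0 : 0 < r := Real.sqrt_pos.2 hB
  have hr2 : r * r = B := Real.mul_self_sqrt hB.le
  set P : Ghost.Par := ⟨1 / r, r, by positivity, hr0, by field_simp⟩ with hP
  have hPb : P.b = 1 / r := rfl
  have hPo : P.o = r := rfl
  have key : ∀ y : ℝ, 0 < y → y < 1 + B → Ghost.II P ((y / r : ℝ) : ℂ) = ((-LS 1 B y : ℝ) : ℂ) := by
    intro y hy0 hy1
    rw [Ghost.EXPL_II, hPb, hPo]
    have h2 : LS (1 / r) r (y / r) = LS 1 B y := by
      have h3 := LS_scale (A := 1) (B := B) (z := y) one_pos hB hy0 hy1 (c := 1 / r) (by positivity)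
      rw [← h3]
      congr 1
      · ring
      · rw [← hr2]
        field_simp
      · ring
    rw [← h2]
    unfold LS
    rw [← integral_neg]
    congr 1
    refine integral_congr_ae (Filter.Eventually.of_forall fun t => ?_)
    simp only [dsK]
    have e1 : (2 * (y / r) - (1 / r + r)) * t = -((1 / r + r - 2 * (y / r)) * t) := by ring
    rw [e1, Real.sinh_neg, div_div]
    ring
  have hx : ((x / r : ℝ) : ℂ).re = x / r := Complex.ofReal_re _
  have h2 := Ghost.II_add_b P (x := ((x / r : ℝ) : ℂ)) (by rw [hx]; positivity)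
    (by rw [hx, hPo, div_lt_iff₀ hr0, hr2]; exact h1)
  have h3 : ((x / r : ℝ) : ℂ) + (P.b : ℂ) = (((x + 1) / r : ℝ) : ℂ) := by
    rw [hPb]
    push_cast
    ring
  have h4 : (P.b : ℂ) * ((x / r : ℝ) : ℂ) = ((x / B : ℝ) : ℂ) := by
    rw [hPb, ← hr2]
    push_cast
    field_simp
  rw [h3, h4, key x h0 (by linarith), key (x + 1) (by linarith) (by linarith)] at h2
  have h5 : 0 < x / B := by positivity
  have h6 : x / B < 1 := (div_lt_one hB).2 h1
  have h7 := Ghost.exp_neg_Phi (z := ((x / B : ℝ) : ℂ)) (by rw [Complex.ofReal_re]; exact h5)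
    (by rw [Complex.ofReal_re]; exact h6)
  have h8 : Ghost.Phi ((x / B : ℝ) : ℂ) = ((LS 1 B x - LS 1 B (x + 1) : ℝ) : ℂ) := by
    push_cast
    push_cast at h2
    linear_combination -h2
  rw [h8] at h7
  have h9 : Real.exp (LS 1 B (x + 1) - LS 1 B x) = 2 * Real.sin (π * x / B) := by
    have h10 : Complex.exp (-((LS 1 B x - LS 1 B (x + 1) : ℝ) : ℂ)) =
        ((Real.exp (LS 1 B (x + 1) - LS 1 B x) : ℝ) : ℂ) := by
      rw [Complex.ofReal_exp]
      congr 1
      push_cast
      ring
    rw [h10] at h7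
    have h11 : (2 : ℂ) * Complex.sin (π * ((x / B : ℝ) : ℂ)) =
        ((2 * Real.sin (π * x / B) : ℝ) : ℂ) := by
      push_cast
      rw [mul_div_assoc]
    rw [h11] at h7
    exact_mod_cast h7
  rw [← h9, Real.log_exp]
  ring

/-- The unit. -/
theorem beta_sq {d : ℕ} (hd : 4 ≤ d) : beta d * beta d = Ghost.epsd d := by
  have h := Ghost.epsd_pos hd
  unfold beta
  exact Real.mul_self_sqrt (by unfold Ghost.epsd at h; linarith)

/-- The representative in the parallelogram `{s + t ε : 0 < s ≤ 1, 0 ≤ t < 1}`. -/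
noncomputable def zpt (d : ℕ) (a b : ZMod d) : ℝ :=
  ((if a = 0 then (d : ℝ) else a.val) + b.val * Ghost.epsd d) / d

/-- The correction. -/
noncomputable def corr (d : ℕ) (a b : ZMod d) : ℝ :=
  (if a = 0 then Real.sqrt (2 * Real.sin (π * b.val / d)) else 1) *
    (if b = 0 then (Real.sqrt (2 * Real.sin (π * a.val / d)))⁻¹ else 1)

theorem sin_val_pos {d : ℕ} [NeZero d] {x : ZMod d} (hx : x ≠ 0) :
    0 < Real.sin (π * x.val / d) := by
  have h0 : (0 : ℤ) < (x.val : ℤ) := by
    have : 0 < x.val := Nat.pos_of_ne_zero fun h0 => hx ((ZMod.val_eq_zero x).1 h0)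
    exact_mod_cast this
  have h1 : (x.val : ℤ) < d := by exact_mod_cast ZMod.val_lt x
  exact_mod_cast Ghost.EXPL_sin_pos h0 h1

theorem factor_eq {d : ℕ} [NeZero d] (hd : 4 ≤ d) {a b : ZMod d} (h : ¬(a = 0 ∧ b = 0)) :
    factor d a b = Real.exp (-LS 1 (Ghost.epsd d) (zpt d a b)) * corr d a b := by
  have hd0 : (0 : ℝ) < d := by
    have : 0 < d := by omega
    exact_mod_cast this
  have he1 := Ghost.epsd_pos hd
  have he0 : 0 < Ghost.epsd d := by linarith
  set ε := Ghost.epsd d with hε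
  have hβ2 := beta_sq hd
  have hβ : 0 < beta d := by
    have h1 := Ghost.epsd_pos hd
    unfold beta
    exact Real.sqrt_pos.2 (by unfold Ghost.epsd at h1; linarith)
  have hv : ∀ x : ZMod d, x ≠ 0 → (0 : ℝ) < x.val := by
    intro x hx
    have : 0 < x.val := Nat.pos_of_ne_zero fun h0 => hx ((ZMod.val_eq_zero x).1 h0)
    exact_mod_cast this
  have hv1 : ∀ x : ZMod d, (x.val : ℝ) < d := by
    intro x
    exact_mod_cast ZMod.val_lt x
  have hv0 : ∀ x : ZMod d, (0 : ℝ) ≤ x.val := fun x => by positivity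
  -- the value at the representative with `0 ≤ a, b < d`
  have hpos : 0 < (a.val + b.val * ε) / d := by
    by_cases ha : a = 0
    · have hb : b ≠ 0 := fun hb => h ⟨ha, hb⟩
      have := hv b hb
      have := hv0 a
      positivity
    · have := hv a ha
      have := hv0 b
      positivity
  have hlt : (a.val + b.val * ε) / d < 1 + ε := by
    rw [div_lt_iff₀ hd0]
    nlinarith [hv1 a, hv1 b]
  have hds : doubleSine (beta d) (beta d)⁻¹ ((a.val * (beta d)⁻¹ + b.val * beta d) / d) =
      Real.exp (-LS 1 ε ((a.val + b.val * ε) / d)) := by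
    rw [doubleSine_eq]
    have h3 := LS_scale (A := ε) (B := 1) (z := (a.val + b.val * ε) / d) he0 one_pos hpos
      (by linarith) (c := (beta d)⁻¹) (by positivity)
    have h4 : (beta d)⁻¹ * ε = beta d := by
      rw [hε, ← hβ2]
      field_simp
    have h5 : (beta d)⁻¹ * ((a.val + b.val * ε) / d) =
        (a.val * (beta d)⁻¹ + b.val * beta d) / d := by
      have h6 : (beta d)⁻¹ * ((a.val + b.val * ε) / d) =
          (a.val * (beta d)⁻¹ + b.val * ((beta d)⁻¹ * ε)) / d := by ring
      rw [h6, h4]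
    rw [h4, mul_one, h5] at h3
    rw [h3, LS_swap]
  unfold factor corr zpt
  rw [hds]
  by_cases ha : a = 0
  · have hb : b ≠ 0 := fun hb => h ⟨ha, hb⟩
    subst ha
    have hb0 := hv b hb
    have hs := sin_val_pos hb
    have hsq : 0 < Real.sqrt (2 * Real.sin (π * b.val / d)) := Real.sqrt_pos.2 (by positivity)
    have hss : Real.sqrt (2 * Real.sin (π * b.val / d)) * Real.sqrt (2 * Real.sin (π * b.val / d)) =
        2 * Real.sin (π * b.val / d) := Real.mul_self_sqrt (by positivity)
    simp only [if_true, if_neg hb, mul_one, ZMod.val_zero, Nat.cast_zero, zero_add]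
    have h6 : ((d : ℝ) + b.val * ε) / d = b.val * ε / d + 1 := by
      field_simp
      ring
    have h7 : π * (b.val * ε / d) / ε = π * b.val / d := by
      field_simp
    have h8 := LS_add_one (B := ε) (x := b.val * ε / d) he0 (by positivity)
      (by rw [div_lt_iff₀ hd0]; nlinarith [hv1 b])
    rw [h7] at h8
    have h9 : Real.exp (-LS 1 ε (b.val * ε / d + 1)) =
        Real.exp (-LS 1 ε (b.val * ε / d)) * (2 * Real.sin (π * b.val / d))⁻¹ := by
      rw [h8, neg_add, Real.exp_add, Real.exp_neg (Real.log _), Real.exp_log (by positivity)]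
    have h10 : (2 * Real.sin (π * b.val / d))⁻¹ * Real.sqrt (2 * Real.sin (π * b.val / d)) =
        (Real.sqrt (2 * Real.sin (π * b.val / d)))⁻¹ := by
      refine eq_inv_of_mul_eq_one_left ?_
      rw [mul_assoc, hss]
      exact inv_mul_cancel₀ (by positivity)
    rw [h6, h9, mul_assoc, h10]
  · simp only [if_neg ha, mul_one, one_mul, ← hε]

theorem corr_prod {d : ℕ} [NeZero d] {a b : ZMod d} (h : ¬(a = 0 ∧ b = 0)) :
    corr d a b * corr d (b - a) (-a) * corr d (-b) (a - b) = 1 := by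
  have hpos : ∀ x : ZMod d, x ≠ 0 → Real.sqrt (2 * Real.sin (π * x.val / d)) ≠ 0 := fun x hx =>
    (Real.sqrt_pos.2 (mul_pos two_pos (sin_val_pos hx))).ne'
  by_cases ha : a = 0
  · have hb : b ≠ 0 := fun hb => h ⟨ha, hb⟩
    have hb' : -b ≠ 0 := neg_ne_zero.2 hb
    have h1 := hpos b hb
    subst ha
    unfold corr
    simp only [if_true, sub_zero, neg_zero, zero_sub, if_neg hb, if_neg hb', mul_one, one_mul]
    exact mul_inv_cancel₀ h1
  by_cases hb : b = 0
  · have ha' : -a ≠ 0 := neg_ne_zero.2 ha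
    have h1 := hpos a ha
    subst hb
    unfold corr
    simp only [if_true, sub_zero, neg_zero, zero_sub, if_neg ha, if_neg ha', mul_one, one_mul]
    exact inv_mul_cancel₀ h1
  have ha' : -a ≠ 0 := neg_ne_zero.2 ha
  have hb' : -b ≠ 0 := neg_ne_zero.2 hb
  by_cases hab : a = b
  · subst hab
    have h1 := hpos (-a) ha'
    unfold corr
    simp only [if_true, sub_self, if_neg ha, if_neg ha', mul_one, one_mul]
    exact mul_inv_cancel₀ h1
  · have h1 : a - b ≠ 0 := sub_ne_zero.2 hab
    have h2 : b - a ≠ 0 := sub_ne_zero.2 (Ne.symm hab)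
    unfold corr
    simp only [if_neg ha, if_neg hb, if_neg ha', if_neg hb', if_neg h1, if_neg h2, mul_one]

/-- The ghost overlap as a product of three values of the double sine function. -/
theorem nu_eq_exp {d : ℕ} [NeZero d] (hd : 4 ≤ d) {a b : ZMod d} (h : ¬(a = 0 ∧ b = 0)) :
    nu d a b = Real.exp (-(LS 1 (Ghost.epsd d) (zpt d a b) +
      LS 1 (Ghost.epsd d) (zpt d (b - a) (-a)) + LS 1 (Ghost.epsd d) (zpt d (-b) (a - b)))) := by
  have h2 : ¬(b - a = 0 ∧ -a = 0) := by
    rintro ⟨h1, h2⟩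
    rw [neg_eq_zero] at h2
    rw [h2, sub_zero] at h1
    exact h ⟨h2, h1⟩
  have h3 : ¬(-b = 0 ∧ a - b = 0) := by
    rintro ⟨h1, h2⟩
    rw [neg_eq_zero] at h1
    rw [h1, sub_zero] at h2
    exact h ⟨h2, h1⟩
  unfold nu
  rw [factor_eq hd h, factor_eq hd h2, factor_eq hd h3, neg_add, neg_add, Real.exp_add,
    Real.exp_add]
  linear_combination (Real.exp (-LS 1 (Ghost.epsd d) (zpt d a b)) *
    Real.exp (-LS 1 (Ghost.epsd d) (zpt d (b - a) (-a))) *
    Real.exp (-LS 1 (Ghost.epsd d) (zpt d (-b) (a - b)))) * corr_prod h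

end Zau.Link
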