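import Pool.Agent.Lib_zau.ConeD
import Pool.Agent.Lib_zau.Link

/-!
# The ghost overlaps and the cone sums of level three

`nu d a b = exp (- BO L (ε ^ 3) (1, 1) w)` for `L = ℤ + ℤ ε` and `w = (a + b ε) / d`.
-/

set_option autoImplicit false

open MeasureTheory Set Filter Topology
open scoped Real

namespace Zau.Link

open Zau.Cone Pool.Agent.Results.MP_1c78a5_mp.GhostSIC

/-- The embedding of `x + y ε`. -/
noncomputable def io (ε x y : ℝ) : ℝ × ℝ := (x + y * ε, x + y * ε⁻¹)

/-- `L` is the lattice `ℤ + ℤ ε`. -/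
def IsZE (ε : ℝ) (L : AddSubgroup (ℝ × ℝ)) : Prop := ∀ z, z ∈ L ↔ ∃ i j : ℤ, z = io ε i j

theorem io_sub (ε x y x' y' : ℝ) : io ε x y - io ε x' y' = io ε (x - x') (y - y') := by
  unfold io
  ext
  · simp only [Prod.fst_sub]; ring
  · simp only [Prod.snd_sub]; ring

theorem io_inj {ε x y x' y' : ℝ} (hε : 1 < ε) (h : io ε x y = io ε x' y') : x = x' ∧ y = y' := by
  have h1 := congrArg Prod.fst h
  have h2 := congrArg Prod.snd h
  simp only [io] at h1 h2
  have h3 : (y - y') * (ε - ε⁻¹) = 0 := by linear_combination h1 - h2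
  have h4 : ε⁻¹ < 1 := inv_lt_one_of_one_lt₀ hε
  have h5 : ε - ε⁻¹ ≠ 0 := by
    intro h
    linarith
  have h6 : y = y' := by
    rcases mul_eq_zero.1 h3 with h | h
    · linarith
    · exact absurd h h5
  refine ⟨?_, h6⟩
  rw [h6] at h1
  linarith

theorem io_mem {ε : ℝ} {L : AddSubgroup (ℝ × ℝ)} (hε : 1 < ε) (hL : IsZE ε L) (x y : ℝ) :
    io ε x y ∈ L ↔ (∃ i : ℤ, x = i) ∧ ∃ j : ℤ, y = j := by
  rw [hL]
  constructor
  · rintro ⟨i, j, h⟩
    obtain ⟨h1, h2⟩ := io_inj hε h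
    exact ⟨⟨i, h1⟩, ⟨j, h2⟩⟩
  · rintro ⟨⟨i, hi⟩, ⟨j, hj⟩⟩
    exact ⟨i, j, by rw [hi, hj]⟩

theorem one_mem {ε : ℝ} {L : AddSubgroup (ℝ × ℝ)} (hL : IsZE ε L) : ((1 : ℝ), (1 : ℝ)) ∈ L := by
  rw [hL]
  refine ⟨1, 0, ?_⟩
  unfold io
  simp

theorem act_io {ε n x y : ℝ} (hε : 1 < ε) (hrel : ε ^ 2 - n * ε + 1 = 0) :
    act ε (io ε x y) = io ε (-y) (x + n * y) := by
  have h0 : ε ≠ 0 := by
    intro h
    rw [h] at hε
    linarith
  unfold act io
  ext
  · simp only
    linear_combination y * hrel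
  · simp only
    have h1 : n = ε + ε⁻¹ := by
      field_simp
      linear_combination -hrel
    rw [h1]
    field_simp
    ring

theorem stab_ZE {ε : ℝ} {n : ℤ} {L : AddSubgroup (ℝ × ℝ)} (hε : 1 < ε)
    (hrel : ε ^ 2 - n * ε + 1 = 0) (hL : IsZE ε L) : Stab L ε := by
  intro x
  constructor
  · intro hx
    obtain ⟨i, j, rfl⟩ := (hL _).1 hx
    rw [act_io hε hrel, io_mem hε hL]
    exact ⟨⟨-j, by push_cast; ring⟩, ⟨i + n * j, by push_cast; ring⟩⟩
  · intro hx
    obtain ⟨i, j, hij⟩ := (hL _).1 hx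
    have h0 : ε ≠ 0 := by
      intro h
      rw [h] at hε
      linarith
    have h2 : act ε (io ε (n * i + j) (-i)) = act ε x := by
      rw [hij, act_io hε hrel]
      congr 1
      · ring
      · ring
    have h3 : x = io ε (n * i + j) (-i) := by
      have e1 := congrArg Prod.fst h2
      have e2 := congrArg Prod.snd h2
      simp only [act] at e1 e2
      have e1' := mul_left_cancel₀ h0 e1
      have e2' := mul_left_cancel₀ (inv_ne_zero h0) e2
      exact Prod.ext e1'.symm e2'.symm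
    rw [h3, io_mem hε hL]
    exact ⟨⟨n * i + j, by push_cast; ring⟩, ⟨-i, by push_cast; ring⟩⟩

/-- The parallelogram of `1` and `ε` contains one point of each coset. -/
theorem BO_unit {ε s t x y : ℝ} {L : AddSubgroup (ℝ × ℝ)} (hε : 1 < ε) (hL : IsZE ε L)
    (hs0 : 0 < s) (hs1 : s ≤ 1) (ht0 : 0 ≤ t) (ht1 : t < 1) (hx : ∃ i : ℤ, s - x = i)
    (hy : ∃ j : ℤ, t - y = j) : BO L ε (1, 1) (io ε x y) = LS 1 ε (s + t * ε) := by
  have hpar : Par L (io ε x y) (1, 1) (act ε (1, 1)) = {io ε s t} := by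
    ext z
    simp only [Par, mem_singleton_iff, mem_ofPred_eq]
    constructor
    · rintro ⟨h1, s', t', hs0', hs1', ht0', ht1', h2, h3⟩
      have hz : z = io ε s' t' := by
        ext
        · rw [h2]; simp only [act, io]; ring
        · rw [h3]; simp only [act, io]; ring
      rw [hz, io_sub, io_mem hε hL] at h1
      obtain ⟨⟨i', hi'⟩, ⟨j', hj'⟩⟩ := h1
      obtain ⟨i, hi⟩ := hx
      obtain ⟨j, hj⟩ := hy
      have e1 : s' - s = ((i' - i : ℤ) : ℝ) := by push_cast; linarith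
      have e2 : t' - t = ((j' - j : ℤ) : ℝ) := by push_cast; linarith
      have e3 : i' - i = 0 := by
        have a1 : ((i' - i : ℤ) : ℝ) < 1 := by rw [← e1]; linarith
        have a2 : (-1 : ℝ) < ((i' - i : ℤ) : ℝ) := by rw [← e1]; linarith
        have a3 : i' - i < 1 := by exact_mod_cast a1
        have a4 : -1 < i' - i := by exact_mod_cast a2
        omega
      have e4 : j' - j = 0 := by
        have a1 : ((j' - j : ℤ) : ℝ) < 1 := by rw [← e2]; linarith
        have a2 : (-1 : ℝ) < ((j' - j : ℤ) : ℝ) := by rw [← e2]; linarith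
        have a3 : j' - j < 1 := by exact_mod_cast a1
        have a4 : -1 < j' - j := by exact_mod_cast a2
        omega
      rw [e3] at e1
      rw [e4] at e2
      rw [hz]
      congr 1
      · push_cast at e1; linarith
      · push_cast at e2; linarith
    · rintro rfl
      refine ⟨?_, s, t, hs0, hs1, ht0, ht1, ?_, ?_⟩
      · rw [io_sub, io_mem hε hL]
        exact ⟨hx, hy⟩
      · simp only [act, io]; ring
      · simp only [act, io]; ring
  unfold BO BB
  rw [hpar, finsum_mem_singleton]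
  simp only [act, io, mul_one]

theorem val_cong {d : ℕ} [NeZero d] {x : ZMod d} {k : ℤ} (h : x = (k : ZMod d)) :
    ∃ i : ℤ, (x.val : ℝ) / d - k / d = i := by
  have hd0 : (d : ℝ) ≠ 0 := by exact_mod_cast (NeZero.ne d)
  have h1 : ((x.val : ℤ) : ZMod d) = (k : ZMod d) := by
    rw [← h]
    push_cast
    exact ZMod.natCast_zmod_val x
  rw [ZMod.intCast_eq_intCast_iff_dvd_sub] at h1
  obtain ⟨c, hc⟩ := h1
  refine ⟨-c, ?_⟩
  have h2 : (k : ℝ) - x.val = d * c := by exact_mod_cast hc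
  field_simp
  push_cast
  linarith

/-- The point `(p + q ε) / d`. -/
noncomputable def W (d : ℕ) (p q : ZMod d) : ℝ × ℝ :=
  io (Ghost.epsd d) ((p.val : ℝ) / d) ((q.val : ℝ) / d)

theorem BO_W {d : ℕ} [NeZero d] (hd : 4 ≤ d) {L : AddSubgroup (ℝ × ℝ)}
    (hL : IsZE (Ghost.epsd d) L) (p q : ZMod d) :
    BO L (Ghost.epsd d) (1, 1) (W d p q) = LS 1 (Ghost.epsd d) (zpt d p q) := by
  have hd0 : (0 : ℝ) < d := by
    have : 0 < d := by omega
    exact_mod_cast this
  have hv1 : ∀ x : ZMod d, (x.val : ℝ) < d := by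
    intro x
    exact_mod_cast ZMod.val_lt x
  have hz : zpt d p q = (if p = 0 then (1 : ℝ) else (p.val : ℝ) / d) +
      ((q.val : ℝ) / d) * Ghost.epsd d := by
    unfold zpt
    split_ifs
    · field_simp
    · ring
  rw [hz]
  refine BO_unit (Ghost.epsd_pos hd) hL ?_ ?_ (by positivity)
    (by rw [div_lt_one hd0]; exact hv1 q) ?_ ⟨0, by simp⟩
  · split_ifs with hp
    · exact one_pos
    · have : 0 < p.val := Nat.pos_of_ne_zero fun h0 => hp ((ZMod.val_eq_zero p).1 h0)
      have : (0 : ℝ) < p.val := by exact_mod_cast this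
      positivity
  · split_ifs with hp
    · exact le_refl _
    · rw [div_le_one hd0]
      exact (hv1 p).le
  · split_ifs with hp
    · refine ⟨1, ?_⟩
      rw [hp]
      simp
    · exact ⟨0, by simp⟩

/-- **The link.** -/
theorem nu_BO {d : ℕ} [NeZero d] (hd : 4 ≤ d) {L : AddSubgroup (ℝ × ℝ)} (hLat : IsLat L)
    (hL : IsZE (Ghost.epsd d) L) {a b : ZMod d} (h : ¬(a = 0 ∧ b = 0)) :
    nu d a b = Real.exp (-(BO L (Ghost.epsd d ^ 3) (1, 1) (W d a b))) := by
  have hε := Ghost.epsd_pos hd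
  have hrel : Ghost.epsd d ^ 2 - (((d : ℤ) - 1 : ℤ) : ℝ) * Ghost.epsd d + 1 = 0 := by
    have := Ghost.epsd_rel hd
    push_cast
    exact this
  have hd0 : (d : ℝ) ≠ 0 := by exact_mod_cast (NeZero.ne d)
  have hS := stab_ZE hε hrel hL
  -- the three inverse images
  let u : ℕ → ℝ × ℝ := fun i => if i = 0 then W d a b else if i = 1 then W d (b - a) (-a) else
    W d (-b) (a - b)
  have ha := val_cong (x := a) (k := a.val) (by push_cast; exact (ZMod.natCast_zmod_val a).symm)
  have key : ∀ p q : ZMod d, ∀ x y : ℤ, p = (x : ZMod d) → q = (y : ZMod d) →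
      ∃ i j : ℤ, W d p q = io (Ghost.epsd d) ((x : ℝ) / d + i) ((y : ℝ) / d + j) := by
    intro p q x y hp hq
    obtain ⟨i, hi⟩ := val_cong hp
    obtain ⟨j, hj⟩ := val_cong hq
    refine ⟨i, j, ?_⟩
    unfold W
    congr 1
    · linarith
    · linarith
  have hav : a = ((a.val : ℤ) : ZMod d) := by push_cast; exact (ZMod.natCast_zmod_val a).symm
  have hbv : b = ((b.val : ℤ) : ZMod d) := by push_cast; exact (ZMod.natCast_zmod_val b).symm
  obtain ⟨A, hA⟩ : ∃ A : ℤ, A = a.val := ⟨_, rfl⟩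
  obtain ⟨B, hB⟩ : ∃ B : ℤ, B = b.val := ⟨_, rfl⟩
  have hav' : a = (A : ZMod d) := by rw [hA]; exact hav
  have hbv' : b = (B : ZMod d) := by rw [hB]; exact hbv
  have hu : ∀ i < 3, act (Ghost.epsd d ^ i) (u i) - W d a b ∈ L := by
    obtain ⟨i0, j0, e0⟩ := key a b A B hav' hbv'
    obtain ⟨i1, j1, e1⟩ := key (b - a) (-a) (B - A) (-A) (by rw [hav', hbv']; push_cast; ring)
      (by rw [hav']; push_cast; ring)
    obtain ⟨i2, j2, e2⟩ := key (-b) (a - b) (-B) (A - B) (by rw [hbv']; push_cast; ring)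
      (by rw [hav', hbv']; push_cast; ring)
    intro i hi
    interval_cases i
    · have h1 : act (Ghost.epsd d ^ 0) (u 0) = W d a b := by
        show act (Ghost.epsd d ^ 0) (W d a b) = W d a b
        unfold act
        ext
        · simp
        · simp
      rw [h1, sub_self]
      exact L.zero_mem
    · show act (Ghost.epsd d ^ 1) (W d (b - a) (-a)) - W d a b ∈ L
      rw [pow_one, e1, act_io hε hrel, e0, io_sub, io_mem hε hL]
      refine ⟨⟨-j1 - i0, ?_⟩, ⟨i1 + (d - 1) * j1 - j0 - A, ?_⟩⟩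
      · push_cast
        ring
      · push_cast
        field_simp
        ring
    · show act (Ghost.epsd d ^ 2) (W d (-b) (a - b)) - W d a b ∈ L
      rw [← act_iter 2]
      show act (Ghost.epsd d) (act (Ghost.epsd d) (W d (-b) (a - b))) - W d a b ∈ L
      rw [e2, act_io hε hrel, act_io hε hrel, e0, io_sub, io_mem hε hL]
      refine ⟨⟨-(i2 + (d - 1) * j2) - (A - B) - i0, ?_⟩,
        ⟨-j2 + (d - 1) * (i2 + (d - 1) * j2) + (d - 1) * (A - B) - A - j0, ?_⟩⟩
      · push_cast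
        field_simp
        ring
      · push_cast
        field_simp
        ring
  have h3 := BO_pow_gen (w := W d a b) hLat hε hS (one_mem hL) one_pos one_pos u (j := 3)
    (by norm_num) hu
  have h4 : ∑ i ∈ Finset.range 3, BO L (Ghost.epsd d) (1, 1) (u i) =
      LS 1 (Ghost.epsd d) (zpt d a b) + LS 1 (Ghost.epsd d) (zpt d (b - a) (-a)) +
        LS 1 (Ghost.epsd d) (zpt d (-b) (a - b)) := by
    rw [Finset.sum_range_succ, Finset.sum_range_succ, Finset.sum_range_succ, Finset.sum_range_zero,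
      zero_add, ← BO_W hd hL, ← BO_W hd hL, ← BO_W hd hL]
    rfl
  rw [h3, h4]
  exact nu_eq_exp hd h

end Zau.Link
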