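import Pool.Agent.Lib_zau.ConeU
import Pool.Agent.Lib_zau.Link2

/-!
# B12: `nu d a b ^ 2 = exp (3 rho (a / d, b / d))`
-/

set_option autoImplicit false

open MeasureTheory Set Filter Topology
open scoped Real

namespace Zau.Link

open Zau.Cone Pool.Agent.Results.MP_1c78a5_mp.GhostSIC

theorem ep_eq (d : ℕ) : ep ((d : ℤ) - 1) = Ghost.epsd d := by
  unfold ep Ghost.epsd
  push_cast
  congr 3
  ring

theorem isZE_LR {d : ℕ} (hd : 4 ≤ d) : IsZE (Ghost.epsd d) (LR (ep ((d : ℤ) - 1)) Lam) := by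
  have hep := ep_eq d
  intro z
  rw [hep]
  constructor
  · intro h
    obtain ⟨w, ⟨i, j, hij⟩, rfl⟩ := AddSubgroup.mem_map.1 h
    refine ⟨i, j, ?_⟩
    rw [hij, io_apply]
    unfold io
    push_cast
    rfl
  · rintro ⟨i, j, rfl⟩
    refine AddSubgroup.mem_map.2 ⟨((i : ℚ), (j : ℚ)), ⟨i, j, rfl⟩, ?_⟩
    rw [io_apply]
    unfold io
    push_cast
    rfl

/-- **B12.** -/
theorem nu_sq {d : ℕ} [NeZero d] (hd : 4 ≤ d) {a b : ZMod d} (h : ¬(a = 0 ∧ b = 0)) :
    nu d a b ^ 2 = Real.exp (3 * rhoT ((d : ℤ) - 1) ((a.val : ℚ) / d, (b.val : ℚ) / d)) := by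
  have hn : (3 : ℤ) ≤ (d : ℤ) - 1 := by
    have : (4 : ℤ) ≤ d := by exact_mod_cast hd
    linarith
  have hd0 : (d : ℚ) ≠ 0 := by exact_mod_cast (NeZero.ne d)
  have hε := Ghost.epsd_pos hd
  have hep := ep_eq d
  have hZ := isZE_LR hd
  have hLat : IsLat (LR (ep ((d : ℤ) - 1)) Lam) := isLat_Lam (ep_gt hn)
  have h1 := nu_BO hd hLat hZ h
  set x : ℚ × ℚ := ((a.val : ℚ) / d, (b.val : ℚ) / d) with hx
  have hlt : ∀ y : ZMod d, (y.val : ℚ) / d < 1 := by
    intro y
    rw [div_lt_one (by have : 0 < d := by omega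
                       exact_mod_cast this)]
    exact_mod_cast ZMod.val_lt y
  have hnn : ∀ y : ZMod d, (0 : ℚ) ≤ (y.val : ℚ) / d := fun y => by positivity
  have hval : ∀ y : ZMod d, ∀ i : ℤ, (y.val : ℚ) / d = i → y = 0 := by
    intro y i hi
    have e1 : (i : ℚ) < 1 := by rw [← hi]; exact hlt y
    have e2 : (0 : ℚ) ≤ i := by rw [← hi]; exact hnn y
    have e3 : i = 0 := by
      have a1 : i < 1 := by exact_mod_cast e1
      have a2 : 0 ≤ i := by exact_mod_cast e2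
      omega
    rw [e3] at hi
    push_cast at hi
    rw [div_eq_zero_iff] at hi
    rcases hi with hi | hi
    · exact (ZMod.val_eq_zero y).1 (by exact_mod_cast hi)
    · exact absurd hi hd0
  have hxL : x ∉ Lam := by
    rintro ⟨i, j, hij⟩
    have e1 : (a.val : ℚ) / d = i := congrArg Prod.fst hij
    have e2 : (b.val : ℚ) / d = j := congrArg Prod.snd hij
    exact h ⟨hval a i e1, hval b j e2⟩
  have hxK : (E ((d : ℤ) - 1) ^ 3) x - x ∈ Lam := by
    obtain ⟨n, hnn'⟩ : ∃ n : ℤ, n = (d : ℤ) - 1 := ⟨_, rfl⟩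
    have hdn : (d : ℚ) = n + 1 := by
      rw [hnn']
      push_cast
      ring
    refine ⟨-a.val - (n - 1) * b.val, (n - 1) * a.val + (n ^ 2 - n - 1) * b.val, ?_⟩
    rw [← hnn', E_succ, E_succ, E_succ, pow_zero]
    show E n (E n (E n x)) - x = _
    have hdn0 : (n : ℚ) + 1 ≠ 0 := by rw [← hdn]; exact hd0
    rw [E_apply, E_apply, E_apply, hx, hdn]
    ext
    · simp only [Prod.fst_sub]
      push_cast
      field_simp
      ring
    · simp only [Prod.snd_sub]
      push_cast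
      field_simp
      ring
  have h2 := BO_Lam hn (K := 3) (by norm_num) hxL hxK (m := (1, 1)) (one_mem hZ) one_pos one_pos
  have h3 : Cone.io (ep ((d : ℤ) - 1)) x = W d a b := by
    rw [io_apply, hep, hx]
    unfold W io
    push_cast
    rfl
  rw [h3, hep] at h2
  rw [hep] at h1
  rw [h1, ← Real.exp_nat_mul]
  congr 1
  push_cast at h2 ⊢
  linarith

end Zau.Link
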