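import Pool.Agent.Lib_zau.GamD
import Pool.Agent.Lib_zau.LensMk
import Pool.Agent.Lib_zau.GLDefs
import Pool.Agent.Lib_zau.ConeD
import Pool.Agent.Lib_MP_1c78a5_ghost.Expl

/-!
# Zauner (MP_1c78a5_mp), block B6: the ghost solution and the cone sums

`bG w / bG (-w) = exp (-2 BO L om l0 w)` for `w ≠ 0`.
-/

set_option autoImplicit false

open Complex MeasureTheory Set Filter Topology
open scoped Real ComplexConjugate

namespace Zau.LB

open Ghost Zau Zau.Cone

/-- `Ghost.II` is minus the logarithm `LS`. -/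
theorem II_eq_LS (P : Par) (x : ℝ) : II P (x : ℂ) = ((-LS P.b P.o x : ℝ) : ℂ) := by
  rw [EXPL_II]
  refine congrArg (fun z : ℝ => (z : ℂ)) ?_
  unfold LS
  rw [← integral_neg]
  refine setIntegral_congr_fun measurableSet_Ioi fun t _ => ?_
  simp only [dsK]
  have e1 : (2 * x - (P.b + P.o)) * t = -((P.b + P.o - 2 * x) * t) := by ring
  rw [e1, Real.sinh_neg, div_div]
  ring

/-- `G = exp LS` on the real axis. -/
theorem G_eq_LS {om : ℝ} (h : IsU om) {z : ℝ} (h0 : 0 < z) (h1 : z < 1 + om) :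
    G (Pom om) (xo om (z : ℂ)) = ((Real.exp (LS 1 om z) : ℝ) : ℂ) := by
  have h3 : xo om (z : ℂ) = (((Pom om).o * z : ℝ) : ℂ) := by
    unfold xo
    push_cast
    ring
  have ho := (Pom om).ho
  have hQ : (Pom om).Q = (1 + om) * (Pom om).o := by
    unfold Par.Q
    rw [← omo h.pos]
    ring
  rw [h3, G_eq_G0 _ h.o_lt_b (by rw [Complex.ofReal_re]; positivity)
    (by rw [Complex.ofReal_re, hQ]; nlinarith)]
  unfold G0
  rw [II_eq_LS]
  have h4 := LS_scale (A := om) (B := 1) (z := z) h.pos one_pos h0 (by linarith) ho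
  rw [mul_comm (Pom om).o om, omo h.pos, mul_one] at h4
  rw [h4, LS_swap, ← Complex.ofReal_neg, neg_neg, Complex.ofReal_exp]

/-- The `i`-th point of the parallelogram (coordinates in units of `l0`), `o ∈ {om, om⁻¹}`. -/
noncomputable def zpt (N : ℕ) (U b : ℤ) (r m o : ℝ) (i : ℕ) : ℝ :=
  (r * (o - 1) / m + i * o + rho N U b i) / N

theorem zz_real (N : ℕ) (U : ℤ) (om : ℝ) (b : ℤ) (r m : ℝ) (i : ℕ) :
    zz N U om b i (((r * (om - 1) / m : ℝ)) : ℂ) = ((zpt N U b r m om i : ℝ) : ℂ) := by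
  unfold zz zpt
  push_cast
  rfl

section

variable {N : ℕ} {A U : ℤ} {om : ℝ}

theorem zpt_range' (h0 : 0 < N) (hom : 1 < om) {b : ℤ} {r m : ℝ} (hm : 0 < m) (hr0 : 0 ≤ r)
    (hr1 : r < m) {i : ℕ} (hi : i < N) :
    0 < zpt N U b r m om i ∧ zpt N U b r m om i < 1 + om := by
  have hN : (0 : ℝ) < N := by exact_mod_cast h0
  have e1 : (1 : ℝ) ≤ rho N U b i := by exact_mod_cast one_le_rho h0 U b i
  have e2 : (rho N U b i : ℝ) ≤ N := by exact_mod_cast rho_le h0 U b i
  have e3 : (i : ℝ) + 1 ≤ N := by exact_mod_cast hi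
  have e4 : 0 ≤ (i : ℝ) * om := mul_nonneg (Nat.cast_nonneg _) (by linarith)
  have e5 := mul_le_mul_of_nonneg_right e3 (show (0 : ℝ) ≤ om by linarith)
  have e6 : 0 ≤ r * (om - 1) / m := by
    apply div_nonneg _ hm.le
    exact mul_nonneg hr0 (by linarith)
  have e7 : r * (om - 1) / m < om - 1 := by
    rw [div_lt_iff₀ hm]
    nlinarith
  unfold zpt
  constructor
  · apply div_pos _ hN
    linarith
  · rw [div_lt_iff₀ hN]
    linarith

theorem zpt_range (h : LP N A U om) {b : ℤ} {r m : ℝ} (hm : 0 < m) (hr0 : 0 ≤ r) (hr1 : r < m)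
    {i : ℕ} (hi : i < N) : 0 < zpt N U b r m om i ∧ zpt N U b r m om i < 1 + om :=
  zpt_range' h.hN h.hom.one_lt hm hr0 hr1 hi

/-- The ratio of the values of `D` at the two sides of the parallelogram. -/
theorem Df_ratio_LS (h : LP N A U om) {b : ℤ} {r m : ℝ} (hm : 0 < m) (hr0 : 0 ≤ r) (hr1 : r < m) :
    Df N U om b ((r * (om - 1) / m : ℝ) : ℂ) =
      Df N U om (U + 1 - b) (om - 1 - ((r * (om - 1) / m : ℝ) : ℂ)) *
        ((Real.exp (2 * ∑ i ∈ Finset.range N, LS 1 om (zpt N U b r m om i)) : ℝ) : ℂ) := by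
  have hom := h.hom.one_lt
  have e6 : 0 ≤ r * (om - 1) / m := by
    apply div_nonneg _ hm.le
    exact mul_nonneg hr0 (by linarith)
  have e7 : r * (om - 1) / m < om - 1 := by
    rw [div_lt_iff₀ hm]
    nlinarith
  obtain ⟨y, hy0, hy, hD⟩ := h.Df_ratio (b := b) (x := r * (om - 1) / m) (by linarith) (by linarith)
  have h2 : y = Real.exp (∑ i ∈ Finset.range N, LS 1 om (zpt N U b r m om i)) := by
    have h3 : (y : ℂ) = ((Real.exp (∑ i ∈ Finset.range N, LS 1 om (zpt N U b r m om i)) : ℝ) : ℂ) := by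
      rw [← hy, Real.exp_sum, Complex.ofReal_prod]
      refine Finset.prod_congr rfl fun i hi => ?_
      have hi' := Finset.mem_range.1 hi
      have h4 := zpt_range h (b := b) hm hr0 hr1 hi'
      rw [zz_real]
      exact G_eq_LS h.hom h4.1 h4.2
    exact_mod_cast h3
  rw [hD, h2]
  congr 1
  push_cast
  rw [← Complex.exp_nat_mul]
  congr 1

end


/-- `(P, R)` lies in `GamL` iff it is a combination of the two generators. -/
theorem mem_GamL {N : ℕ} {A B U : ℤ} {x : ℤ × ℤ} :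
    x ∈ GamL N A B U ↔ ∃ i j : ℤ, x = i • ((-U - 1, (N : ℤ)) : ℤ × ℤ) + j • (-B, A - 1) := by
  unfold GamL
  rw [AddSubgroup.mem_closure_pair]
  constructor
  · rintro ⟨i, j, h⟩
    exact ⟨i, j, h.symm⟩
  · rintro ⟨i, j, h⟩
    exact ⟨i, j, h.symm⟩

theorem rr_neg (N : ℕ) (U : ℤ) (x : ℤ × ℤ) : rr N U (-x) = -rr N U x := by
  unfold rr
  simp only [Prod.fst_neg, Prod.snd_neg]
  ring

theorem bb_neg (N : ℕ) (U : ℤ) (x : ℤ × ℤ) : bb N U (-x) = -bb N U x := by
  unfold bb
  simp only [Prod.fst_neg, Prod.snd_neg]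
  ring

theorem rr_comb {N : ℕ} {A B U : ℤ} (hdet : B * N = A * U + 1) (x : ℤ × ℤ) (i j : ℤ) :
    rr N U (x + (i • ((-U - 1, (N : ℤ)) : ℤ × ℤ) + j • (-B, A - 1))) =
      rr N U x + j * (A - U - 2) := by
  unfold rr
  simp only [Prod.fst_add, Prod.snd_add, Prod.smul_fst, Prod.smul_snd, smul_eq_mul]
  linear_combination -j * hdet

theorem bb_comb {N : ℕ} {A B U : ℤ} (hdet : B * N = A * U + 1) (x : ℤ × ℤ) (i j : ℤ) :
    bb N U (x + (i • ((-U - 1, (N : ℤ)) : ℤ × ℤ) + j • (-B, A - 1))) =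
      bb N U x + i * N + j * (U + 1) := by
  unfold bb
  simp only [Prod.fst_add, Prod.snd_add, Prod.smul_fst, Prod.smul_snd, smul_eq_mul]
  linear_combination j * hdet

theorem R_dvd (L : Lens) {b b' : ℤ} (h : (L.N : ℤ) ∣ b - b') (ξ : ℂ) : L.R b ξ = L.R b' ξ := by
  obtain ⟨k, hk⟩ := h
  have h1 : ∀ (j : ℕ) (c : ℤ), L.R (c + L.N * j) ξ = L.R c ξ := by
    intro j
    induction j with
    | zero => intro c; simp
    | succ j ih =>
      intro c
      have : c + (L.N : ℤ) * ((j + 1 : ℕ) : ℤ) = (c + L.N) + L.N * j := by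
        push_cast
        ring
      rw [this, ih, L.R_per]
  have hb : b = b' + L.N * k := by linarith
  rcases le_or_gt 0 k with hk0 | hk0
  · obtain ⟨j, rfl⟩ := Int.eq_ofNat_of_zero_le hk0
    rw [hb, h1]
  · obtain ⟨j, hj⟩ := Int.eq_ofNat_of_zero_le (show 0 ≤ -k by omega)
    have : b' = b + L.N * j := by
      rw [← hj, hb]
      ring
    rw [this, h1]

/-- `bZ` is a function on the quotient. -/
theorem bZ_add (L : Lens) (x g : ℤ × ℤ) (hg : g ∈ GamL L.N L.A L.B L.U) :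
    bZ L (x + g) = bZ L x := by
  obtain ⟨i, j, rfl⟩ := mem_GamL.1 hg
  have hm : L.A - L.U - 2 ≠ 0 := by
    have := L.hAU
    omega
  unfold bZ
  rw [rr_comb L.hdet, bb_comb L.hdet, Int.add_mul_emod_self_right, Int.add_mul_ediv_right _ _ hm]
  congr 1
  apply R_dvd
  refine ⟨i, ?_⟩
  ring

theorem bG_mk (L : Lens) (x : ℤ × ℤ) :
    bG L (QuotientAddGroup.mk x : GQ L.N L.A L.B L.U) = bZ L x := by
  unfold bG
  obtain ⟨g, hg⟩ := QuotientAddGroup.mk_out_eq_add (GamL L.N L.A L.B L.U) x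
  rw [hg]
  exact bZ_add L x g g.2

theorem LD_mul_R (L : Lens) (b : ℤ) {x : ℝ} (h0 : -1 < x) (h1 : x < L.om) :
    L.D b (x : ℂ) * L.R b (x : ℂ) = 1 := by
  apply L.DR
  right
  rw [Complex.ofReal_re]
  exact ⟨h0, h1⟩

section

variable (P : Par) (N : ℕ) (A B U : ℤ) (hN : 0 < N) (hdet : B * N = A * U + 1)
  (htr : P.b ^ 2 + P.o ^ 2 = ((A - U : ℤ) : ℝ)) (hub : 1 < P.b) (hAU : 3 ≤ A - U)

/-- The point in the fundamental domain. -/
def b0 (N : ℕ) (A U : ℤ) (x : ℤ × ℤ) : ℤ := bb N U x - (U + 1) * (rr N U x / (A - U - 2))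

/-- The sum of the logarithms over the parallelogram. -/
noncomputable def SLS (N : ℕ) (A U : ℤ) (om : ℝ) (x : ℤ × ℤ) : ℝ :=
  ∑ i ∈ Finset.range N, LS 1 om (zpt N U (b0 N A U x) ((rr N U x % (A - U - 2) : ℤ) : ℝ)
    ((A - U - 2 : ℤ) : ℝ) om i)

theorem bZ_ratio (x : ℤ × ℤ) (hx : x ∉ GamL N A B U) :
    bZ (mkLens P N A B U hN hdet htr hub hAU) x / bZ (mkLens P N A B U hN hdet htr hub hAU) (-x) =
      ((Real.exp (-(2 * SLS N A U (P.b ^ 2) x)) : ℝ) : ℂ) := by
  set L := mkLens P N A B U hN hdet htr hub hAU with hL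
  have hU : LP N A U (P.b ^ 2) := ⟨hN, ⟨B, by rw [← hdet, mul_comm]⟩, isU_of_par hub htr⟩
  set om : ℝ := P.b ^ 2 with hom
  have hom1 : 1 < om := hU.hom.one_lt
  set m : ℤ := A - U - 2 with hm
  have hm0 : 0 < m := by omega
  have hmR : (0 : ℝ) < (m : ℝ) := by exact_mod_cast hm0
  set r : ℤ := rr N U x % m with hr
  set q : ℤ := rr N U x / m with hq
  have hrq : rr N U x = r + m * q := (Int.emod_add_mul_ediv _ _).symm
  have hr0 : 0 ≤ r := Int.emod_nonneg _ hm0.ne'
  have hr1 : r < m := Int.emod_lt_of_pos _ hm0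
  have hr0R : (0 : ℝ) ≤ (r : ℝ) := by exact_mod_cast hr0
  have hr1R : (r : ℝ) < (m : ℝ) := by exact_mod_cast hr1
  set b' : ℤ := bb N U x - (U + 1) * q with hb'
  set ξ : ℝ := (r : ℝ) * (om - 1) / (m : ℝ) with hξ
  have hξ0 : 0 ≤ ξ := div_nonneg (mul_nonneg hr0R (by linarith)) hmR.le
  have hξ1 : ξ < om - 1 := by
    rw [hξ, div_lt_iff₀ hmR]
    nlinarith
  have hD00 : L.D 0 0 ≠ 0 := by
    have h1 := LD_mul_R L 0 (x := 0) (by norm_num) (by
      show (0 : ℝ) < om
      linarith)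
    rw [Complex.ofReal_zero] at h1
    exact left_ne_zero_of_mul_eq_one h1
  have hPb : (P.b : ℂ) ≠ 0 := by
    have := P.hb
    exact_mod_cast this.ne'
  have e1 : bZ L x = P.b * L.D 0 0 * L.R b' (ξ : ℂ) := by
    show (P.b : ℂ) * L.D 0 0 * L.R (bb N U x - (U + 1) * (rr N U x / m))
      (((rr N U x % m : ℤ) : ℂ) * ((om : ℂ) - 1) / ((m : ℤ) : ℂ)) = _
    rw [← hr, ← hq, ← hb', hξ]
    push_cast
    rfl
  have hR1 := LD_mul_R L b' (x := ξ) (by linarith) (by
    show ξ < om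
    linarith)
  have hkey : ∃ (b'' : ℤ) (ξ' : ℝ), bZ L (-x) = P.b * L.D 0 0 * L.R b'' (ξ' : ℂ) ∧
      L.D b'' (ξ' : ℂ) * L.R b'' (ξ' : ℂ) = 1 ∧
      L.D b'' (ξ' : ℂ) = L.D (U + 1 - b') (om - 1 - (ξ : ℂ)) := by
    have hneg : bZ L (-x) = (P.b : ℂ) * L.D 0 0 * L.R (-bb N U x - (U + 1) * (-(r + m * q) / m))
        (((-(r + m * q) % m : ℤ) : ℂ) * ((om : ℂ) - 1) / ((m : ℤ) : ℂ)) := by
      rw [← hrq, ← bb_neg, ← rr_neg]
      rfl
    have hmC : ((m : ℤ) : ℂ) ≠ 0 := by exact_mod_cast hm0.ne'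
    rcases eq_or_ne r 0 with h0 | h0
    · -- the point lies on the ray
      have h1 : -(r + m * q) % m = 0 := by
        rw [h0, zero_add, ← mul_neg, Int.mul_emod_right]
      have h2 : -(r + m * q) / m = -q := by
        rw [h0, zero_add, ← mul_neg, Int.mul_ediv_cancel_left _ hm0.ne']
      have hξz : ξ = 0 := by
        rw [hξ, h0]
        simp
      refine ⟨-b', 0, ?_, ?_, ?_⟩
      · rw [hneg, h1, h2]
        congr 2
        · rw [hb']
          ring
        · simp
      · apply LD_mul_R L _ (by norm_num)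
        show (0 : ℝ) < om
        linarith
      · -- coordinates of `x - q g2`
        have hP : rr N U x = m * q := by rw [hrq, h0, zero_add]
        have h3 : (N : ℤ) * x.1 + (U + 1) * x.2 = m * q := hP
        have h4 : b' = -(N * x.1) - U * x.2 - (U + 1) * q := rfl
        -- `b' = x.2 - (A - 1) q`
        have h5 : b' = x.2 - (A - 1) * q := by
          rw [h4]
          have : m = A - U - 2 := hm
          rw [this] at h3
          linarith
        have h6 : (N : ℤ) ∣ (A - 1) * b' := by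
          refine ⟨-(B * b') - A * (x.1 + B * q), ?_⟩
          have h7 : (N : ℤ) * (x.1 + B * q) = -((U + 1) * b') := by
            rw [h5]
            have : m = A - U - 2 := hm
            rw [this] at h3
            linear_combination h3 + q * hdet
          linear_combination b' * hdet + A * h7
        have h8 : ¬ (N : ℤ) ∣ b' := by
          rintro ⟨k, hk⟩
          apply hx
          rw [mem_GamL]
          refine ⟨k, q, ?_⟩
          have hN0 : (N : ℤ) ≠ 0 := by omega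
          have h9 : x.2 = k * N + q * (A - 1) := by linarith
          have h10 : x.1 = k * (-U - 1) + q * (-B) := by
            apply mul_left_cancel₀ hN0
            have : m = A - U - 2 := hm
            rw [this, h9] at h3
            linear_combination h3 + q * hdet
          ext
          · simp only [Prod.fst_add, Prod.smul_fst, smul_eq_mul]
            exact h10
          · simp only [Prod.snd_add, Prod.smul_snd, smul_eq_mul]
            exact h9
        have hNC := hU.NC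
        have h11 := hU.Df_tau (b := -b') (x := 0) (hU.not_poleD_of_re (by simp)) (by
          apply hU.not_poleD_of_re
          simp only [Complex.sub_re, Complex.add_re, Complex.ofReal_re, Complex.one_re, Complex.zero_re]
          linarith)
        obtain ⟨k, hk⟩ := h6
        have hkC : ((A : ℂ) - 1) * b' = N * k := by exact_mod_cast hk
        have h12 : e ((0 : ℂ) / (N * om) + A * ((-b' : ℤ) : ℂ) / N) = e ((0 + ((-b' : ℤ) : ℂ)) / N) := by
          have h13 : (0 : ℂ) / (N * om) + A * ((-b' : ℤ) : ℂ) / N =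
              (0 + ((-b' : ℤ) : ℂ)) / N + ((-k : ℤ) : ℂ) := by
            push_cast
            field_simp
            linear_combination -hkC
          rw [h13, e_add_int]
        have h14 : (1 : ℂ) - e ((0 + ((-b' : ℤ) : ℂ)) / N) ≠ 0 := by
          intro h15
          have h16 : e ((0 + ((-b' : ℤ) : ℂ)) / N) = 1 := (sub_eq_zero.1 h15).symm
          obtain ⟨j, hj⟩ := e_eq_one_iff.1 h16
          apply h8
          refine ⟨-j, ?_⟩
          have h17 : ((b' : ℤ) : ℂ) = ((N * (-j) : ℤ) : ℂ) := by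
            rw [div_eq_iff hNC] at hj
            push_cast
            push_cast at hj
            linear_combination -hj
          exact_mod_cast h17
        rw [h12] at h11
        have h18 := mul_right_cancel₀ h14 h11
        rw [hξz]
        show Df N U om (-b') ((0 : ℝ) : ℂ) = Df N U om (U + 1 - b') (om - 1 - ((0 : ℝ) : ℂ))
        rw [Complex.ofReal_zero, ← h18]
        congr 1
        · ring
        · ring
    · have hr2 : 0 < r := lt_of_le_of_ne hr0 (Ne.symm h0)
      have hre : -(r + m * q) = (m - r) + m * (-q - 1) := by ring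
      have h1 : -(r + m * q) % m = m - r := by
        rw [hre, Int.add_mul_emod_self_left, Int.emod_eq_of_lt (by omega) (by omega)]
      have h2 : -(r + m * q) / m = -q - 1 := by
        rw [hre, Int.add_mul_ediv_left _ _ hm0.ne', Int.ediv_eq_zero_of_lt (by omega) (by omega)]
        ring
      refine ⟨U + 1 - b', om - 1 - ξ, ?_, ?_, ?_⟩
      · rw [hneg, h1, h2]
        congr 2
        · rw [hb']
          ring
        · rw [hξ]
          push_cast
          field_simp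
      · apply LD_mul_R L _ (by linarith)
        show om - 1 - ξ < om
        linarith
      · push_cast
        ring_nf
  obtain ⟨b'', ξ', e2, hR2, e3⟩ := hkey
  have hratio := Df_ratio_LS hU (b := b') (r := (r : ℝ)) (m := (m : ℝ)) hmR hr0R hr1R
  have hS : SLS N A U om x = ∑ i ∈ Finset.range N, LS 1 om (zpt N U b' (r : ℝ) (m : ℝ) om i) := rfl
  rw [← hS, ← hξ] at hratio
  have hratio' : L.D b' (ξ : ℂ) = L.D b'' (ξ' : ℂ) * ((Real.exp (2 * SLS N A U om x) : ℝ) : ℂ) := by
    rw [e3]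
    exact hratio
  have hR1ne : L.R b' (ξ : ℂ) ≠ 0 := right_ne_zero_of_mul_eq_one hR1
  have hR2ne : L.R b'' (ξ' : ℂ) ≠ 0 := right_ne_zero_of_mul_eq_one hR2
  have hE : ((Real.exp (2 * SLS N A U om x) : ℝ) : ℂ) * ((Real.exp (-(2 * SLS N A U om x)) : ℝ) : ℂ) = 1 := by
    rw [← Complex.ofReal_mul, ← Real.exp_add, add_neg_cancel, Real.exp_zero, Complex.ofReal_one]
  rw [e1, e2, mul_div_mul_left _ _ (mul_ne_zero hPb hD00), div_eq_iff hR2ne]
  -- R1 = E⁻ R2
  have h1 : L.D b'' (ξ' : ℂ) * ((Real.exp (2 * SLS N A U om x) : ℝ) : ℂ) * L.R b' (ξ : ℂ) = 1 := by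
    rw [← hratio']
    exact hR1
  have hD2ne : L.D b'' (ξ' : ℂ) ≠ 0 := left_ne_zero_of_mul_eq_one hR2
  have hEne : ((Real.exp (2 * SLS N A U om x) : ℝ) : ℂ) ≠ 0 := left_ne_zero_of_mul_eq_one hE
  apply mul_left_cancel₀ (mul_ne_zero hD2ne hEne)
  rw [h1]
  calc (1 : ℂ) = (L.D b'' (ξ' : ℂ) * L.R b'' (ξ' : ℂ)) *
        (((Real.exp (2 * SLS N A U om x) : ℝ) : ℂ) * ((Real.exp (-(2 * SLS N A U om x)) : ℝ) : ℂ)) := by
        rw [hR2, hE, one_mul]
    _ = _ := by ring

end

section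

variable {N : ℕ} {A B U : ℤ} {om : ℝ} {L' : AddSubgroup (ℝ × ℝ)} {l0 l1 : ℝ × ℝ}

/-- `N w = (b + (r / m) (o - 1)) l0` in one coordinate. -/
theorem N_w {o u v ω : ℝ} (ho : o ≠ 1) (ho0 : o ≠ 0) (htr : o + o⁻¹ = ((A - U : ℤ) : ℝ))
    (hm0 : ((A - U - 2 : ℤ) : ℝ) ≠ 0) (x : ℤ × ℤ) (hact : o * u = -(U : ℝ) * u + N * v)
    (hw : o * ω - ω = x.1 * u + x.2 * v) :
    (N : ℝ) * ω = ((bb N U x : ℝ) + (rr N U x : ℝ) / ((A - U - 2 : ℤ) : ℝ) * (o - 1)) * u := by
  have h1 : o - 1 ≠ 0 := sub_ne_zero.2 ho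
  have hm : ((A - U - 2 : ℤ) : ℝ) * o = (o - 1) ^ 2 := by
    have h2 : o * o⁻¹ = 1 := mul_inv_cancel₀ ho0
    push_cast
    push_cast at htr
    linear_combination (-o) * htr + h2
  apply mul_left_cancel₀ h1
  have h3 : (rr N U x : ℝ) / ((A - U - 2 : ℤ) : ℝ) * (o - 1) ^ 2 = (rr N U x : ℝ) * o := by
    rw [← hm]
    field_simp
  have h4 : (rr N U x : ℝ) = N * x.1 + (U + 1) * x.2 := by
    unfold rr
    push_cast
    rfl
  have h5 : (bb N U x : ℝ) = -(N * x.1) - U * x.2 := by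
    unfold bb
    push_cast
    rfl
  have h6 : (o - 1) * (((bb N U x : ℝ) + (rr N U x : ℝ) / ((A - U - 2 : ℤ) : ℝ) * (o - 1)) * u) =
      (bb N U x : ℝ) * (o - 1) * u + ((rr N U x : ℝ) / ((A - U - 2 : ℤ) : ℝ) * (o - 1) ^ 2) * u := by
    ring
  rw [h6, h3, h4, h5]
  linear_combination (N : ℝ) * hw - (x.2 : ℝ) * hact

theorem BO_eq_SLS (hN : 0 < N) (hom : 1 < om) (hAU : 3 ≤ A - U)
    (htr : om + om⁻¹ = ((A - U : ℤ) : ℝ)) (h01 : 0 < l0.1) (h02 : 0 < l0.2)
    (hmem : ∀ z : ℝ × ℝ, z ∈ L' ↔ ∃ p q : ℤ, z.1 = p * l0.1 + q * l1.1 ∧ z.2 = p * l0.2 + q * l1.2)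
    (hact1 : om * l0.1 = -(U : ℝ) * l0.1 + N * l1.1)
    (hact2 : om⁻¹ * l0.2 = -(U : ℝ) * l0.2 + N * l1.2) (x : ℤ × ℤ) (w : ℝ × ℝ)
    (hw1 : om * w.1 - w.1 = x.1 * l0.1 + x.2 * l1.1)
    (hw2 : om⁻¹ * w.2 - w.2 = x.1 * l0.2 + x.2 * l1.2) : BO L' om l0 w = SLS N A U om x := by
  classical
  have hom0 : 0 < om := by linarith
  have homi1 : om⁻¹ < 1 := inv_lt_one_of_one_lt₀ hom
  have homi0 : 0 < om⁻¹ := inv_pos.2 hom0
  set m : ℤ := A - U - 2 with hm
  have hm0 : 0 < m := by omega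
  have hmR : (0 : ℝ) < (m : ℝ) := by exact_mod_cast hm0
  have hw1' := N_w (N := N) (A := A) (U := U) hom.ne' hom0.ne' htr (by rw [← hm]; exact hmR.ne') x
    hact1 hw1
  have hw2' := N_w (N := N) (A := A) (U := U) homi1.ne homi0.ne'
    (by rw [inv_inv, add_comm]; exact htr) (by rw [← hm]; exact hmR.ne') x hact2 hw2
  rw [← hm] at hw1' hw2'
  set r : ℤ := rr N U x % m with hr
  set q0 : ℤ := rr N U x / m with hq0
  have hrq : rr N U x = r + m * q0 := (Int.emod_add_mul_ediv _ _).symm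
  have hr0 : 0 ≤ r := Int.emod_nonneg _ hm0.ne'
  have hr1 : r < m := Int.emod_lt_of_pos _ hm0
  have hr0R : (0 : ℝ) ≤ (r : ℝ) := by exact_mod_cast hr0
  have hr1R : (r : ℝ) < (m : ℝ) := by exact_mod_cast hr1
  have hb' : b0 N A U x = bb N U x - (U + 1) * q0 := rfl
  set b' : ℤ := b0 N A U x with hbd
  have hNR : (0 : ℝ) < N := by exact_mod_cast hN
  -- the fractional part
  obtain ⟨θ, hθ⟩ : ∃ θ : ℝ, θ = (r : ℝ) / (m : ℝ) := ⟨_, rfl⟩
  have hθ0 : 0 ≤ θ := by rw [hθ]; exact div_nonneg hr0R hmR.le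
  have hθ1 : θ < 1 := by rw [hθ, div_lt_one hmR]; exact hr1R
  have hfrac : (rr N U x : ℝ) / (m : ℝ) = θ + q0 := by
    rw [hrq, hθ]
    push_cast
    field_simp
  rw [hfrac] at hw1' hw2'
  have hzpt : ∀ (o : ℝ) (i : ℕ), (N : ℝ) * zpt N U b' (r : ℝ) (m : ℝ) o i =
      θ * (o - 1) + i * o + rho N U b' i := by
    intro o i
    unfold zpt
    rw [hθ]
    field_simp
  have hbR : (b' : ℝ) = bb N U x - (U + 1) * q0 := by
    rw [hb']
    push_cast
    rfl
  set zv : ℕ → ℝ × ℝ := fun i => (l0.1 * zpt N U b' (r : ℝ) (m : ℝ) om i,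
    l0.2 * zpt N U b' (r : ℝ) (m : ℝ) om⁻¹ i) with hzv
  have hne : om - om⁻¹ ≠ 0 := by
    have : om⁻¹ < om := by linarith
    linarith
  have hPar : Par L' w l0 (act om l0) = ↑((Finset.range N).image zv) := by
    ext z
    rw [Finset.coe_image, Set.mem_image]
    constructor
    · rintro ⟨hz, s, t, hs0, hs1, ht0, ht1, e1, e2⟩
      obtain ⟨p, q, hp1, hp2⟩ := (hmem _).1 hz
      rw [Prod.fst_sub] at hp1
      rw [Prod.snd_sub] at hp2
      rw [act_fst] at e1
      rw [act_snd] at e2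
      -- both coordinates of `N z`
      have f1 : (N : ℝ) * (s + t * om) = N * p + q * (om + U) + bb N U x + (θ + q0) * (om - 1) := by
        apply mul_right_cancel₀ h01.ne'
        linear_combination (N : ℝ) * hp1 - (N : ℝ) * e1 + hw1' - (q : ℝ) * hact1
      have f2 : (N : ℝ) * (s + t * om⁻¹) =
          N * p + q * (om⁻¹ + U) + bb N U x + (θ + q0) * (om⁻¹ - 1) := by
        apply mul_right_cancel₀ h02.ne'
        linear_combination (N : ℝ) * hp2 - (N : ℝ) * e2 + hw2' - (q : ℝ) * hact2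
      have f3 : (N : ℝ) * t = q + (θ + q0) := by
        apply mul_right_cancel₀ hne
        linear_combination f1 - f2
      have f4 : (N : ℝ) * s = N * p + q * U + bb N U x - (θ + q0) := by
        linear_combination f1 - om * f3
      have g1 : -1 < q + q0 := by
        have : (-1 : ℝ) < ((q + q0 : ℤ) : ℝ) := by
          push_cast
          have : 0 ≤ (N : ℝ) * t := mul_nonneg hNR.le ht0
          linarith
        exact_mod_cast this
      have g2 : q + q0 < N := by
        have : ((q + q0 : ℤ) : ℝ) < ((N : ℤ) : ℝ) := by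
          push_cast
          have : (N : ℝ) * t < N := by nlinarith
          linarith
        exact_mod_cast this
      obtain ⟨i, hi⟩ := Int.eq_ofNat_of_zero_le (show 0 ≤ q + q0 by omega)
      have hiR : (i : ℝ) = q + q0 := by
        have : ((i : ℤ) : ℝ) = ((q + q0 : ℤ) : ℝ) := by rw [hi]
        push_cast at this
        exact this
      have hrho : rho N U b' i = N * p + i * U + b' := by
        have f5 : (((N * p + i * U + b' : ℤ)) : ℝ) = N * s + θ := by
          push_cast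
          rw [f4, hbR, hiR]
          ring
        apply rho_unique
        · have : (0 : ℝ) < (((N * p + i * U + b' : ℤ)) : ℝ) := by
            rw [f5]
            have := mul_pos hNR hs0
            linarith
          have h7 : 0 < (N * p + i * U + b' : ℤ) := by exact_mod_cast this
          omega
        · have : (((N * p + i * U + b' : ℤ)) : ℝ) < (((N : ℤ) + 1 : ℤ) : ℝ) := by
            rw [f5]
            push_cast
            have : (N : ℝ) * s ≤ N := by nlinarith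
            linarith
          have h7 : (N * p + i * U + b' : ℤ) < N + 1 := by exact_mod_cast this
          omega
        · refine ⟨-p, ?_⟩
          ring
      have hrhoR : (rho N U b' i : ℝ) = N * p + i * U + b' := by
        rw [hrho]
        push_cast
        rfl
      refine ⟨i, ?_, ?_⟩
      · rw [Finset.coe_range, Set.mem_Iio]
        omega
      · rw [hzv]
        ext
        · simp only
          apply mul_left_cancel₀ hNR.ne'
          have := hzpt om i
          rw [e1]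
          linear_combination l0.1 * this + l0.1 * hrhoR - l0.1 * f1 + l0.1 * (om + U) * hiR +
            l0.1 * hbR
        · simp only
          apply mul_left_cancel₀ hNR.ne'
          have := hzpt om⁻¹ i
          rw [e2]
          linear_combination l0.2 * this + l0.2 * hrhoR - l0.2 * f2 + l0.2 * (om⁻¹ + U) * hiR +
            l0.2 * hbR
    · rintro ⟨i, hi, rfl⟩
      rw [Finset.coe_range, Set.mem_Iio] at hi
      obtain ⟨k, hk⟩ := rho_dvd N U b' i
      have hkR : (b' : ℝ) + i * U - rho N U b' i = N * k := by exact_mod_cast hk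
      have h1 : (1 : ℝ) ≤ rho N U b' i := by exact_mod_cast one_le_rho hN U b' i
      have h2 : (rho N U b' i : ℝ) ≤ N := by exact_mod_cast rho_le hN U b' i
      have h3 : (i : ℝ) + 1 ≤ N := by exact_mod_cast hi
      refine ⟨(hmem _).2 ⟨-k, i - q0, ?_, ?_⟩, (rho N U b' i - θ) / N, (i + θ) / N, ?_, ?_, ?_, ?_,
        ?_, ?_⟩
      · rw [hzv]
        simp only [Prod.fst_sub]
        apply mul_left_cancel₀ hNR.ne'
        have := hzpt om i
        push_cast
        linear_combination l0.1 * this - hw1' - l0.1 * hkR + (i - q0 : ℝ) * hact1 + l0.1 * hbR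
      · rw [hzv]
        simp only [Prod.snd_sub]
        apply mul_left_cancel₀ hNR.ne'
        have := hzpt om⁻¹ i
        push_cast
        linear_combination l0.2 * this - hw2' - l0.2 * hkR + (i - q0 : ℝ) * hact2 + l0.2 * hbR
      · exact div_pos (by linarith) hNR
      · rw [div_le_one hNR]
        linarith
      · exact div_nonneg (by positivity) hNR.le
      · rw [div_lt_one hNR]
        linarith
      · rw [hzv, act_fst]
        simp only
        have := hzpt om i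
        field_simp
        linear_combination this
      · rw [hzv, act_snd]
        simp only
        have := hzpt om⁻¹ i
        field_simp
        field_simp at this
        linear_combination this
  have hinj : Set.InjOn zv (Finset.range N : Set ℕ) := by
    intro i _ j _ hij
    rw [hzv] at hij
    have h1 := congrArg Prod.fst hij
    have h2 := congrArg Prod.snd hij
    simp only at h1 h2
    have h3 := mul_left_cancel₀ h01.ne' h1
    have h4 := mul_left_cancel₀ h02.ne' h2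
    have h5 := hzpt om i
    have h6 := hzpt om j
    have h7 := hzpt om⁻¹ i
    have h8 := hzpt om⁻¹ j
    rw [h3] at h5
    rw [h4] at h7
    have h9 : ((i : ℝ) - j) * (om - om⁻¹) = 0 := by linear_combination h6 - h5 - h8 + h7
    rcases mul_eq_zero.1 h9 with h10 | h10
    · have : (i : ℝ) = j := by linarith
      exact_mod_cast this
    · exact absurd h10 hne
  unfold BO BB
  rw [hPar, finsum_mem_coe_finset, Finset.sum_image hinj]
  unfold SLS
  refine Finset.sum_congr rfl fun i hi => ?_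
  have hi' := Finset.mem_range.1 hi
  rw [act_fst, hzv]
  simp only
  obtain ⟨h0, h1⟩ := zpt_range' (U := U) (b := b') (r := (r : ℝ)) (m := (m : ℝ)) hN hom hmR hr0R hr1R hi'
  have h2 := LS_scale (A := 1) (B := om) one_pos hom0 h0 h1 h01
  rw [mul_one, mul_comm l0.1 om] at h2
  exact h2

end

section

variable (P : Par) (N : ℕ) (A B U : ℤ) (hN : 0 < N) (hdet : B * N = A * U + 1)
  (htr : P.b ^ 2 + P.o ^ 2 = ((A - U : ℤ) : ℝ)) (hub : 1 < P.b) (hAU : 3 ≤ A - U)

/-- **The link (block B6)** on `ℤ × ℤ`. -/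
theorem bZ_link (x : ℤ × ℤ) (hx : x ∉ GamL N A B U) {L' : AddSubgroup (ℝ × ℝ)} {l0 l1 : ℝ × ℝ}
    (h01 : 0 < l0.1) (h02 : 0 < l0.2)
    (hmem : ∀ z : ℝ × ℝ, z ∈ L' ↔ ∃ p q : ℤ, z.1 = p * l0.1 + q * l1.1 ∧ z.2 = p * l0.2 + q * l1.2)
    (hact1 : P.b ^ 2 * l0.1 = -(U : ℝ) * l0.1 + N * l1.1)
    (hact2 : (P.b ^ 2)⁻¹ * l0.2 = -(U : ℝ) * l0.2 + N * l1.2) (w : ℝ × ℝ)
    (hw1 : P.b ^ 2 * w.1 - w.1 = x.1 * l0.1 + x.2 * l1.1)
    (hw2 : (P.b ^ 2)⁻¹ * w.2 - w.2 = x.1 * l0.2 + x.2 * l1.2) :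
    bZ (mkLens P N A B U hN hdet htr hub hAU) x / bZ (mkLens P N A B U hN hdet htr hub hAU) (-x) =
      Complex.exp (((-2 * BO L' (P.b ^ 2) l0 w : ℝ)) : ℂ) := by
  have hom : 1 < P.b ^ 2 := (isU_of_par hub htr).one_lt
  have h2 : (P.b ^ 2)⁻¹ = P.o ^ 2 := by
    refine (eq_inv_of_mul_eq_one_left ?_).symm
    calc P.o ^ 2 * P.b ^ 2 = (P.b * P.o) ^ 2 := by ring
      _ = 1 := by rw [P.hbo]; norm_num
  have htr' : P.b ^ 2 + (P.b ^ 2)⁻¹ = ((A - U : ℤ) : ℝ) := by rw [h2, htr]
  rw [BO_eq_SLS hN hom hAU htr' h01 h02 hmem hact1 hact2 x w hw1 hw2,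
    bZ_ratio P N A B U hN hdet htr hub hAU x hx, ← Complex.ofReal_exp]
  congr 2
  ring

/-- **The link (block B6)** on the finite group. -/
theorem bG_link (x : ℤ × ℤ) (hx : (QuotientAddGroup.mk x : GQ N A B U) ≠ 0)
    {L' : AddSubgroup (ℝ × ℝ)} {l0 l1 : ℝ × ℝ} (h01 : 0 < l0.1) (h02 : 0 < l0.2)
    (hmem : ∀ z : ℝ × ℝ, z ∈ L' ↔ ∃ p q : ℤ, z.1 = p * l0.1 + q * l1.1 ∧ z.2 = p * l0.2 + q * l1.2)
    (hact1 : P.b ^ 2 * l0.1 = -(U : ℝ) * l0.1 + N * l1.1)
    (hact2 : (P.b ^ 2)⁻¹ * l0.2 = -(U : ℝ) * l0.2 + N * l1.2) (w : ℝ × ℝ)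
    (hw1 : P.b ^ 2 * w.1 - w.1 = x.1 * l0.1 + x.2 * l1.1)
    (hw2 : (P.b ^ 2)⁻¹ * w.2 - w.2 = x.1 * l0.2 + x.2 * l1.2) :
    bG (mkLens P N A B U hN hdet htr hub hAU) (QuotientAddGroup.mk x : GQ N A B U) /
      bG (mkLens P N A B U hN hdet htr hub hAU) (-(QuotientAddGroup.mk x : GQ N A B U)) =
      Complex.exp (((-2 * BO L' (P.b ^ 2) l0 w : ℝ)) : ℂ) := by
  rw [← QuotientAddGroup.mk_neg]
  have h1 := bG_mk (mkLens P N A B U hN hdet htr hub hAU) x
  have h2 := bG_mk (mkLens P N A B U hN hdet htr hub hAU) (-x)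
  have hx' : x ∉ GamL N A B U := fun h => hx ((QuotientAddGroup.eq_zero_iff x).2 h)
  have h3 := bZ_link P N A B U hN hdet htr hub hAU x hx' h01 h02 hmem hact1 hact2 w hw1 hw2
  rw [← h1, ← h2] at h3
  exact h3

end

end Zau.LB
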