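import Pool.Agent.Lib_zau.Near
import Pool.Agent.Lib_zau.ConeU

/-!
# Zauner (block B9): the real embedding and the assembly of the field `near` of `Tower`
-/

set_option autoImplicit false

namespace Zau

open Finset Cone

section ep

variable {n : ℤ}

theorem near_ep_inv (hn : 3 ≤ n) : (ep n)⁻¹ = n - ep n := by
  have h1 := ep_sq hn
  have h2 : ep n ≠ 0 := by
    have := ep_gt hn
    intro h
    rw [h] at this
    norm_num at this
  field_simp
  linarith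

/-- The two real embeddings of `ℚ × ℚ`. -/
noncomputable abbrev io2 (n : ℤ) : ℚ × ℚ →+ ℝ × ℝ := io (ep n)

theorem io2_fst (n : ℤ) (w : ℚ × ℚ) : (io2 n w).1 = (w.1 : ℝ) + w.2 * ep n := rfl

theorem io2_snd (n : ℤ) (w : ℚ × ℚ) : (io2 n w).2 = (w.1 : ℝ) + w.2 * (ep n)⁻¹ := rfl

theorem io2_E (hn : 3 ≤ n) (w : ℚ × ℚ) : io2 n (E n w) = act (ep n) (io2 n w) := by
  have h1 := ep_sq hn
  have h2 := near_ep_inv hn
  have hE1 : (E n w).1 = -w.2 := rfl
  have hE2 : (E n w).2 = w.1 + n * w.2 := rfl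
  ext
  · rw [io2_fst, act_fst, io2_fst, hE1, hE2]
    push_cast
    linear_combination (-(w.2 : ℝ)) * h1
  · rw [io2_snd, act_snd, io2_snd, hE1, hE2]
    push_cast
    rw [h2]
    linear_combination (-(w.2 : ℝ)) * h1

theorem io2_EK (hn : 3 ≤ n) (K : ℕ) (w : ℚ × ℚ) :
    io2 n ((E n ^ K) w) = act (ep n ^ K) (io2 n w) := by
  rw [AddMonoid.End.coe_pow]
  induction K with
  | zero => simp [act]
  | succ K ih =>
    rw [Function.iterate_succ_apply', io2_E hn, ih]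
    unfold act
    ext
    · simp only [pow_succ]; ring
    · simp only [pow_succ, mul_inv]; ring

theorem near_ep_pow (hn : 3 ≤ n) (K : ℕ) : ep n ^ K = (pq n K).1 + (pq n K).2 * ep n ∧
    (ep n ^ K)⁻¹ = (pq n K).1 + (pq n K).2 * (ep n)⁻¹ := by
  have h1 := ep_sq hn
  have h2 := near_ep_inv hn
  induction K with
  | zero => simp [pq]
  | succ K ih =>
    obtain ⟨h3, h4⟩ := ih
    have e1 : (pq n (K + 1)).1 = -(pq n K).2 := rfl
    have e2 : (pq n (K + 1)).2 = (pq n K).1 + n * (pq n K).2 := rfl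
    rw [e1, e2]
    constructor
    · rw [pow_succ, h3]
      push_cast
      linear_combination ((pq n K).2 : ℝ) * h1
    · rw [pow_succ, mul_inv, h4, h2]
      push_cast
      linear_combination ((pq n K).2 : ℝ) * h1

theorem near_ep_trace (hn : 3 ≤ n) (K : ℕ) :
    ep n ^ K + (ep n ^ K)⁻¹ = ((2 * (pq n K).1 + n * (pq n K).2 : ℤ) : ℝ) := by
  obtain ⟨h3, h4⟩ := near_ep_pow hn K
  rw [h4, h3, near_ep_inv hn]
  push_cast
  ring

end ep

/-- The lattice `ℤ + ℤ β` in `ℝ × ℝ`. -/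
def LatB (be be' : ℝ) : AddSubgroup (ℝ × ℝ) where
  carrier := {w | ∃ s t : ℤ, w = ((s : ℝ) + t * be, (s : ℝ) + t * be')}
  zero_mem' := ⟨0, 0, by ext <;> simp⟩
  add_mem' := by
    rintro _ _ ⟨i, j, rfl⟩ ⟨i', j', rfl⟩
    exact ⟨i + i', j + j', by ext <;> simp <;> ring⟩
  neg_mem' := by
    rintro _ ⟨i, j, rfl⟩
    exact ⟨-i, -j, by ext <;> simp <;> ring⟩

theorem mem_LatB {be be' : ℝ} {w : ℝ × ℝ} :
    w ∈ LatB be be' ↔ ∃ s t : ℤ, w = ((s : ℝ) + t * be, (s : ℝ) + t * be') := Iff.rfl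

/-- The point `(om - 1)⁻¹ (P + R β)`. -/
noncomputable def ptB (om be be' : ℝ) (P R : ℤ) : ℝ × ℝ :=
  (((P : ℝ) + R * be) / (om - 1), ((P : ℝ) + R * be') / (om⁻¹ - 1))

theorem zs1 (k : ℤ) (v : ℝ × ℝ) : (k • v).1 = k * v.1 := by simp

theorem zs2 (k : ℤ) (v : ℝ × ℝ) : (k • v).2 = k * v.2 := by simp

/-- Change of coordinates. -/
theorem BO_basis {n : ℤ} (hn : 3 ≤ n) {K : ℕ} (hK : 0 < K) {L : AddSubgroup (ℚ × ℚ)} {l0 l1 : ℚ × ℚ}
    {N : ℕ} (hN : 0 < N) {U : ℤ} (hL : ∀ w, w ∈ L ↔ ∃ s t : ℤ, w = s • l0 + t • l1)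
    (h0 : (E n ^ K) l0 = (-U) • l0 + (N : ℤ) • l1) (hp1 : 0 < l0.1) (hp2 : 0 < l0.2)
    {P R : ℤ} {x : ℚ × ℚ} (hx : (E n ^ K) x - x = P • l0 + R • l1) :
    BO (LatB ((ep n ^ K + U) / N) (((ep n ^ K)⁻¹ + U) / N)) (ep n ^ K) (1, 1)
      (ptB (ep n ^ K) ((ep n ^ K + U) / N) (((ep n ^ K)⁻¹ + U) / N) P R) =
    BO (L.map (io2 n)) (ep n ^ K) (io2 n l0) (io2 n x) := by
  have hep := ep_gt hn
  have hep0 : (0 : ℝ) < ep n := by linarith
  obtain ⟨om, hom⟩ : ∃ om, om = ep n ^ K := ⟨_, rfl⟩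
  have hom1 : 1 < om := by
    rw [hom]
    exact one_lt_pow₀ hep hK.ne'
  have hom0 : 0 < om := by linarith
  have hN0 : (N : ℝ) ≠ 0 := by exact_mod_cast hN.ne'
  have hpos1 : 0 < (io2 n l0).1 := by
    rw [io2_fst]
    have h1 : (0 : ℝ) < l0.1 := by exact_mod_cast hp1
    have h2 : (0 : ℝ) < l0.2 := by exact_mod_cast hp2
    positivity
  have hpos2 : 0 < (io2 n l0).2 := by
    rw [io2_snd]
    have h1 : (0 : ℝ) < l0.1 := by exact_mod_cast hp1
    have h2 : (0 : ℝ) < l0.2 := by exact_mod_cast hp2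
    positivity
  have h0' := congrArg (io2 n) h0
  rw [io2_EK hn, ← hom, map_add, map_zsmul, map_zsmul, Prod.ext_iff] at h0'
  obtain ⟨a1, a2⟩ := h0'
  rw [act_fst] at a1
  rw [act_snd] at a2
  simp only [Prod.fst_add, Prod.snd_add, zs1, zs2] at a1 a2
  push_cast at a1 a2
  have m1 : (io2 n l1).1 = (om + U) / N * (io2 n l0).1 := by
    field_simp
    linear_combination -a1
  have m2 : (io2 n l1).2 = (om⁻¹ + U) / N * (io2 n l0).2 := by
    rw [div_mul_eq_mul_div, eq_div_iff hN0]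
    linear_combination -a2
  have hx' := congrArg (io2 n) hx
  rw [map_sub, io2_EK hn, ← hom, map_add, map_zsmul, map_zsmul, Prod.ext_iff] at hx'
  obtain ⟨b1, b2⟩ := hx'
  simp only [Prod.fst_add, Prod.snd_add, zs1, zs2, Prod.fst_sub,
    Prod.snd_sub] at b1 b2
  rw [act_fst] at b1
  rw [act_snd] at b2
  have hne1 : om - 1 ≠ 0 := by linarith
  have hne2 : om⁻¹ - 1 ≠ 0 := by
    have : om⁻¹ < 1 := inv_lt_one_of_one_lt₀ hom1
    linarith
  have hpt1 : (io2 n l0).1 * (((P : ℝ) + R * ((om + U) / N)) / (om - 1)) = (io2 n x).1 := by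
    rw [← mul_div_assoc, div_eq_iff hne1]
    rw [m1] at b1
    linear_combination -b1
  have hpt2 : (io2 n l0).2 * (((P : ℝ) + R * ((om⁻¹ + U) / N)) / (om⁻¹ - 1)) = (io2 n x).2 := by
    rw [← mul_div_assoc, div_eq_iff hne2]
    rw [m2] at b2
    linear_combination -b2
  rw [← hom]
  have key := BO_scale (L := LatB ((om + U) / N) ((om⁻¹ + U) / N)) (L' := L.map (io2 n))
    (om := om) (l := ((1 : ℝ), (1 : ℝ)))
    (w := ptB om ((om + U) / N) ((om⁻¹ + U) / N) P R) (w' := io2 n x) hpos1 hpos2 hom1 one_pos ?_ ?_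
  · rw [← key, mul_one, mul_one]
  · intro y
    rw [mem_LatB, AddSubgroup.mem_map]
    constructor
    · rintro ⟨s, t, rfl⟩
      refine ⟨s • l0 + t • l1, (hL _).2 ⟨s, t, rfl⟩, ?_⟩
      rw [map_add, map_zsmul, map_zsmul]
      ext
      · simp only [Prod.fst_add, zs1, m1]
        ring
      · simp only [Prod.snd_add, zs2, m2]
        ring
    · rintro ⟨v, hv, hvy⟩
      obtain ⟨s, t, rfl⟩ := (hL _).1 hv
      refine ⟨s, t, ?_⟩
      rw [map_add, map_zsmul, map_zsmul, Prod.ext_iff] at hvy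
      obtain ⟨c1, c2⟩ := hvy
      simp only [Prod.fst_add, Prod.snd_add, zs1, zs2, m1, m2] at c1 c2
      ext
      · apply mul_left_cancel₀ hpos1.ne'
        simp only
        linear_combination -c1
      · apply mul_left_cancel₀ hpos2.ne'
        simp only
        linear_combination -c2
  · have h1 : ((io2 n l0).1 * (ptB om ((om + U) / N) ((om⁻¹ + U) / N) P R).1,
        (io2 n l0).2 * (ptB om ((om + U) / N) ((om⁻¹ + U) / N) P R).2) - io2 n x = 0 := by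
      unfold ptB
      simp only [hpt1, hpt2]
      exact sub_self _
    rw [h1]
    exact zero_mem _

/-- The analytic part, block B4 and B6, in the form which is used for the field `near`. -/
def AllBSol : Prop := ∀ (l N : ℕ) (A B U : ℤ) (om : ℝ), l.Prime → 0 < N → ¬ l ∣ N →
  B * N = A * U + 1 → 3 ≤ A - U → 1 < om → om + om⁻¹ = ((A - U : ℤ) : ℝ) →
  BSol l N A B U om (fun P R => -2 * BO (LatB ((om + U) / N) ((om⁻¹ + U) / N)) om (1, 1)
    (ptB om ((om + U) / N) ((om⁻¹ + U) / N) P R))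

/-- **Block B9**: the field `near` of `Tower`. -/
theorem near_of_all {n : ℤ} (hn : 3 ≤ n) (hBS : AllBSol) :
    ∀ l : ℕ, l.Prime → l ≠ 2 → ¬ IsSquare ((n ^ 2 - 4 : ℤ) : ZMod l) →
    ∀ K j : ℕ, 0 < K → 0 < j →
    (∀ z ∈ Lam, ∃ z' ∈ Lam, (E n ^ K) z - z = (l ^ j) • z') →
    (∃ z ∈ Lam, ∀ z' ∈ Lam, (E n ^ K) z - z ≠ (l ^ (j + 1)) • z') →
    ∀ c : ℚ × ℚ, (l ^ j) • c ∈ Lam → (l ^ (j - 1)) • c ∉ Lam → Near n (rhoT n) l K j c := by
  intro l hl hl2 hns K j hK hj hdiv hndiv c hc1 hc2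
  -- the coordinates of `ε ^ K - 1`
  have hEK : ∀ v : ℚ × ℚ, (E n ^ K) v = (pq n K).1 • v + (pq n K).2 • E n v := by
    intro v
    rw [E_pow, ELat.iterate_A]
    rfl
  have hl0 : (l : ℤ) ≠ 0 := by exact_mod_cast hl.ne_zero
  have hlj : ((l : ℤ) ^ j) ≠ 0 := pow_ne_zero j hl0
  obtain ⟨c0, d0, hc, hd⟩ : ∃ c0 d0 : ℤ, (pq n K).1 - 1 = (l : ℤ) ^ j * c0 ∧
      (pq n K).2 = (l : ℤ) ^ j * d0 := by
    obtain ⟨z', ⟨i, i', rfl⟩, hz⟩ := hdiv (1, 0) ⟨1, 0, by simp⟩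
    rw [hEK] at hz
    have hE : E n ((1 : ℚ), (0 : ℚ)) = (0, 1) := by
      ext
      · show -(0 : ℚ) = 0
        simp
      · show (1 : ℚ) + n * 0 = 1
        simp
    rw [hE, Prod.ext_iff] at hz
    obtain ⟨h1, h2⟩ := hz
    simp only [Prod.fst_sub, Prod.snd_sub, Prod.fst_add, Prod.snd_add, Prod.smul_mk,
      zsmul_eq_mul, nsmul_eq_mul] at h1 h2
    refine ⟨i, i', ?_, ?_⟩
    · have h3 : (((pq n K).1 - 1 : ℤ) : ℚ) = (((l : ℤ) ^ j * i : ℤ) : ℚ) := by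
        push_cast at h1 ⊢
        linarith
      exact_mod_cast h3
    · have h3 : (((pq n K).2 : ℤ) : ℚ) = (((l : ℤ) ^ j * i' : ℤ) : ℚ) := by
        push_cast at h2 ⊢
        linarith
      exact_mod_cast h3
  have hcd : ¬ ((l : ℤ) ∣ c0 ∧ (l : ℤ) ∣ d0) := by
    rintro ⟨⟨c', rfl⟩, ⟨d', rfl⟩⟩
    obtain ⟨z, hz, hz'⟩ := hndiv
    have hLam : c' • z + d' • E n z ∈ Lam := by
      rw [← EL_L0 n] at hz ⊢
      exact (EL n).U_mem_L0 c' d' hz
    refine hz' _ hLam ?_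
    have h1 : (pq n K).1 = 1 + (l : ℤ) ^ j * (l * c') := by linarith
    rw [hEK, h1, hd]
    have h2 : (l ^ (j + 1)) • (c' • z + d' • E n z) =
        (((l : ℤ) ^ j * l)) • (c' • z + d' • E n z) := by
      rw [← natCast_zsmul]
      congr 1
    rw [h2]
    module
  have hnorm := pq_norm n K
  have hld : ¬ (l : ℤ) ∣ d0 := by
    refine Bas.not_dvd_d hl hl2 hj (n := n) (c := c0) (d := d0) ?_ hcd
    have h1 : (pq n K).1 = 1 + (l : ℤ) ^ j * c0 := by linarith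
    rw [h1, hd] at hnorm
    exact hnorm
  have hzn : ∀ (i : ℕ) (v : ℚ × ℚ), ((l : ℤ) ^ i) • v = (l ^ i) • v := by
    intro i v
    rw [← natCast_zsmul]
    push_cast
    rfl
  have D : CycDat (EL n) l j c0 d0 c := by
    refine ⟨hl, hj, fun x y hxy => inert_of_not_square hl hns x y hxy, hld, ?_, ?_⟩
    · rw [EL_L0, hzn]
      exact hc1
    · intro x hx h1
      rw [EL_L0] at hx
      apply hc2
      have h2 : ((l : ℤ) ^ (j - 1)) • c = x := by
        apply CycDat.zsmul_inj hl0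
        rw [← h1, smul_smul, ← pow_succ', Nat.sub_add_cancel hj]
      rw [← hzn, h2]
      exact hx
  obtain ⟨x, y, a, b, l0, l1, N, A, B, U, hx, hy, hdet, hl0', hl1, ⟨z, hz, hlz⟩, hN, hlN, hBN, htr, h3,
    hL, hE0, hE1⟩ := Bas.exists_basis (E := EL n) hn D hK hc hd
  have hljq : (0 : ℚ) < (l : ℚ) ^ j := by
    have : (0 : ℚ) < l := by exact_mod_cast hl.pos
    positivity
  have hl01 : 0 < l0.1 ∧ 0 < l0.2 := by
    have e1 : (EL n).e = (1, 0) := rfl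
    have e2 : (EL n).A (1, 0) = (0, 1) := by
      ext
      · show -(0 : ℚ) = 0
        simp
      · show (1 : ℚ) + n * 0 = 1
        simp
    rw [e1, e2, Prod.ext_iff] at hl0'
    obtain ⟨h1, h2⟩ := hl0'
    have q1 : ∀ (k : ℤ) (v : ℚ × ℚ), (k • v).1 = k * v.1 := fun k v => by simp
    have q2 : ∀ (k : ℤ) (v : ℚ × ℚ), (k • v).2 = k * v.2 := fun k v => by simp
    simp only [Prod.fst_add, Prod.snd_add, q1, q2] at h1 h2
    push_cast at h1 h2
    have hx' : (0 : ℚ) < x := by exact_mod_cast hx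
    have hy' : (0 : ℚ) < y := by exact_mod_cast hy
    constructor
    · have h4 : 0 < (l : ℚ) ^ j * l0.1 := by linarith
      exact (mul_pos_iff_of_pos_left hljq).1 h4
    · have h4 : 0 < (l : ℚ) ^ j * l0.2 := by linarith
      exact (mul_pos_iff_of_pos_left hljq).1 h4
  have hLc : ∀ w, w ∈ Lc c ↔ ∃ s t : ℤ, w = s • l0 + t • l1 := by
    intro w
    rw [← hL, L_eq_Lc D]
  have hl0L : l0 ∈ Lc c := (hLc l0).2 ⟨1, 0, by simp⟩
  have hep := ep_gt hn
  have hom1 : 1 < ep n ^ K := one_lt_pow₀ hep hK.ne'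
  have hE0' : (E n ^ K) l0 = (-U) • l0 + (N : ℤ) • l1 := by rw [E_pow]; exact hE0
  have hS := hBS l N A B U (ep n ^ K) hl hN hlN hBN h3 hom1 (by rw [near_ep_trace hn, htr]; rfl)
  refine near_of_sol D hc hd hL hE0 hE1 (fun s t h => Bas.basis_ind hlj hdet hl0' hl1 h) hS
    (rhoT_per hn) (rhoT_odd hn) ?_
  intro P R v hv hvL
  have h5 := BO_basis hn hK hN hLc hE0' hl01.1 hl01.2 hv
  show -2 * _ = _
  rw [h5]
  rw [neg_mul]
  refine BO_Lc hn hl hK hj hdiv hc1 hc2 hvL ?_ (AddSubgroup.mem_map_of_mem _ hl0L) ?_ ?_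
  · rw [hv, hLc]
    exact ⟨P, R, rfl⟩
  · rw [io2_fst]
    have h1 : (0 : ℝ) < l0.1 := by exact_mod_cast hl01.1
    have h2 : (0 : ℝ) < l0.2 := by exact_mod_cast hl01.2
    positivity
  · rw [io2_snd]
    have h1 : (0 : ℝ) < l0.1 := by exact_mod_cast hl01.1
    have h2 : (0 : ℝ) < l0.2 := by exact_mod_cast hl01.2
    positivity

end Zau
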