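import Pool.Agent.Lib_zau.LinkB
import Pool.Agent.Lib_zau.Near2

/-!
# Zauner (MP_1c78a5_mp), block B6 in the form of block B9

`bG w / bG (-w) = exp (-2 BO (ℤ + ℤ β) om (1, 1) (ptB om β β' P R))`.
-/

set_option autoImplicit false

namespace Zau.LB

open Ghost Zau Zau.Cone

section

variable (P : Par) (N : ℕ) (A B U : ℤ) (hN : 0 < N) (hdet : B * N = A * U + 1)
  (htr : P.b ^ 2 + P.o ^ 2 = ((A - U : ℤ) : ℝ)) (hub : 1 < P.b) (hAU : 3 ≤ A - U)

/-- **The link** for the lattice `ℤ + ℤ β`, `β = (om + U) / N`. -/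
theorem bG_link_LatB (x : ℤ × ℤ) (hx : (QuotientAddGroup.mk x : GQ N A B U) ≠ 0) :
    bG (mkLens P N A B U hN hdet htr hub hAU) (QuotientAddGroup.mk x : GQ N A B U) /
      bG (mkLens P N A B U hN hdet htr hub hAU) (-(QuotientAddGroup.mk x : GQ N A B U)) =
      Complex.exp (((-2 * BO (LatB ((P.b ^ 2 + U) / N) (((P.b ^ 2)⁻¹ + U) / N)) (P.b ^ 2) (1, 1)
        (ptB (P.b ^ 2) ((P.b ^ 2 + U) / N) (((P.b ^ 2)⁻¹ + U) / N) x.1 x.2) : ℝ)) : ℂ) := by
  have hom : 1 < P.b ^ 2 := (isU_of_par hub htr).one_lt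
  have hom0 : 0 < P.b ^ 2 := by linarith
  have hne1 : P.b ^ 2 - 1 ≠ 0 := by linarith
  have hne2 : (P.b ^ 2)⁻¹ - 1 ≠ 0 := by
    have : (P.b ^ 2)⁻¹ < 1 := inv_lt_one_of_one_lt₀ hom
    linarith
  have hNR : (N : ℝ) ≠ 0 := by exact_mod_cast hN.ne'
  refine bG_link P N A B U hN hdet htr hub hAU x hx (l0 := ((1 : ℝ), (1 : ℝ)))
    (l1 := ((P.b ^ 2 + U) / N, ((P.b ^ 2)⁻¹ + U) / N)) one_pos one_pos ?_ ?_ ?_ _ ?_ ?_
  · intro z
    rw [mem_LatB]
    constructor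
    · rintro ⟨s, t, rfl⟩
      exact ⟨s, t, by simp, by simp⟩
    · rintro ⟨s, t, h1, h2⟩
      refine ⟨s, t, ?_⟩
      ext
      · simp only at h1 ⊢
        rw [h1]
        ring
      · simp only at h2 ⊢
        rw [h2]
        ring
  · simp only
    rw [mul_div_cancel₀ _ hNR]
    ring
  · simp only
    rw [mul_div_cancel₀ _ hNR]
    ring
  · unfold ptB
    simp only
    generalize P.b ^ 2 = o at *
    rw [← sub_one_mul, mul_div_cancel₀ _ hne1]
    ring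
  · unfold ptB
    simp only
    generalize (P.b ^ 2)⁻¹ = o' at *
    rw [← sub_one_mul, mul_div_cancel₀ _ hne2]
    ring

end

/-- The parameter of a real number `om > 1`. -/
noncomputable def parOf (om : ℝ) (h : 1 < om) : Par where
  b := Real.sqrt om
  o := (Real.sqrt om)⁻¹
  hb := Real.sqrt_pos.2 (by linarith)
  ho := inv_pos.2 (Real.sqrt_pos.2 (by linarith))
  hbo := mul_inv_cancel₀ (Real.sqrt_pos.2 (by linarith)).ne'

theorem parOf_sq (om : ℝ) (h : 1 < om) : (parOf om h).b ^ 2 = om :=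
  Real.sq_sqrt (by linarith)

theorem parOf_sq' (om : ℝ) (h : 1 < om) : (parOf om h).o ^ 2 = om⁻¹ := by
  show ((Real.sqrt om)⁻¹) ^ 2 = _
  rw [inv_pow, Real.sq_sqrt (by linarith)]

theorem parOf_one_lt (om : ℝ) (h : 1 < om) : 1 < (parOf om h).b := by
  show 1 < Real.sqrt om
  rw [Real.lt_sqrt (by norm_num)]
  simpa using h

theorem parOf_tr (om : ℝ) (h : 1 < om) {t : ℤ} (ht : om + om⁻¹ = (t : ℝ)) :
    (parOf om h).b ^ 2 + (parOf om h).o ^ 2 = (t : ℝ) := by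
  rw [parOf_sq, parOf_sq', ht]

end Zau.LB
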