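import Pool.Agent.Lib_zau.LinkC
import Pool.Agent.Lib_zau.Near3

/-!
# Zauner (MP_1c78a5_mp), block B6: the proposition `LinkAll` of block B9
-/

set_option autoImplicit false

namespace Zau

open Ghost Zau.Cone

theorem eq_mkLens (L : Lens) (hD : L.D = Df L.N L.U L.om) (hR : L.R = Rf L.N L.U L.om) :
    L = mkLens L.P L.N L.A L.B L.U L.hN L.hdet L.htr L.hub L.hAU := by
  cases L with
  | mk P N A B U hN hdet htr hub hAU D R D_per R_per D_diff R_diff DR D2 R2 D3 R3 Dup Dlim Ddn =>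
    change D = Df N U (P.b ^ 2) at hD
    change R = Rf N U (P.b ^ 2) at hR
    subst hD
    subst hR
    rfl

/-- **The link with the cone integrals**, in the form of `Near3`. -/
theorem linkAll : LinkAll := by
  intro L hD hR x hx
  obtain ⟨P, N, A, B, U, hN, hdet, htr, hub, hAU, rfl⟩ :
      ∃ (P : Par) (N : ℕ) (A B U : ℤ) (hN : 0 < N) (hdet : B * N = A * U + 1)
        (htr : P.b ^ 2 + P.o ^ 2 = ((A - U : ℤ) : ℝ)) (hub : 1 < P.b) (hAU : 3 ≤ A - U),
        L = mkLens P N A B U hN hdet htr hub hAU :=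
    ⟨_, _, _, _, _, _, _, _, _, _, eq_mkLens L hD hR⟩
  exact LB.bG_link_LatB P N A B U hN hdet htr hub hAU x hx

end Zau
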