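import Pool.Agent.Lib_zau.MDefs
import Pool.Agent.Lib_MP_1c78a5_ghost.GUp

/-!
# The main contour: algebra and residues
-/

open Complex MeasureTheory Set Filter Topology
open scoped Real ComplexConjugate

namespace Zau

open Ghost

namespace MRes

theorem e_add (x y : ℂ) : e (x + y) = e x * e y := GUP_e_add x y

theorem e_ne (x : ℂ) : e x ≠ 0 := Complex.exp_ne_zero _

theorem e_int (k : ℤ) : e (k : ℂ) = 1 := by
  unfold e
  rw [show (2 : ℂ) * π * I * (k : ℂ) = (k : ℂ) * (2 * π * I) by ring]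
  exact Complex.exp_int_mul_two_pi_mul_I k

theorem e_add_int (x : ℂ) (k : ℤ) : e (x + k) = e x := by
  rw [e_add, e_int, mul_one]

theorem e_eq_of_sub {x y : ℂ} (k : ℤ) (h : x - y = k) : e x = e y := by
  rw [show x = y + k by rw [← h]; ring, e_add_int]

theorem e_eq_one {x : ℂ} : e x = 1 ↔ ∃ k : ℤ, x = k := by
  unfold e
  rw [Complex.exp_eq_one_iff]
  have h : (2 : ℂ) * π * I ≠ 0 := Complex.two_pi_I_ne_zero
  constructor
  · rintro ⟨k, hk⟩
    refine ⟨k, ?_⟩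
    have : (2 : ℂ) * π * I * x = 2 * π * I * k := by rw [hk]; ring
    exact mul_left_cancel₀ h this
  · rintro ⟨k, rfl⟩
    exact ⟨k, by ring⟩

variable (L : Lens)

theorem Nc_ne : (L.N : ℂ) ≠ 0 := by exact_mod_cast L.hN.ne'

theorem N_pos : (0 : ℝ) < L.N := by exact_mod_cast L.hN

theorem om_gt : 1 < L.om := by
  have := L.hub
  unfold Lens.om
  nlinarith

theorem omr_pos : 0 < L.om := lt_trans one_pos (om_gt L)

theorem omc_ne : (L.om : ℂ) ≠ 0 := by exact_mod_cast (omr_pos L).ne'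

theorem om1c_ne : (L.om : ℂ) - 1 ≠ 0 := by
  have h : L.om - 1 ≠ 0 := by have := om_gt L; linarith
  exact_mod_cast h

theorem tr_real : L.om ^ 2 + 1 = ((L.A : ℝ) - L.U) * L.om := by
  have h := L.htr
  have h2 := L.P.hbo
  push_cast at h
  unfold Lens.om
  rw [← h]
  have h3 : L.P.o ^ 2 * L.P.b ^ 2 = 1 := by
    rw [← mul_pow, mul_comm L.P.o, h2, one_pow]
  linear_combination -h3

theorem tr_mul : (L.om : ℂ) ^ 2 + 1 = (L.A - L.U) * L.om := by exact_mod_cast tr_real L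

theorem detC : (L.B : ℂ) * L.N = L.A * L.U + 1 := by exact_mod_cast L.hdet

theorem UL_eq (b : ℤ) (ξ : ℂ) : L.UL ξ b = L.UR ξ b * L.qq ξ b := by
  unfold Lens.UL Lens.UR Lens.qq
  rw [← e_add]
  congr 1
  have h1 := Nc_ne L
  have h2 := omc_ne L
  field_simp
  ring

theorem qq_shift (b : ℤ) (ξ : ℂ) : L.qq (ξ + L.om - 1) (b + L.U + 1) = L.qq ξ b := by
  unfold Lens.qq
  refine e_eq_of_sub (-L.B) ?_
  have h1 := Nc_ne L
  have h2 := omc_ne L
  have h3 := tr_mul L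
  have h4 := detC L
  push_cast
  field_simp
  linear_combination h3 + (L.om : ℂ) * h4

theorem qq_per (b : ℤ) (ξ : ℂ) : L.qq ξ (b + L.N) = L.qq ξ b := by
  unfold Lens.qq
  refine e_eq_of_sub (-(L.A - 1)) ?_
  have h1 := Nc_ne L
  push_cast
  field_simp
  ring

theorem chi_per (η : ℂ) (c b : ℤ) (ξ : ℂ) : L.chi η c ξ (b + L.N) = L.chi η c ξ b := by
  unfold Lens.chi
  refine e_eq_of_sub (L.A * c) ?_
  have h1 := Nc_ne L
  push_cast
  field_simp
  ring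

/-- The fixed points. -/
theorem qq_eq_one {b : ℤ} {z : ℂ} (h : L.qq z b = 1) :
    ∃ r : ℤ, (L.N : ℤ) ∣ r - (L.A - 1) * b ∧ z = L.xi r := by
  unfold Lens.qq at h
  rw [e_eq_one] at h
  obtain ⟨j, hj⟩ := h
  refine ⟨L.N * j + (L.A - 1) * b, ⟨j, by ring⟩, ?_⟩
  have h1 := Nc_ne L
  have h2 := omc_ne L
  have h3 := om1c_ne L
  unfold Lens.xi
  push_cast
  rw [eq_div_iff h3]
  field_simp at hj
  linear_combination hj

theorem qq_xi {b r : ℤ} (h : (L.N : ℤ) ∣ r - (L.A - 1) * b) : L.qq (L.xi r) b = 1 := by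
  obtain ⟨j, hj⟩ := h
  unfold Lens.qq
  rw [e_eq_one]
  refine ⟨j, ?_⟩
  have h1 := Nc_ne L
  have h2 := omc_ne L
  have h3 := om1c_ne L
  have hj' : (r : ℂ) - (L.A - 1) * b = L.N * j := by exact_mod_cast hj
  unfold Lens.xi
  push_cast
  field_simp
  linear_combination hj'

/-- The character of a fixed point is invariant. -/
theorem chi_shift {v0 c : ℤ} (hv : (L.N : ℤ) ∣ v0 - (L.A - 1) * c) (b : ℤ) (ξ : ℂ) :
    L.chi (L.xi v0) c (ξ + L.om - 1) (b + L.U + 1) = L.chi (L.xi v0) c ξ b := by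
  obtain ⟨j, hj⟩ := hv
  unfold Lens.chi
  refine e_eq_of_sub (-j + L.B * c) ?_
  have h1 := Nc_ne L
  have h2 := omc_ne L
  have h3 := om1c_ne L
  have h4 := detC L
  have hj' : (v0 : ℂ) - (L.A - 1) * c = L.N * j := by exact_mod_cast hj
  unfold Lens.xi
  push_cast
  field_simp
  linear_combination ((L.om : ℂ) - 1) * (-(c : ℂ)) * h4 - ((L.om : ℂ) - 1) * hj'

/-- Multiplication of the character by the right character. -/
theorem chi_mul_UR (η : ℂ) (c b : ℤ) (ξ : ℂ) :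
    L.chi η c ξ b * L.UR ξ b = L.chi (η - 1) (c + 1) ξ b := by
  unfold Lens.chi Lens.UR
  rw [← e_add]
  congr 1
  have h1 := Nc_ne L
  have h2 := omc_ne L
  push_cast
  field_simp
  ring

theorem UL_sub (p0 k b : ℤ) (ξ : ℂ) :
    L.UL (ξ - L.xi p0) (b - k) = L.UL ξ b * L.al p0 k := by
  unfold Lens.UL Lens.al
  rw [← e_add]
  congr 1
  have h1 := Nc_ne L
  push_cast
  field_simp
  ring

theorem UR_sub {p0 k : ℤ} (hp : (L.N : ℤ) ∣ p0 - (L.A - 1) * k) (b : ℤ) (ξ : ℂ) :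
    L.UR (ξ - L.xi p0) (b - k) = L.UR ξ b * L.al p0 k := by
  obtain ⟨j, hj⟩ := hp
  unfold Lens.UR Lens.al
  rw [← e_add]
  refine e_eq_of_sub j ?_
  have h1 := Nc_ne L
  have h2 := omc_ne L
  have h3 := om1c_ne L
  have hj' : (p0 : ℂ) - (L.A - 1) * k = L.N * j := by exact_mod_cast hj
  unfold Lens.xi
  push_cast
  field_simp
  linear_combination (L.om : ℂ) * ((L.om : ℂ) - 1) * hj'

theorem UR_left (b : ℤ) (ξ : ℂ) : L.UR (ξ + L.om) (b + L.U) = L.UR ξ b := by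
  unfold Lens.UR
  refine e_eq_of_sub L.B ?_
  have h1 := Nc_ne L
  have h2 := omc_ne L
  have h4 := detC L
  push_cast
  field_simp
  linear_combination (-(L.om : ℂ)) * h4

theorem UL_right (b : ℤ) (ξ : ℂ) : L.UL (ξ - 1) (b + 1) = L.UL ξ b := by
  unfold Lens.UL
  congr 1
  push_cast
  ring

theorem omC : ((L.P.b : ℂ)) ^ 2 = (L.om : ℂ) := by
  unfold Lens.om
  push_cast
  rfl

theorem D2' (b : ℤ) (ξ : ℂ) (h : 0 < ξ.re) : L.D (b + 1) (ξ - 1) * (1 - L.UR ξ b) = L.D b ξ := by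
  have := L.D2 b ξ (Or.inr h)
  rw [omC] at this
  exact this

theorem R2' (b : ℤ) (ξ : ℂ) (h : ξ.re < L.om) :
    L.R (b + 1) (ξ - 1) = L.R b ξ * (1 - L.UR ξ b) := by
  have := L.R2 b ξ (Or.inr h)
  rw [omC] at this
  exact this

theorem D3' (b : ℤ) (ξ : ℂ) (h : -1 < ξ.re) :
    L.D (b + L.U) (ξ + L.om) = L.D b ξ * (1 - L.UL ξ b) := by
  have := L.D3 b ξ (Or.inr h)
  rw [omC] at this
  exact this

theorem R3' (b : ℤ) (ξ : ℂ) (h : ξ.re < 0) :
    L.R (b + L.U) (ξ + L.om) * (1 - L.UL ξ b) = L.R b ξ := by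
  have := L.R3 b ξ (Or.inr h)
  rw [omC] at this
  exact this

theorem DR_eq {p0 k : ℤ} (b : ℤ) {ξ : ℂ} (h0 : 0 < ξ.re) (h1 : ξ.re < L.xi p0) :
    L.D b ξ * L.R (b - k) (ξ - L.xi p0) = L.f (L.xi p0) k ξ b * (1 - L.UR ξ b) *
      (1 - L.UL ξ b * L.al p0 k) := by
  unfold Lens.f
  rw [← D2' L b ξ h0, ← R3' L (b - k) (ξ - L.xi p0) (by simpa using h1), UL_sub]
  ring

theorem DR_shift {p0 k : ℤ} (hp : (L.N : ℤ) ∣ p0 - (L.A - 1) * k) (b : ℤ) {ξ : ℂ}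
    (h0 : 0 < ξ.re) (h1 : ξ.re < L.xi p0) :
    L.D (b + L.U + 1) (ξ + L.om - 1) * L.R (b + L.U + 1 - k) (ξ + L.om - 1 - L.xi p0) =
      L.f (L.xi p0) k ξ b * (1 - L.UL ξ b) * (1 - L.UR ξ b * L.al p0 k) := by
  unfold Lens.f
  have h2 := D3' L (b + 1) (ξ - 1) (by simpa using h0)
  have h3 := R2' L (b - k + L.U) (ξ - L.xi p0 + L.om) (by simpa using h1)
  rw [UR_left, UR_sub L hp] at h3
  rw [UL_right] at h2
  rw [show b + L.U + 1 = b + 1 + L.U by ring, show ξ + (L.om : ℂ) - 1 = ξ - 1 + L.om by ring, h2,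
    show b + 1 + L.U - k = b - k + L.U + 1 by ring,
    show ξ - 1 + (L.om : ℂ) - (L.xi p0 : ℂ) = ξ - (L.xi p0 : ℂ) + L.om - 1 by ring, h3]
  ring

end MRes

namespace Lens

open MRes

variable (L : Lens)

theorem KK_per (p0 k v0 c : ℤ) (z : ℂ) (b : ℤ) :
    L.KK p0 k v0 c z (b + L.N) = L.KK p0 k v0 c z b := by
  unfold KK
  rw [chi_per, qq_per, L.D_per, show b + (L.N : ℤ) - k = b - k + L.N by ring, L.R_per]

/-- The difference of the integrand and of its translate. -/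
theorem KK_shift {p0 k v0 c : ℤ} (hp : (L.N : ℤ) ∣ p0 - (L.A - 1) * k)
    (hv : (L.N : ℤ) ∣ v0 - (L.A - 1) * c) {z : ℂ} (b : ℤ) (h0 : 0 < z.re) (h1 : z.re < L.xi p0)
    (h2 : L.qq z b ≠ 1) :
    L.KK p0 k v0 c (z + L.om - 1) (b + L.U + 1) - L.KK p0 k v0 c z b =
      (1 - L.al p0 k) * (L.f (L.xi p0) k z b * L.chi (L.xi v0 - 1) (c + 1) z b) := by
  unfold KK
  rw [DR_eq L b h0 h1, DR_shift L hp b h0 h1, chi_shift L hv, qq_shift, ← chi_mul_UR, UL_eq]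
  have h3 : 1 - L.qq z b ≠ 0 := sub_ne_zero.2 (Ne.symm h2)
  field_simp
  ring

theorem om1_pos : 0 < L.om - 1 := by
  have := om_gt L
  linarith

theorem one_lt_xi_one : 1 < L.xi 1 := by
  unfold Lens.xi
  rw [lt_div_iff₀ (om1_pos L)]
  push_cast
  linarith

theorem xi_eq1 (r : ℤ) : L.xi r = r * L.xi 1 := by
  unfold Lens.xi
  push_cast
  ring

theorem xi_inj {r s : ℤ} (h : L.xi r = L.xi s) : r = s := by
  rw [xi_eq1, xi_eq1 L s] at h
  have h1 := one_lt_xi_one L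
  have h2 := mul_right_cancel₀ (by linarith : L.xi 1 ≠ 0) h
  exact_mod_cast h2

theorem xi_mem {r : ℤ} (h0 : 1 / 2 ≤ L.xi r) (h1 : L.xi r ≤ L.om - 1 / 2) : 1 ≤ r ∧ r ≤ L.m := by
  constructor
  · by_contra h
    have h2 : r ≤ 0 := by omega
    have h3 := xi_le L h2
    have h4 : L.xi 0 = 0 := L.xi_zero
    linarith
  · by_contra h
    have h2 : L.m + 1 ≤ r := by omega
    have h3 := xi_le L h2
    have h4 : L.xi (L.m + 1) = L.om - 1 + L.xi 1 := by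
      rw [xi_add, xi_m]
    have h5 := one_lt_xi_one L
    linarith

theorem xi_strip {r : ℤ} (h0 : 1 ≤ r) (h1 : r ≤ L.m) : 1 / 2 < L.xi r ∧ L.xi r < L.om - 1 / 2 := by
  have h2 := one_lt_xi L h0
  have h3 := xi_le L h1
  rw [xi_m] at h3
  constructor <;> linarith

theorem qq_hasDerivAt (z : ℂ) (b : ℤ) :
    HasDerivAt (fun z => L.qq z b) (L.qq z b * (2 * π * I * (((L.om : ℂ) - 1) / (L.N * L.om)))) z := by
  unfold Lens.qq e
  have h1 : HasDerivAt (fun z : ℂ => 2 * π * I * (z * ((L.om : ℂ) - 1) / (L.N * (L.om : ℂ)) -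
      (L.A - 1) * b / L.N)) (2 * π * I * (((L.om : ℂ) - 1) / (L.N * L.om))) z := by
    have h2 : HasDerivAt (fun z : ℂ => z * (((L.om : ℂ) - 1) / (L.N * (L.om : ℂ))))
        (1 * (((L.om : ℂ) - 1) / (L.N * (L.om : ℂ)))) z := (hasDerivAt_id z).mul_const _
    have h3 := (h2.sub_const (((L.A : ℂ) - 1) * b / L.N)).const_mul (2 * π * I)
    rw [one_mul] at h3
    refine h3.congr_of_eventuallyEq (Eventually.of_forall fun w => ?_)
    show _ = 2 * π * I * (w * (((L.om : ℂ) - 1) / (L.N * (L.om : ℂ))) - ((L.A : ℂ) - 1) * b / L.N)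
    ring
  exact h1.cexp

theorem chi_differentiable (η : ℂ) (c b : ℤ) : Differentiable ℂ (fun z => L.chi η c z b) := by
  unfold Lens.chi e
  fun_prop

/-- The regular factor of the integrand. -/
theorem HH_diff {p0 : ℤ} (hp0 : 1 ≤ p0) (k v0 c : ℤ) {z : ℂ} (b : ℤ) (h0 : 1 / 2 ≤ z.re)
    (h1 : z.re ≤ L.om - 1 / 2) :
    DifferentiableAt ℂ (fun z => L.chi (L.xi v0) c z b * (L.D b z * L.R (b - k) (z - L.xi p0))) z := by
  have h2 := one_lt_xi L hp0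
  have hD : DifferentiableAt ℂ (L.D b) z := L.D_diff b z (Or.inr (by linarith))
  have hR : DifferentiableAt ℂ (L.R (b - k)) (z - L.xi p0) := by
    refine L.R_diff _ _ (Or.inr ?_)
    have h3 : (z - (L.xi p0 : ℂ)).re = z.re - L.xi p0 := by simp
    rw [h3]
    change _ < L.om
    linarith
  have hR' : DifferentiableAt ℂ (fun z => L.R (b - k) (z - L.xi p0)) z :=
    DifferentiableAt.comp z hR (by fun_prop)
  exact ((chi_differentiable L _ c b) z).mul (hD.mul hR')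

theorem KK_diff {p0 : ℤ} (hp0 : 1 ≤ p0) (k v0 c : ℤ) {z : ℂ} (b : ℤ) (h0 : 1 / 2 ≤ z.re)
    (h1 : z.re ≤ L.om - 1 / 2) (h2 : ∀ r : ℤ, (L.N : ℤ) ∣ r - (L.A - 1) * b → z ≠ L.xi r) :
    DifferentiableAt ℂ (fun z => L.KK p0 k v0 c z b) z := by
  unfold KK
  refine (HH_diff L hp0 k v0 c b h0 h1).mul ?_
  refine DifferentiableAt.inv ((qq_hasDerivAt L z b).differentiableAt.const_sub 1) ?_
  rw [sub_ne_zero]
  intro h
  obtain ⟨r, hr, hz⟩ := qq_eq_one L h.symm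
  exact h2 r hr hz

/-- The residue at a fixed point. -/
theorem KK_residue {p0 : ℤ} (hp0 : 1 ≤ p0) (k v0 c b : ℤ) {r : ℤ} (hr1 : 1 ≤ r) (hrm : r ≤ L.m)
    (hr : (L.N : ℤ) ∣ r - (L.A - 1) * b) :
    Tendsto (fun z : ℂ => (z - L.xi r) * L.KK p0 k v0 c z b) (𝓝[≠] (L.xi r : ℂ))
      (𝓝 (-(L.N * L.om / (2 * π * I * ((L.om : ℂ) - 1))) * (L.chi (L.xi v0) c (L.xi r) b *
        (L.D b (L.xi r) * L.R (b - k) (L.xi r - L.xi p0))))) := by
  obtain ⟨h0, h1⟩ := xi_strip L hr1 hrm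
  have hc := (HH_diff L hp0 k v0 c (z := (L.xi r : ℂ)) b (by simpa using h0.le)
    (by simpa using h1.le)).continuousAt
  have hd := (qq_hasDerivAt L (L.xi r : ℂ) b).const_sub 1
  rw [qq_xi L hr, one_mul, hasDerivAt_iff_tendsto_slope] at hd
  have hN := Nc_ne L
  have hom := omc_ne L
  have hom1 := om1c_ne L
  have hpi : (2 : ℂ) * π * I ≠ 0 := Complex.two_pi_I_ne_zero
  have hne : -(2 * π * I * (((L.om : ℂ) - 1) / (L.N * L.om))) ≠ 0 := by
    refine neg_ne_zero.2 (mul_ne_zero hpi (div_ne_zero hom1 (mul_ne_zero hN hom)))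
  have h3 := hd.inv₀ hne
  have h4 := h3.mul (hc.tendsto.mono_left nhdsWithin_le_nhds)
  have e1 : (-(2 * π * I * (((L.om : ℂ) - 1) / (L.N * L.om))))⁻¹ =
      -(L.N * L.om / (2 * π * I * ((L.om : ℂ) - 1))) := by
    field_simp
  rw [e1] at h4
  refine h4.congr' ?_
  filter_upwards with z
  unfold KK
  rw [slope_def_field, qq_xi L hr, sub_self, sub_zero, inv_div]
  ring

theorem sum_BR {p0 : ℤ} (hp0 : 1 ≤ p0) (k v0 c : ℤ) {T : ℝ} (hT : 0 < T) :
    ∑ b ∈ Finset.range L.N, CRES_BR (fun z => L.KK p0 k v0 c z b) (1 / 2) (L.om - 1 / 2) T =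
      -(L.N * L.om / ((L.om : ℂ) - 1)) * ∑ b ∈ Finset.range L.N,
        ∑ r ∈ L.pts b, L.term p0 k v0 c r b := by
  unfold pts term
  rw [Finset.mul_sum]
  refine Finset.sum_congr rfl fun b _ => ?_
  have hom := om_gt L
  have h := CRES_BR_residue (σ := 1 / 2) (σ' := L.om - 1 / 2) (T := T) (by linarith) hT
    (fun s => -(L.N * L.om / (2 * π * I * ((L.om : ℂ) - 1))) * (L.chi (L.xi v0) c (s : ℂ) b *
        (L.D b (s : ℂ) * L.R (b - k) ((s : ℂ) - L.xi p0))))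
    (((Finset.Icc 1 L.m).filter (fun r => (L.N : ℤ) ∣ r - (L.A - 1) * (b : ℤ))).image L.xi)
    (fun z => L.KK p0 k v0 c z b) ?_ ?_ ?_
  · rw [h, Finset.sum_image (fun r _ s _ h => xi_inj L h), Finset.mul_sum, Finset.mul_sum]
    refine Finset.sum_congr rfl fun r _ => ?_
    have hpi : (2 : ℂ) * π * I ≠ 0 := Complex.two_pi_I_ne_zero
    have hom1 := om1c_ne L
    field_simp
  · intro s hs
    obtain ⟨r, hr, rfl⟩ := Finset.mem_image.1 hs
    obtain ⟨h1, h2⟩ := Finset.mem_filter.1 hr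
    obtain ⟨h3, h4⟩ := Finset.mem_Icc.1 h1
    exact xi_strip L h3 h4
  · intro z h0 h1 _ h3
    refine KK_diff L hp0 k v0 c b h0 h1 fun r hr hz => ?_
    refine h3 (L.xi r) (Finset.mem_image.2 ⟨r, Finset.mem_filter.2 ⟨Finset.mem_Icc.2 ?_, hr⟩, rfl⟩) hz
    rw [hz] at h0 h1
    exact xi_mem L (by simpa using h0) (by simpa using h1)
  · intro s hs
    obtain ⟨r, hr, rfl⟩ := Finset.mem_image.1 hs
    obtain ⟨h1, h2⟩ := Finset.mem_filter.1 hr
    obtain ⟨h3, h4⟩ := Finset.mem_Icc.1 h1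
    exact KK_residue L hp0 k v0 c b h3 h4 h2

end Lens

end Zau
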