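import Pool.Agent.Lib_MP_ad0b27_co.PrimesA
import Pool.Agent.Lib_MP_ad0b27_co.PrimesB
import Pool.Agent.Lib_MP_ad0b27_co.PrimesC
import Pool.Agent.Lib_MP_ad0b27_co.PrimesD

/-!
Mertens' theorem for number fields in the form needed for the density argument:
`∑_{m ≤ n} Λ_L(m) / m` is at most `(1 + ε) log n` for all large `n` and at least
`(1 - ε) log n` for arbitrarily large `n`.
-/

open NumberField Filter Topology

namespace Zau

namespace Mertens

section Abstract

variable (A Λ T : ℕ → ℝ) (κ : ℝ)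

theorem bounds (hκ : 0 < κ) (hA : Tendsto (fun n : ℕ => A n / n) atTop (𝓝 κ)) (t : ℝ)
    (ht : 0 < t) : ∃ R : ℕ, 1 ≤ R ∧ ∀ m : ℕ, R ≤ m →
      κ * (1 - t) * m ≤ A m ∧ A m ≤ κ * (1 + t) * m := by
  have h1 : ∀ᶠ n : ℕ in atTop, κ * (1 - t) < A n / n ∧ A n / n < κ * (1 + t) :=
    (hA.eventually_const_lt (by nlinarith)).and (hA.eventually_lt_const (by nlinarith))
  obtain ⟨N, hN⟩ := eventually_atTop.1 h1
  refine ⟨N + 1, by omega, fun m hm => ?_⟩
  have hm0 : (0 : ℝ) < m := by exact_mod_cast (show 0 < m by omega)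
  have := hN m (by omega)
  rw [lt_div_iff₀ hm0, div_lt_iff₀ hm0] at this
  exact ⟨this.1.le, this.2.le⟩

theorem boundsT (hκ : 0 < κ) (hT : Tendsto (fun n : ℕ => T n / (n * Real.log n)) atTop (𝓝 κ))
    (t : ℝ) (ht : 0 < t) : ∃ N : ℕ, 2 ≤ N ∧ ∀ n : ℕ, N ≤ n →
      κ * (1 - t) * (n * Real.log n) ≤ T n ∧ T n ≤ κ * (1 + t) * (n * Real.log n) := by
  have h1 : ∀ᶠ n : ℕ in atTop, κ * (1 - t) < T n / (n * Real.log n) ∧
      T n / (n * Real.log n) < κ * (1 + t) :=
    (hT.eventually_const_lt (by nlinarith)).and (hT.eventually_lt_const (by nlinarith))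
  obtain ⟨N, hN⟩ := eventually_atTop.1 h1
  refine ⟨N + 2, by omega, fun n hn => ?_⟩
  have hn2 : (2 : ℝ) ≤ n := by exact_mod_cast (show 2 ≤ n by omega)
  have hl : 0 < Real.log n := Real.log_pos (by linarith)
  have hm0 : (0 : ℝ) < n * Real.log n := by positivity
  have := hN n (by omega)
  rw [lt_div_iff₀ hm0, div_lt_iff₀ hm0] at this
  exact ⟨this.1.le, this.2.le⟩

/-- upper bound for all large `n` -/
theorem upper (hκ : 0 < κ) (hA0 : A 0 = 0) (hAm : Monotone A)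
    (hA : Tendsto (fun n : ℕ => A n / n) atTop (𝓝 κ)) (hΛ : ∀ m, 0 ≤ Λ m)
    (hT : Tendsto (fun n : ℕ => T n / (n * Real.log n)) atTop (𝓝 κ))
    (hid : ∀ n, T n = ∑ m ∈ Finset.Icc 1 n, Λ m * A (n / m)) (ε : ℝ) (hε : 0 < ε) :
    ∀ᶠ n : ℕ in atTop, ∑ m ∈ Finset.Icc 1 n, Λ m / m ≤ (1 + ε) * Real.log n := by
  have hAnn : ∀ k, 0 ≤ A k := fun k => by rw [← hA0]; exact hAm (Nat.zero_le k)
  -- choose t with (1+t)/(1-t)^2 ≤ 1 + ε/2
  obtain ⟨t, ht0, ht1, ht2⟩ : ∃ t : ℝ, 0 < t ∧ t ≤ 1 / 2 ∧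
      (1 + t) ≤ (1 + ε / 2) * ((1 - t) * (1 - t)) := by
    refine ⟨min (1 / 2) (ε / (8 * (1 + ε))), lt_min (by norm_num) (by positivity),
      min_le_left _ _, ?_⟩
    set t := min (1 / 2 : ℝ) (ε / (8 * (1 + ε))) with ht
    have h0 : 0 < t := lt_min (by norm_num) (by positivity)
    have h1 : t ≤ 1 / 2 := min_le_left _ _
    have h2 : t ≤ ε / (8 * (1 + ε)) := min_le_right _ _
    rw [le_div_iff₀ (by positivity)] at h2
    nlinarith [mul_pos h0 h0, mul_pos h0 hε]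
  obtain ⟨R₀, hR₀1, hR₀⟩ := bounds A κ hκ hA t ht0
  obtain ⟨N₁, hN₁2, hN₁⟩ := boundsT T κ hκ hT t ht0
  obtain ⟨M, hM⟩ := exists_nat_ge (1 / t)
  set R : ℕ := R₀ + M with hR
  have hR1 : 1 ≤ R := by omega
  have htR : 1 ≤ t * R := by
    have : 1 ≤ t * M := by
      rw [div_le_iff₀ ht0] at hM; linarith
    rw [hR]; push_cast
    nlinarith [Nat.cast_nonneg (α := ℝ) R₀]
  have hRpos : (0 : ℝ) < R := by exact_mod_cast hR1
  have hlim : ∀ᶠ n : ℕ in atTop, (1 + ε / 2) * Real.log R / (ε / 2) ≤ Real.log n :=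
    (Real.tendsto_log_atTop.comp tendsto_natCast_atTop_atTop).eventually_ge_atTop _
  filter_upwards [hlim, eventually_ge_atTop (N₁ + 1)] with N hN2 hN3
  have hNpos : (0 : ℝ) < N := by exact_mod_cast (show 0 < N by omega)
  have hNl : 0 ≤ Real.log N := Real.log_natCast_nonneg N
  have hRl : 0 ≤ Real.log R := Real.log_natCast_nonneg R
  -- lower bound for T (R N)
  have h1 : κ * (1 - t) * (1 - t) * (R * N) * (∑ m ∈ Finset.Icc 1 N, Λ m / m) ≤ T (R * N) := by
    rw [hid, Finset.mul_sum]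
    have hsub : Finset.Icc 1 N ⊆ Finset.Icc 1 (R * N) :=
      Finset.Icc_subset_Icc_right (Nat.le_mul_of_pos_left N hR1)
    refine le_trans ?_ (Finset.sum_le_sum_of_subset_of_nonneg hsub
      fun m _ _ => mul_nonneg (hΛ m) (hAnn _))
    refine Finset.sum_le_sum fun m hm => ?_
    rw [Finset.mem_Icc] at hm
    have hmpos : (0 : ℝ) < m := by exact_mod_cast hm.1
    have hk : R ≤ R * N / m := by
      rw [Nat.le_div_iff_mul_le hm.1]
      exact Nat.mul_le_mul_left R hm.2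
    have hk2 := (hR₀ (R * N / m) (by omega)).1
    have hk3 : (R : ℝ) * N / m < ((R * N / m : ℕ) : ℝ) + 1 := by
      rw [div_lt_iff₀ hmpos]
      have := Nat.lt_div_mul_add (a := R * N) hm.1
      have h4 : ((R * N : ℕ) : ℝ) < ((R * N / m * m + m : ℕ) : ℝ) := by exact_mod_cast this
      push_cast at h4
      linarith
    have hk4 : (R : ℝ) ≤ R * N / m := by
      rw [le_div_iff₀ hmpos]
      have : (m : ℝ) ≤ N := by exact_mod_cast hm.2
      nlinarith
    have hk5 : (1 - t) * (R * N / m) ≤ ((R * N / m : ℕ) : ℝ) := by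
      nlinarith
    have hk6 : κ * (1 - t) * ((1 - t) * (R * N / m)) ≤ A (R * N / m) := by
      refine le_trans ?_ hk2
      refine mul_le_mul_of_nonneg_left hk5 ?_
      exact mul_nonneg hκ.le (by linarith)
    calc κ * (1 - t) * (1 - t) * (R * N) * (Λ m / m)
        = Λ m * (κ * (1 - t) * ((1 - t) * (R * N / m))) := by ring
      _ ≤ Λ m * A (R * N / m) := mul_le_mul_of_nonneg_left hk6 (hΛ m)
  have h2 := (hN₁ (R * N) (by nlinarith)).2
  have hlog : Real.log ((R * N : ℕ) : ℝ) = Real.log R + Real.log N := by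
    rw [Nat.cast_mul, Real.log_mul hRpos.ne' hNpos.ne']
  rw [hlog] at h2
  push_cast at h2
  set S := ∑ m ∈ Finset.Icc 1 N, Λ m / m with hS
  have h3 : κ * (R * N) * ((1 - t) * (1 - t) * S) ≤
      κ * (R * N) * ((1 + t) * (Real.log R + Real.log N)) := by
    calc κ * (R * N) * ((1 - t) * (1 - t) * S)
        = κ * (1 - t) * (1 - t) * (R * N) * S := by ring
      _ ≤ κ * (1 + t) * (R * N * (Real.log R + Real.log N)) := h1.trans h2
      _ = _ := by ring
  have h4 : (1 - t) * (1 - t) * S ≤ (1 + t) * (Real.log R + Real.log N) :=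
    le_of_mul_le_mul_left h3 (by positivity)
  have h5 : (1 - t) * (1 - t) * S ≤
      (1 - t) * (1 - t) * ((1 + ε / 2) * (Real.log R + Real.log N)) := by
    refine h4.trans ?_
    calc (1 + t) * (Real.log R + Real.log N)
        ≤ (1 + ε / 2) * ((1 - t) * (1 - t)) * (Real.log R + Real.log N) :=
          mul_le_mul_of_nonneg_right ht2 (by linarith)
      _ = _ := by ring
  have h6 : S ≤ (1 + ε / 2) * (Real.log R + Real.log N) := by
    refine le_of_mul_le_mul_left h5 ?_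
    have : 0 < 1 - t := by linarith
    positivity
  rw [div_le_iff₀ (by positivity)] at hN2
  nlinarith

/-- lower bound for arbitrarily large `n` -/
theorem lower (hκ : 0 < κ) (hA0 : A 0 = 0) (hAm : Monotone A)
    (hA : Tendsto (fun n : ℕ => A n / n) atTop (𝓝 κ)) (hΛ : ∀ m, 0 ≤ Λ m)
    (hT : Tendsto (fun n : ℕ => T n / (n * Real.log n)) atTop (𝓝 κ))
    (hid : ∀ n, T n = ∑ m ∈ Finset.Icc 1 n, Λ m * A (n / m)) (ε : ℝ) (hε : 0 < ε) (N₀ : ℕ) :
    ∃ n : ℕ, N₀ ≤ n ∧ (1 - ε) * Real.log n ≤ ∑ m ∈ Finset.Icc 1 n, Λ m / m := by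
  have hAnn : ∀ k, 0 ≤ A k := fun k => by rw [← hA0]; exact hAm (Nat.zero_le k)
  obtain ⟨L, hL⟩ : ∃ L : ℕ → ℝ, ∀ n, L n = ∑ m ∈ Finset.Icc 1 n, Λ m / m := ⟨_, fun _ => rfl⟩
  have hLm : Monotone L := by
    intro a b hab
    rw [hL, hL]
    exact Finset.sum_le_sum_of_subset_of_nonneg (Finset.Icc_subset_Icc_right hab)
      fun m _ _ => div_nonneg (hΛ m) (Nat.cast_nonneg m)
  have hup := upper A Λ T κ hκ hA0 hAm hA hΛ hT hid 1 one_pos
  obtain ⟨t, ht0, ht1, ht2⟩ : ∃ t : ℝ, 0 < t ∧ t ≤ 1 / 2 ∧ (1 - ε / 2) * (1 + t) ≤ 1 - t := by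
    refine ⟨min (1 / 2) (ε / 4), lt_min (by norm_num) (by positivity), min_le_left _ _, ?_⟩
    have h0 : 0 < min (1 / 2 : ℝ) (ε / 4) := lt_min (by norm_num) (by positivity)
    have h1 : min (1 / 2 : ℝ) (ε / 4) ≤ ε / 4 := min_le_right _ _
    nlinarith
  obtain ⟨R₀, hR₀1, hR₀⟩ := bounds A κ hκ hA t ht0
  obtain ⟨N₁, hN₁2, hN₁⟩ := boundsT T κ hκ hT t ht0
  set R : ℕ := R₀ + 1 with hR
  have hR2 : 2 ≤ R := by omega
  have hRpos : (0 : ℝ) < R := by exact_mod_cast (show 0 < R by omega)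
  have hRl : 0 < Real.log R := Real.log_pos (by exact_mod_cast (show 1 < R by omega))
  -- a global upper bound for A
  obtain ⟨C, hC0, hCA⟩ : ∃ C : ℝ, 0 < C ∧ ∀ k : ℕ, A k ≤ C * k := by
    refine ⟨κ * (1 + t) + A R, by nlinarith [hAnn R, mul_pos hκ (show 0 < 1 + t by linarith)],
      fun k => ?_⟩
    rcases Nat.eq_zero_or_pos k with rfl | hk
    · simp [hA0]
    · have hk1 : (1 : ℝ) ≤ k := by exact_mod_cast hk
      have hb : 0 < κ * (1 + t) := mul_pos hκ (by linarith)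
      rcases le_total R k with h | h
      · have := (hR₀ k (by omega)).2
        nlinarith [hAnn R]
      · have := hAm h
        nlinarith [hAnn R]
  -- infinitely many small increments
  have hinc : ∀ J : ℕ, ∃ j, J ≤ j ∧ L (R ^ (j + 1)) - L (R ^ j) ≤ 3 * Real.log R := by
    intro J
    by_contra hcon
    push Not at hcon
    have h1 : ∀ i : ℕ, 3 * Real.log R * i ≤ L (R ^ (J + i)) := by
      intro i
      induction i with
      | zero =>
        simp only [Nat.cast_zero, mul_zero, add_zero]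
        rw [hL]
        exact Finset.sum_nonneg fun m _ => div_nonneg (hΛ m) (Nat.cast_nonneg m)
      | succ i ih =>
        have := hcon (J + i) (by omega)
        push_cast
        rw [show J + (i + 1) = J + i + 1 by ring]
        linarith
    have hpow : Tendsto (fun i : ℕ => R ^ (J + i)) atTop atTop := by
      refine tendsto_atTop_mono (fun i => ?_) tendsto_id
      calc id i ≤ J + i := by simp
        _ ≤ R ^ (J + i) := (Nat.lt_pow_self (by omega)).le
    have h2 := hpow.eventually hup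
    obtain ⟨I, hI⟩ := eventually_atTop.1 (h2.and (eventually_ge_atTop (2 * J + 1)))
    obtain ⟨h3, h4⟩ := hI (I + 2 * J + 1) (by omega)
    have h5 := h1 (I + 2 * J + 1)
    rw [hL] at h5
    have h6 : Real.log ((R ^ (J + (I + 2 * J + 1)) : ℕ) : ℝ) =
        ((J + (I + 2 * J + 1) : ℕ) : ℝ) * Real.log R := by
      rw [Nat.cast_pow, Real.log_pow]
    rw [h6] at h3
    push_cast at h3 h5
    have h7 := h5.trans h3
    have hI0 : (0 : ℝ) ≤ I := Nat.cast_nonneg I
    have hJ0 : (0 : ℝ) ≤ J := Nat.cast_nonneg J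
    nlinarith
  -- choose a large j
  obtain ⟨J₁, hJ₁⟩ : ∃ J₁ : ℕ, (C / (κ * (1 + t)) * (3 * Real.log R)) / (ε / 2) ≤
      (J₁ : ℝ) * Real.log R := by
    obtain ⟨J₁, h⟩ := exists_nat_ge ((C / (κ * (1 + t)) * (3 * Real.log R)) / (ε / 2) / Real.log R)
    exact ⟨J₁, by rwa [div_le_iff₀ hRl] at h⟩
  obtain ⟨j, hj, hinc⟩ := hinc (N₀ + N₁ + J₁)
  have hjR : j + 1 < R ^ (j + 1) := Nat.lt_pow_self (by omega)
  refine ⟨R ^ (j + 1), by omega, ?_⟩
  set n := R ^ (j + 1) with hn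
  have hnpos : (0 : ℝ) < n := by exact_mod_cast (show 0 < n by omega)
  have hT1 := (hN₁ n (by omega)).1
  have hb : 0 < κ * (1 + t) := mul_pos hκ (by linarith)
  have hsplit : T n ≤ κ * (1 + t) * n * L n + C * n * (L n - L (R ^ j)) := by
    rw [hid]
    have hsub : Finset.Icc 1 (R ^ j) ⊆ Finset.Icc 1 n :=
      Finset.Icc_subset_Icc_right (Nat.pow_le_pow_right (by omega) (by omega))
    have hsum : ∀ f : ℕ → ℝ, ∑ m ∈ Finset.Icc 1 n, f m =
        ∑ m ∈ Finset.Icc 1 (R ^ j), f m + ∑ m ∈ Finset.Icc 1 n \ Finset.Icc 1 (R ^ j), f m :=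
      fun f => by rw [add_comm, Finset.sum_sdiff hsub]
    have e1 : L n - L (R ^ j) = ∑ m ∈ Finset.Icc 1 n \ Finset.Icc 1 (R ^ j), Λ m / m := by
      rw [hL, hL, hsum]; ring
    have e2 : ∑ m ∈ Finset.Icc 1 (R ^ j), Λ m * A (n / m) ≤ κ * (1 + t) * n * L (R ^ j) := by
      rw [hL, Finset.mul_sum]
      refine Finset.sum_le_sum fun m hm => ?_
      rw [Finset.mem_Icc] at hm
      have hmpos : (0 : ℝ) < m := by exact_mod_cast hm.1
      have hk : R ≤ n / m := by
        rw [Nat.le_div_iff_mul_le hm.1, hn, pow_succ, mul_comm (R ^ j) R]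
        exact Nat.mul_le_mul_left R hm.2
      have h1 := (hR₀ (n / m) (by omega)).2
      have h2 : ((n / m : ℕ) : ℝ) ≤ (n : ℝ) / m := Nat.cast_div_le
      have h3 : A (n / m) ≤ κ * (1 + t) * (n / m) := h1.trans (mul_le_mul_of_nonneg_left h2 hb.le)
      calc Λ m * A (n / m) ≤ Λ m * (κ * (1 + t) * (n / m)) := mul_le_mul_of_nonneg_left h3 (hΛ m)
        _ = κ * (1 + t) * n * (Λ m / m) := by ring
    have e3 : ∑ m ∈ Finset.Icc 1 n \ Finset.Icc 1 (R ^ j), Λ m * A (n / m) ≤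
        C * n * (L n - L (R ^ j)) := by
      rw [e1, Finset.mul_sum]
      refine Finset.sum_le_sum fun m hm => ?_
      rw [Finset.mem_sdiff, Finset.mem_Icc] at hm
      have hmpos : (0 : ℝ) < m := by exact_mod_cast hm.1.1
      have h2 : ((n / m : ℕ) : ℝ) ≤ (n : ℝ) / m := Nat.cast_div_le
      have h3 : A (n / m) ≤ C * (n / m) := (hCA _).trans (mul_le_mul_of_nonneg_left h2 hC0.le)
      calc Λ m * A (n / m) ≤ Λ m * (C * (n / m)) := mul_le_mul_of_nonneg_left h3 (hΛ m)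
        _ = C * n * (Λ m / m) := by ring
    rw [hsum]
    have e4 : κ * (1 + t) * n * L (R ^ j) ≤ κ * (1 + t) * n * L n :=
      mul_le_mul_of_nonneg_left (hLm (Nat.pow_le_pow_right (by omega) (by omega)))
        (by positivity)
    linarith
  have h5 : n * (κ * (1 - t) * Real.log n) ≤
      n * (κ * (1 + t) * L n + C * (3 * Real.log R)) := by
    calc n * (κ * (1 - t) * Real.log n) = κ * (1 - t) * (n * Real.log n) := by ring
      _ ≤ T n := hT1
      _ ≤ κ * (1 + t) * n * L n + C * n * (L n - L (R ^ j)) := hsplit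
      _ ≤ κ * (1 + t) * n * L n + C * n * (3 * Real.log R) := by
        have := mul_le_mul_of_nonneg_left hinc (show 0 ≤ C * n by positivity)
        linarith
      _ = _ := by ring
  have h6 : κ * (1 - t) * Real.log n ≤ κ * (1 + t) * L n + C * (3 * Real.log R) :=
    le_of_mul_le_mul_left h5 hnpos
  have hnl : 0 ≤ Real.log n := Real.log_natCast_nonneg n
  have h7 : κ * (1 + t) * ((1 - ε / 2) * Real.log n) ≤
      κ * (1 + t) * (L n + C / (κ * (1 + t)) * (3 * Real.log R)) := by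
    have e1 : κ * (1 + t) * (L n + C / (κ * (1 + t)) * (3 * Real.log R)) =
        κ * (1 + t) * L n + C * (3 * Real.log R) := by
      field_simp
    rw [e1]
    refine le_trans ?_ h6
    calc κ * (1 + t) * ((1 - ε / 2) * Real.log n)
        = κ * ((1 - ε / 2) * (1 + t)) * Real.log n := by ring
      _ ≤ κ * (1 - t) * Real.log n :=
        mul_le_mul_of_nonneg_right (mul_le_mul_of_nonneg_left ht2 hκ.le) hnl
  have h8 : (1 - ε / 2) * Real.log n ≤ L n + C / (κ * (1 + t)) * (3 * Real.log R) :=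
    le_of_mul_le_mul_left h7 hb
  have h9 : (C / (κ * (1 + t)) * (3 * Real.log R)) / (ε / 2) ≤ Real.log n := by
    refine hJ₁.trans ?_
    have : Real.log (n : ℝ) = ((j + 1 : ℕ) : ℝ) * Real.log R := by
      rw [hn, Nat.cast_pow, Real.log_pow]
    rw [this]
    refine mul_le_mul_of_nonneg_right ?_ hRl.le
    exact_mod_cast (show J₁ ≤ j + 1 by omega)
  rw [div_le_iff₀ (by positivity)] at h9
  rw [← hL]
  linarith

end Abstract

section Field

variable (L : Type) [Field L] [NumberField L]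

theorem AL_monotone : Monotone fun n => (SphereRep.AL L n : ℝ) := by
  intro a b hab
  simp only [SphereRep.AL]
  exact_mod_cast Finset.sum_le_sum_of_subset (Finset.Icc_subset_Icc_right hab)

theorem LamL_upper (ε : ℝ) (hε : 0 < ε) :
    ∀ᶠ n : ℕ in atTop, ∑ m ∈ Finset.Icc 1 n, SphereRep.LamL L m / m ≤ (1 + ε) * Real.log n := by
  obtain ⟨κ, hκ, hA⟩ := SphereRep.AL_tendsto L
  have h4 := SphereRep.tendsto_log_sum (fun m => (SphereRep.aL L m : ℝ))
    (fun m => Nat.cast_nonneg _) κ hκ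
    (by simpa only [SphereRep.AL, Nat.cast_sum] using hA)
  exact upper (fun n => (SphereRep.AL L n : ℝ)) (SphereRep.LamL L)
    (fun n => ∑ m ∈ Finset.Icc 1 n, (SphereRep.aL L m : ℝ) * Real.log m) κ hκ
    (by simp [SphereRep.AL]) (AL_monotone L) hA (SphereRep.LamL_nonneg L) h4
    (SphereRep.log_identity L) ε hε

theorem LamL_lower (ε : ℝ) (hε : 0 < ε) (N₀ : ℕ) :
    ∃ n : ℕ, N₀ ≤ n ∧ (1 - ε) * Real.log n ≤ ∑ m ∈ Finset.Icc 1 n, SphereRep.LamL L m / m := by
  obtain ⟨κ, hκ, hA⟩ := SphereRep.AL_tendsto L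
  have h4 := SphereRep.tendsto_log_sum (fun m => (SphereRep.aL L m : ℝ))
    (fun m => Nat.cast_nonneg _) κ hκ
    (by simpa only [SphereRep.AL, Nat.cast_sum] using hA)
  exact lower (fun n => (SphereRep.AL L n : ℝ)) (SphereRep.LamL L)
    (fun n => ∑ m ∈ Finset.Icc 1 n, (SphereRep.aL L m : ℝ) * Real.log m) κ hκ
    (by simp [SphereRep.AL]) (AL_monotone L) hA (SphereRep.LamL_nonneg L) h4
    (SphereRep.log_identity L) ε hε N₀

end Field

end Mertens

end Zau
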