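import Pool.Agent.Lib_zau.Bas
import Pool.Agent.Lib_zau.Tower

/-!
# Zauner (block B9): the near group system of a cyclic superlattice
-/

set_option autoImplicit false

namespace Zau

open Finset

/-- `V = ℚ × ℚ` with multiplication by `ε`. -/
def EL (n : ℤ) : ELat (ℚ × ℚ) where
  A := E n
  e := (1, 0)
  n := n
  hA := by
    intro v
    ext
    · simp [E]; ring
    · simp [E]; ring
  ind := by
    intro i j h
    simp [E, Prod.ext_iff] at h
    exact h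

theorem EL_A (n : ℤ) (v : ℚ × ℚ) : (EL n).A v = E n v := rfl

theorem E_pow (n : ℤ) (K : ℕ) (v : ℚ × ℚ) : (E n ^ K) v = (EL n).A^[K] v := by
  rw [AddMonoid.End.coe_pow]
  rfl

theorem EL_L0 (n : ℤ) : (EL n).L0 = Lam := by
  ext w
  rw [ELat.mem_L0]
  constructor
  · rintro ⟨i, j, rfl⟩
    refine ⟨i, j, ?_⟩
    ext
    · simp [EL, E]
    · simp [EL, E]
  · rintro ⟨i, j, rfl⟩
    refine ⟨i, j, ?_⟩
    ext
    · simp [EL, E]
    · simp [EL, E]

theorem L_eq_Lc {n : ℤ} {l j : ℕ} {c0 d0 : ℤ} {c : ℚ × ℚ} (D : CycDat (EL n) l j c0 d0 c) :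
    D.L = Lc c := by
  unfold CycDat.L Lc
  rw [EL_L0]

section iso

variable {V : Type*} [AddCommGroup V] [Module ℚ V] {E : ELat V} {l j : ℕ} {c d : ℤ} {h : V}

/-- The group `ℤ × ℤ / ⟨(-U - 1, N), (-B, A - 1)⟩` is `(ω - 1)⁻¹ L / L`. -/
theorem exists_iso (D : CycDat E l j c d h) {K : ℕ}
    (hc : (pq E.n K).1 - 1 = (l : ℤ) ^ j * c) (hd : (pq E.n K).2 = (l : ℤ) ^ j * d)
    {l0 l1 : V} {N : ℕ} {A B U : ℤ} (hL : ∀ w, w ∈ D.L ↔ ∃ s t : ℤ, w = s • l0 + t • l1)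
    (h0 : E.A^[K] l0 = (-U) • l0 + (N : ℤ) • l1) (h1 : E.A^[K] l1 = (-B) • l0 + A • l1)
    (hind : ∀ s t : ℤ, s • l0 + t • l1 = 0 → s = 0 ∧ t = 0)
    {G : Type*} [AddCommGroup G] (q : ℤ × ℤ →+ G) (hq : Function.Surjective q)
    (hker : ∀ P R : ℤ, q (P, R) = 0 ↔
      ∃ s t : ℤ, P = s * (-U - 1) + t * (-B) ∧ R = s * N + t * (A - 1)) :
    ∃ φ : G ≃+ D.G, ∀ (P R : ℤ) (y : D.Gt), D.M (y : V) = P • l0 + R • l1 →
      φ (q (P, R)) = QuotientAddGroup.mk y := by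
  let Me : V ≃+ V := AddEquiv.ofBijective D.M ⟨D.M_inj, D.M_surj⟩
  have hMe : ∀ v, D.M (Me.symm v) = v := fun v => Me.apply_symm_apply v
  have hmem : ∀ x : ℤ × ℤ, Me.symm (x.1 • l0 + x.2 • l1) ∈ D.Gt := by
    intro x
    rw [D.mem_Gt, hMe, hL]
    exact ⟨x.1, x.2, rfl⟩
  let f0 : ℤ × ℤ →+ D.Gt := AddMonoidHom.mk' (fun x => ⟨Me.symm (x.1 • l0 + x.2 • l1), hmem x⟩) (by
    intro x y
    apply Subtype.ext
    show Me.symm _ = Me.symm _ + Me.symm _
    rw [← map_add]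
    congr 1
    simp only [Prod.fst_add, Prod.snd_add]
    module)
  let f : ℤ × ℤ →+ D.G := (QuotientAddGroup.mk' (D.L.addSubgroupOf D.Gt)).comp f0
  have hf0 : ∀ x, D.M (f0 x : V) = x.1 • l0 + x.2 • l1 := fun x => hMe _
  have hfmk : ∀ (x : ℤ × ℤ) (y : D.Gt), D.M (y : V) = x.1 • l0 + x.2 • l1 →
      f x = QuotientAddGroup.mk y := by
    intro x y hy
    have h2 : f0 x = y := by
      apply Subtype.ext
      apply D.M_inj
      rw [hf0, hy]
    show QuotientAddGroup.mk (f0 x) = _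
    rw [h2]
  have hf : Function.Surjective f := by
    intro z
    obtain ⟨y, rfl⟩ := QuotientAddGroup.mk_surjective z
    obtain ⟨s, t, hst⟩ := (hL _).1 (D.mem_Gt.1 y.2)
    exact ⟨(s, t), hfmk (s, t) y hst⟩
  have hMl : ∀ s t : ℤ, D.M (s • l0 + t • l1) =
      (s * (-U - 1) + t * (-B)) • l0 + (s * N + t * (A - 1)) • l1 := by
    intro s t
    rw [map_add, map_zsmul, map_zsmul, D.M_eq hc hd, D.M_eq hc hd, h0, h1]
    module
  have hk : q.ker = f.ker := by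
    ext ⟨P, R⟩
    rw [AddMonoidHom.mem_ker, AddMonoidHom.mem_ker, hker]
    have h2 : f (P, R) = 0 ↔ (f0 (P, R) : V) ∈ D.L := D.mk_eq_zero (f0 (P, R))
    rw [h2, hL]
    constructor
    · rintro ⟨s, t, hP, hR⟩
      refine ⟨s, t, ?_⟩
      apply D.M_inj
      rw [hf0, hMl, hP, hR]
    · rintro ⟨s, t, hst⟩
      refine ⟨s, t, ?_⟩
      have h3 := congrArg D.M hst
      rw [hf0, hMl] at h3
      simp only at h3
      obtain ⟨h4, h5⟩ := hind (P - (s * (-U - 1) + t * (-B))) (R - (s * N + t * (A - 1))) (by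
        rw [sub_smul, sub_smul]
        have : P • l0 + R • l1 - ((s * (-U - 1) + t * (-B)) • l0 + (s * ↑N + t * (A - 1)) • l1) = 0 :=
          sub_eq_zero.2 h3
        rw [← this]
        abel)
      exact ⟨by linarith, by linarith⟩
  let e1 := QuotientAddGroup.quotientKerEquivOfSurjective q hq
  let e2 := QuotientAddGroup.quotientKerEquivOfSurjective f hf
  let e3 : (ℤ × ℤ) ⧸ q.ker ≃+ (ℤ × ℤ) ⧸ f.ker := QuotientAddGroup.quotientAddEquivOfEq hk
  refine ⟨(e1.symm.trans e3).trans e2, ?_⟩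
  intro P R y hy
  have h2 : e1.symm (q (P, R)) = QuotientAddGroup.mk (P, R) := by
    rw [AddEquiv.symm_apply_eq]
    rfl
  show e2 (e3 (e1.symm (q (P, R)))) = _
  rw [h2]
  exact hfmk (P, R) y hy

end iso

/-- The output of the analytic part for the matrix `(A, -B; N, -U)`: the solution `b` of the near group
equations on `ℤ × ℤ / ⟨(-U - 1, N), (-B, A - 1)⟩`; `val P R` is the logarithm of `b w / b (-w)`. -/
def BSol (l N : ℕ) (A B U : ℤ) (om : ℝ) (val : ℤ → ℤ → ℝ) : Prop :=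
  ∃ (G : Type) (_ : AddCommGroup G) (_ : Fintype G) (_ : DecidableEq G) (q : ℤ × ℤ →+ G)
    (pr : G → G → ℂ) (b : G → ℂ) (κ : ℂ),
    Function.Surjective q ∧
    (∀ P R : ℤ, q (P, R) = 0 ↔
      ∃ s t : ℤ, P = s * (-U - 1) + t * (-B) ∧ R = s * N + t * (A - 1)) ∧
    (∀ y, pr 0 y = 1) ∧ (∀ x y z, pr (x + y) z = pr x z * pr y z) ∧ (∀ x y, pr x y = pr y x) ∧
    (∀ x, (∀ y, pr x y = 1) → x = 0) ∧ κ ^ 2 = (Fintype.card G : ℂ) ∧ (∀ w, b w ≠ 0) ∧
    (∀ p, p ≠ 0 → (∃ i : ℕ, l ^ i • p = 0) → ∀ y, ∑ w, pr w y * aa b w * b (w - p) =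
      κ * b (-p) * b (-y) * aa b (-p - y)) ∧
    b 0 ^ 2 = ((om : ℝ) : ℂ) ∧
    (∀ w, w ≠ 0 → ∃ k : ℕ, 0 < k ∧ (b w * b (-w)) ^ k = 1) ∧
    (∀ P R : ℤ, q (P, R) ≠ 0 →
      b (q (P, R)) / b (-q (P, R)) = Complex.exp ((val P R : ℝ) : ℂ))

/-- The sum of `rho` over the coset of a point of `L` is zero. -/
theorem sum_zero {rho : ℚ × ℚ → ℝ} (hper : ∀ w, ∀ z ∈ Lam, rho (w + z) = rho w)
    (hodd : ∀ w, rho (-w) = -rho w) {M : ℕ} {c : ℚ × ℚ} (hc : M • c ∈ Lam)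
    {x : ℚ × ℚ} (hx : x ∈ Lc c) : ∑ k ∈ range M, rho (x + k • c) = 0 := by
  have hper' : ∀ w, ∀ z ∈ Lam, rho (z + w) = rho w := fun w z hz => by rw [add_comm, hper w z hz]
  -- periodicity of the sum
  have hshift : ∀ w : ℚ × ℚ, ∑ k ∈ range M, rho (w + c + k • c) = ∑ k ∈ range M, rho (w + k • c) := by
    intro w
    have h1 := sum_range_succ (fun k : ℕ => rho (w + k • c)) M
    have h2 := sum_range_succ' (fun k : ℕ => rho (w + k • c)) M
    rw [h1] at h2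
    have h3 : rho (w + M • c) = rho (w + 0 • c) := by
      rw [zero_smul, add_zero, hper _ _ hc]
    rw [h3] at h2
    have h4 := add_right_cancel h2
    rw [h4]
    refine sum_congr rfl fun k _ => ?_
    congr 1
    rw [add_smul, one_smul]
    abel
  have hshift' : ∀ (i : ℕ) (w : ℚ × ℚ),
      ∑ k ∈ range M, rho (w + i • c + k • c) = ∑ k ∈ range M, rho (w + k • c) := by
    intro i
    induction i with
    | zero => intro w; simp
    | succ i ih =>
      intro w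
      have h1 : w + (i + 1) • c = w + i • c + c := by rw [add_smul, one_smul]; abel
      rw [h1, hshift, ih]
  have hshiftz : ∀ (i : ℤ) (w : ℚ × ℚ),
      ∑ k ∈ range M, rho (w + i • c + k • c) = ∑ k ∈ range M, rho (w + k • c) := by
    intro i w
    obtain ⟨m, rfl | rfl⟩ := i.eq_nat_or_neg
    · rw [natCast_zsmul]
      exact hshift' m w
    · have h1 := hshift' m (w + (-(m : ℤ)) • c)
      rw [← h1]
      refine sum_congr rfl fun k _ => ?_
      congr 2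
      rw [neg_smul, natCast_zsmul]
      abel
  unfold Lc at hx
  obtain ⟨z, hz, y, hy, rfl⟩ := AddSubgroup.mem_sup.1 hx
  obtain ⟨i, rfl⟩ := AddSubgroup.mem_zmultiples_iff.1 hy
  have h1 : ∑ k ∈ range M, rho (z + i • c + k • c) = ∑ k ∈ range M, rho (0 + k • c) := by
    rw [← hshiftz i 0]
    refine sum_congr rfl fun k _ => ?_
    rw [zero_add, add_assoc, hper' _ _ hz]
  rw [h1]
  -- the substitution `k ↦ -k`
  have h2 : ∑ k ∈ range M, rho (0 + k • c) = -∑ k ∈ range M, rho (0 + c + k • c) := by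
    conv_lhs => rw [← sum_range_reflect]
    rw [← sum_neg_distrib]
    refine sum_congr rfl fun k hk => ?_
    have hk' : k < M := mem_range.1 hk
    have h3 : (0 : ℚ × ℚ) + (M - 1 - k) • c = -(0 + c + k • c) + M • c := by
      have h4 : (M - 1 - k) • c + (k + 1) • c = M • c := by
        rw [← add_smul]
        congr 1
        omega
      rw [← h4, add_smul k 1, one_smul]
      abel
    rw [h3, hper _ _ hc, hodd]
  rw [hshift] at h2
  linarith

/-- The group part of block B9. -/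
theorem near_of_sol {n : ℤ} {rho : ℚ × ℚ → ℝ} {l K j : ℕ} {c : ℚ × ℚ} {c0 d0 : ℤ}
    (D : CycDat (EL n) l j c0 d0 c)
    (hc : (pq n K).1 - 1 = (l : ℤ) ^ j * c0) (hd : (pq n K).2 = (l : ℤ) ^ j * d0)
    {l0 l1 : ℚ × ℚ} {N : ℕ} {A B U : ℤ} (hL : ∀ w, w ∈ D.L ↔ ∃ s t : ℤ, w = s • l0 + t • l1)
    (h0 : (EL n).A^[K] l0 = (-U) • l0 + (N : ℤ) • l1)
    (h1 : (EL n).A^[K] l1 = (-B) • l0 + A • l1)
    (hind : ∀ s t : ℤ, s • l0 + t • l1 = 0 → s = 0 ∧ t = 0) {val : ℤ → ℤ → ℝ}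
    (hS : BSol l N A B U (ep n ^ K) val) (hper : ∀ w, ∀ z ∈ Lam, rho (w + z) = rho w)
    (hodd : ∀ w, rho (-w) = -rho w)
    (hval : ∀ (P R : ℤ) (x : ℚ × ℚ), (E n ^ K) x - x = P • l0 + R • l1 → x ∉ Lc c →
      val P R = K * ∑ k ∈ range (l ^ j), rho (x + k • c)) : Near n rho l K j c := by
  obtain ⟨G, iG, iF, iD, q, pr, b, κ, hq, hker, hp0, hpa, hps, hpn, hκ, hb, hstar, hb0, hroot,
    hexp⟩ := hS
  obtain ⟨φ, hφ⟩ := exists_iso D hc hd hL h0 h1 hind q hq hker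
  have hMK : ∀ x, D.M x = (E n ^ K) x - x := fun x => by rw [D.M_eq hc hd, E_pow]
  have hle : D.L.addSubgroupOf D.Gt ≤ (Lc c).comap D.Gt.subtype := by
    rw [← L_eq_Lc D]
    exact le_refl _
  let ι : D.G →+ (ℚ × ℚ) ⧸ Lc c :=
    QuotientAddGroup.map (D.L.addSubgroupOf D.Gt) (Lc c) D.Gt.subtype hle
  have hι : ∀ y : D.Gt, ι (QuotientAddGroup.mk y) = QuotientAddGroup.mk (y : ℚ × ℚ) := fun y => rfl
  have hιinj : Function.Injective ι := by
    rw [injective_iff_map_eq_zero]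
    intro z hz
    obtain ⟨y, rfl⟩ := QuotientAddGroup.mk_surjective z
    rw [hι, QuotientAddGroup.eq_zero_iff, ← L_eq_Lc D] at hz
    exact (D.mk_eq_zero y).2 hz
  have hcar : Fintype.card G = (c0 ^ 2 + n * c0 * d0 + d0 ^ 2).natAbs * l ^ (2 * j - 1 + 1) := by
    have h2 : Nat.card G = Nat.card D.G := Nat.card_congr φ.toEquiv
    rw [Nat.card_eq_fintype_card, D.card_G] at h2
    rw [h2, Nat.sub_add_cancel (by have := D.jpos; omega)]
    rfl
  have hpow : 2 * j - 1 + 1 = 2 * j := Nat.sub_add_cancel (by have := D.jpos; omega)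
  have hgne : l ^ (2 * j - 1) • φ.symm D.g ≠ 0 := by
    intro h2
    rw [← map_nsmul] at h2
    exact D.ne_g ((AddEquiv.map_eq_zero_iff φ.symm).1 h2)
  have hgord : l ^ (2 * j - 1 + 1) • φ.symm D.g = 0 := by
    rw [hpow, ← map_nsmul, D.ord_g, map_zero]
  refine ⟨G, iG, iF, iD, ι.comp φ.toAddMonoidHom, (c0 ^ 2 + n * c0 * d0 + d0 ^ 2).natAbs,
    φ.symm D.g, pr, b, κ, ?_, ?_, ?_, hb0, hroot, ?_⟩
  · refine ⟨D.prime, hcar, D.cop_nm, hgord, hgne, ?_, hp0, hpa, hps, hpn, hκ, hb, ?_, ?_⟩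
    · intro x hx
      obtain ⟨i, hi⟩ := D.cyc_g (φ x) (by rw [← map_nsmul, ← hpow, hx, map_zero])
      exact ⟨i, by rw [← map_nsmul, ← hi, AddEquiv.symm_apply_apply]⟩
    · exact hstar _ hgne ⟨1, by rw [smul_smul, ← pow_add, add_comm 1, hgord]⟩
    · exact hstar _ (neg_ne_zero.2 hgne) ⟨1, by rw [smul_neg, smul_smul, ← pow_add, add_comm 1, hgord,
        neg_zero]⟩
  · exact hιinj.comp φ.injective
  · intro x
    have hG : (E n ^ K) x - x ∈ Lc c ↔ x ∈ D.Gt := by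
      rw [← hMK, ← L_eq_Lc D, ← D.mem_Gt]
    rw [hG]
    constructor
    · rintro ⟨w, hw⟩
      obtain ⟨y, hy⟩ := QuotientAddGroup.mk_surjective (φ w)
      have h2 : ι (φ w) = QuotientAddGroup.mk x := hw
      rw [← hy, hι, QuotientAddGroup.eq, ← L_eq_Lc D] at h2
      have h3 := D.Gt.add_mem y.2 (D.L_le_Gt h2)
      rwa [add_neg_cancel_left] at h3
    · intro hx
      refine ⟨φ.symm (QuotientAddGroup.mk ⟨x, hx⟩), ?_⟩
      show ι (φ (φ.symm _)) = _
      rw [AddEquiv.apply_symm_apply, hι]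
  · intro w x hw
    have hx : x ∈ D.Gt := by
      obtain ⟨y, hy⟩ := QuotientAddGroup.mk_surjective (φ w)
      have h2 : ι (φ w) = QuotientAddGroup.mk x := hw
      rw [← hy, hι, QuotientAddGroup.eq, ← L_eq_Lc D] at h2
      have h3 := D.Gt.add_mem y.2 (D.L_le_Gt h2)
      rwa [add_neg_cancel_left] at h3
    obtain ⟨P, R, hPR⟩ := (hL _).1 (D.mem_Gt.1 hx)
    have h2 : φ (q (P, R)) = φ w := by
      rw [hφ P R ⟨x, hx⟩ hPR]
      apply hιinj
      rw [hι]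
      exact hw.symm
    rw [← φ.injective h2]
    by_cases hxL : x ∈ Lc c
    · have h3 : q (P, R) = 0 := by
        apply φ.injective
        rw [map_zero, hφ P R ⟨x, hx⟩ hPR, D.mk_eq_zero, L_eq_Lc D]
        exact hxL
      have hb0' : b 0 ≠ 0 := hb 0
      have hMc : (l ^ j) • c ∈ Lam := by
        have h4 := D.hh
        rw [EL_L0] at h4
        have h5 : ((l : ℤ) ^ j) • c = (l ^ j) • c := by
          rw [← natCast_zsmul]
          push_cast
          rfl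
        rwa [h5] at h4
      rw [h3, neg_zero, div_self hb0', sum_zero hper hodd hMc hxL, mul_zero,
        Complex.ofReal_zero, Complex.exp_zero]
    · have h3 : q (P, R) ≠ 0 := by
        intro h4
        apply hxL
        have h5 : (QuotientAddGroup.mk (⟨x, hx⟩ : D.Gt) : D.G) = 0 := by
          rw [← hφ P R ⟨x, hx⟩ hPR, h4, map_zero]
        rw [D.mk_eq_zero, L_eq_Lc D] at h5
        exact h5
      rw [hexp P R h3, hval P R x (by rw [← hMK, hPR]) hxL]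

end Zau
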