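import Pool.Agent.Lib_zau.Near3
import Pool.Agent.Lib_zau.GLstar
import Pool.Agent.Lib_zau.LinkB

/-!
# Zauner (block B9): the field `near` of the tower of `rhoT n`, without hypotheses
-/

set_option autoImplicit false

namespace Zau

open Finset Cone

theorem near4_starAll : StarAll := fun L hD _ _ hl hlN p hp hi y => L.star_prime hD hl hlN p hp hi y

/-- The link for `mkLens`. -/
theorem near4_link_mk (P : Ghost.Par) (N : ℕ) (A B U : ℤ) (hN : 0 < N) (hdet : B * N = A * U + 1)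
    (htr : P.b ^ 2 + P.o ^ 2 = ((A - U : ℤ) : ℝ)) (hub : 1 < P.b) (hAU : 3 ≤ A - U)
    (x : ℤ × ℤ) (hx : (QuotientAddGroup.mk x : GQ N A B U) ≠ 0) :
    bG (mkLens P N A B U hN hdet htr hub hAU) (QuotientAddGroup.mk x : GQ N A B U) /
      bG (mkLens P N A B U hN hdet htr hub hAU) (-(QuotientAddGroup.mk x : GQ N A B U)) =
      Complex.exp (((-2 * BO (LatB ((P.b ^ 2 + U) / N) (((P.b ^ 2)⁻¹ + U) / N)) (P.b ^ 2) (1, 1)
        (ptB (P.b ^ 2) ((P.b ^ 2 + U) / N) (((P.b ^ 2)⁻¹ + U) / N) x.1 x.2) : ℝ)) : ℂ) := by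
  obtain ⟨om, hom⟩ : ∃ om, om = P.b ^ 2 := ⟨_, rfl⟩
  have hom1 : 1 < om := by
    rw [hom]
    nlinarith
  have hN0 : (N : ℝ) ≠ 0 := by exact_mod_cast hN.ne'
  have hne1 : om - 1 ≠ 0 := by linarith
  have hne2 : om⁻¹ - 1 ≠ 0 := by
    have : om⁻¹ < 1 := inv_lt_one_of_one_lt₀ hom1
    linarith
  refine LB.bG_link P N A B U hN hdet htr hub hAU x hx (l0 := (1, 1))
    (l1 := ((P.b ^ 2 + U) / N, ((P.b ^ 2)⁻¹ + U) / N)) one_pos one_pos ?_ ?_ ?_ _ ?_ ?_
  · intro z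
    rw [mem_LatB]
    constructor
    · rintro ⟨s, t, rfl⟩
      exact ⟨s, t, by simp only; ring, by simp only; ring⟩
    · rintro ⟨s, t, h1, h2⟩
      refine ⟨s, t, ?_⟩
      ext
      · rw [h1]; simp only; ring
      · rw [h2]; simp only; ring
  · rw [← hom]
    field_simp
    ring
  · rw [← hom]
    field_simp
    ring
  · rw [← hom]
    unfold ptB
    simp only
    field_simp
  · rw [← hom]
    unfold ptB
    simp only
    rw [← sub_one_mul, mul_div_cancel₀ _ hne2]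
    ring

theorem near4_linkAll : LinkAll := by
  intro L hD hR
  cases L with
  | mk P N A B U hN hdet htr hub hAU D R D_per R_per D_diff R_diff DR D2 R2 D3 R3 Dup Dlim Ddn =>
    have h1 : D = Df N U (P.b ^ 2) := hD
    have h2 : R = Rf N U (P.b ^ 2) := hR
    subst h1
    subst h2
    intro x hx
    exact near4_link_mk P N A B U hN hdet htr hub hAU x hx

/-- The systems of near group equations. -/
theorem allBSol : AllBSol := allBSol_of near4_starAll near4_linkAll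

/-- **Block B9**. -/
theorem near_rhoT {n : ℤ} (hn : 3 ≤ n) :
    ∀ l : ℕ, l.Prime → l ≠ 2 → ¬ IsSquare ((n ^ 2 - 4 : ℤ) : ZMod l) →
    ∀ K j : ℕ, 0 < K → 0 < j →
    (∀ z ∈ Lam, ∃ z' ∈ Lam, (E n ^ K) z - z = (l ^ j) • z') →
    (∃ z ∈ Lam, ∀ z' ∈ Lam, (E n ^ K) z - z ≠ (l ^ (j + 1)) • z') →
    ∀ c : ℚ × ℚ, (l ^ j) • c ∈ Lam → (l ^ (j - 1)) • c ∉ Lam → Near n (rhoT n) l K j c :=
  near_of_all hn allBSol

/-- The tower. -/
theorem tower_rhoT {n : ℤ} (hn : 3 ≤ n) : Tower n (rhoT n) where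
  per := rhoT_per hn
  odd := rhoT_odd hn
  eps := rhoT_eps hn
  dist := rhoT_dist hn
  near := near_rhoT hn

end Zau
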