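import Pool.Agent.Lib_zau.Near3
import Pool.Agent.Lib_zau.GLall
import Pool.Agent.Lib_zau.LinkC

/-!
# Zauner (MP_1c78a5_mp): `AllBSol`
-/

set_option autoImplicit false

namespace Zau

/-- A lens with the functions `Df`, `Rf` is `mkLens`. -/
theorem eq_mkLens (L : Lens) (hD : L.D = Df L.N L.U L.om) (hR : L.R = Rf L.N L.U L.om) :
    L = mkLens L.P L.N L.A L.B L.U L.hN L.hdet L.htr L.hub L.hAU := by
  obtain ⟨P, N, A, B, U, hN, hdet, htr, hub, hAU, D, R, h1, h2, h3, h4, h5, h6, h7, h8, h9, h10,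
    h11, h12⟩ := L
  replace hD : D = Df N U (P.b ^ 2) := hD
  replace hR : R = Rf N U (P.b ^ 2) := hR
  subst hD
  subst hR
  rfl

theorem linkAll : LinkAll := by
  intro L hD hR x hx
  have h := eq_mkLens L hD hR
  obtain ⟨P, N, A, B, U, hN, hdet, htr, hub, hAU, D, R, h1, h2, h3, h4, h5, h6, h7, h8, h9, h10,
    h11, h12⟩ := L
  replace hD : D = Df N U (P.b ^ 2) := hD
  replace hR : R = Rf N U (P.b ^ 2) := hR
  subst hD
  subst hR
  exact LB.bG_link_LatB P N A B U hN hdet htr hub hAU x hx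

theorem allBSol : AllBSol := allBSol_of starAll linkAll

end Zau
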