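import Pool.Agent.Lib_zau.PhiA

/-!
# The double sine function in the upper half plane, general badly approximable periods
-/

open Complex MeasureTheory Set Filter Topology
open scoped Real ComplexConjugate

namespace Zau

open Ghost

/-- Parameters `o < b` with badly approximable squares. -/
structure Bad (P : Par) : Prop where
  hbo : P.o < P.b
  b2 : BA (P.b ^ 2)
  o2 : BA (P.o ^ 2)

/-- The logarithm. -/
noncomputable def Lg (P : Par) (x : ℂ) : ℂ := lph (P.b ^ 2) (P.b * x) + lph (P.o ^ 2) (P.o * x)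

theorem exp_Lg (P : Par) (x : ℂ) :
    Complex.exp (Lg P x) = (phi (P.b ^ 2) (P.b * x))⁻¹ * (phi (P.o ^ 2) (P.o * x))⁻¹ := by
  unfold Lg phi
  rw [Complex.exp_add, ← Complex.exp_neg, ← Complex.exp_neg, neg_neg, neg_neg]

theorem im_pos_b (P : Par) {x : ℂ} (hx : 0 < x.im) : 0 < ((P.b : ℂ) * x).im := by
  rw [Complex.im_ofReal_mul]
  exact mul_pos P.hb hx

theorem im_pos_o (P : Par) {x : ℂ} (hx : 0 < x.im) : 0 < ((P.o : ℂ) * x).im := by
  rw [Complex.im_ofReal_mul]
  exact mul_pos P.ho hx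

theorem Lg_differentiableAt {P : Par} (hP : Bad P) {x : ℂ} (hx : 0 < x.im) :
    DifferentiableAt ℂ (Lg P) x := by
  unfold Lg
  apply DifferentiableAt.add
  · exact DifferentiableAt.comp x (lph_differentiableAt hP.b2 (im_pos_b P hx)) (by fun_prop)
  · exact DifferentiableAt.comp x (lph_differentiableAt hP.o2 (im_pos_o P hx)) (by fun_prop)

theorem cbo (P : Par) : (P.b : ℂ) * P.o = 1 := by
  rw [← Complex.ofReal_mul, P.hbo, Complex.ofReal_one]

theorem exp_Lg_add_b {P : Par} (hP : Bad P) {x : ℂ} (hx : 0 < x.im) :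
    Complex.exp (Lg P (x + P.b)) = (1 - e (P.b * x)) * Complex.exp (Lg P x) := by
  rw [exp_Lg, exp_Lg]
  have h1 : (P.b : ℂ) * (x + P.b) = P.b * x + ((P.b ^ 2 : ℝ) : ℂ) := by push_cast; ring
  have h2 : (P.o : ℂ) * (x + P.b) = P.o * x + 1 := by
    linear_combination cbo P
  have h3 := phi_step hP.b2 (im_pos_b P hx)
  have h4 := one_sub_e_ne_of_im (im_pos_b P hx)
  rw [h1, h2, phi_add_one, h3]
  have h5 := phi_ne_zero (P.b ^ 2) (P.b * x + ((P.b ^ 2 : ℝ) : ℂ))
  generalize phi (P.b ^ 2) (P.b * x + ((P.b ^ 2 : ℝ) : ℂ)) = u at *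
  generalize 1 - e (P.b * x) = v at *
  field_simp

theorem exp_Lg_add_o {P : Par} (hP : Bad P) {x : ℂ} (hx : 0 < x.im) :
    Complex.exp (Lg P (x + P.o)) = (1 - e (P.o * x)) * Complex.exp (Lg P x) := by
  rw [exp_Lg, exp_Lg]
  have h1 : (P.o : ℂ) * (x + P.o) = P.o * x + ((P.o ^ 2 : ℝ) : ℂ) := by push_cast; ring
  have h2 : (P.b : ℂ) * (x + P.o) = P.b * x + 1 := by
    linear_combination cbo P
  have h3 := phi_step hP.o2 (im_pos_o P hx)
  have h4 := one_sub_e_ne_of_im (im_pos_o P hx)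
  rw [h1, h2, phi_add_one, h3]
  have h5 := phi_ne_zero (P.o ^ 2) (P.o * x + ((P.o ^ 2 : ℝ) : ℂ))
  generalize phi (P.o ^ 2) (P.o * x + ((P.o ^ 2 : ℝ) : ℂ)) = u at *
  generalize 1 - e (P.o * x) = v at *
  field_simp

/-- the quotient -/
noncomputable def qq (P : Par) (x : ℂ) : ℂ :=
  G P x * (e ((x ^ 2 - P.Q * x) / 4) * Complex.exp (-(Lg P x)))

theorem qq_period (P : Par) (c : ℝ) (hc : (c : ℂ) ^ 2 - P.Q * c = -1) (x : ℂ)
    (hG : G P (x + c) = 2 * Complex.sin (π * c * x) * G P x)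
    (hL : Complex.exp (Lg P (x + c)) = (1 - e (c * x)) * Complex.exp (Lg P x)) :
    qq P (x + c) = qq P x := by
  have hne : 1 - e (c * x) ≠ 0 := by
    intro h
    rw [h, zero_mul] at hL
    exact Complex.exp_ne_zero _ hL
  unfold qq
  rw [hG, Complex.exp_neg, hL, Complex.exp_neg]
  have h1 : ((x + c) ^ 2 - P.Q * (x + c)) / 4 = (x ^ 2 - P.Q * x) / 4 + (c * x / 2 + -1 / 4) := by
    linear_combination (1 / 4 : ℂ) * hc
  rw [h1, e_add, e_add]
  have h2 := GUP_sin c x
  have hE : Complex.exp (Lg P x) ≠ 0 := Complex.exp_ne_zero _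
  rw [mul_inv]
  calc 2 * Complex.sin (π * c * x) * G P x *
        (e ((x ^ 2 - P.Q * x) / 4) * (e (c * x / 2) * e (-1 / 4)) *
          ((1 - e (c * x))⁻¹ * (Complex.exp (Lg P x))⁻¹))
      = (2 * Complex.sin (π * c * x) * (e (c * x / 2) * e (-1 / 4))) * (1 - e (c * x))⁻¹ *
        (G P x * (e ((x ^ 2 - P.Q * x) / 4) * (Complex.exp (Lg P x))⁻¹)) := by ring
    _ = G P x * (e ((x ^ 2 - P.Q * x) / 4) * (Complex.exp (Lg P x))⁻¹) := by
        rw [h2, mul_inv_cancel₀ hne, one_mul]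

theorem qq_diff {P : Par} (hP : Bad P) {x : ℂ} (hx : 0 < x.im) :
    DifferentiableAt ℂ (qq P) x := by
  have h1 := G_differentiableAt P hP.hbo (not_pole_of_im_ne P hx.ne')
  have h2 := Lg_differentiableAt hP hx
  unfold qq
  refine h1.mul (DifferentiableAt.mul ?_ h2.neg.cexp)
  unfold e
  fun_prop

theorem qq_period_b {P : Par} (hP : Bad P) {x : ℂ} (hx : 0 < x.im) :
    qq P (x + P.b) = qq P x := by
  have hbo := cbo P
  apply qq_period P P.b
  · have hQ : (P.Q : ℂ) = P.b + P.o := by simp [Par.Q]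
    rw [hQ]
    linear_combination -hbo
  · exact G_add_b P (not_pole_of_im_ne P hx.ne')
  · exact exp_Lg_add_b hP hx

theorem qq_period_o {P : Par} (hP : Bad P) {x : ℂ} (hx : 0 < x.im) :
    qq P (x + P.o) = qq P x := by
  have hbo := cbo P
  apply qq_period P P.o
  · have hQ : (P.Q : ℂ) = P.b + P.o := by simp [Par.Q]
    rw [hQ]
    linear_combination -hbo
  · exact G_add_o P hP.hbo (not_pole_of_im_ne P hx.ne')
  · exact exp_Lg_add_o hP hx

theorem qq_closure {P : Par} (hP : Bad P) {g : ℝ}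
    (hg : g ∈ AddSubgroup.closure {P.b, P.o}) :
    ∀ x : ℂ, 0 < x.im → qq P (x + g) = qq P x := by
  induction hg using AddSubgroup.closure_induction with
  | mem y hy =>
    intro x hx
    rcases hy with rfl | hy
    · exact qq_period_b hP hx
    · rw [Set.mem_singleton_iff] at hy
      subst hy
      exact qq_period_o hP hx
  | zero => intro x _; simp
  | add y z _ _ h1 h2 =>
    intro x hx
    have e1 : x + ((y + z : ℝ) : ℂ) = (x + y) + z := by push_cast; ring
    rw [e1, h2 _ (by simpa using hx), h1 x hx]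
  | neg y _ h1 =>
    intro x hx
    have h2 := h1 (x + ((-y : ℝ) : ℂ)) (by simpa using hx)
    have e1 : x + ((-y : ℝ) : ℂ) + y = x := by push_cast; ring
    rw [e1] at h2
    exact h2.symm

theorem Bad.dense {P : Par} (hP : Bad P) :
    Dense ((AddSubgroup.closure {P.b, P.o} : AddSubgroup ℝ) : Set ℝ) := by
  rw [dense_addSubgroupClosure_pair_iff]
  have h : P.b / P.o = P.b ^ 2 := by
    rw [div_eq_iff P.ho.ne']
    calc P.b = P.b * (P.b * P.o) := by rw [P.hbo, mul_one]
      _ = P.b ^ 2 * P.o := by ring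
  rw [h]
  exact hP.b2.irrational

theorem qq_real {P : Par} (hP : Bad P) {x : ℂ} (hx : 0 < x.im) (s : ℝ) :
    qq P (x + s) = qq P x := by
  have hcont : Continuous fun s : ℝ => qq P (x + s) := by
    rw [continuous_iff_continuousAt]
    intro s
    have h1 : ContinuousAt (qq P) (x + s) := (qq_diff hP (by simpa using hx)).continuousAt
    exact ContinuousAt.comp (f := fun s : ℝ => x + (s : ℂ)) h1
      (continuous_const.add Complex.continuous_ofReal).continuousAt
  have h := Continuous.ext_on hP.dense hcont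
    (continuous_const (y := qq P x)) (fun g hg => qq_closure hP hg x hx)
  exact congrFun h s

theorem qq_deriv {P : Par} (hP : Bad P) {x : ℂ} (hx : 0 < x.im) :
    deriv (qq P) x = 0 := by
  have h1 : HasDerivAt (qq P) (deriv (qq P) x) x := (qq_diff hP hx).hasDerivAt
  have h2 : HasDerivAt (fun s : ℝ => x + (s : ℂ)) 1 0 := by
    have := (Complex.ofRealCLM.hasDerivAt (x := (0 : ℝ))).const_add x
    simpa using this
  have h1' : HasDerivAt (qq P) (deriv (qq P) x) (x + ((0 : ℝ) : ℂ)) := by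
    simpa using h1
  have h3 := h1'.comp_of_eq (0 : ℝ) h2 rfl
  have h4 : (qq P ∘ fun s : ℝ => x + (s : ℂ)) = fun _ => qq P x := by
    funext s
    exact qq_real hP hx s
  rw [h4] at h3
  have h5 := h3.unique (hasDerivAt_const (0 : ℝ) (qq P x))
  simpa using h5

/-- The constant in `G_upper_gen`. -/
noncomputable def rG (P : Par) : ℂ := qq P I

theorem rG_ne_zero {P : Par} (hP : Bad P) : rG P ≠ 0 := by
  have hI : 0 < (I : ℂ).im := by simp
  unfold rG qq
  refine mul_ne_zero ?_ (mul_ne_zero (e_ne _) (Complex.exp_ne_zero _))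
  apply G_ne_zero P hP.hbo
  · exact not_pole_of_im_ne P hI.ne'
  · apply not_pole_of_im_ne
    simp

/-- Formula for `G` in the upper half plane, general parameters. -/
theorem G_upper_gen {P : Par} (hP : Bad P) {x : ℂ} (hx : 0 < x.im) :
    G P x = rG P * e (-(x ^ 2 - P.Q * x) / 4) * Complex.exp (Lg P x) := by
  have hI : 0 < (I : ℂ).im := by simp
  have hopen : IsOpen {z : ℂ | 0 < z.im} := isOpen_lt continuous_const Complex.continuous_im
  have hconv : Convex ℝ {z : ℂ | 0 < z.im} := convex_halfSpace_im_gt 0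
  have h1 : qq P x = qq P I := by
    refine hopen.is_const_of_deriv_eq_zero hconv.isPreconnected
      (fun z hz => (qq_diff hP hz).differentiableWithinAt) (fun z hz => qq_deriv hP hz) hx hI
  unfold rG
  rw [← h1]
  unfold qq
  have h2 : e (-(x ^ 2 - P.Q * x) / 4) = e (-((x ^ 2 - P.Q * x) / 4)) := by rw [neg_div]
  have h3 := GUP_e_neg ((x ^ 2 - P.Q * x) / 4)
  have h4 : Complex.exp (-(Lg P x)) * Complex.exp (Lg P x) = 1 := by
    rw [← Complex.exp_add, neg_add_cancel, Complex.exp_zero]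
  rw [h2]
  calc G P x = G P x * ((e (-((x ^ 2 - P.Q * x) / 4)) * e ((x ^ 2 - P.Q * x) / 4)) *
        (Complex.exp (-(Lg P x)) * Complex.exp (Lg P x))) := by rw [h3, h4, one_mul, mul_one]
    _ = _ := by ring

/-- `exp Lg` is, in the upper half plane, the function `G` up to an elementary factor. -/
theorem exp_Lg_eq {P : Par} (hP : Bad P) {x : ℂ} (hx : 0 < x.im) :
    Complex.exp (Lg P x) = (rG P)⁻¹ * e ((x ^ 2 - P.Q * x) / 4) * G P x := by
  rw [G_upper_gen hP hx]
  have h1 := rG_ne_zero hP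
  have h2 : e (-(x ^ 2 - P.Q * x) / 4) = (e ((x ^ 2 - P.Q * x) / 4))⁻¹ := by
    rw [← e_neg, neg_div]
  have h3 := e_ne ((x ^ 2 - P.Q * x) / 4)
  rw [h2]
  generalize e ((x ^ 2 - P.Q * x) / 4) = u at *
  field_simp

theorem continuous_e : Continuous e := LSER_e_differentiable.continuous

/-- Boundary values: `exp Lg` extends continuously to the real points which are neither zeros nor
poles of `G`. -/
theorem tendsto_exp_Lg {P : Par} (hP : Bad P) {y : ℝ} (h1 : ¬ Pole P y)
    {ι : Type*} {l : Filter ι} {z : ι → ℂ} (hz : Tendsto z l (𝓝 (y : ℂ)))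
    (him : ∀ᶠ i in l, 0 < (z i).im) :
    Tendsto (fun i => Complex.exp (Lg P (z i))) l
      (𝓝 ((rG P)⁻¹ * e (((y : ℂ) ^ 2 - P.Q * y) / 4) * G P y)) := by
  have hG : ContinuousAt (G P) (y : ℂ) := (G_differentiableAt P hP.hbo h1).continuousAt
  have hc : ContinuousAt (fun x : ℂ => (rG P)⁻¹ * e ((x ^ 2 - P.Q * x) / 4) * G P x) (y : ℂ) := by
    apply ContinuousAt.mul _ hG
    apply ContinuousAt.mul continuousAt_const
    exact continuous_e.continuousAt.comp (by fun_prop)
  have h2 := hc.tendsto.comp hz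
  refine h2.congr' ?_
  filter_upwards [him] with i hi
  simp only [Function.comp]
  rw [exp_Lg_eq hP hi]

end Zau
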