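import Pool.Agent.Lib_zau.PhiA

/-!
# Badly approximable numbers: Moebius transformations and quadratic irrationals
-/

open Complex MeasureTheory Set Filter Topology
open scoped Real ComplexConjugate

namespace Zau

open Ghost

theorem norm_one_sub_e_le (θ : ℝ) (m : ℤ) : ‖1 - e (θ : ℂ)‖ ≤ 2 * π * |θ - m| := by
  have h1 : e (θ : ℂ) = Complex.exp (I * ((2 * π * (θ - m) : ℝ) : ℂ)) := by
    unfold e
    have h2 : (2 : ℂ) * π * I * θ = I * ((2 * π * (θ - m) : ℝ) : ℂ) + m * (2 * π * I) := by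
      push_cast
      ring
    rw [h2, Complex.exp_add, Complex.exp_int_mul_two_pi_mul_I, mul_one]
  rw [h1, norm_sub_rev, Complex.norm_exp_I_mul_ofReal_sub_one]
  have h3 : 2 * π * (θ - m) / 2 = π * (θ - m) := by ring
  rw [h3, Real.norm_eq_abs, abs_mul, abs_two]
  have h4 : |Real.sin (π * (θ - m))| ≤ |π * (θ - m)| := Real.abs_sin_le_abs
  rw [abs_mul, abs_of_pos Real.pi_pos] at h4
  linarith

/-- The classical form of the definition. -/
theorem BA_iff {β : ℝ} :
    BA β ↔ ∃ c : ℝ, 0 < c ∧ ∀ m n : ℤ, n ≠ 0 → c ≤ |(n : ℝ)| * |n * β - m| := by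
  constructor
  · rintro ⟨c, hc, hd⟩
    refine ⟨c / (2 * π), by positivity, ?_⟩
    intro m n hn
    obtain ⟨N, hN⟩ : ∃ N : ℕ, (N : ℤ) = |n| := ⟨n.natAbs, by simp⟩
    have hN1 : 1 ≤ N := by
      have : 0 < |n| := abs_pos.mpr hn
      omega
    have h1 := hd N hN1
    have hNr : (N : ℝ) = |(n : ℝ)| := by
      have : ((N : ℤ) : ℝ) = ((|n| : ℤ) : ℝ) := by rw [hN]
      push_cast at this
      exact this
    -- choose the sign
    obtain ⟨m', hm'⟩ : ∃ m' : ℤ, |(N : ℝ) * β - m'| = |n * β - m| := by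
      rcases le_total 0 (n : ℝ) with h | h
      · refine ⟨m, ?_⟩
        rw [hNr, abs_of_nonneg h]
      · refine ⟨-m, ?_⟩
        rw [hNr, abs_of_nonpos h]
        push_cast
        rw [← abs_neg]
        congr 1
        ring
    have h2 := norm_one_sub_e_le ((N : ℝ) * β) m'
    rw [hm'] at h2
    have h3 : e ((N : ℂ) * β) = e (((N : ℝ) * β : ℝ) : ℂ) := by push_cast; rfl
    rw [h3] at h1
    have h4 : c / N ≤ 2 * π * |n * β - m| := h1.trans h2
    have hN0 : (0 : ℝ) < N := by exact_mod_cast hN1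
    rw [div_le_iff₀ hN0] at h4
    rw [div_le_iff₀ (by positivity), ← hNr]
    linarith
  · rintro ⟨c, hc, hd⟩
    refine ⟨4 * c, by positivity, ?_⟩
    intro n hn
    have hn0 : (0 : ℝ) < n := by exact_mod_cast hn
    have h1 := hd (round ((n : ℝ) * β)) n (by omega)
    have h2 := DIO_norm ((n : ℝ) * β) (round ((n : ℝ) * β)) (abs_sub_round _)
    have h3 : e ((n : ℂ) * β) = e (((n : ℝ) * β : ℝ) : ℂ) := by push_cast; rfl
    rw [h3]
    refine le_trans ?_ h2
    rw [div_le_iff₀ hn0]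
    push_cast at h1
    rw [abs_of_pos hn0] at h1
    linarith

/-- Moebius transformations with non-zero determinant. -/
theorem BA.mobius {β : ℝ} (h : BA β) {a b c d : ℤ} (hdet : a * d - b * c ≠ 0)
    (hne : (c : ℝ) * β + d ≠ 0) : BA ((a * β + b) / (c * β + d)) := by
  rw [BA_iff] at h ⊢
  obtain ⟨κ, hκ, hd⟩ := h
  set v : ℝ := |(c : ℝ) * β + d| with hv
  have hv0 : 0 < v := abs_pos.mpr hne
  set u : ℝ := |((a : ℝ) * β + b)| with hu
  have hu0 : 0 ≤ u := abs_nonneg _
  -- the constant for the number of steps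
  set C : ℝ := |(a : ℝ)| + |(c : ℝ)| * (u / v + 1) with hC
  have hC0 : 0 ≤ C := by positivity
  refine ⟨min 1 (min (1 / v) (κ / ((C + 1) * v))), by positivity, ?_⟩
  intro m n hn
  have hn1 : (1 : ℝ) ≤ |(n : ℝ)| := by
    have : 1 ≤ |n| := Int.one_le_abs hn
    exact_mod_cast this
  set x : ℝ := |(n : ℝ) * (((a : ℝ) * β + b) / (c * β + d)) - m| with hx
  have hx0 : 0 ≤ x := abs_nonneg _
  by_cases hx1 : 1 ≤ x
  · refine (min_le_left _ _).trans ?_
    nlinarith
  rw [not_le] at hx1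
  refine (min_le_right _ _).trans ?_
  -- the linear form
  have key : x * v = |((n * a - m * c : ℤ) : ℝ) * β - ((m * d - n * b : ℤ) : ℝ)| := by
    rw [hx, hv, ← abs_mul]
    congr 1
    have hq : ((n : ℝ) * (((a : ℝ) * β + b) / (c * β + d)) - m) * (c * β + d) =
        n * (a * β + b) - m * (c * β + d) := by
      rw [sub_mul, mul_assoc, div_mul_cancel₀ _ hne]
    rw [hq]
    push_cast
    ring
  by_cases h0 : n * a - m * c = 0
  · -- then the constant term does not vanish
    have h1 : m * d - n * b ≠ 0 := by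
      intro h2
      have h3 : n * (a * d - b * c) = 0 := by
        linear_combination d * h0 + c * h2
      rcases mul_eq_zero.mp h3 with h4 | h4
      · exact hn h4
      · exact hdet h4
    refine (min_le_left _ _).trans ?_
    rw [h0] at key
    have h2 : (1 : ℝ) ≤ x * v := by
      rw [key]
      push_cast
      rw [zero_mul, zero_sub, abs_neg]
      have := Int.one_le_abs h1
      have h3 : ((1 : ℤ) : ℝ) ≤ ((|m * d - n * b| : ℤ) : ℝ) := by exact_mod_cast this
      push_cast at h3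
      exact h3
    rw [div_le_iff₀ hv0]
    nlinarith
  · refine (min_le_right _ _).trans ?_
    have h1 := hd (m * d - n * b) (n * a - m * c) h0
    rw [← key] at h1
    -- bound of the coefficient
    have hm : |(m : ℝ)| ≤ |(n : ℝ)| * (u / v + 1) := by
      have h2 : (m : ℝ) = (n : ℝ) * (((a : ℝ) * β + b) / (c * β + d)) -
          ((n : ℝ) * (((a : ℝ) * β + b) / (c * β + d)) - m) := by ring
      have h3 : |(m : ℝ)| ≤ |(n : ℝ) * (((a : ℝ) * β + b) / (c * β + d))| + x := by
        rw [hx]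
        conv_lhs => rw [h2]
        exact abs_sub _ _
      have h4 : |(n : ℝ) * (((a : ℝ) * β + b) / (c * β + d))| = |(n : ℝ)| * (u / v) := by
        rw [abs_mul, abs_div]
      rw [h4] at h3
      nlinarith
    have h5 : |((n * a - m * c : ℤ) : ℝ)| ≤ |(n : ℝ)| * C := by
      push_cast
      refine (abs_sub _ _).trans ?_
      rw [abs_mul, abs_mul, hC]
      have h6 : |(m : ℝ)| * |(c : ℝ)| ≤ |(n : ℝ)| * (u / v + 1) * |(c : ℝ)| :=
        mul_le_mul_of_nonneg_right hm (abs_nonneg _)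
      nlinarith
    have h7 : κ ≤ |(n : ℝ)| * C * (x * v) :=
      h1.trans (mul_le_mul_of_nonneg_right h5 (by positivity))
    rw [div_le_iff₀ (by positivity)]
    have h8 : 0 ≤ |(n : ℝ)| * (x * v) := by positivity
    nlinarith

/-- Real quadratic irrationals are badly approximable. -/
theorem BA_of_quad {β : ℝ} (hirr : Irrational β) {A B C : ℤ} (hA : A ≠ 0)
    (hq : (A : ℝ) * β ^ 2 + B * β + C = 0) : BA β := by
  rw [BA_iff]
  have hA1 : (1 : ℝ) ≤ |(A : ℝ)| := by
    have : 1 ≤ |A| := Int.one_le_abs hA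
    exact_mod_cast this
  have hA0 : (A : ℝ) ≠ 0 := by exact_mod_cast hA
  -- the conjugate
  set β' : ℝ := -(B : ℝ) / A - β with hβ'
  set M : ℝ := 1 + |β - β'| with hM
  have hM0 : 1 ≤ M := by
    have := abs_nonneg (β - β')
    linarith
  refine ⟨min 1 (1 / (|(A : ℝ)| * M)), by positivity, ?_⟩
  intro m n hn
  have hn1 : (1 : ℝ) ≤ |(n : ℝ)| := by
    have : 1 ≤ |n| := Int.one_le_abs hn
    exact_mod_cast this
  set x : ℝ := |(n : ℝ) * β - m| with hx
  have hx0 : 0 ≤ x := abs_nonneg _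
  by_cases hx1 : 1 ≤ x
  · refine (min_le_left _ _).trans ?_
    nlinarith
  rw [not_le] at hx1
  refine (min_le_right _ _).trans ?_
  have hnr : (n : ℝ) ≠ 0 := by exact_mod_cast hn
  have h1 : (n : ℝ) * β - m ≠ 0 := by
    intro h0
    apply hirr
    refine ⟨(m : ℚ) / n, ?_⟩
    push_cast
    field_simp
    linarith
  have hprod : (A : ℝ) * ((n : ℝ) * β - m) * ((n : ℝ) * β' - m) =
      ((C * n ^ 2 + B * n * m + A * m ^ 2 : ℤ) : ℝ) := by
    rw [hβ']
    push_cast
    field_simp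
    linear_combination (-(n : ℝ) ^ 2) * hq
  have h2 : (n : ℝ) * β' - m ≠ 0 := by
    intro h0
    have h3 : (n : ℝ) * β = n * (-(B : ℝ) / A) - m := by
      rw [hβ'] at h0
      linarith
    apply hirr
    refine ⟨(-(B : ℚ) / A) - m / n, ?_⟩
    push_cast
    field_simp
    field_simp at h3
    linarith
  have h3 : (1 : ℝ) ≤ |(A : ℝ)| * x * |(n : ℝ) * β' - m| := by
    have h4 : ((C * n ^ 2 + B * n * m + A * m ^ 2 : ℤ) : ℝ) ≠ 0 := by
      rw [← hprod]
      exact mul_ne_zero (mul_ne_zero hA0 h1) h2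
    have h5 : (C * n ^ 2 + B * n * m + A * m ^ 2 : ℤ) ≠ 0 := by exact_mod_cast h4
    have h6 := Int.one_le_abs h5
    have h7 : (1 : ℝ) ≤ |((C * n ^ 2 + B * n * m + A * m ^ 2 : ℤ) : ℝ)| := by
      exact_mod_cast h6
    rw [← hprod, abs_mul, abs_mul] at h7
    exact h7
  have h4 : |(n : ℝ) * β' - m| ≤ |(n : ℝ)| * M := by
    have h5 : (n : ℝ) * β' - m = ((n : ℝ) * β - m) - n * (β - β') := by ring
    rw [h5]
    refine (abs_sub _ _).trans ?_
    rw [abs_mul, hM]
    nlinarith [abs_nonneg (β - β')]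
  have h5 : (1 : ℝ) ≤ |(A : ℝ)| * x * (|(n : ℝ)| * M) :=
    h3.trans (mul_le_mul_of_nonneg_left h4 (by positivity))
  rw [div_le_iff₀ (by positivity)]
  nlinarith

/-- The inverse. -/
theorem BA.inv {β : ℝ} (h : BA β) : BA (1 / β) := by
  have h1 := h.mobius (a := 0) (b := 1) (c := 1) (d := 0) (by norm_num)
    (by have := h.ne_zero; simpa using this)
  simpa using h1

end Zau
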