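import Pool.Agent.Lib_zau.PhiB
import Pool.Agent.Lib_zau.PhiC

/-!
# Modular transformations of `phi` at the real line

For an integer matrix `(a b; c d)` of determinant one with `c β + d > 0` the quotient
`phi ((a β + b) / (c β + d)) (z / (c β + d)) / phi β z` tends to a non-zero limit when `z` tends, in
the upper half plane, to a real number `y` which is zero or not in `ℤ + ℤ β`.
-/

open Complex MeasureTheory Set Filter Topology
open scoped Real ComplexConjugate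

namespace Zau

open Ghost

/-- The upper half plane as a set. -/
def UH : Set ℂ := {z : ℂ | 0 < z.im}

theorem mem_UH {z : ℂ} : z ∈ UH ↔ 0 < z.im := Iff.rfl

/-- Real numbers outside the lattice `ℤ + ℤ β`, or zero. -/
def Adm (β y : ℝ) : Prop := y = 0 ∨ ∀ m n : ℤ, y ≠ m + n * β

theorem exists_par {t : ℝ} (ht : 1 < t) : ∃ P : Par, P.o < P.b ∧ P.b ^ 2 = t := by
  have h0 : 0 < Real.sqrt t := Real.sqrt_pos.mpr (by linarith)
  have hs : Real.sqrt t ^ 2 = t := Real.sq_sqrt (by linarith)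
  have h1 : 1 < Real.sqrt t := by
    rw [show (1 : ℝ) = Real.sqrt 1 by simp]
    exact Real.sqrt_lt_sqrt (by norm_num) ht
  refine ⟨⟨Real.sqrt t, 1 / Real.sqrt t, h0, by positivity, by field_simp⟩, ?_, hs⟩
  show 1 / Real.sqrt t < Real.sqrt t
  rw [div_lt_iff₀ h0]
  nlinarith

/-- `z ↦ c z + c'` maps upper half plane neighbourhoods of a real point to such. -/
theorem tendsto_affine {c : ℝ} (hc : 0 < c) (c' y : ℝ) :
    Tendsto (fun z : ℂ => (c : ℂ) * z + c') (𝓝[UH] (y : ℂ)) (𝓝[UH] ((c * y + c' : ℝ) : ℂ)) := by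
  apply tendsto_nhdsWithin_iff.mpr
  constructor
  · have h1 : ContinuousAt (fun z : ℂ => (c : ℂ) * z + c') (y : ℂ) := by fun_prop
    have h2 := h1.tendsto.mono_left (nhdsWithin_le_nhds (s := UH) (a := (y : ℂ)))
    have h3 : (((c * y + c' : ℝ)) : ℂ) = (c : ℂ) * y + c' := by push_cast; ring
    rw [h3]
    exact h2
  · filter_upwards [self_mem_nhdsWithin] with z hz
    rw [mem_UH] at hz ⊢
    rw [Complex.add_im, Complex.im_ofReal_mul, Complex.ofReal_im, add_zero]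
    exact mul_pos hc hz

theorem tendsto_div {μ : ℝ} (hμ : 0 < μ) (y : ℝ) :
    Tendsto (fun z : ℂ => z / (μ : ℂ)) (𝓝[UH] (y : ℂ)) (𝓝[UH] ((y / μ : ℝ) : ℂ)) := by
  have h := tendsto_affine (c := 1 / μ) (by positivity) 0 y
  have h1 : (fun z : ℂ => (((1 / μ : ℝ)) : ℂ) * z + ((0 : ℝ) : ℂ)) = fun z : ℂ => z / (μ : ℂ) := by
    funext z
    push_cast
    ring
  have h2 : 1 / μ * y + 0 = y / μ := by ring
  rw [h1, h2] at h
  exact h

/-- The quotient of two functions `phi` is a double sine function: `β > 1`. -/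
theorem quot_eq_b {P : Par} (hP : Bad P) (z : ℂ) :
    phi (-(1 / P.b ^ 2)) (z / ((P.b ^ 2 : ℝ) : ℂ)) / phi (P.b ^ 2) z =
      Complex.exp (Lg P ((P.o : ℂ) * z + P.o)) := by
  have hbo := cbo P
  have ho2 : 1 / P.b ^ 2 = P.o ^ 2 := by
    have := P.hb
    field_simp
    rw [← mul_pow, P.hbo, one_pow]
  have hB : ((P.b ^ 2 : ℝ) : ℂ) ≠ 0 := by
    have := P.hb
    exact_mod_cast (by positivity : P.b ^ 2 ≠ 0)
  rw [exp_Lg, ho2, phi_neg hP.o2]
  have h1 : (P.b : ℂ) * ((P.o : ℂ) * z + P.o) = z + 1 := by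
    linear_combination (z + 1) * hbo
  have h3 : ((P.o ^ 2 : ℝ) : ℂ) * ((P.b ^ 2 : ℝ) : ℂ) = 1 := by
    push_cast
    linear_combination ((P.b : ℂ) * P.o + 1) * hbo
  have h2 : (P.o : ℂ) * ((P.o : ℂ) * z + P.o) = z / ((P.b ^ 2 : ℝ) : ℂ) + ((P.o ^ 2 : ℝ) : ℂ) := by
    have h4 : z / ((P.b ^ 2 : ℝ) : ℂ) = ((P.o ^ 2 : ℝ) : ℂ) * z := by
      rw [div_eq_iff hB]
      linear_combination (-z) * h3
    rw [h4]
    push_cast
    ring
  rw [h1, h2, phi_add_one, div_eq_mul_inv, mul_comm]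

/-- The same for `β < 1`. -/
theorem quot_eq_o {P : Par} (hP : Bad P) (z : ℂ) :
    phi (-(1 / P.o ^ 2)) (z / ((P.o ^ 2 : ℝ) : ℂ)) / phi (P.o ^ 2) z =
      Complex.exp (Lg P ((P.b : ℂ) * z + P.b)) := by
  have hbo := cbo P
  have ho2 : 1 / P.o ^ 2 = P.b ^ 2 := by
    have := P.ho
    field_simp
    rw [← mul_pow, mul_comm, P.hbo, one_pow]
  have hB : ((P.o ^ 2 : ℝ) : ℂ) ≠ 0 := by
    have := P.ho
    exact_mod_cast (by positivity : P.o ^ 2 ≠ 0)
  rw [exp_Lg, ho2, phi_neg hP.b2]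
  have h1 : (P.o : ℂ) * ((P.b : ℂ) * z + P.b) = z + 1 := by
    linear_combination (z + 1) * hbo
  have h3 : ((P.o ^ 2 : ℝ) : ℂ) * ((P.b ^ 2 : ℝ) : ℂ) = 1 := by
    push_cast
    linear_combination ((P.b : ℂ) * P.o + 1) * hbo
  have h2 : (P.b : ℂ) * ((P.b : ℂ) * z + P.b) = z / ((P.o ^ 2 : ℝ) : ℂ) + ((P.b ^ 2 : ℝ) : ℂ) := by
    have h4 : z / ((P.o ^ 2 : ℝ) : ℂ) = ((P.b ^ 2 : ℝ) : ℂ) * z := by
      rw [div_eq_iff hB]
      linear_combination (-z) * h3
    rw [h4]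
    push_cast
    ring
  rw [h1, h2, phi_add_one, div_eq_mul_inv]

/-- Boundary values of `exp Lg` in filter form. -/
theorem lim_exp_Lg {P : Par} (hP : Bad P) {y : ℝ} (h1 : ¬ Pole P y) (h2 : ¬ Pole P (P.Q - y)) :
    ∃ l : ℂ, l ≠ 0 ∧ Tendsto (fun z : ℂ => Complex.exp (Lg P z)) (𝓝[UH] (y : ℂ)) (𝓝 l) := by
  refine ⟨_, ?_, tendsto_exp_Lg hP h1 (nhdsWithin_le_nhds) self_mem_nhdsWithin⟩
  exact mul_ne_zero (mul_ne_zero (inv_ne_zero (rG_ne_zero hP)) (e_ne _))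
    (G_ne_zero P hP.hbo h1 h2)

theorem adm_not_pole_b {P : Par} {y : ℝ} (hy : Adm (P.b ^ 2) y) :
    ¬ Pole P ((P.o * y + P.o : ℝ) : ℂ) ∧ ¬ Pole P (P.Q - ((P.o * y + P.o : ℝ) : ℂ)) := by
  have hb := P.hb
  have ho := P.ho
  have hbo := P.hbo
  constructor
  · rintro ⟨m, n, h⟩
    have h1 : P.o * y + P.o = -((m : ℝ) * P.b + n * P.o) := by
      have h2 : ((P.o * y + P.o : ℝ) : ℂ) = ((-((m : ℝ) * P.b + n * P.o) : ℝ) : ℂ) := by
        rw [h]; push_cast; ring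
      exact_mod_cast h2
    have h2 : y = (-(n + 1 : ℤ) : ℤ) + (-(m : ℤ) : ℤ) * P.b ^ 2 := by
      have h3 : P.b * (P.o * y + P.o) = P.b * (-((m : ℝ) * P.b + n * P.o)) := by rw [h1]
      push_cast
      linear_combination h3 - (y + 1 + n) * hbo
    rcases hy with hy | hy
    · rw [hy] at h1
      have h4 : (0 : ℝ) ≤ (m : ℝ) * P.b + n * P.o := by positivity
      linarith
    · exact hy _ _ h2
  · rintro ⟨m, n, h⟩
    have hQ : P.Q = P.b + P.o := rfl
    have h1 : P.b - P.o * y = -((m : ℝ) * P.b + n * P.o) := by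
      have h2 : ((P.b - P.o * y : ℝ) : ℂ) = ((-((m : ℝ) * P.b + n * P.o) : ℝ) : ℂ) := by
        have h3 : ((P.Q : ℝ) : ℂ) = P.b + P.o := by rw [hQ]; push_cast; ring
        rw [h3] at h
        push_cast at h ⊢
        linear_combination h
      exact_mod_cast h2
    have h2 : y = ((n : ℤ) : ℤ) + ((m + 1 : ℤ) : ℤ) * P.b ^ 2 := by
      have h3 : P.b * (P.b - P.o * y) = P.b * (-((m : ℝ) * P.b + n * P.o)) := by rw [h1]
      push_cast
      linear_combination (-1 : ℝ) * h3 + (n - y) * hbo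
    rcases hy with hy | hy
    · rw [hy] at h1
      have h4 : (0 : ℝ) ≤ (m : ℝ) * P.b + n * P.o := by positivity
      linarith
    · exact hy _ _ h2

theorem adm_not_pole_o {P : Par} {y : ℝ} (hy : Adm (P.o ^ 2) y) :
    ¬ Pole P ((P.b * y + P.b : ℝ) : ℂ) ∧ ¬ Pole P (P.Q - ((P.b * y + P.b : ℝ) : ℂ)) := by
  have hb := P.hb
  have ho := P.ho
  have hbo := P.hbo
  constructor
  · rintro ⟨m, n, h⟩
    have h1 : P.b * y + P.b = -((m : ℝ) * P.b + n * P.o) := by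
      have h2 : ((P.b * y + P.b : ℝ) : ℂ) = ((-((m : ℝ) * P.b + n * P.o) : ℝ) : ℂ) := by
        rw [h]; push_cast; ring
      exact_mod_cast h2
    have h2 : y = (-(m + 1 : ℤ) : ℤ) + (-(n : ℤ) : ℤ) * P.o ^ 2 := by
      have h3 : P.o * (P.b * y + P.b) = P.o * (-((m : ℝ) * P.b + n * P.o)) := by rw [h1]
      push_cast
      linear_combination h3 - (y + 1 + m) * hbo
    rcases hy with hy | hy
    · rw [hy] at h1
      have h4 : (0 : ℝ) ≤ (m : ℝ) * P.b + n * P.o := by positivity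
      linarith
    · exact hy _ _ h2
  · rintro ⟨m, n, h⟩
    have hQ : P.Q = P.b + P.o := rfl
    have h1 : P.o - P.b * y = -((m : ℝ) * P.b + n * P.o) := by
      have h2 : ((P.o - P.b * y : ℝ) : ℂ) = ((-((m : ℝ) * P.b + n * P.o) : ℝ) : ℂ) := by
        have h3 : ((P.Q : ℝ) : ℂ) = P.b + P.o := by rw [hQ]; push_cast; ring
        rw [h3] at h
        push_cast at h ⊢
        linear_combination h
      exact_mod_cast h2
    have h2 : y = ((m : ℤ) : ℤ) + ((n + 1 : ℤ) : ℤ) * P.o ^ 2 := by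
      have h3 : P.o * (P.o - P.b * y) = P.o * (-((m : ℝ) * P.b + n * P.o)) := by rw [h1]
      push_cast
      linear_combination (-1 : ℝ) * h3 + (m - y) * hbo
    rcases hy with hy | hy
    · rw [hy] at h1
      have h4 : (0 : ℝ) ≤ (m : ℝ) * P.b + n * P.o := by positivity
      linarith
    · exact hy _ _ h2

/-- The inversion `β ↦ -1 / β`, `β > 0`. -/
theorem lim_S {β : ℝ} (h0 : 0 < β) (hβ : BA β) {y : ℝ} (hy : Adm β y) :
    ∃ l : ℂ, l ≠ 0 ∧ Tendsto (fun z : ℂ => phi (-(1 / β)) (z / (β : ℂ)) / phi β z)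
      (𝓝[UH] (y : ℂ)) (𝓝 l) := by
  have hi := hβ.inv
  rcases lt_trichotomy β 1 with h1 | h1 | h1
  · -- use the parameters with `o ^ 2 = β`
    obtain ⟨P, hPbo, hPb⟩ := exists_par (t := 1 / β) (by rw [lt_div_iff₀ h0]; linarith)
    have hPo : P.o ^ 2 = β := by
      have h2 : P.b ^ 2 * P.o ^ 2 = 1 := by rw [← mul_pow, P.hbo, one_pow]
      rw [hPb] at h2
      field_simp at h2
      exact h2
    have hP : Bad P := ⟨hPbo, by rw [hPb]; exact hi, by rw [hPo]; exact hβ⟩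
    have hy' : Adm (P.o ^ 2) y := by rw [hPo]; exact hy
    obtain ⟨q1, q2⟩ := adm_not_pole_o hy'
    obtain ⟨l, hl, ht⟩ := lim_exp_Lg hP q1 q2
    refine ⟨l, hl, ?_⟩
    have h3 := ht.comp (tendsto_affine P.hb P.b y)
    refine h3.congr (fun z => ?_)
    simp only [Function.comp]
    rw [← quot_eq_o hP z, hPo]
  · exfalso
    have := hβ.irrational
    rw [h1] at this
    exact this ⟨1, by simp⟩
  · obtain ⟨P, hPbo, hPb⟩ := exists_par h1
    have hPo : P.o ^ 2 = 1 / β := by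
      have h2 : P.b ^ 2 * P.o ^ 2 = 1 := by rw [← mul_pow, P.hbo, one_pow]
      rw [hPb] at h2
      field_simp
      linarith
    have hP : Bad P := ⟨hPbo, by rw [hPb]; exact hβ, by rw [hPo]; exact hi⟩
    have hy' : Adm (P.b ^ 2) y := by rw [hPb]; exact hy
    obtain ⟨q1, q2⟩ := adm_not_pole_b hy'
    obtain ⟨l, hl, ht⟩ := lim_exp_Lg hP q1 q2
    refine ⟨l, hl, ?_⟩
    have h3 := ht.comp (tendsto_affine P.ho P.o y)
    refine h3.congr (fun z => ?_)
    simp only [Function.comp]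
    rw [← quot_eq_b hP z, hPb]

end Zau
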