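import Mathlib

/-!
# MP_1c78a5 (Zauner): places of `ℂ` over a given prime (Chevalley)

`Zau.exists_valuationSubring`: for an injective ring homomorphism `j : R →+* K` into a field and a
prime ideal `P` of `R` there is a valuation ring of `K` with `j x` integral for all `x` and
`v (j x) < 1` exactly for `x ∈ P`. `Zau.exists_place`: the case of the ring of integers of a number
field `L` embedded in `ℂ`.
-/

namespace Zau

open NumberField

theorem exists_valuationSubring {R K : Type*} [CommRing R] [Field K] (j : R →+* K)
    (hj : Function.Injective j) (P : Ideal R) [P.IsPrime] :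
    ∃ B : ValuationSubring K, (∀ x : R, B.valuation (j x) ≤ 1) ∧
      ∀ x : R, B.valuation (j x) < 1 ↔ x ∈ P := by
  have hunit : ∀ y : P.primeCompl, IsUnit (j y) := fun y => by
    rw [isUnit_iff_ne_zero]
    intro h
    have h0 : (y : R) = 0 := hj (by rw [h, map_zero])
    exact y.2 (by rw [h0]; exact P.zero_mem)
  set f : Localization.AtPrime P →+* K :=
    IsLocalization.lift (M := P.primeCompl) (S := Localization.AtPrime P) hunit with hf
  obtain ⟨B, hB, hloc⟩ := IsLocalRing.exists_factor_valuationRing f
  have hfx : ∀ x : R, f (algebraMap R (Localization.AtPrime P) x) = j x := fun x =>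
    IsLocalization.lift_eq hunit x
  have hmem : ∀ x : R, j x ∈ B := fun x => by
    rw [← hfx x]
    exact hB _
  have hiff : ∀ x : R, IsUnit (⟨j x, hmem x⟩ : B) ↔ x ∉ P := by
    intro x
    have h1 : (⟨j x, hmem x⟩ : B) =
        f.codRestrict B.toSubring hB (algebraMap R (Localization.AtPrime P) x) :=
      Subtype.ext (hfx x).symm
    constructor
    · intro hu hx
      rw [h1] at hu
      have h2 : IsUnit (algebraMap R (Localization.AtPrime P) x) := hloc.map_nonunit _ hu
      rw [IsLocalization.AtPrime.isUnit_to_map_iff (Localization.AtPrime P) P x] at h2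
      exact h2 hx
    · intro hx
      have h2 : IsUnit (algebraMap R (Localization.AtPrime P) x) :=
        (IsLocalization.AtPrime.isUnit_to_map_iff (Localization.AtPrime P) P x).2 hx
      rw [h1]
      exact h2.map (f.codRestrict B.toSubring hB)
  refine ⟨B, fun x => (B.valuation_le_one_iff _).2 (hmem x), fun x => ?_⟩
  rw [← B.valuation_lt_one_iff ⟨j x, hmem x⟩, IsLocalRing.mem_maximalIdeal, mem_nonunits_iff,
    hiff x, not_not]

/-- A place of `ℂ` over a prime ideal of the ring of integers of a number field in `ℂ`. -/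
theorem exists_place {L : Type*} [Field L] [NumberField L] (j : L →+* ℂ)
    (P : Ideal (𝓞 L)) [P.IsPrime] :
    ∃ (Γ₀ : Type) (_ : LinearOrderedCommGroupWithZero Γ₀) (v : Valuation ℂ Γ₀),
      (∀ x : 𝓞 L, v (j x) ≤ 1) ∧ ∀ x : 𝓞 L, v (j x) < 1 ↔ x ∈ P := by
  obtain ⟨B, h1, h2⟩ := exists_valuationSubring (j.comp (algebraMap (𝓞 L) L))
    (j.injective.comp (FaithfulSMul.algebraMap_injective (𝓞 L) L)) P
  exact ⟨B.ValueGroup, inferInstance, B.valuation, h1, h2⟩

end Zau
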