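import Mathlib

/-!
MP_1c78a5_mp (Zauner).  File Radon: the chain of cyclic subgroups.

`T` is an abelian group (later `(ℚ/ℤ)²`), `p` a prime, `T[p]` has the basis `e₁`, `e₂`, `T` is
`p`-divisible.  For `F : T → A` and `y : T` of order `p ^ i` put `fcyc F p i y x = ∑_{k < p ^ i} F (x + k y)`.
If these sums are invariant under `x ↦ x + t`, `p t = 0`, for all `y` of order `p ^ a` and all `x` with
`ω x - x ∈ ℤ y`, then the same is true for all `i ≤ a`; `A` is a group without `p`-torsion.
-/

set_option autoImplicit false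

namespace Zau

open Finset

variable {T A : Type*} [AddCommGroup T] [AddCommGroup A]

/-- The sum of `F` over `x + ⟨y⟩`, if `y` has order `n`. -/
def fcyc (F : T → A) (n : ℕ) (y x : T) : A := ∑ k ∈ range n, F (x + k • y)

/-- A basis of the `p`-torsion. -/
structure PBas (T : Type*) [AddCommGroup T] (p : ℕ) where
  e1 : T
  e2 : T
  he1 : p • e1 = 0
  he2 : p • e2 = 0
  span : ∀ t : T, p • t = 0 → ∃ k < p, ∃ m < p, t = k • e1 + m • e2
  inj : ∀ k < p, ∀ m < p, k • e1 + m • e2 = 0 → k = 0 ∧ m = 0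
  div : ∀ x : T, ∃ y : T, p • y = x

/-- The sum of `F` over `x + T[p]`. -/
def ftor {p : ℕ} (B : PBas T p) (F : T → A) (x : T) : A :=
  ∑ k ∈ range p, ∑ m ∈ range p, F (x + k • B.e1 + m • B.e2)

theorem sum_range_mod {p : ℕ} (hp : 0 < p) {M : Type*} [AddCommMonoid M] (g : ℕ → M)
    (hg : ∀ k, g (k + p) = g k) (a : ℕ) : ∑ k ∈ range p, g (k + a) = ∑ k ∈ range p, g k := by
  induction a with
  | zero => simp
  | succ a ih =>
    rw [← ih]
    obtain ⟨q, rfl⟩ : ∃ q, p = q + 1 := ⟨p - 1, by omega⟩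
    rw [Finset.sum_range_succ, Finset.sum_range_succ']
    have h1 : q + (a + 1) = a + (q + 1) := by ring
    rw [h1, hg a, Nat.zero_add]
    congr 1
    exact Finset.sum_congr rfl fun k _ => by congr 1; ring

variable {p : ℕ}

theorem PBas.smul_cancel (B : PBas T p) (y : T) (a b : ℕ) :
    p • (y + a • B.e1 + b • B.e2) = p • y := by
  rw [_root_.smul_add, _root_.smul_add, smul_comm p a, smul_comm p b, B.he1, B.he2, smul_zero,
    smul_zero, add_zero, add_zero]

theorem PBas.smul_add (B : PBas T p) (_x : T) (k : ℕ) :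
    (k + p) • B.e1 = k • B.e1 ∧ (k + p) • B.e2 = k • B.e2 := by
  constructor
  · rw [add_smul, B.he1, add_zero]
  · rw [add_smul, B.he2, add_zero]

theorem ftor_add_e1 (hp : 0 < p) (B : PBas T p) (F : T → A) (x : T) (a : ℕ) :
    ftor B F (x + a • B.e1) = ftor B F x := by
  unfold ftor
  have h := sum_range_mod hp (fun k => ∑ m ∈ range p, F (x + k • B.e1 + m • B.e2))
    (fun k => by simp only [(B.smul_add x k).1]) a
  rw [← h]
  refine sum_congr rfl fun k _ => sum_congr rfl fun m _ => ?_
  congr 2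
  rw [add_smul]
  abel

theorem ftor_add_e2 (hp : 0 < p) (B : PBas T p) (F : T → A) (x : T) (a : ℕ) :
    ftor B F (x + a • B.e2) = ftor B F x := by
  unfold ftor
  refine sum_congr rfl fun k _ => ?_
  have h := sum_range_mod hp (fun m => F (x + k • B.e1 + m • B.e2))
    (fun k => by simp only [(B.smul_add x k).2]) a
  rw [← h]
  refine sum_congr rfl fun m _ => ?_
  congr 1
  rw [add_smul]
  abel

theorem ftor_add (hp : 0 < p) (B : PBas T p) (F : T → A) (x t : T) (ht : p • t = 0) :
    ftor B F (x + t) = ftor B F x := by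
  obtain ⟨k, -, m, -, rfl⟩ := B.span t ht
  rw [← add_assoc, ftor_add_e2 hp, ftor_add_e1 hp]

/-- For `k` prime to `p` the sum over `y + T[p]` of `F (x + k y)` is `ftor F (x + k y₀)`. -/
theorem sum_coprime (hp : p.Prime) (B : PBas T p) (F : T → A) (x y0 : T) (k : ℕ)
    (hk : ¬ p ∣ k) :
    ∑ a ∈ range p, ∑ b ∈ range p, F (x + k • (y0 + a • B.e1 + b • B.e2)) =
      ftor B F (x + k • y0) := by
  have hcop : Nat.Coprime k p := (Nat.Coprime.symm ((Nat.Prime.coprime_iff_not_dvd hp).2 hk))
  -- multiplication by `k` permutes `range p`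
  have hperm : ∀ g : ℕ → A, (∀ j, g (j % p) = g j) →
      ∑ a ∈ range p, g (k * a) = ∑ a ∈ range p, g a := by
    intro g hg
    refine Finset.sum_nbij (fun a => (k * a) % p) ?_ ?_ ?_ ?_
    · intro a _
      exact mem_range.2 (Nat.mod_lt _ hp.pos)
    · intro a ha b hb hab
      have ha' := mem_range.1 ha
      have hb' := mem_range.1 hb
      have h1 : k * a ≡ k * b [MOD p] := hab
      have h2 : a ≡ b [MOD p] := Nat.ModEq.cancel_left_of_coprime hcop.symm h1
      exact Nat.ModEq.eq_of_lt_of_lt h2 ha' hb'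
    · have hinj : Set.InjOn (fun a => (k * a) % p) (range p : Set ℕ) := by
        intro a ha b hb hab
        have ha' := mem_range.1 ha
        have hb' := mem_range.1 hb
        have h1 : k * a ≡ k * b [MOD p] := hab
        have h2 : a ≡ b [MOD p] := Nat.ModEq.cancel_left_of_coprime hcop.symm h1
        exact Nat.ModEq.eq_of_lt_of_lt h2 ha' hb'
      exact Finset.surjOn_of_injOn_of_card_le _
        (fun a _ => mem_coe.2 (mem_range.2 (Nat.mod_lt _ hp.pos))) hinj le_rfl
    · intro a _
      exact (hg (k * a)).symm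
  have hmod1 : ∀ j : ℕ, (j % p) • B.e1 = j • B.e1 := by
    intro j
    conv_rhs => rw [← Nat.mod_add_div j p, add_smul, mul_comm, mul_smul, B.he1, smul_zero, add_zero]
  have hmod2 : ∀ j : ℕ, (j % p) • B.e2 = j • B.e2 := by
    intro j
    conv_rhs => rw [← Nat.mod_add_div j p, add_smul, mul_comm, mul_smul, B.he2, smul_zero, add_zero]
  unfold ftor
  have h1 := hperm (fun a => ∑ b ∈ range p, F (x + k • y0 + a • B.e1 + b • B.e2))
    (fun j => by simp only [hmod1])
  rw [← h1]
  refine sum_congr rfl fun a _ => ?_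
  have h2 := hperm (fun b => F (x + k • y0 + (k * a) • B.e1 + b • B.e2))
    (fun j => by simp only [hmod2])
  rw [← h2]
  refine sum_congr rfl fun b _ => ?_
  congr 1
  rw [smul_add, smul_add, smul_smul, smul_smul]
  abel

/-- The multiples of `p` below `p * n` and the others. -/
theorem sum_range_mul_split (p n : ℕ) (hp : 0 < p) {M : Type*} [AddCommMonoid M] (g : ℕ → M) :
    ∑ k ∈ range (p * n), g k =
      ∑ k ∈ range n, g (p * k) + ∑ k ∈ (range (p * n)).filter (fun k => ¬ p ∣ k), g k := by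
  rw [← Finset.sum_filter_add_sum_filter_not (range (p * n)) (fun k => p ∣ k)]
  congr 1
  symm
  refine Finset.sum_nbij (fun k => p * k) ?_ ?_ ?_ ?_
  · intro k hk
    refine mem_filter.2 ⟨mem_range.2 ?_, Dvd.intro k rfl⟩
    exact Nat.mul_lt_mul_of_pos_left (mem_range.1 hk) hp
  · intro a _ b _ hab
    exact Nat.eq_of_mul_eq_mul_left hp hab
  · intro k hk
    obtain ⟨h1, c, rfl⟩ := mem_filter.1 hk
    exact ⟨c, mem_coe.2 (mem_range.2 (Nat.lt_of_mul_lt_mul_left (mem_range.1 h1))), rfl⟩
  · intro k _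
    rfl

/-- The main identity: the sum over all `y` with `p y = c` of the cyclic sums. -/
theorem chain_identity (hp : p.Prime) (B : PBas T p) (F : T → A) (x y0 : T) (n : ℕ) :
    ∑ a ∈ range p, ∑ b ∈ range p, fcyc F (p * n) (y0 + a • B.e1 + b • B.e2) x =
      (p ^ 2) • fcyc F n (p • y0) x +
        ∑ k ∈ (range (p * n)).filter (fun k => ¬ p ∣ k), ftor B F (x + k • y0) := by
  unfold fcyc
  have h1 : ∀ a b : ℕ, ∑ k ∈ range (p * n), F (x + k • (y0 + a • B.e1 + b • B.e2)) =
      ∑ k ∈ range n, F (x + k • (p • y0)) +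
        ∑ k ∈ (range (p * n)).filter (fun k => ¬ p ∣ k),
          F (x + k • (y0 + a • B.e1 + b • B.e2)) := by
    intro a b
    rw [sum_range_mul_split p n hp.pos]
    congr 1
    refine sum_congr rfl fun k _ => ?_
    congr 2
    rw [mul_comm p k, mul_smul, B.smul_cancel]
  simp_rw [h1, sum_add_distrib]
  congr 1
  · rw [sum_const, sum_const, card_range, smul_smul, pow_two]
  · have h2 : ∀ a : ℕ, ∑ b ∈ range p, ∑ k ∈ (range (p * n)).filter (fun k => ¬ p ∣ k),
        F (x + k • (y0 + a • B.e1 + b • B.e2)) =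
        ∑ k ∈ (range (p * n)).filter (fun k => ¬ p ∣ k),
          ∑ b ∈ range p, F (x + k • (y0 + a • B.e1 + b • B.e2)) := fun a => sum_comm
    simp_rw [h2]
    rw [sum_comm]
    refine sum_congr rfl fun k hk => ?_
    exact sum_coprime hp B F x y0 k (mem_filter.1 hk).2

/-- The case of the trivial group: the sum over the `p + 1` lines. -/
theorem line_identity (hp : p.Prime) (B : PBas T p) (F : T → A) (x : T) :
    ∑ b ∈ range p, fcyc F p (B.e1 + b • B.e2) x + fcyc F p B.e2 x =
      p • F x + ftor B F x := by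
  have hpos := hp.pos
  obtain ⟨q, hq⟩ : ∃ q, p = q + 1 := ⟨p - 1, by omega⟩
  have key : ∀ k ∈ range p, k ≠ 0 → ∑ b ∈ range p, F (x + k • (B.e1 + b • B.e2)) =
      ∑ b ∈ range p, F (x + k • B.e1 + b • B.e2) := by
    intro k hk hk0
    have hk' : ¬ p ∣ k := fun h => hk0 (Nat.eq_zero_of_dvd_of_lt h (mem_range.1 hk))
    have hcop : Nat.Coprime k p := (Nat.Coprime.symm ((Nat.Prime.coprime_iff_not_dvd hp).2 hk'))
    have hmod2 : ∀ j : ℕ, (j % p) • B.e2 = j • B.e2 := by
      intro j
      conv_rhs => rw [← Nat.mod_add_div j p, add_smul, mul_comm, mul_smul, B.he2, smul_zero,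
        add_zero]
    refine Finset.sum_nbij (fun b => (k * b) % p) ?_ ?_ ?_ ?_
    · intro a _
      exact mem_range.2 (Nat.mod_lt _ hp.pos)
    · intro a ha b hb hab
      have ha' := mem_range.1 ha
      have hb' := mem_range.1 hb
      have h1 : k * a ≡ k * b [MOD p] := hab
      have h2 : a ≡ b [MOD p] := Nat.ModEq.cancel_left_of_coprime hcop.symm h1
      exact Nat.ModEq.eq_of_lt_of_lt h2 ha' hb'
    · have hinj : Set.InjOn (fun a => (k * a) % p) (range p : Set ℕ) := by
        intro a ha b hb hab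
        have ha' := mem_range.1 ha
        have hb' := mem_range.1 hb
        have h1 : k * a ≡ k * b [MOD p] := hab
        have h2 : a ≡ b [MOD p] := Nat.ModEq.cancel_left_of_coprime hcop.symm h1
        exact Nat.ModEq.eq_of_lt_of_lt h2 ha' hb'
      exact Finset.surjOn_of_injOn_of_card_le _
        (fun a _ => mem_coe.2 (mem_range.2 (Nat.mod_lt _ hp.pos))) hinj le_rfl
    · intro b _
      show F _ = F _
      rw [hmod2, smul_add, smul_smul, add_assoc]
  unfold fcyc ftor
  rw [sum_comm]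
  have h0 : (0 : ℕ) ∈ range p := mem_range.2 hpos
  rw [← Finset.add_sum_erase _ _ h0, ← Finset.add_sum_erase (range p)
    (fun k => ∑ m ∈ range p, F (x + k • B.e1 + m • B.e2)) h0]
  rw [sum_congr rfl fun k hk => key k (mem_of_mem_erase hk) (ne_of_mem_erase hk)]
  simp only [zero_smul, add_zero, sum_const, card_range]
  abel

/-- `A` has no `p`-torsion. -/
def NoTor (p : ℕ) (A : Type*) [AddCommGroup A] : Prop := ∀ a : A, p • a = 0 → a = 0

theorem NoTor.pow {p : ℕ} (h : NoTor p A) (i : ℕ) {a : A} (ha : (p ^ i) • a = 0) : a = 0 := by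
  induction i with
  | zero => simpa using ha
  | succ i ih =>
    rw [pow_succ, mul_smul] at ha
    rw [smul_comm] at ha
    exact ih (h _ ha)

theorem NoTor.pow_inj {p : ℕ} (h : NoTor p A) (i : ℕ) {a b : A} (hab : (p ^ i) • a = (p ^ i) • b) :
    a = b := by
  have : (p ^ i) • (a - b) = 0 := by rw [smul_sub, hab, sub_self]
  exact sub_eq_zero.1 (h.pow i this)

/-- One step of the chain. -/
theorem chain_step (hp : p.Prime) (B : PBas T p) (hA : NoTor p A) (F : T → A) (om : T → T)
    (i : ℕ)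
    (h : ∀ y, addOrderOf y = p ^ (i + 1) → ∀ x, (∃ k : ℕ, om x - x = k • y) →
      ∀ t, p • t = 0 → fcyc F (p ^ (i + 1)) y (x + t) = fcyc F (p ^ (i + 1)) y x) :
    ∀ c, addOrderOf c = p ^ i → ∀ x, (∃ k : ℕ, om x - x = k • c) →
      ∀ t, p • t = 0 → fcyc F (p ^ i) c (x + t) = fcyc F (p ^ i) c x := by
  intro c hc x hx t ht
  have hp0 := hp.pos
  rcases Nat.eq_zero_or_pos i with rfl | hi
  · -- the trivial group
    rw [pow_zero, AddMonoid.addOrderOf_eq_one_iff] at hc
    subst hc
    simp only [smul_zero, exists_const] at hx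
    have hom : om x - x = 0 := hx
    have hord : ∀ k < p, ∀ m < p, (k ≠ 0 ∨ m ≠ 0) →
        addOrderOf (k • B.e1 + m • B.e2) = p ^ (0 + 1) := by
      intro k hk m hm hkm
      rw [zero_add, pow_one]
      have := Fact.mk hp
      refine addOrderOf_eq_prime ?_ ?_
      · rw [_root_.smul_add, smul_comm p k, smul_comm p m, B.he1, B.he2, smul_zero, smul_zero,
          add_zero]
      · intro h0
        obtain ⟨h1, h2⟩ := B.inj k hk m hm h0
        rcases hkm with h3 | h3
        · exact h3 h1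
        · exact h3 h2
    have hx' : ∀ y : T, ∃ k : ℕ, om x - x = k • y := fun y => ⟨0, by rw [hom, zero_smul]⟩
    have h1 : ∀ b ∈ range p, fcyc F p (B.e1 + b • B.e2) (x + t) = fcyc F p (B.e1 + b • B.e2) x := by
      intro b hb
      have h2 := hord 1 hp.one_lt b (mem_range.1 hb) (Or.inl one_ne_zero)
      rw [one_smul] at h2
      have h3 := h _ h2 x (hx' _) t ht
      rwa [zero_add, pow_one] at h3
    have h2 : fcyc F p B.e2 (x + t) = fcyc F p B.e2 x := by
      have h2 := hord 0 hp.pos 1 hp.one_lt (Or.inr one_ne_zero)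
      rw [one_smul, zero_smul, zero_add] at h2
      have h3 := h _ h2 x (hx' _) t ht
      rwa [zero_add, pow_one] at h3
    have h3 := line_identity hp B F x
    have h4 := line_identity hp B F (x + t)
    rw [sum_congr rfl h1, h2, h3, ftor_add hp0 B F x t ht] at h4
    have h5 : p • F (x + t) = p • F x := (add_right_cancel h4).symm
    have h6 : F (x + t) = F x := hA.pow_inj 1 (by rwa [pow_one])
    simp only [fcyc, pow_zero, range_one, sum_singleton, zero_smul, add_zero, h6]
  · obtain ⟨y0, rfl⟩ := B.div c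
    have hord : ∀ a b : ℕ, addOrderOf (y0 + a • B.e1 + b • B.e2) = p ^ (i + 1) := by
      intro a b
      have h1 : addOrderOf (p • (y0 + a • B.e1 + b • B.e2)) = p ^ i := by rw [B.smul_cancel, hc]
      have h2 : (p ^ (i + 1)) • (y0 + a • B.e1 + b • B.e2) = 0 := by
        rw [pow_succ, mul_smul, ← h1, addOrderOf_nsmul_eq_zero]
      obtain ⟨j, hj, hj'⟩ := (Nat.dvd_prime_pow hp).1 (addOrderOf_dvd_iff_nsmul_eq_zero.2 h2)
      rw [hj']
      rcases Nat.lt_or_ge j (i + 1) with h3 | h3
      · exfalso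
        have h4 : (p ^ (i - 1)) • (p • (y0 + a • B.e1 + b • B.e2)) = 0 := by
          rw [← mul_smul, ← pow_succ]
          have h5 : i - 1 + 1 = i := by omega
          rw [h5]
          exact addOrderOf_dvd_iff_nsmul_eq_zero.1 (hj' ▸ pow_dvd_pow p (by omega))
        have h5 := addOrderOf_dvd_iff_nsmul_eq_zero.2 h4
        rw [h1] at h5
        have h6 := (Nat.pow_dvd_pow_iff_le_right hp.one_lt).1 h5
        omega
      · congr 1
        omega
    have hxy : ∀ a b : ℕ, ∃ k : ℕ, om x - x = k • (y0 + a • B.e1 + b • B.e2) := by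
      intro a b
      obtain ⟨k, hk⟩ := hx
      exact ⟨k * p, by rw [hk, mul_smul, B.smul_cancel]⟩
    have h1 : ∀ a b : ℕ, fcyc F (p * p ^ i) (y0 + a • B.e1 + b • B.e2) (x + t) =
        fcyc F (p * p ^ i) (y0 + a • B.e1 + b • B.e2) x := by
      intro a b
      have h2 := h _ (hord a b) x (hxy a b) t ht
      rwa [pow_succ, mul_comm] at h2
    have h3 := chain_identity hp B F x y0 (p ^ i)
    have h4 := chain_identity hp B F (x + t) y0 (p ^ i)
    simp_rw [h1] at h4
    rw [h3] at h4
    have h5 : ∑ k ∈ (range (p * p ^ i)).filter (fun k => ¬ p ∣ k), ftor B F (x + t + k • y0) =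
        ∑ k ∈ (range (p * p ^ i)).filter (fun k => ¬ p ∣ k), ftor B F (x + k • y0) := by
      refine sum_congr rfl fun k _ => ?_
      rw [add_right_comm, ftor_add hp0 B F _ t ht]
    rw [h5] at h4
    exact (hA.pow_inj 2 (add_right_cancel h4)).symm

/-- The chain lemma. -/
theorem chain (hp : p.Prime) (B : PBas T p) (hA : NoTor p A) (F : T → A) (om : T → T) (a : ℕ)
    (h : ∀ y, addOrderOf y = p ^ a → ∀ x, (∃ k : ℕ, om x - x = k • y) →
      ∀ t, p • t = 0 → fcyc F (p ^ a) y (x + t) = fcyc F (p ^ a) y x) :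
    ∀ i ≤ a, ∀ c, addOrderOf c = p ^ i → ∀ x, (∃ k : ℕ, om x - x = k • c) →
      ∀ t, p • t = 0 → fcyc F (p ^ i) c (x + t) = fcyc F (p ^ i) c x := by
  intro i hi
  induction a with
  | zero =>
    obtain rfl : i = 0 := by omega
    exact h
  | succ a ih =>
    rcases Nat.lt_or_ge i (a + 1) with h1 | h1
    · exact ih (chain_step hp B hA F om a h) (by omega)
    · obtain rfl : i = a + 1 := by omega
      exact h

/-- The chain lemma, the last term. -/
theorem chain_zero (hp : p.Prime) (B : PBas T p) (hA : NoTor p A) (F : T → A) (om : T → T) (a : ℕ)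
    (h : ∀ y, addOrderOf y = p ^ a → ∀ x, (∃ k : ℕ, om x - x = k • y) →
      ∀ t, p • t = 0 → fcyc F (p ^ a) y (x + t) = fcyc F (p ^ a) y x)
    (x : T) (hx : om x = x) (t : T) (ht : p • t = 0) : F (x + t) = F x := by
  have h1 := chain hp B hA F om a h 0 (Nat.zero_le _) 0 (by simp) x
    ⟨0, by rw [hx, sub_self, smul_zero]⟩ t ht
  simpa [fcyc] using h1

end Zau
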