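import Pool.Agent.Lib_MP_1c78a5_ghost.GBd
import Pool.Agent.Lib_MP_1c78a5_ghost.GVal

/-!
# Piece S: the double sine function with periods `1`, `om`, normalised to tend to one

`om` is a real quadratic unit of norm one: `om > 1`, `om + 1 / om` an integer.  The function
`Sf om` is the double sine function `Ghost.G` (periods `√om`, `1 / √om`) times a Gaussian,
normalised by `Sf om z → 1` as `im z → + ∞`:

* `Sf om (z + 1) = Sf om z * (1 - e (z / om))`, `Sf om (z + om) = Sf om z * (1 - e z)`;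
* poles at most at `- i - j om`, zeros at most at `(1 + i) + (1 + j) om`;
* `‖Sf om z - 1‖ ≤ C exp (- 2 π im z / om)` for `im z ≥ t0`;
* `Sf om z * Sf om (1 + om - z) = cS om * e ((z ^ 2 - (1 + om) z) / (2 om))`, `‖cS om‖ = 1`;
* `Sf om z = (Sf om (1 + om - z)) * (G P x) ^ 2`, `x = z / √om`.
-/

open Complex MeasureTheory Set Filter Topology
open scoped Real ComplexConjugate

namespace Zau

open Ghost

/-- A real quadratic unit of norm one: `om > 1`, `om + 1 / om` an integer. -/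
structure IsU (om : ℝ) : Prop where
  one_lt : 1 < om
  tr : ∃ n : ℤ, om + om⁻¹ = n

theorem IsU.pos {om : ℝ} (h : IsU om) : 0 < om := lt_trans one_pos h.one_lt

theorem IsU.ne {om : ℝ} (h : IsU om) : om ≠ 0 := h.pos.ne'

theorem IsU.neC {om : ℝ} (h : IsU om) : (om : ℂ) ≠ 0 := by exact_mod_cast h.ne

/-- The parameters of `Ghost` belonging to `om`. -/
noncomputable def Pom (om : ℝ) : Par :=
  if h : 0 < om then
    ⟨Real.sqrt om, (Real.sqrt om)⁻¹, Real.sqrt_pos.2 h, inv_pos.2 (Real.sqrt_pos.2 h),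
      mul_inv_cancel₀ (Real.sqrt_pos.2 h).ne'⟩
  else ⟨1, 1, one_pos, one_pos, one_mul 1⟩

theorem Pom_b {om : ℝ} (h : 0 < om) : (Pom om).b = Real.sqrt om := by
  unfold Pom
  rw [dif_pos h]

theorem Pom_o {om : ℝ} (h : 0 < om) : (Pom om).o = (Real.sqrt om)⁻¹ := by
  unfold Pom
  rw [dif_pos h]

theorem Pom_b2 {om : ℝ} (h : 0 < om) : (Pom om).b ^ 2 = om := by
  rw [Pom_b h, Real.sq_sqrt h.le]

theorem Pom_o2 {om : ℝ} (h : 0 < om) : (Pom om).o ^ 2 = om⁻¹ := by
  rw [Pom_o h, inv_pow, Real.sq_sqrt h.le]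

/-- The unit has an integral trace at least three. -/
theorem IsU.trace {om : ℝ} (h : IsU om) : ∃ n : ℕ, 3 ≤ n ∧ om + om⁻¹ = n := by
  obtain ⟨n, hn⟩ := h.tr
  have h1 : om * om⁻¹ = 1 := mul_inv_cancel₀ h.ne
  have h2 : 2 < om + om⁻¹ := by
    have h3 : 0 < om⁻¹ := inv_pos.2 h.pos
    have h4 : om⁻¹ < 1 := inv_lt_one_of_one_lt₀ h.one_lt
    nlinarith [mul_pos (sub_pos.2 h.one_lt) (sub_pos.2 h4)]
  rw [hn] at h2
  have h3 : 2 < n := by exact_mod_cast h2
  refine ⟨n.toNat, by omega, ?_⟩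
  rw [hn]
  have h4 : ((n.toNat : ℤ) : ℝ) = n := by rw [Int.toNat_of_nonneg (by omega)]
  rw [← h4]
  norm_cast

theorem IsU.isUnit {om : ℝ} (h : IsU om) : ∃ d : ℕ, (Pom om).IsUnit d := by
  obtain ⟨n, hn, h1⟩ := h.trace
  refine ⟨n + 1, ⟨by omega, ?_, ?_⟩⟩
  · rw [Pom_b h.pos]
    exact Real.lt_sqrt_of_sq_lt (by simpa using h.one_lt)
  · rw [Pom_b2 h.pos, Pom_o2 h.pos, h1]
    push_cast
    ring

theorem IsU.o_lt_b {om : ℝ} (h : IsU om) : (Pom om).o < (Pom om).b := by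
  obtain ⟨d, hd⟩ := h.isUnit
  exact Ghost.o_lt_b hd

theorem IsU.irrational {om : ℝ} (h : IsU om) : Irrational om := by
  obtain ⟨d, hd⟩ := h.isUnit
  have := irr_b2 hd
  rwa [Pom_b2 h.pos] at this

/-- `x = z / √om`. -/
noncomputable def xo (om : ℝ) (z : ℂ) : ℂ := z * (Pom om).o

/-- The Gaussian exponent `(z ^ 2 - (1 + om) z) / (2 om)`. -/
noncomputable def qS (om : ℝ) (z : ℂ) : ℂ := (z ^ 2 - (1 + om) * z) / (2 * om)

/-- The double sine function with periods `1`, `om`, times a Gaussian. -/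
noncomputable def Sf (om : ℝ) (z : ℂ) : ℂ :=
  (GUP_q (Pom om) I)⁻¹ * (e (qS om z / 2) * G (Pom om) (xo om z))

/-- The constant in the reflection formula. -/
noncomputable def cS (om : ℝ) : ℂ := (GUP_q (Pom om) I)⁻¹ ^ 2

/-- The poles of `Sf`. -/
def PoleS (om : ℝ) (z : ℂ) : Prop := ∃ i j : ℕ, z = -((i : ℂ) + (j : ℂ) * om)

section

variable {om : ℝ}

theorem boC (om : ℝ) : ((Pom om).b : ℂ) * (Pom om).o = 1 := by
  rw [← Complex.ofReal_mul, (Pom om).hbo, Complex.ofReal_one]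

theorem b2C (h : 0 < om) : ((Pom om).b : ℂ) ^ 2 = om := by
  rw [← Complex.ofReal_pow, Pom_b2 h]

theorem o2C (h : 0 < om) : ((Pom om).o : ℂ) ^ 2 = (om : ℂ)⁻¹ := by
  rw [← Complex.ofReal_pow, Pom_o2 h, Complex.ofReal_inv]

theorem QC (om : ℝ) : ((Pom om).Q : ℂ) = (Pom om).b + (Pom om).o := by
  simp [Par.Q]

theorem omoC (h : 0 < om) : (om : ℂ) * (Pom om).o = (Pom om).b := by
  rw [← b2C h]
  linear_combination (Pom om).b * boC om

theorem omo (h : 0 < om) : om * (Pom om).o = (Pom om).b := by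
  have := omoC h
  exact_mod_cast this

theorem xo_qS (h : 0 < om) (z : ℂ) :
    (xo om z) ^ 2 - (Pom om).Q * xo om z = 2 * qS om z := by
  have hom : (om : ℂ) ≠ 0 := by exact_mod_cast h.ne'
  unfold xo qS
  rw [QC]
  have h1 := omoC h
  have h2 := boC om
  have h3 := o2C h
  have h4 : (2 : ℂ) * ((z ^ 2 - (1 + om) * z) / (2 * om)) = (z ^ 2 - (1 + om) * z) * (om : ℂ)⁻¹ := by
    field_simp
  rw [h4, ← h3]
  have h5 : (om : ℂ) * (Pom om).o ^ 2 = 1 := by
    rw [h3, mul_inv_cancel₀ hom]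
  linear_combination -z * h2 + z * h5

theorem xo_add_one (om : ℝ) (z : ℂ) : xo om (z + 1) = xo om z + (Pom om).o := by
  unfold xo
  ring

theorem xo_add_om (h : 0 < om) (z : ℂ) : xo om (z + om) = xo om z + (Pom om).b := by
  unfold xo
  rw [← omoC h]
  ring

theorem xo_re (z : ℂ) : (xo om z).re = z.re * (Pom om).o := by
  unfold xo
  rw [Complex.re_mul_ofReal]

theorem xo_im (z : ℂ) : (xo om z).im = z.im * (Pom om).o := by
  unfold xo
  rw [Complex.im_mul_ofReal]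

theorem pole_iff (h : 0 < om) (z : ℂ) : Pole (Pom om) (xo om z) ↔ PoleS om z := by
  have ho : ((Pom om).o : ℂ) ≠ 0 := by exact_mod_cast (Pom om).ho.ne'
  constructor
  · rintro ⟨m, n, hmn⟩
    refine ⟨n, m, ?_⟩
    have h1 : (z - -((n : ℂ) + (m : ℂ) * om)) * (Pom om).o = 0 := by
      unfold xo at hmn
      have := omoC h
      linear_combination hmn + (m : ℂ) * this
    rcases mul_eq_zero.1 h1 with h2 | h2
    · exact sub_eq_zero.1 h2
    · exact absurd h2 ho
  · rintro ⟨i, j, hij⟩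
    refine ⟨j, i, ?_⟩
    unfold xo
    rw [hij]
    have := omoC h
    linear_combination (-(j : ℂ)) * this

theorem Q_sub_xo (h : 0 < om) (z : ℂ) : ((Pom om).Q : ℂ) - xo om z = xo om (1 + om - z) := by
  unfold xo
  rw [QC, ← omoC h]
  ring

theorem not_poleS_of_re_pos (h : 0 < om) {z : ℂ} (hz : 0 < z.re) : ¬ PoleS om z := by
  rw [← pole_iff h]
  refine not_pole_of_re_pos _ ?_
  rw [xo_re]
  exact mul_pos hz (Pom om).ho

theorem not_poleS_of_im_ne {z : ℂ} (hz : z.im ≠ 0) : ¬ PoleS om z := by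
  rintro ⟨i, j, rfl⟩
  apply hz
  simp

/-- The normalising constant is not zero. -/
theorem GUP_I_ne (h : IsU om) : GUP_q (Pom om) I ≠ 0 := by
  have hI : 0 < (I : ℂ).im := by simp
  unfold GUP_q
  refine mul_ne_zero ?_ (mul_ne_zero (GUP_e_ne _) (Complex.exp_ne_zero _))
  apply G_ne_zero _ h.o_lt_b
  · exact not_pole_of_im_ne _ hI.ne'
  · apply not_pole_of_im_ne
    simp

theorem G_ne (h : IsU om) {z : ℂ} (h1 : ¬ PoleS om z) (h2 : ¬ PoleS om (1 + om - z)) :
    G (Pom om) (xo om z) ≠ 0 := by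
  apply G_ne_zero _ h.o_lt_b
  · rw [pole_iff h.pos]
    exact h1
  · rw [Q_sub_xo h.pos, pole_iff h.pos]
    exact h2

/-- (S3) no zeros. -/
theorem Sf_ne_zero (h : IsU om) {z : ℂ} (h1 : ¬ PoleS om z) (h2 : ¬ PoleS om (1 + om - z)) :
    Sf om z ≠ 0 := by
  unfold Sf
  exact mul_ne_zero (inv_ne_zero (GUP_I_ne h)) (mul_ne_zero (GUP_e_ne _) (G_ne h h1 h2))

theorem Sf_ne_zero_strip (h : IsU om) {z : ℂ} (h1 : 0 < z.re) (h2 : z.re < 1 + om) :
    Sf om z ≠ 0 := by
  apply Sf_ne_zero h (not_poleS_of_re_pos h.pos h1)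
  apply not_poleS_of_re_pos h.pos
  simpa using h2

theorem Sf_ne_zero_im (h : IsU om) {z : ℂ} (h1 : z.im ≠ 0) : Sf om z ≠ 0 := by
  apply Sf_ne_zero h (not_poleS_of_im_ne h1)
  apply not_poleS_of_im_ne
  simpa using h1

/-- (S3) differentiable outside of the poles. -/
theorem Sf_differentiableAt (h : IsU om) {z : ℂ} (h1 : ¬ PoleS om z) :
    DifferentiableAt ℂ (Sf om) z := by
  have h2 : DifferentiableAt ℂ (G (Pom om)) (xo om z) :=
    G_differentiableAt _ h.o_lt_b (by rw [pole_iff h.pos]; exact h1)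
  have h3 : DifferentiableAt ℂ (xo om) z := by
    unfold xo
    fun_prop
  have h4 : DifferentiableAt ℂ (fun w => G (Pom om) (xo om w)) z :=
    DifferentiableAt.comp (f := xo om) z h2 h3
  have h5 : DifferentiableAt ℂ (fun w => e (qS om w / 2)) z := by
    unfold e qS
    fun_prop
  unfold Sf
  exact (h5.mul h4).const_mul _

/-- (S1). -/
theorem Sf_add_one (h : IsU om) {z : ℂ} (h1 : ¬ PoleS om z) :
    Sf om (z + 1) = Sf om z * (1 - e (z / om)) := by
  have hz : z / om = (Pom om).o * xo om z := by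
    unfold xo
    have := o2C h.pos
    rw [div_eq_mul_inv, ← this]
    ring
  have hG := G_add_o (Pom om) h.o_lt_b (x := xo om z) (by rw [pole_iff h.pos]; exact h1)
  have hs := GUP_sin (Pom om).o (xo om z)
  have hq : qS om (z + 1) / 2 = qS om z / 2 + ((Pom om).o * xo om z / 2 + -1 / 4) := by
    rw [← hz]
    unfold qS
    have := h.neC
    field_simp
    ring
  unfold Sf
  rw [xo_add_one om, hG, hq, GUP_e_add, GUP_e_add, hz, ← hs]
  unfold so
  ring

/-- (S2). -/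
theorem Sf_add_om (h : IsU om) {z : ℂ} (h1 : ¬ PoleS om z) :
    Sf om (z + om) = Sf om z * (1 - e z) := by
  have hz : z = (Pom om).b * xo om z := by
    unfold xo
    have := boC om
    linear_combination (-z) * this
  have hG := G_add_b (Pom om) (x := xo om z) (by rw [pole_iff h.pos]; exact h1)
  have hs := GUP_sin (Pom om).b (xo om z)
  have hq : qS om (z + om) / 2 = qS om z / 2 + ((Pom om).b * xo om z / 2 + -1 / 4) := by
    rw [← hz]
    unfold qS
    have := h.neC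
    field_simp
    ring
  unfold Sf
  rw [xo_add_om h.pos, hG, hq, GUP_e_add, GUP_e_add]
  have hs' : 2 * Complex.sin (π * (Pom om).b * xo om z) *
      (e ((Pom om).b * xo om z / 2) * e (-1 / 4)) = 1 - e z := by
    rw [hs, ← hz]
  rw [← hs']
  unfold sb
  ring

theorem qS_reflect (om : ℝ) (z : ℂ) : qS om (1 + om - z) = qS om z := by
  unfold qS
  ring

/-- (S5). -/
theorem Sf_reflect (h : IsU om) {z : ℂ} (h1 : ¬ PoleS om z) (h2 : ¬ PoleS om (1 + om - z)) :
    Sf om z * Sf om (1 + om - z) = cS om * e (qS om z) := by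
  have hG := G_reflect (Pom om) h.o_lt_b (x := xo om z) (by rw [pole_iff h.pos]; exact h1)
    (by rw [Q_sub_xo h.pos, pole_iff h.pos]; exact h2)
  rw [Q_sub_xo h.pos] at hG
  have hE : e (qS om z) = e (qS om z / 2) * e (qS om z / 2) := by
    rw [← GUP_e_add]
    congr 1
    ring
  unfold Sf cS
  rw [qS_reflect om, hE]
  linear_combination ((GUP_q (Pom om) I)⁻¹ ^ 2 * (e (qS om z / 2) * e (qS om z / 2))) * hG

/-- `Sf om z / Sf om (1 + om - z)` is the square of the double sine function. -/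
theorem Sf_eq_sq (h : IsU om) {z : ℂ} (h1 : ¬ PoleS om z) (h2 : ¬ PoleS om (1 + om - z)) :
    Sf om z = Sf om (1 + om - z) * (G (Pom om) (xo om z)) ^ 2 := by
  have hG := G_reflect (Pom om) h.o_lt_b (x := xo om z) (by rw [pole_iff h.pos]; exact h1)
    (by rw [Q_sub_xo h.pos, pole_iff h.pos]; exact h2)
  rw [Q_sub_xo h.pos] at hG
  unfold Sf
  rw [qS_reflect om]
  linear_combination (-((GUP_q (Pom om) I)⁻¹ * (e (qS om z / 2) * G (Pom om) (xo om z)))) * hG

/-- The squares are real and positive on the real axis inside of the strip. -/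
theorem G_real_pos (h : IsU om) {x : ℝ} (h1 : 0 < x) (h2 : x < 1 + om) :
    ∃ y : ℝ, 0 < y ∧ G (Pom om) (xo om x) = y := by
  have h3 : xo om (x : ℂ) = ((x * (Pom om).o : ℝ) : ℂ) := by
    unfold xo
    push_cast
    rfl
  rw [h3]
  apply G_pos _ h.o_lt_b (mul_pos h1 (Pom om).ho)
  have h4 : (Pom om).Q = (1 + om) * (Pom om).o := by
    unfold Par.Q
    rw [← omo h.pos]
    ring
  rw [h4]
  exact mul_lt_mul_of_pos_right h2 (Pom om).ho

/-- The formula in the upper half plane. -/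
theorem Sf_upper (h : IsU om) {z : ℂ} (hz : 0 < z.im) :
    Sf om z = Complex.exp (Lf (Pom om) (xo om z)) := by
  obtain ⟨d, hd⟩ := h.isUnit
  have hx : 0 < (xo om z).im := by
    rw [xo_im]
    exact mul_pos hz (Pom om).ho
  have hI : 0 < (I : ℂ).im := by simp
  have hopen : IsOpen {z : ℂ | 0 < z.im} := isOpen_lt continuous_const Complex.continuous_im
  have hconv : Convex ℝ {z : ℂ | 0 < z.im} := convex_halfSpace_im_gt 0
  have h1 : GUP_q (Pom om) (xo om z) = GUP_q (Pom om) I :=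
    hopen.is_const_of_deriv_eq_zero hconv.isPreconnected
      (fun z hz => (GUP_diff hd hz).differentiableWithinAt) (fun z hz => GUP_deriv hd hz) hx hI
  have h2 : e (qS om z / 2) * G (Pom om) (xo om z) =
      GUP_q (Pom om) (xo om z) * Complex.exp (Lf (Pom om) (xo om z)) := by
    unfold GUP_q
    have h3 : ((xo om z) ^ 2 - (Pom om).Q * xo om z) / 4 = qS om z / 2 := by
      rw [xo_qS h.pos]
      ring
    have h4 : Complex.exp (-(Lf (Pom om) (xo om z))) * Complex.exp (Lf (Pom om) (xo om z)) = 1 := by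
      rw [← Complex.exp_add, neg_add_cancel, Complex.exp_zero]
    rw [h3]
    linear_combination (-(e (qS om z / 2) * G (Pom om) (xo om z))) * h4
  unfold Sf
  rw [h2, h1, inv_mul_cancel_left₀ (GUP_I_ne h)]

/-- The terms of the series of the logarithm. -/
theorem Lt_xo (h : 0 < om) (z : ℂ) (n : ℕ) : Lt (Pom om) (xo om z) n =
    e (((n : ℂ) + 1) * z) / (((n : ℂ) + 1) * (1 - e (((n : ℂ) + 1) * om))) +
      e (((n : ℂ) + 1) * (z / om)) / (((n : ℂ) + 1) * (1 - e (((n : ℂ) + 1) * (om : ℂ)⁻¹))) := by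
  have h1 : ((n : ℂ) + 1) * (Pom om).b * xo om z = ((n : ℂ) + 1) * z := by
    unfold xo
    linear_combination (((n : ℂ) + 1) * z) * boC om
  have h2 : ((n : ℂ) + 1) * (Pom om).o * xo om z = ((n : ℂ) + 1) * (z / om) := by
    unfold xo
    rw [div_eq_mul_inv, ← o2C h]
    ring
  unfold Lt
  rw [h1, h2, b2C h, o2C h]

/-- (S4), for the logarithm. -/
theorem Lf_xo_bound (h : IsU om) {t0 : ℝ} (ht : 0 < t0) :
    ∃ C : ℝ, 0 < C ∧ ∀ z : ℂ, t0 ≤ z.im →
      ‖Lf (Pom om) (xo om z)‖ ≤ C * Real.exp (-(2 * π * z.im / om)) := by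
  obtain ⟨d, hd⟩ := h.isUnit
  obtain ⟨C, hC, hb⟩ := Lf_bound hd (t0 := t0 * (Pom om).o) (mul_pos ht (Pom om).ho)
  refine ⟨C, hC, fun z hz => ?_⟩
  have h1 := hb (xo om z) (by
    rw [xo_im]
    exact mul_le_mul_of_nonneg_right hz (Pom om).ho.le)
  have h2 : 2 * π * (Pom om).o * (xo om z).im = 2 * π * z.im / om := by
    rw [xo_im]
    have := Pom_o2 h.pos
    rw [div_eq_mul_inv, ← this]
    ring
  rwa [h2] at h1

/-- (S4): `‖Sf om z - 1‖ ≤ C exp (- 2 π im z / om)` for `im z ≥ t0`. -/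
theorem Sf_sub_one_bound (h : IsU om) {t0 : ℝ} (ht : 0 < t0) :
    ∃ C : ℝ, 0 < C ∧ ∀ z : ℂ, t0 ≤ z.im →
      ‖Sf om z - 1‖ ≤ C * Real.exp (-(2 * π * z.im / om)) := by
  obtain ⟨C, hC, hb⟩ := Lf_xo_bound h ht
  refine ⟨C * Real.exp C, mul_pos hC (Real.exp_pos _), fun z hz => ?_⟩
  have hz0 : 0 < z.im := lt_of_lt_of_le ht hz
  have h1 := hb z hz
  have hE : Real.exp (-(2 * π * z.im / om)) ≤ 1 := by
    rw [Real.exp_le_one_iff]
    have : 0 ≤ 2 * π * z.im / om :=
      div_nonneg (mul_nonneg (mul_nonneg two_pos.le Real.pi_pos.le) hz0.le) h.pos.le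
    linarith
  have hE0 := Real.exp_pos (-(2 * π * z.im / om))
  have h2 : ‖Lf (Pom om) (xo om z)‖ ≤ C := h1.trans (by nlinarith)
  rw [Sf_upper h hz0]
  have h3 : ‖Complex.exp (Lf (Pom om) (xo om z)) - 1‖ ≤
      ‖Lf (Pom om) (xo om z)‖ * Real.exp ‖Lf (Pom om) (xo om z)‖ := by
    have := Complex.norm_exp_sub_sum_le_norm_mul_exp (Lf (Pom om) (xo om z)) 1
    simpa using this
  refine h3.trans ?_
  have h4 : Real.exp ‖Lf (Pom om) (xo om z)‖ ≤ Real.exp C := Real.exp_le_exp.2 h2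
  calc ‖Lf (Pom om) (xo om z)‖ * Real.exp ‖Lf (Pom om) (xo om z)‖
      ≤ (C * Real.exp (-(2 * π * z.im / om))) * Real.exp C :=
        mul_le_mul h1 h4 (Real.exp_pos _).le (mul_pos hC hE0).le
    _ = _ := by ring

end

end Zau
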