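import Pool.Agent.Lib_zau.Tower
import Pool.Agent.Lib_zau.Final

/-!
# Zauner (MP_1c78a5_mp): the skeleton of the chain

Three statements (`exists_tower`, `kronecker`, `galois_step`) and the assembly.
-/

set_option autoImplicit false

namespace Zau

open Finset Pool.Agent.Results.MP_1c78a5_mp

/-- The Kronecker congruence (B10), as a predicate on `R = exp (3 rho)`. -/
def KC (n : ℤ) (d : ℕ) (R : ℚ × ℚ → ℝ) : Prop :=
  ∀ l : ℕ, l.Prime → l ≠ 2 → ¬ l ∣ d → ¬ IsSquare ((n ^ 2 - 4 : ℤ) : ZMod l) →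
    ∀ (Γ₀ : Type) [LinearOrderedCommGroupWithZero Γ₀] (v : Valuation ℂ Γ₀), v (l : ℂ) < 1 →
    ∀ x : ℚ × ℚ, d • x ∈ Lam →
      v (R x : ℂ) = 1 ∧ v ((R (l • x) : ℂ) - (R x : ℂ) ^ (l ^ 2)) < 1

/-- B1-B9, B12, B13: the analytic part. -/
theorem exists_tower (d : ℕ) [NeZero d] (hd : 4 ≤ d) : ∃ rho : ℚ × ℚ → ℝ, Tower ((d : ℤ) - 1) rho ∧
    (∀ a b : ZMod d, ¬(a = 0 ∧ b = 0) →
      GhostSIC.nu d a b ^ 2 = Real.exp (3 * rho ((a.val : ℚ) / d, (b.val : ℚ) / d)) ∨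
      GhostSIC.nu d a b ^ 2 = Real.exp (-(3 * rho ((a.val : ℚ) / d, (b.val : ℚ) / d)))) ∧
    (∀ x : ℚ × ℚ, d • x ∈ Lam → IsAlgebraic ℚ ((Real.exp (3 * rho x) : ℝ) : ℂ)) := sorry

/-- B10: the Kronecker congruence. -/
theorem kronecker {n : ℤ} (hn : 3 ≤ n) {rho : ℚ × ℚ → ℝ} (T : Tower n rho) (d : ℕ)
    (hd : (d : ℤ) = n + 1) : KC n d (fun x => Real.exp (3 * rho x)) := sorry

/-- B11: the Galois step. -/
theorem galois_step {n : ℤ} (hn : 3 ≤ n) (d : ℕ) (hd : (d : ℤ) = n + 1) (R : ℚ × ℚ → ℝ)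
    (hpos : ∀ x, 0 < R x) (hper : ∀ x, ∀ z ∈ Lam, R (x + z) = R x) (hodd : ∀ x, R (-x) = (R x)⁻¹)
    (halg : ∀ x : ℚ × ℚ, d • x ∈ Lam → IsAlgebraic ℚ (R x : ℂ)) (hKC : KC n d R) :
    ∃ σ : ℂ →+* ℂ, ∀ x : ℚ × ℚ, d • x ∈ Lam → ‖σ (R x : ℂ)‖ = 1 := sorry

/-- **Zauner's conjecture.** -/
theorem zauner (d : ℕ) [NeZero d] (hd : 2 ≤ d) : ∃ φ : ZMod d → ℂ, IsSIC φ := by
  refine zauner_of_conj (fun d _ hd => ?_) d hd
  obtain ⟨rho, T, hnu, halg⟩ := exists_tower d hd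
  have hn : (3 : ℤ) ≤ (d : ℤ) - 1 := by
    have : (4 : ℤ) ≤ d := by exact_mod_cast hd
    linarith
  obtain ⟨σ, hσ⟩ := galois_step hn d (by ring) (fun x => Real.exp (3 * rho x))
    (fun x => Real.exp_pos _) (fun x z hz => by rw [T.per x z hz])
    (fun x => by
      show Real.exp (3 * rho (-x)) = (Real.exp (3 * rho x))⁻¹
      rw [T.odd, ← Real.exp_neg]
      ring_nf) halg (kronecker hn T d (by ring))
  refine ⟨σ, fun a b hab => ?_⟩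
  have hmem : d • (((a.val : ℚ) / d, (b.val : ℚ) / d) : ℚ × ℚ) ∈ Lam := by
    have hd0 : (d : ℚ) ≠ 0 := by exact_mod_cast (NeZero.ne d)
    refine ⟨a.val, b.val, ?_⟩
    ext
    · simp only [Prod.smul_mk, nsmul_eq_mul]
      push_cast
      field_simp
    · simp only [Prod.smul_mk, nsmul_eq_mul]
      push_cast
      field_simp
  have h1 := hσ _ hmem
  have h2 : ‖σ ((GhostSIC.nu d a b : ℂ) ^ 2)‖ = 1 := by
    rcases hnu a b hab with h | h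
    · rw [← Complex.ofReal_pow, h]
      exact h1
    · rw [← Complex.ofReal_pow, h, Real.exp_neg, Complex.ofReal_inv, map_inv₀, norm_inv, h1, inv_one]
  rw [map_pow, norm_pow] at h2
  nlinarith [norm_nonneg (σ (GhostSIC.nu d a b : ℂ))]

end Zau
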