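import Pool.Agent.Lib_zau.DFun

/-!
# The analytic inverses of `Sf` and `Df`, bounds
-/

open Complex MeasureTheory Set Filter Topology
open scoped Real ComplexConjugate

namespace Zau

open Ghost

/-- The analytic continuation of `1 / Sf`. -/
noncomputable def Tf (om : ℝ) (z : ℂ) : ℂ := (cS om * e (qS om z))⁻¹ * Sf om (1 + om - z)

theorem cS_ne {om : ℝ} (h : IsU om) : cS om ≠ 0 := by
  unfold cS
  exact pow_ne_zero _ (inv_ne_zero (GUP_I_ne h))

theorem Sf_mul_Tf {om : ℝ} (h : IsU om) {z : ℂ} (h1 : ¬ PoleS om z)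
    (h2 : ¬ PoleS om (1 + om - z)) : Sf om z * Tf om z = 1 := by
  have h3 := Sf_reflect h h1 h2
  have h4 : cS om * e (qS om z) ≠ 0 := mul_ne_zero (cS_ne h) (e_ne _)
  unfold Tf
  calc Sf om z * ((cS om * e (qS om z))⁻¹ * Sf om (1 + om - z))
      = (cS om * e (qS om z))⁻¹ * (Sf om z * Sf om (1 + om - z)) := by ring
    _ = 1 := by rw [h3, inv_mul_cancel₀ h4]

theorem Tf_differentiableAt {om : ℝ} (h : IsU om) {z : ℂ} (h2 : ¬ PoleS om (1 + om - z)) :
    DifferentiableAt ℂ (Tf om) z := by
  have h4 : cS om * e (qS om z) ≠ 0 := mul_ne_zero (cS_ne h) (e_ne _)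
  unfold Tf
  refine DifferentiableAt.mul ?_ ?_
  · refine DifferentiableAt.inv ?_ h4
    unfold e qS
    fun_prop
  · have h5 : DifferentiableAt ℂ (Sf om) (1 + om - z) := Sf_differentiableAt h h2
    exact DifferentiableAt.comp (f := fun w : ℂ => 1 + om - w) z h5 (by fun_prop)

theorem one_sub_e_neg (x : ℂ) : 1 - e (-x) = -e (-x) * (1 - e x) := by
  have := GUP_e_neg x
  linear_combination -this

theorem Tf_add_one {om : ℝ} (h : IsU om) {z : ℂ} (h2 : ¬ PoleS om (om - z)) :
    Tf om z = Tf om (z + 1) * (1 - e (z / om)) := by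
  have h3 := Sf_add_one h h2
  have e1 : (om : ℂ) - z + 1 = 1 + om - z := by ring
  have e2 : (1 : ℂ) + om - (z + 1) = om - z := by ring
  have e3 : e (((om : ℂ) - z) / om) = e (-(z / om)) := by
    have : ((om : ℂ) - z) / om = -(z / om) + ((1 : ℤ) : ℂ) := by
      have := h.neC
      push_cast
      field_simp
      ring
    rw [this, e_add_int]
  have e4 : e (qS om (z + 1)) = -(e (qS om z) * e (z / om)) := by
    have h5 : qS om (z + 1) = qS om z + z / om + (-1 / 2) := by
      have := h.neC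
      unfold qS
      field_simp
      ring
    have h6 : e (-1 / 2) = -1 := by
      unfold e
      have : 2 * (π : ℂ) * I * (-1 / 2) = -(π * I) := by ring
      rw [this, Complex.exp_neg, Complex.exp_pi_mul_I]
      norm_num
    rw [h5, e_add, e_add, h6]
    ring
  rw [e1, e3] at h3
  unfold Tf
  rw [h3, e2, e4, one_sub_e_neg]
  have h7 : e (-(z / om)) = (e (z / om))⁻¹ := e_neg _
  have h8 := e_ne (z / om)
  have h9 := e_ne (qS om z)
  have h10 := cS_ne h
  rw [h7]
  field_simp

theorem Tf_add_om {om : ℝ} (h : IsU om) {z : ℂ} (h2 : ¬ PoleS om (1 - z)) :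
    Tf om z = Tf om (z + om) * (1 - e z) := by
  have h3 := Sf_add_om h h2
  have e1 : (1 : ℂ) - z + om = 1 + om - z := by ring
  have e2 : (1 : ℂ) + om - (z + om) = 1 - z := by ring
  have e3 : e (1 - z) = e (-z) := by
    have : (1 : ℂ) - z = -z + ((1 : ℤ) : ℂ) := by push_cast; ring
    rw [this, e_add_int]
  have e4 : e (qS om (z + om)) = -(e (qS om z) * e z) := by
    have h5 : qS om (z + om) = qS om z + z + (-1 / 2) := by
      have := h.neC
      unfold qS
      field_simp
      ring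
    have h6 : e (-1 / 2) = -1 := by
      unfold e
      have : 2 * (π : ℂ) * I * (-1 / 2) = -(π * I) := by ring
      rw [this, Complex.exp_neg, Complex.exp_pi_mul_I]
      norm_num
    rw [h5, e_add, e_add, h6]
    ring
  rw [e1, e3] at h3
  unfold Tf
  rw [h3, e2, e4, one_sub_e_neg]
  have h7 : e (-z) = (e z)⁻¹ := e_neg _
  have h8 := e_ne z
  have h9 := e_ne (qS om z)
  have h10 := cS_ne h
  rw [h7]
  field_simp

/-- `Tf = exp (- Lf)` in the upper half plane. -/
theorem Tf_upper {om : ℝ} (h : IsU om) {z : ℂ} (hz : 0 < z.im) :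
    Tf om z = Complex.exp (-(Lf (Pom om) (xo om z))) := by
  have h1 := Sf_mul_Tf h (z := z) (not_poleS_of_im_ne hz.ne') (by
    apply not_poleS_of_im_ne
    simpa using hz.ne')
  rw [Sf_upper h hz] at h1
  rw [Complex.exp_neg]
  exact eq_inv_of_mul_eq_one_right h1

section

variable {N : ℕ} {A U : ℤ} {om : ℝ}

/-- The product of the values of a function. -/
noncomputable def prodF (N : ℕ) (U : ℤ) (om : ℝ) (F : ℂ → ℂ) (b : ℤ) (x : ℂ) : ℂ :=
  ∏ m ∈ Finset.range N, F (zz N U om b m x)

/-- The point of (D2). -/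
noncomputable def w2 (N : ℕ) (A : ℤ) (om : ℝ) (b : ℤ) (x : ℂ) : ℂ := (x + m0 N A b * om) / N

/-- The point of (D3). -/
noncomputable def w3 (N : ℕ) (U b : ℤ) (x : ℂ) : ℂ := (x + rho N U b 0) / N

theorem LP.prod_step_one (h : LP N A U om) (F : ℂ → ℂ) (b : ℤ) (x : ℂ) : ∃ C : ℂ,
    prodF N U om F b x = C * F (w2 N A om b x + 1) ∧
    prodF N U om F (b + 1) (x - 1) = C * F (w2 N A om b x) := by
  have hN := h.NC
  have hm0 := m0_lt h.hN A b
  have hmem : m0 N A b ∈ Finset.range N := Finset.mem_range.2 hm0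
  have hrho : rho N U b (m0 N A b) = N := by
    rw [rho_eq_N_iff h.hN, h.m0_iff hm0]
  refine ⟨∏ m ∈ (Finset.range N).erase (m0 N A b), F (zz N U om b m x), ?_, ?_⟩
  · unfold prodF
    rw [← Finset.prod_erase_mul _ _ hmem]
    congr 2
    unfold zz w2
    rw [hrho]
    push_cast
    field_simp
  · unfold prodF
    rw [← Finset.prod_erase_mul _ _ hmem]
    congr 1
    · refine Finset.prod_congr rfl fun m hm => ?_
      rw [Finset.mem_erase, Finset.mem_range] at hm
      have h2 : rho N U b m ≠ N := by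
        rw [Ne, rho_eq_N_iff h.hN, h.m0_iff hm.2]
        exact hm.1
      congr 1
      unfold zz
      rw [rho_succ h.hN h2]
      push_cast
      ring
    · congr 1
      unfold zz w2
      rw [rho_succ_N h.hN hrho]
      push_cast
      ring

theorem LP.prod_step_om (h : LP N A U om) (F : ℂ → ℂ) (b : ℤ) (x : ℂ) : ∃ C : ℂ,
    prodF N U om F b x = C * F (w3 N U b x) ∧
    prodF N U om F (b + U) (x + om) = C * F (w3 N U b x + om) := by
  have hN := h.NC
  obtain ⟨M, hM⟩ : ∃ M : ℕ, N = M + 1 := ⟨N - 1, by have := h.hN; omega⟩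
  refine ⟨∏ m ∈ Finset.range M, F (zz N U om b (m + 1) x), ?_, ?_⟩
  · unfold prodF
    have : Finset.range N = Finset.range (M + 1) := by rw [hM]
    rw [this, Finset.prod_range_succ']
    congr 2
    unfold zz w3
    push_cast
    ring
  · unfold prodF
    have h1 : ∀ m : ℕ, zz N U om (b + U) m (x + om) = zz N U om b (m + 1) x := by
      intro m
      unfold zz
      rw [rho_add_U]
      push_cast
      ring
    simp only [h1]
    have : Finset.range N = Finset.range (M + 1) := by rw [hM]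
    rw [this, Finset.prod_range_succ, ← hM]
    congr 2
    unfold zz w3
    rw [rho_N]
    field_simp
    ring

theorem LP.e_w2 (h : LP N A U om) (b : ℤ) (x : ℂ) :
    e (w2 N A om b x / om) = e (x / (N * om) + A * b / N) := by
  have hN := h.NC
  obtain ⟨k, hk⟩ := m0_dvd h.hN A b
  have h5 : (x / (N * om) + A * b / N : ℂ) = w2 N A om b x / om + ((k : ℤ) : ℂ) := by
    have h6 : (A : ℂ) * b = m0 N A b + N * k := by
      have : (A : ℤ) * b = m0 N A b + N * k := by linarith
      exact_mod_cast this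
    have hom := h.hom.neC
    unfold w2
    rw [h6]
    field_simp
    ring
  rw [h5, e_add_int]

theorem LP.e_w3 (h : LP N A U om) (b : ℤ) (x : ℂ) : e (w3 N U b x) = e ((x + b) / N) := by
  have hN := h.NC
  obtain ⟨k, hk⟩ := rho_dvd N U b 0
  have h4 : ((x + b) / N : ℂ) = w3 N U b x + ((k : ℤ) : ℂ) := by
    have h5 : (b : ℂ) = rho N U b 0 + N * k := by
      have : (b : ℤ) = rho N U b 0 + N * k := by
        push_cast at hk
        linarith
      exact_mod_cast this
    unfold w3
    rw [h5]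
    field_simp
    ring
  rw [h4, e_add_int]

/-- The analytic continuation of `1 / Df`. -/
noncomputable def Rf (N : ℕ) (U : ℤ) (om : ℝ) (b : ℤ) (x : ℂ) : ℂ := prodF N U om (Tf om) b x

theorem Rf_add_N (N : ℕ) (U : ℤ) (om : ℝ) (b : ℤ) (x : ℂ) : Rf N U om (b + N) x = Rf N U om b x := by
  unfold Rf prodF zz
  refine Finset.prod_congr rfl fun m _ => ?_
  rw [rho_add_N]

/-- The exponential in the reflection formula. -/
noncomputable def Ee (N : ℕ) (U : ℤ) (om : ℝ) (b : ℤ) (x : ℂ) : ℂ :=
  cS om ^ N * e (∑ m ∈ Finset.range N, qS om (zz N U om b m x))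

theorem e_sum {ι : Type*} (s : Finset ι) (f : ι → ℂ) : e (∑ i ∈ s, f i) = ∏ i ∈ s, e (f i) := by
  unfold e
  rw [Finset.mul_sum, Complex.exp_sum]

theorem LP.Ee_ne (h : LP N A U om) (b : ℤ) (x : ℂ) : Ee N U om b x ≠ 0 :=
  mul_ne_zero (pow_ne_zero _ (cS_ne h.hom)) (e_ne _)

/-- `Rf b x = Df (U + 1 - b) (om - 1 - x) / Ee b x` for all `x`. -/
theorem LP.Rf_eq (h : LP N A U om) (b : ℤ) (x : ℂ) :
    Rf N U om b x * Ee N U om b x = Df N U om (U + 1 - b) (om - 1 - x) := by
  have h1 : Df N U om (U + 1 - b) (om - 1 - x) =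
      ∏ m ∈ Finset.range N, Sf om (1 + om - zz N U om b m x) := by
    unfold Df
    rw [← Finset.prod_range_reflect]
    refine Finset.prod_congr rfl fun m hm => ?_
    rw [h.zz_reflect (Finset.mem_range.1 hm)]
  rw [h1]
  have h2 : Ee N U om b x = ∏ m ∈ Finset.range N, (cS om * e (qS om (zz N U om b m x))) := by
    unfold Ee
    rw [e_sum, Finset.prod_mul_distrib, Finset.prod_const, Finset.card_range]
  rw [h2]
  unfold Rf prodF
  rw [← Finset.prod_mul_distrib]
  refine Finset.prod_congr rfl fun m _ => ?_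
  have h4 : cS om * e (qS om (zz N U om b m x)) ≠ 0 := mul_ne_zero (cS_ne h.hom) (e_ne _)
  unfold Tf
  calc (cS om * e (qS om (zz N U om b m x)))⁻¹ * Sf om (1 + om - zz N U om b m x) *
        (cS om * e (qS om (zz N U om b m x)))
      = (cS om * e (qS om (zz N U om b m x)))⁻¹ * (cS om * e (qS om (zz N U om b m x))) *
        Sf om (1 + om - zz N U om b m x) := by ring
    _ = Sf om (1 + om - zz N U om b m x) := by rw [inv_mul_cancel₀ h4, one_mul]

theorem LP.Df_mul_Rf (h : LP N A U om) {b : ℤ} {x : ℂ} (hx : ¬ PoleD N U om b x)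
    (hx' : ¬ PoleD N U om (U + 1 - b) (om - 1 - x)) : Df N U om b x * Rf N U om b x = 1 := by
  unfold Df Rf prodF
  rw [← Finset.prod_mul_distrib]
  refine Finset.prod_eq_one fun m hm => ?_
  have hm' : m < N := Finset.mem_range.1 hm
  exact Sf_mul_Tf h.hom (h.not_pole hx hm') (h.not_pole_reflect hx' hm')

/-- (D6). -/
theorem LP.Df_reflect (h : LP N A U om) {b : ℤ} {x : ℂ} (hx : ¬ PoleD N U om b x)
    (hx' : ¬ PoleD N U om (U + 1 - b) (om - 1 - x)) :
    Df N U om b x * Df N U om (U + 1 - b) (om - 1 - x) = Ee N U om b x := by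
  rw [← h.Rf_eq, ← mul_assoc, h.Df_mul_Rf hx hx', one_mul]

theorem LP.Rf_differentiableAt (h : LP N A U om) {b : ℤ} {x : ℂ}
    (hx' : ¬ PoleD N U om (U + 1 - b) (om - 1 - x)) : DifferentiableAt ℂ (Rf N U om b) x := by
  unfold Rf prodF
  refine DifferentiableAt.fun_finsetProd fun m hm => ?_
  have hm' : m < N := Finset.mem_range.1 hm
  have h1 : DifferentiableAt ℂ (Tf om) (zz N U om b m x) :=
    Tf_differentiableAt h.hom (h.not_pole_reflect hx' hm')
  have h2 : DifferentiableAt ℂ (zz N U om b m) x := by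
    unfold zz
    fun_prop
  exact DifferentiableAt.comp (f := zz N U om b m) x h1 h2

/-- (R2). -/
theorem LP.Rf_step_one (h : LP N A U om) {b : ℤ} {x : ℂ} (hx : x.im ≠ 0 ∨ x.re < om) :
    Rf N U om (b + 1) (x - 1) = Rf N U om b x * (1 - e (x / (N * om) + A * b / N)) := by
  obtain ⟨C, h1, h2⟩ := h.prod_step_one (Tf om) b x
  have hN := h.NR
  have h3 : ¬ PoleS om (om - w2 N A om b x) := by
    have him : (w2 N A om b x).im = x.im / N := by
      unfold w2
      have h1 : (N : ℂ) = ((N : ℝ) : ℂ) := by push_cast; rfl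
      rw [h1, Complex.div_ofReal_im]
      congr 1
      simp
    have hre : (w2 N A om b x).re = (x.re + m0 N A b * om) / N := by
      unfold w2
      have h1 : (N : ℂ) = ((N : ℝ) : ℂ) := by push_cast; rfl
      rw [h1, Complex.div_ofReal_re]
      congr 1
      simp
    rcases hx with hx | hx
    · apply not_poleS_of_im_ne
      rw [Complex.sub_im, him]
      simp only [Complex.ofReal_im]
      have : x.im / N ≠ 0 := div_ne_zero hx hN.ne'
      simpa using this
    · apply not_poleS_of_re_pos h.hom.pos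
      rw [Complex.sub_re, hre]
      simp only [Complex.ofReal_re]
      rw [sub_pos, div_lt_iff₀ hN]
      have h4 : (m0 N A b : ℝ) + 1 ≤ N := by exact_mod_cast m0_lt h.hN A b
      have h5 := mul_le_mul_of_nonneg_right h4 h.hom.pos.le
      linarith
  have h4 := Tf_add_one h.hom h3
  rw [h.e_w2] at h4
  unfold Rf
  rw [h1, h2, h4]
  ring

/-- (R3). -/
theorem LP.Rf_step_om (h : LP N A U om) {b : ℤ} {x : ℂ} (hx : x.im ≠ 0 ∨ x.re < 0) :
    Rf N U om (b + U) (x + om) * (1 - e ((x + b) / N)) = Rf N U om b x := by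
  obtain ⟨C, h1, h2⟩ := h.prod_step_om (Tf om) b x
  have hN := h.NR
  have h3 : ¬ PoleS om (1 - w3 N U b x) := by
    have him : (w3 N U b x).im = x.im / N := by
      unfold w3
      have h1 : (N : ℂ) = ((N : ℝ) : ℂ) := by push_cast; rfl
      rw [h1, Complex.div_ofReal_im]
      congr 1
      simp
    have hre : (w3 N U b x).re = (x.re + rho N U b 0) / N := by
      unfold w3
      have h1 : (N : ℂ) = ((N : ℝ) : ℂ) := by push_cast; rfl
      rw [h1, Complex.div_ofReal_re]
      congr 1
    rcases hx with hx | hx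
    · apply not_poleS_of_im_ne
      rw [Complex.sub_im, him]
      have : x.im / N ≠ 0 := div_ne_zero hx hN.ne'
      simpa using this
    · apply not_poleS_of_re_pos h.hom.pos
      rw [Complex.sub_re, hre]
      simp only [Complex.one_re]
      rw [sub_pos, div_lt_iff₀ hN]
      have h4 : (rho N U b 0 : ℝ) ≤ N := by exact_mod_cast rho_le h.hN U b 0
      linarith
  have h4 := Tf_add_om h.hom h3
  rw [h.e_w3] at h4
  unfold Rf
  rw [h1, h2, h4]
  ring

end

end Zau
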