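import Mathlib

/-!
# From the region to all `v` (MP_1c78a5_mp, Zauner)

Abstract finite statement. `G` is a finite abelian group with a nondegenerate symmetric pairing `P`,
`b : G → ℂ` is a function with `b w * b (-w) = γ w` (`w ≠ 0`), `γ` quadratic, `a = 1 / b` off `0`,
`a 0 = b 0`, `κ ^ 2 = |G|`, `t : G →+ ZMod N` is the coordinate with `P h v = exp (2 π i (t v) / N)`.
If the near-group equation
`∑ w, P w v * (a w * b (w - q)) = κ * b (-q) * b (-v) * a (-q - v)`
holds in the region `t q ≠ 0`, `(t q).val + (t v).val < N`, then it holds for all `v` as soon as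
`gcd ((t h).val, N)` divides `(t q).val`; in particular if `ℓ • q = 0` for a prime `ℓ` which does not
divide that gcd.

Proof. Put `e q v = (left side) - (right side)`. Then `e q` is supported on `(t v).val ≥ N - j`,
`j = (t q).val`, and `FT (e q) w = - κ b (-q) P(w, -q) e (-q) (-w)`, which vanishes when
`(t (-w)).val < j`. Along `w = w₀ + x h` the function `FT (e q)` is a combination of `j` consecutive
characters and it has at least `j` zeros (count the `x` with `(t (-w₀) - x t h).val < j`).
-/

set_option autoImplicit false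

open Finset

namespace Zau

section Count

/-- Counting lemma. -/
theorem count_ge (N : ℕ) [NeZero N] (T c : ZMod N) (J : ℕ) (hJ : J ≤ N)
    (hD : Nat.gcd T.val N ∣ J) :
    J ≤ #{x : ZMod N | (c - x * T).val < J} := by
  classical
  obtain ⟨D, hDdef⟩ : ∃ D, D = Nat.gcd T.val N := ⟨_, rfl⟩
  rw [← hDdef] at hD
  have hN : 0 < N := Nat.pos_of_ne_zero (NeZero.ne N)
  have hD0 : 0 < D := by rw [hDdef]; exact Nat.gcd_pos_of_pos_right _ hN
  obtain ⟨N1, hN1⟩ : D ∣ N := by rw [hDdef]; exact Nat.gcd_dvd_right _ _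
  obtain ⟨T1, hT1⟩ : D ∣ T.val := by rw [hDdef]; exact Nat.gcd_dvd_left _ _
  have hN1T : ((N1 : ℕ) : ZMod N) * T = 0 := by
    have h1 : T = ((T.val : ℕ) : ZMod N) := (ZMod.natCast_zmod_val T).symm
    rw [h1, hT1, ← Nat.cast_mul, show N1 * (D * T1) = N * T1 by rw [hN1]; ring, Nat.cast_mul,
      ZMod.natCast_self, zero_mul]
  -- solutions
  have hsol : ∀ y : ℕ, y ≡ c.val [MOD D] → ∃ x : ZMod N, c - x * T = (y : ZMod N) := by
    intro y hy
    have h1 : ((T.val : ℤ)) * Nat.gcdA T.val N + N * Nat.gcdB T.val N = D := by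
      rw [hDdef]; exact (Nat.gcd_eq_gcd_ab _ _).symm
    obtain ⟨k, hk⟩ : (D : ℤ) ∣ (c.val : ℤ) - y := (Nat.modEq_iff_dvd.1 hy)
    refine ⟨((k * Nat.gcdA T.val N : ℤ) : ZMod N), ?_⟩
    have h2 : ((c.val : ℤ) : ZMod N) = c := by simp
    have h3 : ((T.val : ℤ) : ZMod N) = T := by simp
    have h4 : ((D : ℤ) : ZMod N) = T * ((Nat.gcdA T.val N : ℤ) : ZMod N) := by
      rw [← h1]
      push_cast
      simp
    have h5 : ((c.val : ℤ) : ZMod N) = (y : ZMod N) + ((D : ℤ) : ZMod N) * (k : ZMod N) := by
      have : (c.val : ℤ) = y + D * k := by linarith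
      rw [this]
      push_cast
      ring
    rw [← h2, h5, h4]
    push_cast
    ring
  choose! sol hsol' using hsol
  -- the injection
  let A : Finset (ℕ × ℕ) := ((range J).filter (fun y => y ≡ c.val [MOD D])) ×ˢ range D
  have hcardA : #A = J := by
    have h1 : #((range J).filter (fun y => y ≡ c.val [MOD D])) = J / D := by
      have h2 := Nat.count_modEq_card J hD0 c.val
      rw [Nat.count_eq_card_filter_range] at h2
      rw [h2]
      obtain ⟨k, rfl⟩ := hD
      simp
    rw [card_product, h1, card_range]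
    exact Nat.div_mul_cancel hD
  refine hcardA.symm.le.trans
    (card_le_card_of_injOn (fun z => sol z.1 + (z.2 : ZMod N) * (N1 : ZMod N)) ?_ ?_)
  · rintro ⟨y, i⟩ hz
    have hz' : (y < J ∧ y ≡ c.val [MOD D]) ∧ i < D := by simpa [A] using hz
    have h1 := hsol' y hz'.1.2
    have h2 : c - (sol y + (i : ZMod N) * (N1 : ZMod N)) * T = (y : ZMod N) := by
      rw [← h1, add_mul, mul_assoc, hN1T]
      ring
    have h3 : (c - (sol y + (i : ZMod N) * (N1 : ZMod N)) * T).val < J := by
      rw [h2, ZMod.val_natCast, Nat.mod_eq_of_lt (lt_of_lt_of_le hz'.1.1 hJ)]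
      exact hz'.1.1
    simpa using h3
  · rintro ⟨y, i⟩ hz ⟨y', i'⟩ hz' heq
    have hz1 : (y < J ∧ y ≡ c.val [MOD D]) ∧ i < D := by simpa [A] using hz
    have hz2 : (y' < J ∧ y' ≡ c.val [MOD D]) ∧ i' < D := by simpa [A] using hz'
    have heq' : sol y + (i : ZMod N) * (N1 : ZMod N) = sol y' + (i' : ZMod N) * (N1 : ZMod N) := heq
    have h1 : (y : ZMod N) = (y' : ZMod N) := by
      rw [← hsol' y hz1.1.2, ← hsol' y' hz2.1.2]
      have h2 : (sol y + (i : ZMod N) * (N1 : ZMod N)) * T
          = (sol y' + (i' : ZMod N) * (N1 : ZMod N)) * T := by rw [heq']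
      rw [add_mul, add_mul, mul_assoc, mul_assoc, hN1T, mul_zero, mul_zero, add_zero, add_zero] at h2
      rw [h2]
    have hy : y = y' := by
      have h2 := congrArg ZMod.val h1
      rwa [ZMod.val_natCast, ZMod.val_natCast, Nat.mod_eq_of_lt (lt_of_lt_of_le hz1.1.1 hJ),
        Nat.mod_eq_of_lt (lt_of_lt_of_le hz2.1.1 hJ)] at h2
    subst hy
    have h3 : ((i * N1 : ℕ) : ZMod N) = ((i' * N1 : ℕ) : ZMod N) := by
      push_cast
      exact add_left_cancel heq'
    have hN1pos : 0 < N1 := by
      rcases Nat.eq_zero_or_pos N1 with h | h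
      · rw [h] at hN1; omega
      · exact h
    have hi : i = i' := by
      have h4 := congrArg ZMod.val h3
      have h5 : i * N1 < N := by rw [hN1]; exact Nat.mul_lt_mul_of_pos_right hz1.2 hN1pos
      have h6 : i' * N1 < N := by rw [hN1]; exact Nat.mul_lt_mul_of_pos_right hz2.2 hN1pos
      rw [ZMod.val_natCast, ZMod.val_natCast, Nat.mod_eq_of_lt h5, Nat.mod_eq_of_lt h6] at h4
      exact Nat.eq_of_mul_eq_mul_right hN1pos h4
    rw [hi]

/-- If `ℓ x = 0` in `ZMod N` and the prime `ℓ` does not divide `gcd (m, N)` then `gcd (m, N)`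
divides `x`. -/
theorem gcd_dvd_of_nsmul (N : ℕ) [NeZero N] (m ℓ : ℕ) (hℓ : ℓ.Prime) (x : ZMod N)
    (hx : ℓ • x = 0) (hnd : ¬ ℓ ∣ Nat.gcd m N) : Nat.gcd m N ∣ x.val := by
  have h1 : ((ℓ * x.val : ℕ) : ZMod N) = 0 := by
    rw [Nat.cast_mul, ZMod.natCast_zmod_val, ← nsmul_eq_mul, hx]
  have h2 : N ∣ ℓ * x.val := (ZMod.natCast_eq_zero_iff _ _).1 h1
  have h3 : Nat.gcd m N ∣ ℓ * x.val := (Nat.gcd_dvd_right m N).trans h2
  have h4 : Nat.Coprime (Nat.gcd m N) ℓ := ((Nat.Prime.coprime_iff_not_dvd hℓ).2 hnd).symm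
  exact h4.dvd_of_dvd_mul_left h3

end Count

/-- A nondegenerate symmetric bimultiplicative pairing on a finite abelian group. -/
structure Pairing (G : Type*) [AddCommGroup G] [Fintype G] where
  /-- the pairing -/
  P : G → G → ℂ
  zero_left : ∀ z, P 0 z = 1
  add_left : ∀ x y z, P (x + y) z = P x z * P y z
  symm : ∀ x y, P x y = P y x
  orth : ∀ x, x ≠ 0 → ∑ y, P x y = 0

namespace Pairing

variable {G : Type*} [AddCommGroup G] [Fintype G] (E : Pairing G)

theorem zero_right (x : G) : E.P x 0 = 1 := by rw [E.symm, E.zero_left]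

theorem add_right (x y z : G) : E.P x (y + z) = E.P x y * E.P x z := by
  rw [E.symm, E.add_left, E.symm y, E.symm z]

theorem mul_neg_left (x y : G) : E.P x y * E.P (-x) y = 1 := by
  rw [← E.add_left, add_neg_cancel, E.zero_left]

theorem mul_neg_right (x y : G) : E.P x y * E.P x (-y) = 1 := by
  rw [← E.add_right, add_neg_cancel, E.zero_right]

theorem ne_zero (x y : G) : E.P x y ≠ 0 := left_ne_zero_of_mul_eq_one (E.mul_neg_left x y)

theorem neg_neg (x y : G) : E.P (-x) (-y) = E.P x y := by
  have h1 := E.mul_neg_left x (-y)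
  have h2 := E.mul_neg_right x y
  have h3 := E.ne_zero x (-y)
  have : E.P x (-y) * E.P (-x) (-y) = E.P x (-y) * E.P x y := by rw [h1, mul_comm, h2]
  exact mul_left_cancel₀ h3 this

theorem neg_left_eq_neg_right (x y : G) : E.P (-x) y = E.P x (-y) := by
  rw [← E.neg_neg (-x) y, _root_.neg_neg]

theorem nsmul_left (n : ℕ) (x y : G) : E.P (n • x) y = E.P x y ^ n := by
  induction n with
  | zero => simp [E.zero_left]
  | succ n ih => rw [succ_nsmul, E.add_left, ih, pow_succ]

/-- The Fourier transform. -/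
noncomputable def FT (g : G → ℂ) (v : G) : ℂ := ∑ w, E.P w v * g w

theorem FT_FT (g : G → ℂ) (w : G) : E.FT (E.FT g) w = (Fintype.card G : ℂ) * g (-w) := by
  classical
  unfold FT
  have h1 : ∀ v, E.P v w * ∑ u, E.P u v * g u = ∑ u, E.P (u + w) v * g u := by
    intro v
    rw [mul_sum]
    refine sum_congr rfl fun u _ => ?_
    rw [E.add_left, E.symm v w]
    ring
  rw [sum_congr rfl (fun v _ => h1 v), sum_comm]
  have h2 : ∀ u, ∑ v, E.P (u + w) v * g u = if u = -w then (Fintype.card G : ℂ) * g (-w) else 0 := by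
    intro u
    rw [← sum_mul]
    by_cases hu : u = -w
    · subst hu
      simp [E.zero_left]
    · rw [if_neg hu, E.orth _ (fun h => hu (eq_neg_of_add_eq_zero_left h)), zero_mul]
  rw [sum_congr rfl (fun u _ => h2 u)]
  simp

theorem FT_injective (g : G → ℂ) (hg : ∀ v, E.FT g v = 0) (w : G) : g w = 0 := by
  have h1 := E.FT_FT g (-w)
  have h2 : E.FT (E.FT g) (-w) = 0 := by
    unfold FT
    refine sum_eq_zero fun v _ => ?_
    have := hg v
    unfold FT at this
    rw [this, mul_zero]
  rw [h2, _root_.neg_neg] at h1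
  have h3 : (Fintype.card G : ℂ) ≠ 0 := by
    have : 0 < Fintype.card G := Fintype.card_pos
    exact_mod_cast this.ne'
  exact (mul_eq_zero.1 h1.symm).resolve_left h3

end Pairing

/-- The reflection data of a solution. -/
structure Sol {G : Type*} [AddCommGroup G] [Fintype G] (E : Pairing G) where
  b : G → ℂ
  a : G → ℂ
  γ : G → ℂ
  κ : ℂ
  hκ : κ ^ 2 = Fintype.card G
  a_zero : a 0 = b 0
  ab : ∀ w, w ≠ 0 → a w * b w = 1
  bb : ∀ w, w ≠ 0 → b w * b (-w) = γ w
  γ_zero : γ 0 = 1
  γ_add : ∀ x y, γ (x + y) * E.P x y = γ x * γ y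

namespace Sol

variable {G : Type*} [AddCommGroup G] [Fintype G] {E : Pairing G} (S : Sol E)

/-- `f_q (w) = a w * b (w - q)`. -/
noncomputable def f (q w : G) : ℂ := S.a w * S.b (w - q)

/-- The error of the near-group equation. -/
noncomputable def err (q v : G) : ℂ := E.FT (S.f q) v - S.κ * S.b (-q) * S.b (-v) * S.a (-q - v)

theorem γ_neg (w : G) : S.γ (-w) = S.γ w := by
  by_cases hw : w = 0
  · simp [hw]
  · rw [← S.bb w hw, ← S.bb (-w) (neg_ne_zero.2 hw), neg_neg, mul_comm]

theorem γ_sq (w : G) : S.γ w * S.γ w * E.P w w = 1 := by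
  have h := S.γ_add w (-w)
  rw [add_neg_cancel, S.γ_zero, one_mul, S.γ_neg] at h
  have h2 := E.mul_neg_right w w
  rw [← h, mul_comm, h2]

theorem γ_ne (w : G) : S.γ w ≠ 0 := by
  intro h
  have := S.γ_sq w
  rw [h, zero_mul, zero_mul] at this
  exact zero_ne_one this

theorem f_neg (q : G) (hq : q ≠ 0) (w : G) :
    S.f q (-w) = S.γ q * E.P w (-q) * S.f q (q + w) := by
  unfold f
  have e1 : -w - q = -(w + q) := by abel
  have e2 : q + w - q = w := by abel
  rw [e1, e2]
  by_cases hw : w = 0
  · subst hw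
    rw [neg_zero, zero_add, add_zero, E.zero_left, mul_one, S.a_zero]
    have h1 := S.ab q hq
    have h2 := S.bb q hq
    rw [← h2]
    linear_combination (-(S.b 0 * S.b (-q))) * h1
  · by_cases hwq : w + q = 0
    · have hwq' : w = -q := eq_neg_of_add_eq_zero_left hwq
      subst hwq'
      rw [neg_add_cancel, neg_zero, add_neg_cancel, neg_neg, S.a_zero, E.neg_neg]
      have h1 := S.ab q hq
      have h2 := S.bb q hq
      have h3 := S.γ_sq q
      have h4 : S.γ q * E.P q q * S.b (-q) = S.a q := by
        have h5 : S.b q ≠ 0 := right_ne_zero_of_mul_eq_one h1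
        have h6 : S.b q * (S.γ q * E.P q q * S.b (-q)) = S.b q * S.a q := by
          rw [mul_comm (S.b q) (S.a q), h1, ← h3]
          linear_combination (S.γ q * E.P q q) * h2
        exact mul_left_cancel₀ h5 h6
      linear_combination (-(S.b 0)) * h4
    · have h1 := S.ab (-w) (neg_ne_zero.2 hw)
      have h2 := S.bb w hw
      have h3 := S.ab (q + w) (by rwa [add_comm])
      have h4 := S.bb (w + q) hwq
      have h5 := S.γ_add w q
      have h6 := E.mul_neg_right w q
      rw [add_comm q w] at h3 ⊢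
      -- a(-w) = b w / γ w, b(-(w+q)) = γ(w+q) a(w+q)
      have hγ := S.γ_ne w
      have k1 : S.γ w * S.a (-w) = S.b w := by
        rw [← h2]; linear_combination (S.b w) * h1
      have k2 : S.b (-(w + q)) = S.γ (w + q) * S.a (w + q) := by
        rw [← h4]; linear_combination (-(S.b (-(w + q)))) * h3
      have k3 : S.γ (w + q) = S.γ w * S.γ q * E.P w (-q) := by
        rw [← h5]; linear_combination (-(S.γ (w + q))) * h6
      have k4 : S.γ w * (S.a (-w) * S.b (-(w + q)))
          = S.γ w * (S.γ q * E.P w (-q) * (S.a (w + q) * S.b w)) := by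
        rw [k2, k3]
        linear_combination (S.γ w * S.γ q * E.P w (-q) * S.a (w + q)) * k1
      exact mul_left_cancel₀ hγ k4

theorem FT_err (q : G) (hq : q ≠ 0) (w : G) :
    E.FT (S.err q) w = -(S.κ * S.b (-q) * E.P w (-q) * S.err (-q) (-w)) := by
  classical
  have h1 : E.FT (S.err q) w = E.FT (E.FT (S.f q)) w
      - S.κ * S.b (-q) * ∑ v, E.P v w * (S.b (-v) * S.a (-q - v)) := by
    simp only [Pairing.FT, err, mul_sub, sum_sub_distrib]
    congr 1
    rw [mul_sum]
    refine sum_congr rfl fun v _ => by ring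
  have h2 : ∑ v, E.P v w * (S.b (-v) * S.a (-q - v))
      = E.P w (-q) * E.FT (S.f (-q)) (-w) := by
    rw [← Equiv.sum_comp (Equiv.subLeft (-q))]
    unfold Pairing.FT f
    rw [mul_sum]
    refine sum_congr rfl fun u _ => ?_
    rw [Equiv.subLeft_apply]
    have e1 : -(-q - u) = u - -q := by abel
    have e2 : -q - (-q - u) = u := by abel
    rw [e1, e2]
    have e3 : E.P (-q - u) w = E.P w (-q) * E.P u (-w) := by
      rw [sub_eq_add_neg, E.add_left, E.neg_left_eq_neg_right u w, E.symm (-q) w]
    rw [e3]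
    ring
  have h3 : E.FT (S.f (-q)) (-w) = S.err (-q) (-w) + S.κ * S.b q * S.b w * S.a (q + w) := by
    unfold err
    have e1 : - -q - -w = q + w := by abel
    rw [e1, neg_neg, neg_neg]
    ring
  rw [h1, E.FT_FT, S.f_neg q hq, h2, h3, ← S.hκ, ← S.bb q hq]
  unfold f
  have e2 : q + w - q = w := by abel
  rw [e2]
  ring

/-- **The region identity implies the identity for all `v`**, version with two coordinates `t`, `t'`:
the region of `t` is used for `q`, the region of `t'` for `-q`, and `(t q).val ≤ (t' q).val`. -/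
theorem star_of_region2 (N : ℕ) [NeZero N] (t t' : G →+ ZMod N) (h : G)
    (hh : ∀ v, E.P h v = Complex.exp (2 * Real.pi * Complex.I * ((t v).val : ℂ) / N))
    (q : G) (hq : t q ≠ 0) (hq' : t' q ≠ 0)
    (region : ∀ v : G, (t q).val + (t v).val < N →
      E.FT (S.f q) v = S.κ * S.b (-q) * S.b (-v) * S.a (-q - v))
    (region' : ∀ v : G, (t' (-q)).val + (t' v).val < N →
      E.FT (S.f (-q)) v = S.κ * S.b (- -q) * S.b (-v) * S.a (- -q - v))
    (hle : (t q).val ≤ (t' q).val)
    (hd : Nat.gcd (t' h).val N ∣ (t' q).val) (v : G) :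
    E.FT (S.f q) v = S.κ * S.b (-q) * S.b (-v) * S.a (-q - v) := by
  classical
  have hN : 0 < N := Nat.pos_of_ne_zero (NeZero.ne N)
  have hq0 : q ≠ 0 := by rintro rfl; exact hq (map_zero t)
  obtain ⟨J, hJ⟩ : ∃ J, J = (t q).val := ⟨_, rfl⟩
  have hJN : J < N := by rw [hJ]; exact ZMod.val_lt _
  have hJ0 : 0 < J := by
    rw [hJ]
    exact Nat.pos_of_ne_zero fun h0 => hq ((ZMod.val_eq_zero _).1 h0)
  -- the value of `t' (-q)`
  obtain ⟨J', hJ'⟩ : ∃ J', J' = (t' q).val := ⟨_, rfl⟩
  have hJN' : J' < N := by rw [hJ']; exact ZMod.val_lt _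
  have hJJ' : J ≤ J' := by rw [hJ, hJ']; exact hle
  have htq : (t' (-q)).val = N - J' := by
    rw [map_neg, ZMod.neg_val, if_neg hq', ← hJ']
  -- support of the error
  have herr1 : ∀ v, (t v).val < N - J → S.err q v = 0 := by
    intro v hv
    unfold err
    rw [region v (by omega), sub_self]
  have herr2 : ∀ v, (t' v).val < J' → S.err (-q) v = 0 := by
    intro v hv
    unfold err
    rw [region' v (by omega), sub_self]
  -- the root of unity
  obtain ⟨ζ, hζ⟩ : ∃ ζ : ℂ, ζ = Complex.exp (2 * Real.pi * Complex.I / N) := ⟨_, rfl⟩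
  have hζp : IsPrimitiveRoot ζ N := by
    rw [hζ]
    exact Complex.isPrimitiveRoot_exp N hN.ne'
  have hPh : ∀ v, E.P h v = ζ ^ (t v).val := by
    intro v
    rw [hh, hζ, ← Complex.exp_nat_mul]
    congr 1
    ring
  -- the polynomials
  have key : ∀ w₀ : G, ∀ k < J, ∑ v ∈ univ.filter (fun v => (t v).val = N - J + k),
      E.P v w₀ * S.err q v = 0 := by
    intro w₀
    let c : ℕ → ℂ := fun k => ∑ v ∈ univ.filter (fun v => (t v).val = N - J + k),
      E.P v w₀ * S.err q v
    have hFT : ∀ x : ℕ, E.FT (S.err q) (w₀ + x • h)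
        = ζ ^ ((N - J) * x) * ∑ k ∈ range J, c k * (ζ ^ x) ^ k := by
      intro x
      have h1 : E.FT (S.err q) (w₀ + x • h)
          = ∑ v, ζ ^ ((t v).val * x) * (E.P v w₀ * S.err q v) := by
        unfold Pairing.FT
        refine sum_congr rfl fun v _ => ?_
        rw [E.add_right, E.symm v (x • h), E.nsmul_left, hPh, ← pow_mul]
        ring
      have h2 : ∑ v, ζ ^ ((t v).val * x) * (E.P v w₀ * S.err q v)
          = ∑ v ∈ univ.filter (fun v => N - J ≤ (t v).val),
              ζ ^ ((t v).val * x) * (E.P v w₀ * S.err q v) := by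
        symm
        apply sum_subset (filter_subset _ _)
        intro v _ hv
        rw [mem_filter, not_and] at hv
        have hv' := hv (mem_univ v)
        rw [herr1 v (by omega), mul_zero, mul_zero]
      have h3 : ∑ v ∈ univ.filter (fun v => N - J ≤ (t v).val),
              ζ ^ ((t v).val * x) * (E.P v w₀ * S.err q v)
          = ∑ k ∈ range J, ∑ v ∈ (univ.filter (fun v => N - J ≤ (t v).val)).filter
              (fun v => (t v).val - (N - J) = k),
              ζ ^ ((t v).val * x) * (E.P v w₀ * S.err q v) := by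
        symm
        apply sum_fiberwise_of_maps_to
        intro v hv
        rw [mem_filter] at hv
        have := ZMod.val_lt (t v)
        rw [mem_range]
        omega
      rw [h1, h2, h3, mul_sum]
      refine sum_congr rfl fun k hk => ?_
      have h4 : (univ.filter (fun v => N - J ≤ (t v).val)).filter
              (fun v => (t v).val - (N - J) = k) = univ.filter (fun v => (t v).val = N - J + k) := by
        ext v
        simp only [mem_filter, mem_univ, true_and]
        constructor
        · rintro ⟨h5, h6⟩; omega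
        · intro h5; constructor <;> omega
      rw [h4]
      simp only [c, sum_mul, mul_sum]
      refine sum_congr rfl fun v hv => ?_
      rw [mem_filter] at hv
      rw [hv.2, ← pow_mul, show (N - J + k) * x = (N - J) * x + x * k by ring, pow_add]
      ring
    -- zeros
    let p : Polynomial ℂ := ∑ k ∈ range J, Polynomial.C (c k) * Polynomial.X ^ k
    have hpeval : ∀ z : ℂ, p.eval z = ∑ k ∈ range J, c k * z ^ k := by
      intro z
      simp [p, Polynomial.eval_finsetSum]
    have hzero : ∀ x : ZMod N, (t' (-w₀) - x * t' h).val < J' → p.eval (ζ ^ x.val) = 0 := by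
      intro x hx
      have h1 := hFT x.val
      rw [S.FT_err q hq0, herr2] at h1
      · rw [hpeval]
        rw [mul_zero, neg_zero] at h1
        have h2 : ζ ^ ((N - J) * x.val) ≠ 0 := pow_ne_zero _ (hζp.ne_zero hN.ne')
        exact (mul_eq_zero.1 h1.symm).resolve_left h2
      · have h3 : t' (-(w₀ + x.val • h)) = t' (-w₀) - x * t' h := by
          rw [neg_add, map_add, map_neg t' (x.val • h), map_nsmul, nsmul_eq_mul,
            ZMod.natCast_zmod_val]
          ring
        rw [h3]
        exact hx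
    have hp0 : p = 0 := by
      by_contra hp
      have hdeg : p.natDegree < J := by
        have : p.natDegree ≤ J - 1 := by
          apply Polynomial.natDegree_sum_le_of_forall_le
          intro k hk
          rw [mem_range] at hk
          exact (Polynomial.natDegree_C_mul_X_pow_le _ _).trans (by omega)
        omega
      have hcount := count_ge N (t' h) (t' (-w₀)) J' hJN'.le (by rw [hJ']; exact hd)
      have hinj : Set.InjOn (fun x : ZMod N => ζ ^ x.val)
          (↑(univ.filter (fun x : ZMod N => (t' (-w₀) - x * t' h).val < J')) : Set (ZMod N)) := by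
        intro x _ y _ hxy
        have := hζp.pow_inj (ZMod.val_lt x) (ZMod.val_lt y) hxy
        exact ZMod.val_injective N this
      have h1 : #((univ.filter (fun x : ZMod N => (t' (-w₀) - x * t' h).val < J')).image
          (fun x : ZMod N => ζ ^ x.val)) ≤ p.natDegree := by
        have h2 : ((univ.filter (fun x : ZMod N => (t' (-w₀) - x * t' h).val < J')).image
          (fun x : ZMod N => ζ ^ x.val)) ⊆ p.roots.toFinset := by
          intro z hz
          rw [mem_image] at hz
          obtain ⟨x, hx, rfl⟩ := hz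
          rw [mem_filter] at hx
          rw [Multiset.mem_toFinset, Polynomial.mem_roots hp]
          exact hzero x hx.2
        exact (card_le_card h2).trans ((Multiset.toFinset_card_le _).trans (Polynomial.card_roots' p))
      rw [card_image_of_injOn hinj] at h1
      omega
    intro k hk
    have h1 : p.coeff k = c k := by
      simp only [p, Polynomial.finsetSum_coeff, Polynomial.coeff_C_mul, Polynomial.coeff_X_pow]
      rw [sum_eq_single k]
      · simp
      · intro j _ hj
        rw [if_neg (fun h => hj h.symm), mul_zero]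
      · intro h; exact absurd (mem_range.2 hk) h
    rw [hp0, Polynomial.coeff_zero] at h1
    exact h1.symm
  -- conclusion
  have herr : S.err q v = 0 := by
    by_cases hv : (t v).val < N - J
    · exact herr1 v hv
    · have hv2 := ZMod.val_lt (t v)
      obtain ⟨k, hk⟩ : ∃ k, (t v).val = N - J + k := ⟨(t v).val - (N - J), by omega⟩
      have hkJ : k < J := by omega
      have h1 := E.FT_injective (fun u => if (t u).val = N - J + k then S.err q u else 0)
        (fun w => by
          refine Eq.trans ?_ (key w k hkJ)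
          unfold Pairing.FT
          rw [sum_filter]
          refine sum_congr rfl fun u _ => ?_
          simp only [mul_ite, mul_zero]) v
      simpa [hk] using h1
  unfold err at herr
  exact sub_eq_zero.1 herr

/-- **The region identity implies the identity for all `v`.** -/
theorem star_of_region (N : ℕ) [NeZero N] (t : G →+ ZMod N) (h : G)
    (hh : ∀ v, E.P h v = Complex.exp (2 * Real.pi * Complex.I * ((t v).val : ℂ) / N))
    (region : ∀ q v : G, t q ≠ 0 → (t q).val + (t v).val < N →
      E.FT (S.f q) v = S.κ * S.b (-q) * S.b (-v) * S.a (-q - v))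
    (q : G) (hq : t q ≠ 0) (hd : Nat.gcd (t h).val N ∣ (t q).val) (v : G) :
    E.FT (S.f q) v = S.κ * S.b (-q) * S.b (-v) * S.a (-q - v) := by
  refine S.star_of_region2 N t t h hh q hq hq (fun v => region q v hq)
    (fun v => region (-q) v ?_) le_rfl hd v
  intro h0
  rw [map_neg, neg_eq_zero] at h0
  exact hq h0

/-- The case of a point `q` of prime order `ℓ`. -/
theorem star_of_region_prime (N : ℕ) [NeZero N] (t : G →+ ZMod N) (h : G)
    (hh : ∀ v, E.P h v = Complex.exp (2 * Real.pi * Complex.I * ((t v).val : ℂ) / N))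
    (region : ∀ q v : G, t q ≠ 0 → (t q).val + (t v).val < N →
      E.FT (S.f q) v = S.κ * S.b (-q) * S.b (-v) * S.a (-q - v))
    (ℓ : ℕ) (hℓ : ℓ.Prime) (hnd : ¬ ℓ ∣ Nat.gcd (t h).val N)
    (q : G) (hq : t q ≠ 0) (hℓq : ℓ • q = 0) (v : G) :
    E.FT (S.f q) v = S.κ * S.b (-q) * S.b (-v) * S.a (-q - v) := by
  refine S.star_of_region N t h hh region q hq ?_ v
  refine gcd_dvd_of_nsmul N _ ℓ hℓ (t q) ?_ hnd
  rw [← map_nsmul, hℓq, map_zero]

end Sol

end Zau
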