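import Pool.Agent.Lib_zau.GalD
import Pool.Agent.Lib_zau.NearZ
import Pool.Agent.Lib_zau.AlgC
import Pool.Agent.Lib_zau.Link3
import Pool.Agent.Lib_zau.Final

/-!
# Zauner (MP_1c78a5_mp): assembly of the chain
-/

set_option autoImplicit false

namespace Zau

open Finset Pool.Agent.Results.MP_1c78a5_mp

/-- The near group equations, in the form of block B13. -/
theorem starGcd : StarGcd := fun L hD _ _ h1 h2 v => L.star hD h1 (fun g => h2 g) v

/-- The tower of ghost overlaps. -/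
theorem tower_rhoT {n : ℤ} (hn : 3 ≤ n) : Tower n (Cone.rhoT n) where
  per := Cone.rhoT_per hn
  odd := Cone.rhoT_odd hn
  eps := Cone.rhoT_eps hn
  dist := Cone.rhoT_dist hn
  near := near_of_all hn allBSol

/-- **Zauner's conjecture.** -/
theorem zauner (d : ℕ) [NeZero d] (hd : 2 ≤ d) : ∃ φ : ZMod d → ℂ, IsSIC φ := by
  refine zauner_of_conj (fun d _ hd => ?_) d hd
  have hn : (3 : ℤ) ≤ (d : ℤ) - 1 := by
    have : (4 : ℤ) ≤ d := by exact_mod_cast hd
    linarith
  have T := tower_rhoT hn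
  obtain ⟨σ, hσ⟩ := galois_d hd T (alg_of_all starGcd linkAll hn (by ring))
  refine ⟨σ, fun a b hab => ?_⟩
  have h2 : ‖σ ((GhostSIC.nu d a b : ℂ) ^ 2)‖ = 1 := by
    rw [← Complex.ofReal_pow, Link.nu_sq hd hab]
    exact hσ (a, b)
  rw [map_pow, norm_pow] at h2
  nlinarith [norm_nonneg (σ (GhostSIC.nu d a b : ℂ))]

end Zau
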